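import Pool.Agent.SR32.Defs

/-!
# Orbit and order counts: isomorphic groups, quotients, products
-/

namespace SR32

theorem om_le_of_surj {G H : Type*} [Group G] [Group H] [Finite G] (f : G → H)
    (hf : Function.Surjective f)
    (hφ : ∀ φ : MulAut G, ∃ ψ : MulAut H, ∀ g, f (φ g) = ψ (f g)) : om H ≤ om G := by
  unfold om
  have : Finite (MulAction.orbitRel.Quotient (MulAut G) G) := Quotient.finite _
  let F : MulAction.orbitRel.Quotient (MulAut G) G → MulAction.orbitRel.Quotient (MulAut H) H :=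
    Quotient.map' f (by
      intro a b hab
      rw [MulAction.orbitRel_apply] at hab ⊢
      obtain ⟨φ, hφ'⟩ := hab
      obtain ⟨ψ, hψ⟩ := hφ φ
      refine ⟨ψ, ?_⟩
      rw [← hφ']
      exact (hψ b).symm)
  apply Nat.card_le_card_of_surjective F
  intro q
  induction q using Quotient.inductionOn' with
  | h y =>
    obtain ⟨x, rfl⟩ := hf y
    exact ⟨Quotient.mk'' x, rfl⟩

theorem om_congr {G H : Type*} [Group G] [Group H] (e : G ≃* H) : om G = om H := by
  unfold om
  apply Nat.card_congr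
  refine Quotient.congr e.toEquiv ?_
  intro a b
  change MulAction.orbitRel (MulAut G) G a b ↔ MulAction.orbitRel (MulAut H) H (e a) (e b)
  rw [MulAction.orbitRel_apply, MulAction.orbitRel_apply]
  constructor
  · rintro ⟨φ, hφ⟩
    refine ⟨(e.symm.trans φ).trans e, ?_⟩
    change e (φ (e.symm (e b))) = e a
    rw [e.symm_apply_apply]
    exact congrArg e hφ
  · rintro ⟨φ, hφ⟩
    refine ⟨(e.trans φ).trans e.symm, ?_⟩
    change e.symm (φ (e b)) = a
    have : φ (e b) = e a := hφ
    rw [this, e.symm_apply_apply]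

theorem oo_congr {G H : Type*} [Group G] [Group H] (e : G ≃* H) : oo G = oo H := by
  unfold oo
  congr 1
  ext n
  constructor
  · rintro ⟨g, rfl⟩
    exact ⟨e g, by simp⟩
  · rintro ⟨h, rfl⟩
    exact ⟨e.symm h, by simp⟩

theorem om_quot_le {G : Type*} [Group G] [Finite G] (R : Subgroup G) [R.Characteristic] :
    om (G ⧸ R) ≤ om G := by
  apply om_le_of_surj (fun g : G => (g : G ⧸ R)) (QuotientGroup.mk_surjective)
  intro φ
  have h : R.map (φ : G ≃* G).toMonoidHom = R :=
    Subgroup.characteristic_iff_map_eq.1 inferInstance φ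
  refine ⟨QuotientGroup.congr R R φ h, ?_⟩
  intro g
  rfl

theorem oo_le_mul {G : Type*} [Group G] [Finite G] (R : Subgroup G) [R.Normal] :
    oo G ≤ oo (G ⧸ R) * oo R := by
  unfold oo
  rw [← Set.ncard_prod]
  have hsub : Set.range (fun g : G => orderOf g) ⊆
      (fun p : ℕ × ℕ => p.1 * p.2) '' ((Set.range (fun g : G ⧸ R => orderOf g)) ×ˢ
        (Set.range (fun g : R => orderOf g))) := by
    rintro _ ⟨g, rfl⟩
    have hmem : g ^ orderOf (g : G ⧸ R) ∈ R := by
      rw [← QuotientGroup.eq_one_iff, QuotientGroup.mk_pow, pow_orderOf_eq_one]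
    refine ⟨(orderOf (g : G ⧸ R), orderOf (⟨g ^ orderOf (g : G ⧸ R), hmem⟩ : R)),
      ⟨⟨_, rfl⟩, ⟨_, rfl⟩⟩, ?_⟩
    simp only
    rw [← Subgroup.orderOf_coe]
    simp only
    have hdvd : orderOf (g : G ⧸ R) ∣ orderOf g := orderOf_map_dvd (QuotientGroup.mk' R) g
    have hpos : orderOf (g : G ⧸ R) ≠ 0 := (orderOf_pos _).ne'
    rw [orderOf_pow_of_dvd hpos hdvd]
    exact Nat.mul_div_cancel' hdvd
  refine (Set.ncard_le_ncard hsub (Set.toFinite _)).trans ?_
  exact Set.ncard_image_le (Set.toFinite _)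

theorem oo_pi_le {ι : Type*} [Fintype ι] (G : ι → Type*) [∀ i, Group (G i)]
    [∀ i, Finite (G i)] : oo (∀ i, G i) ≤ ∏ i, oo (G i) := by
  classical
  unfold oo
  have h1 : ∏ i, (Set.range (fun g : G i => orderOf g)).ncard =
      (Fintype.piFinset (fun i => (Set.toFinite (Set.range (fun g : G i => orderOf g))).toFinset)).card := by
    rw [Fintype.card_piFinset]
    apply Finset.prod_congr rfl
    intro i _
    rw [Set.ncard_eq_toFinset_card _ (Set.toFinite _)]
  rw [h1, ← Set.ncard_coe_finset]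
  have hsub : Set.range (fun g : (∀ i, G i) => orderOf g) ⊆
      (fun p : (ι → ℕ) => Finset.univ.lcm p) '' (Fintype.piFinset (fun i =>
        (Set.toFinite (Set.range (fun g : G i => orderOf g))).toFinset) : Set (ι → ℕ)) := by
    rintro _ ⟨g, rfl⟩
    refine ⟨fun i => orderOf (g i), ?_, ?_⟩
    · rw [Finset.mem_coe, Fintype.mem_piFinset]
      intro i
      rw [Set.Finite.mem_toFinset]
      exact ⟨g i, rfl⟩
    · simp only
      apply Nat.dvd_antisymm
      · apply Finset.lcm_dvd
        intro i _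
        apply orderOf_dvd_of_pow_eq_one
        have := congrFun (pow_orderOf_eq_one g) i
        simpa using this
      · apply orderOf_dvd_of_pow_eq_one
        funext i
        rw [Pi.pow_apply, Pi.one_apply]
        apply orderOf_dvd_iff_pow_eq_one.1
        exact Finset.dvd_lcm (Finset.mem_univ i)
  refine (Set.ncard_le_ncard hsub ((Finset.finite_toSet _).image _)).trans ?_
  exact Set.ncard_image_le (Finset.finite_toSet _)

theorem two_le_oo (G : Type*) [Group G] [Finite G] [Nontrivial G] : 2 ≤ oo G := by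
  unfold oo
  obtain ⟨g, hg⟩ := exists_ne (1 : G)
  have h : ({1, orderOf g} : Set ℕ) ⊆ Set.range (fun g : G => orderOf g) := by
    rintro x (rfl | rfl)
    · exact ⟨1, orderOf_one⟩
    · exact ⟨g, rfl⟩
  have hne : (1 : ℕ) ≠ orderOf g := fun h1 => hg (orderOf_eq_one_iff.1 h1.symm)
  calc 2 = ({1, orderOf g} : Set ℕ).ncard := (Set.ncard_pair hne).symm
    _ ≤ _ := Set.ncard_le_ncard h (Set.toFinite _)

end SR32
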