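import Mathlib

/-!
# Automorphism orbits, element orders and the soluble radical: definitions

Common definitions for the result on `MP_f792c6_al`.
-/

namespace SR32

/-- `om G` is the number of orbits of `Aut G` on the elements of `G`. -/
noncomputable def om (G : Type*) [Group G] : ℕ :=
  Nat.card (MulAction.orbitRel.Quotient (MulAut G) G)

/-- `oo G` is the number of distinct orders of elements of `G`. -/
noncomputable def oo (G : Type*) [Group G] : ℕ :=
  (Set.range (fun g : G => orderOf g)).ncard

/-- The quotient of logarithms `log (om G) / log (oo G)`. -/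
noncomputable def ll (G : Type*) [Group G] : ℝ :=
  Real.log (om G) / Real.log (oo G)

/-- The soluble radical: the join of all soluble normal subgroups. -/
def Rad (G : Type*) [Group G] : Subgroup G :=
  sSup {N : Subgroup G | N.Normal ∧ Group.IsSolvable N}

/-- Minimal normal subgroups. -/
def IsMinNormal {G : Type*} [Group G] (N : Subgroup G) : Prop :=
  N.Normal ∧ N ≠ ⊥ ∧ ∀ M : Subgroup G, M.Normal → M ≤ N → M = ⊥ ∨ M = N

/-- The alternating group of degree `d`. -/
abbrev A (d : ℕ) : Type := alternatingGroup (Fin d)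

/-- The prime powers (greater than one) that are at most `d`. -/
noncomputable def PP (d : ℕ) : Finset ℕ := by
  classical
  exact (Finset.range (d + 1)).filter IsPrimePow

/-- The sets of prime powers with sum at most `d`. -/
noncomputable def EE (d : ℕ) : Finset (Finset ℕ) := by
  classical
  exact (PP d).powerset.filter (fun S => ∑ q ∈ S, q ≤ d)

/-- Multisets of `Aut`-classes against orders, for the group `(A d) ^ k`. -/
noncomputable def rr (L : ℕ) (p : ℕ × ℕ) : ℝ :=
  (Nat.multichoose (om (A p.1)) p.2 : ℝ) / (oo (Fin p.2 → A p.1) : ℝ) ^ L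

theorem mem_PP {d q : ℕ} : q ∈ PP d ↔ q ≤ d ∧ IsPrimePow q := by
  simp [PP]

theorem mem_EE {d : ℕ} {S : Finset ℕ} :
    S ∈ EE d ↔ (∀ q ∈ S, q ≤ d ∧ IsPrimePow q) ∧ ∑ q ∈ S, q ≤ d := by
  classical
  simp only [EE, Finset.mem_filter, Finset.mem_powerset, Finset.subset_iff, mem_PP]

theorem om_pos (G : Type*) [Group G] [Finite G] : 1 ≤ om G := by
  unfold om
  have : Nonempty (MulAction.orbitRel.Quotient (MulAut G) G) := ⟨Quotient.mk'' 1⟩
  have : Finite (MulAction.orbitRel.Quotient (MulAut G) G) := Quotient.finite _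
  exact Nat.card_pos

theorem oo_pos (G : Type*) [Group G] [Finite G] : 1 ≤ oo G := by
  unfold oo
  have h : 0 < (Set.range (fun g : G => orderOf g)).ncard :=
    (Set.ncard_pos (Set.toFinite _)).2 ⟨_, 1, rfl⟩
  exact h

instance Rad_characteristic (G : Type*) [Group G] : (Rad G).Characteristic := by
  rw [Subgroup.characteristic_iff_le_map]
  intro φ
  unfold Rad
  apply sSup_le
  rintro N ⟨hN, hs⟩
  have h1 : (N.map φ.symm.toMonoidHom).Normal ∧ Group.IsSolvable (N.map φ.symm.toMonoidHom) := by
    refine ⟨hN.map _ φ.symm.surjective, ?_⟩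
    exact Group.isSolvable_of_surjective (φ.symm.toMonoidHom.subgroupMap_surjective N)
  have h2 : N.map φ.symm.toMonoidHom ≤ sSup {N : Subgroup G | N.Normal ∧ Group.IsSolvable N} :=
    le_sSup h1
  have h3 := Subgroup.map_mono (f := φ.toMonoidHom) h2
  rw [Subgroup.map_map] at h3
  convert h3 using 1
  ext x
  simp

end SR32
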