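import Pool.Agent.SR32.Defs

/-!
# The simple factors of the minimal normal subgroups
-/

namespace SR32

universe u

/-- The simple factors of the minimal normal subgroups of `H`. -/
def Fac (H : Type u) [Group H] : Set (Subgroup H) :=
  {S | ∃ M : Subgroup H, IsMinNormal M ∧ S ≤ M ∧ IsMinNormal (S.subgroupOf M)}

end SR32
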