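import Pool.Agent.SR32.DefsX
import Pool.Agent.SR32.DefsFac

/-!
# Definitions for the version without a condition on the permutation of the simple factors
-/

namespace SR32

universe u

/-- Every primitive permutation group of degree `b > t` that is induced by a subgroup `M` of `Γ` on
the cosets of a maximal subgroup `Λ` of `M` (of index `b`; the order of the permutation group is the
index of the core of `Λ`) has order at most `2 ^ b` or at least `b! / 2`. -/
def PrimSmall (t : ℕ) (Γ : Type u) [Group Γ] : Prop :=
  ∀ (M : Subgroup Γ) (Λ : Subgroup M), IsCoatom Λ → t < Λ.index →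
    Λ.normalCore.index ≤ 2 ^ Λ.index ∨ Λ.index.factorial ≤ 2 * Λ.normalCore.index

/-- Two colourings are equivalent if an element of `Γ` maps one to the other. -/
def colS (Γ : Type*) (Ω : Type*) [Group Γ] [MulAction Γ Ω] (v : ℕ) : Setoid (Ω → Fin v) where
  r f f' := ∃ g : Γ, ∀ ω, f' (g • ω) = f ω
  iseqv := by
    refine ⟨fun f => ⟨1, fun ω => by rw [one_smul]⟩, ?_, ?_⟩
    · rintro f f' ⟨g, hg⟩
      refine ⟨g⁻¹, fun ω => ?_⟩
      have := hg (g⁻¹ • ω)
      rw [smul_inv_smul] at this
      exact this.symm
    · rintro f f' f'' ⟨g, hg⟩ ⟨h, hh⟩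
      refine ⟨h * g, fun ω => ?_⟩
      rw [mul_smul, hh, hg]

/-- The number of colourings of `Ω` with `v` colours up to `Γ`. -/
noncomputable def orbC (Γ : Type*) (Ω : Type*) [Group Γ] [MulAction Γ Ω] (v : ℕ) : ℕ :=
  Nat.card (Quotient (colS Γ Ω v))

/-- The least common multiple of `1, …, n`. -/
def LL (n : ℕ) : ℕ := (Finset.Icc 1 n).lcm id

/-- The alternative for the exceptional layer. -/
def AltLayer {Γ : Type u} [Group Γ] (I O : Subgroup Γ) : Prop :=
  I = O ∨ (5 ≤ (I.subgroupOf O).index ∧
    (I.subgroupOf O).index.factorial ≤ 2 * (I.subgroupOf O).normalCore.index)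

/-- The elements that normalize all simple factors. -/
def KK (H : Type u) [Group H] : Subgroup H := ⨅ S ∈ Fac H, Subgroup.normalizer S

/-- The elements of `H` whose inner automorphisms lie in all conjugates of the `D i`. -/
def UU {H : Type u} [Group H] {a : ℕ} (D : Fin a → Subgroup (MulAut H)) : Subgroup H :=
  (⨅ i, (D i).normalCore).comap MulAut.conj

end SR32
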