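import Pool.Agent.SR32.Defs
import Pool.Agent.ALT32.AutGeom
import Pool.Agent.ALT32.AutThree

/-!
# Many automorphism classes of elements of an alternating group
-/

namespace SR32

open Equiv

theorem ct_inv {d : ℕ} (h5 : 5 ≤ d) (h6 : d ≠ 6) (φ : MulAut (A d)) (a : A d) :
    ((φ a : A d) : Perm (Fin d)).cycleType = (a : Perm (Fin d)).cycleType := by
  obtain ⟨σ, hσ⟩ := Pool.Agent.ALT32.aut_geom h5 φ
    (fun c hc => Pool.Agent.ALT32.aut_three h5 h6 φ c hc)
  rw [hσ a]
  exact Equiv.Perm.cycleType_conj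

theorem ct_sum (k : ℕ) : ∑ j ∈ Finset.range k, (2 * j + 3) = (k + 1) ^ 2 - 1 := by
  have : ∑ j ∈ Finset.range k, (2 * j + 3) + 1 = (k + 1) ^ 2 := by
    induction k with
    | zero => simp
    | succ n ih =>
      rw [Finset.sum_range_succ]
      nlinarith [ih]
  omega

theorem ct_exists {d k : ℕ} (hk : (k + 1) ^ 2 ≤ d) (S : Finset ℕ) (hS : S ⊆ Finset.range k) :
    ∃ g : A d, (g : Perm (Fin d)).cycleType = S.val.map (fun j => 2 * j + 3) := by
  obtain ⟨g, hg⟩ := (Equiv.Perm.exists_with_cycleType_iff (Fin d)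
    (m := S.val.map (fun j => 2 * j + 3))).2 (by
      refine ⟨?_, ?_⟩
      · rw [Fintype.card_fin]
        have h1 : (S.val.map (fun j => 2 * j + 3)).sum = ∑ j ∈ S, (2 * j + 3) := rfl
        rw [h1]
        have h2 : ∑ j ∈ S, (2 * j + 3) ≤ ∑ j ∈ Finset.range k, (2 * j + 3) :=
          Finset.sum_le_sum_of_subset hS
        rw [ct_sum] at h2
        omega
      · intro a ha
        rw [Multiset.mem_map] at ha
        obtain ⟨j, _, rfl⟩ := ha
        omega)
  have hsign : Equiv.Perm.sign g = 1 := by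
    rw [Equiv.Perm.sign_of_cycleType, hg]
    have h1 : (S.val.map (fun j => 2 * j + 3)).sum + (S.val.map (fun j => 2 * j + 3)).card =
        2 * ∑ j ∈ S, (j + 2) := by
      rw [Multiset.card_map]
      have h2 : (S.val.map (fun j => 2 * j + 3)).sum = ∑ j ∈ S, (2 * j + 3) := rfl
      have h3 : S.val.card = ∑ j ∈ S, 1 := by simp
      rw [h2, h3, ← Finset.sum_add_distrib, Finset.mul_sum]
      apply Finset.sum_congr rfl
      intro j _
      ring
    rw [h1, pow_mul]
    simp
  exact ⟨⟨g, Equiv.Perm.mem_alternatingGroup.2 hsign⟩, hg⟩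

theorem om_alt_ge (d : ℕ) (h5 : 5 ≤ d) (h6 : d ≠ 6) : 2 ^ (Nat.sqrt d - 1) ≤ om (A d) := by
  classical
  set k := Nat.sqrt d - 1 with hk
  have hs : 1 ≤ Nat.sqrt d := Nat.sqrt_pos.2 (by omega)
  have hkd : (k + 1) ^ 2 ≤ d := by
    have : k + 1 = Nat.sqrt d := by omega
    rw [this]
    exact Nat.sqrt_le' d
  unfold om
  have : Finite (MulAction.orbitRel.Quotient (MulAut (A d)) (A d)) := Quotient.finite _
  choose g hg using fun S : (Finset.range k).powerset =>
    ct_exists hkd S.1 (Finset.mem_powerset.1 S.2)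
  have hcard : 2 ^ k = Nat.card (Finset.range k).powerset := by
    rw [Nat.card_eq_fintype_card, Fintype.card_coe, Finset.card_powerset, Finset.card_range]
  rw [hcard]
  refine Nat.card_le_card_of_injective
    (fun S => (Quotient.mk'' (g S) : MulAction.orbitRel.Quotient (MulAut (A d)) (A d))) ?_
  intro S T hST
  have h1 : MulAction.orbitRel (MulAut (A d)) (A d) (g S) (g T) := Quotient.exact hST
  rw [MulAction.orbitRel_apply] at h1
  obtain ⟨φ, hφ⟩ := h1
  have h2 := ct_inv h5 h6 φ (g T)
  have h3 : φ (g T) = g S := hφ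
  rw [h3, hg S, hg T] at h2
  have hinj : Function.Injective (fun j : ℕ => 2 * j + 3) := by
    intro a b hab
    simp only at hab
    omega
  have h4 := Multiset.map_injective hinj h2
  exact Subtype.ext (Finset.val_injective h4)

theorem two_le_om (d : ℕ) (h5 : 5 ≤ d) : 2 ≤ om (A d) := by
  classical
  unfold om
  have : Finite (MulAction.orbitRel.Quotient (MulAut (A d)) (A d)) := Quotient.finite _
  have hnt : Nontrivial (A d) := by
    apply alternatingGroup.nontrivial_of_three_le_card
    rw [Nat.card_eq_fintype_card, Fintype.card_fin]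
    omega
  obtain ⟨x, hx⟩ := exists_ne (1 : A d)
  have hne : (Quotient.mk'' x : MulAction.orbitRel.Quotient (MulAut (A d)) (A d)) ≠
      Quotient.mk'' 1 := by
    intro h
    have h1 : MulAction.orbitRel (MulAut (A d)) (A d) x 1 := Quotient.exact h
    rw [MulAction.orbitRel_apply] at h1
    obtain ⟨φ, hφ⟩ := h1
    apply hx
    have h3 : φ 1 = x := hφ
    rw [← h3, map_one]
  have : Nontrivial (MulAction.orbitRel.Quotient (MulAut (A d)) (A d)) := ⟨_, _, hne⟩
  exact Finite.one_lt_card

end SR32
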