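import Pool.Agent.SR32.Defs

/-!
# The number of prime powers up to `d` is `o(d)`

For a bound `P` the prime powers `q` with least prime factor at most `P` are at most
`(P + 1) * (log₂ d + 1)` many, and the other ones contribute at least `log P` each to the Chebyshev
function `ψ`, which is at most a constant times `d`.
-/

namespace SR32

open Finset

theorem den_log (δ : ℝ) (hδ : 0 < δ) : ∃ C : ℝ, 0 ≤ C ∧ ∀ d : ℕ, (Nat.log 2 d : ℝ) ≤ C + δ * d := by
  have h2 : 0 < Real.log 2 := Real.log_pos (by norm_num)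
  refine ⟨|(-1 - Real.log (δ * Real.log 2)) / Real.log 2|, abs_nonneg _, ?_⟩
  intro d
  rcases Nat.eq_zero_or_pos d with rfl | hd
  · simp
  · have hd' : (0 : ℝ) < d := by exact_mod_cast hd
    have h1 : ((2 : ℝ)) ^ (Nat.log 2 d) ≤ d := by
      exact_mod_cast Nat.pow_log_le_self 2 hd.ne'
    have h3 : (Nat.log 2 d : ℝ) * Real.log 2 ≤ Real.log d := by
      rw [← Real.log_pow]
      exact Real.log_le_log (by positivity) h1
    have h4 : Real.log (δ * Real.log 2 * d) ≤ δ * Real.log 2 * d - 1 :=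
      Real.log_le_sub_one_of_pos (by positivity)
    rw [Real.log_mul (by positivity) (by positivity)] at h4
    have h5 : (Nat.log 2 d : ℝ) ≤ (-1 - Real.log (δ * Real.log 2)) / Real.log 2 + δ * d := by
      rw [← sub_nonneg]
      have : (-1 - Real.log (δ * Real.log 2)) / Real.log 2 + δ * d - (Nat.log 2 d : ℝ) =
          ((-1 - Real.log (δ * Real.log 2)) + δ * Real.log 2 * d -
            (Nat.log 2 d : ℝ) * Real.log 2) / Real.log 2 := by
        field_simp
      rw [this]
      apply div_nonneg _ h2.le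
      linarith
    have h6 := le_abs_self ((-1 - Real.log (δ * Real.log 2)) / Real.log 2)
    linarith

theorem den_small (P d : ℕ) :
    ((PP d).filter (fun q => q.minFac ≤ P)).card ≤ (P + 1) * (Nat.log 2 d + 1) := by
  classical
  have h : (PP d).filter (fun q => q.minFac ≤ P) ⊆
      ((range (P + 1)) ×ˢ (range (Nat.log 2 d + 1))).image (fun x => x.1 ^ x.2) := by
    intro q hq
    rw [mem_filter, mem_PP] at hq
    obtain ⟨⟨hqd, hpp⟩, hP⟩ := hq
    rw [mem_image]
    have he := hpp.minFac_pow_factorization_eq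
    refine ⟨(q.minFac, q.factorization q.minFac), ?_, he⟩
    rw [mem_product, mem_range, mem_range]
    refine ⟨Nat.lt_succ_of_le hP, Nat.lt_succ_of_le ?_⟩
    apply Nat.le_log_of_pow_le (by norm_num)
    calc 2 ^ (q.factorization q.minFac) ≤ q.minFac ^ (q.factorization q.minFac) :=
          Nat.pow_le_pow_left (Nat.minFac_prime hpp.ne_one).two_le _
      _ = q := he
      _ ≤ d := hqd
  refine (card_le_card h).trans (card_image_le.trans ?_)
  rw [card_product, card_range, card_range]

theorem den_big (P d : ℕ) (hP : 1 ≤ P) :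
    (((PP d).filter (fun q => ¬ q.minFac ≤ P)).card : ℝ) * Real.log P ≤
      (Real.log 4 + 4) * d := by
  classical
  have h1 := Chebyshev.psi_le_const_mul_self (x := (d : ℝ)) (Nat.cast_nonneg d)
  refine le_trans ?_ h1
  unfold Chebyshev.psi
  rw [Nat.floor_natCast]
  have hsub : (PP d).filter (fun q => ¬ q.minFac ≤ P) ⊆ Ioc 0 d := by
    intro q hq
    rw [mem_filter, mem_PP] at hq
    rw [mem_Ioc]
    exact ⟨hq.1.2.pos, hq.1.1⟩
  calc (((PP d).filter (fun q => ¬ q.minFac ≤ P)).card : ℝ) * Real.log P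
      = ∑ q ∈ (PP d).filter (fun q => ¬ q.minFac ≤ P), Real.log P := by
        rw [sum_const, nsmul_eq_mul]
    _ ≤ ∑ q ∈ (PP d).filter (fun q => ¬ q.minFac ≤ P), ArithmeticFunction.vonMangoldt q := by
        apply sum_le_sum
        intro q hq
        rw [mem_filter, mem_PP, not_le] at hq
        rw [ArithmeticFunction.vonMangoldt_apply, if_pos hq.1.2]
        apply Real.log_le_log (by exact_mod_cast hP)
        exact_mod_cast hq.2.le
    _ ≤ ∑ q ∈ Ioc 0 d, ArithmeticFunction.vonMangoldt q :=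
        sum_le_sum_of_subset_of_nonneg hsub
          (fun _ _ _ => ArithmeticFunction.vonMangoldt_nonneg)

theorem pp_density (ε : ℝ) (hε : 0 < ε) :
    ∃ C : ℝ, ∀ d : ℕ, ((PP d).card : ℝ) ≤ C + ε * d := by
  classical
  set c : ℝ := Real.log 4 + 4 with hc
  have hc0 : 0 < c := by
    have : 0 < Real.log 4 := Real.log_pos (by norm_num)
    linarith
  obtain ⟨P, hP⟩ := exists_nat_ge (Real.exp (2 * c / ε))
  have hP0 : (0 : ℝ) < P := lt_of_lt_of_le (Real.exp_pos _) hP
  have hP1 : 1 ≤ P := by exact_mod_cast hP0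
  have hlog : 2 * c / ε ≤ Real.log P := by
    rw [Real.le_log_iff_exp_le hP0]
    exact hP
  have hlog0 : 0 < Real.log P := lt_of_lt_of_le (by positivity) hlog
  obtain ⟨C', hC', hlg⟩ := den_log (ε / (2 * (P + 1))) (by positivity)
  refine ⟨(P + 1) * (C' + 1), ?_⟩
  intro d
  have h0 : ((PP d).card : ℝ) = (((PP d).filter (fun q => q.minFac ≤ P)).card : ℝ) +
      (((PP d).filter (fun q => ¬ q.minFac ≤ P)).card : ℝ) := by
    rw [← Nat.cast_add, card_filter_add_card_filter_not]
  have h1 : (((PP d).filter (fun q => q.minFac ≤ P)).card : ℝ) ≤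
      (P + 1) * ((Nat.log 2 d : ℝ) + 1) := by
    exact_mod_cast den_small P d
  have h2 := den_big P d hP1
  have h3 : (((PP d).filter (fun q => ¬ q.minFac ≤ P)).card : ℝ) ≤ ε / 2 * d := by
    have h4 : (((PP d).filter (fun q => ¬ q.minFac ≤ P)).card : ℝ) * (2 * c / ε) ≤ c * d :=
      le_trans (mul_le_mul_of_nonneg_left hlog (Nat.cast_nonneg _)) h2
    have h5 : (((PP d).filter (fun q => ¬ q.minFac ≤ P)).card : ℝ) =
        ((((PP d).filter (fun q => ¬ q.minFac ≤ P)).card : ℝ) * (2 * c / ε)) * (ε / (2 * c)) := by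
      field_simp
    rw [h5]
    calc _ ≤ (c * d) * (ε / (2 * c)) := mul_le_mul_of_nonneg_right h4 (by positivity)
      _ = ε / 2 * d := by field_simp
  have h6 : ((P : ℝ) + 1) * ((Nat.log 2 d : ℝ) + 1) ≤ (P + 1) * (C' + 1) + ε / 2 * d := by
    have h7 := hlg d
    calc ((P : ℝ) + 1) * ((Nat.log 2 d : ℝ) + 1)
        ≤ (P + 1) * ((C' + ε / (2 * (P + 1)) * d) + 1) := by
          apply mul_le_mul_of_nonneg_left _ (by positivity)
          linarith
      _ = (P + 1) * (C' + 1) + ε / 2 * d := by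
          field_simp
          ring
  rw [h0]
  linarith

end SR32
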