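import Pool.Agent.SR32.Density

/-!
# The number of sets of prime powers with sum at most `d`

It is at most `exp (t * d) * ∏ (1 + exp (-t * q))`, the product over the prime powers `q ≤ d`, hence at
most `exp (t * d + ∑ exp (-t * q))`; as the number of prime powers up to `n` is at most `C + δ * n`,
summation by parts gives `∑ exp (-t * q) ≤ C + δ / t`; take `t = (ε / 2) / √d` and `δ = ε ^ 2 / 4`.
-/

namespace SR32

open Finset

theorem part_gen (d : ℕ) (t : ℝ) (ht : 0 < t) :
    ((EE d).card : ℝ) ≤ Real.exp (t * d + ∑ q ∈ PP d, Real.exp (-t * q)) := by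
  classical
  have h1 : ∀ S ∈ EE d, (1 : ℝ) ≤ Real.exp (t * d) * ∏ q ∈ S, Real.exp (-t * q) := by
    intro S hS
    rw [mem_EE] at hS
    rw [← Real.exp_sum, ← Real.exp_add]
    apply Real.one_le_exp
    rw [← Finset.mul_sum]
    have h2 : (∑ q ∈ S, (q : ℝ)) ≤ d := by
      rw [← Nat.cast_sum]
      exact Nat.cast_le.2 hS.2
    nlinarith
  calc ((EE d).card : ℝ) = ∑ S ∈ EE d, (1 : ℝ) := by simp
    _ ≤ ∑ S ∈ EE d, Real.exp (t * d) * ∏ q ∈ S, Real.exp (-t * q) := sum_le_sum h1
    _ ≤ ∑ S ∈ (PP d).powerset, Real.exp (t * d) * ∏ q ∈ S, Real.exp (-t * q) := by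
        apply sum_le_sum_of_subset_of_nonneg
        · intro S hS
          rw [mem_EE] at hS
          rw [mem_powerset]
          intro q hq
          exact mem_PP.2 (hS.1 q hq)
        · intro S _ _
          exact mul_nonneg (Real.exp_pos _).le (prod_nonneg fun _ _ => (Real.exp_pos _).le)
    _ = Real.exp (t * d) * ∏ q ∈ PP d, (1 + Real.exp (-t * q)) := by
        rw [← mul_sum, Finset.prod_one_add]
    _ ≤ Real.exp (t * d) * ∏ q ∈ PP d, Real.exp (Real.exp (-t * q)) := by
        apply mul_le_mul_of_nonneg_left _ (Real.exp_pos _).le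
        apply prod_le_prod
        · intro q _
          have := Real.exp_pos (-t * q)
          linarith
        · intro q _
          have := Real.add_one_le_exp (Real.exp (-t * q))
          linarith
    _ = Real.exp (t * d + ∑ q ∈ PP d, Real.exp (-t * q)) := by
        rw [← Real.exp_sum, ← Real.exp_add]

theorem part_PP_zero : PP 0 = ∅ := by
  ext q
  rw [mem_PP]
  constructor
  · rintro ⟨h1, h2⟩
    exact absurd h2.pos (by omega)
  · intro h
    simp at h

theorem part_abel (C δ : ℝ) (hC : ∀ d : ℕ, ((PP d).card : ℝ) ≤ C + δ * d) (f : ℕ → ℝ)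
    (hf : ∀ n, f (n + 1) ≤ f n) (N : ℕ) :
    ∑ q ∈ PP N, f q + (C + δ * N - (PP N).card) * f N ≤
      C * f 0 + δ * ∑ n ∈ range N, f (n + 1) := by
  classical
  induction N with
  | zero => simp [part_PP_zero]
  | succ N ih =>
    have key : ∑ q ∈ PP (N + 1), f q + (C + δ * ((N + 1 : ℕ) : ℝ) - (PP (N + 1)).card) * f (N + 1) =
        ∑ q ∈ PP N, f q + (C + δ * N - (PP N).card) * f (N + 1) + δ * f (N + 1) := by
      by_cases hp : IsPrimePow (N + 1)
      · have h1 : PP (N + 1) = insert (N + 1) (PP N) := by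
          ext q
          rw [mem_insert, mem_PP, mem_PP]
          constructor
          · rintro ⟨h1, h2⟩
            rcases Nat.lt_or_ge q (N + 1) with h | h
            · exact Or.inr ⟨by omega, h2⟩
            · exact Or.inl (by omega)
          · rintro (rfl | ⟨h1, h2⟩)
            · exact ⟨le_refl _, hp⟩
            · exact ⟨by omega, h2⟩
        have h2 : N + 1 ∉ PP N := by
          rw [mem_PP]
          rintro ⟨h, -⟩
          omega
        rw [h1, sum_insert h2, card_insert_of_notMem h2]
        push_cast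
        ring
      · have h1 : PP (N + 1) = PP N := by
          ext q
          rw [mem_PP, mem_PP]
          constructor
          · rintro ⟨h1, h2⟩
            refine ⟨?_, h2⟩
            rcases Nat.lt_or_ge q (N + 1) with h | h
            · omega
            · exact absurd ((show q = N + 1 by omega) ▸ h2) hp
          · rintro ⟨h1, h2⟩
            exact ⟨by omega, h2⟩
        rw [h1]
        push_cast
        ring
    rw [key, sum_range_succ, mul_add, ← add_assoc]
    have h3 : 0 ≤ C + δ * N - (PP N).card := by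
      have := hC N
      linarith
    have h4 := mul_le_mul_of_nonneg_left (hf N) h3
    linarith

theorem part_geom (t : ℝ) (N : ℕ) :
    t * ∑ n ∈ range N, Real.exp (-t * ((n + 1 : ℕ) : ℝ)) ≤ 1 - Real.exp (-t * N) := by
  induction N with
  | zero => simp
  | succ N ih =>
    rw [sum_range_succ, mul_add]
    have h1 : Real.exp (-t * N) = Real.exp t * Real.exp (-t * ((N + 1 : ℕ) : ℝ)) := by
      rw [← Real.exp_add]
      congr 1
      push_cast
      ring
    have h2 := Real.add_one_le_exp t
    have h3 := Real.exp_pos (-t * ((N + 1 : ℕ) : ℝ))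
    have h4 := mul_le_mul_of_nonneg_right h2 h3.le
    linarith

theorem part_bound (ε : ℝ) (hε : 0 < ε) :
    ∃ C : ℝ, ∀ d : ℕ, ((EE d).card : ℝ) ≤ Real.exp (C + ε * Real.sqrt d) := by
  obtain ⟨C₀, hC₀⟩ := pp_density (ε ^ 2 / 4) (by positivity)
  have hC : ∀ d : ℕ, ((PP d).card : ℝ) ≤ max C₀ 0 + ε ^ 2 / 4 * d := fun d =>
    (hC₀ d).trans (by
      have := le_max_left C₀ 0
      linarith)
  refine ⟨max C₀ 0, ?_⟩
  intro d
  rcases Nat.eq_zero_or_pos d with rfl | hd
  · refine (part_gen 0 1 one_pos).trans ?_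
    rw [part_PP_zero]
    apply Real.exp_le_exp.2
    simp
  · have hd' : (0 : ℝ) < d := by exact_mod_cast hd
    have hs : 0 < Real.sqrt d := Real.sqrt_pos.2 hd'
    have hss : Real.sqrt d * Real.sqrt d = d := Real.mul_self_sqrt hd'.le
    have ht : 0 < ε / 2 / Real.sqrt d := by positivity
    refine (part_gen d _ ht).trans ?_
    apply Real.exp_le_exp.2
    set t : ℝ := ε / 2 / Real.sqrt d with htd
    have h1 := part_abel (max C₀ 0) (ε ^ 2 / 4) hC (fun n => Real.exp (-t * n)) (by
      intro n
      apply Real.exp_le_exp.2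
      push_cast
      nlinarith) d
    have h2 : 0 ≤ (max C₀ 0 + ε ^ 2 / 4 * d - (PP d).card) * Real.exp (-t * d) := by
      apply mul_nonneg _ (Real.exp_pos _).le
      have := hC d
      linarith
    have h3 := part_geom t d
    have h4 : ∑ n ∈ range d, Real.exp (-t * ((n + 1 : ℕ) : ℝ)) ≤ 1 / t := by
      rw [le_div_iff₀ ht, mul_comm]
      have := Real.exp_pos (-t * d)
      linarith
    have h5 : Real.exp (-t * ((0 : ℕ) : ℝ)) = 1 := by simp
    rw [h5] at h1
    have h6 : ε ^ 2 / 4 * (1 / t) = ε / 2 * Real.sqrt d := by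
      rw [htd]
      field_simp
      ring
    have h7 : t * d = ε / 2 * Real.sqrt d := by
      rw [htd]
      nth_rewrite 2 [← hss]
      field_simp
    have h8 : ε ^ 2 / 4 * ∑ n ∈ range d, Real.exp (-t * ((n + 1 : ℕ) : ℝ)) ≤
        ε / 2 * Real.sqrt d := by
      rw [← h6]
      exact mul_le_mul_of_nonneg_left h4 (by positivity)
    simp only [mul_one] at h1
    rw [h7]
    linarith

end SR32
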