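import Pool.Agent.SR32.ExcCore
import Pool.Agent.SR32.Density
import Pool.Agent.SR32.Part

/-!
# SR32/Exc: only finitely many pairs `(d, k)` have few multisets of classes against orders

`rr_pos` is in `SR32/ExcCore`.
-/

namespace SR32

theorem finite_exc (L : ℕ) (C : ℝ) :
    {p : ℕ × ℕ | 5 ≤ p.1 ∧ 1 ≤ p.2 ∧ rr L p < C}.Finite :=
  finite_exc_of pp_density part_bound L C

end SR32
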