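import Pool.Agent.SR32.Defs

/-!
# SR32/Perm: automorphisms of a product of nonabelian simple groups permute the factors
-/

namespace SR32

section Perm

variable {ι : Type*} [DecidableEq ι] (S : ι → Type*) [∀ i, Group (S i)]

theorem perm_conj_single (a : ∀ i, S i) (i : ι) (t : S i) :
    a * Pi.mulSingle i t * a⁻¹ = Pi.mulSingle i (a i * t * (a i)⁻¹) := by
  funext k
  by_cases h : k = i
  · subst h
    simp
  · simp [Pi.mulSingle_eq_of_ne h]

variable [∀ i, IsSimpleGroup (S i)] (hc : ∀ i, Subgroup.center (S i) = ⊥)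
  (φ : (∀ i, S i) ≃* (∀ i, S i))

include hc in
/-- the image of the factor `i` contains a factor `j` -/
theorem perm_exists (i : ι) : ∃ j, ∀ s : S j, ∃ t : S i,
    φ (Pi.mulSingle i t) = Pi.mulSingle j s := by
  obtain ⟨t0, ht0⟩ := exists_ne (1 : S i)
  set u := φ (Pi.mulSingle i t0) with hu
  have hu1 : u ≠ 1 := by
    intro h
    rw [hu] at h
    have h1 := (map_eq_one_iff φ φ.injective).1 h
    have h2 := congrFun h1 i
    rw [Pi.mulSingle_eq_same, Pi.one_apply] at h2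
    exact ht0 h2
  obtain ⟨j, hj⟩ : ∃ j, u j ≠ 1 := by
    by_contra h
    push Not at h
    exact hu1 (funext h)
  obtain ⟨s0, hs0⟩ : ∃ s0 : S j, s0 * u j ≠ u j * s0 := by
    by_contra h
    push Not at h
    have h1 : u j ∈ Subgroup.center (S j) := Subgroup.mem_center_iff.2 h
    rw [hc j, Subgroup.mem_bot] at h1
    exact hj h1
  refine ⟨j, ?_⟩
  let H : Subgroup (S j) :=
    { carrier := {s | ∃ t : S i, φ (Pi.mulSingle i t) = Pi.mulSingle j s}
      one_mem' := ⟨1, by rw [Pi.mulSingle_one, Pi.mulSingle_one, map_one]⟩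
      mul_mem' := by
        rintro a b ⟨ta, ha⟩ ⟨tb, hb⟩
        exact ⟨ta * tb, by rw [Pi.mulSingle_mul, Pi.mulSingle_mul, map_mul, ha, hb]⟩
      inv_mem' := by
        rintro a ⟨ta, ha⟩
        exact ⟨ta⁻¹, by rw [Pi.mulSingle_inv, Pi.mulSingle_inv, map_inv, ha]⟩ }
  have hH : ∀ s : S j, s ∈ H ↔ ∃ t : S i, φ (Pi.mulSingle i t) = Pi.mulSingle j s :=
    fun s => Iff.rfl
  have hn : H.Normal := by
    constructor
    intro s hs g
    rw [hH] at hs ⊢
    obtain ⟨t, ht⟩ := hs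
    refine ⟨(φ.symm (Pi.mulSingle j g)) i * t * ((φ.symm (Pi.mulSingle j g)) i)⁻¹, ?_⟩
    rw [← perm_conj_single, map_mul, map_mul, map_inv, MulEquiv.apply_symm_apply, ht,
      perm_conj_single, Pi.mulSingle_eq_same]
  have hmem : u j * (s0 * (u j)⁻¹ * s0⁻¹) ∈ H := by
    rw [hH]
    refine ⟨t0 * ((φ.symm (Pi.mulSingle j s0)) i * t0⁻¹ * ((φ.symm (Pi.mulSingle j s0)) i)⁻¹), ?_⟩
    rw [Pi.mulSingle_mul, ← perm_conj_single, Pi.mulSingle_inv, map_mul, map_mul, map_mul,
      map_inv, map_inv, MulEquiv.apply_symm_apply, ← hu]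
    funext k
    by_cases h : k = j
    · subst h
      simp
    · simp [Pi.mulSingle_eq_of_ne h]
  have hne : H ≠ ⊥ := by
    intro h
    rw [h, Subgroup.mem_bot] at hmem
    apply hs0
    have h1 : u j * (s0 * (u j)⁻¹ * s0⁻¹) * s0 * u j = s0 * u j := by rw [hmem, one_mul]
    have h2 : u j * (s0 * (u j)⁻¹ * s0⁻¹) * s0 * u j = u j * s0 := by group
    rw [← h1, h2]
  have htop : H = ⊤ := (hn.eq_bot_or_eq_top).resolve_left hne
  intro s
  have : s ∈ H := by rw [htop]; exact Subgroup.mem_top s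
  exact (hH s).1 this

include hc in
theorem perm_exists_eq (i : ι) : ∃ j, (∀ s : S j, ∃ t : S i,
    φ (Pi.mulSingle i t) = Pi.mulSingle j s) ∧ ∀ t : S i, ∃ s : S j,
      φ (Pi.mulSingle i t) = Pi.mulSingle j s := by
  obtain ⟨j, hj⟩ := perm_exists S hc φ i
  obtain ⟨k, hk⟩ := perm_exists S hc φ.symm j
  have hki : k = i := by
    by_contra hne
    obtain ⟨r, hr⟩ := exists_ne (1 : S k)
    obtain ⟨s, hs⟩ := hk r
    obtain ⟨t, ht⟩ := hj s
    have h1 : (Pi.mulSingle k r : ∀ i, S i) = Pi.mulSingle i t := by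
      rw [← hs, ← ht, MulEquiv.symm_apply_apply]
    have h2 := congrFun h1 k
    rw [Pi.mulSingle_eq_same, Pi.mulSingle_eq_of_ne hne] at h2
    exact hr h2
  subst hki
  refine ⟨j, hj, fun t => ?_⟩
  obtain ⟨s, hs⟩ := hk t
  exact ⟨s, by rw [← hs, MulEquiv.apply_symm_apply]⟩

end Perm

theorem aut_pi {ι : Type*} [Finite ι] (S : ι → Type*) [∀ i, Group (S i)]
    [∀ i, IsSimpleGroup (S i)] (hc : ∀ i, Subgroup.center (S i) = ⊥)
    (φ : (∀ i, S i) ≃* (∀ i, S i)) :
    ∃ σ : Equiv.Perm ι, ∃ ψ : ∀ i, S i ≃* S (σ i),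
      ∀ (x : ∀ i, S i) (i : ι), φ x (σ i) = ψ i (x i) := by
  classical
  choose σ h1 h2 using perm_exists_eq S hc φ
  have hinj : Function.Injective σ := by
    intro i i' hii
    by_contra hne
    obtain ⟨t, ht⟩ := exists_ne (1 : S i)
    obtain ⟨s, hs⟩ := h2 i t
    have h1' : ∀ j, σ i' = j → ∀ s : S j, ∃ t' : S i', φ (Pi.mulSingle i' t') =
        Pi.mulSingle j s := by
      rintro j rfl s
      exact h1 i' s
    obtain ⟨t', ht'⟩ := h1' (σ i) hii.symm s
    have h3 : (Pi.mulSingle i t : ∀ i, S i) = Pi.mulSingle i' t' :=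
      φ.injective (hs.trans ht'.symm)
    have h4 := congrFun h3 i
    rw [Pi.mulSingle_eq_same, Pi.mulSingle_eq_of_ne hne] at h4
    exact ht h4
  have hf : ∀ i, Function.Bijective (fun t : S i => φ (Pi.mulSingle i t) (σ i)) := by
    intro i
    constructor
    · intro a b hab
      simp only at hab
      obtain ⟨sa, ha⟩ := h2 i a
      obtain ⟨sb, hb⟩ := h2 i b
      rw [ha, hb, Pi.mulSingle_eq_same, Pi.mulSingle_eq_same] at hab
      rw [hab, ← hb] at ha
      have h3 := congrFun (φ.injective ha) i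
      rw [Pi.mulSingle_eq_same, Pi.mulSingle_eq_same] at h3
      exact h3
    · intro s
      obtain ⟨t, ht⟩ := h1 i s
      refine ⟨t, ?_⟩
      simp only
      rw [ht, Pi.mulSingle_eq_same]
  let ψ : ∀ i, S i ≃* S (σ i) := fun i => MulEquiv.ofBijective
    (({ toFun := fun t : S i => φ (Pi.mulSingle i t) (σ i)
        map_one' := by rw [Pi.mulSingle_one, map_one, Pi.one_apply]
        map_mul' := fun a b => by rw [Pi.mulSingle_mul, map_mul, Pi.mul_apply] } :
          S i →* S (σ i))) (hf i)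
  have hψ : ∀ i (t : S i), ψ i t = φ (Pi.mulSingle i t) (σ i) := fun i t => rfl
  refine ⟨Equiv.ofBijective σ (Finite.injective_iff_bijective.1 hinj), ψ, ?_⟩
  intro x i
  show φ x (σ i) = ψ i (x i)
  rw [hψ]
  obtain ⟨y, hy⟩ : ∃ y : ∀ i, S i, y = (Pi.mulSingle i (x i))⁻¹ * x := ⟨_, rfl⟩
  have hxy : x = Pi.mulSingle i (x i) * y := by rw [hy, mul_inv_cancel_left]
  have hyi : y i = 1 := by
    rw [hy, Pi.mul_apply, Pi.inv_apply, Pi.mulSingle_eq_same, inv_mul_cancel]
  have hcomm : ∀ t : S i, y * Pi.mulSingle i t = Pi.mulSingle i t * y := by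
    intro t
    funext k
    by_cases h : k = i
    · subst h
      simp [hyi]
    · simp [Pi.mulSingle_eq_of_ne h]
  have hcen : φ y (σ i) ∈ Subgroup.center (S (σ i)) := by
    rw [Subgroup.mem_center_iff]
    intro s
    obtain ⟨t, ht⟩ := h1 i s
    have h3 : φ y * φ (Pi.mulSingle i t) = φ (Pi.mulSingle i t) * φ y := by
      rw [← map_mul, ← map_mul, hcomm t]
    rw [ht] at h3
    have h4 := congrFun h3 (σ i)
    rw [Pi.mul_apply, Pi.mul_apply, Pi.mulSingle_eq_same] at h4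
    exact h4.symm
  rw [hc, Subgroup.mem_bot] at hcen
  have h5 : φ x = φ (Pi.mulSingle i (x i)) * φ y := by rw [← map_mul, ← hxy]
  rw [h5, Pi.mul_apply, hcen, mul_one]

end SR32
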