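import Pool.Agent.SR32.Defs
import Pool.Agent.SR32.Perm

/-!
# SR32/Multi: orbits on a product of alternating groups against multisets of classes
-/

set_option autoImplicit false

namespace SR32

open MulAction

theorem multi_deg {d e : ℕ} (hd : 5 ≤ d) (he : 5 ≤ e) (f : A d ≃* A e) : d = e := by
  have h1 : Nat.card (A d) = Nat.card (A e) := Nat.card_congr f.toEquiv
  have : Nontrivial (Fin d) := Fin.nontrivial_iff_two_le.2 (by omega)
  have : Nontrivial (Fin e) := Fin.nontrivial_iff_two_le.2 (by omega)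
  have h2 := two_mul_nat_card_alternatingGroup (α := Fin d)
  have h3 := two_mul_nat_card_alternatingGroup (α := Fin e)
  have h4 : Nat.card (alternatingGroup (Fin d)) = Nat.card (alternatingGroup (Fin e)) := h1
  rw [h4, h3, Nat.card_perm, Nat.card_perm, Nat.card_eq_fintype_card, Nat.card_eq_fintype_card,
    Fintype.card_fin, Fintype.card_fin] at h2
  exact ((Nat.factorial_inj (by omega)).1 h2).symm

theorem multi_vec {α : Type*} (s : Multiset α) (k : ℕ) (h : Multiset.card s = k) :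
    ∃ v : Fin k → α, (Finset.univ : Finset (Fin k)).val.map v = s := by
  subst h
  induction s using Quotient.inductionOn with
  | _ l =>
    refine ⟨fun i => l.get (Fin.cast (Multiset.coe_card l) i), ?_⟩
    rw [Fin.univ_val_map]
    show ((List.ofFn _ : List α) : Multiset α) = (l : Multiset α)
    congr 1
    apply List.ext_get
    · simp
    · intro n h1 h2
      simp

/-- classes -/
abbrev Cl (d : ℕ) : Type := orbitRel.Quotient (MulAut (A d)) (A d)

theorem multi_cl {D : Finset ℕ} (hD : ∀ d ∈ D, 5 ≤ d) (d e : D) (f : A (d : ℕ) ≃* A (e : ℕ))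
    (a : A (d : ℕ)) :
    (⟨e, (Quotient.mk'' (f a) : Cl (e : ℕ))⟩ : Σ d : D, Cl (d : ℕ)) =
      ⟨d, (Quotient.mk'' a : Cl (d : ℕ))⟩ := by
  have h := multi_deg (hD _ d.2) (hD _ e.2) f
  have h' : d = e := Subtype.ext h
  subst h'
  congr 1
  refine Quotient.sound' ?_
  rw [MulAction.orbitRel_apply]
  exact ⟨f, rfl⟩

/-- the multiset of the classes of the coordinates -/
def multiM (D : Finset ℕ) (K : ℕ → ℕ) (x : ∀ p : (Σ d : D, Fin (K d)), A (p.1 : ℕ)) :
    Multiset (Σ d : D, Cl (d : ℕ)) :=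
  (Finset.univ : Finset (Σ d : D, Fin (K d))).val.map
    fun p => (⟨p.1, (Quotient.mk'' (x p) : Cl (p.1 : ℕ))⟩ : Σ d : D, Cl (d : ℕ))

theorem multiM_inv {D : Finset ℕ} (hD : ∀ d ∈ D, 5 ≤ d) (K : ℕ → ℕ)
    (φ : MulAut (∀ p : (Σ d : D, Fin (K d)), A (p.1 : ℕ)))
    (x : ∀ p : (Σ d : D, Fin (K d)), A (p.1 : ℕ)) : multiM D K (φ x) = multiM D K x := by
  have hs : ∀ p : (Σ d : D, Fin (K d)), IsSimpleGroup (A (p.1 : ℕ)) := fun p =>
    alternatingGroup.isSimpleGroup (by
      rw [Nat.card_eq_fintype_card, Fintype.card_fin]; exact hD _ p.1.2)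
  have hc : ∀ p : (Σ d : D, Fin (K d)), Subgroup.center (A (p.1 : ℕ)) = ⊥ := fun p =>
    alternatingGroup.center_eq_bot (by
      rw [Nat.card_eq_fintype_card, Fintype.card_fin]; have := hD _ p.1.2; omega)
  obtain ⟨σ, ψ, hψ⟩ := aut_pi (fun p : (Σ d : D, Fin (K d)) => A (p.1 : ℕ)) hc φ
  unfold multiM
  have h1 : ((Finset.univ : Finset (Σ d : D, Fin (K d))).val.map σ) = Finset.univ.val := by
    have := Finset.map_univ_equiv σ
    have h2 := congrArg Finset.val this
    rw [Finset.map_val] at h2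
    exact h2
  conv_lhs => rw [← h1]
  rw [Multiset.map_map]
  refine Multiset.map_congr rfl fun p _ => ?_
  rw [Function.comp_apply, hψ x p]
  exact multi_cl hD p.1 (σ p).1 (ψ p) (x p)

theorem multi_count {D : Finset ℕ} (K : ℕ → ℕ) (v : ∀ d : D, Fin (K d) → Cl (d : ℕ))
    (x : ∀ p : (Σ d : D, Fin (K d)), A (p.1 : ℕ))
    (hx : ∀ p : (Σ d : D, Fin (K d)), (Quotient.mk'' (x p) : Cl (p.1 : ℕ)) = v p.1 p.2)
    [DecidableEq (Σ d : D, Cl (d : ℕ))] (d : D) [DecidableEq (Cl (d : ℕ))] (o : Cl (d : ℕ)) :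
    (multiM D K x).count ⟨d, o⟩ = ((Finset.univ : Finset (Fin (K d))).val.map (v d)).count o := by
  classical
  unfold multiM
  rw [Multiset.count_map, Multiset.count_map]
  have h1 : Multiset.card (Multiset.filter (fun p : (Σ d : D, Fin (K d)) =>
      (⟨d, o⟩ : Σ d : D, Cl (d : ℕ)) = ⟨p.1, (Quotient.mk'' (x p) : Cl (p.1 : ℕ))⟩)
      Finset.univ.val) = (Finset.univ.filter fun p : (Σ d : D, Fin (K d)) =>
      (⟨d, o⟩ : Σ d : D, Cl (d : ℕ)) = ⟨p.1, (Quotient.mk'' (x p) : Cl (p.1 : ℕ))⟩).card := by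
    rw [Finset.card_def, Finset.filter_val]
  have h2 : Multiset.card (Multiset.filter (fun i : Fin (K d) => o = v d i)
      Finset.univ.val) = (Finset.univ.filter fun i : Fin (K d) => o = v d i).card := by
    rw [Finset.card_def, Finset.filter_val]
  rw [h1, h2]
  symm
  refine Finset.card_bij (fun i _ => (⟨d, i⟩ : Σ d : D, Fin (K d))) ?_ ?_ ?_
  · intro i hi
    rw [Finset.mem_filter] at hi ⊢
    refine ⟨Finset.mem_univ _, ?_⟩
    have := hx ⟨d, i⟩
    simp only at this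
    rw [this, ← hi.2]
  · intro i _ j _ h
    simpa using h
  · rintro ⟨e, i⟩ hi
    rw [Finset.mem_filter] at hi
    have h3 := hi.2
    have h4 : d = e := congrArg Sigma.fst h3
    subst h4
    refine ⟨i, ?_, rfl⟩
    rw [Finset.mem_filter]
    refine ⟨Finset.mem_univ _, ?_⟩
    have h5 := hx ⟨d, i⟩
    simp only at h5
    rw [h5] at h3
    exact eq_of_heq (Sigma.mk.inj h3).2

theorem om_pi_ge (D : Finset ℕ) (hD : ∀ d ∈ D, 5 ≤ d) (K : ℕ → ℕ) :
    ∏ d ∈ D, Nat.multichoose (om (A d)) (K d) ≤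
      om (∀ p : (Σ d : D, Fin (K d)), A (p.1 : ℕ)) := by
  classical
  have hfin : ∀ d : ℕ, Finite (Cl d) := fun d => Quotient.finite _
  obtain ⟨ft⟩ : Nonempty (∀ d : ℕ, Fintype (Cl d)) :=
    ⟨fun d => by
      have := hfin d
      exact Fintype.ofFinite _⟩
  have h1 : ∏ d ∈ D, Nat.multichoose (om (A d)) (K d) =
      Nat.card (∀ d : D, Sym (Cl (d : ℕ)) (K d)) := by
    rw [Nat.card_pi, ← Finset.prod_coe_sort]
    refine Finset.prod_congr rfl fun d _ => ?_
    let _ := ft d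
    rw [Nat.card_eq_fintype_card, Sym.card_sym_eq_multichoose]
    unfold om
    rw [← Nat.card_eq_fintype_card]
  rw [h1]
  unfold om
  -- the representatives
  have h2 : ∀ f : (∀ d : D, Sym (Cl (d : ℕ)) (K d)), ∃ v : ∀ d : D, Fin (K d) → Cl (d : ℕ),
      ∀ d : D, (Finset.univ : Finset (Fin (K d))).val.map (v d) = (f d).1 := by
    intro f
    have := fun d : D => multi_vec (f d).1 (K d) (f d).2
    choose v hv using this
    exact ⟨v, hv⟩
  choose v hv using h2
  obtain ⟨x, hx⟩ : ∃ x : (∀ d : D, Sym (Cl (d : ℕ)) (K d)) →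
      (∀ p : (Σ d : D, Fin (K d)), A (p.1 : ℕ)), ∀ f p,
        (Quotient.mk'' (x f p) : Cl (p.1 : ℕ)) = v f p.1 p.2 := by
    refine ⟨fun f p => Quotient.out (v f p.1 p.2), fun f p => ?_⟩
    exact Quotient.out_eq' (v f p.1 p.2)
  have hfq : Finite (orbitRel.Quotient (MulAut (∀ p : (Σ d : D, Fin (K d)), A (p.1 : ℕ)))
      (∀ p : (Σ d : D, Fin (K d)), A (p.1 : ℕ))) := Quotient.finite _
  refine Nat.card_le_card_of_injective (fun f => Quotient.mk'' (x f)) ?_
  intro f g hfg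
  have h3 : (orbitRel (MulAut (∀ p : (Σ d : D, Fin (K d)), A (p.1 : ℕ)))
      (∀ p : (Σ d : D, Fin (K d)), A (p.1 : ℕ))) (x f) (x g) := Quotient.exact' hfg
  rw [MulAction.orbitRel_apply] at h3
  obtain ⟨φ, hφ⟩ := h3
  have h4 : multiM D K (x f) = multiM D K (x g) := by
    rw [← hφ]
    exact multiM_inv hD K φ (x g)
  funext d
  apply Subtype.ext
  rw [← hv f d, ← hv g d]
  ext o
  rw [← multi_count K (v f) (x f) (hx f) d o, ← multi_count K (v g) (x g) (hx g) d o, h4]

end SR32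

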