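import Pool.Agent.SR32.Quot
import Pool.Agent.SR32.Multi
import Pool.Agent.SR32.Exc

/-!
# Collecting the factors of equal degree
-/

set_option autoImplicit false

namespace SR32

open Finset

/-- If the product of the values of `r` on a finite subset of `X` is at most `M`, the subset lies in
a fixed finite set. -/
theorem finset_bound {T : Type*} (r : T → ℝ) (X : Set T) (hpos : ∀ t ∈ X, 0 < r t)
    (hfin : ∀ C : ℝ, {t | t ∈ X ∧ r t < C}.Finite) (M : ℝ) :
    ∃ Y : Finset T, ∀ F : Finset T, (∀ t ∈ F, t ∈ X) → ∏ t ∈ F, r t ≤ M → F ⊆ Y := by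
  classical
  obtain ⟨S, hS⟩ : ∃ S : Finset T, S = (hfin 1).toFinset := ⟨_, rfl⟩
  have hSm : ∀ t, t ∈ S ↔ t ∈ X ∧ r t < 1 := by
    intro t; rw [hS, Set.Finite.mem_toFinset]; rfl
  have hc0 : 0 < ∏ t ∈ S, r t := prod_pos fun t ht => hpos t ((hSm t).1 ht).1
  refine ⟨(hfin (M / (∏ t ∈ S, r t) + 1)).toFinset, fun F hF hM t ht => ?_⟩
  rw [Set.Finite.mem_toFinset]
  refine ⟨hF t ht, ?_⟩
  have h1 : ∏ s ∈ S, r s ≤ ∏ s ∈ F.erase t, r s := by
    rw [← prod_filter_mul_prod_filter_not (F.erase t) (fun s => r s < 1)]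
    have h2 : (F.erase t).filter (fun s => r s < 1) ⊆ S := by
      intro s hs
      rw [mem_filter] at hs
      exact (hSm s).2 ⟨hF s (mem_of_mem_erase hs.1), hs.2⟩
    have h3 : 1 ≤ ∏ s ∈ (F.erase t).filter (fun s => ¬ r s < 1), r s := by
      have h31 := prod_le_prod (s := (F.erase t).filter (fun s => ¬ r s < 1))
        (f := fun _ => (1 : ℝ)) (g := r) (fun _ _ => zero_le_one)
        (fun s hs => not_lt.1 (mem_filter.1 hs).2)
      rwa [prod_const_one] at h31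
    have h4 : ∏ s ∈ S, r s ≤ ∏ s ∈ (F.erase t).filter (fun s => r s < 1), r s := by
      rw [← prod_sdiff h2]
      have h5 : ∏ s ∈ S \ (F.erase t).filter (fun s => r s < 1), r s ≤ 1 :=
        prod_le_one (fun s hs => (hpos s ((hSm s).1 (mem_sdiff.1 hs).1).1).le)
          (fun s hs => ((hSm s).1 (mem_sdiff.1 hs).1).2.le)
      have h6 : 0 ≤ ∏ s ∈ (F.erase t).filter (fun s => r s < 1), r s :=
        prod_nonneg fun s hs => (hpos s ((hSm s).1 (h2 hs)).1).le
      exact mul_le_of_le_one_left h6 h5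
    calc ∏ s ∈ S, r s ≤ (∏ s ∈ (F.erase t).filter (fun s => r s < 1), r s) * 1 := by
          rw [mul_one]; exact h4
      _ ≤ _ := mul_le_mul_of_nonneg_left h3
          (prod_nonneg fun s hs => (hpos s ((hSm s).1 (h2 hs)).1).le)
  have h7 : r t * ∏ s ∈ S, r s ≤ M := by
    refine le_trans (mul_le_mul_of_nonneg_left h1 (hpos t (hF t ht)).le) ?_
    rw [mul_prod_erase F r ht]
    exact hM
  have h8 : r t ≤ M / (∏ t ∈ S, r t) := (le_div_iff₀ hc0).2 h7
  linarith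

/-- Reindexing a product of alternating groups. -/
theorem pi_equiv {r : ℕ} {J : Type*} (n : Fin r → ℕ) (g : J → ℕ) (ε : Fin r ≃ J)
    (h : ∀ i, n i = g (ε i)) : Nonempty ((∀ i, A (n i)) ≃* (∀ j, A (g j))) := by
  obtain rfl : n = fun i => g (ε i) := funext h
  exact ⟨MulEquiv.symm
    { (Equiv.piCongrLeft (fun j => A (g j)) ε).symm with map_mul' := fun _ _ => rfl }⟩

/-- Currying. -/
def curry_equiv {I : Type*} (K : I → ℕ) (B : I → Type*) [∀ i, Group (B i)] :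
    (∀ p : (Σ i : I, Fin (K i)), B p.1) ≃* (∀ i : I, (Fin (K i) → B i)) where
  toFun f i k := f ⟨i, k⟩
  invFun g p := g p.1 p.2
  left_inv _ := rfl
  right_inv _ := rfl
  map_mul' _ _ := rfl

theorem card_bound (L m : ℕ) : ∃ B : ℕ, ∀ (r : ℕ) (n : Fin r → ℕ),
    (∀ i, 5 ≤ n i) → om (∀ i, A (n i)) ≤ (m * oo (∀ i, A (n i))) ^ L →
    Nat.card (∀ i, A (n i)) ≤ B := by
  classical
  obtain ⟨Y, hY⟩ := finset_bound (rr L) {p : ℕ × ℕ | 5 ≤ p.1 ∧ 1 ≤ p.2}
    (fun p hp => rr_pos L p hp.1)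
    (fun C => (finite_exc L C).subset (fun p hp => ⟨hp.1.1, hp.1.2, hp.2⟩)) ((m : ℝ) ^ L)
  refine ⟨∏ p ∈ Y, Nat.card (A p.1) ^ p.2, fun r n h5 hom => ?_⟩
  obtain ⟨D, hD⟩ : ∃ D : Finset ℕ, D = univ.image n := ⟨_, rfl⟩
  obtain ⟨K, hK⟩ : ∃ K : ℕ → ℕ, ∀ d, K d = #{i | n i = d} := ⟨_, fun _ => rfl⟩
  have hD5 : ∀ d ∈ D, 5 ≤ d := by
    intro d hd
    rw [hD, mem_image] at hd
    obtain ⟨i, -, rfl⟩ := hd
    exact h5 i
  have hK1 : ∀ d ∈ D, 1 ≤ K d := by
    intro d hd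
    rw [hD, mem_image] at hd
    obtain ⟨i, -, rfl⟩ := hd
    rw [hK, Nat.one_le_iff_ne_zero, card_ne_zero]
    exact ⟨i, by simp⟩
  -- the reindexing
  have hnD : ∀ i, n i ∈ D := fun i => by rw [hD]; exact mem_image_of_mem _ (mem_univ i)
  obtain ⟨e1⟩ : Nonempty ((∀ i, A (n i)) ≃* (∀ p : (Σ d : D, Fin (K d)), A (p.1 : ℕ))) := by
    let f : Fin r → D := fun i => ⟨n i, hnD i⟩
    have hcard : ∀ d : D, Fintype.card {i // f i = d} = K d := by
      intro d
      rw [Fintype.card_subtype, hK]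
      congr 1
      ext i
      simp only [mem_filter, mem_univ, true_and]
      exact ⟨fun h => congrArg Subtype.val h, fun h => Subtype.ext h⟩
    let ε : Fin r ≃ (Σ d : D, Fin (K d)) := (Equiv.sigmaFiberEquiv f).symm.trans
      (Equiv.sigmaCongrRight fun d => Fintype.equivFinOfCardEq (hcard d))
    exact pi_equiv n (fun p : (Σ d : D, Fin (K d)) => (p.1 : ℕ)) ε (fun i => rfl)
  have hW := om_pi_ge D hD5 K
  have hO : oo (∀ i, A (n i)) ≤ ∏ d ∈ D, oo (Fin (K d) → A d) := by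
    rw [oo_congr (e1.trans (curry_equiv (fun d : D => K d) (fun d : D => A (d : ℕ))))]
    refine (oo_pi_le (fun d : D => (Fin (K d) → A (d : ℕ)))).trans ?_
    rw [prod_coe_sort D (fun d => oo (Fin (K d) → A d))]
  rw [← om_congr e1] at hW
  -- the bound for the product of the ratios
  have hprod : ∏ p ∈ D.image (fun d => (d, K d)), rr L p ≤ (m : ℝ) ^ L := by
    rw [prod_image (fun a _ b _ h => congrArg Prod.fst h)]
    have h1 : ∏ d ∈ D, rr L (d, K d) = (∏ d ∈ D, (Nat.multichoose (om (A d)) (K d) : ℝ)) /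
        (∏ d ∈ D, (oo (Fin (K d) → A d) : ℝ)) ^ L := by
      rw [← prod_pow, ← prod_div_distrib]
      rfl
    rw [h1]
    have hpos : (0 : ℝ) < ∏ d ∈ D, (oo (Fin (K d) → A d) : ℝ) :=
      prod_pos fun d _ => by exact_mod_cast oo_pos _
    rw [div_le_iff₀ (pow_pos hpos L), ← mul_pow]
    have h2 : (∏ d ∈ D, Nat.multichoose (om (A d)) (K d)) ≤
        (m * ∏ d ∈ D, oo (Fin (K d) → A d)) ^ L :=
      hW.trans (hom.trans (Nat.pow_le_pow_left (Nat.mul_le_mul_left _ hO) _))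
    exact_mod_cast h2
  have hF := hY (D.image (fun d => (d, K d))) (by
    intro p hp
    obtain ⟨d, hd, rfl⟩ := mem_image.1 hp
    exact ⟨hD5 d hd, hK1 d hd⟩) hprod
  have hcard : Nat.card (∀ i, A (n i)) = ∏ p ∈ D.image (fun d => (d, K d)), Nat.card (A p.1) ^ p.2 := by
    rw [prod_image (fun a _ b _ h => congrArg Prod.fst h), Nat.card_pi,
      prod_comp (fun d => Nat.card (A d)) n, hD]
    refine prod_congr rfl fun d _ => ?_
    rw [hK]
  rw [hcard]
  refine prod_le_prod_of_subset_of_one_le' hF fun p _ _ => ?_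
  exact Nat.one_le_pow _ _ Nat.card_pos

end SR32
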