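import Pool.Agent.SR32.Collect
import Pool.Agent.SR32.ExcT

/-!
# From the finiteness of the exceptional pairs to a bound for the order, permuted factors
-/

namespace SR32

theorem QQ_card_pos (b k : ℕ) : 1 ≤ (QQ b k).card := by
  apply Finset.card_pos.2
  refine ⟨∅, ?_⟩
  rw [mem_QQ]
  simp

/-- Reindexing a product of alternating groups. -/
theorem reindexT {P I : Type*} (n : I → ℕ) (e : P ≃ I) (n' : P → ℕ) (h : ∀ p, n (e p) = n' p) :
    Nonempty ((∀ i, A (n i)) ≃* (∀ p, A (n' p))) := by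
  have h' : (fun p => n (e p)) = n' := funext h
  subst h'
  refine ⟨⟨Equiv.piCongrLeft' (fun i => A (n i)) e.symm, ?_⟩⟩
  intro x y
  rfl

theorem blockT (D : Finset ℕ) (K : ℕ → ℕ) :
    Nonempty ((∀ p : (Σ d : D, Fin (K d)), A (p.1 : ℕ)) ≃* (∀ d : D, (Fin (K d) → A (d : ℕ)))) := by
  refine ⟨⟨Equiv.piCurry (fun (d : D) (_ : Fin (K d)) => A (d : ℕ)), ?_⟩⟩
  intro x y
  rfl

theorem oo_blockT_le (D : Finset ℕ) (K : ℕ → ℕ) :
    oo (∀ p : (Σ d : D, Fin (K d)), A (p.1 : ℕ)) ≤ ∏ d ∈ D, oo (Fin (K d) → A d) := by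
  obtain ⟨e⟩ := blockT D K
  rw [oo_congr e]
  refine (oo_pi_le _).trans ?_
  rw [Finset.prod_coe_sort D (fun d => oo (Fin (K d) → A d))]

theorem card_blockT (D : Finset ℕ) (K : ℕ → ℕ) :
    Nat.card (∀ p : (Σ d : D, Fin (K d)), A (p.1 : ℕ)) = ∏ d ∈ D, Nat.card (A d) ^ K d := by
  obtain ⟨e⟩ := blockT D K
  rw [Nat.card_congr e.toEquiv, Nat.card_pi]
  rw [← Finset.prod_coe_sort D (fun d => Nat.card (A d) ^ K d)]
  apply Finset.prod_congr rfl
  intro d _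
  rw [Nat.card_pi]
  simp

theorem card_boundT_aux (L m t : ℕ) : ∃ B : ℕ, ∀ (I : Type) [Fintype I] (n : I → ℕ),
    (∀ i, 5 ≤ n i) → ∀ K : ℕ → ℕ, (∀ e, K e = Nat.card {i // n i = e}) → ∀ D : Finset ℕ,
    (∀ e, e ∈ D ↔ ∃ i, n i = e) →
    om (∀ i, A (n i)) ≤ (m * oo (∀ i, A (n i)) *
      ∏ e ∈ D, (QQ (t * om (A e)) (K e)).card) ^ L →
    Nat.card (∀ i, A (n i)) ≤ B := by
  classical
  obtain ⟨Y, hY⟩ := finset_bound (rt L t) {p : ℕ × ℕ | 5 ≤ p.1 ∧ 1 ≤ p.2}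
    (fun p hp => rt_pos L t p hp.1)
    (fun C => (finite_excT L t C).subset (fun p hp => ⟨hp.1.1, hp.1.2, hp.2⟩)) ((m : ℝ) ^ L)
  refine ⟨∏ p ∈ Y, Nat.card (A p.1) ^ p.2, ?_⟩
  intro I _ n h5 K hK D hD hom
  have hD5 : ∀ d ∈ D, 5 ≤ d := by
    intro d hd
    obtain ⟨i, rfl⟩ := (hD d).1 hd
    exact h5 i
  have hK1 : ∀ d ∈ D, 1 ≤ K d := by
    intro d hd
    obtain ⟨i, hi⟩ := (hD d).1 hd
    rw [hK]
    have : Nonempty {i // n i = d} := ⟨⟨i, hi⟩⟩
    exact Nat.card_pos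
  -- the index equivalence
  have hI : ∃ e : (Σ d : D, Fin (K d)) ≃ I, ∀ p, n (e p) = (p.1 : ℕ) := by
    let f : I → D := fun i => ⟨n i, (hD (n i)).2 ⟨i, rfl⟩⟩
    have hg : ∀ d : D, Nonempty (Fin (K d) ≃ {i // f i = d}) := by
      intro d
      have h1 : Nonempty (Fin (K d) ≃ {i // n i = (d : ℕ)}) := by
        rw [hK]
        exact ⟨(Finite.equivFin {i // n i = (d : ℕ)}).symm⟩
      obtain ⟨g1⟩ := h1
      exact ⟨g1.trans (Equiv.subtypeEquivRight (fun i => by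
        constructor
        · intro h; exact Subtype.ext h
        · intro h; exact congrArg Subtype.val h))⟩
    let g := fun d => (hg d).some
    refine ⟨(Equiv.sigmaCongrRight g).trans (Equiv.sigmaFiberEquiv f), ?_⟩
    rintro ⟨d, j⟩
    change n ((g d j).1) = d
    exact congrArg Subtype.val (g d j).2
  obtain ⟨eI, heI⟩ := hI
  obtain ⟨e⟩ := reindexT n eI (fun p => (p.1 : ℕ)) heI
  rw [om_congr e, oo_congr e] at hom
  rw [Nat.card_congr e.toEquiv, card_blockT]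
  have h1 := (om_pi_ge D hD5 K).trans hom
  have h2 : (m * oo (∀ p : (Σ d : D, Fin (K d)), A (p.1 : ℕ)) *
      ∏ e ∈ D, (QQ (t * om (A e)) (K e)).card) ^ L ≤
      (m * (∏ d ∈ D, oo (Fin (K d) → A d)) * ∏ e ∈ D, (QQ (t * om (A e)) (K e)).card) ^ L :=
    Nat.pow_le_pow_left (Nat.mul_le_mul_right _ (Nat.mul_le_mul_left m (oo_blockT_le D K))) L
  have h3 := h1.trans h2
  have h4 : ∏ d ∈ D, rt L t (d, K d) ≤ (m : ℝ) ^ L := by
    have h5' : ∏ d ∈ D, rt L t (d, K d) =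
        ((∏ d ∈ D, Nat.multichoose (om (A d)) (K d) : ℕ) : ℝ) /
        (((∏ d ∈ D, oo (Fin (K d) → A d)) *
          (∏ e ∈ D, (QQ (t * om (A e)) (K e)).card) : ℕ) : ℝ) ^ L := by
      push_cast
      rw [← Finset.prod_mul_distrib, ← Finset.prod_pow, ← Finset.prod_div_distrib]
      rfl
    rw [h5']
    have hpos : (0 : ℝ) < (((∏ d ∈ D, oo (Fin (K d) → A d)) *
          (∏ e ∈ D, (QQ (t * om (A e)) (K e)).card) : ℕ) : ℝ) ^ L := by
      apply pow_pos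
      have hp1 : 0 < ∏ d ∈ D, oo (Fin (K d) → A d) := Finset.prod_pos (fun d _ => oo_pos _)
      have hp2 : 0 < ∏ e ∈ D, (QQ (t * om (A e)) (K e)).card :=
        Finset.prod_pos (fun d _ => QQ_card_pos _ _)
      exact_mod_cast Nat.mul_pos hp1 hp2
    rw [div_le_iff₀ hpos]
    have h6 : ((∏ d ∈ D, Nat.multichoose (om (A d)) (K d) : ℕ) : ℝ) ≤
        (((m * (∏ d ∈ D, oo (Fin (K d) → A d)) *
          ∏ e ∈ D, (QQ (t * om (A e)) (K e)).card) ^ L : ℕ) : ℝ) := by exact_mod_cast h3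
    refine h6.trans (le_of_eq ?_)
    push_cast
    rw [mul_assoc, mul_pow]
  have hinj : Set.InjOn (fun d : ℕ => (d, K d)) (D : Set ℕ) := by
    intro a _ b _ hab
    exact congrArg Prod.fst hab
  have h7 := hY (D.image (fun d => (d, K d))) (by
    intro p hp
    rw [Finset.mem_image] at hp
    obtain ⟨d, hd, rfl⟩ := hp
    exact ⟨hD5 d hd, hK1 d hd⟩) (by
    rw [Finset.prod_image hinj]
    exact h4)
  have h8 : ∏ d ∈ D, Nat.card (A d) ^ K d =
      ∏ p ∈ D.image (fun d => (d, K d)), Nat.card (A p.1) ^ p.2 := by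
    rw [Finset.prod_image hinj]
  rw [h8]
  apply Finset.prod_le_prod_of_subset_of_one_le' h7
  intro p _ _
  exact Nat.one_le_pow _ _ Nat.card_pos

theorem card_boundT (L m t : ℕ) : ∃ B : ℕ, ∀ (a : ℕ) (d s : Fin a → ℕ),
    (∀ j, 5 ≤ d j) → (∀ j, 1 ≤ s j) →
    om (∀ j, (Fin (s j) → A (d j))) ≤ (m * oo (∀ j, (Fin (s j) → A (d j))) *
      ∏ e ∈ Finset.univ.image d,
        (QQ (t * om (A e)) (∑ j ∈ Finset.univ.filter (fun j => d j = e), s j)).card) ^ L →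
    Nat.card (∀ j, (Fin (s j) → A (d j))) ≤ B := by
  classical
  obtain ⟨B, hB⟩ := card_boundT_aux L m t
  refine ⟨B, ?_⟩
  intro a d s h5 hs hom
  have he : Nonempty ((∀ p : (Σ j, Fin (s j)), A (d p.1)) ≃* (∀ j, (Fin (s j) → A (d j)))) := by
    refine ⟨⟨Equiv.piCurry (fun (j : Fin a) (_ : Fin (s j)) => A (d j)), ?_⟩⟩
    intro x y
    rfl
  obtain ⟨e⟩ := he
  rw [← om_congr e, ← oo_congr e] at hom
  rw [← Nat.card_congr e.toEquiv]
  refine hB (Σ j, Fin (s j)) (fun p => d p.1) (fun p => h5 p.1)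
    (fun e => ∑ j ∈ Finset.univ.filter (fun j => d j = e), s j) ?_ (Finset.univ.image d) ?_ hom
  · intro e'
    have h1 : Nat.card {p : (Σ j, Fin (s j)) // d p.1 = e'} =
        (Finset.univ.filter (fun p : (Σ j, Fin (s j)) => d p.1 = e')).card := by
      rw [Nat.card_eq_fintype_card, Fintype.card_subtype]
    rw [h1]
    have h2 : Finset.univ.filter (fun p : (Σ j, Fin (s j)) => d p.1 = e') =
        (Finset.univ.filter (fun j => d j = e')).sigma (fun j => Finset.univ) := by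
      ext p
      simp
    rw [h2, Finset.card_sigma]
    simp
  · intro e'
    rw [Finset.mem_image]
    constructor
    · rintro ⟨j, _, hj⟩
      exact ⟨⟨j, ⟨0, hs j⟩⟩, hj⟩
    · rintro ⟨p, hp⟩
      exact ⟨p.1, Finset.mem_univ _, hp⟩

end SR32
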