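import Pool.Agent.SR32.DefsX

/-!
# Uniform definitions, with the exponent of the permutation group on the simple factors
-/

namespace SR32

universe u

/-- The `n`-th powers of the elements of `Q` normalize all simple factors of `M`, for some `n` with
`1 ≤ n ≤ s ^ t`: the permutation group induced by `Q` on the simple factors of `M` has exponent at
most `s ^ t`. -/
def ExpFac (t s : ℕ) {Q : Type u} [Group Q] (M : Subgroup Q) : Prop :=
  ∃ n : ℕ, 0 < n ∧ n ≤ s ^ t ∧ ∀ x : Q, x ^ n ∈ FacNorm M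

/-- The kind of small and alternating minimal normal subgroups. -/
def GoodABE (t : ℕ) {Q : Type u} [Group Q] (M : Subgroup Q) : Prop :=
  ((∃ x ∈ M, ∃ y ∈ M, x * y ≠ y * x) ∧ Nat.card M ≤ t) ∨
    ∃ d s : ℕ, 5 ≤ d ∧ (s ≤ t * om (A d) ^ 2 ∨ ExpFac t s M ∨
      2 ^ s * autFac M ≤ om (A d) ^ s) ∧ Nonempty (M ≃* (Fin s → A d))

/-- The conditions of tameness on one minimal normal subgroup `M = S ^ s` of `Q`: `S` is of kind
`(η, t)`, and `s ≤ t * om S ^ 2`, or the permutation group induced by `Q` on the simple factors of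
`M` has exponent at most `s ^ t`, or the automorphisms of `Q` with `φ M = M` induce at most
`(om S / 2) ^ s` permutations of the simple factors of `M`. -/
def GoodE (η : ℕ → ℕ) (t : ℕ) {Q : Type u} [Group Q] (M : Subgroup Q) : Prop :=
  ∃ (S : Subgroup M) (s : ℕ), Kind η t S ∧ Nonempty (M ≃* (Fin s → S)) ∧
    (s ≤ t * om S ^ 2 ∨ ExpFac t s M ∨ 2 ^ s * autFac M ≤ om S ^ s)

/-- A group is `(η, t)`-tame if it has at most `t` element orders, or if `GoodE` holds for each of
its minimal normal subgroups. -/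
def TameE (η : ℕ → ℕ) (t : ℕ) (Q : Type u) [Group Q] : Prop :=
  oo Q ≤ t ∨ ∀ M : Subgroup Q, IsMinNormal M → GoodE η t M

/-- `X` has a series of characteristic subgroups of length `h` with `(η, t)`-tame factors. -/
def SerE (η : ℕ → ℕ) (t h : ℕ) (X : Type u) [Group X] : Prop :=
  ∃ (U : ℕ → Subgroup X) (_ : ∀ i, (U i).Characteristic), U 0 = ⊥ ∧ U h = ⊤ ∧
    (∀ i, U i ≤ U (i + 1)) ∧ ∀ i < h, TameE η t (U (i + 1) ⧸ (U i).subgroupOf (U (i + 1)))

/-- The kind of minimal normal subgroups not covered by `GoodABE` and `GoodC`. -/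
def GoodDE (η : ℕ → ℕ) (W s0 t T : ℕ) {Q : Type u} [Group Q] (M : Subgroup Q) : Prop :=
  ∃ (S : Subgroup M) (s : ℕ), IsSimpleGroup S ∧ (∃ x y : S, x * y ≠ y * x) ∧
    (Nat.card S ≤ T ∨ (Rich η S ∧ W ≤ om S)) ∧ s0 ≤ s ∧
    (ExpFac t s M ∨ 2 ^ s * autFac M ≤ om S ^ s) ∧ Nonempty (M ≃* (Fin s → S))

end SR32
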