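import Pool.Agent.SR32.DefsS
import Pool.Agent.SR32.DefsE

/-!
# Series with tame factors (exponent version) and factors with few element orders
-/

namespace SR32

universe u

/-- `X` has a series of characteristic subgroups of length `h` each factor of which is
`(η, t)`-tame (in the sense of `TameE`), or sparse relative to the number of automorphism classes of
the socle of `X`. -/
def SerSE (η : ℕ → ℕ) (t h : ℕ) (X : Type u) [Group X] : Prop :=
  ∃ (U : ℕ → Subgroup X) (_ : ∀ i, (U i).Characteristic), U 0 = ⊥ ∧ U h = ⊤ ∧
    (∀ i, U i ≤ U (i + 1)) ∧ ∀ i < h,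
      (TameE η t (U (i + 1) ⧸ (U i).subgroupOf (U (i + 1))) ∨
        Sparse η (om (Soc X)) (U (i + 1) ⧸ (U i).subgroupOf (U (i + 1))))

end SR32
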