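import Pool.Agent.SR32.DefsP

/-!
# Definitions for the version with a condition on the simple sections only
-/

namespace SR32

universe u

/-- Every nonabelian simple section of `Γ` (quotient of a subgroup) is of kind `(η, t)`. -/
def KindSec (η : ℕ → ℕ) (t : ℕ) (Γ : Type u) [Group Γ] : Prop :=
  ∀ (K : Subgroup Γ) (N : Subgroup K) [N.Normal], IsSimpleGroup (K ⧸ N) →
    (∃ x y : K ⧸ N, x * y ≠ y * x) → Kind η t (K ⧸ N)

/-- Every nonabelian minimal normal subgroup of a homomorphic image of a subgroup of `Γ` is a direct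
power of a group of kind `(η, t)`. -/
def PowSec (η : ℕ → ℕ) (t : ℕ) (Γ : Type u) [Group Γ] : Prop :=
  ∀ (X : Type u) [Group X] (K : Subgroup Γ) (f : K →* X), Function.Surjective f →
    ∀ M : Subgroup X, IsMinNormal M → (∃ x ∈ M, ∃ y ∈ M, x * y ≠ y * x) →
      ∃ (S : Subgroup M) (s : ℕ), Kind η t S ∧ Nonempty (M ≃* (Fin s → S))

/-- The alternative for the exceptional layer: `I` is maximal in `O`, of index `b > t`, and the
primitive group induced by `O` on the cosets of `I` has order greater than `2 ^ b`. -/
def BigLayer (t : ℕ) {Γ : Type u} [Group Γ] (I O : Subgroup Γ) : Prop :=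
  I = O ∨ (IsCoatom (I.subgroupOf O) ∧ t < (I.subgroupOf O).index ∧
    2 ^ (I.subgroupOf O).index < (I.subgroupOf O).normalCore.index)

end SR32
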