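import Pool.Agent.SR32.DefsFF
import Mathlib.GroupTheory.IsSubnormal

/-!
# The condition on the composition factors
-/

namespace SR32

universe u

/-- Every nonabelian composition factor of `H` (simple quotient of a subnormal subgroup) is of kind
`(η, t)`. -/
def KindCF (η : ℕ → ℕ) (t : ℕ) (H : Type u) [Group H] : Prop :=
  ∀ K : Subgroup H, K.IsSubnormal → ∀ (N : Subgroup K) [N.Normal], IsSimpleGroup (K ⧸ N) →
    (∃ x y : K ⧸ N, x * y ≠ y * x) → Kind η t (K ⧸ N)

end SR32
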