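import Pool.Agent.SR32.DefsY

/-!
# The condition on the minimal normal subgroups, with rich simple groups
-/

namespace SR32

universe u

/-- `M` is a direct power of a simple group that has order at most `t`, or is `η`-rich, or is an
alternating group of degree at least `5`. -/
def SimplePowY (η : ℕ → ℕ) (t : ℕ) (M : Type u) [Group M] : Prop :=
  (∃ (S : Subgroup M) (s : ℕ), IsSimpleGroup S ∧ (Nat.card S ≤ t ∨ Rich η S) ∧
    Nonempty (M ≃* (Fin s → S))) ∨
  ∃ d s : ℕ, 5 ≤ d ∧ Nonempty (M ≃* (Fin s → A d))

/-- Every minimal normal subgroup of `H` is a direct power of a simple group that has order at most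
`t`, or is `η`-rich, or is alternating. -/
def MinPowY (η : ℕ → ℕ) (t : ℕ) (H : Type u) [Group H] : Prop :=
  ∀ M : Subgroup H, IsMinNormal M → SimplePowY η t M

end SR32
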