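import Pool.Agent.SR32.DefsP

/-!
# Definitions: primitive groups above the stabilizer of a simple factor
-/

namespace SR32

universe u

/-- Whenever `M` is a subgroup of `Γ` and `Λ ≥ Δ` is a maximal subgroup of `M` of index `b > t`, the
primitive permutation group induced by `M` on the cosets of `Λ` (its order is the index of the core
of `Λ` in `M`) has order at most `2 ^ b` or at least `b! / 2`. -/
def PrimOver (t : ℕ) {Γ : Type u} [Group Γ] (Δ : Subgroup Γ) : Prop :=
  ∀ (M : Subgroup Γ) (Λ : Subgroup M), IsCoatom Λ → Δ ≤ Λ.map M.subtype → t < Λ.index →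
    Λ.normalCore.index ≤ 2 ^ Λ.index ∨ Λ.index.factorial ≤ 2 * Λ.normalCore.index

/-- The automorphisms of `H` that map the subgroup `S` to itself. -/
def Stab {H : Type u} [Group H] (S : Subgroup H) : Subgroup (MulAut H) where
  carrier := {φ | S.map φ.toMonoidHom = S}
  one_mem' := by
    change S.map (MulEquiv.toMonoidHom (1 : MulAut H)) = S
    have h : (MulEquiv.toMonoidHom (1 : MulAut H)) = MonoidHom.id H := by
      ext x
      rfl
    rw [h, Subgroup.map_id]
  mul_mem' := by
    intro φ ψ hφ hψ
    change S.map φ.toMonoidHom = S at hφ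
    change S.map ψ.toMonoidHom = S at hψ
    change S.map (MulEquiv.toMonoidHom (φ * ψ)) = S
    have h : (MulEquiv.toMonoidHom (φ * ψ)) = φ.toMonoidHom.comp ψ.toMonoidHom := rfl
    rw [h, ← Subgroup.map_map, hψ, hφ]
  inv_mem' := by
    intro φ hφ
    change S.map φ.toMonoidHom = S at hφ
    change S.map (MulEquiv.toMonoidHom (φ⁻¹)) = S
    have h : (MulEquiv.toMonoidHom (φ⁻¹)).comp φ.toMonoidHom = MonoidHom.id H := by
      ext x
      exact φ.symm_apply_apply x
    conv_lhs => rw [← hφ]
    rw [Subgroup.map_map, h, Subgroup.map_id]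

end SR32
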