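import Pool.Agent.SR32.DefsX

/-!
# Series with tame factors and factors with few element orders
-/

namespace SR32

universe u

/-- The socle: the join of all minimal normal subgroups. -/
def Soc (H : Type u) [Group H] : Subgroup H := sSup {M : Subgroup H | IsMinNormal M}

/-- A group `Q` is sparse relative to `w` if the number of its element orders has its
`(η w + 1)`-th power at most `w`. -/
def Sparse (η : ℕ → ℕ) (w : ℕ) (Q : Type u) [Group Q] : Prop := oo Q ^ (η w + 1) ≤ w

/-- `X` has a series of characteristic subgroups of length `h` each factor of which is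
`(η, t)`-tame, or sparse relative to the number of automorphism classes of the socle of `X`. -/
def SerS (η : ℕ → ℕ) (t h : ℕ) (X : Type u) [Group X] : Prop :=
  ∃ (U : ℕ → Subgroup X) (_ : ∀ i, (U i).Characteristic), U 0 = ⊥ ∧ U h = ⊤ ∧
    (∀ i, U i ≤ U (i + 1)) ∧ ∀ i < h,
      (TameX η t (U (i + 1) ⧸ (U i).subgroupOf (U (i + 1))) ∨
        Sparse η (om (Soc X)) (U (i + 1) ⧸ (U i).subgroupOf (U (i + 1))))

end SR32
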