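import Pool.Agent.SR32.Defs

/-!
# Definitions for the version with permuted simple factors
-/

namespace SR32

/-- The sets of prime powers with sum at most `k` and all members at most `b`. -/
noncomputable def QQ (b k : ℕ) : Finset (Finset ℕ) := by
  classical
  exact (EE k).filter (fun S => ∀ q ∈ S, q ≤ b)

theorem mem_QQ {b k : ℕ} {S : Finset ℕ} :
    S ∈ QQ b k ↔ (∀ q ∈ S, q ≤ k ∧ IsPrimePow q) ∧ ∑ q ∈ S, q ≤ k ∧ ∀ q ∈ S, q ≤ b := by
  classical
  simp only [QQ, Finset.mem_filter, mem_EE, and_assoc]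

/-- Multisets of `Aut`-classes against orders, for `(A d) ^ k` extended by a permutation group
of degree `k` with orbits of length at most `t * om (A d)`. -/
noncomputable def rt (L t : ℕ) (p : ℕ × ℕ) : ℝ :=
  (Nat.multichoose (om (A p.1)) p.2 : ℝ) /
    ((oo (Fin p.2 → A p.1) : ℝ) * ((QQ (t * om (A p.1)) p.2).card : ℝ)) ^ L

end SR32
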