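import Pool.Agent.SR32.DefsT

/-!
# Definitions for the version with characteristic series
-/

namespace SR32

universe u

/-- A group is `t`-good if it has at most `t` element orders, or if each of its minimal normal
subgroups is nonabelian of order at most `t` or a direct power `(A d) ^ s` with `d ≥ 5` and
`s ≤ t * om (A d) ^ 2`. -/
def Good (t : ℕ) (Q : Type u) [Group Q] : Prop :=
  oo Q ≤ t ∨ ∀ M : Subgroup Q, IsMinNormal M →
    ((∃ x ∈ M, ∃ y ∈ M, x * y ≠ y * x) ∧ Nat.card M ≤ t) ∨
    ∃ d s : ℕ, 5 ≤ d ∧ s ≤ t * om (A d) ^ 2 ∧ Nonempty (M ≃* (Fin s → A d))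

/-- `Ser t h X`: the group `X` has a characteristic series of length `h` with `t`-good factors.
For `h = 0` the group is trivial; for `h + 1` there is a characteristic subgroup `N` of `X`, itself
`t`-good, such that `X ⧸ N` has such a series of length `h`. -/
def Ser (t : ℕ) : ℕ → (X : Type u) → [Group X] → Prop
  | 0, X, _ => Subsingleton X
  | h + 1, X, _ => ∃ (N : Subgroup X) (_ : N.Characteristic), Good t N ∧ Ser t h (X ⧸ N)

end SR32
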