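import Pool.Agent.SR32.DefsU

/-!
# Definitions for the grouping of the minimal normal subgroups by isomorphism type
-/

namespace SR32

/-- The number of multisets of size `a` of multisets of size `s` of automorphism classes. -/
noncomputable def VV (d s a : ℕ) : ℕ := Nat.multichoose (Nat.multichoose (om (A d)) s) a

/-- `VV` against orders, for `a` minimal normal subgroups `(A d) ^ s`. -/
noncomputable def rv (L : ℕ) (p : ℕ × ℕ × ℕ) : ℝ :=
  (VV p.1 p.2.1 p.2.2 : ℝ) /
    ((oo (Fin (p.2.1 * p.2.2) → A p.1) : ℝ) * ((QQ p.2.1 (p.2.1 * p.2.2)).card : ℝ)) ^ L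

end SR32
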