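import Pool.Agent.SR32.DefsV

/-!
# Definitions for the version with small permutation groups on the simple factors
-/

namespace SR32

universe u

/-- The intersection of the normalizers of the minimal normal subgroups of `M`. -/
def FacNorm {Q : Type u} [Group Q] (M : Subgroup Q) : Subgroup Q :=
  ⨅ S ∈ {S : Subgroup Q | S ≤ M ∧ IsMinNormal (S.subgroupOf M)}, Subgroup.normalizer S

/-- A group is `t`-tame if it has at most `t` element orders, or if each of its minimal normal
subgroups `M` is nonabelian of order at most `t` or a direct power `(A d) ^ s` with `d ≥ 5` such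
that `s ≤ t * om (A d) ^ 2` or the intersection of the normalizers of the simple factors of `M` has
index at most `s ^ t`. -/
def Tame (t : ℕ) (Q : Type u) [Group Q] : Prop :=
  oo Q ≤ t ∨ ∀ M : Subgroup Q, IsMinNormal M →
    ((∃ x ∈ M, ∃ y ∈ M, x * y ≠ y * x) ∧ Nat.card M ≤ t) ∨
    ∃ d s : ℕ, 5 ≤ d ∧ (s ≤ t * om (A d) ^ 2 ∨ (FacNorm M).index ≤ s ^ t) ∧
      Nonempty (M ≃* (Fin s → A d))

/-- `X` has a series of characteristic subgroups of length `h` with `t`-tame factors. -/
def SerT (t h : ℕ) (X : Type u) [Group X] : Prop :=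
  ∃ (U : ℕ → Subgroup X) (_ : ∀ i, (U i).Characteristic), U 0 = ⊥ ∧ U h = ⊤ ∧
    (∀ i, U i ≤ U (i + 1)) ∧ ∀ i < h, Tame t (U (i + 1) ⧸ (U i).subgroupOf (U (i + 1)))

/-- The largest number of divisors of a number between `1` and `s ^ t`. -/
def DD (t s : ℕ) : ℕ := (Finset.Icc 1 (s ^ t)).sup (fun n => n.divisors.card)

/-- `VV` against orders, for `a` minimal normal subgroups `(A d) ^ s` whose simple factors are
permuted by groups of order at most `s ^ t`. -/
noncomputable def rx (L t : ℕ) (p : ℕ × ℕ × ℕ) : ℝ :=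
  (VV p.1 p.2.1 p.2.2 : ℝ) /
    ((oo (Fin (p.2.1 * p.2.2) → A p.1) : ℝ) *
      ((min (DD t p.2.1 ^ p.2.2) (2 ^ (PP p.2.1).card) : ℕ) : ℝ)) ^ L

end SR32
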