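import Pool.Agent.SR32.DefsY

/-!
# Uniform definitions: the same three alternatives for all simple factors
-/

namespace SR32

universe u

/-- `S` is a nonabelian simple group that has order at most `t`, or is `η`-rich, or is an
alternating group of degree at least `5`. -/
def Kind (η : ℕ → ℕ) (t : ℕ) (S : Type u) [Group S] : Prop :=
  IsSimpleGroup S ∧ (∃ x y : S, x * y ≠ y * x) ∧
    (Nat.card S ≤ t ∨ Rich η S ∨ ∃ d : ℕ, 5 ≤ d ∧ Nonempty (S ≃* A d))

/-- Every minimal normal subgroup of `H` is a direct power of a group of kind `(η, t)`. -/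
def MinPowX (η : ℕ → ℕ) (t : ℕ) (H : Type u) [Group H] : Prop :=
  ∀ M : Subgroup H, IsMinNormal M →
    ∃ (S : Subgroup M) (s : ℕ), Kind η t S ∧ Nonempty (M ≃* (Fin s → S))

/-- The conditions of tameness on one minimal normal subgroup `M = S ^ s` of `Q`: `S` is of kind
`(η, t)`, and `s ≤ t * om S ^ 2`, or the intersection of the normalizers of the simple factors of `M`
has index at most `s ^ t`, or the automorphisms of `Q` with `φ M = M` induce at most
`(om S / 2) ^ s` permutations of the simple factors of `M`. -/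
def GoodX (η : ℕ → ℕ) (t : ℕ) {Q : Type u} [Group Q] (M : Subgroup Q) : Prop :=
  ∃ (S : Subgroup M) (s : ℕ), Kind η t S ∧ Nonempty (M ≃* (Fin s → S)) ∧
    (s ≤ t * om S ^ 2 ∨ (FacNorm M).index ≤ s ^ t ∨ 2 ^ s * autFac M ≤ om S ^ s)

/-- A group is `(η, t)`-tame if it has at most `t` element orders, or if `GoodX` holds for each of
its minimal normal subgroups. -/
def TameX (η : ℕ → ℕ) (t : ℕ) (Q : Type u) [Group Q] : Prop :=
  oo Q ≤ t ∨ ∀ M : Subgroup Q, IsMinNormal M → GoodX η t M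

/-- `X` has a series of characteristic subgroups of length `h` with `(η, t)`-tame factors. -/
def SerX (η : ℕ → ℕ) (t h : ℕ) (X : Type u) [Group X] : Prop :=
  ∃ (U : ℕ → Subgroup X) (_ : ∀ i, (U i).Characteristic), U 0 = ⊥ ∧ U h = ⊤ ∧
    (∀ i, U i ≤ U (i + 1)) ∧ ∀ i < h, TameX η t (U (i + 1) ⧸ (U i).subgroupOf (U (i + 1)))

/-- The kind of minimal normal subgroups not covered by `GoodAB` and `GoodC`. -/
def GoodD (η : ℕ → ℕ) (W s0 t T : ℕ) {Q : Type u} [Group Q] (M : Subgroup Q) : Prop :=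
  ∃ (S : Subgroup M) (s : ℕ), IsSimpleGroup S ∧ (∃ x y : S, x * y ≠ y * x) ∧
    (Nat.card S ≤ T ∨ (Rich η S ∧ W ≤ om S)) ∧ s0 ≤ s ∧
    ((FacNorm M).index ≤ s ^ t ∨ 2 ^ s * autFac M ≤ om S ^ s) ∧ Nonempty (M ≃* (Fin s → S))

end SR32
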