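import Pool.Agent.SR32.DefsZ

/-!
# Definitions for the version with arbitrary simple factors
-/

namespace SR32

universe u

/-- A nonabelian simple group `S` is `η`-rich if, with `w = om S` the number of its automorphism
classes, the number of orders of automorphisms of `S` has its `η w`-th power at most `w`, and
`(1 + log₂ |Aut S|) ^ 4 ≤ w` (logarithm rounded down). -/
def Rich (η : ℕ → ℕ) (S : Type u) [Group S] : Prop :=
  IsSimpleGroup S ∧ (∃ x y : S, x * y ≠ y * x) ∧ oo (MulAut S) ^ η (om S) ≤ om S ∧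
    (Nat.log 2 (Nat.card (MulAut S)) + 1) ^ 4 ≤ om S

/-- The conditions of `TameZ` on one minimal normal subgroup `M` of `Q`. -/
def GoodAB (t : ℕ) {Q : Type u} [Group Q] (M : Subgroup Q) : Prop :=
  ((∃ x ∈ M, ∃ y ∈ M, x * y ≠ y * x) ∧ Nat.card M ≤ t) ∨
    ∃ d s : ℕ, 5 ≤ d ∧ (s ≤ t * om (A d) ^ 2 ∨ (FacNorm M).index ≤ s ^ t ∨
      2 ^ s * autFac M ≤ om (A d) ^ s) ∧ Nonempty (M ≃* (Fin s → A d))

/-- `M` is a direct power `S ^ s` of an `η`-rich group `S` with `W ≤ om S` and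
`s ≤ t * om S ^ 2`. -/
def GoodC (η : ℕ → ℕ) (W t : ℕ) {Q : Type u} [Group Q] (M : Subgroup Q) : Prop :=
  ∃ (S : Subgroup M) (s : ℕ), Rich η S ∧ W ≤ om S ∧ s ≤ t * om S ^ 2 ∧
    Nonempty (M ≃* (Fin s → S))

/-- A group is `t`-tame if it has at most `t` element orders, or if each of its minimal normal
subgroups is of one of the kinds `GoodAB` or `GoodC`. -/
def TameY (η : ℕ → ℕ) (t : ℕ) (Q : Type u) [Group Q] : Prop :=
  oo Q ≤ t ∨ ∀ M : Subgroup Q, IsMinNormal M → GoodAB t M ∨ GoodC η 0 t M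

/-- `X` has a series of characteristic subgroups of length `h` with `t`-tame factors. -/
def SerY (η : ℕ → ℕ) (t h : ℕ) (X : Type u) [Group X] : Prop :=
  ∃ (U : ℕ → Subgroup X) (_ : ∀ i, (U i).Characteristic), U 0 = ⊥ ∧ U h = ⊤ ∧
    (∀ i, U i ≤ U (i + 1)) ∧ ∀ i < h, TameY η t (U (i + 1) ⧸ (U i).subgroupOf (U (i + 1)))

end SR32
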