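import Pool.Agent.SR32.DefsW

/-!
# Definitions for the version with automorphisms inducing few permutations of the simple factors
-/

namespace SR32

universe u

/-- The number of permutations of the minimal normal subgroups of `M` (given as maps
`S ↦ S.map φ`) that are induced by automorphisms `φ` of `Q` with `φ M = M`. -/
noncomputable def autFac {Q : Type u} [Group Q] (M : Subgroup Q) : ℕ :=
  Set.ncard {f : {S : Subgroup Q // S ≤ M ∧ IsMinNormal (S.subgroupOf M)} → Subgroup Q |
    ∃ φ : Q ≃* Q, M.map φ.toMonoidHom = M ∧ ∀ S, f S = (S : Subgroup Q).map φ.toMonoidHom}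

/-- A group is `t`-tame if it has at most `t` element orders, or if each of its minimal normal
subgroups `M` is nonabelian of order at most `t` or a direct power `(A d) ^ s` with `d ≥ 5` such
that `s ≤ t * om (A d) ^ 2`, or the intersection of the normalizers of the simple factors of `M` has
index at most `s ^ t`, or the automorphisms of `Q` with `φ M = M` induce at most
`(om (A d) / 2) ^ s` permutations of the simple factors of `M`. -/
def TameZ (t : ℕ) (Q : Type u) [Group Q] : Prop :=
  oo Q ≤ t ∨ ∀ M : Subgroup Q, IsMinNormal M →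
    ((∃ x ∈ M, ∃ y ∈ M, x * y ≠ y * x) ∧ Nat.card M ≤ t) ∨
    ∃ d s : ℕ, 5 ≤ d ∧ (s ≤ t * om (A d) ^ 2 ∨ (FacNorm M).index ≤ s ^ t ∨
      2 ^ s * autFac M ≤ om (A d) ^ s) ∧ Nonempty (M ≃* (Fin s → A d))

/-- `X` has a series of characteristic subgroups of length `h` with `t`-tame factors. -/
def SerZ (t h : ℕ) (X : Type u) [Group X] : Prop :=
  ∃ (U : ℕ → Subgroup X) (_ : ∀ i, (U i).Characteristic), U 0 = ⊥ ∧ U h = ⊤ ∧
    (∀ i, U i ≤ U (i + 1)) ∧ ∀ i < h, TameZ t (U (i + 1) ⧸ (U i).subgroupOf (U (i + 1)))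

/-- The number of orbits of `Aut H` on `H` that meet `M`. -/
noncomputable def vorb {H : Type u} [Group H] (M : Subgroup H) : ℕ :=
  ((fun x : H => (Quotient.mk'' x : MulAction.orbitRel.Quotient (MulAut H) H)) ''
    (M : Set H)).ncard

/-- `max VV (2 ^ s)` against orders. -/
noncomputable def ry (L : ℕ) (p : ℕ × ℕ × ℕ) : ℝ :=
  ((max (VV p.1 p.2.1 p.2.2) (2 ^ p.2.1) : ℕ) : ℝ) /
    ((oo (Fin (p.2.1 * p.2.2) → A p.1) : ℝ) * ((2 ^ (PP p.2.1).card : ℕ) : ℝ)) ^ L

end SR32
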