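import Pool.Agent.SR32.XAct

/-!
# Element orders modulo the centralizer of powers of simple groups, with the permutation group
-/

set_option autoImplicit false

namespace SR32

universe u

theorem oo_quot_imageE {H : Type u} [Group H] [Finite H] (a : ℕ) (M : Fin a → Subgroup H)
    (hn : ∀ j, (M j).Normal) (S : Fin a → Type u) [∀ j, Group (S j)] [∀ j, Finite (S j)]
    (hS : ∀ j, IsSimpleGroup (S j)) (hc : ∀ j, Subgroup.center (S j) = ⊥) (s : Fin a → ℕ)
    (e : ∀ j, M j ≃* (Fin (s j) → S j)) (C : Subgroup H) [C.Normal]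
    (hC : ∀ z : H, z ∈ C ↔ ∀ j, ∀ y ∈ M j, z * y = y * z) :
    ∃ I : Subgroup (∀ j, Equiv.Perm (Fin (s j))),
      (∀ (j : Fin a) (n : ℕ), (∀ x : H, x ^ n ∈ FacNorm (M j)) → ∀ y ∈ I, y j ^ n = 1) ∧
      oo (H ⧸ C) ≤ oo I * oo (∀ j, (Fin (s j) → MulAut (S j))) := by
  classical
  obtain ⟨τ, hτ1, hτ2, hτ⟩ := xact a M hn S hS hc s e C hC
  have hfa : ∀ j, Finite (MulAut (S j)) := fun j => inferInstance
  refine ⟨τ.range, fun j n hn => ?_, ?_⟩
  · rintro _ ⟨x, rfl⟩
    have h1 := hτ2 j (x ^ n) (hn x)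
    rw [map_pow] at h1
    exact h1
  unfold oo
  have hfin : (Set.range (fun g : τ.range => orderOf g) ×ˢ
      Set.range (fun g : (∀ j, (Fin (s j) → MulAut (S j))) => orderOf g)).Finite :=
    (Set.finite_range _).prod (Set.finite_range _)
  have hsub : Set.range (fun g : H ⧸ C => orderOf g) ⊆ (fun p : ℕ × ℕ => p.1 * p.2) ''
      (Set.range (fun g : τ.range => orderOf g) ×ˢ
      Set.range (fun g : (∀ j, (Fin (s j) → MulAut (S j))) => orderOf g)) := by
    rintro _ ⟨q, rfl⟩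
    obtain ⟨h, rfl⟩ := QuotientGroup.mk_surjective q
    obtain ⟨k, hk⟩ : ∃ k : ℕ, k = orderOf (τ.rangeRestrict h) := ⟨_, rfl⟩
    have hk' : k = orderOf (τ h) := by
      rw [hk, ← Subgroup.orderOf_coe]
      rfl
    have hk0 : 0 < k := by rw [hk']; exact orderOf_pos _
    have hker : τ (h ^ k) = 1 := by rw [map_pow, hk', pow_orderOf_eq_one]
    obtain ⟨α, hα⟩ := hτ (h ^ k) hker
    refine ⟨(k, orderOf α), ⟨⟨τ.rangeRestrict h, hk.symm⟩, ⟨α, rfl⟩⟩, ?_⟩
    have hpow : ∀ m : ℕ, (QuotientGroup.mk h : H ⧸ C) ^ m = 1 ↔ h ^ m ∈ C := by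
      intro m
      rw [← QuotientGroup.mk_pow, QuotientGroup.eq_one_iff]
    have h1 : orderOf ((QuotientGroup.mk h : H ⧸ C) ^ k) = orderOf α := by
      apply Nat.dvd_antisymm
      · rw [orderOf_dvd_iff_pow_eq_one, ← pow_mul, hpow, pow_mul, hα]
        exact pow_orderOf_eq_one α
      · rw [orderOf_dvd_iff_pow_eq_one, ← hα, ← pow_mul, ← hpow, pow_mul]
        exact pow_orderOf_eq_one _
    have hdvd : k ∣ orderOf (QuotientGroup.mk h : H ⧸ C) := by
      rw [hk', orderOf_dvd_iff_pow_eq_one, ← map_pow]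
      exact hτ1 _ ((hpow _).1 (pow_orderOf_eq_one _))
    show k * orderOf α = orderOf (QuotientGroup.mk h : H ⧸ C)
    rw [← h1, orderOf_pow' _ hk0.ne', Nat.gcd_eq_right hdvd]
    exact Nat.mul_div_cancel' hdvd
  refine (Set.ncard_le_ncard hsub (hfin.image _)).trans ((Set.ncard_image_le hfin).trans ?_)
  rw [Set.ncard_prod]

end SR32
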