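import Pool.Agent.SR32.DefsY
import Pool.Agent.SR32.Perm
import Pool.Agent.SR32.Multi

/-!
# SR32/YPow: powers of nonabelian simple groups, number of orbits and isomorphism types
-/

set_option autoImplicit false

namespace SR32

universe u

open MulAction

/-- classes -/
abbrev ypCl (S : Type u) [Group S] : Type u := orbitRel.Quotient (MulAut S) S

/-- the multiset of the classes of the coordinates -/
def ypM {S : Type u} [Group S] (s : ℕ) (x : Fin s → S) : Multiset (ypCl S) :=
  (Finset.univ : Finset (Fin s)).val.map fun i => (Quotient.mk'' (x i) : ypCl S)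

theorem ypM_inv {S : Type u} [Group S] [IsSimpleGroup S] (hc : Subgroup.center S = ⊥) (s : ℕ)
    (φ : MulAut (Fin s → S)) (x : Fin s → S) : ypM s (φ x) = ypM s x := by
  obtain ⟨σ, ψ, hψ⟩ := aut_pi (fun _ : Fin s => S) (fun _ => hc) φ
  unfold ypM
  have h1 : ((Finset.univ : Finset (Fin s)).val.map σ) = Finset.univ.val := by
    have := Finset.map_univ_equiv σ
    have h2 := congrArg Finset.val this
    rw [Finset.map_val] at h2
    exact h2
  conv_lhs => rw [← h1]
  rw [Multiset.map_map]
  refine Multiset.map_congr rfl fun i _ => ?_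
  rw [Function.comp_apply, hψ x i]
  refine Quotient.sound' ?_
  rw [MulAction.orbitRel_apply]
  exact ⟨ψ i, rfl⟩

theorem om_powS_ge {S : Type u} [Group S] [Finite S] [IsSimpleGroup S]
    (hc : Subgroup.center S = ⊥) (s : ℕ) : Nat.multichoose (om S) s ≤ om (Fin s → S) := by
  classical
  have hfin : Finite (ypCl S) := Quotient.finite _
  obtain ⟨ft⟩ : Nonempty (Fintype (ypCl S)) := ⟨Fintype.ofFinite _⟩
  have h1 : Nat.multichoose (om S) s = Nat.card (Sym (ypCl S) s) := by
    rw [Nat.card_eq_fintype_card, Sym.card_sym_eq_multichoose]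
    unfold om
    rw [← Nat.card_eq_fintype_card]
  rw [h1]
  unfold om
  have h2 : ∀ f : Sym (ypCl S) s, ∃ v : Fin s → ypCl S,
      (Finset.univ : Finset (Fin s)).val.map v = f.1 := fun f => multi_vec f.1 s f.2
  choose v hv using h2
  have hfq : Finite (orbitRel.Quotient (MulAut (Fin s → S)) (Fin s → S)) :=
    Quotient.finite _
  refine Nat.card_le_card_of_injective
    (fun f => Quotient.mk'' (fun i => Quotient.out (v f i))) ?_
  intro f g hfg
  have h3 : (orbitRel (MulAut (Fin s → S)) (Fin s → S)) (fun i => Quotient.out (v f i))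
      (fun i => Quotient.out (v g i)) := Quotient.exact' hfg
  rw [MulAction.orbitRel_apply] at h3
  obtain ⟨φ, hφ⟩ := h3
  have h4 : ypM s (fun i => Quotient.out (v f i)) = ypM s (fun i => Quotient.out (v g i)) := by
    rw [← hφ]
    exact ypM_inv hc s φ _
  have h5' : ∀ f : Sym (ypCl S) s, ypM s (fun i => Quotient.out (v f i)) = f.1 := by
    intro f
    rw [← hv f]
    unfold ypM
    refine Multiset.map_congr rfl fun i _ => ?_
    exact Quotient.out_eq' (v f i)
  rw [h5' f, h5' g] at h4
  exact Subtype.ext h4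

/-- the family of the two products -/
def ypF (S S' : Type u) {s s' : ℕ} : Fin s ⊕ Fin s' → Type u
  | Sum.inl _ => S
  | Sum.inr _ => S'

instance ypG (S S' : Type u) [Group S] [Group S'] {s s' : ℕ} :
    ∀ i : Fin s ⊕ Fin s', Group (ypF S S' i)
  | Sum.inl _ => (inferInstance : Group S)
  | Sum.inr _ => (inferInstance : Group S')

/-- the exchange of the two products -/
def ypE {S S' : Type u} [Group S] [Group S'] {s s' : ℕ} (e : (Fin s → S) ≃* (Fin s' → S')) :
    (∀ i, ypF S S' (s := s) (s' := s') i) ≃* (∀ i, ypF S S' (s := s) (s' := s') i) where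
  toFun x := fun i => match i with
    | Sum.inl a => e.symm (fun b => x (Sum.inr b)) a
    | Sum.inr b => e (fun a => x (Sum.inl a)) b
  invFun x := fun i => match i with
    | Sum.inl a => e.symm (fun b => x (Sum.inr b)) a
    | Sum.inr b => e (fun a => x (Sum.inl a)) b
  left_inv x := by
    funext i
    rcases i with a | b
    · show e.symm (fun b => e (fun a => x (Sum.inl a)) b) a = x (Sum.inl a)
      have : e.symm (e (fun a => x (Sum.inl a))) = fun a => x (Sum.inl a) :=
        e.symm_apply_apply _
      exact congrFun this a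
    · show e (fun a => e.symm (fun b => x (Sum.inr b)) a) b = x (Sum.inr b)
      have : e (e.symm (fun b => x (Sum.inr b))) = fun b => x (Sum.inr b) :=
        e.apply_symm_apply _
      exact congrFun this b
  right_inv x := by
    funext i
    rcases i with a | b
    · show e.symm (fun b => e (fun a => x (Sum.inl a)) b) a = x (Sum.inl a)
      have : e.symm (e (fun a => x (Sum.inl a))) = fun a => x (Sum.inl a) :=
        e.symm_apply_apply _
      exact congrFun this a
    · show e (fun a => e.symm (fun b => x (Sum.inr b)) a) b = x (Sum.inr b)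
      have : e (e.symm (fun b => x (Sum.inr b))) = fun b => x (Sum.inr b) :=
        e.apply_symm_apply _
      exact congrFun this b
  map_mul' x y := by
    funext i
    rcases i with a | b
    · exact congrFun (map_mul e.symm (fun b : Fin s' => (x (Sum.inr b) : S'))
        (fun b : Fin s' => (y (Sum.inr b) : S'))) a
    · exact congrFun (map_mul e (fun a : Fin s => (x (Sum.inl a) : S))
        (fun a : Fin s => (y (Sum.inl a) : S))) b

/-- `g` in all factors of the first product -/
def ypX {S S' : Type u} [Group S'] {s s' : ℕ} (g : S) : ∀ i : Fin s ⊕ Fin s', ypF S S' i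
  | Sum.inl _ => g
  | Sum.inr _ => (1 : S')

theorem powS_iso {S S' : Type u} [Group S] [Group S'] [Finite S] [Finite S'] [IsSimpleGroup S]
    [IsSimpleGroup S'] (hc : Subgroup.center S = ⊥) (hc' : Subgroup.center S' = ⊥) {s s' : ℕ}
    (e : (Fin s → S) ≃* (Fin s' → S')) (hs : 1 ≤ s) : s = s' ∧ Nonempty (S ≃* S') := by
  classical
  have hsim : ∀ i : Fin s ⊕ Fin s', IsSimpleGroup (ypF S S' i) := by
    rintro (a | b)
    · exact (inferInstance : IsSimpleGroup S)
    · exact (inferInstance : IsSimpleGroup S')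
  have hcen : ∀ i : Fin s ⊕ Fin s', Subgroup.center (ypF S S' i) = ⊥ := by
    rintro (a | b)
    · exact hc
    · exact hc'
  obtain ⟨σ, ψ, hψ⟩ := aut_pi (fun i : Fin s ⊕ Fin s' => ypF S S' i) hcen (ypE e)
  have hiso : Nonempty (S ≃* S') := by
    obtain ⟨g, hg⟩ := exists_ne (1 : S)
    rcases hσ : σ (Sum.inl ⟨0, hs⟩) with j | j
    · exfalso
      have h1 := hψ (ypX g) (Sum.inl ⟨0, hs⟩)
      have h2 : ypE e (ypX g) (σ (Sum.inl ⟨0, hs⟩)) = 1 := by
        rw [hσ]
        exact congrFun (map_one e.symm) j
      rw [h2] at h1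
      have h3 := (map_eq_one_iff _ (ψ (Sum.inl ⟨0, hs⟩)).injective).1 h1.symm
      exact hg h3
    · have ψ0 := ψ (Sum.inl ⟨0, hs⟩)
      rw [hσ] at ψ0
      exact ⟨ψ0⟩
  refine ⟨?_, hiso⟩
  obtain ⟨ψ0⟩ := hiso
  have h1 : Nat.card (Fin s → S) = Nat.card (Fin s' → S') := Nat.card_congr e.toEquiv
  have h0 : Nat.card S = Nat.card S' := Nat.card_congr ψ0.toEquiv
  rw [Nat.card_fun, Nat.card_fun, Nat.card_eq_fintype_card (α := Fin s),
    Nat.card_eq_fintype_card (α := Fin s'), Fintype.card_fin, Fintype.card_fin, ← h0] at h1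
  have h2 : 1 < Nat.card S := Finite.one_lt_card
  exact Nat.pow_right_injective h2 h1

end SR32

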