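import Pool.Agent.SR32.Defs
import Pool.Agent.ALT32.AutThree
import Pool.Agent.ALT32.AutGeom

/-!
# Outer part: characteristic subgroups, centralizers and powers that fall into the socle
-/

set_option autoImplicit false

namespace SR32

/-- The elements of a characteristic subgroup form at least as many orbits in the whole group. -/
theorem om_char_le {H : Type*} [Group H] [Finite H] (N : Subgroup H) [N.Characteristic] :
    om N ≤ om H := by
  unfold om
  have : Finite (MulAction.orbitRel.Quotient (MulAut H) H) := Quotient.finite _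
  refine Nat.card_le_card_of_injective
    (fun q : MulAction.orbitRel.Quotient (MulAut N) N =>
      (Quotient.mk'' ((Quotient.out q : N) : H) :
        MulAction.orbitRel.Quotient (MulAut H) H)) ?_
  intro p q hpq
  have h1 : MulAction.orbitRel (MulAut H) H ((Quotient.out p : N) : H)
      ((Quotient.out q : N) : H) := Quotient.exact hpq
  rw [MulAction.orbitRel_apply] at h1
  obtain ⟨φ, hφ⟩ := h1
  have hmap : N.map φ.toMonoidHom = N := Subgroup.characteristic_iff_map_eq.1 inferInstance φ
  have h2 : MulAction.orbitRel (MulAut N) N (Quotient.out p : N) (Quotient.out q : N) := by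
    rw [MulAction.orbitRel_apply]
    exact ⟨(φ.subgroupMap N).trans (MulEquiv.subgroupCongr hmap), Subtype.ext hφ⟩
  rw [← Quotient.out_eq p, ← Quotient.out_eq q]
  exact Quotient.sound h2

/-- A finite group with a normal subgroup that has trivial centralizer. -/
theorem card_le_of_centralizer {H : Type*} [Group H] [Finite H] (N : Subgroup H) [hN : N.Normal]
    (hc : Subgroup.centralizer (N : Set H) = ⊥) : Nat.card H ≤ Nat.card N ^ Nat.card N := by
  rw [← Nat.card_fun]
  refine Nat.card_le_card_of_injective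
    (fun (h : H) (x : N) => (⟨h * x * h⁻¹, hN.conj_mem _ x.2 h⟩ : N)) ?_
  intro g h hgh
  have h1 : g⁻¹ * h ∈ Subgroup.centralizer (N : Set H) := by
    rw [Subgroup.mem_centralizer_iff]
    intro x hx
    have h2 : g * x * g⁻¹ = h * x * h⁻¹ := congrArg Subtype.val (congrFun hgh ⟨x, hx⟩)
    calc x * (g⁻¹ * h) = (g⁻¹ * (g * x * g⁻¹)) * h := by group
      _ = (g⁻¹ * (h * x * h⁻¹)) * h := by rw [h2]
      _ = g⁻¹ * h * x := by group
  rw [hc, Subgroup.mem_bot] at h1
  exact inv_mul_eq_one.1 h1

/-- If all `c`-th powers lie in `N`, there are at most `c` times as many orders. -/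
theorem oo_le_of_pow_mem {H : Type*} [Group H] [Finite H] (N : Subgroup H) [N.Normal]
    (c : ℕ) (hc : 1 ≤ c) (hN : ∀ h : H, h ^ c ∈ N) : oo H ≤ c * oo N := by
  classical
  unfold oo
  have hfin : (((Finset.Icc 1 c : Finset ℕ) : Set ℕ) ×ˢ
      Set.range (fun g : N => orderOf g)).Finite :=
    (Finset.finite_toSet _).prod (Set.finite_range _)
  have hsub : Set.range (fun g : H => orderOf g) ⊆
      (fun p : ℕ × ℕ => p.1 * p.2) '' (((Finset.Icc 1 c : Finset ℕ) : Set ℕ) ×ˢ
        Set.range (fun g : N => orderOf g)) := by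
    rintro _ ⟨h, rfl⟩
    refine ⟨(Nat.gcd (orderOf h) c, orderOf (h ^ c)), ⟨?_, ⟨⟨h ^ c, hN h⟩, ?_⟩⟩, ?_⟩
    · rw [Finset.mem_coe, Finset.mem_Icc]
      exact ⟨Nat.gcd_pos_of_pos_right _ (by omega), Nat.gcd_le_right _ (by omega)⟩
    · exact (Subgroup.orderOf_coe _).symm
    · show Nat.gcd (orderOf h) c * orderOf (h ^ c) = orderOf h
      rw [orderOf_pow' h (by omega : c ≠ 0)]
      exact Nat.mul_div_cancel' (Nat.gcd_dvd_left _ _)
  refine (Set.ncard_le_ncard hsub (hfin.image _)).trans ((Set.ncard_image_le hfin).trans ?_)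
  rw [Set.ncard_prod, Set.ncard_coe_finset, Nat.card_Icc, Nat.add_sub_cancel]

/-- A fixed power of every automorphism of an alternating group of degree at least 5 is inner. -/
theorem outer_pow (d : ℕ) (h5 : 5 ≤ d) (φ : MulAut (A d)) :
    ∃ z : A d, ∀ x : A d, (φ ^ (2 * Nat.card (MulAut (A 6)))) x = z * x * z⁻¹ := by
  by_cases h6 : d = 6
  · subst h6
    refine ⟨1, fun x => ?_⟩
    rw [mul_comm, pow_mul, pow_card_eq_one', one_pow]
    simp
  · obtain ⟨s, hs⟩ := Pool.Agent.ALT32.aut_geom h5 φ
      (fun c hc => Pool.Agent.ALT32.aut_three h5 h6 φ c hc)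
    have key : ∀ k : ℕ, ∀ x : A d,
        (((φ ^ k) x : A d) : Equiv.Perm (Fin d)) = s ^ k * x * (s ^ k)⁻¹ := by
      intro k
      induction k with
      | zero => intro x; simp
      | succ k ih =>
        intro x
        rw [pow_succ, MulAut.mul_apply, ih, hs, pow_succ]
        group
    refine ⟨⟨s ^ (2 * Nat.card (MulAut (A 6))), ?_⟩, fun x => Subtype.ext (key _ x)⟩
    rw [Equiv.Perm.mem_alternatingGroup, map_pow, pow_mul]
    rw [Int.units_sq, one_pow]

/-- The power with exponent `2 |Aut A_6|` of every element falls into the socle. -/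
theorem pow_mem_of_struct {H : Type*} [Group H] [Finite H] (N : Subgroup H)
    (hc : Subgroup.centralizer (N : Set H) = ⊥)
    (r : ℕ) (n : Fin r → ℕ) (e : (∀ i, A (n i)) ≃* N) (h5 : ∀ i, 5 ≤ n i)
    (hn : ∀ (h : H) (i : Fin r) (x : A (n i)), ∃ y : A (n i),
          h * (e (Pi.mulSingle i x) : H) * h⁻¹ = (e (Pi.mulSingle i y) : H)) (h : H) :
    h ^ (2 * Nat.card (MulAut (A 6))) ∈ N := by
  classical
  have hinj : ∀ (i : Fin r) (x y : A (n i)),
      (e (Pi.mulSingle i x) : H) = (e (Pi.mulSingle i y) : H) → x = y := by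
    intro i x y hxy
    exact Pi.mulSingle_injective i (e.injective (Subtype.ext hxy))
  -- the automorphism of the factor `i`
  have hα : ∀ i : Fin r, ∃ α : MulAut (A (n i)), ∀ x : A (n i),
      h * (e (Pi.mulSingle i x) : H) * h⁻¹ = (e (Pi.mulSingle i (α x)) : H) := by
    intro i
    choose f hf using hn h i
    have hmul : ∀ x y, f (x * y) = f x * f y := by
      intro x y
      apply hinj
      rw [← hf, Pi.mulSingle_mul, map_mul, Pi.mulSingle_mul, map_mul, Subgroup.coe_mul,
        Subgroup.coe_mul, ← hf, ← hf]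
      group
    have hfi : Function.Injective f := by
      intro x y hxy
      apply hinj
      have h1 := hf x
      rw [hxy, ← hf y] at h1
      exact mul_left_cancel (mul_right_cancel h1)
    exact ⟨MulEquiv.ofBijective (MonoidHom.mk' f hmul) (Finite.injective_iff_bijective.1 hfi),
      fun x => hf x⟩
  choose α hα using hα
  have hpow : ∀ (k : ℕ) (i : Fin r) (x : A (n i)),
      h ^ k * (e (Pi.mulSingle i x) : H) * (h ^ k)⁻¹ = (e (Pi.mulSingle i ((α i ^ k) x)) : H) := by
    intro k
    induction k with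
    | zero => intro i x; simp
    | succ k ih =>
      intro i x
      rw [pow_succ (α i), MulAut.mul_apply, ← ih, ← hα, pow_succ]
      group
  obtain ⟨c, hcdef⟩ : ∃ c : ℕ, c = 2 * Nat.card (MulAut (A 6)) := ⟨_, rfl⟩
  choose z hz using fun i => outer_pow (n i) (h5 i) (α i)
  rw [← hcdef] at hz ⊢
  -- conjugation by `h ^ c` and by `e z` agree on `N`
  have hagree : (MulAut.conj (h ^ c)).toMonoidHom.comp (N.subtype.comp e.toMonoidHom) =
      (MulAut.conj ((e z : N) : H)).toMonoidHom.comp (N.subtype.comp e.toMonoidHom) := by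
    apply MonoidHom.pi_ext
    intro i x
    show h ^ c * (e (Pi.mulSingle i x) : H) * (h ^ c)⁻¹ =
      ((e z : N) : H) * (e (Pi.mulSingle i x) : H) * ((e z : N) : H)⁻¹
    rw [hpow, hz, ← Subgroup.coe_mul, ← Subgroup.coe_inv, ← Subgroup.coe_mul, ← map_mul,
      ← map_inv, ← map_mul]
    congr 2
    ext1 j
    rcases eq_or_ne j i with rfl | hj
    · simp
    · simp [hj]
  have hcent : ((e z : N) : H)⁻¹ * h ^ c ∈ Subgroup.centralizer (N : Set H) := by
    rw [Subgroup.mem_centralizer_iff]
    intro x hx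
    obtain ⟨y, hy⟩ := e.surjective ⟨x, hx⟩
    have h1 := DFunLike.congr_fun hagree y
    have h2 : h ^ c * x * (h ^ c)⁻¹ = ((e z : N) : H) * x * ((e z : N) : H)⁻¹ := by
      have h3 : (e y : H) = x := by rw [hy]
      rw [← h3]
      exact h1
    calc x * (((e z : N) : H)⁻¹ * h ^ c)
        = ((e z : N) : H)⁻¹ * (((e z : N) : H) * x * ((e z : N) : H)⁻¹) * h ^ c := by group
      _ = ((e z : N) : H)⁻¹ * (h ^ c * x * (h ^ c)⁻¹) * h ^ c := by rw [h2]
      _ = ((e z : N) : H)⁻¹ * h ^ c * x := by group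
  rw [hc, Subgroup.mem_bot, inv_mul_eq_one] at hcent
  rw [← hcent]
  exact (e z).2

end SR32
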