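import Pool.Agent.SR32.Outer
import Pool.Agent.SR32.Perm

/-!
# Outer part for permuted factors
-/

set_option autoImplicit false

namespace SR32

/-- An element that acts on the factors of `N` as inner automorphisms lies in `N`. -/
theorem mem_of_inner {H : Type*} [Group H] (N : Subgroup H)
    (hc : Subgroup.centralizer (N : Set H) = ⊥) {J : Type*} [Finite J] [DecidableEq J]
    {B : J → Type*} [∀ j, Group (B j)] (e : (∀ j, B j) ≃* N) (g : H) (z : ∀ j, B j)
    (hg : ∀ (j : J) (x : B j), g * (e (Pi.mulSingle j x) : H) * g⁻¹ =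
      (e (Pi.mulSingle j (z j * x * (z j)⁻¹)) : H)) : g ∈ N := by
  have hagree : (MulAut.conj g).toMonoidHom.comp (N.subtype.comp e.toMonoidHom) =
      (MulAut.conj ((e z : N) : H)).toMonoidHom.comp (N.subtype.comp e.toMonoidHom) := by
    apply MonoidHom.pi_ext
    intro i x
    show g * (e (Pi.mulSingle i x) : H) * g⁻¹ =
      ((e z : N) : H) * (e (Pi.mulSingle i x) : H) * ((e z : N) : H)⁻¹
    rw [hg, ← Subgroup.coe_mul, ← Subgroup.coe_inv, ← Subgroup.coe_mul, ← map_mul,
      ← map_inv, ← map_mul]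
    congr 2
    ext1 j
    rcases eq_or_ne j i with rfl | hj
    · simp
    · simp [hj]
  have hcent : ((e z : N) : H)⁻¹ * g ∈ Subgroup.centralizer (N : Set H) := by
    rw [Subgroup.mem_centralizer_iff]
    intro x hx
    obtain ⟨y, hy⟩ := e.surjective ⟨x, hx⟩
    have h1 := DFunLike.congr_fun hagree y
    have h2 : g * x * g⁻¹ = ((e z : N) : H) * x * ((e z : N) : H)⁻¹ := by
      have h3 : (e y : H) = x := by rw [hy]
      rw [← h3]
      exact h1
    calc x * (((e z : N) : H)⁻¹ * g)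
        = ((e z : N) : H)⁻¹ * (((e z : N) : H) * x * ((e z : N) : H)⁻¹) * g := by group
      _ = ((e z : N) : H)⁻¹ * (g * x * g⁻¹) * g := by rw [h2]
      _ = ((e z : N) : H)⁻¹ * g * x := by group
  rw [hc, Subgroup.mem_bot, inv_mul_eq_one] at hcent
  rw [← hcent]
  exact (e z).2

/-- The permutation of the factors belonging to an automorphism. -/
def PermOf {ι : Type*} {S : Type*} [Group S] (φ : MulAut (ι → S)) (σ : Equiv.Perm ι) : Prop :=
  ∃ ψ : ι → MulAut S, ∀ (x : ι → S) (i : ι), φ x (σ i) = ψ i (x i)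

theorem PermOf.unique {ι : Type*} {S : Type*} [Group S] [Nontrivial S] {φ : MulAut (ι → S)}
    {σ σ' : Equiv.Perm ι} (h : PermOf φ σ) (h' : PermOf φ σ') : σ = σ' := by
  classical
  obtain ⟨ψ, hψ⟩ := h
  obtain ⟨ψ', hψ'⟩ := h'
  obtain ⟨y, hy⟩ := exists_ne (1 : S)
  ext i
  have h1 := hψ (Pi.mulSingle i y) i
  rw [Pi.mulSingle_eq_same] at h1
  have h2 := hψ' (Pi.mulSingle i y) (σ'.symm (σ i))
  rw [Equiv.apply_symm_apply, h1] at h2
  by_contra hne
  have h3 : σ'.symm (σ i) ≠ i := by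
    intro h4
    exact hne (by rw [← h4, Equiv.apply_symm_apply, h4])
  rw [Pi.mulSingle_eq_of_ne h3, map_one] at h2
  exact hy ((map_eq_one_iff (ψ i) (ψ i).injective).1 h2)

theorem PermOf.mul {ι : Type*} {S : Type*} [Group S] {φ φ' : MulAut (ι → S)}
    {σ σ' : Equiv.Perm ι} (h : PermOf φ σ) (h' : PermOf φ' σ') : PermOf (φ * φ') (σ * σ') := by
  obtain ⟨ψ, hψ⟩ := h
  obtain ⟨ψ', hψ'⟩ := h'
  refine ⟨fun i => ψ (σ' i) * ψ' i, fun x i => ?_⟩
  rw [MulAut.mul_apply, Equiv.Perm.mul_apply, hψ, hψ', MulAut.mul_apply]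

theorem outerT {H : Type*} [Group H] [Finite H] (N : Subgroup H) [N.Normal]
    (hc : Subgroup.centralizer (N : Set H) = ⊥)
    (a : ℕ) (d s : Fin a → ℕ) (e : (∀ j, (Fin (s j) → A (d j))) ≃* N) (h5 : ∀ j, 5 ≤ d j)
    (hn : ∀ (h : H) (j : Fin a) (x : Fin (s j) → A (d j)), ∃ y : Fin (s j) → A (d j),
          h * (e (Pi.mulSingle j x) : H) * h⁻¹ = (e (Pi.mulSingle j y) : H)) :
    ∃ τ : H →* (∀ j, Equiv.Perm (Fin (s j))),
      ∀ h : H, τ h = 1 → h ^ (2 * Nat.card (MulAut (A 6))) ∈ N := by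
  classical
  have hinj : ∀ (j : Fin a) (x y : Fin (s j) → A (d j)),
      (e (Pi.mulSingle j x) : H) = (e (Pi.mulSingle j y) : H) → x = y := by
    intro j x y hxy
    exact Pi.mulSingle_injective j (e.injective (Subtype.ext hxy))
  -- the automorphism of the block `j` given by conjugation with `h`
  have hβ : ∀ (j : Fin a) (h : H), ∃ β : MulAut (Fin (s j) → A (d j)),
      ∀ x : Fin (s j) → A (d j),
        h * (e (Pi.mulSingle j x) : H) * h⁻¹ = (e (Pi.mulSingle j (β x)) : H) := by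
    intro j h
    choose f hf using hn h j
    have hmul : ∀ x y, f (x * y) = f x * f y := by
      intro x y
      apply hinj
      rw [← hf, Pi.mulSingle_mul, map_mul, Pi.mulSingle_mul, map_mul, Subgroup.coe_mul,
        Subgroup.coe_mul, ← hf, ← hf]
      group
    have hfi : Function.Injective f := by
      intro x y hxy
      apply hinj
      have h1 := hf x
      rw [hxy, ← hf y] at h1
      exact mul_left_cancel (mul_right_cancel h1)
    exact ⟨MulEquiv.ofBijective (MonoidHom.mk' f hmul) (Finite.injective_iff_bijective.1 hfi),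
      fun x => hf x⟩
  choose β hβ using hβ
  have hβmul : ∀ (j : Fin a) (g h : H), β j (g * h) = β j g * β j h := by
    intro j g h
    ext1 x
    apply hinj
    rw [MulAut.mul_apply, ← hβ, ← hβ, ← hβ]
    group
  -- the permutation
  have hsimple : ∀ j : Fin a, IsSimpleGroup (A (d j)) := by
    intro j
    exact alternatingGroup.isSimpleGroup (by rw [Nat.card_fin]; exact h5 j)
  have hσ : ∀ (j : Fin a) (φ : MulAut (Fin (s j) → A (d j))),
      ∃ σ : Equiv.Perm (Fin (s j)), PermOf φ σ := by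
    intro j φ
    have := hsimple j
    obtain ⟨σ, ψ, hψ⟩ := aut_pi (fun _ : Fin (s j) => A (d j))
      (fun _ => alternatingGroup.center_eq_bot (by rw [Nat.card_fin]; have := h5 j; omega)) φ
    exact ⟨σ, ψ, hψ⟩
  choose σ hσ using hσ
  have hσmul : ∀ (j : Fin a) (φ φ' : MulAut (Fin (s j) → A (d j))),
      σ j (φ * φ') = σ j φ * σ j φ' := by
    intro j φ φ'
    have := hsimple j
    have : Nontrivial (A (d j)) := inferInstance
    exact (hσ j (φ * φ')).unique ((hσ j φ).mul (hσ j φ'))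
  refine ⟨MonoidHom.mk' (fun h j => σ j (β j h)) ?_, fun h hh => ?_⟩
  · intro g h
    ext1 j
    show σ j (β j (g * h)) = σ j (β j g) * σ j (β j h)
    rw [hβmul, hσmul]
  · have hone : ∀ j, σ j (β j h) = 1 := fun j => congrFun hh j
    have hψ : ∀ (j : Fin a) (i : Fin (s j)), ∃ ψ : MulAut (A (d j)),
        ∀ x : Fin (s j) → A (d j), β j h x i = ψ (x i) := by
      intro j i
      obtain ⟨ψ, hψ⟩ := hσ j (β j h)
      refine ⟨ψ i, fun x => ?_⟩
      have h1 := hψ x i
      rw [hone j] at h1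
      exact h1
    choose ψ hψ using hψ
    have hψpow : ∀ (k : ℕ) (j : Fin a) (i : Fin (s j)) (x : Fin (s j) → A (d j)),
        (β j h ^ k) x i = (ψ j i ^ k) (x i) := by
      intro k
      induction k with
      | zero => intro j i x; simp
      | succ k ih =>
        intro j i x
        rw [pow_succ', MulAut.mul_apply, hψ, ih, pow_succ', MulAut.mul_apply]
    have hβpow : ∀ (k : ℕ) (j : Fin a) (x : Fin (s j) → A (d j)),
        h ^ k * (e (Pi.mulSingle j x) : H) * (h ^ k)⁻¹ =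
          (e (Pi.mulSingle j ((β j h ^ k) x)) : H) := by
      intro k
      induction k with
      | zero => intro j x; simp
      | succ k ih =>
        intro j x
        rw [pow_succ (β j h), MulAut.mul_apply, ← ih, ← hβ, pow_succ]
        group
    choose z hz using fun (j : Fin a) (i : Fin (s j)) => outer_pow (d j) (h5 j) (ψ j i)
    refine mem_of_inner N hc e _ z (fun j x => ?_)
    rw [hβpow]
    congr 3
    ext1 i
    rw [hψpow, hz]
    rfl

theorem oo_le_outerT {H : Type*} [Group H] [Finite H] (N : Subgroup H) [N.Normal]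
    {Γ : Type*} [Group Γ] [Finite Γ] (τ : H →* Γ) (c : ℕ) (hc : 1 ≤ c)
    (hN : ∀ h : H, τ h = 1 → h ^ c ∈ N) : oo H ≤ oo Γ * (c * oo N) := by
  classical
  unfold oo
  have hfin1 : (((Finset.Icc 1 c : Finset ℕ) : Set ℕ) ×ˢ
      Set.range (fun g : N => orderOf g)).Finite :=
    (Finset.finite_toSet _).prod (Set.finite_range _)
  have hfin : (Set.range (fun g : Γ => orderOf g) ×ˢ (((Finset.Icc 1 c : Finset ℕ) : Set ℕ) ×ˢ
      Set.range (fun g : N => orderOf g))).Finite := (Set.finite_range _).prod hfin1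
  have hsub : Set.range (fun g : H => orderOf g) ⊆
      (fun p : ℕ × (ℕ × ℕ) => p.1 * (p.2.1 * p.2.2)) ''
        (Set.range (fun g : Γ => orderOf g) ×ˢ (((Finset.Icc 1 c : Finset ℕ) : Set ℕ) ×ˢ
        Set.range (fun g : N => orderOf g))) := by
    rintro _ ⟨h, rfl⟩
    obtain ⟨k, hk⟩ : ∃ k : ℕ, k = orderOf (τ h) := ⟨_, rfl⟩
    have hk0 : 0 < k := by rw [hk]; exact orderOf_pos _
    have hker : τ (h ^ k) = 1 := by rw [map_pow, hk, pow_orderOf_eq_one]
    refine ⟨(k, (Nat.gcd (orderOf (h ^ k)) c, orderOf ((h ^ k) ^ c))),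
      ⟨⟨τ h, hk.symm⟩, ⟨?_, ⟨⟨(h ^ k) ^ c, hN _ hker⟩, ?_⟩⟩⟩, ?_⟩
    · rw [Finset.mem_coe, Finset.mem_Icc]
      exact ⟨Nat.gcd_pos_of_pos_right _ (by omega), Nat.gcd_le_right _ (by omega)⟩
    · exact (Subgroup.orderOf_coe _).symm
    · show k * (Nat.gcd (orderOf (h ^ k)) c * orderOf ((h ^ k) ^ c)) = orderOf h
      rw [orderOf_pow' (h ^ k) (by omega : c ≠ 0), Nat.mul_div_cancel' (Nat.gcd_dvd_left _ _),
        orderOf_pow' h hk0.ne']
      have hdvd : k ∣ orderOf h := by rw [hk]; exact orderOf_map_dvd τ h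
      rw [Nat.gcd_eq_right hdvd]
      exact Nat.mul_div_cancel' hdvd
  refine (Set.ncard_le_ncard hsub (hfin.image _)).trans ((Set.ncard_image_le hfin).trans ?_)
  rw [Set.ncard_prod, Set.ncard_prod, Set.ncard_coe_finset, Nat.card_Icc, Nat.add_sub_cancel]

end SR32
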