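import Pool.Agent.SR32.Defs

/-!
# SR32/Orders: the number of orders of the elements of powers of the alternating group (helper89)

`ordS t` = the set of the exact prime power divisors of `t`; it determines `t`. The sum of `ordS t` is at
most the sum of the cycle lengths of a permutation of order `t`.
-/

set_option autoImplicit false

namespace SR32

/-- The exact prime power divisors. -/
def ordS (t : ℕ) : Finset ℕ := t.primeFactors.image (fun q => q ^ t.factorization q)

theorem ordS_inj_aux {t : ℕ} : ∀ x ∈ t.primeFactors, ∀ y ∈ t.primeFactors,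
    x ^ t.factorization x = y ^ t.factorization y → x = y := by
  intro x hx y hy h
  have px := Nat.prime_of_mem_primeFactors hx
  have py := Nat.prime_of_mem_primeFactors hy
  have hx0 : t.factorization x ≠ 0 :=
    (px.factorization_pos_of_dvd ((Nat.mem_primeFactors.1 hx).2.2)
      (Nat.dvd_of_mem_primeFactors hx)).ne'
  have h1 : x ∣ y ^ t.factorization y := by
    rw [← h]
    exact dvd_pow_self _ hx0
  exact (Nat.prime_dvd_prime_iff_eq px py).1 (px.dvd_of_dvd_pow h1)

theorem ordS_prod {t : ℕ} (ht : t ≠ 0) : ∏ x ∈ ordS t, x = t := by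
  unfold ordS
  rw [Finset.prod_image ordS_inj_aux]
  exact Nat.prod_factorization_pow_eq_self ht

theorem ordS_sum (t : ℕ) : ∑ x ∈ ordS t, x = ∑ q ∈ t.primeFactors, q ^ t.factorization q := by
  unfold ordS
  rw [Finset.sum_image ordS_inj_aux]

theorem ordS_injOn {s t : ℕ} (hs : s ≠ 0) (ht : t ≠ 0) (h : ordS s = ordS t) : s = t := by
  rw [← ordS_prod hs, h, ordS_prod ht]

theorem ordS_primePow {t x : ℕ} (hx : x ∈ ordS t) : IsPrimePow x := by
  unfold ordS at hx
  rw [Finset.mem_image] at hx
  obtain ⟨q, hq, rfl⟩ := hx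
  have pq := Nat.prime_of_mem_primeFactors hq
  have h0 : t.factorization q ≠ 0 :=
    (pq.factorization_pos_of_dvd ((Nat.mem_primeFactors.1 hq).2.2)
      (Nat.dvd_of_mem_primeFactors hq)).ne'
  exact pq.isPrimePow.pow h0

theorem ord_sum_le_prod {ι : Type*} (s : Finset ι) (f : ι → ℕ) (h : ∀ i ∈ s, 2 ≤ f i) :
    ∑ i ∈ s, f i ≤ ∏ i ∈ s, f i := by
  classical
  induction s using Finset.induction_on with
  | empty => simp
  | insert a s ha ih =>
    rw [Finset.sum_insert ha, Finset.prod_insert ha]
    have h1 := ih fun i hi => h i (Finset.mem_insert_of_mem hi)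
    have h2 := h a (Finset.mem_insert_self _ _)
    rcases s.eq_empty_or_nonempty with hs | ⟨i, hi⟩
    · rw [hs]
      simp
    · have h3 : 2 ≤ ∑ i ∈ s, f i :=
        (h i (Finset.mem_insert_of_mem hi)).trans (Finset.single_le_sum (f := f)
          (fun _ _ => Nat.zero_le _) hi)
      have h4 : 2 ≤ ∏ i ∈ s, f i := h3.trans h1
      have h5 : f a + ∏ i ∈ s, f i ≤ f a * ∏ i ∈ s, f i := by
        generalize ∏ i ∈ s, f i = y at h4
        generalize f a = x at h2
        obtain ⟨x', rfl⟩ := Nat.exists_eq_add_of_le h2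
        obtain ⟨y', rfl⟩ := Nat.exists_eq_add_of_le h4
        nlinarith [Nat.zero_le (x' * y')]
      omega

theorem ord_F_le (c : ℕ) (hc : c ≠ 0) : ∑ q ∈ c.primeFactors, q ^ c.factorization q ≤ c := by
  have h1 := ord_sum_le_prod c.primeFactors (fun q => q ^ c.factorization q) (by
    intro q hq
    have pq := Nat.prime_of_mem_primeFactors hq
    have h0 : 0 < c.factorization q :=
      pq.factorization_pos_of_dvd hc (Nat.dvd_of_mem_primeFactors hq)
    calc 2 ≤ q := pq.two_le
      _ = q ^ 1 := (pow_one q).symm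
      _ ≤ q ^ c.factorization q := Nat.pow_le_pow_right pq.pos h0)
  have h2 : ∏ q ∈ c.primeFactors, q ^ c.factorization q = c :=
    Nat.prod_factorization_pow_eq_self hc
  exact h1.trans h2.le

theorem ord_F_lcm (a b : ℕ) (ha : a ≠ 0) (hb : b ≠ 0) :
    ∑ q ∈ (Nat.lcm a b).primeFactors, q ^ (Nat.lcm a b).factorization q ≤
      ∑ q ∈ a.primeFactors, q ^ a.factorization q +
        ∑ q ∈ b.primeFactors, q ^ b.factorization q := by
  classical
  have hl : Nat.lcm a b ≠ 0 := Nat.lcm_ne_zero ha hb
  have hf : (Nat.lcm a b).factorization = a.factorization ⊔ b.factorization :=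
    Nat.factorization_lcm ha hb
  -- split the prime factors
  have hsplit : (Nat.lcm a b).primeFactors =
      ((Nat.lcm a b).primeFactors.filter (fun q => b.factorization q ≤ a.factorization q)) ∪
      ((Nat.lcm a b).primeFactors.filter (fun q => ¬ b.factorization q ≤ a.factorization q)) :=
    (Finset.filter_union_filter_not_eq _ _).symm
  have hval : ∀ q, (Nat.lcm a b).factorization q =
      max (a.factorization q) (b.factorization q) := by
    intro q
    rw [hf]
    rfl
  rw [← Finset.sum_filter_add_sum_filter_not (Nat.lcm a b).primeFactors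
    (fun q => b.factorization q ≤ a.factorization q)]
  refine Nat.add_le_add ?_ ?_
  · calc ∑ q ∈ (Nat.lcm a b).primeFactors.filter
          (fun q => b.factorization q ≤ a.factorization q), q ^ (Nat.lcm a b).factorization q
        = ∑ q ∈ (Nat.lcm a b).primeFactors.filter
          (fun q => b.factorization q ≤ a.factorization q), q ^ a.factorization q := by
          refine Finset.sum_congr rfl fun q hq => ?_
          rw [hval, max_eq_left (Finset.mem_filter.1 hq).2]
      _ ≤ ∑ q ∈ a.primeFactors, q ^ a.factorization q := by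
          refine Finset.sum_le_sum_of_subset ?_
          intro q hq
          rw [Finset.mem_filter] at hq
          have pq := Nat.prime_of_mem_primeFactors hq.1
          have h1 : 0 < (Nat.lcm a b).factorization q :=
            pq.factorization_pos_of_dvd hl (Nat.dvd_of_mem_primeFactors hq.1)
          rw [hval, max_eq_left hq.2] at h1
          rw [Nat.mem_primeFactors]
          exact ⟨pq, Nat.dvd_of_factorization_pos h1.ne', ha⟩
  · calc ∑ q ∈ (Nat.lcm a b).primeFactors.filter
          (fun q => ¬ b.factorization q ≤ a.factorization q), q ^ (Nat.lcm a b).factorization q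
        = ∑ q ∈ (Nat.lcm a b).primeFactors.filter
          (fun q => ¬ b.factorization q ≤ a.factorization q), q ^ b.factorization q := by
          refine Finset.sum_congr rfl fun q hq => ?_
          rw [hval, max_eq_right (not_le.1 (Finset.mem_filter.1 hq).2).le]
      _ ≤ ∑ q ∈ b.primeFactors, q ^ b.factorization q := by
          refine Finset.sum_le_sum_of_subset ?_
          intro q hq
          rw [Finset.mem_filter] at hq
          have pq := Nat.prime_of_mem_primeFactors hq.1
          have h1 : 0 < (Nat.lcm a b).factorization q :=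
            pq.factorization_pos_of_dvd hl (Nat.dvd_of_mem_primeFactors hq.1)
          rw [hval, max_eq_right (not_le.1 hq.2).le] at h1
          rw [Nat.mem_primeFactors]
          exact ⟨pq, Nat.dvd_of_factorization_pos h1.ne', hb⟩

theorem ord_F_multiset (M : Multiset ℕ) (hM : ∀ c ∈ M, c ≠ 0) : M.lcm ≠ 0 ∧
    ∑ q ∈ M.lcm.primeFactors, q ^ M.lcm.factorization q ≤ M.sum := by
  induction M using Multiset.induction_on with
  | empty => simp
  | cons c M ih =>
    obtain ⟨h1, h2⟩ := ih fun x hx => hM x (Multiset.mem_cons_of_mem hx)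
    have hc := hM c (Multiset.mem_cons_self c M)
    have h3 : (c ::ₘ M).lcm = Nat.lcm c M.lcm := Multiset.lcm_cons c M
    rw [h3, Multiset.sum_cons]
    refine ⟨Nat.lcm_ne_zero hc h1, (ord_F_lcm c M.lcm hc h1).trans ?_⟩
    exact Nat.add_le_add (ord_F_le c hc) h2

theorem ord_perm_sum (d : ℕ) (σ : Equiv.Perm (Fin d)) : ∑ x ∈ ordS (orderOf σ), x ≤ d := by
  rw [ordS_sum, ← Equiv.Perm.lcm_cycleType]
  have h1 := (ord_F_multiset σ.cycleType (fun c hc => by
    have := Equiv.Perm.two_le_of_mem_cycleType hc
    omega)).2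
  refine h1.trans ?_
  rw [Equiv.Perm.sum_cycleType]
  exact (Finset.card_le_univ _).trans (by simp)

theorem ord_alt_sum (d : ℕ) (g : A d) : ∑ x ∈ ordS (orderOf g), x ≤ d := by
  have h := ord_perm_sum d (g : Equiv.Perm (Fin d))
  rwa [Subgroup.orderOf_coe] at h

theorem ord_alt_ne (d : ℕ) (g : A d) : orderOf g ≠ 0 := (orderOf_pos g).ne'

theorem oo_alt_le (d : ℕ) : oo (A d) ≤ (EE d).card := by
  classical
  unfold oo
  rw [← Set.ncard_coe_finset]
  refine Set.ncard_le_ncard_of_injOn ordS ?_ ?_ (Finset.finite_toSet _)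
  · rintro t ⟨g, rfl⟩
    rw [Finset.mem_coe, mem_EE]
    refine ⟨fun q hq => ⟨?_, ordS_primePow hq⟩, ord_alt_sum d g⟩
    exact (Finset.single_le_sum (f := fun x => x) (fun _ _ => Nat.zero_le _) hq).trans
      (ord_alt_sum d g)
  · rintro s ⟨g, rfl⟩ t ⟨g', rfl⟩ h
    exact ordS_injOn (ord_alt_ne d g) (ord_alt_ne d g') h

theorem ord_pi_dvd {k d : ℕ} (x : Fin k → A d) (i : Fin k) : orderOf (x i) ∣ orderOf x := by
  rw [orderOf_dvd_iff_pow_eq_one]
  have h := congrFun (pow_orderOf_eq_one x) i
  exact h

theorem ord_pi_ne {k d : ℕ} (x : Fin k → A d) : orderOf x ≠ 0 := (orderOf_pos x).ne'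

theorem ord_pi_pow {k d : ℕ} (x : Fin k → A d) {q : ℕ} (hq : q.Prime)
    (hv : (orderOf x).factorization q ≠ 0) :
    ∃ i, (orderOf (x i)).factorization q = (orderOf x).factorization q := by
  classical
  by_contra hcon
  push Not at hcon
  obtain ⟨t, ht⟩ : ∃ t, t = orderOf x := ⟨_, rfl⟩
  rw [← ht] at hv hcon
  have ht0 : t ≠ 0 := by rw [ht]; exact ord_pi_ne x
  have hqt : q ∣ t := Nat.dvd_of_factorization_pos hv
  obtain ⟨m, hm⟩ := hqt
  have hm0 : m ≠ 0 := by
    rintro rfl
    exact ht0 (by rw [hm, mul_zero])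
  have hdv : ∀ i, orderOf (x i) ∣ m := by
    intro i
    have h1 : orderOf (x i) ∣ t := by rw [ht]; exact ord_pi_dvd x i
    have h0 : orderOf (x i) ≠ 0 := ord_alt_ne d (x i)
    rw [← Nat.factorization_le_iff_dvd h0 hm0]
    intro p
    have h2 : (orderOf (x i)).factorization p ≤ t.factorization p :=
      (Nat.factorization_le_iff_dvd h0 ht0).2 h1 p
    have h3 : t.factorization p = q.factorization p + m.factorization p := by
      rw [hm, Nat.factorization_mul hq.ne_zero hm0]
      rfl
    by_cases hp : p = q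
    · subst hp
      have h4 := hcon i
      rw [hq.factorization_self] at h3
      omega
    · have h4 : q.factorization p = 0 := by
        rw [hq.factorization]
        exact Finsupp.single_eq_of_ne hp
      omega
  have h5 : x ^ m = 1 := by
    funext i
    have h6 := orderOf_dvd_iff_pow_eq_one.1 (hdv i)
    exact h6
  have h7 : t ∣ m := by rw [ht]; exact orderOf_dvd_of_pow_eq_one h5
  have h8 := Nat.le_of_dvd (Nat.pos_of_ne_zero hm0) h7
  have h9 := hq.two_le
  have h10 : 2 * m ≤ t := by rw [hm]; exact Nat.mul_le_mul_right _ h9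
  omega

theorem oo_pow_le (d k : ℕ) : oo (Fin k → A d) ≤ 2 ^ (PP d).card := by
  classical
  unfold oo
  rw [← Finset.card_powerset, ← Set.ncard_coe_finset]
  refine Set.ncard_le_ncard_of_injOn ordS ?_ ?_ (Finset.finite_toSet _)
  · rintro t ⟨x, rfl⟩
    rw [Finset.mem_coe, Finset.mem_powerset]
    intro y hy
    rw [mem_PP]
    refine ⟨?_, ordS_primePow hy⟩
    unfold ordS at hy
    rw [Finset.mem_image] at hy
    obtain ⟨q, hq, rfl⟩ := hy
    have pq := Nat.prime_of_mem_primeFactors hq
    have h0 : (orderOf x).factorization q ≠ 0 :=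
      (pq.factorization_pos_of_dvd (ord_pi_ne x) (Nat.dvd_of_mem_primeFactors hq)).ne'
    obtain ⟨i, hi⟩ := ord_pi_pow x pq h0
    have h1 : q ^ (orderOf (x i)).factorization q ∈ ordS (orderOf (x i)) := by
      unfold ordS
      refine Finset.mem_image_of_mem _ ?_
      rw [Nat.mem_primeFactors]
      refine ⟨pq, Nat.dvd_of_factorization_pos ?_, ord_alt_ne d (x i)⟩
      rw [hi]
      exact h0
    rw [← hi]
    exact (Finset.single_le_sum (f := fun x => x) (fun _ _ => Nat.zero_le _) h1).trans
      (ord_alt_sum d (x i))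
  · rintro s ⟨g, rfl⟩ t ⟨g', rfl⟩ h
    exact ordS_injOn (ord_pi_ne g) (ord_pi_ne g') h

theorem ord_pi_eq {k d : ℕ} (x : Fin k → A d) :
    orderOf x = Finset.univ.lcm (fun i => orderOf (x i)) := by
  apply Nat.dvd_antisymm
  · apply orderOf_dvd_of_pow_eq_one
    funext i
    have h : orderOf (x i) ∣ Finset.univ.lcm (fun i => orderOf (x i)) :=
      Finset.dvd_lcm (Finset.mem_univ i)
    exact orderOf_dvd_iff_pow_eq_one.1 h
  · exact Finset.lcm_dvd fun i _ => ord_pi_dvd x i

theorem oo_pow_le_pow (d k : ℕ) : oo (Fin k → A d) ≤ oo (A d) ^ k := by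
  classical
  unfold oo
  rw [← Nat.card_coe_set_eq, ← Nat.card_coe_set_eq]
  have h1 : Nat.card (Fin k → Set.range (fun g : A d => orderOf g)) =
      Nat.card (Set.range (fun g : A d => orderOf g)) ^ k := by
    rw [Nat.card_fun, Nat.card_fin]
  rw [← h1]
  have hfin : Finite (Set.range (fun g : A d => orderOf g)) := Set.finite_range _
  refine Nat.card_le_card_of_surjective (fun f =>
    (⟨Finset.univ.lcm (fun i => ((f i : Set.range (fun g : A d => orderOf g)) : ℕ)), by
      choose g hg using fun i => (f i).2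
      refine ⟨g, ?_⟩
      show orderOf g = _
      rw [ord_pi_eq]
      refine Finset.lcm_congr rfl fun i _ => hg i⟩ :
      Set.range (fun g : Fin k → A d => orderOf g))) ?_
  rintro ⟨t, x, rfl⟩
  refine ⟨fun i => ⟨orderOf (x i), x i, rfl⟩, ?_⟩
  apply Subtype.ext
  show _ = orderOf x
  rw [ord_pi_eq]

end SR32
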