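import Pool.Agent.SR32.DefsT
import Pool.Agent.SR32.Orders
import Pool.Agent.SR32.Quot

/-!
# The number of orders of elements of products of symmetric groups
-/

namespace SR32

theorem qord_pi_eq {J : Type*} [Fintype J] {G : J → Type*} [∀ j, Group (G j)] (x : ∀ j, G j) :
    orderOf x = Finset.univ.lcm (fun j => orderOf (x j)) := by
  apply Nat.dvd_antisymm
  · apply orderOf_dvd_of_pow_eq_one
    funext j
    have h : orderOf (x j) ∣ Finset.univ.lcm (fun j => orderOf (x j)) :=
      Finset.dvd_lcm (Finset.mem_univ j)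
    exact orderOf_dvd_iff_pow_eq_one.1 h
  · refine Finset.lcm_dvd fun j _ => ?_
    rw [orderOf_dvd_iff_pow_eq_one]
    exact congrFun (pow_orderOf_eq_one x) j

theorem qord_lcm {J : Type*} (S : Finset J) (c : J → ℕ) (hc : ∀ j, c j ≠ 0) :
    S.lcm c ≠ 0 ∧
      ∑ q ∈ (S.lcm c).primeFactors, q ^ (S.lcm c).factorization q ≤
        ∑ j ∈ S, ∑ q ∈ (c j).primeFactors, q ^ (c j).factorization q ∧
      ∀ q : ℕ, (S.lcm c).factorization q ≠ 0 →
        ∃ j ∈ S, (c j).factorization q = (S.lcm c).factorization q := by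
  classical
  induction S using Finset.induction_on with
  | empty => simp
  | insert a S ha ih =>
    obtain ⟨h1, h2, h3⟩ := ih
    have h4 : (insert a S).lcm c = Nat.lcm (c a) (S.lcm c) := Finset.lcm_insert
    have hf : (Nat.lcm (c a) (S.lcm c)).factorization =
        (c a).factorization ⊔ (S.lcm c).factorization := Nat.factorization_lcm (hc a) h1
    have hval : ∀ q, (Nat.lcm (c a) (S.lcm c)).factorization q =
        max ((c a).factorization q) ((S.lcm c).factorization q) := by
      intro q
      rw [hf]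
      rfl
    rw [h4, Finset.sum_insert ha]
    refine ⟨Nat.lcm_ne_zero (hc a) h1, (ord_F_lcm (c a) (S.lcm c) (hc a) h1).trans
      (Nat.add_le_add_left h2 _), ?_⟩
    intro q hq
    rw [hval] at hq ⊢
    rcases le_total ((c a).factorization q) ((S.lcm c).factorization q) with h | h
    · rw [max_eq_right h] at hq ⊢
      obtain ⟨j, hj, hj'⟩ := h3 q hq
      exact ⟨j, Finset.mem_insert_of_mem hj, hj'⟩
    · rw [max_eq_left h]
      exact ⟨a, Finset.mem_insert_self _ _, rfl⟩

theorem card_orders_pi_perm {J : Type*} [Fintype J] (s : J → ℕ) (b : ℕ) (hb : ∀ j, s j ≤ b) :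
    oo (∀ j, Equiv.Perm (Fin (s j))) ≤ (QQ b (∑ j, s j)).card := by
  classical
  have hne : ∀ x : (∀ j, Equiv.Perm (Fin (s j))), orderOf x ≠ 0 := fun x => (orderOf_pos x).ne'
  have hsum : ∀ x : (∀ j, Equiv.Perm (Fin (s j))), ∑ q ∈ ordS (orderOf x), q ≤ ∑ j, s j := by
    intro x
    rw [ordS_sum, qord_pi_eq]
    refine (qord_lcm Finset.univ (fun j => orderOf (x j))
      (fun j => (orderOf_pos (x j)).ne')).2.1.trans ?_
    refine Finset.sum_le_sum fun j _ => ?_
    have h := ord_perm_sum (s j) (x j)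
    rw [ordS_sum] at h
    exact h
  have hmem : ∀ x : (∀ j, Equiv.Perm (Fin (s j))), ∀ y ∈ ordS (orderOf x), y ≤ b := by
    intro x y hy
    unfold ordS at hy
    rw [Finset.mem_image] at hy
    obtain ⟨q, hq, rfl⟩ := hy
    have pq := Nat.prime_of_mem_primeFactors hq
    have h0 : (orderOf x).factorization q ≠ 0 :=
      (pq.factorization_pos_of_dvd (hne x) (Nat.dvd_of_mem_primeFactors hq)).ne'
    rw [qord_pi_eq] at h0
    obtain ⟨j, -, hj⟩ := (qord_lcm Finset.univ (fun j => orderOf (x j))
      (fun j => (orderOf_pos (x j)).ne')).2.2 q h0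
    have hj0 : (orderOf (x j)).factorization q ≠ 0 := by
      rw [hj]
      exact h0
    have h1 : q ^ (orderOf (x j)).factorization q ∈ ordS (orderOf (x j)) := by
      unfold ordS
      refine Finset.mem_image_of_mem _ ?_
      rw [Nat.mem_primeFactors]
      exact ⟨pq, Nat.dvd_of_factorization_pos hj0, (orderOf_pos (x j)).ne'⟩
    have h2 : q ^ (orderOf x).factorization q = q ^ (orderOf (x j)).factorization q := by
      rw [qord_pi_eq]
      exact congrArg _ hj.symm
    rw [h2]
    exact ((Finset.single_le_sum (f := fun x => x) (fun _ _ => Nat.zero_le _) h1).trans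
      (ord_perm_sum (s j) (x j))).trans (hb j)
  unfold oo
  rw [← Set.ncard_coe_finset]
  refine Set.ncard_le_ncard_of_injOn ordS ?_ ?_ (Finset.finite_toSet _)
  · rintro t ⟨x, rfl⟩
    rw [Finset.mem_coe, mem_QQ]
    refine ⟨fun q hq => ⟨?_, ordS_primePow hq⟩, hsum x, hmem x⟩
    exact (Finset.single_le_sum (f := fun x => x) (fun _ _ => Nat.zero_le _) hq).trans (hsum x)
  · rintro u ⟨x, rfl⟩ v ⟨y, rfl⟩ h
    exact ordS_injOn (hne x) (hne y) h

theorem oo_le_of_injective {G H : Type*} [Group G] [Group H] [Finite H] (f : G →* H)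
    (hf : Function.Injective f) : oo G ≤ oo H := by
  unfold oo
  refine Set.ncard_le_ncard ?_ (Set.finite_range _)
  rintro _ ⟨g, rfl⟩
  exact ⟨f g, orderOf_injective f hf g⟩

theorem oo_subgroup_le {G : Type*} [Group G] [Finite G] (K : Subgroup G) : oo K ≤ oo G :=
  oo_le_of_injective K.subtype K.subtype_injective

theorem card_orders_pi_perm_grouped {a : ℕ} (s d : Fin a → ℕ) (t : ℕ)
    (hb : ∀ j, s j ≤ t * om (A (d j))) :
    oo (∀ j, Equiv.Perm (Fin (s j))) ≤
      ∏ e ∈ Finset.univ.image d,
        (QQ (t * om (A e)) (∑ j ∈ Finset.univ.filter (fun j => d j = e), s j)).card := by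
  classical
  let G : ℕ → Type := fun e => ∀ j : {j : Fin a // d j = e}, Equiv.Perm (Fin (s j))
  let f : (∀ j, Equiv.Perm (Fin (s j))) →*
      (∀ e : {e : ℕ // e ∈ Finset.univ.image d}, G e) :=
    { toFun := fun x e j => x j
      map_one' := rfl
      map_mul' := fun _ _ => rfl }
  have hf : Function.Injective f := by
    intro x y h
    funext j
    exact congrFun (congrFun h ⟨d j, Finset.mem_image_of_mem d (Finset.mem_univ j)⟩) ⟨j, rfl⟩
  have h1 : oo (∀ j, Equiv.Perm (Fin (s j))) ≤
      ∏ e : {e : ℕ // e ∈ Finset.univ.image d}, oo (G e) :=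
    (oo_le_of_injective f hf).trans
      (oo_pi_le (fun e : {e : ℕ // e ∈ Finset.univ.image d} => G e))
  refine h1.trans ?_
  rw [Finset.prod_coe_sort (Finset.univ.image d) (fun e => oo (G e))]
  refine Finset.prod_le_prod (fun _ _ => Nat.zero_le _) fun e _ => ?_
  have h2 := card_orders_pi_perm (fun j : {j : Fin a // d j = e} => s j) (t * om (A e))
    (fun j => by
      have h := hb j
      rw [j.2] at h
      exact h)
  have h3 : ∑ j ∈ Finset.univ.filter (fun j => d j = e), s j =
      ∑ j : {j : Fin a // d j = e}, s j :=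
    Finset.sum_subtype _ (fun j => by simp) s
  rw [h3]
  exact h2

end SR32
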