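import Pool.Agent.SR32.StructS92
namespace SR32
theorem structure_thmT {H : Type*} [Group H] [Finite H] (P : ℕ → ℕ → Prop)
    (hmin : ∀ M : Subgroup H, IsMinNormal M →
      ∃ d s : ℕ, 5 ≤ d ∧ P d s ∧ Nonempty (M ≃* (Fin s → A d))) :
    ∃ N : Subgroup H, N.Characteristic ∧ Subgroup.centralizer (N : Set H) = ⊥ ∧
      ∃ (a : ℕ) (d s : Fin a → ℕ) (e : (∀ j, (Fin (s j) → A (d j))) ≃* N),
        (∀ j, 5 ≤ d j) ∧ (∀ j, P (d j) (s j)) ∧
        ∀ (h : H) (j : Fin a) (x : Fin (s j) → A (d j)), ∃ y : Fin (s j) → A (d j),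
          h * (e (Pi.mulSingle j x) : H) * h⁻¹ = (e (Pi.mulSingle j y) : H) :=
  structure_thmT_s92 P hmin
end SR32
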