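import Pool.Agent.SR32.CollectT
import Pool.Agent.SR32.StructT
import Pool.Agent.SR32.OuterT
import Pool.Agent.SR32.QOrd
import Pool.Agent.SR32.Outer

/-!
# The bound for the index of the soluble radical
-/

namespace SR32

universe u

theorem exists_mono (B : ℕ → ℕ → ℕ) : ∃ f : ℝ → ℝ → ℝ,
    (∀ x y, 1 ≤ x → 1 ≤ y → 1 ≤ f x y) ∧ (∀ y, StrictMono (fun x => f x y)) ∧
    (∀ x, StrictMono (fun y => f x y)) ∧
    ∀ x y : ℝ, 0 ≤ x → 0 ≤ y → (B ⌈x⌉₊ ⌈y⌉₊ : ℝ) ≤ f x y := by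
  refine ⟨fun x y => x + y +
    ((∑ i ∈ Finset.range (⌈x⌉₊ + 1), ∑ j ∈ Finset.range (⌈y⌉₊ + 1), B i j : ℕ) : ℝ),
    ?_, ?_, ?_, ?_⟩
  · intro x y hx hy
    have : (0 : ℝ) ≤
        ((∑ i ∈ Finset.range (⌈x⌉₊ + 1), ∑ j ∈ Finset.range (⌈y⌉₊ + 1), B i j : ℕ) : ℝ) :=
      Nat.cast_nonneg _
    linarith
  · intro y x x' hxx
    simp only
    have h1 : ∑ i ∈ Finset.range (⌈x⌉₊ + 1), ∑ j ∈ Finset.range (⌈y⌉₊ + 1), B i j ≤
        ∑ i ∈ Finset.range (⌈x'⌉₊ + 1), ∑ j ∈ Finset.range (⌈y⌉₊ + 1), B i j := by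
      apply Finset.sum_le_sum_of_subset
      apply Finset.range_subset_range.2
      have := Nat.ceil_mono hxx.le
      omega
    have h2 : ((∑ i ∈ Finset.range (⌈x⌉₊ + 1), ∑ j ∈ Finset.range (⌈y⌉₊ + 1), B i j : ℕ) : ℝ) ≤
        ((∑ i ∈ Finset.range (⌈x'⌉₊ + 1), ∑ j ∈ Finset.range (⌈y⌉₊ + 1), B i j : ℕ) : ℝ) := by
      exact_mod_cast h1
    linarith
  · intro x y y' hyy
    simp only
    have h1 : ∑ i ∈ Finset.range (⌈x⌉₊ + 1), ∑ j ∈ Finset.range (⌈y⌉₊ + 1), B i j ≤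
        ∑ i ∈ Finset.range (⌈x⌉₊ + 1), ∑ j ∈ Finset.range (⌈y'⌉₊ + 1), B i j := by
      apply Finset.sum_le_sum
      intro i _
      apply Finset.sum_le_sum_of_subset
      apply Finset.range_subset_range.2
      have := Nat.ceil_mono hyy.le
      omega
    have h2 : ((∑ i ∈ Finset.range (⌈x⌉₊ + 1), ∑ j ∈ Finset.range (⌈y⌉₊ + 1), B i j : ℕ) : ℝ) ≤
        ((∑ i ∈ Finset.range (⌈x⌉₊ + 1), ∑ j ∈ Finset.range (⌈y'⌉₊ + 1), B i j : ℕ) : ℝ) := by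
      exact_mod_cast h1
    linarith
  · intro x y hx hy
    simp only
    have h1 : B ⌈x⌉₊ ⌈y⌉₊ ≤
        ∑ i ∈ Finset.range (⌈x⌉₊ + 1), ∑ j ∈ Finset.range (⌈y⌉₊ + 1), B i j := by
      have ha : B ⌈x⌉₊ ⌈y⌉₊ ≤ ∑ j ∈ Finset.range (⌈y⌉₊ + 1), B ⌈x⌉₊ j :=
        Finset.single_le_sum (f := fun j => B ⌈x⌉₊ j) (fun _ _ => Nat.zero_le _)
          (Finset.mem_range.2 (Nat.lt_succ_self _))
      have hb : ∑ j ∈ Finset.range (⌈y⌉₊ + 1), B ⌈x⌉₊ j ≤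
          ∑ i ∈ Finset.range (⌈x⌉₊ + 1), ∑ j ∈ Finset.range (⌈y⌉₊ + 1), B i j :=
        Finset.single_le_sum (f := fun i => ∑ j ∈ Finset.range (⌈y⌉₊ + 1), B i j)
          (fun _ _ => Nat.zero_le _) (Finset.mem_range.2 (Nat.lt_succ_self _))
      exact ha.trans hb
    have h2 : (B ⌈x⌉₊ ⌈y⌉₊ : ℝ) ≤
        ((∑ i ∈ Finset.range (⌈x⌉₊ + 1), ∑ j ∈ Finset.range (⌈y⌉₊ + 1), B i j : ℕ) : ℝ) := by
      exact_mod_cast h1
    linarith

theorem om_le_pow {G : Type*} [Group G] [Finite G] [Nontrivial G] (L : ℕ) (h : ll G ≤ L) :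
    om G ≤ oo G ^ L := by
  have h2 : 2 ≤ oo G := two_le_oo G
  have hlog : 0 < Real.log (oo G) := by
    apply Real.log_pos
    have : (2 : ℝ) ≤ (oo G : ℝ) := by exact_mod_cast h2
    linarith
  unfold ll at h
  rw [div_le_iff₀ hlog] at h
  have h3 : Real.log (om G) ≤ Real.log (((oo G ^ L : ℕ)) : ℝ) := by
    push_cast
    rw [Real.log_pow]
    exact h
  have h4 : (0 : ℝ) < (om G : ℝ) := by exact_mod_cast om_pos G
  have h5 : (0 : ℝ) < ((oo G ^ L : ℕ) : ℝ) := by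
    have : 0 < oo G ^ L := pow_pos (by omega) L
    exact_mod_cast this
  have h6 := (Real.log_le_log_iff h4 h5).1 h3
  exact_mod_cast h6

theorem main_bound (t : ℕ) : ∃ B : ℕ → ℕ → ℕ, ∀ (G : Type u) [Group G] [Finite G] [Nontrivial G],
    (∀ M : Subgroup (G ⧸ Rad G), IsMinNormal M →
      ∃ d s : ℕ, 5 ≤ d ∧ s ≤ t * om (A d) ∧ Nonempty (M ≃* (Fin s → A d))) →
    ∀ L m : ℕ, ll G ≤ L → oo (Rad G) ≤ m → Nat.card (G ⧸ Rad G) ≤ B L m := by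
  classical
  choose B hB using fun L m => card_boundT L m t
  set c := 2 * Nat.card (MulAut (A 6)) with hc
  have hc1 : 1 ≤ c := by
    have : 0 < Nat.card (MulAut (A 6)) := Nat.card_pos
    omega
  refine ⟨fun L m => B L (m * c) ^ B L (m * c), ?_⟩
  intro G _ _ _ hmin L m hL hm
  obtain ⟨N, hchar, hcent, a, d, s, e, h5, hP, hn⟩ := structure_thmT
    (H := G ⧸ Rad G) (fun d s => s ≤ t * om (A d) ∧ 1 ≤ s) (by
      intro M hM
      obtain ⟨d, s, hd, hs, ⟨e⟩⟩ := hmin M hM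
      refine ⟨d, s, hd, ⟨hs, ?_⟩, ⟨e⟩⟩
      rcases Nat.eq_zero_or_pos s with h0 | h1
      · exfalso
        subst h0
        apply hM.2.1
        rw [Subgroup.eq_bot_iff_forall]
        intro x hx
        have : (⟨x, hx⟩ : M) = 1 := e.injective (Subsingleton.elim _ _)
        exact congrArg Subtype.val this
      · exact h1)
  haveI := hchar
  obtain ⟨τ, hτ⟩ := outerT N hcent a d s e h5 hn
  have h1 : oo (G ⧸ Rad G) ≤ oo (∀ j, Equiv.Perm (Fin (s j))) * (c * oo N) :=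
    oo_le_outerT N τ c hc1 hτ
  have h2 := card_orders_pi_perm_grouped s d t (fun j => (hP j).1)
  set Q := ∏ e ∈ Finset.univ.image d,
        (QQ (t * om (A e)) (∑ j ∈ Finset.univ.filter (fun j => d j = e), s j)).card with hQ
  have h3 : om N ≤ (m * c * oo N * Q) ^ L := by
    calc om N ≤ om (G ⧸ Rad G) := om_char_le N
      _ ≤ om G := om_quot_le _
      _ ≤ oo G ^ L := om_le_pow L hL
      _ ≤ (oo (G ⧸ Rad G) * oo (Rad G)) ^ L := Nat.pow_le_pow_left (oo_le_mul _) L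
      _ ≤ ((Q * (c * oo N)) * m) ^ L := by
        apply Nat.pow_le_pow_left
        apply Nat.mul_le_mul _ hm
        exact h1.trans (Nat.mul_le_mul_right _ h2)
      _ = (m * c * oo N * Q) ^ L := by ring
  rw [← om_congr e, ← oo_congr e] at h3
  have h4 := hB L (m * c) a d s h5 (fun j => (hP j).2) h3
  have h5' : Nat.card N ≤ B L (m * c) := by
    rw [← Nat.card_congr e.toEquiv]
    exact h4
  have h6 : 1 ≤ B L (m * c) := le_trans Nat.card_pos h5'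
  calc Nat.card (G ⧸ Rad G) ≤ Nat.card N ^ Nat.card N := card_le_of_centralizer N hcent
    _ ≤ B L (m * c) ^ Nat.card N := Nat.pow_le_pow_left h5' _
    _ ≤ B L (m * c) ^ B L (m * c) := Nat.pow_le_pow_right h6 h5'

theorem ll_nonneg (G : Type*) [Group G] [Finite G] : 0 ≤ ll G := by
  unfold ll
  apply div_nonneg
  · exact Real.log_natCast_nonneg _
  · exact Real.log_natCast_nonneg _

theorem final (t : ℕ) : ∃ f : ℝ → ℝ → ℝ,
    (∀ x y, 1 ≤ x → 1 ≤ y → 1 ≤ f x y) ∧ (∀ y, StrictMono (fun x => f x y)) ∧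
    (∀ x, StrictMono (fun y => f x y)) ∧
    ∀ (G : Type u) [Group G] [Finite G] [Nontrivial G],
      (∀ M : Subgroup (G ⧸ Rad G), IsMinNormal M →
        ∃ d s : ℕ, 5 ≤ d ∧ s ≤ t * om (A d) ∧ Nonempty (M ≃* (Fin s → A d))) →
      ((Rad G).index : ℝ) ≤ f (ll G) (oo (Rad G)) := by
  obtain ⟨B, hB⟩ := main_bound.{u} t
  obtain ⟨f, h1, h2, h3, h4⟩ := exists_mono B
  refine ⟨f, h1, h2, h3, ?_⟩
  intro G _ _ _ hmin
  have h5 := hB G hmin ⌈ll G⌉₊ ⌈((oo (Rad G) : ℕ) : ℝ)⌉₊ (Nat.le_ceil _) (by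
    rw [Nat.ceil_natCast])
  have h6 := h4 (ll G) (oo (Rad G)) (ll_nonneg G) (Nat.cast_nonneg _)
  have h7 : ((Rad G).index : ℝ) ≤ (B ⌈ll G⌉₊ ⌈((oo (Rad G) : ℕ) : ℝ)⌉₊ : ℝ) := by
    exact_mod_cast h5
  exact h7.trans h6

end SR32
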