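import Pool.Agent.SR32.StructS92

/-!
# The join of an enumerated invariant family of minimal normal subgroups
-/

set_option autoImplicit false

namespace SR32

theorem structure_enum {H : Type*} [Group H] [Finite H] (a : ℕ) (M : Fin a → Subgroup H)
    (hMinj : Function.Injective M) (hM : ∀ j, IsMinNormal (M j))
    (haut : ∀ (φ : H ≃* H) (j : Fin a), ∃ k, (M j).map φ.toMonoidHom = M k)
    (d s : Fin a → ℕ) (h5 : ∀ j, 5 ≤ d j)
    (hψ : ∀ j, Nonempty (M j ≃* (Fin (s j) → A (d j)))) :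
    (⨆ j, M j : Subgroup H).Characteristic ∧
      ∃ e : (∀ j, (Fin (s j) → A (d j))) ≃* (⨆ j, M j : Subgroup H),
        ∀ (h : H) (j : Fin a) (x : Fin (s j) → A (d j)), ∃ y : Fin (s j) → A (d j),
          h * (e (Pi.mulSingle j x) : H) * h⁻¹ = (e (Pi.mulSingle j y) : H) := by
  classical
  have φ : ∀ j, (M j) ≃* (Fin (s j) → A (d j)) := fun j => (hψ j).some
  have hcomm : Pairwise fun i j : Fin a => ∀ x y : H, x ∈ M i → y ∈ M j → Commute x y := by
    intro i j hij
    apply Subgroup.commute_of_normal_of_disjoint _ _ (hM i).1 (hM j).1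
    rw [disjoint_iff]
    have hn : (M i ⊓ M j).Normal := by
      have := (hM i).1
      have := (hM j).1
      infer_instance
    rcases (hM i).2.2 _ hn inf_le_left with h | h
    · exact h
    · rcases (hM j).2.2 (M i) (hM i).1 (by rw [← h]; exact inf_le_right) with h' | h'
      · exact absurd h' (hM i).2.1
      · exact absurd (hMinj h') hij
  let f : (∀ j, M j) →* H := Subgroup.noncommPiCoprod hcomm
  have hf : ∀ (j : Fin a) (y : M j), f (Pi.mulSingle j y) = (y : H) := fun j y =>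
    Subgroup.noncommPiCoprod_mulSingle j y
  have hinj : Function.Injective f := by
    rw [injective_iff_map_eq_one]
    intro x hx
    funext j
    apply st_center (h5 j) (φ j)
    intro y
    have h1 : f (x * Pi.mulSingle j y * x⁻¹) = (y : H) := by
      rw [map_mul, map_mul, map_inv, hx, hf]
      group
    rw [perm_conj_single, hf] at h1
    have h2 : x j * y * (x j)⁻¹ = y := Subtype.ext h1
    calc x j * y = x j * y * (x j)⁻¹ * x j := by group
      _ = y * x j := by rw [h2]
  have hrange : f.range = ⨆ j, M j := Subgroup.noncommPiCoprod_range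
  have hchar : (⨆ j, M j : Subgroup H).Characteristic := by
    rw [Subgroup.characteristic_iff_map_le]
    intro ψ
    rw [Subgroup.map_iSup]
    apply iSup_le
    intro j
    obtain ⟨k, hk⟩ := haut ψ j
    rw [hk]
    exact le_iSup M k
  let e : (∀ j, (Fin (s j) → A (d j))) ≃* (⨆ j, M j : Subgroup H) :=
    ((MulEquiv.piCongrRight (fun j => (φ j).symm)).trans (MonoidHom.ofInjective hinj)).trans
      (MulEquiv.subgroupCongr hrange)
  have he : ∀ (j : Fin a) (x : Fin (s j) → A (d j)),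
      (e (Pi.mulSingle j x) : H) = ((φ j).symm x : H) := by
    intro j x
    show ((MonoidHom.ofInjective hinj)
      ((MulEquiv.piCongrRight (fun j => (φ j).symm)) (Pi.mulSingle j x)) : H) = _
    rw [MonoidHom.ofInjective_apply]
    have : (MulEquiv.piCongrRight (fun j => (φ j).symm)) (Pi.mulSingle j x) =
        Pi.mulSingle j ((φ j).symm x) := by
      funext k
      rw [MulEquiv.piCongrRight_apply]
      by_cases h : k = j
      · subst h
        simp
      · simp [Pi.mulSingle_eq_of_ne h]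
    rw [this, hf]
  refine ⟨hchar, e, ?_⟩
  intro h j x
  refine ⟨φ j ⟨h * ((φ j).symm x : H) * h⁻¹, (hM j).1.conj_mem _ ((φ j).symm x).2 h⟩, ?_⟩
  rw [he, he, MulEquiv.symm_apply_apply]

/-- Enumeration of the minimal normal subgroups of a given kind. -/
theorem enum_min {H : Type*} [Group H] [Finite H] (R : ℕ → ℕ → Prop) :
    ∃ (a : ℕ) (M : Fin a → Subgroup H) (d s : Fin a → ℕ), Function.Injective M ∧
      (∀ j, IsMinNormal (M j)) ∧
      (∀ (φ : H ≃* H) (j : Fin a), ∃ k, (M j).map φ.toMonoidHom = M k) ∧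
      (∀ j, 5 ≤ d j) ∧ (∀ j, R (d j) (s j)) ∧
      (∀ j, Nonempty (M j ≃* (Fin (s j) → A (d j)))) ∧
      ∀ K : Subgroup H, IsMinNormal K →
        (∃ d s : ℕ, 5 ≤ d ∧ R d s ∧ Nonempty (K ≃* (Fin s → A d))) → ∃ j, M j = K := by
  classical
  obtain ⟨a, ⟨ν⟩⟩ := Finite.exists_equiv_fin
    {K : Subgroup H // IsMinNormal K ∧ ∃ d s : ℕ, 5 ≤ d ∧ R d s ∧ Nonempty (K ≃* (Fin s → A d))}
  let M : Fin a → Subgroup H := fun j => (ν.symm j).1
  have hM : ∀ j, IsMinNormal (M j) := fun j => (ν.symm j).2.1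
  have hall : ∀ K : Subgroup H, IsMinNormal K →
        (∃ d s : ℕ, 5 ≤ d ∧ R d s ∧ Nonempty (K ≃* (Fin s → A d))) → ∃ j, M j = K := by
    intro K hK hK'
    refine ⟨ν ⟨K, hK, hK'⟩, ?_⟩
    show (ν.symm (ν ⟨K, hK, hK'⟩)).1 = K
    rw [Equiv.symm_apply_apply]
  have hMinj : Function.Injective M := fun i j hij => ν.symm.injective (Subtype.ext hij)
  choose d s h5 hP hψ using fun j => (ν.symm j).2.2
  refine ⟨a, M, d, s, hMinj, hM, ?_, h5, hP, hψ, hall⟩
  intro φ j
  obtain ⟨k, hk⟩ := hall ((M j).map φ.toMonoidHom) (st_map_min φ (hM j))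
    ⟨d j, s j, h5 j, hP j, ⟨((φ.subgroupMap (M j)).symm).trans (hψ j).some⟩⟩
  exact ⟨k, hk.symm⟩

end SR32
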