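import Pool.Agent.SR32.StructS92
import Pool.Agent.SR32.DefsU

/-!
# A minimal normal subgroup with many simple factors gives many orbits
-/

set_option autoImplicit false

namespace SR32

universe u

open Finset

theorem pow_le_om {H : Type u} [Group H] [Finite H] (M : Subgroup H) (hM : IsMinNormal M)
    (hna : ∃ x ∈ M, ∃ y ∈ M, x * y ≠ y * x) (S : Subgroup M) (s : ℕ) (hS : IsSimpleGroup S)
    (e : M ≃* (Fin s → S)) : s ≤ om H := by
  classical
  have hc : Subgroup.center S = ⊥ := by
    rcases hS.eq_bot_or_eq_top_of_normal (Subgroup.center S) inferInstance with h | h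
    · exact h
    · exfalso
      obtain ⟨x, hx, y, hy, hxy⟩ := hna
      apply hxy
      have h1 : e ⟨x, hx⟩ * e ⟨y, hy⟩ = e ⟨y, hy⟩ * e ⟨x, hx⟩ := by
        funext i
        have h2 : e ⟨x, hx⟩ i ∈ Subgroup.center S := by rw [h]; exact Subgroup.mem_top _
        exact (Subgroup.mem_center_iff.1 h2 _).symm
      rw [← map_mul, ← map_mul] at h1
      exact congrArg Subtype.val (e.injective h1)
  obtain ⟨y, hy⟩ := exists_ne (1 : S)
  obtain ⟨X, hX⟩ : ∃ X : Fin s → M, ∀ i, e (X i) = fun k => if k ≤ i then y else 1 :=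
    ⟨fun i => e.symm (fun k => if k ≤ i then y else 1), fun i => e.apply_symm_apply _⟩
  have hX1 : ∀ i, X i ≠ 1 := by
    intro i h
    have h1 := hX i
    rw [h, map_one] at h1
    have h2 := congrFun h1 i
    rw [Pi.one_apply, if_pos le_rfl] at h2
    exact hy h2.symm
  have hsupp : ∀ i : Fin s, #{k | e (X i) k ≠ 1} = (i : ℕ) + 1 := by
    intro i
    rw [hX]
    have h1 : (univ.filter fun k : Fin s => (if k ≤ i then y else 1) ≠ 1) = Iic i := by
      ext k
      rw [mem_filter, mem_Iic]
      by_cases hk : k ≤ i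
      · simp [hk, hy]
      · simp [hk]
    rw [h1, Fin.card_Iic]
  unfold om
  have hfq : Finite (MulAction.orbitRel.Quotient (MulAut H) H) := Quotient.finite _
  conv_lhs => rw [← Nat.card_fin s]
  refine Nat.card_le_card_of_injective
    (fun i : Fin s => (Quotient.mk'' ((X i : M) : H) :
      MulAction.orbitRel.Quotient (MulAut H) H)) ?_
  intro i j hij
  have h3 : (MulAction.orbitRel (MulAut H) H) ((X i : M) : H) ((X j : M) : H) :=
    Quotient.exact' hij
  rw [MulAction.orbitRel_apply] at h3
  obtain ⟨φ, hφ⟩ := h3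
  have hφ' : φ ((X j : M) : H) = ((X i : M) : H) := hφ
  -- `φ` maps `M` onto `M`
  have hmap : M.map φ.toMonoidHom = M := by
    have hM' := st_map_min φ hM
    have hn : (M ⊓ M.map φ.toMonoidHom).Normal := by
      have := hM.1
      have := hM'.1
      infer_instance
    rcases hM.2.2 _ hn inf_le_left with h | h
    · exfalso
      have h1 : ((X i : M) : H) ∈ M ⊓ M.map φ.toMonoidHom :=
        Subgroup.mem_inf.2 ⟨(X i).2, by rw [← hφ']; exact Subgroup.mem_map_of_mem _ (X j).2⟩
      rw [h, Subgroup.mem_bot] at h1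
      exact hX1 i (Subtype.ext h1)
    · rcases hM'.2.2 M hM.1 (inf_eq_left.1 h) with h' | h'
      · exact absurd h' hM.2.1
      · exact h'.symm
  let ψ : M ≃* M := (φ.subgroupMap M).trans (MulEquiv.subgroupCongr hmap)
  have hψ : ψ (X j) = X i := Subtype.ext hφ'
  let χ : (Fin s → S) ≃* (Fin s → S) := (e.symm.trans ψ).trans e
  have hχ : χ (e (X j)) = e (X i) := by
    show e (ψ (e.symm (e (X j)))) = e (X i)
    rw [MulEquiv.symm_apply_apply, hψ]
  obtain ⟨σ, τ, hτ⟩ := aut_pi (fun _ : Fin s => (S : Type u)) (fun _ => hc) χ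
  have h4 : (univ.filter fun k => e (X j) k ≠ 1).map σ.toEmbedding =
      univ.filter fun k => e (X i) k ≠ 1 := by
    ext k
    rw [mem_map_equiv, mem_filter, mem_filter]
    have h5 := hτ (e (X j)) (σ.symm k)
    rw [hχ, Equiv.apply_symm_apply] at h5
    have h6 : e (X i) k = 1 ↔ e (X j) (σ.symm k) = 1 := by
      have h7 := (τ (σ.symm k)).map_eq_one_iff (x := e (X j) (σ.symm k))
      rw [← h7]
      have h8 : ∀ l, σ (σ.symm k) = l → (e (X i) l = 1 ↔
          (τ (σ.symm k)) (e (X j) (σ.symm k)) = 1) := by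
        rintro l rfl
        rw [← hχ, hτ]
      exact h8 k (σ.apply_symm_apply k)
    simp only [mem_univ, true_and, ne_eq]
    rw [h6]
  have h9 := congrArg Finset.card h4
  rw [card_map, hsupp, hsupp] at h9
  exact Fin.ext (by omega)

end SR32
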