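import Pool.Agent.SR32.DefsU

/-!
# SR32/URad: the soluble radical of a finite group is soluble
-/

namespace SR32

theorem urad_sol_ext {G K : Type*} [Group G] [Group K] (f : G →* K) (N P : Subgroup G)
    (hN : Group.IsSolvable N) (hK : Group.IsSolvable (P.map f)) (h : ∀ x ∈ P, f x = 1 → x ∈ N)
    (hNP : N ≤ P) : Group.IsSolvable P := by
  refine Group.isSolvable_of_ker_le_range (Subgroup.inclusion hNP) (f.subgroupMap P) ?_
  intro x hx
  rw [MonoidHom.mem_ker] at hx
  have h1 : f (x : G) = 1 := congrArg Subtype.val hx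
  exact ⟨⟨x, h x x.2 h1⟩, Subtype.ext rfl⟩

theorem urad_sol_sup {G : Type*} [Group G] (N M : Subgroup G) [N.Normal]
    (hN : Group.IsSolvable N) (hM : Group.IsSolvable M) :
    Group.IsSolvable (N ⊔ M : Subgroup G) := by
  have h1 : (N ⊔ M).map (QuotientGroup.mk' N) = M.map (QuotientGroup.mk' N) := by
    rw [Subgroup.map_sup, QuotientGroup.map_mk'_self, bot_sup_eq]
  have h2 : Group.IsSolvable (M.map (QuotientGroup.mk' N)) :=
    Group.isSolvable_of_surjective ((QuotientGroup.mk' N).subgroupMap_surjective M)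
  refine urad_sol_ext (QuotientGroup.mk' N) N (N ⊔ M) hN ?_ ?_ le_sup_left
  · rw [h1]; exact h2
  · intro x _ hx
    exact (QuotientGroup.eq_one_iff x).1 hx

theorem urad_exists_max (G : Type*) [Group G] [Finite G] :
    ∃ m : Subgroup G, (m.Normal ∧ Group.IsSolvable m) ∧ Rad G = m := by
  have hne : {N : Subgroup G | N.Normal ∧ Group.IsSolvable N}.Nonempty :=
    ⟨⊥, inferInstance, inferInstance⟩
  obtain ⟨m, hm⟩ := (Set.toFinite {N : Subgroup G | N.Normal ∧ Group.IsSolvable N}).exists_maximal hne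
  refine ⟨m, hm.prop, le_antisymm ?_ (le_sSup hm.prop)⟩
  apply sSup_le
  intro N hN
  obtain ⟨h1, h2⟩ := hm.prop
  obtain ⟨h3, h4⟩ := hN
  have h5 : (m ⊔ N) ∈ {N : Subgroup G | N.Normal ∧ Group.IsSolvable N} :=
    ⟨Subgroup.sup_normal m N, urad_sol_sup m N h2 h4⟩
  exact le_sup_right.trans (hm.2 h5 le_sup_left)

theorem rad_solvable (G : Type*) [Group G] [Finite G] : Group.IsSolvable (Rad G) := by
  obtain ⟨m, h1, h2⟩ := urad_exists_max G
  rw [h2]
  exact h1.2

theorem minNormal_nonab {G : Type*} [Group G] [Finite G] (M : Subgroup (G ⧸ Rad G))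
    (hM : IsMinNormal M) : ∃ x ∈ M, ∃ y ∈ M, x * y ≠ y * x := by
  by_contra hcon
  push Not at hcon
  obtain ⟨hn, hne, _⟩ := hM
  have hs : Group.IsSolvable M :=
    Group.isSolvable_of_comm fun a b => Subtype.ext (hcon a a.2 b b.2)
  set P : Subgroup G := M.comap (QuotientGroup.mk' (Rad G)) with hP
  have hmap : P.map (QuotientGroup.mk' (Rad G)) = M :=
    Subgroup.map_comap_eq_self_of_surjective (QuotientGroup.mk'_surjective _) M
  have hRP : Rad G ≤ P := by
    intro x hx
    rw [hP, Subgroup.mem_comap]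
    have : QuotientGroup.mk' (Rad G) x = 1 := (QuotientGroup.eq_one_iff x).2 hx
    rw [this]
    exact M.one_mem
  have hPs : Group.IsSolvable P := by
    refine urad_sol_ext (QuotientGroup.mk' (Rad G)) (Rad G) P (rad_solvable G) ?_ ?_ hRP
    · rw [hmap]; exact hs
    · intro x _ hx
      exact (QuotientGroup.eq_one_iff x).1 hx
  have hPn : P.Normal := hn.comap _
  have hle : P ≤ Rad G := le_sSup ⟨hPn, hPs⟩
  apply hne
  rw [← hmap, eq_bot_iff]
  refine (Subgroup.map_mono hle).trans ?_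
  rw [QuotientGroup.map_mk'_self]

end SR32
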