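import Pool.Agent.SR32.Quot
import Pool.Agent.SR32.DefsU

/-!
# Series of characteristic subgroups

`SerC t h X`: the group `X` has characteristic subgroups `1 = U 0 ≤ U 1 ≤ ... ≤ U h = X` such that all
factors `U (i + 1) / U i` are `t`-good.  Then `om X ^ h` is at least `c ^ h * oo X ^ Λ`, if `om Q` is at
least `c * oo Q ^ Λ` for all finite `t`-good groups `Q`.
-/

set_option autoImplicit false

namespace SR32

universe u

/-- `X` has a series of characteristic subgroups of length `h` with `t`-good factors. -/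
def SerC (t h : ℕ) (X : Type u) [Group X] : Prop :=
  ∃ (U : ℕ → Subgroup X) (_ : ∀ i, (U i).Characteristic), U 0 = ⊥ ∧ U h = ⊤ ∧
    (∀ i, U i ≤ U (i + 1)) ∧ ∀ i < h, Good t (U (i + 1) ⧸ (U i).subgroupOf (U (i + 1)))

/-- orbits on a section defined by two characteristic subgroups -/
theorem us_sect_le {X : Type*} [Group X] [Finite X] (V U : Subgroup X) [V.Characteristic]
    [U.Characteristic] : om (U ⧸ V.subgroupOf U) ≤ om X := by
  unfold om
  have : Finite (MulAction.orbitRel.Quotient (MulAut X) X) := Quotient.finite _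
  let l : MulAction.orbitRel.Quotient (MulAut (U ⧸ V.subgroupOf U)) (U ⧸ V.subgroupOf U) → U :=
    fun q => Quotient.out (Quotient.out q : U ⧸ V.subgroupOf U)
  have hl : ∀ q, (QuotientGroup.mk (l q) : U ⧸ V.subgroupOf U) = Quotient.out q := by
    intro q
    exact Quotient.out_eq _
  refine Nat.card_le_card_of_injective
    (fun q => (Quotient.mk'' ((l q : U) : X) : MulAction.orbitRel.Quotient (MulAut X) X)) ?_
  intro p q hpq
  have h1 : MulAction.orbitRel (MulAut X) X ((l p : U) : X) ((l q : U) : X) := Quotient.exact hpq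
  rw [MulAction.orbitRel_apply] at h1
  obtain ⟨φ, hφ⟩ := h1
  have hφ' : φ ((l q : U) : X) = ((l p : U) : X) := hφ
  have hmap : U.map φ.toMonoidHom = U := Subgroup.characteristic_iff_map_eq.1 inferInstance φ
  have hV : ∀ x : X, φ x ∈ V ↔ x ∈ V := by
    intro x
    have h2 := Subgroup.characteristic_iff_comap_eq.1 (inferInstance : V.Characteristic) φ
    constructor
    · intro h
      rw [← h2]
      exact h
    · intro h
      rw [← h2] at h
      exact h
  let φU : U ≃* U := (φ.subgroupMap U).trans (MulEquiv.subgroupCongr hmap)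
  have hφU : ∀ x : U, ((φU x : U) : X) = φ (x : X) := fun x => rfl
  have hVm : (V.subgroupOf U).map (φU : U →* U) = V.subgroupOf U := by
    ext x
    rw [Subgroup.mem_map, Subgroup.mem_subgroupOf]
    constructor
    · rintro ⟨y, hy, rfl⟩
      rw [Subgroup.mem_subgroupOf] at hy
      exact (hV _).2 hy
    · intro hx
      refine ⟨φU.symm x, ?_, φU.apply_symm_apply x⟩
      rw [Subgroup.mem_subgroupOf, ← hV, ← hφU, φU.apply_symm_apply]
      exact hx
  have h2 : MulAction.orbitRel (MulAut (U ⧸ V.subgroupOf U)) (U ⧸ V.subgroupOf U)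
      (Quotient.out p) (Quotient.out q) := by
    rw [MulAction.orbitRel_apply]
    refine ⟨QuotientGroup.congr (V.subgroupOf U) (V.subgroupOf U) φU hVm, ?_⟩
    show QuotientGroup.congr (V.subgroupOf U) (V.subgroupOf U) φU hVm (Quotient.out q) =
      Quotient.out p
    rw [← hl q, ← hl p, QuotientGroup.congr_mk]
    congr 1
    exact Subtype.ext hφ'
  rw [← Quotient.out_eq p, ← Quotient.out_eq q]
  exact Quotient.sound h2

theorem us_oo_series {X : Type*} [Group X] [Finite X] (U : ℕ → Subgroup X)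
    (hU : ∀ i, (U i).Characteristic) (h0 : U 0 = ⊥) (hle : ∀ i, U i ≤ U (i + 1)) (k : ℕ) :
    oo (U k) ≤ ∏ i ∈ Finset.range k, oo (U (i + 1) ⧸ (U i).subgroupOf (U (i + 1))) := by
  induction k with
  | zero =>
    rw [Finset.range_zero, Finset.prod_empty]
    unfold oo
    have : Subsingleton (U 0) := by rw [h0]; infer_instance
    exact (Set.ncard_le_one (Set.toFinite _)).2 (by
      rintro _ ⟨a, rfl⟩ _ ⟨b, rfl⟩
      rw [Subsingleton.elim a b])
  | succ k ih =>
    rw [Finset.prod_range_succ, mul_comm]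
    refine (oo_le_mul ((U k).subgroupOf (U (k + 1)))).trans ?_
    apply Nat.mul_le_mul_left
    rw [oo_congr (Subgroup.subgroupOfEquivOfLe (hle k))]
    exact ih

theorem us_main (t Λ : ℕ) (c : ℝ) (hc : 0 < c)
    (hg : ∀ (Q : Type u) [Group Q] [Finite Q], Good t Q → c * (oo Q : ℝ) ^ Λ ≤ (om Q : ℝ))
    {X : Type u} [Group X] [Finite X] (h : ℕ) (hX : SerC t h X) :
    c ^ h * (oo X : ℝ) ^ Λ ≤ (om X : ℝ) ^ h := by
  obtain ⟨U, hU, h0, h1, hle, hgood⟩ := hX
  have e1 : oo X ≤ ∏ i ∈ Finset.range h, oo (U (i + 1) ⧸ (U i).subgroupOf (U (i + 1))) := by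
    refine le_trans ?_ (us_oo_series U hU h0 hle h)
    rw [h1, oo_congr (Subgroup.topEquiv (G := X))]
  have e2 : (oo X : ℝ) ^ Λ ≤
      ∏ i ∈ Finset.range h, (oo (U (i + 1) ⧸ (U i).subgroupOf (U (i + 1))) : ℝ) ^ Λ := by
    rw [Finset.prod_pow]
    apply pow_le_pow_left₀ (Nat.cast_nonneg _)
    exact_mod_cast e1
  calc c ^ h * (oo X : ℝ) ^ Λ
      ≤ c ^ h * ∏ i ∈ Finset.range h, (oo (U (i + 1) ⧸ (U i).subgroupOf (U (i + 1))) : ℝ) ^ Λ :=
        mul_le_mul_of_nonneg_left e2 (by positivity)
    _ = ∏ i ∈ Finset.range h, (c * (oo (U (i + 1) ⧸ (U i).subgroupOf (U (i + 1))) : ℝ) ^ Λ) := by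
        rw [Finset.prod_mul_distrib, Finset.prod_const, Finset.card_range]
    _ ≤ ∏ _i ∈ Finset.range h, (om X : ℝ) := by
        apply Finset.prod_le_prod
        · intro i _
          positivity
        · intro i hi
          refine (hg _ (hgood i (Finset.mem_range.1 hi))).trans ?_
          exact_mod_cast us_sect_le (U i) (U (i + 1))
    _ = (om X : ℝ) ^ h := by rw [Finset.prod_const, Finset.card_range]

end SR32
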