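import Pool.Agent.SR32.DefsU

/-!
# SR32/USupp: at least as many automorphism orbits as minimal normal subgroups of a class, plus one
-/

set_option autoImplicit false

namespace SR32

theorem usupp_commute {H : Type*} [Group H] {M N : Subgroup H} (hM : IsMinNormal M)
    (hN : IsMinNormal N) (hne : M ≠ N) {x y : H} (hx : x ∈ M) (hy : y ∈ N) : x * y = y * x := by
  have h1 : (M ⊓ N).Normal := by
    have := hM.1
    have := hN.1
    infer_instance
  have h2 : Disjoint M N := by
    rcases hM.2.2 (M ⊓ N) h1 inf_le_left with h | h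
    · exact disjoint_iff.2 h
    · exfalso
      have h3 : M ≤ N := by rw [← h]; exact inf_le_right
      rcases hN.2.2 M hM.1 h3 with h4 | h4
      · exact hM.2.1 h4
      · exact hne h4
  exact Subgroup.commute_of_normal_of_disjoint M N hM.1 hN.1 h2 x y hx hy

theorem usupp_elem {H : Type*} [Group H] (W : Set (Subgroup H))
    (hW : ∀ M ∈ W, IsMinNormal M) (hna : ∀ M ∈ W, ∃ x ∈ M, ∃ y ∈ M, x * y ≠ y * x)
    (S : Finset (Subgroup H)) (hS : ∀ M ∈ S, M ∈ W) :
    ∃ x : H, ∀ M ∈ W, ((¬ ∀ y ∈ M, x * y = y * x) ↔ M ∈ S) := by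
  classical
  induction S using Finset.induction_on with
  | empty =>
    refine ⟨1, fun M _ => ?_⟩
    simp
  | insert N S hNS ih =>
    obtain ⟨x, hx⟩ := ih fun M hM => hS M (Finset.mem_insert_of_mem hM)
    have hN := hS N (Finset.mem_insert_self _ _)
    obtain ⟨z, hz, y0, hy0, hzy⟩ := hna N hN
    have hxN : ∀ y ∈ N, x * y = y * x := by
      by_contra h
      exact hNS ((hx N hN).1 h)
    refine ⟨z * x, fun M hM => ?_⟩
    by_cases hMN : M = N
    · subst hMN
      refine ⟨fun _ => Finset.mem_insert_self _ _, fun _ h => hzy ?_⟩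
      have h1 := h y0 hy0
      rw [mul_assoc, hxN y0 hy0, ← mul_assoc, ← mul_assoc] at h1
      exact mul_right_cancel h1
    · have h1 : ∀ y ∈ M, z * y = y * z := fun y hy =>
        usupp_commute (hW N hN) (hW M hM) (Ne.symm hMN) hz hy
      have h2 : (∀ y ∈ M, z * x * y = y * (z * x)) ↔ ∀ y ∈ M, x * y = y * x := by
        constructor
        · intro h y hy
          have h3 := h y hy
          rw [← mul_assoc, ← h1 y hy, mul_assoc, mul_assoc] at h3
          exact mul_left_cancel h3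
        · intro h y hy
          rw [mul_assoc, h y hy, ← mul_assoc, h1 y hy, mul_assoc]
      rw [h2, hx M hM, Finset.mem_insert]
      exact ⟨Or.inr, fun h => h.resolve_left hMN⟩

/-- the number of members which are not centralized -/
noncomputable def usuppF {H : Type*} [Group H] (W : Set (Subgroup H)) (x : H) : ℕ :=
  {M : Subgroup H | M ∈ W ∧ ¬ ∀ y ∈ M, x * y = y * x}.ncard

theorem usuppF_le {H : Type*} [Group H] [Finite H] (W : Set (Subgroup H))
    (hφ : ∀ (φ : H ≃* H), ∀ M ∈ W, M.map φ.toMonoidHom ∈ W) (φ : H ≃* H) (x : H) :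
    usuppF W x ≤ usuppF W (φ x) := by
  unfold usuppF
  rw [← Set.ncard_image_of_injective {M : Subgroup H | M ∈ W ∧ ¬ ∀ y ∈ M, x * y = y * x}
    (Subgroup.map_injective (f := φ.toMonoidHom) φ.injective)]
  refine Set.ncard_le_ncard ?_ (Set.toFinite _)
  rintro _ ⟨M, ⟨hM, hx⟩, rfl⟩
  refine ⟨hφ φ M hM, fun h => hx fun y hy => ?_⟩
  have h1 := h (φ y) ⟨y, hy, rfl⟩
  rw [← map_mul, ← map_mul] at h1
  exact φ.injective h1

theorem usuppF_eq {H : Type*} [Group H] [Finite H] (W : Set (Subgroup H))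
    (hφ : ∀ (φ : H ≃* H), ∀ M ∈ W, M.map φ.toMonoidHom ∈ W) (φ : H ≃* H) (x : H) :
    usuppF W (φ x) = usuppF W x := by
  refine le_antisymm ?_ (usuppF_le W hφ φ x)
  have := usuppF_le W hφ φ.symm (φ x)
  rwa [φ.symm_apply_apply] at this

theorem card_le_om {H : Type*} [Group H] [Finite H] (W : Set (Subgroup H))
    (hW : ∀ M ∈ W, IsMinNormal M) (hna : ∀ M ∈ W, ∃ x ∈ M, ∃ y ∈ M, x * y ≠ y * x)
    (hφ : ∀ (φ : H ≃* H), ∀ M ∈ W, M.map φ.toMonoidHom ∈ W) : W.ncard + 1 ≤ om H := by
  classical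
  have hfin : W.Finite := Set.toFinite _
  have h1 : ∀ j : Fin (W.ncard + 1), ∃ x : H, usuppF W x = j := by
    intro j
    have hj : (j : ℕ) ≤ hfin.toFinset.card := by
      rw [← Set.ncard_eq_toFinset_card W hfin]
      exact Nat.le_of_lt_succ j.2
    obtain ⟨S, hS, hSc⟩ := Finset.exists_subset_card_eq hj
    obtain ⟨x, hx⟩ := usupp_elem W hW hna S fun M hM => hfin.mem_toFinset.1 (hS hM)
    refine ⟨x, ?_⟩
    unfold usuppF
    have h2 : {M : Subgroup H | M ∈ W ∧ ¬ ∀ y ∈ M, x * y = y * x} = (S : Set (Subgroup H)) := by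
      ext M
      constructor
      · rintro ⟨hM, h⟩
        exact (hx M hM).1 h
      · intro h
        have hM : M ∈ W := hfin.mem_toFinset.1 (hS h)
        exact ⟨hM, (hx M hM).2 h⟩
    rw [h2, Set.ncard_coe_finset, hSc]
  choose x hx using h1
  unfold om
  have hq : Finite (MulAction.orbitRel.Quotient (MulAut H) H) := Quotient.finite _
  have h3 : Nat.card (Fin (W.ncard + 1)) ≤ Nat.card (MulAction.orbitRel.Quotient (MulAut H) H) := by
    refine Nat.card_le_card_of_injective (fun j => Quotient.mk'' (x j)) ?_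
    intro i j hij
    have h4 : (MulAction.orbitRel (MulAut H) H) (x i) (x j) := Quotient.exact' hij
    rw [MulAction.orbitRel_apply] at h4
    obtain ⟨φ, h5⟩ := h4
    have h6 : φ (x j) = x i := h5
    have h7 := usuppF_eq W hφ φ (x j)
    rw [h6, hx i, hx j] at h7
    exact Fin.ext h7
  rwa [Nat.card_eq_fintype_card, Fintype.card_fin] at h3

end SR32

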