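import Pool.Agent.SR32.YMin
import Pool.Agent.SR32.YPow
import Pool.Agent.SR32.DefsG
import Pool.Agent.SR32.ZFinal

/-!
# Few automorphism classes bound the order
-/

set_option autoImplicit false

namespace SR32

universe u

open Filter

/-- Few automorphism classes bound the order, for direct powers of simple groups that are
alternating, rich, or of order at most `t`. -/
theorem ybound_of_om (η : ℕ → ℕ) (Ω t : ℕ) : ∃ B : ℕ, ∀ (H : Type u) [Group H] [Finite H],
    (∀ M : Subgroup H, IsMinNormal M → ∃ x ∈ M, ∃ y ∈ M, x * y ≠ y * x) →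
    MinPowY η t H → om H ≤ Ω → Nat.card H ≤ B := by
  obtain ⟨B, hB⟩ := zbound_of_om'.{u} Ω (t + 2 ^ Ω)
  refine ⟨B, ?_⟩
  intro H _ _ hna hmin hom
  apply hB H hna _ hom
  intro M hM
  rcases hmin M hM with ⟨S, s, hS, hSt | hSr, ⟨e⟩⟩ | h
  · exact Or.inl ⟨S, s, hS, hSt.trans (Nat.le_add_right _ _), ⟨e⟩⟩
  · left
    refine ⟨S, s, hS, ?_, ⟨e⟩⟩
    have hs : 1 ≤ s := by
      rcases Nat.eq_zero_or_pos s with h0 | h0
      · exfalso
        subst h0
        apply hM.2.1
        rw [Subgroup.eq_bot_iff_forall]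
        intro x hx
        have : (⟨x, hx⟩ : M) = 1 := e.injective (Subsingleton.elim _ _)
        exact congrArg Subtype.val this
      · exact h0
    have h1 : om S ≤ om H := by
      calc om S = Nat.multichoose (om S) 1 := (Nat.multichoose_one_right _).symm
        _ ≤ Nat.multichoose (om S) s := exc_W_mono_right (om_pos S) hs
        _ ≤ om (Fin s → S) := om_powS_ge (rich_center hSr) s
        _ = om M := (om_congr e).symm
        _ ≤ om H := om_min_le M hM
    calc Nat.card S ≤ 2 ^ om S := rich_card hSr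
      _ ≤ 2 ^ Ω := Nat.pow_le_pow_right (by norm_num) (h1.trans hom)
      _ ≤ t + 2 ^ Ω := Nat.le_add_left _ _
  · exact Or.inr h

end SR32
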