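import Pool.Agent.SR32.XGood
import Pool.Agent.SR32.YBound
import Pool.Agent.SR32.DefsS

/-!
# The bound for the index of the soluble radical, tame and sparse factors
-/

set_option autoImplicit false

namespace SR32

universe u

open Filter

theorem soc_characteristic (H : Type u) [Group H] : (Soc H).Characteristic := by
  rw [Subgroup.characteristic_iff_map_le]
  intro ψ
  unfold Soc
  rw [sSup_eq_iSup, Subgroup.map_iSup]
  apply iSup_le
  intro M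
  rw [Subgroup.map_iSup]
  apply iSup_le
  intro hM
  have h1 : IsMinNormal (M.map ψ.toMonoidHom) := st_map_min ψ hM
  exact le_iSup_of_le (M.map ψ.toMonoidHom) (le_iSup_of_le h1 le_rfl)

/-- Sparse factors have few element orders compared to the automorphism classes of the group. -/
theorem sparse_lower (Λ : ℕ) (η : ℕ → ℕ) (hη : Tendsto η atTop atTop) : ∃ c : ℝ, 0 < c ∧
    ∀ (X : Type u) [Group X] [Finite X] (Q : Type u) [Group Q] [Finite Q],
      Sparse η (om (Soc X)) Q → c * (oo Q : ℝ) ^ Λ ≤ (om X : ℝ) := by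
  obtain ⟨K, hK⟩ := (tendsto_atTop_atTop.1 hη) Λ
  refine ⟨1 / ((K : ℝ) + 1) ^ Λ, by positivity, ?_⟩
  intro X _ _ Q _ _ hQ
  unfold Sparse at hQ
  have hchar : (Soc X).Characteristic := soc_characteristic X
  have hw : om (Soc X) ≤ om X := om_char_le (Soc X)
  set w := om (Soc X) with hwdef
  have hoo : 1 ≤ oo Q := oo_pos Q
  have hc1 : (1 : ℝ) / ((K : ℝ) + 1) ^ Λ ≤ 1 := by
    rw [div_le_one (by positivity)]
    exact one_le_pow₀ (by linarith [(Nat.cast_nonneg K : (0 : ℝ) ≤ (K : ℝ))])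
  rcases le_or_gt K w with h | h
  · have h1 : Λ ≤ η w + 1 := (hK w h).trans (Nat.le_succ _)
    have h2 : oo Q ^ Λ ≤ om X := ((Nat.pow_le_pow_right hoo h1).trans hQ).trans hw
    have h3 : (oo Q : ℝ) ^ Λ ≤ (om X : ℝ) := by exact_mod_cast h2
    calc 1 / ((K : ℝ) + 1) ^ Λ * (oo Q : ℝ) ^ Λ ≤ 1 * (oo Q : ℝ) ^ Λ :=
          mul_le_mul_of_nonneg_right hc1 (by positivity)
      _ = (oo Q : ℝ) ^ Λ := one_mul _
      _ ≤ (om X : ℝ) := h3
  · have h1 : oo Q ≤ K := by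
      calc oo Q ≤ oo Q ^ (η w + 1) := Nat.le_self_pow (Nat.succ_ne_zero _) _
        _ ≤ w := hQ
        _ ≤ K := h.le
    have h2 : (oo Q : ℝ) ≤ (K : ℝ) + 1 := by
      have : (oo Q : ℝ) ≤ (K : ℝ) := by exact_mod_cast h1
      linarith
    calc 1 / ((K : ℝ) + 1) ^ Λ * (oo Q : ℝ) ^ Λ
        ≤ 1 / ((K : ℝ) + 1) ^ Λ * ((K : ℝ) + 1) ^ Λ :=
          mul_le_mul_of_nonneg_left (pow_le_pow_left₀ (Nat.cast_nonneg _) h2 Λ) (by positivity)
      _ = 1 := by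
          rw [one_div, inv_mul_cancel₀]
          positivity
      _ ≤ (om X : ℝ) := by exact_mod_cast om_pos X

theorem st_main (η : ℕ → ℕ) (hη : Tendsto η atTop atTop) (t Λ : ℕ) : ∃ c : ℝ, 0 < c ∧
    ∀ (X : Type u) [Group X] [Finite X] (h : ℕ), SerS η t h X →
      c ^ h * (oo X : ℝ) ^ Λ ≤ (om X : ℝ) ^ h := by
  obtain ⟨c1, hc1, h1⟩ := tameX_lower.{u} t Λ η hη
  obtain ⟨c2, hc2, h2⟩ := sparse_lower.{u} Λ η hη
  refine ⟨min c1 c2, lt_min hc1 hc2, ?_⟩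
  intro X _ _ h hX
  obtain ⟨U, hU, h0, htop, hle, hgood⟩ := hX
  have hc : 0 < min c1 c2 := lt_min hc1 hc2
  have e1 : oo X ≤ ∏ i ∈ Finset.range h, oo (U (i + 1) ⧸ (U i).subgroupOf (U (i + 1))) := by
    refine le_trans ?_ (us_oo_series U hU h0 hle h)
    rw [htop, oo_congr (Subgroup.topEquiv (G := X))]
  have e2 : (oo X : ℝ) ^ Λ ≤
      ∏ i ∈ Finset.range h, (oo (U (i + 1) ⧸ (U i).subgroupOf (U (i + 1))) : ℝ) ^ Λ := by
    rw [Finset.prod_pow]
    apply pow_le_pow_left₀ (Nat.cast_nonneg _)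
    exact_mod_cast e1
  calc min c1 c2 ^ h * (oo X : ℝ) ^ Λ
      ≤ min c1 c2 ^ h *
          ∏ i ∈ Finset.range h, (oo (U (i + 1) ⧸ (U i).subgroupOf (U (i + 1))) : ℝ) ^ Λ :=
        mul_le_mul_of_nonneg_left e2 (by positivity)
    _ = ∏ i ∈ Finset.range h,
          (min c1 c2 * (oo (U (i + 1) ⧸ (U i).subgroupOf (U (i + 1))) : ℝ) ^ Λ) := by
        rw [Finset.prod_mul_distrib, Finset.prod_const, Finset.card_range]
    _ ≤ ∏ _i ∈ Finset.range h, (om X : ℝ) := by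
        apply Finset.prod_le_prod
        · intro i _
          positivity
        · intro i hi
          rcases hgood i (Finset.mem_range.1 hi) with hg | hg
          · refine (mul_le_mul_of_nonneg_right (min_le_left _ _) (by positivity)).trans
              ((h1 _ hg).trans ?_)
            exact_mod_cast us_sect_le (U i) (U (i + 1))
          · exact (mul_le_mul_of_nonneg_right (min_le_right _ _) (by positivity)).trans
              (h2 X _ hg)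
    _ = (om X : ℝ) ^ h := by rw [Finset.prod_const, Finset.card_range]

theorem minPowY_of_X {η : ℕ → ℕ} {t : ℕ} {H : Type u} [Group H] (h : MinPowX η t H) :
    MinPowY η t H := by
  intro M hM
  obtain ⟨S, s, ⟨hS, _, hk⟩, ⟨e⟩⟩ := h M hM
  rcases hk with hk | hk | ⟨d, hd, ⟨e'⟩⟩
  · exact Or.inl ⟨S, s, hS, Or.inl hk, ⟨e⟩⟩
  · exact Or.inl ⟨S, s, hS, Or.inr hk, ⟨e⟩⟩
  · exact Or.inr ⟨d, s, hd, ⟨e.trans (MulEquiv.piCongrRight (fun _ => e'))⟩⟩

theorem main_boundS (h t : ℕ) (η : ℕ → ℕ) (hη : Tendsto η atTop atTop) : ∃ B : ℕ → ℕ → ℕ,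
    ∀ (G : Type u) [Group G] [Finite G] [Nontrivial G],
    MinPowX η t (G ⧸ Rad G) → SerS η t h (G ⧸ Rad G) →
    ∀ L m : ℕ, ll G ≤ L → oo (Rad G) ≤ m → Nat.card (G ⧸ Rad G) ≤ B L m := by
  classical
  choose c hc0 hc using fun L => st_main.{u} η hη t L
  choose B hB using fun Ω => ybound_of_om.{u} η Ω t
  refine ⟨fun L m => B ((m * ⌈(m : ℝ) ^ (L * h) / c (L * h + 1) ^ h⌉₊) ^ L), ?_⟩
  intro G _ _ _ hmin hser L m hL hm
  have hna : ∀ M : Subgroup (G ⧸ Rad G), IsMinNormal M → ∃ x ∈ M, ∃ y ∈ M, x * y ≠ y * x :=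
    fun M hM => minNormal_nonab M hM
  apply hB _ (G ⧸ Rad G) hna (minPowY_of_X hmin)
  set H := G ⧸ Rad G with hH
  have h1 : om H ≤ (m * oo H) ^ L := by
    calc om H ≤ om G := om_quot_le _
      _ ≤ oo G ^ L := om_le_pow L hL
      _ ≤ (oo (G ⧸ Rad G) * oo (Rad G)) ^ L := Nat.pow_le_pow_left (oo_le_mul _) L
      _ ≤ (m * oo H) ^ L := by
        apply Nat.pow_le_pow_left
        rw [mul_comm m]
        exact Nat.mul_le_mul_left _ hm
  have h2 := hc (L * h + 1) H h hser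
  have hooH : (0 : ℝ) < (oo H : ℝ) := by exact_mod_cast oo_pos H
  have hcp : (0 : ℝ) < c (L * h + 1) ^ h := pow_pos (hc0 _) h
  have h3 : (om H : ℝ) ^ h ≤ ((m : ℝ) * oo H) ^ (L * h) := by
    rw [pow_mul]
    apply pow_le_pow_left₀ (Nat.cast_nonneg _)
    exact_mod_cast h1
  have h4 : c (L * h + 1) ^ h * (oo H : ℝ) ≤ (m : ℝ) ^ (L * h) := by
    have h5 : c (L * h + 1) ^ h * (oo H : ℝ) ^ (L * h + 1) ≤
        (m : ℝ) ^ (L * h) * (oo H : ℝ) ^ (L * h) := by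
      rw [← mul_pow]
      exact h2.trans h3
    rw [pow_succ, ← mul_assoc, mul_right_comm] at h5
    exact le_of_mul_le_mul_right h5 (pow_pos hooH _)
  have h5 : oo H ≤ ⌈(m : ℝ) ^ (L * h) / c (L * h + 1) ^ h⌉₊ := by
    have h6 : (oo H : ℝ) ≤ (m : ℝ) ^ (L * h) / c (L * h + 1) ^ h := by
      rw [le_div_iff₀ hcp, mul_comm]
      exact h4
    exact_mod_cast h6.trans (Nat.le_ceil _)
  exact h1.trans (Nat.pow_le_pow_left (Nat.mul_le_mul_left m h5) L)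

theorem finalS (h t : ℕ) (η : ℕ → ℕ) (hη : Tendsto η atTop atTop) : ∃ f : ℝ → ℝ → ℝ,
    (∀ x y, 1 ≤ x → 1 ≤ y → 1 ≤ f x y) ∧ (∀ y, StrictMono (fun x => f x y)) ∧
    (∀ x, StrictMono (fun y => f x y)) ∧
    ∀ (G : Type u) [Group G] [Finite G] [Nontrivial G],
      MinPowX η t (G ⧸ Rad G) → SerS η t h (G ⧸ Rad G) →
      ((Rad G).index : ℝ) ≤ f (ll G) (oo (Rad G)) := by
  obtain ⟨B, hB⟩ := main_boundS.{u} h t η hη
  obtain ⟨f, h1, h2, h3, h4⟩ := exists_mono B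
  refine ⟨f, h1, h2, h3, ?_⟩
  intro G _ _ _ hmin hser
  have h5 := hB G hmin hser ⌈ll G⌉₊ ⌈((oo (Rad G) : ℕ) : ℝ)⌉₊ (Nat.le_ceil _) (by
    rw [Nat.ceil_natCast])
  have h6 := h4 (ll G) (oo (Rad G)) (ll_nonneg G) (Nat.cast_nonneg _)
  have h7 : ((Rad G).index : ℝ) ≤ (B ⌈ll G⌉₊ ⌈((oo (Rad G) : ℕ) : ℝ)⌉₊ : ℝ) := by
    exact_mod_cast h5
  exact h7.trans h6

end SR32
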