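import Pool.Agent.SR32.EGood
import Pool.Agent.SR32.SFinal
import Pool.Agent.SR32.DefsES

/-!
# The bound for the index of the soluble radical, tame (exponent version) and sparse factors
-/

set_option autoImplicit false

namespace SR32

universe u

open Filter

theorem st_mainE (η : ℕ → ℕ) (hη : Tendsto η atTop atTop) (t Λ : ℕ) : ∃ c : ℝ, 0 < c ∧
    ∀ (X : Type u) [Group X] [Finite X] (h : ℕ), SerSE η t h X →
      c ^ h * (oo X : ℝ) ^ Λ ≤ (om X : ℝ) ^ h := by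
  obtain ⟨c1, hc1, h1⟩ := tameE_lower.{u} t Λ η hη
  obtain ⟨c2, hc2, h2⟩ := sparse_lower.{u} Λ η hη
  refine ⟨min c1 c2, lt_min hc1 hc2, ?_⟩
  intro X _ _ h hX
  obtain ⟨U, hU, h0, htop, hle, hgood⟩ := hX
  have hc : 0 < min c1 c2 := lt_min hc1 hc2
  have e1 : oo X ≤ ∏ i ∈ Finset.range h, oo (U (i + 1) ⧸ (U i).subgroupOf (U (i + 1))) := by
    refine le_trans ?_ (us_oo_series U hU h0 hle h)
    rw [htop, oo_congr (Subgroup.topEquiv (G := X))]
  have e2 : (oo X : ℝ) ^ Λ ≤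
      ∏ i ∈ Finset.range h, (oo (U (i + 1) ⧸ (U i).subgroupOf (U (i + 1))) : ℝ) ^ Λ := by
    rw [Finset.prod_pow]
    apply pow_le_pow_left₀ (Nat.cast_nonneg _)
    exact_mod_cast e1
  calc min c1 c2 ^ h * (oo X : ℝ) ^ Λ
      ≤ min c1 c2 ^ h *
          ∏ i ∈ Finset.range h, (oo (U (i + 1) ⧸ (U i).subgroupOf (U (i + 1))) : ℝ) ^ Λ :=
        mul_le_mul_of_nonneg_left e2 (by positivity)
    _ = ∏ i ∈ Finset.range h,
          (min c1 c2 * (oo (U (i + 1) ⧸ (U i).subgroupOf (U (i + 1))) : ℝ) ^ Λ) := by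
        rw [Finset.prod_mul_distrib, Finset.prod_const, Finset.card_range]
    _ ≤ ∏ _i ∈ Finset.range h, (om X : ℝ) := by
        apply Finset.prod_le_prod
        · intro i _
          positivity
        · intro i hi
          rcases hgood i (Finset.mem_range.1 hi) with hg | hg
          · refine (mul_le_mul_of_nonneg_right (min_le_left _ _) (by positivity)).trans
              ((h1 _ hg).trans ?_)
            exact_mod_cast us_sect_le (U i) (U (i + 1))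
          · exact (mul_le_mul_of_nonneg_right (min_le_right _ _) (by positivity)).trans
              (h2 X _ hg)
    _ = (om X : ℝ) ^ h := by rw [Finset.prod_const, Finset.card_range]

theorem main_boundE (h t : ℕ) (η : ℕ → ℕ) (hη : Tendsto η atTop atTop) : ∃ B : ℕ → ℕ → ℕ,
    ∀ (G : Type u) [Group G] [Finite G] [Nontrivial G],
    MinPowX η t (G ⧸ Rad G) → SerSE η t h (G ⧸ Rad G) →
    ∀ L m : ℕ, ll G ≤ L → oo (Rad G) ≤ m → Nat.card (G ⧸ Rad G) ≤ B L m := by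
  classical
  choose c hc0 hc using fun L => st_mainE.{u} η hη t L
  choose B hB using fun Ω => ybound_of_om.{u} η Ω t
  refine ⟨fun L m => B ((m * ⌈(m : ℝ) ^ (L * h) / c (L * h + 1) ^ h⌉₊) ^ L), ?_⟩
  intro G _ _ _ hmin hser L m hL hm
  have hna : ∀ M : Subgroup (G ⧸ Rad G), IsMinNormal M → ∃ x ∈ M, ∃ y ∈ M, x * y ≠ y * x :=
    fun M hM => minNormal_nonab M hM
  apply hB _ (G ⧸ Rad G) hna (minPowY_of_X hmin)
  set H := G ⧸ Rad G with hH
  have h1 : om H ≤ (m * oo H) ^ L := by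
    calc om H ≤ om G := om_quot_le _
      _ ≤ oo G ^ L := om_le_pow L hL
      _ ≤ (oo (G ⧸ Rad G) * oo (Rad G)) ^ L := Nat.pow_le_pow_left (oo_le_mul _) L
      _ ≤ (m * oo H) ^ L := by
        apply Nat.pow_le_pow_left
        rw [mul_comm m]
        exact Nat.mul_le_mul_left _ hm
  have h2 := hc (L * h + 1) H h hser
  have hooH : (0 : ℝ) < (oo H : ℝ) := by exact_mod_cast oo_pos H
  have hcp : (0 : ℝ) < c (L * h + 1) ^ h := pow_pos (hc0 _) h
  have h3 : (om H : ℝ) ^ h ≤ ((m : ℝ) * oo H) ^ (L * h) := by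
    rw [pow_mul]
    apply pow_le_pow_left₀ (Nat.cast_nonneg _)
    exact_mod_cast h1
  have h4 : c (L * h + 1) ^ h * (oo H : ℝ) ≤ (m : ℝ) ^ (L * h) := by
    have h5 : c (L * h + 1) ^ h * (oo H : ℝ) ^ (L * h + 1) ≤
        (m : ℝ) ^ (L * h) * (oo H : ℝ) ^ (L * h) := by
      rw [← mul_pow]
      exact h2.trans h3
    rw [pow_succ, ← mul_assoc, mul_right_comm] at h5
    exact le_of_mul_le_mul_right h5 (pow_pos hooH _)
  have h5 : oo H ≤ ⌈(m : ℝ) ^ (L * h) / c (L * h + 1) ^ h⌉₊ := by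
    have h6 : (oo H : ℝ) ≤ (m : ℝ) ^ (L * h) / c (L * h + 1) ^ h := by
      rw [le_div_iff₀ hcp, mul_comm]
      exact h4
    exact_mod_cast h6.trans (Nat.le_ceil _)
  exact h1.trans (Nat.pow_le_pow_left (Nat.mul_le_mul_left m h5) L)

theorem finalE (h t : ℕ) (η : ℕ → ℕ) (hη : Tendsto η atTop atTop) : ∃ f : ℝ → ℝ → ℝ,
    (∀ x y, 1 ≤ x → 1 ≤ y → 1 ≤ f x y) ∧ (∀ y, StrictMono (fun x => f x y)) ∧
    (∀ x, StrictMono (fun y => f x y)) ∧
    ∀ (G : Type u) [Group G] [Finite G] [Nontrivial G],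
      MinPowX η t (G ⧸ Rad G) → SerSE η t h (G ⧸ Rad G) →
      ((Rad G).index : ℝ) ≤ f (ll G) (oo (Rad G)) := by
  obtain ⟨B, hB⟩ := main_boundE.{u} h t η hη
  obtain ⟨f, h1, h2, h3, h4⟩ := exists_mono B
  refine ⟨f, h1, h2, h3, ?_⟩
  intro G _ _ _ hmin hser
  have h5 := hB G hmin hser ⌈ll G⌉₊ ⌈((oo (Rad G) : ℕ) : ℝ)⌉₊ (Nat.le_ceil _) (by
    rw [Nat.ceil_natCast])
  have h6 := h4 (ll G) (oo (Rad G)) (ll_nonneg G) (Nat.cast_nonneg _)
  have h7 : ((Rad G).index : ℝ) ≤ (B ⌈ll G⌉₊ ⌈((oo (Rad G) : ℕ) : ℝ)⌉₊ : ℝ) := by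
    exact_mod_cast h5
  exact h7.trans h6

end SR32
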