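import Pool.Agent.SR32.DefsV
import Pool.Agent.SR32.Quot

/-!
# SR32/VLowerS90: the lower bound for the number of automorphism orbits, all isomorphism types together

`lowerV_of`: `lowerV` from the other modules (their statements are hypotheses).
-/

set_option autoImplicit false

namespace SR32.VLowerS90

open SR32 Finset

universe u

/-- If only finitely many values of `r` on `X` are smaller than one, the products over finite subsets of `X` are
bounded below. -/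
theorem prod_ge {T : Type*} (r : T → ℝ) (X : Set T) (hpos : ∀ t ∈ X, 0 < r t)
    (hfin : {t | t ∈ X ∧ r t < 1}.Finite) :
    ∃ c : ℝ, 0 < c ∧ ∀ F : Finset T, (∀ t ∈ F, t ∈ X) → c ≤ ∏ t ∈ F, r t := by
  classical
  obtain ⟨S, hS⟩ : ∃ S : Finset T, S = hfin.toFinset := ⟨_, rfl⟩
  have hSm : ∀ t, t ∈ S ↔ t ∈ X ∧ r t < 1 := by
    intro t; rw [hS, Set.Finite.mem_toFinset]; rfl
  refine ⟨∏ t ∈ S, r t, prod_pos fun t ht => hpos t ((hSm t).1 ht).1, fun F hF => ?_⟩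
  rw [← prod_filter_mul_prod_filter_not F (fun s => r s < 1)]
  have h2 : F.filter (fun s => r s < 1) ⊆ S := by
    intro s hs
    rw [mem_filter] at hs
    exact (hSm s).2 ⟨hF s hs.1, hs.2⟩
  have h3 : 1 ≤ ∏ s ∈ F.filter (fun s => ¬ r s < 1), r s := by
    have h31 := prod_le_prod (s := F.filter (fun s => ¬ r s < 1))
      (f := fun _ => (1 : ℝ)) (g := r) (fun _ _ => zero_le_one)
      (fun s hs => not_lt.1 (mem_filter.1 hs).2)
    rwa [prod_const_one] at h31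
  have h6 : 0 ≤ ∏ s ∈ F.filter (fun s => r s < 1), r s :=
    prod_nonneg fun s hs => (hpos s ((hSm s).1 (h2 hs)).1).le
  have h4 : ∏ s ∈ S, r s ≤ ∏ s ∈ F.filter (fun s => r s < 1), r s := by
    rw [← prod_sdiff h2]
    have h5 : ∏ s ∈ S \ F.filter (fun s => r s < 1), r s ≤ 1 :=
      prod_le_one (fun s hs => (hpos s ((hSm s).1 (mem_sdiff.1 hs).1).1).le)
        (fun s hs => ((hSm s).1 (mem_sdiff.1 hs).1).2.le)
    exact mul_le_of_le_one_left h6 h5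
  calc ∏ s ∈ S, r s ≤ (∏ s ∈ F.filter (fun s => r s < 1), r s) * 1 := by
        rw [mul_one]; exact h4
    _ ≤ _ := mul_le_mul_of_nonneg_left h3 h6

theorem QQ_pos (b k : ℕ) : 1 ≤ (QQ b k).card := by
  apply Finset.card_pos.2
  refine ⟨∅, ?_⟩
  rw [mem_QQ]
  simp

theorem nonab_alt (d : ℕ) (h5 : 5 ≤ d) : ∃ x y : A d, x * y ≠ y * x := by
  by_contra hcon
  push Not at hcon
  have h1 : Subgroup.center (A d) = ⊥ := alternatingGroup.center_eq_bot (by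
    rw [Nat.card_eq_fintype_card, Fintype.card_fin]; omega)
  have h2 : Subgroup.center (A d) = ⊤ := by
    rw [eq_top_iff]
    intro x _
    exact Subgroup.mem_center_iff.2 fun y => hcon y x
  haveI : IsSimpleGroup (A d) := alternatingGroup.isSimpleGroup (by
    rw [Nat.card_eq_fintype_card, Fintype.card_fin]; exact h5)
  rw [h1] at h2
  exact bot_ne_top h2

theorem lowerV_of
    (hpos : ∀ (L : ℕ) (p : ℕ × ℕ × ℕ), 5 ≤ p.1 → 0 < rv L p)
    (hfin : ∀ (L t : ℕ) (C : ℝ), {p : ℕ × ℕ × ℕ | 5 ≤ p.1 ∧ 1 ≤ p.2.1 ∧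
      p.2.1 ≤ t * om (A p.1) ^ 2 ∧ 1 ≤ p.2.2 ∧ rv L p < C}.Finite)
    (hpow : ∀ (d s : ℕ), 5 ≤ d → Nat.multichoose (om (A d)) s ≤ om (Fin s → A d))
    (hiso : ∀ {d s d' s' : ℕ}, 5 ≤ d → 5 ≤ d' → 1 ≤ s → 1 ≤ s' →
      ((Fin s → A d) ≃* (Fin s' → A d')) → d = d' ∧ s = s')
    (htypes : ∀ {H : Type u} [Group H] [Finite H] (a : ℕ) (M : Fin a → Subgroup H),
      Function.Injective M → (∀ j, IsMinNormal (M j)) →
      (∀ j, ∃ x ∈ M j, ∃ y ∈ M j, x * y ≠ y * x) →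
      (∀ (φ : H ≃* H) (j : Fin a), ∃ k, (M j).map φ.toMonoidHom = M k) →
      ∀ {T : Type} [DecidableEq T] (c : Fin a → T), (∀ i j, Nonempty (M i ≃* M j) ↔ c i = c j) →
      ∀ (m : T → ℕ), (∀ j, m (c j) ≤ om (M j)) →
      ∏ p ∈ Finset.univ.image c,
        Nat.multichoose (m p) (Finset.univ.filter (fun j => c j = p)).card ≤ om H)
    (hperm : ∀ {a : ℕ} (s d : Fin a → ℕ), oo (∀ j, Equiv.Perm (Fin (s j))) ≤
      ∏ p ∈ Finset.univ.image (fun j => (d j, s j)),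
        (QQ p.2 (p.2 * (Finset.univ.filter (fun j => (d j, s j) = p)).card)).card)
    (halt : ∀ {a : ℕ} (s d : Fin a → ℕ), oo (∀ j, Fin (s j) → A (d j)) ≤
      ∏ p ∈ Finset.univ.image (fun j => (d j, s j)),
        oo (Fin (p.2 * (Finset.univ.filter (fun j => (d j, s j) = p)).card) → A p.1))
    (L t : ℕ) : ∃ c : ℝ, 0 < c ∧ ∀ (H : Type u) [Group H] [Finite H] (a : ℕ)
    (M : Fin a → Subgroup H) (d s : Fin a → ℕ),
    Function.Injective M → (∀ j, IsMinNormal (M j)) →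
    (∀ (φ : H ≃* H) (j : Fin a), ∃ k, (M j).map φ.toMonoidHom = M k) →
    (∀ j, 5 ≤ d j) → (∀ j, s j ≤ t * om (A (d j)) ^ 2) →
    (∀ j, Nonempty (M j ≃* (Fin (s j) → A (d j)))) →
    c * ((oo (∀ j, Fin (s j) → A (d j)) : ℝ) * (oo (∀ j, Equiv.Perm (Fin (s j))) : ℝ)) ^ L ≤
      (om H : ℝ) := by
  obtain ⟨c, hc0, hc⟩ := prod_ge (rv L) {p : ℕ × ℕ × ℕ | 5 ≤ p.1 ∧ 1 ≤ p.2.1 ∧
    p.2.1 ≤ t * om (A p.1) ^ 2 ∧ 1 ≤ p.2.2} (fun p hp => hpos L p hp.1)
    ((hfin L t 1).subset (fun p hp => ⟨hp.1.1, hp.1.2.1, hp.1.2.2.1, hp.1.2.2.2, hp.2⟩))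
  refine ⟨c, hc0, fun H _ _ a M d s hMi hM haut h5 hs hiM => ?_⟩
  have hs1 : ∀ j, 1 ≤ s j := by
    intro j
    by_contra h0
    have h0' : s j = 0 := by omega
    obtain ⟨e⟩ := hiM j
    apply (hM j).2.1
    rw [eq_bot_iff]
    intro x hx
    haveI : Subsingleton (Fin (s j) → A (d j)) := by
      rw [h0']
      infer_instance
    have h1 := e.injective (Subsingleton.elim (e ⟨x, hx⟩) (e 1))
    exact Subgroup.mem_bot.2 (congrArg Subtype.val h1)
  have hna : ∀ j, ∃ x ∈ M j, ∃ y ∈ M j, x * y ≠ y * x := by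
    intro j
    obtain ⟨e⟩ := hiM j
    obtain ⟨x, y, hxy⟩ := nonab_alt (d j) (h5 j)
    refine ⟨(e.symm (fun _ => x)).1, (e.symm _).2, (e.symm (fun _ => y)).1, (e.symm _).2,
      fun h => hxy ?_⟩
    have h1 : e.symm (fun _ => x) * e.symm (fun _ => y) =
        e.symm (fun _ => y) * e.symm (fun _ => x) := Subtype.ext h
    rw [← map_mul, ← map_mul] at h1
    exact congrFun (e.symm.injective h1) ⟨0, hs1 j⟩
  have hcc : ∀ i j, Nonempty (M i ≃* M j) ↔ (d i, s i) = (d j, s j) := by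
    intro i j
    obtain ⟨ei⟩ := hiM i
    obtain ⟨ej⟩ := hiM j
    constructor
    · rintro ⟨f⟩
      obtain ⟨h1, h2⟩ := hiso (h5 i) (h5 j) (hs1 i) (hs1 j) ((ei.symm.trans f).trans ej)
      rw [h1, h2]
    · intro h
      have h1 : d i = d j := congrArg Prod.fst h
      have h2 : s i = s j := congrArg Prod.snd h
      rw [h1, h2] at ei
      exact ⟨ei.trans ej.symm⟩
  have key := htypes a M hMi hM hna haut (fun j => (d j, s j)) hcc
    (fun p => Nat.multichoose (om (A p.1)) p.2) (fun j => by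
      obtain ⟨e⟩ := hiM j
      rw [om_congr e]
      exact hpow (d j) (s j) (h5 j))
  have k1 := halt s d
  have k2 := hperm s d
  obtain ⟨P, hP⟩ : ∃ P : Finset (ℕ × ℕ), P = Finset.univ.image (fun j => (d j, s j)) := ⟨_, rfl⟩
  obtain ⟨k, hk⟩ : ∃ k : ℕ × ℕ → ℕ, k = fun p =>
    (Finset.univ.filter (fun j => (d j, s j) = p)).card := ⟨_, rfl⟩
  have hkp : ∀ p, (Finset.univ.filter (fun j => (d j, s j) = p)).card = k p := fun p => by rw [hk]
  simp only [hkp] at key k1 k2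
  rw [← hP] at key k1 k2
  have hinj : Set.InjOn (fun p : ℕ × ℕ => (p.1, p.2, k p)) (P : Set (ℕ × ℕ)) := by
    intro p _ q _ hpq
    have h1 : p.1 = q.1 := congrArg (fun t : ℕ × ℕ × ℕ => t.1) hpq
    have h2 : p.2 = q.2 := congrArg (fun t : ℕ × ℕ × ℕ => t.2.1) hpq
    exact Prod.ext h1 h2
  have hcP : c ≤ ∏ p ∈ P, rv L (p.1, p.2, k p) := by
    have h := hc (P.image (fun p => (p.1, p.2, k p))) (by
      intro q hq
      rw [mem_image] at hq
      obtain ⟨p, hp, rfl⟩ := hq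
      rw [hP, mem_image] at hp
      obtain ⟨j, -, rfl⟩ := hp
      refine ⟨h5 j, hs1 j, hs j, ?_⟩
      show 1 ≤ k (d j, s j)
      rw [hk]
      exact card_pos.2 ⟨j, mem_filter.2 ⟨mem_univ _, rfl⟩⟩)
    rwa [prod_image hinj] at h
  -- the denominators
  obtain ⟨B, hB⟩ : ∃ B : ℕ × ℕ → ℝ, B = fun p =>
    (oo (Fin (p.2 * k p) → A p.1) : ℝ) * ((QQ p.2 (p.2 * k p)).card : ℝ) := ⟨_, rfl⟩
  have hB0 : ∀ p, 0 < B p := by
    intro p
    rw [hB]
    have h1 : (0 : ℝ) < (oo (Fin (p.2 * k p) → A p.1) : ℝ) := by exact_mod_cast oo_pos _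
    have h2 : (0 : ℝ) < ((QQ p.2 (p.2 * k p)).card : ℝ) := by exact_mod_cast QQ_pos _ _
    exact mul_pos h1 h2
  have hle : (oo (∀ j, Fin (s j) → A (d j)) : ℝ) * (oo (∀ j, Equiv.Perm (Fin (s j))) : ℝ) ≤
      ∏ p ∈ P, B p := by
    have e : ∏ p ∈ P, B p = (∏ p ∈ P, (oo (Fin (p.2 * k p) → A p.1) : ℝ)) *
        ∏ p ∈ P, ((QQ p.2 (p.2 * k p)).card : ℝ) := by
      rw [hB, prod_mul_distrib]
    rw [e]
    have h1 : (oo (∀ j, Fin (s j) → A (d j)) : ℝ) ≤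
        ∏ p ∈ P, (oo (Fin (p.2 * k p) → A p.1) : ℝ) := by
      rw [hk]
      exact_mod_cast k1
    have h2 : (oo (∀ j, Equiv.Perm (Fin (s j))) : ℝ) ≤
        ∏ p ∈ P, ((QQ p.2 (p.2 * k p)).card : ℝ) := by exact_mod_cast k2
    exact mul_le_mul h1 h2 (Nat.cast_nonneg _) (prod_nonneg fun p _ => Nat.cast_nonneg _)
  have hrv : (∏ p ∈ P, rv L (p.1, p.2, k p)) * (∏ p ∈ P, B p) ^ L =
      ∏ p ∈ P, (Nat.multichoose (Nat.multichoose (om (A p.1)) p.2) (k p) : ℝ) := by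
    rw [← prod_pow, ← prod_mul_distrib]
    refine prod_congr rfl fun p _ => ?_
    have h1 : rv L (p.1, p.2, k p) =
        (Nat.multichoose (Nat.multichoose (om (A p.1)) p.2) (k p) : ℝ) / (B p) ^ L := by
      rw [hB]
      rfl
    rw [h1, div_mul_cancel₀ _ (pow_pos (hB0 p) L).ne']
  calc c * ((oo (∀ j, Fin (s j) → A (d j)) : ℝ) * (oo (∀ j, Equiv.Perm (Fin (s j))) : ℝ)) ^ L
      ≤ c * (∏ p ∈ P, B p) ^ L := by
        refine mul_le_mul_of_nonneg_left (pow_le_pow_left₀ (by positivity) hle L) hc0.le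
    _ ≤ (∏ p ∈ P, rv L (p.1, p.2, k p)) * (∏ p ∈ P, B p) ^ L :=
        mul_le_mul_of_nonneg_right hcP (pow_nonneg (prod_nonneg fun p _ => (hB0 p).le) L)
    _ = ∏ p ∈ P, (Nat.multichoose (Nat.multichoose (om (A p.1)) p.2) (k p) : ℝ) := hrv
    _ ≤ (om H : ℝ) := by exact_mod_cast key

end SR32.VLowerS90
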