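import Pool.Agent.SR32.DefsW
import Pool.Agent.SR32.QOrd

/-!
# Orders of the elements of a group of permutations of the simple factors, grouped by types
-/

set_option autoImplicit false

namespace SR32

theorem wo_le_DD {P : Type*} [Group P] [Finite P] (t s : ℕ) (h : Nat.card P ≤ s ^ t) :
    oo P ≤ DD t s := by
  unfold oo DD
  have h1 : (Set.range fun g : P => orderOf g).ncard ≤ (Nat.card P).divisors.card := by
    rw [← Set.ncard_coe_finset]
    refine Set.ncard_le_ncard ?_ (Finset.finite_toSet _)
    rintro _ ⟨g, rfl⟩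
    rw [Finset.mem_coe, Nat.mem_divisors]
    exact ⟨orderOf_dvd_natCard g, Nat.card_pos.ne'⟩
  exact h1.trans (Finset.le_sup (f := fun n => n.divisors.card)
    (Finset.mem_Icc.2 ⟨Nat.card_pos, h⟩))

theorem wo_QQ_le (b k : ℕ) : (QQ b k).card ≤ 2 ^ (PP b).card := by
  classical
  rw [← Finset.card_powerset]
  apply Finset.card_le_card
  intro S hS
  rw [mem_QQ] at hS
  rw [Finset.mem_powerset]
  intro q hq
  rw [mem_PP]
  exact ⟨hS.2.2 q hq, (hS.1 q hq).2⟩

/-- a subgroup of a product, grouped -/
theorem wo_grouped {a : ℕ} {T : Type} [DecidableEq T] (c : Fin a → T) (G : Fin a → Type)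
    [∀ j, Group (G j)] [∀ j, Finite (G j)] (I : Subgroup (∀ j, G j))
    (r : ∀ p : T, (∀ j, G j) →* (∀ j : {j : Fin a // c j = p}, G j))
    (hr : ∀ p x j, r p x j = x j) :
    oo I ≤ ∏ p ∈ Finset.univ.image c, oo (I.map (r p)) := by
  classical
  let f : I →* (∀ p : {p : T // p ∈ Finset.univ.image c}, I.map (r p)) :=
    MonoidHom.mk' (fun x p => ⟨r p x, Subgroup.mem_map_of_mem (r p) x.2⟩) (by
      intro x y
      funext p
      apply Subtype.ext
      show r p ((x : ∀ j, G j) * y) = r p x * r p y
      rw [map_mul])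
  have hf : Function.Injective f := by
    intro x y h
    apply Subtype.ext
    funext j
    have h1 := congrArg Subtype.val (congrFun h ⟨c j, Finset.mem_image_of_mem c (Finset.mem_univ j)⟩)
    have h2 : r (c j) (x : ∀ j, G j) ⟨j, rfl⟩ = r (c j) (y : ∀ j, G j) ⟨j, rfl⟩ := congrFun h1 _
    rw [hr, hr] at h2
    exact h2
  have h1 : oo I ≤ ∏ p : {p : T // p ∈ Finset.univ.image c}, oo (I.map (r p)) :=
    (oo_le_of_injective f hf).trans
      (oo_pi_le (fun p : {p : T // p ∈ Finset.univ.image c} => I.map (r p)))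
  rw [Finset.prod_coe_sort (Finset.univ.image c) (fun p => oo (I.map (r p)))] at h1
  exact h1

/-- a subgroup of a product against its projections -/
theorem wo_proj {J : Type} [Fintype J] (G : J → Type) [∀ j, Group (G j)] [∀ j, Finite (G j)]
    (K : Subgroup (∀ j, G j)) (D : ℕ)
    (hD : ∀ j, oo (K.map (Pi.evalMonoidHom G j)) ≤ D) : oo K ≤ D ^ Fintype.card J := by
  classical
  let f : K →* (∀ j, K.map (Pi.evalMonoidHom G j)) :=
    MonoidHom.mk' (fun x j => ⟨(x : ∀ j, G j) j, Subgroup.mem_map_of_mem (Pi.evalMonoidHom G j) x.2⟩)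
      (by
      intro x y
      funext j
      apply Subtype.ext
      rfl)
  have hf : Function.Injective f := by
    intro x y h
    apply Subtype.ext
    funext j
    exact congrArg Subtype.val (congrFun h j)
  refine (oo_le_of_injective f hf).trans
    ((oo_pi_le (fun j => K.map (Pi.evalMonoidHom G j))).trans ?_)
  calc ∏ j, oo (K.map (Pi.evalMonoidHom G j)) ≤ ∏ _j : J, D :=
        Finset.prod_le_prod (fun _ _ => Nat.zero_le _) fun j _ => hD j
    _ = D ^ Fintype.card J := by rw [Finset.prod_const, Finset.card_univ]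

theorem oo_image_grouped {a : ℕ} (s d : Fin a → ℕ) (t : ℕ)
    (I : Subgroup (∀ j, Equiv.Perm (Fin (s j))))
    (hI : ∀ j, ¬ s j ≤ t * om (A (d j)) ^ 2 →
      Nat.card (I.map (Pi.evalMonoidHom (fun j => Equiv.Perm (Fin (s j))) j)) ≤ s j ^ t) :
    oo I ≤ ∏ p ∈ Finset.univ.image (fun j => (d j, s j)),
      if p.2 ≤ t * om (A p.1) ^ 2 then
        (QQ p.2 (p.2 * (Finset.univ.filter (fun j => (d j, s j) = p)).card)).card
      else min (DD t p.2 ^ (Finset.univ.filter (fun j => (d j, s j) = p)).card)
        (2 ^ (PP p.2).card) := by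
  classical
  let r : ∀ p : ℕ × ℕ, (∀ j, Equiv.Perm (Fin (s j))) →*
      (∀ j : {j : Fin a // (d j, s j) = p}, Equiv.Perm (Fin (s j))) := fun p =>
    { toFun := fun x j => x j
      map_one' := rfl
      map_mul' := fun _ _ => rfl }
  refine (wo_grouped (fun j => (d j, s j)) (fun j => Equiv.Perm (Fin (s j))) I r
    (fun _ _ _ => rfl)).trans ?_
  refine Finset.prod_le_prod (fun _ _ => Nat.zero_le _) fun p _ => ?_
  have hs : ∀ j : {j : Fin a // (d j, s j) = p}, s j = p.2 := fun j => congrArg Prod.snd j.2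
  have hd : ∀ j : {j : Fin a // (d j, s j) = p}, d j = p.1 := fun j => congrArg Prod.fst j.2
  have hc : Fintype.card {j : Fin a // (d j, s j) = p} =
      (Finset.univ.filter (fun j => (d j, s j) = p)).card := by
    rw [Fintype.card_subtype]
  have h2 := card_orders_pi_perm (fun j : {j : Fin a // (d j, s j) = p} => s j) p.2
    (fun j => (hs j).le)
  have h3 : ∑ j : {j : Fin a // (d j, s j) = p}, s j =
      p.2 * (Finset.univ.filter (fun j => (d j, s j) = p)).card := by
    rw [Finset.sum_congr rfl (fun j _ => hs j), Finset.sum_const, Finset.card_univ, hc,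
      smul_eq_mul, mul_comm]
  rw [h3] at h2
  have h4 : oo (I.map (r p)) ≤
      (QQ p.2 (p.2 * (Finset.univ.filter (fun j => (d j, s j) = p)).card)).card :=
    (oo_subgroup_le _).trans h2
  split_ifs with h
  · exact h4
  · apply le_min
    · rw [← hc]
      apply wo_proj (fun j : {j : Fin a // (d j, s j) = p} => Equiv.Perm (Fin (s j)))
      intro j
      have h5 : (I.map (r p)).map (Pi.evalMonoidHom
          (fun j : {j : Fin a // (d j, s j) = p} => Equiv.Perm (Fin (s j))) j) =
          I.map (Pi.evalMonoidHom (fun j => Equiv.Perm (Fin (s j))) (j : Fin a)) := by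
        rw [Subgroup.map_map]
        rfl
      rw [h5]
      have h6 := wo_le_DD t (s j) (hI j (by rw [hs j, hd j]; exact h))
      have h7 : DD t (s j) = DD t p.2 := congrArg (DD t) (hs j)
      exact h6.trans h7.le
    · exact h4.trans (wo_QQ_le _ _)

end SR32
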