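import Pool.Agent.SR32.VExcCore
import Pool.Agent.SR32.Density
import Pool.Agent.SR32.Part

/-!
# SR32/VExc: finitely many exceptional triples
-/

namespace SR32

theorem rv_pos (L : ℕ) (p : ℕ × ℕ × ℕ) (h1 : 5 ≤ p.1) : 0 < rv L p := by
  obtain ⟨d, s, a⟩ := p
  exact rv_pos' L h1

theorem finite_excV (L t : ℕ) (C : ℝ) :
    {p : ℕ × ℕ × ℕ | 5 ≤ p.1 ∧ 1 ≤ p.2.1 ∧ p.2.1 ≤ t * om (A p.1) ^ 2 ∧ 1 ≤ p.2.2 ∧
      rv L p < C}.Finite :=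
  finite_excV_of pp_density part_bound L t C

end SR32
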