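import Pool.Agent.SR32.DefsV
import Pool.Agent.SR32.QOrd

/-!
# Element orders of products, grouped by isomorphism type
-/

namespace SR32

theorem vo_grouped {a : ℕ} {T : Type} [DecidableEq T] (c : Fin a → T) (G : Fin a → Type)
    [∀ j, Group (G j)] [∀ j, Finite (G j)] :
    oo (∀ j, G j) ≤ ∏ p ∈ Finset.univ.image c, oo (∀ j : {j : Fin a // c j = p}, G j) := by
  classical
  let K : T → Type := fun p => ∀ j : {j : Fin a // c j = p}, G j
  let f : (∀ j, G j) →* (∀ p : {p : T // p ∈ Finset.univ.image c}, K p) :=
    { toFun := fun x p j => x j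
      map_one' := rfl
      map_mul' := fun _ _ => rfl }
  have hf : Function.Injective f := by
    intro x y h
    funext j
    exact congrFun (congrFun h ⟨c j, Finset.mem_image_of_mem c (Finset.mem_univ j)⟩) ⟨j, rfl⟩
  have h1 : oo (∀ j, G j) ≤ ∏ p : {p : T // p ∈ Finset.univ.image c}, oo (K p) :=
    (oo_le_of_injective f hf).trans
      (oo_pi_le (fun p : {p : T // p ∈ Finset.univ.image c} => K p))
  rw [Finset.prod_coe_sort (Finset.univ.image c) (fun p => oo (K p))] at h1
  exact h1

theorem oo_perm_grouped {a : ℕ} (s d : Fin a → ℕ) :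
    oo (∀ j, Equiv.Perm (Fin (s j))) ≤
      ∏ p ∈ Finset.univ.image (fun j => (d j, s j)),
        (QQ p.2 (p.2 * (Finset.univ.filter (fun j => (d j, s j) = p)).card)).card := by
  classical
  refine (vo_grouped (fun j => (d j, s j)) (fun j => Equiv.Perm (Fin (s j)))).trans ?_
  refine Finset.prod_le_prod (fun _ _ => Nat.zero_le _) fun p _ => ?_
  have hs : ∀ j : {j : Fin a // (d j, s j) = p}, s j = p.2 := fun j => congrArg Prod.snd j.2
  have h2 := card_orders_pi_perm (fun j : {j : Fin a // (d j, s j) = p} => s j) p.2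
    (fun j => (hs j).le)
  have h3 : ∑ j : {j : Fin a // (d j, s j) = p}, s j =
      p.2 * (Finset.univ.filter (fun j => (d j, s j) = p)).card := by
    rw [Finset.sum_congr rfl (fun j _ => hs j), Finset.sum_const, Finset.card_univ,
      Fintype.card_subtype, smul_eq_mul, mul_comm]
  rw [h3] at h2
  exact h2

theorem vo_const {J : Type} [Fintype J] (s d : J → ℕ) (S D n : ℕ) (hs : ∀ j, s j = S)
    (hd : ∀ j, d j = D) (hn : S * Fintype.card J = n) :
    oo (∀ j, Fin (s j) → A (d j)) ≤ oo (Fin n → A D) := by
  classical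
  obtain rfl : s = fun _ => S := funext hs
  obtain rfl : d = fun _ => D := funext hd
  have e : J × Fin S ≃ Fin n := Fintype.equivFinOfCardEq (by
    rw [Fintype.card_prod, Fintype.card_fin, mul_comm, hn])
  let f : (J → Fin S → A D) →* (Fin n → A D) :=
    { toFun := fun x i => x (e.symm i).1 (e.symm i).2
      map_one' := rfl
      map_mul' := fun _ _ => rfl }
  have hf : Function.Injective f := by
    intro x y h
    funext j i
    have h1 := congrFun h (e (j, i))
    have h2 : x (e.symm (e (j, i))).1 (e.symm (e (j, i))).2 =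
        y (e.symm (e (j, i))).1 (e.symm (e (j, i))).2 := h1
    rw [Equiv.symm_apply_apply] at h2
    exact h2
  exact oo_le_of_injective f hf

theorem oo_alt_grouped {a : ℕ} (s d : Fin a → ℕ) :
    oo (∀ j, Fin (s j) → A (d j)) ≤
      ∏ p ∈ Finset.univ.image (fun j => (d j, s j)),
        oo (Fin (p.2 * (Finset.univ.filter (fun j => (d j, s j) = p)).card) → A p.1) := by
  classical
  refine (vo_grouped (fun j => (d j, s j)) (fun j => Fin (s j) → A (d j))).trans ?_
  refine Finset.prod_le_prod (fun _ _ => Nat.zero_le _) fun p _ => ?_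
  have hs : ∀ j : {j : Fin a // (d j, s j) = p}, s j = p.2 := fun j => congrArg Prod.snd j.2
  have hd : ∀ j : {j : Fin a // (d j, s j) = p}, d j = p.1 := fun j => congrArg Prod.fst j.2
  exact vo_const (fun j : {j : Fin a // (d j, s j) = p} => s j)
    (fun j : {j : Fin a // (d j, s j) = p} => d j) p.2 p.1 _ hs hd (by
      rw [Fintype.card_subtype])

end SR32
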