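import Pool.Agent.SR32.DefsV
import Pool.Agent.SR32.Perm
import Pool.Agent.SR32.Multi

/-!
# SR32/VPow: powers of alternating groups, number of orbits and isomorphism types
-/

set_option autoImplicit false

namespace SR32

open MulAction

theorem vpow_simple {d : ℕ} (h5 : 5 ≤ d) : IsSimpleGroup (A d) :=
  alternatingGroup.isSimpleGroup (by
    rw [Nat.card_eq_fintype_card, Fintype.card_fin]; exact h5)

theorem vpow_center {d : ℕ} (h5 : 5 ≤ d) : Subgroup.center (A d) = ⊥ :=
  alternatingGroup.center_eq_bot (by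
    rw [Nat.card_eq_fintype_card, Fintype.card_fin]; omega)

/-- the multiset of the classes of the coordinates -/
def vpowM (d s : ℕ) (x : Fin s → A d) : Multiset (Cl d) :=
  (Finset.univ : Finset (Fin s)).val.map fun i => (Quotient.mk'' (x i) : Cl d)

theorem vpowM_inv {d : ℕ} (h5 : 5 ≤ d) (s : ℕ) (φ : MulAut (Fin s → A d)) (x : Fin s → A d) :
    vpowM d s (φ x) = vpowM d s x := by
  have hs := vpow_simple h5
  obtain ⟨σ, ψ, hψ⟩ := aut_pi (fun _ : Fin s => A d) (fun _ => vpow_center h5) φ
  unfold vpowM
  have h1 : ((Finset.univ : Finset (Fin s)).val.map σ) = Finset.univ.val := by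
    have := Finset.map_univ_equiv σ
    have h2 := congrArg Finset.val this
    rw [Finset.map_val] at h2
    exact h2
  conv_lhs => rw [← h1]
  rw [Multiset.map_map]
  refine Multiset.map_congr rfl fun i _ => ?_
  rw [Function.comp_apply, hψ x i]
  refine Quotient.sound' ?_
  rw [MulAction.orbitRel_apply]
  exact ⟨ψ i, rfl⟩

theorem om_pow_ge (d s : ℕ) (h5 : 5 ≤ d) : Nat.multichoose (om (A d)) s ≤ om (Fin s → A d) := by
  classical
  have hfin : Finite (Cl d) := Quotient.finite _
  obtain ⟨ft⟩ : Nonempty (Fintype (Cl d)) := ⟨Fintype.ofFinite _⟩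
  have h1 : Nat.multichoose (om (A d)) s = Nat.card (Sym (Cl d) s) := by
    rw [Nat.card_eq_fintype_card, Sym.card_sym_eq_multichoose]
    unfold om
    rw [← Nat.card_eq_fintype_card]
  rw [h1]
  unfold om
  have h2 : ∀ f : Sym (Cl d) s, ∃ v : Fin s → Cl d,
      (Finset.univ : Finset (Fin s)).val.map v = f.1 := fun f => multi_vec f.1 s f.2
  choose v hv using h2
  have hfq : Finite (orbitRel.Quotient (MulAut (Fin s → A d)) (Fin s → A d)) :=
    Quotient.finite _
  refine Nat.card_le_card_of_injective
    (fun f => Quotient.mk'' (fun i => Quotient.out (v f i))) ?_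
  intro f g hfg
  have h3 : (orbitRel (MulAut (Fin s → A d)) (Fin s → A d)) (fun i => Quotient.out (v f i))
      (fun i => Quotient.out (v g i)) := Quotient.exact' hfg
  rw [MulAction.orbitRel_apply] at h3
  obtain ⟨φ, hφ⟩ := h3
  have h4 : vpowM d s (fun i => Quotient.out (v f i)) =
      vpowM d s (fun i => Quotient.out (v g i)) := by
    rw [← hφ]
    exact vpowM_inv h5 s φ _
  have h5' : ∀ f : Sym (Cl d) s, vpowM d s (fun i => Quotient.out (v f i)) = f.1 := by
    intro f
    rw [← hv f]
    unfold vpowM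
    refine Multiset.map_congr rfl fun i _ => ?_
    exact Quotient.out_eq' (v f i)
  rw [h5' f, h5' g] at h4
  exact Subtype.ext h4

/-- the family of the two products -/
abbrev vpowS (d d' s s' : ℕ) (i : Fin s ⊕ Fin s') : Type :=
  A (Sum.elim (fun _ => d) (fun _ => d') i)

/-- the exchange of the two products -/
def vpowE {d s d' s' : ℕ} (e : (Fin s → A d) ≃* (Fin s' → A d')) :
    (∀ i, vpowS d d' s s' i) ≃* (∀ i, vpowS d d' s s' i) where
  toFun x := fun i => match i with
    | Sum.inl a => e.symm (fun b => x (Sum.inr b)) a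
    | Sum.inr b => e (fun a => x (Sum.inl a)) b
  invFun x := fun i => match i with
    | Sum.inl a => e.symm (fun b => x (Sum.inr b)) a
    | Sum.inr b => e (fun a => x (Sum.inl a)) b
  left_inv x := by
    funext i
    rcases i with a | b
    · show e.symm (fun b => e (fun a => x (Sum.inl a)) b) a = x (Sum.inl a)
      have : e.symm (e (fun a => x (Sum.inl a))) = fun a => x (Sum.inl a) :=
        e.symm_apply_apply _
      exact congrFun this a
    · show e (fun a => e.symm (fun b => x (Sum.inr b)) a) b = x (Sum.inr b)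
      have : e (e.symm (fun b => x (Sum.inr b))) = fun b => x (Sum.inr b) :=
        e.apply_symm_apply _
      exact congrFun this b
  right_inv x := by
    funext i
    rcases i with a | b
    · show e.symm (fun b => e (fun a => x (Sum.inl a)) b) a = x (Sum.inl a)
      have : e.symm (e (fun a => x (Sum.inl a))) = fun a => x (Sum.inl a) :=
        e.symm_apply_apply _
      exact congrFun this a
    · show e (fun a => e.symm (fun b => x (Sum.inr b)) a) b = x (Sum.inr b)
      have : e (e.symm (fun b => x (Sum.inr b))) = fun b => x (Sum.inr b) :=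
        e.apply_symm_apply _
      exact congrFun this b
  map_mul' x y := by
    funext i
    rcases i with a | b
    · exact congrFun (map_mul e.symm (fun b : Fin s' => (x (Sum.inr b) : A d'))
        (fun b : Fin s' => (y (Sum.inr b) : A d'))) a
    · exact congrFun (map_mul e (fun a : Fin s => (x (Sum.inl a) : A d))
        (fun a : Fin s => (y (Sum.inl a) : A d))) b

/-- `g` in all factors of the first product -/
def vpowX {d s d' s' : ℕ} (g : A d) (i : Fin s ⊕ Fin s') : vpowS d d' s s' i :=
  match i with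
  | Sum.inl _ => g
  | Sum.inr _ => (1 : A d')

theorem pow_iso_eq {d s d' s' : ℕ} (h5 : 5 ≤ d) (h5' : 5 ≤ d') (hs : 1 ≤ s) (hs' : 1 ≤ s')
    (e : (Fin s → A d) ≃* (Fin s' → A d')) : d = d' ∧ s = s' := by
  classical
  have hdeg : ∀ i : Fin s ⊕ Fin s', 5 ≤ Sum.elim (fun _ => d) (fun _ => d') i := by
    rintro (a | b)
    · exact h5
    · exact h5'
  have hsim : ∀ i, IsSimpleGroup (vpowS d d' s s' i) := fun i => vpow_simple (hdeg i)
  obtain ⟨σ, ψ, hψ⟩ := aut_pi (vpowS d d' s s') (fun i => vpow_center (hdeg i)) (vpowE e)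
  have hdd : d = d' := by
    have hn : Nontrivial (A d) := (vpow_simple h5).toNontrivial
    obtain ⟨g, hg⟩ := exists_ne (1 : A d)
    rcases hσ : σ (Sum.inl ⟨0, hs⟩) with j | j
    · exfalso
      have h1 := hψ (vpowX g) (Sum.inl ⟨0, hs⟩)
      have h2 : vpowE e (vpowX g) (σ (Sum.inl ⟨0, hs⟩)) = 1 := by
        rw [hσ]
        exact congrFun (map_one e.symm) j
      rw [h2] at h1
      have h3 := (map_eq_one_iff _ (ψ (Sum.inl ⟨0, hs⟩)).injective).1 h1.symm
      exact hg h3
    · have ψ0 := ψ (Sum.inl ⟨0, hs⟩)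
      rw [hσ] at ψ0
      exact multi_deg h5 h5' ψ0
  refine ⟨hdd, ?_⟩
  subst hdd
  have h1 : Nat.card (Fin s → A d) = Nat.card (Fin s' → A d) := Nat.card_congr e.toEquiv
  rw [Nat.card_fun, Nat.card_fun, Nat.card_eq_fintype_card (α := Fin s),
    Nat.card_eq_fintype_card (α := Fin s'), Fintype.card_fin, Fintype.card_fin] at h1
  have hn : Nontrivial (A d) := (vpow_simple h5).toNontrivial
  have h2 : 1 < Nat.card (A d) := Finite.one_lt_card
  exact Nat.pow_right_injective h2 h1

end SR32

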