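import Pool.Agent.SR32.DefsW
import Pool.Agent.Pal.Divisor

/-!
# The largest number of divisors of a number up to `s ^ t`
-/

namespace SR32

theorem DD_bound (t : ℕ) (δ : ℝ) (hδ : 0 < δ) :
    ∃ C : ℝ, 0 < C ∧ ∀ s : ℕ, 1 ≤ s → (DD t s : ℝ) ≤ C * (s : ℝ) ^ δ := by
  obtain ⟨C, hC, h⟩ := Pool.Agent.Pal.card_divisors_le_rpow (η := δ / ((t : ℝ) + 1)) (by positivity)
  refine ⟨C, by linarith, fun s hs => ?_⟩
  have hs1 : (1 : ℝ) ≤ (s : ℝ) := by exact_mod_cast hs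
  have hne : (Finset.Icc 1 (s ^ t)).Nonempty :=
    ⟨1, Finset.mem_Icc.2 ⟨le_rfl, Nat.one_le_pow _ _ hs⟩⟩
  obtain ⟨n, hn, hn2⟩ := Finset.exists_mem_eq_sup (Finset.Icc 1 (s ^ t)) hne
    (fun n => n.divisors.card)
  obtain ⟨hn3, hn4⟩ := Finset.mem_Icc.1 hn
  have h1 : DD t s = n.divisors.card := hn2
  rw [h1]
  refine (h n hn3).trans (mul_le_mul_of_nonneg_left ?_ (by linarith))
  have hn5 : (n : ℝ) ≤ (s : ℝ) ^ (t : ℝ) := by
    rw [Real.rpow_natCast]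
    exact_mod_cast hn4
  calc (n : ℝ) ^ (δ / ((t : ℝ) + 1)) ≤ ((s : ℝ) ^ (t : ℝ)) ^ (δ / ((t : ℝ) + 1)) :=
        Real.rpow_le_rpow (by positivity) hn5 (by positivity)
    _ = (s : ℝ) ^ ((t : ℝ) * (δ / ((t : ℝ) + 1))) := by
        rw [← Real.rpow_mul (by positivity)]
    _ ≤ (s : ℝ) ^ δ := by
        apply Real.rpow_le_rpow_of_exponent_le hs1
        rw [mul_div_assoc', div_le_iff₀ (by positivity)]
        nlinarith [Nat.cast_nonneg (α := ℝ) t]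

theorem oo_le_DD {P : Type*} [Group P] [Finite P] (t s : ℕ) (h : Nat.card P ≤ s ^ t) :
    oo P ≤ DD t s := by
  have h0 : 1 ≤ Nat.card P := Nat.card_pos
  have h1 : oo P ≤ (Nat.card P).divisors.card := by
    unfold oo
    rw [← Set.ncard_coe_finset]
    refine Set.ncard_le_ncard ?_ (Finset.finite_toSet _)
    rintro _ ⟨g, rfl⟩
    rw [Finset.mem_coe, Nat.mem_divisors]
    exact ⟨orderOf_dvd_natCard g, by omega⟩
  refine h1.trans ?_
  unfold DD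
  exact Finset.le_sup (f := fun n : ℕ => n.divisors.card) (Finset.mem_Icc.2 ⟨h0, h⟩)

end SR32
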