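import Pool.Agent.SR32.WExcS3
import Pool.Agent.SR32.WDiv

/-!
# Claim X for the permutation factors

`rx_pos` is in `SR32/WExcS3`.
-/

namespace SR32

theorem finite_excX (L t : ℕ) (C : ℝ) :
    {p : ℕ × ℕ × ℕ | 5 ≤ p.1 ∧ 1 ≤ p.2.1 ∧ 1 ≤ p.2.2 ∧ rx L t p < C}.Finite :=
  wexc_finite L t C (DD_bound t)

end SR32
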