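import Pool.Agent.SR32.ZOrbS97

/-!
# SR32/ZOrb: orbits on colourings
-/

set_option autoImplicit false

namespace SR32

universe u

theorem vorb_ge {H : Type u} [Group H] [Finite H] (M : Subgroup H) (hM : IsMinNormal M)
    {d s : ℕ} (h5 : 5 ≤ d) (e : M ≃* (Fin s → A d)) : om (A d) ^ s ≤ autFac M * vorb M :=
  S97.vorb_ge M hM h5 e

theorem autFac_map {H : Type u} [Group H] [Finite H] (φ : H ≃* H) (M : Subgroup H) :
    autFac (M.map φ.toMonoidHom) ≤ autFac M :=
  S97.autFac_map φ M

end SR32
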