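import Pool.Agent.SR32.DefsU

/-!
# SR32/UCenter: centres of minimal normal subgroups

A nonabelian minimal normal subgroup has trivial centre (the centre is normal in the whole group). If no minimal
normal subgroup is abelian, an element that commutes with all of them is trivial: these elements form a normal
subgroup, which would contain an abelian minimal normal subgroup.
-/

set_option autoImplicit false

namespace SR32

theorem center_of_minNormal {H : Type*} [Group H] (M : Subgroup H) (hM : IsMinNormal M)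
    (hne : ∃ x ∈ M, ∃ y ∈ M, x * y ≠ y * x) : ∀ z ∈ M, (∀ y ∈ M, z * y = y * z) → z = 1 := by
  intro z hz hc
  haveI := hM.1
  have hn : (M ⊓ Subgroup.centralizer (M : Set H)).Normal := inferInstance
  rcases hM.2.2 _ hn inf_le_left with h | h
  · have h1 : z ∈ M ⊓ Subgroup.centralizer (M : Set H) :=
      Subgroup.mem_inf.2 ⟨hz, Subgroup.mem_centralizer_iff.2 fun y hy => (hc y hy).symm⟩
    rw [h, Subgroup.mem_bot] at h1
    exact h1
  · exfalso
    obtain ⟨x, hx, y, hy, hxy⟩ := hne
    have h1 : x ∈ M ⊓ Subgroup.centralizer (M : Set H) := by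
      rw [h]
      exact hx
    exact hxy (Subgroup.mem_centralizer_iff.1 (Subgroup.mem_inf.1 h1).2 y hy).symm

/-- A nontrivial normal subgroup of a finite group contains a minimal normal subgroup. -/
theorem exists_minNormal_le {H : Type*} [Group H] [Finite H] (C : Subgroup H) (hC : C.Normal)
    (hne : C ≠ ⊥) : ∃ M ≤ C, IsMinNormal M := by
  obtain ⟨M, ⟨hMn, hMb, hMC⟩, hmin⟩ := (wellFounded_lt (α := Subgroup H)).has_min
    {M : Subgroup H | M.Normal ∧ M ≠ ⊥ ∧ M ≤ C} ⟨C, hC, hne, le_rfl⟩
  refine ⟨M, hMC, hMn, hMb, fun M' hM' hle => ?_⟩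
  by_cases h : M' = ⊥
  · exact Or.inl h
  · right
    by_contra hne'
    exact hmin M' ⟨hM', h, hle.trans hMC⟩ (lt_of_le_of_ne hle hne')

theorem eq_one_of_centralize {H : Type*} [Group H] [Finite H]
    (hna : ∀ M : Subgroup H, IsMinNormal M → ∃ x ∈ M, ∃ y ∈ M, x * y ≠ y * x) (z : H)
    (hz : ∀ M : Subgroup H, IsMinNormal M → ∀ y ∈ M, z * y = y * z) : z = 1 := by
  by_contra hz1
  let C : Subgroup H :=
    { carrier := {z | ∀ M : Subgroup H, IsMinNormal M → ∀ y ∈ M, z * y = y * z}
      one_mem' := fun M _ y _ => by rw [one_mul, mul_one]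
      mul_mem' := fun {a b} ha hb M hM y hy => by
        rw [mul_assoc, hb M hM y hy, ← mul_assoc, ha M hM y hy, mul_assoc]
      inv_mem' := fun {a} ha M hM y hy => by
        have h := ha M hM y hy
        calc a⁻¹ * y = a⁻¹ * (y * a) * a⁻¹ := by group
          _ = a⁻¹ * (a * y) * a⁻¹ := by rw [h]
          _ = y * a⁻¹ := by group }
  have hCn : C.Normal := by
    refine ⟨fun a ha g M hM y hy => ?_⟩
    have h1 : g⁻¹ * y * g ∈ M := by
      have h2 := hM.1.conj_mem y hy g⁻¹
      rwa [inv_inv] at h2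
    have h3 := ha M hM _ h1
    calc g * a * g⁻¹ * y = g * (a * (g⁻¹ * y * g)) * g⁻¹ := by group
      _ = g * (g⁻¹ * y * g * a) * g⁻¹ := by rw [h3]
      _ = y * (g * a * g⁻¹) := by group
  have hCne : C ≠ ⊥ := by
    intro h
    have h1 : z ∈ C := hz
    rw [h, Subgroup.mem_bot] at h1
    exact hz1 h1
  obtain ⟨M, hMC, hM⟩ := exists_minNormal_le C hCn hCne
  obtain ⟨x, hx, y, hy, hxy⟩ := hna M hM
  exact hxy (hMC hx M hM y hy)

end SR32
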