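import Pool.Agent.SR32.DefsV
import Pool.Agent.SR32.UCenter
import Pool.Agent.SR32.Perm

/-!
# Orbits against multisets of classes, for minimal normal subgroups grouped by isomorphism type
-/

set_option autoImplicit false

namespace SR32

universe u

open Finset

/-- The images of `x` under the isomorphisms onto members of the family. -/
def vcls {H : Type u} [Group H] {a : ℕ} (M : Fin a → Subgroup H) (j : Fin a) (x : M j) : Set H :=
  {y | ∃ (k : Fin a) (ψ : M j ≃* M k), y = (ψ x : H)}

theorem vcls_congr {H : Type u} [Group H] {a : ℕ} (M : Fin a → Subgroup H) {i j : Fin a}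
    (ψ : M i ≃* M j) (x : M i) : vcls M j (ψ x) = vcls M i x := by
  ext y
  constructor
  · rintro ⟨k, χ, rfl⟩
    exact ⟨k, ψ.trans χ, rfl⟩
  · rintro ⟨k, χ, rfl⟩
    exact ⟨k, ψ.symm.trans χ, by rw [MulEquiv.trans_apply, MulEquiv.symm_apply_apply]⟩

theorem vtypes_disj {H : Type u} [Group H] {a : ℕ} {M : Fin a → Subgroup H}
    (hinj : Function.Injective M) (hM : ∀ j, IsMinNormal (M j)) {i j : Fin a} (hij : i ≠ j) :
    M i ⊓ M j = ⊥ := by
  have hn : (M i ⊓ M j).Normal := by
    have := (hM i).1
    have := (hM j).1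
    infer_instance
  rcases (hM i).2.2 _ hn inf_le_left with h | h
  · exact h
  · rcases (hM j).2.2 (M i) (hM i).1 (by rw [← h]; exact inf_le_right) with h' | h'
    · exact absurd h' (hM i).2.1
    · exact absurd (hinj h') hij

theorem vcls_eq {H : Type u} [Group H] {a : ℕ} {M : Fin a → Subgroup H}
    (hinj : Function.Injective M) (hM : ∀ j, IsMinNormal (M j)) {j : Fin a} {x y : M j}
    (h : vcls M j x = vcls M j y) : ∃ ψ : MulAut (M j), ψ x = y := by
  have hy : (y : H) ∈ vcls M j x := by
    rw [h]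
    exact ⟨j, MulEquiv.refl _, rfl⟩
  obtain ⟨k, ψ, hψ⟩ := hy
  by_cases hy1 : y = 1
  · have h1 : ψ x = 1 := by
      apply Subtype.ext
      rw [← hψ, hy1]
      rfl
    rw [MulEquiv.map_eq_one_iff] at h1
    exact ⟨1, by rw [h1, hy1]; rfl⟩
  · have hk : k = j := by
      by_contra hne
      have h1 : (y : H) ∈ M k ⊓ M j := Subgroup.mem_inf.2 ⟨by rw [hψ]; exact (ψ x).2, y.2⟩
      rw [vtypes_disj hinj hM hne, Subgroup.mem_bot] at h1
      exact hy1 (Subtype.ext h1)
    subst hk
    exact ⟨ψ, (Subtype.ext hψ).symm⟩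

theorem vtypes_vec {α β : Type*} [DecidableEq β] [Nonempty α] (S : Finset β) :
    ∀ s : Multiset α, Multiset.card s = #S → ∃ w : β → α, S.val.map w = s := by
  induction S using Finset.induction_on with
  | empty =>
    intro s hs
    rw [card_empty, Multiset.card_eq_zero] at hs
    exact ⟨fun _ => Classical.arbitrary α, by rw [hs]; rfl⟩
  | insert i S hi ih =>
    intro s hs
    rw [card_insert_of_notMem hi] at hs
    obtain ⟨x, s', rfl⟩ : ∃ (x : α) (s' : Multiset α), s = x ::ₘ s' := by
      obtain ⟨x, hx⟩ := Multiset.card_pos_iff_exists_mem.1 (show 0 < Multiset.card s by omega)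
      exact ⟨x, _, (Multiset.exists_cons_of_mem hx).choose_spec⟩
    rw [Multiset.card_cons] at hs
    obtain ⟨w, hw⟩ := ih s' (by omega)
    refine ⟨Function.update w i x, ?_⟩
    rw [insert_val_of_notMem hi, Multiset.map_cons, Function.update_self, ← hw]
    congr 1
    refine Multiset.map_congr rfl fun j hj => ?_
    rw [Function.update_of_ne]
    rintro rfl
    exact hi hj

theorem om_types_ge {H : Type u} [Group H] [Finite H] (a : ℕ) (M : Fin a → Subgroup H)
    (hinj : Function.Injective M) (hM : ∀ j, IsMinNormal (M j))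
    (hna : ∀ j, ∃ x ∈ M j, ∃ y ∈ M j, x * y ≠ y * x)
    (haut : ∀ (φ : H ≃* H) (j : Fin a), ∃ k, (M j).map φ.toMonoidHom = M k)
    {T : Type} [DecidableEq T] (c : Fin a → T) (hc : ∀ i j, Nonempty (M i ≃* M j) ↔ c i = c j)
    (m : T → ℕ) (hm : ∀ j, m (c j) ≤ om (M j)) :
    ∏ p ∈ Finset.univ.image c,
      Nat.multichoose (m p) (Finset.univ.filter (fun j => c j = p)).card ≤ om H := by
  classical
  have hcomm : Pairwise fun i j : Fin a => ∀ x y : H, x ∈ M i → y ∈ M j → Commute x y := by
    intro i j hij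
    apply Subgroup.commute_of_normal_of_disjoint _ _ (hM i).1 (hM j).1
    rw [disjoint_iff]
    exact vtypes_disj hinj hM hij
  obtain ⟨F, hF⟩ : ∃ F : (∀ j, M j) →* H, ∀ (j : Fin a) (y : M j),
      F (Pi.mulSingle j y) = (y : H) :=
    ⟨Subgroup.noncommPiCoprod hcomm, fun j y => Subgroup.noncommPiCoprod_mulSingle j y⟩
  have hFinj : Function.Injective F := by
    rw [injective_iff_map_eq_one]
    intro x hx
    funext j
    apply Subtype.ext
    refine center_of_minNormal (M j) (hM j) (hna j) _ (x j).2 fun y hy => ?_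
    have h1 : F (x * Pi.mulSingle j ⟨y, hy⟩ * x⁻¹) = y := by
      rw [map_mul, map_mul, map_inv, hx, hF]
      group
    rw [perm_conj_single, hF] at h1
    have h2 : ((x j : M j) : H) * y * ((x j : M j) : H)⁻¹ = y := h1
    calc ((x j : M j) : H) * y = ((x j : M j) : H) * y * ((x j : M j) : H)⁻¹ * x j := by group
      _ = y * x j := by rw [h2]
  -- the action of an automorphism on the coordinates
  have hact : ∀ φ : H ≃* H, ∃ (σ : Equiv.Perm (Fin a)) (ψ : ∀ j, M j ≃* M (σ j)),
      ∀ x y : ∀ j, M j, φ (F x) = F y → ∀ j, y (σ j) = ψ j (x j) := by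
    intro φ
    choose σ hσ using haut φ
    have hσi : Function.Injective σ := by
      intro i j hij
      apply hinj
      have h1 := (hσ i).trans ((congrArg M hij).trans (hσ j).symm)
      exact Subgroup.map_injective φ.injective h1
    let σ' : Equiv.Perm (Fin a) := Equiv.ofBijective σ (Finite.injective_iff_bijective.1 hσi)
    let ψ : ∀ j, M j ≃* M (σ' j) := fun j =>
      (φ.subgroupMap (M j)).trans (MulEquiv.subgroupCongr (hσ j))
    have hψ : ∀ j (x : M j), ((ψ j x : M (σ' j)) : H) = φ x := fun j x => rfl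
    refine ⟨σ', ψ, fun x y hxy => ?_⟩
    -- the homomorphism `x ↦ F y` with `y (σ j) = ψ j (x j)`
    let Y : (∀ j, M j) →* (∀ j, M j) :=
      { toFun := fun x j => (MulEquiv.subgroupCongr (congrArg M (σ'.apply_symm_apply j)))
          (ψ (σ'.symm j) (x (σ'.symm j)))
        map_one' := by
          funext j
          rw [Pi.one_apply, map_one, map_one, Pi.one_apply]
        map_mul' := by
          intro x y
          funext j
          rw [Pi.mul_apply, map_mul, map_mul, Pi.mul_apply] }
    have hY : ∀ (x : ∀ j, M j) (j : Fin a), (((Y x) (σ' j) : M (σ' j)) : H) = φ (x j) := by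
      intro x j
      show ((ψ (σ'.symm (σ' j)) (x (σ'.symm (σ' j))) : M (σ' (σ'.symm (σ' j)))) : H) = φ (x j)
      rw [hψ, σ'.symm_apply_apply]
    have hFY : φ.toMonoidHom.comp F = F.comp Y := by
      apply MonoidHom.pi_ext
      intro i x
      show φ (F (Pi.mulSingle i x)) = F (Y (Pi.mulSingle i x))
      have h1 : Y (Pi.mulSingle i x) = Pi.mulSingle (σ' i) (ψ i x) := by
        funext k
        obtain ⟨j, rfl⟩ := σ'.surjective k
        apply Subtype.ext
        rw [hY]
        rcases eq_or_ne j i with rfl | hne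
        · rw [Pi.mulSingle_eq_same, Pi.mulSingle_eq_same, hψ]
        · rw [Pi.mulSingle_eq_of_ne hne, Pi.mulSingle_eq_of_ne (fun h => hne (σ'.injective h))]
          rw [Subgroup.coe_one, Subgroup.coe_one, map_one]
      rw [h1, hF, hF, hψ]
    have h2 : F (Y x) = F y := by
      rw [← hxy]
      exact (DFunLike.congr_fun hFY x).symm
    have h3 := hFinj h2
    intro j
    apply Subtype.ext
    rw [← h3, hY, hψ]
  -- the classes
  have hcard : ∀ j, om (M j) ≤ (Set.range (vcls M j)).ncard := by
    intro j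
    unfold om
    rw [← Nat.card_coe_set_eq]
    refine Nat.card_le_card_of_injective
      (fun q : MulAction.orbitRel.Quotient (MulAut (M j)) (M j) =>
        (⟨vcls M j (Quotient.out q), ⟨_, rfl⟩⟩ : Set.range (vcls M j))) ?_
    intro p q hpq
    obtain ⟨ψ, hψ⟩ := vcls_eq hinj hM (congrArg Subtype.val hpq)
    rw [← Quotient.out_eq p, ← Quotient.out_eq q]
    refine (Quotient.sound ?_).symm
    show MulAction.orbitRel (MulAut (M j)) (M j) _ _
    rw [MulAction.orbitRel_apply]
    exact ⟨ψ, hψ⟩
  have hE : ∀ p : T, ∃ E : Finset (Set H), (p ∈ univ.image c → #E = m p) ∧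
      ∀ j, c j = p → ∀ w ∈ E, ∃ x : M j, vcls M j x = w := by
    intro p
    by_cases hp : p ∈ univ.image c
    · obtain ⟨j0, -, hj0⟩ := mem_image.1 hp
      have hfr : (Set.range (vcls M j0)).Finite := Set.toFinite _
      have h1 : m p ≤ hfr.toFinset.card := by
        rw [← Set.ncard_eq_toFinset_card _ hfr, ← hj0]
        exact (hm j0).trans (hcard j0)
      obtain ⟨E, hE1, hE2⟩ := Finset.exists_subset_card_eq h1
      refine ⟨E, fun _ => hE2, fun j hj w hw => ?_⟩
      have h2 := hE1 hw
      rw [Set.Finite.mem_toFinset] at h2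
      obtain ⟨x, rfl⟩ := h2
      obtain ⟨ψ⟩ := (hc j0 j).2 (hj0.trans hj.symm)
      exact ⟨ψ x, vcls_congr M ψ x⟩
    · exact ⟨∅, fun h => absurd h hp, fun j _ w hw => absurd hw (notMem_empty w)⟩
  choose E hEc hEx using hE
  have h1 : ∏ p ∈ univ.image c, Nat.multichoose (m p) #{j | c j = p} =
      Nat.card (∀ p : univ.image c, Sym (E p) #{j | c j = (p : T)}) := by
    rw [Nat.card_pi, ← Finset.prod_coe_sort]
    refine prod_congr rfl fun p _ => ?_
    rw [Nat.card_eq_fintype_card, Sym.card_sym_eq_multichoose, Fintype.card_coe, hEc p p.2]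
  rw [h1]
  have h2 : ∀ f : (∀ p : univ.image c, Sym (E p) #{j | c j = (p : T)}), ∃ x : ∀ j, M j,
      ∀ p : univ.image c, (univ.filter (fun j => c j = (p : T))).val.map
        (fun j => vcls M j (x j)) = (f p).1.map Subtype.val := by
    intro f
    have h3 : ∀ p : univ.image c, ∃ w : Fin a → Set H,
        (univ.filter (fun j => c j = (p : T))).val.map w = (f p).1.map Subtype.val := by
      intro p
      refine vtypes_vec _ _ ?_
      rw [Multiset.card_map]
      exact (f p).2
    choose w hw using h3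
    have hcj : ∀ j, c j ∈ univ.image c := fun j => mem_image_of_mem _ (mem_univ j)
    have h4 : ∀ j, ∃ x : M j, vcls M j x = w ⟨c j, hcj j⟩ j := by
      intro j
      apply hEx (c j) j rfl
      have h5 : w ⟨c j, hcj j⟩ j ∈ (univ.filter (fun i => c i = c j)).val.map
          (w ⟨c j, hcj j⟩) := Multiset.mem_map_of_mem _ (by
            rw [mem_val, mem_filter]
            exact ⟨mem_univ _, rfl⟩)
      rw [hw ⟨c j, hcj j⟩] at h5
      obtain ⟨b, -, hb⟩ := Multiset.mem_map.1 h5
      rw [← hb]
      exact b.2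
    choose x hx using h4
    refine ⟨x, fun p => ?_⟩
    rw [← hw p]
    refine Multiset.map_congr rfl fun j hj => ?_
    rw [mem_val, mem_filter] at hj
    rw [hx j]
    have h6 : (⟨c j, hcj j⟩ : univ.image c) = p := Subtype.ext hj.2
    rw [h6]
  choose x hx using h2
  unfold om
  have hfq : Finite (MulAction.orbitRel.Quotient (MulAut H) H) := Quotient.finite _
  refine Nat.card_le_card_of_injective (fun f => Quotient.mk'' (F (x f))) ?_
  intro f g hfg
  have h3 : (MulAction.orbitRel (MulAut H) H) (F (x f)) (F (x g)) := Quotient.exact' hfg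
  rw [MulAction.orbitRel_apply] at h3
  obtain ⟨φ, hφ⟩ := h3
  obtain ⟨σ, ψ, hψ⟩ := hact φ
  have h4 : ∀ j, x f (σ j) = ψ j (x g j) := hψ (x g) (x f) hφ
  have hcσ : ∀ j, c (σ j) = c j := fun j => ((hc j (σ j)).1 ⟨ψ j⟩).symm
  funext p
  apply Subtype.ext
  apply Multiset.map_injective Subtype.val_injective
  rw [← hx f p, ← hx g p]
  have h5 : (univ.filter (fun j => c j = (p : T))).val.map σ =
      (univ.filter (fun j => c j = (p : T))).val := by
    have h6 : (univ.filter (fun j => c j = (p : T))).map σ.toEmbedding =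
        univ.filter (fun j => c j = (p : T)) := by
      ext k
      rw [mem_map_equiv, mem_filter, mem_filter]
      have h7 := hcσ (σ.symm k)
      rw [Equiv.apply_symm_apply] at h7
      rw [h7]
      simp
    have h8 := congrArg Finset.val h6
    rw [Finset.map_val] at h8
    exact h8
  conv_lhs => rw [← h5]
  rw [Multiset.map_map]
  refine Multiset.map_congr rfl fun j _ => ?_
  rw [Function.comp_apply, h4 j]
  exact vcls_congr M (ψ j) (x g j)

end SR32
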