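import Pool.Agent.SR32.DefsZ
import Pool.Agent.SR32.VTypes

/-!
# Orbits against multisets of classes under the automorphisms of the whole group
-/

set_option autoImplicit false

namespace SR32

universe u

open Finset

/-- The orbit under the automorphism group. -/
def zorb {H : Type u} [Group H] (x : H) : MulAction.orbitRel.Quotient (MulAut H) H :=
  Quotient.mk'' x

theorem zorb_eq {H : Type u} [Group H] {x y : H} :
    zorb x = zorb y ↔ ∃ φ : MulAut H, φ y = x := by
  constructor
  · intro h
    have h3 : (MulAction.orbitRel (MulAut H) H) x y := Quotient.exact' h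
    rw [MulAction.orbitRel_apply] at h3
    obtain ⟨φ, hφ⟩ := h3
    exact ⟨φ, hφ⟩
  · rintro ⟨φ, hφ⟩
    apply Quotient.sound'
    rw [MulAction.orbitRel_apply]
    exact ⟨φ, hφ⟩

/-- The direct product of the minimal normal subgroups. -/
theorem zt_hom {H : Type u} [Group H] {a : ℕ} {M : Fin a → Subgroup H}
    (hinj : Function.Injective M) (hM : ∀ j, IsMinNormal (M j))
    (hna : ∀ j, ∃ x ∈ M j, ∃ y ∈ M j, x * y ≠ y * x)
    (haut : ∀ (φ : H ≃* H) (j : Fin a), ∃ k, (M j).map φ.toMonoidHom = M k) :
    ∃ F : (∀ j, M j) →* H, Function.Injective F ∧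
      ∀ φ : H ≃* H, ∃ σ : Equiv.Perm (Fin a), (∀ j, (M j).map φ.toMonoidHom = M (σ j)) ∧
        ∀ x y : ∀ j, M j, φ (F x) = F y → ∀ j, ((y (σ j) : M (σ j)) : H) = φ (x j) := by
  classical
  have hcomm : Pairwise fun i j : Fin a => ∀ x y : H, x ∈ M i → y ∈ M j → Commute x y := by
    intro i j hij
    apply Subgroup.commute_of_normal_of_disjoint _ _ (hM i).1 (hM j).1
    rw [disjoint_iff]
    exact vtypes_disj hinj hM hij
  obtain ⟨F, hF⟩ : ∃ F : (∀ j, M j) →* H, ∀ (j : Fin a) (y : M j),
      F (Pi.mulSingle j y) = (y : H) :=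
    ⟨Subgroup.noncommPiCoprod hcomm, fun j y => Subgroup.noncommPiCoprod_mulSingle j y⟩
  have hFinj : Function.Injective F := by
    rw [injective_iff_map_eq_one]
    intro x hx
    funext j
    apply Subtype.ext
    refine center_of_minNormal (M j) (hM j) (hna j) _ (x j).2 fun y hy => ?_
    have h1 : F (x * Pi.mulSingle j ⟨y, hy⟩ * x⁻¹) = y := by
      rw [map_mul, map_mul, map_inv, hx, hF]
      group
    rw [perm_conj_single, hF] at h1
    have h2 : ((x j : M j) : H) * y * ((x j : M j) : H)⁻¹ = y := h1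
    calc ((x j : M j) : H) * y = ((x j : M j) : H) * y * ((x j : M j) : H)⁻¹ * x j := by group
      _ = y * x j := by rw [h2]
  refine ⟨F, hFinj, fun φ => ?_⟩
  choose σ hσ using haut φ
  have hσi : Function.Injective σ := by
    intro i j hij
    apply hinj
    have h1 := (hσ i).trans ((congrArg M hij).trans (hσ j).symm)
    exact Subgroup.map_injective φ.injective h1
  let σ' : Equiv.Perm (Fin a) := Equiv.ofBijective σ (Finite.injective_iff_bijective.1 hσi)
  let ψ : ∀ j, M j ≃* M (σ' j) := fun j =>
    (φ.subgroupMap (M j)).trans (MulEquiv.subgroupCongr (hσ j))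
  have hψ : ∀ j (x : M j), ((ψ j x : M (σ' j)) : H) = φ x := fun j x => rfl
  refine ⟨σ', hσ, fun x y hxy => ?_⟩
  let Y : (∀ j, M j) →* (∀ j, M j) :=
    { toFun := fun x j => (MulEquiv.subgroupCongr (congrArg M (σ'.apply_symm_apply j)))
        (ψ (σ'.symm j) (x (σ'.symm j)))
      map_one' := by
        funext j
        rw [Pi.one_apply, map_one, map_one, Pi.one_apply]
      map_mul' := by
        intro x y
        funext j
        rw [Pi.mul_apply, map_mul, map_mul, Pi.mul_apply] }
  have hY : ∀ (x : ∀ j, M j) (j : Fin a), (((Y x) (σ' j) : M (σ' j)) : H) = φ (x j) := by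
    intro x j
    show ((ψ (σ'.symm (σ' j)) (x (σ'.symm (σ' j))) : M (σ' (σ'.symm (σ' j)))) : H) = φ (x j)
    rw [hψ, σ'.symm_apply_apply]
  have hFY : φ.toMonoidHom.comp F = F.comp Y := by
    apply MonoidHom.pi_ext
    intro i x
    show φ (F (Pi.mulSingle i x)) = F (Y (Pi.mulSingle i x))
    have h1 : Y (Pi.mulSingle i x) = Pi.mulSingle (σ' i) (ψ i x) := by
      funext k
      obtain ⟨j, rfl⟩ := σ'.surjective k
      apply Subtype.ext
      rw [hY]
      rcases eq_or_ne j i with rfl | hne
      · rw [Pi.mulSingle_eq_same, Pi.mulSingle_eq_same, hψ]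
      · rw [Pi.mulSingle_eq_of_ne hne, Pi.mulSingle_eq_of_ne (fun h => hne (σ'.injective h))]
        rw [Subgroup.coe_one, Subgroup.coe_one, map_one]
    rw [h1, hF, hF, hψ]
  have h2 : F (Y x) = F y := by
    rw [← hxy]
    exact (DFunLike.congr_fun hFY x).symm
  have h3 := hFinj h2
  intro j
  rw [← h3, hY]

/-- Elements of members of the family in one orbit have the same isomorphism class. -/
theorem zt_vcls {H : Type u} [Group H] [Finite H] {a : ℕ} {M : Fin a → Subgroup H}
    (hinj : Function.Injective M) (hM : ∀ j, IsMinNormal (M j))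
    (haut : ∀ (φ : H ≃* H) (j : Fin a), ∃ k, (M j).map φ.toMonoidHom = M k)
    {j k : Fin a} (y : M j) (z : M k) (h : zorb (y : H) = zorb (z : H)) :
    vcls M j y = vcls M k z := by
  obtain ⟨φ, hφ⟩ := zorb_eq.1 h
  by_cases hz : z = 1
  · have hy : y = 1 := by
      apply Subtype.ext
      rw [← hφ, hz]
      exact map_one φ
    rw [hz, hy]
    ext w
    constructor
    · rintro ⟨l, χ, rfl⟩
      exact ⟨k, MulEquiv.refl _, by rw [map_one]; rfl⟩
    · rintro ⟨l, χ, rfl⟩
      exact ⟨j, MulEquiv.refl _, by rw [map_one]; rfl⟩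
  · obtain ⟨l, hl⟩ := haut φ k
    have hlj : l = j := by
      by_contra hne
      have h1 : (y : H) ∈ M l ⊓ M j := Subgroup.mem_inf.2
        ⟨by rw [← hφ, ← hl]; exact Subgroup.mem_map_of_mem _ z.2, y.2⟩
      rw [vtypes_disj hinj hM hne, Subgroup.mem_bot] at h1
      apply hz
      apply Subtype.ext
      apply φ.injective
      have h2 : φ (z : H) = 1 := by rw [← h1]; exact hφ
      rw [h2]
      exact (map_one φ).symm
    subst hlj
    have h2 : (MulEquiv.trans (MulEquiv.subgroupMap φ (M k)) (MulEquiv.subgroupCongr hl)) z = y :=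
      Subtype.ext hφ
    rw [← h2]
    exact vcls_congr M _ z

/-- Multisets of classes of the members of one colour. -/
theorem zt_multi {H : Type u} [Group H] [Finite H] {a : ℕ} {M : Fin a → Subgroup H}
    (hinj : Function.Injective M) (hM : ∀ j, IsMinNormal (M j))
    {T : Type} [DecidableEq T] (c : Fin a → T) (hc : ∀ i j, Nonempty (M i ≃* M j) ↔ c i = c j)
    (p : T) (hp : p ∈ univ.image c) (m : ℕ) (hm : ∀ j, c j = p → m ≤ om (M j)) :
    ∃ X : Fin (Nat.multichoose m (univ.filter (fun j => c j = p)).card) → (∀ j, M j),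
      Function.Injective (fun i => (univ.filter (fun j => c j = p)).val.map
        (fun j => vcls M j (X i j))) := by
  classical
  have hcard : ∀ j, om (M j) ≤ (Set.range (vcls M j)).ncard := by
    intro j
    unfold om
    rw [← Nat.card_coe_set_eq]
    refine Nat.card_le_card_of_injective
      (fun q : MulAction.orbitRel.Quotient (MulAut (M j)) (M j) =>
        (⟨vcls M j (Quotient.out q), ⟨_, rfl⟩⟩ : Set.range (vcls M j))) ?_
    intro p q hpq
    obtain ⟨ψ, hψ⟩ := vcls_eq hinj hM (congrArg Subtype.val hpq)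
    rw [← Quotient.out_eq p, ← Quotient.out_eq q]
    refine (Quotient.sound ?_).symm
    show MulAction.orbitRel (MulAut (M j)) (M j) _ _
    rw [MulAction.orbitRel_apply]
    exact ⟨ψ, hψ⟩
  obtain ⟨E, hEc, hEx⟩ : ∃ E : Finset (Set H), E.card = m ∧
      ∀ j, c j = p → ∀ w ∈ E, ∃ x : M j, vcls M j x = w := by
    obtain ⟨j0, -, hj0⟩ := mem_image.1 hp
    have hfr : (Set.range (vcls M j0)).Finite := Set.toFinite _
    have h1 : m ≤ hfr.toFinset.card := by
      rw [← Set.ncard_eq_toFinset_card _ hfr]
      exact (hm j0 hj0).trans (hcard j0)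
    obtain ⟨E, hE1, hE2⟩ := Finset.exists_subset_card_eq h1
    refine ⟨E, hE2, fun j hj w hw => ?_⟩
    have h2 := hE1 hw
    rw [Set.Finite.mem_toFinset] at h2
    obtain ⟨x, rfl⟩ := h2
    obtain ⟨ψ⟩ := (hc j0 j).2 (hj0.trans hj.symm)
    exact ⟨ψ x, vcls_congr M ψ x⟩
  have hx : ∀ f : Sym E (univ.filter (fun j => c j = p)).card, ∃ x : ∀ j, M j,
      (univ.filter (fun j => c j = p)).val.map (fun j => vcls M j (x j)) =
        f.1.map Subtype.val := by
    intro f
    obtain ⟨w, hw⟩ := vtypes_vec (α := Set H) (univ.filter (fun j => c j = p))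
      (f.1.map Subtype.val) (by rw [Multiset.card_map]; exact f.2)
    have h4 : ∀ j, ∃ x : M j, c j = p → vcls M j x = w j := by
      intro j
      by_cases hj : c j = p
      · have h5 : w j ∈ (univ.filter (fun i => c i = p)).val.map w :=
          Multiset.mem_map_of_mem _ (by
            rw [mem_val, mem_filter]
            exact ⟨mem_univ _, hj⟩)
        rw [hw] at h5
        obtain ⟨b, -, hb⟩ := Multiset.mem_map.1 h5
        obtain ⟨x, hx⟩ := hEx j hj (w j) (by rw [← hb]; exact b.2)
        exact ⟨x, fun _ => hx⟩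
      · exact ⟨1, fun h => absurd h hj⟩
    choose x hx using h4
    refine ⟨x, ?_⟩
    rw [← hw]
    refine Multiset.map_congr rfl fun j hj => ?_
    rw [mem_val, mem_filter] at hj
    exact hx j hj.2
  choose x hx using hx
  have hcs : Fintype.card (Sym E (univ.filter (fun j => c j = p)).card) =
      Nat.multichoose m (univ.filter (fun j => c j = p)).card := by
    rw [Sym.card_sym_eq_multichoose, Fintype.card_coe, hEc]
  obtain ⟨ε⟩ : Nonempty (Fin (Nat.multichoose m (univ.filter (fun j => c j = p)).card) ≃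
      Sym E (univ.filter (fun j => c j = p)).card) := ⟨(Fintype.equivFinOfCardEq hcs).symm⟩
  refine ⟨fun i => x (ε i), fun i i' h => ?_⟩
  simp only [hx] at h
  exact ε.injective (Subtype.ext (Multiset.map_injective Subtype.val_injective h))

/-- Orbits that meet one member. -/
theorem zt_orb {H : Type u} [Group H] [Finite H] {a : ℕ} {M : Fin a → Subgroup H}
    {T : Type} [DecidableEq T] (c : Fin a → T) (p : T) (v : ℕ)
    (hv : ∃ k, c k = p ∧ v ≤ vorb (M k)) :
    ∃ X : Fin v → (∀ j, M j),
      Function.Injective (fun i => (univ.filter (fun j => c j = p)).val.map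
        (fun j => zorb ((X i j : M j) : H))) := by
  classical
  obtain ⟨k, hk, hv⟩ := hv
  have hfin : Finite (MulAction.orbitRel.Quotient (MulAut H) H) := Quotient.finite _
  unfold vorb at hv
  obtain ⟨R, hR⟩ : ∃ R : Set (MulAction.orbitRel.Quotient (MulAut H) H),
      R = (fun x : H => (Quotient.mk'' x : MulAction.orbitRel.Quotient (MulAut H) H)) ''
        (M k : Set H) := ⟨_, rfl⟩
  rw [← hR] at hv
  have hRf : R.Finite := Set.toFinite _
  rw [Set.ncard_eq_toFinset_card _ hRf] at hv
  obtain ⟨E, hE1, hE2⟩ := Finset.exists_subset_card_eq hv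
  have hy : ∀ q : E, ∃ y : M k, zorb (y : H) = (q : MulAction.orbitRel.Quotient (MulAut H) H) := by
    intro q
    have h2 := hE1 q.2
    rw [Set.Finite.mem_toFinset, hR] at h2
    obtain ⟨y, hy, hyq⟩ := h2
    exact ⟨⟨y, hy⟩, hyq⟩
  choose y hy using hy
  obtain ⟨ε⟩ : Nonempty (Fin v ≃ E) :=
    ⟨(Fintype.equivFinOfCardEq (by rw [Fintype.card_coe]; exact hE2)).symm⟩
  refine ⟨fun i => Pi.mulSingle k (y (ε i)), fun i i' h => ?_⟩
  have hmem : k ∈ univ.filter (fun j => c j = p) := mem_filter.2 ⟨mem_univ _, hk⟩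
  have key : ∀ i : Fin v, (univ.filter (fun j => c j = p)).val.map
      (fun j => zorb (((Pi.mulSingle k (y (ε i)) : ∀ j, M j) j : M j) : H)) =
      (ε i : MulAction.orbitRel.Quotient (MulAut H) H) ::ₘ
        (((univ.filter (fun j => c j = p)).erase k).val.map (fun _ => zorb (1 : H))) := by
    intro i
    conv_lhs => rw [← insert_erase hmem]
    rw [insert_val_of_notMem (notMem_erase k _), Multiset.map_cons, Pi.mulSingle_eq_same, hy]
    congr 1
    refine Multiset.map_congr rfl fun j hj => ?_
    have hjk : j ≠ k := by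
      rw [mem_val, mem_erase] at hj
      exact hj.1
    rw [Pi.mulSingle_eq_of_ne hjk, Subgroup.coe_one]
  simp only at h
  rw [key, key] at h
  exact ε.injective (Subtype.ext ((Multiset.cons_inj_left _).1 h))

theorem om_types_geZ {H : Type u} [Group H] [Finite H] (a : ℕ) (M : Fin a → Subgroup H)
    (hinj : Function.Injective M) (hM : ∀ j, IsMinNormal (M j))
    (hna : ∀ j, ∃ x ∈ M j, ∃ y ∈ M j, x * y ≠ y * x)
    (haut : ∀ (φ : H ≃* H) (j : Fin a), ∃ k, (M j).map φ.toMonoidHom = M k)
    {T : Type} [DecidableEq T] (c : Fin a → T) (hc : ∀ i j, Nonempty (M i ≃* M j) ↔ c i = c j)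
    (m v : T → ℕ) (hm : ∀ j, m (c j) ≤ om (M j)) (hv : ∀ j, ∃ k, c k = c j ∧ v (c j) ≤ vorb (M k)) :
    ∏ p ∈ Finset.univ.image c,
      max (Nat.multichoose (m p) (Finset.univ.filter (fun j => c j = p)).card) (v p) ≤ om H := by
  classical
  obtain ⟨F, hFinj, hact⟩ := zt_hom hinj hM hna haut
  -- the isomorphism class is a function of the orbit
  obtain ⟨g, hg⟩ : ∃ g : MulAction.orbitRel.Quotient (MulAut H) H → Set H,
      ∀ (j : Fin a) (y : M j), g (zorb (y : H)) = vcls M j y := by
    refine ⟨fun q => if h : ∃ (j : Fin a) (y : M j), zorb (y : H) = q then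
      vcls M h.choose h.choose_spec.choose else ∅, fun j y => ?_⟩
    have h : ∃ (k : Fin a) (z : M k), zorb (z : H) = zorb (y : H) := ⟨j, y, rfl⟩
    simp only
    rw [dif_pos h]
    exact zt_vcls hinj hM haut _ y h.choose_spec.choose_spec
  have hX : ∀ p : univ.image c, ∃ X : Fin (max (Nat.multichoose (m p)
      (Finset.univ.filter (fun j => c j = (p : T))).card) (v p)) → (∀ j, M j),
      Function.Injective (fun i => (univ.filter (fun j => c j = (p : T))).val.map
        (fun j => zorb ((X i j : M j) : H))) := by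
    rintro ⟨p, hp⟩
    obtain ⟨j0, -, hj0⟩ := mem_image.1 hp
    rcases le_total (Nat.multichoose (m p)
      (Finset.univ.filter (fun j => c j = (p : T))).card) (v p) with h | h
    · rw [max_eq_right h]
      apply zt_orb c p (v p)
      rw [← hj0]
      exact hv j0
    · rw [max_eq_left h]
      obtain ⟨X, hX⟩ := zt_multi hinj hM c hc p hp (m p) (fun j hj => by rw [← hj]; exact hm j)
      refine ⟨X, fun i i' hii => hX ?_⟩
      simp only at hii ⊢
      have h1 := congrArg (Multiset.map g) hii
      rw [Multiset.map_map, Multiset.map_map] at h1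
      have h2 : ∀ i, (univ.filter (fun j => c j = (p : T))).val.map
          (g ∘ fun j => zorb ((X i j : M j) : H)) =
          (univ.filter (fun j => c j = (p : T))).val.map (fun j => vcls M j (X i j)) := by
        intro i
        exact Multiset.map_congr rfl fun j _ => hg j (X i j)
      rw [h2, h2] at h1
      exact h1
  choose X hX using hX
  have h1 : ∏ p ∈ univ.image c,
      max (Nat.multichoose (m p) (Finset.univ.filter (fun j => c j = p)).card) (v p) =
      Nat.card (∀ p : univ.image c, Fin (max (Nat.multichoose (m p)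
        (Finset.univ.filter (fun j => c j = (p : T))).card) (v p))) := by
    rw [Nat.card_pi, ← Finset.prod_coe_sort]
    refine prod_congr rfl fun p _ => ?_
    rw [Nat.card_fin]
  rw [h1]
  have hcj : ∀ j, c j ∈ univ.image c := fun j => mem_image_of_mem _ (mem_univ j)
  unfold om
  have hfq : Finite (MulAction.orbitRel.Quotient (MulAut H) H) := Quotient.finite _
  refine Nat.card_le_card_of_injective
    (fun f => zorb (F fun j => X ⟨c j, hcj j⟩ (f ⟨c j, hcj j⟩) j)) ?_
  intro f f' hff
  obtain ⟨φ, hφ⟩ := zorb_eq.1 hff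
  obtain ⟨σ, hσ, hact'⟩ := hact φ
  have h4 := hact' _ _ hφ
  have hcσ : ∀ j, c (σ j) = c j := fun j => ((hc j (σ j)).1
    ⟨(MulEquiv.subgroupMap φ (M j)).trans (MulEquiv.subgroupCongr (hσ j))⟩).symm
  funext p
  apply hX p
  simp only
  -- the multiset of the orbits of the members of colour `p`
  have h5 : (univ.filter (fun j => c j = (p : T))).val.map σ =
      (univ.filter (fun j => c j = (p : T))).val := by
    have h6 : (univ.filter (fun j => c j = (p : T))).map σ.toEmbedding =
        univ.filter (fun j => c j = (p : T)) := by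
      ext k
      rw [mem_map_equiv, mem_filter, mem_filter]
      have h7 := hcσ (σ.symm k)
      rw [Equiv.apply_symm_apply] at h7
      rw [h7]
      simp
    have h8 := congrArg Finset.val h6
    rw [Finset.map_val] at h8
    exact h8
  have h6 : ∀ f : (∀ p : univ.image c, Fin (max (Nat.multichoose (m p)
      (Finset.univ.filter (fun j => c j = (p : T))).card) (v p))),
      (univ.filter (fun j => c j = (p : T))).val.map (fun j => zorb ((X p (f p) j : M j) : H)) =
      (univ.filter (fun j => c j = (p : T))).val.map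
        (fun j => zorb ((X ⟨c j, hcj j⟩ (f ⟨c j, hcj j⟩) j : M j) : H)) := by
    intro f
    refine Multiset.map_congr rfl fun j hj => ?_
    rw [mem_val, mem_filter] at hj
    have h7 : (⟨c j, hcj j⟩ : univ.image c) = p := Subtype.ext hj.2
    rw [h7]
  rw [h6 f, h6 f']
  conv_lhs => rw [← h5]
  rw [Multiset.map_map]
  refine Multiset.map_congr rfl fun j _ => ?_
  rw [Function.comp_apply]
  exact zorb_eq.2 ⟨φ, (h4 j).symm⟩

end SR32
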