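import Pool.Agent.SR32.ZExc
import Pool.Agent.SR32.ZOrb
import Pool.Agent.SR32.ZTypes
import Pool.Agent.SR32.EOrd
import Pool.Agent.SR32.WExc
import Pool.Agent.SR32.VExc
import Pool.Agent.SR32.VPow
import Pool.Agent.SR32.VOrd
import Pool.Agent.SR32.ELowerZS

/-!
# SR32/ZLower: the lower bound for the number of automorphism orbits, third version (lowerZ)
-/

namespace SR32

universe u

theorem lowerZE (L t : ℕ) : ∃ c : ℝ, 0 < c ∧ ∀ (H : Type u) [Group H] [Finite H] (a : ℕ)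
    (M : Fin a → Subgroup H) (d s : Fin a → ℕ),
    Function.Injective M → (∀ j, IsMinNormal (M j)) →
    (∀ (φ : H ≃* H) (j : Fin a), ∃ k, (M j).map φ.toMonoidHom = M k) →
    (∀ j, 5 ≤ d j) → (∀ j, Nonempty (M j ≃* (Fin (s j) → A (d j)))) →
    ∀ I : Subgroup (∀ j, Equiv.Perm (Fin (s j))),
    (∀ j, s j ≤ t * om (A (d j)) ^ 2 ∨
      (∃ n : ℕ, 0 < n ∧ n ≤ s j ^ t ∧ ∀ y ∈ I, y j ^ n = 1) ∨
      2 ^ s j * autFac (M j) ≤ om (A (d j)) ^ s j) →
    c * ((oo (∀ j, Fin (s j) → A (d j)) : ℝ) * (oo I : ℝ)) ^ L ≤ (om H : ℝ) :=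
  ELowerZS.lowerZE_of rv_pos finite_excV om_pow_ge pow_iso_eq om_types_geZ rx_pos finite_excX
    ry_pos finite_excY vorb_ge oo_image_groupedE oo_alt_grouped L t

end SR32
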