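import Pool.Agent.SR32.DefsU

/-!
# Embedding into the product of the automorphism groups of normal subgroups
-/

namespace SR32

theorem ue_card_fun {H : Type*} [Group H] [Finite H] (M : Subgroup H) (t : ℕ)
    (ht : Nat.card M ≤ t) : Nat.card (M → M) ≤ t ^ t := by
  have h1 : 1 ≤ Nat.card M := Nat.card_pos
  rw [Nat.card_fun]
  exact (Nat.pow_le_pow_left ht _).trans (Nat.pow_le_pow_right (h1.trans ht) ht)

theorem card_le_embed {H : Type*} [Group H] [Finite H] (N : Subgroup H) [N.Normal]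
    (W : Set (Subgroup H)) (hn : ∀ M ∈ W, M.Normal) (t : ℕ) (ht : ∀ M ∈ W, Nat.card M ≤ t)
    (hc : ∀ z : H, (∀ y ∈ N, z * y = y * z) → (∀ M ∈ W, ∀ y ∈ M, z * y = y * z) → z = 1) :
    Nat.card H ≤ Nat.card N ^ Nat.card N * (t ^ t) ^ W.ncard := by
  classical
  have : Finite (Subgroup H) := inferInstance
  have : Fintype W := Fintype.ofFinite W
  have hN : N.Normal := inferInstance
  let f : H → (N → N) × (∀ M : W, ↥M.1 → ↥M.1) := fun h =>
    (fun y => ⟨h * y * h⁻¹, hN.conj_mem y y.2 h⟩,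
      fun M y => ⟨h * y * h⁻¹, (hn M.1 M.2).conj_mem y y.2 h⟩)
  have key : ∀ h h' y : H, h * y * h⁻¹ = h' * y * h'⁻¹ → (h'⁻¹ * h) * y = y * (h'⁻¹ * h) := by
    intro h h' y e
    have e1 : h * y = h' * y * h'⁻¹ * h := by
      rw [← e]
      group
    calc (h'⁻¹ * h) * y = h'⁻¹ * (h * y) := by group
      _ = h'⁻¹ * (h' * y * h'⁻¹ * h) := by rw [e1]
      _ = y * (h'⁻¹ * h) := by group
  have hf : Function.Injective f := by
    intro h h' e
    have e1 := congrArg Prod.fst e
    have e2 := congrArg Prod.snd e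
    have h1 : h'⁻¹ * h = 1 := by
      apply hc
      · intro y hy
        apply key
        exact congrArg Subtype.val (congrFun e1 ⟨y, hy⟩)
      · intro M hM y hy
        apply key
        exact congrArg Subtype.val (congrFun (congrFun e2 ⟨M, hM⟩) ⟨y, hy⟩)
    exact (inv_mul_eq_one.1 h1).symm
  have h1 := Nat.card_le_card_of_injective f hf
  rw [Nat.card_prod, Nat.card_fun, Nat.card_pi] at h1
  refine h1.trans (Nat.mul_le_mul_left _ ?_)
  calc ∏ M : W, Nat.card (↥M.1 → ↥M.1)
      ≤ ∏ _M : W, t ^ t :=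
        Finset.prod_le_prod (fun _ _ => Nat.zero_le _) fun M _ => ue_card_fun M.1 t (ht M.1 M.2)
    _ = (t ^ t) ^ W.ncard := by
        rw [Finset.prod_const, Finset.card_univ, ← Nat.card_eq_fintype_card,
          Nat.card_coe_set_eq]

theorem pow_centralize {H : Type*} [Group H] [Finite H] (M : Subgroup H) [M.Normal] (t : ℕ)
    (ht : Nat.card M ≤ t) (h : H) :
    ∀ y ∈ M, h ^ (Nat.factorial (t ^ t)) * y = y * h ^ (Nat.factorial (t ^ t)) := by
  intro y hy
  have : Finite (MulAut M) := Finite.of_injective (fun φ : MulAut M => (φ : M → M))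
    DFunLike.coe_injective
  have h1 : orderOf (MulAut.conjNormal h : MulAut M) ≤ t ^ t :=
    orderOf_le_card.trans ((Nat.card_le_card_of_injective (fun φ : MulAut M => (φ : M → M))
      DFunLike.coe_injective).trans (ue_card_fun M t ht))
  have h2 : orderOf (MulAut.conjNormal h : MulAut M) ∣ Nat.factorial (t ^ t) :=
    Nat.dvd_factorial (orderOf_pos _) h1
  have h3 : (MulAut.conjNormal h : MulAut M) ^ (Nat.factorial (t ^ t)) = 1 :=
    orderOf_dvd_iff_pow_eq_one.1 h2
  rw [← map_pow] at h3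
  have h4 : ((MulAut.conjNormal (h ^ Nat.factorial (t ^ t)) : MulAut M) ⟨y, hy⟩ : H) = y := by
    rw [h3]
    rfl
  rw [MulAut.conjNormal_apply] at h4
  have h5 : h ^ Nat.factorial (t ^ t) * y * (h ^ Nat.factorial (t ^ t))⁻¹ = y := h4
  exact mul_inv_eq_iff_eq_mul.1 h5

end SR32
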