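import Pool.Agent.SR32.WExc
import Pool.Agent.SR32.WOrd
import Pool.Agent.SR32.VExc
import Pool.Agent.SR32.VPow
import Pool.Agent.SR32.VTypes
import Pool.Agent.SR32.VOrd
import Pool.Agent.SR32.WLowerS90

/-!
# SR32/WLower: the lower bound with small permutation groups on the simple factors (lowerW)
-/

namespace SR32

universe u

theorem lowerW (L t : ℕ) : ∃ c : ℝ, 0 < c ∧ ∀ (H : Type u) [Group H] [Finite H] (a : ℕ)
    (M : Fin a → Subgroup H) (d s : Fin a → ℕ),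
    Function.Injective M → (∀ j, IsMinNormal (M j)) →
    (∀ (φ : H ≃* H) (j : Fin a), ∃ k, (M j).map φ.toMonoidHom = M k) →
    (∀ j, 5 ≤ d j) → (∀ j, Nonempty (M j ≃* (Fin (s j) → A (d j)))) →
    ∀ I : Subgroup (∀ j, Equiv.Perm (Fin (s j))),
    (∀ j, ¬ s j ≤ t * om (A (d j)) ^ 2 →
      Nat.card (I.map (Pi.evalMonoidHom (fun j => Equiv.Perm (Fin (s j))) j)) ≤ s j ^ t) →
    c * ((oo (∀ j, Fin (s j) → A (d j)) : ℝ) * (oo I : ℝ)) ^ L ≤ (om H : ℝ) :=
  WLowerS90.lowerW_of rv_pos finite_excV om_pow_ge pow_iso_eq om_types_ge rx_pos finite_excX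
    oo_image_grouped oo_alt_grouped L t

end SR32
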