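import Pool.Agent.SR32.UOuter

/-!
# Outer part for permuted factors: elements that normalize the simple factors of a block
-/

set_option autoImplicit false

namespace SR32

theorem outerW {H : Type*} [Group H] [Finite H] (N : Subgroup H) [N.Normal]
    (a : ℕ) (d s : Fin a → ℕ) (e : (∀ j, (Fin (s j) → A (d j))) ≃* N) (h5 : ∀ j, 5 ≤ d j)
    (hn : ∀ (h : H) (j : Fin a) (x : Fin (s j) → A (d j)), ∃ y : Fin (s j) → A (d j),
          h * (e (Pi.mulSingle j x) : H) * h⁻¹ = (e (Pi.mulSingle j y) : H)) :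
    ∃ τ : H →* (∀ j, Equiv.Perm (Fin (s j))),
      (∀ h : H, τ h = 1 → ∃ x ∈ N, ∀ y ∈ N,
        (h ^ (2 * Nat.card (MulAut (A 6))) * x⁻¹) * y =
          y * (h ^ (2 * Nat.card (MulAut (A 6))) * x⁻¹)) ∧
      ∀ (h : H) (j : Fin a), (∀ (i : Fin (s j)) (x : A (d j)), ∃ y : A (d j),
        h * (e (Pi.mulSingle j (Pi.mulSingle i x)) : H) * h⁻¹ =
          (e (Pi.mulSingle j (Pi.mulSingle i y)) : H)) → τ h j = 1 := by
  classical
  have hinj : ∀ (j : Fin a) (x y : Fin (s j) → A (d j)),
      (e (Pi.mulSingle j x) : H) = (e (Pi.mulSingle j y) : H) → x = y := by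
    intro j x y hxy
    exact Pi.mulSingle_injective j (e.injective (Subtype.ext hxy))
  -- the automorphism of the block `j` given by conjugation with `h`
  have hβ : ∀ (j : Fin a) (h : H), ∃ β : MulAut (Fin (s j) → A (d j)),
      ∀ x : Fin (s j) → A (d j),
        h * (e (Pi.mulSingle j x) : H) * h⁻¹ = (e (Pi.mulSingle j (β x)) : H) := by
    intro j h
    choose f hf using hn h j
    have hmul : ∀ x y, f (x * y) = f x * f y := by
      intro x y
      apply hinj
      rw [← hf, Pi.mulSingle_mul, map_mul, Pi.mulSingle_mul, map_mul, Subgroup.coe_mul,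
        Subgroup.coe_mul, ← hf, ← hf]
      group
    have hfi : Function.Injective f := by
      intro x y hxy
      apply hinj
      have h1 := hf x
      rw [hxy, ← hf y] at h1
      exact mul_left_cancel (mul_right_cancel h1)
    exact ⟨MulEquiv.ofBijective (MonoidHom.mk' f hmul) (Finite.injective_iff_bijective.1 hfi),
      fun x => hf x⟩
  choose β hβ using hβ
  have hβmul : ∀ (j : Fin a) (g h : H), β j (g * h) = β j g * β j h := by
    intro j g h
    ext1 x
    apply hinj
    rw [MulAut.mul_apply, ← hβ, ← hβ, ← hβ]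
    group
  -- the permutation
  have hsimple : ∀ j : Fin a, IsSimpleGroup (A (d j)) := by
    intro j
    exact alternatingGroup.isSimpleGroup (by rw [Nat.card_fin]; exact h5 j)
  have hσ : ∀ (j : Fin a) (φ : MulAut (Fin (s j) → A (d j))),
      ∃ σ : Equiv.Perm (Fin (s j)), PermOf φ σ := by
    intro j φ
    have := hsimple j
    obtain ⟨σ, ψ, hψ⟩ := aut_pi (fun _ : Fin (s j) => A (d j))
      (fun _ => alternatingGroup.center_eq_bot (by rw [Nat.card_fin]; have := h5 j; omega)) φ
    exact ⟨σ, ψ, hψ⟩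
  choose σ hσ using hσ
  have hσmul : ∀ (j : Fin a) (φ φ' : MulAut (Fin (s j) → A (d j))),
      σ j (φ * φ') = σ j φ * σ j φ' := by
    intro j φ φ'
    have := hsimple j
    have : Nontrivial (A (d j)) := inferInstance
    exact (hσ j (φ * φ')).unique ((hσ j φ).mul (hσ j φ'))
  refine ⟨MonoidHom.mk' (fun h j => σ j (β j h)) ?_, fun h hh => ?_, fun h j hfix => ?_⟩
  · intro g h
    ext1 j
    show σ j (β j (g * h)) = σ j (β j g) * σ j (β j h)
    rw [hβmul, hσmul]
  · have hone : ∀ j, σ j (β j h) = 1 := fun j => congrFun hh j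
    have hψ : ∀ (j : Fin a) (i : Fin (s j)), ∃ ψ : MulAut (A (d j)),
        ∀ x : Fin (s j) → A (d j), β j h x i = ψ (x i) := by
      intro j i
      obtain ⟨ψ, hψ⟩ := hσ j (β j h)
      refine ⟨ψ i, fun x => ?_⟩
      have h1 := hψ x i
      rw [hone j] at h1
      exact h1
    choose ψ hψ using hψ
    have hψpow : ∀ (k : ℕ) (j : Fin a) (i : Fin (s j)) (x : Fin (s j) → A (d j)),
        (β j h ^ k) x i = (ψ j i ^ k) (x i) := by
      intro k
      induction k with
      | zero => intro j i x; simp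
      | succ k ih =>
        intro j i x
        rw [pow_succ', MulAut.mul_apply, hψ, ih, pow_succ', MulAut.mul_apply]
    have hβpow : ∀ (k : ℕ) (j : Fin a) (x : Fin (s j) → A (d j)),
        h ^ k * (e (Pi.mulSingle j x) : H) * (h ^ k)⁻¹ =
          (e (Pi.mulSingle j ((β j h ^ k) x)) : H) := by
      intro k
      induction k with
      | zero => intro j x; simp
      | succ k ih =>
        intro j x
        rw [pow_succ (β j h), MulAut.mul_apply, ← ih, ← hβ, pow_succ]
        group
    choose z hz using fun (j : Fin a) (i : Fin (s j)) => outer_pow (d j) (h5 j) (ψ j i)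
    refine inner_of_inner N e _ z (fun j x => ?_)
    rw [hβpow]
    congr 3
    ext1 i
    rw [hψpow, hz]
    rfl
  · show σ j (β j h) = 1
    have := hsimple j
    obtain ⟨ψ, hψ⟩ := hσ j (β j h)
    obtain ⟨z, hz⟩ := exists_ne (1 : A (d j))
    ext1 i
    obtain ⟨y, hy⟩ := hfix i z
    rw [hβ] at hy
    have h1 := hinj j _ _ hy
    have h2 := hψ (Pi.mulSingle i z) i
    rw [h1, Pi.mulSingle_eq_same] at h2
    by_contra hne
    have hne' : σ j (β j h) i ≠ i := hne
    rw [Pi.mulSingle_eq_of_ne hne'] at h2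
    exact hz ((map_eq_one_iff (ψ i) (ψ i).injective).1 h2.symm)

end SR32
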