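import Pool.Agent.SR32.DefsZ
import Pool.Agent.SR32.VLowerS90

/-!
# SR32/ZLowerS90: the lower bound for the number of automorphism orbits, third version

`lowerZ_of`: `lowerZ` from the other modules (their statements are hypotheses).
-/

set_option autoImplicit false

namespace SR32.ZLowerS90

open SR32 Finset

universe u

theorem lowerZ_of
    (hpos : ∀ (L : ℕ) (p : ℕ × ℕ × ℕ), 5 ≤ p.1 → 0 < rv L p)
    (hfin : ∀ (L t : ℕ) (C : ℝ), {p : ℕ × ℕ × ℕ | 5 ≤ p.1 ∧ 1 ≤ p.2.1 ∧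
      p.2.1 ≤ t * om (A p.1) ^ 2 ∧ 1 ≤ p.2.2 ∧ rv L p < C}.Finite)
    (hpow : ∀ (d s : ℕ), 5 ≤ d → Nat.multichoose (om (A d)) s ≤ om (Fin s → A d))
    (hiso : ∀ {d s d' s' : ℕ}, 5 ≤ d → 5 ≤ d' → 1 ≤ s → 1 ≤ s' →
      ((Fin s → A d) ≃* (Fin s' → A d')) → d = d' ∧ s = s')
    (htypes : ∀ {H : Type u} [Group H] [Finite H] (a : ℕ) (M : Fin a → Subgroup H),
      Function.Injective M → (∀ j, IsMinNormal (M j)) →
      (∀ j, ∃ x ∈ M j, ∃ y ∈ M j, x * y ≠ y * x) →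
      (∀ (φ : H ≃* H) (j : Fin a), ∃ k, (M j).map φ.toMonoidHom = M k) →
      ∀ {T : Type} [DecidableEq T] (c : Fin a → T), (∀ i j, Nonempty (M i ≃* M j) ↔ c i = c j) →
      ∀ (m v : T → ℕ), (∀ j, m (c j) ≤ om (M j)) →
      (∀ j, ∃ k, c k = c j ∧ v (c j) ≤ vorb (M k)) →
      ∏ p ∈ Finset.univ.image c,
        max (Nat.multichoose (m p) (Finset.univ.filter (fun j => c j = p)).card) (v p) ≤ om H)
    (hxpos : ∀ (L t : ℕ) (p : ℕ × ℕ × ℕ), 5 ≤ p.1 → 1 ≤ p.2.1 → 0 < rx L t p)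
    (hxfin : ∀ (L t : ℕ) (C : ℝ), {p : ℕ × ℕ × ℕ | 5 ≤ p.1 ∧ 1 ≤ p.2.1 ∧ 1 ≤ p.2.2 ∧
      rx L t p < C}.Finite)
    (hypos : ∀ (L : ℕ) (p : ℕ × ℕ × ℕ), 0 < ry L p)
    (hyfin : ∀ (L : ℕ) (C : ℝ), {p : ℕ × ℕ × ℕ | 5 ≤ p.1 ∧ 1 ≤ p.2.1 ∧ 1 ≤ p.2.2 ∧
      ry L p < C}.Finite)
    (hvorb : ∀ {H : Type u} [Group H] [Finite H] (M : Subgroup H), IsMinNormal M →
      ∀ {d s : ℕ}, 5 ≤ d → (M ≃* (Fin s → A d)) → om (A d) ^ s ≤ autFac M * vorb M)
    (hperm : ∀ {a : ℕ} (s d : Fin a → ℕ) (t : ℕ) (I : Subgroup (∀ j, Equiv.Perm (Fin (s j))))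
      (q : ℕ × ℕ → ℕ),
      (∀ j, q (d j, s j) = 1 →
        Nat.card (I.map (Pi.evalMonoidHom (fun j => Equiv.Perm (Fin (s j))) j)) ≤ s j ^ t) →
      oo I ≤ ∏ p ∈ Finset.univ.image (fun j => (d j, s j)),
        if q p = 0 then
          (QQ p.2 (p.2 * (Finset.univ.filter (fun j => (d j, s j) = p)).card)).card
        else if q p = 1 then
          min (DD t p.2 ^ (Finset.univ.filter (fun j => (d j, s j) = p)).card) (2 ^ (PP p.2).card)
        else 2 ^ (PP p.2).card)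
    (halt : ∀ {a : ℕ} (s d : Fin a → ℕ), oo (∀ j, Fin (s j) → A (d j)) ≤
      ∏ p ∈ Finset.univ.image (fun j => (d j, s j)),
        oo (Fin (p.2 * (Finset.univ.filter (fun j => (d j, s j) = p)).card) → A p.1))
    (L t : ℕ) : ∃ c : ℝ, 0 < c ∧ ∀ (H : Type u) [Group H] [Finite H] (a : ℕ)
    (M : Fin a → Subgroup H) (d s : Fin a → ℕ),
    Function.Injective M → (∀ j, IsMinNormal (M j)) →
    (∀ (φ : H ≃* H) (j : Fin a), ∃ k, (M j).map φ.toMonoidHom = M k) →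
    (∀ j, 5 ≤ d j) → (∀ j, Nonempty (M j ≃* (Fin (s j) → A (d j)))) →
    ∀ I : Subgroup (∀ j, Equiv.Perm (Fin (s j))),
    (∀ j, s j ≤ t * om (A (d j)) ^ 2 ∨
      Nat.card (I.map (Pi.evalMonoidHom (fun j => Equiv.Perm (Fin (s j))) j)) ≤ s j ^ t ∨
      2 ^ s j * autFac (M j) ≤ om (A (d j)) ^ s j) →
    c * ((oo (∀ j, Fin (s j) → A (d j)) : ℝ) * (oo I : ℝ)) ^ L ≤ (om H : ℝ) := by
  classical
  -- the smallest of the three quotients
  obtain ⟨r0, hr0⟩ : ∃ r0 : ℕ × ℕ × ℕ → ℝ, r0 = fun p =>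
    min (min (if p.2.1 ≤ t * om (A p.1) ^ 2 then rv L p else 1) (rx L t p)) (ry L p) := ⟨_, rfl⟩
  have hr0pos : ∀ p : ℕ × ℕ × ℕ, 5 ≤ p.1 → 1 ≤ p.2.1 → 0 < r0 p := by
    intro p h1 h2
    rw [hr0]
    refine lt_min (lt_min ?_ (hxpos L t p h1 h2)) (hypos L p)
    split_ifs
    · exact hpos L p h1
    · exact one_pos
  obtain ⟨c, hc0, hc⟩ := VLowerS90.prod_ge r0 {p : ℕ × ℕ × ℕ | 5 ≤ p.1 ∧ 1 ≤ p.2.1 ∧ 1 ≤ p.2.2}
    (fun p hp => hr0pos p hp.1 hp.2.1)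
    ((((hfin L t 1).union (hxfin L t 1)).union (hyfin L 1)).subset (by
      rintro p ⟨⟨h1, h2, h3⟩, h4⟩
      rw [hr0] at h4
      simp only [min_lt_iff] at h4
      rcases h4 with (h4 | h4) | h4
      · by_cases h5 : p.2.1 ≤ t * om (A p.1) ^ 2
        · simp only [if_pos h5] at h4
          exact Or.inl (Or.inl ⟨h1, h2, h5, h3, h4⟩)
        · simp only [if_neg h5] at h4
          exact absurd h4 (lt_irrefl _)
      · exact Or.inl (Or.inr ⟨h1, h2, h3, h4⟩)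
      · exact Or.inr ⟨h1, h2, h3, h4⟩))
  refine ⟨c, hc0, fun H _ _ a M d s hMi hM haut h5 hiM I hI => ?_⟩
  have hs1 : ∀ j, 1 ≤ s j := by
    intro j
    by_contra h0
    have h0' : s j = 0 := by omega
    obtain ⟨e⟩ := hiM j
    apply (hM j).2.1
    rw [eq_bot_iff]
    intro x hx
    haveI : Subsingleton (Fin (s j) → A (d j)) := by
      rw [h0']
      infer_instance
    have h1 := e.injective (Subsingleton.elim (e ⟨x, hx⟩) (e 1))
    exact Subgroup.mem_bot.2 (congrArg Subtype.val h1)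
  have hna : ∀ j, ∃ x ∈ M j, ∃ y ∈ M j, x * y ≠ y * x := by
    intro j
    obtain ⟨e⟩ := hiM j
    obtain ⟨x, y, hxy⟩ := VLowerS90.nonab_alt (d j) (h5 j)
    refine ⟨(e.symm (fun _ => x)).1, (e.symm _).2, (e.symm (fun _ => y)).1, (e.symm _).2,
      fun h => hxy ?_⟩
    have h1 : e.symm (fun _ => x) * e.symm (fun _ => y) =
        e.symm (fun _ => y) * e.symm (fun _ => x) := Subtype.ext h
    rw [← map_mul, ← map_mul] at h1
    exact congrFun (e.symm.injective h1) ⟨0, hs1 j⟩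
  have hcc : ∀ i j, Nonempty (M i ≃* M j) ↔ (d i, s i) = (d j, s j) := by
    intro i j
    obtain ⟨ei⟩ := hiM i
    obtain ⟨ej⟩ := hiM j
    constructor
    · rintro ⟨f⟩
      obtain ⟨h1, h2⟩ := hiso (h5 i) (h5 j) (hs1 i) (hs1 j) ((ei.symm.trans f).trans ej)
      rw [h1, h2]
    · intro h
      have h1 : d i = d j := congrArg Prod.fst h
      have h2 : s i = s j := congrArg Prod.snd h
      rw [h1, h2] at ei
      exact ⟨ei.trans ej.symm⟩
  -- the alternative of a type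
  obtain ⟨q, hq⟩ : ∃ q : ℕ × ℕ → ℕ, q = fun p => if p.2 ≤ t * om (A p.1) ^ 2 then 0 else
    if ∀ j, (d j, s j) = p →
      Nat.card (I.map (Pi.evalMonoidHom (fun j => Equiv.Perm (Fin (s j))) j)) ≤ s j ^ t
    then 1 else 2 := ⟨_, rfl⟩
  have hq0 : ∀ p, q p = 0 → p.2 ≤ t * om (A p.1) ^ 2 := by
    intro p hp
    rw [hq] at hp
    by_contra h
    simp only [if_neg h] at hp
    split_ifs at hp
  have hq1 : ∀ j, q (d j, s j) = 1 →
      Nat.card (I.map (Pi.evalMonoidHom (fun j => Equiv.Perm (Fin (s j))) j)) ≤ s j ^ t := by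
    intro j hj
    by_contra h3
    rw [hq] at hj
    simp only at hj
    by_cases h1 : s j ≤ t * om (A (d j)) ^ 2
    · rw [if_pos h1] at hj
      exact absurd hj (by norm_num)
    · rw [if_neg h1, if_neg (fun h2 => h3 (h2 j rfl))] at hj
      exact absurd hj (by norm_num)
  have hq2 : ∀ j, q (d j, s j) ≠ 0 → q (d j, s j) ≠ 1 →
      ∃ k, (d k, s k) = (d j, s j) ∧ 2 ^ s j ≤ vorb (M k) := by
    intro j h0 h1
    rw [hq] at h0 h1
    simp only at h0 h1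
    by_cases h2 : s j ≤ t * om (A (d j)) ^ 2
    · exact absurd (if_pos h2) h0
    rw [if_neg h2] at h1
    by_cases h3 : ∀ k, (d k, s k) = (d j, s j) →
        Nat.card (I.map (Pi.evalMonoidHom (fun j => Equiv.Perm (Fin (s j))) k)) ≤ s k ^ t
    · exact absurd (if_pos h3) h1
    push Not at h3
    obtain ⟨k, hk, hk2⟩ := h3
    refine ⟨k, hk, ?_⟩
    have e1 : d k = d j := congrArg Prod.fst hk
    have e2 : s k = s j := congrArg Prod.snd hk
    rcases hI k with h4 | h4 | h4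
    · rw [e1, e2] at h4
      exact absurd h4 h2
    · exact absurd h4 (not_le.2 hk2)
    · obtain ⟨e⟩ := hiM k
      have h6 := hvorb (M k) (hM k) (h5 k) e
      have h7 : 0 < om (A (d k)) ^ s k := Nat.pow_pos (om_pos _)
      have h8 : 0 < autFac (M k) := by
        rcases Nat.eq_zero_or_pos (autFac (M k)) with h | h
        · rw [h, zero_mul] at h6
          omega
        · exact h
      rw [← e2]
      have h9 : 2 ^ s k * autFac (M k) ≤ vorb (M k) * autFac (M k) := by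
        rw [mul_comm (vorb (M k))]
        exact h4.trans h6
      exact Nat.le_of_mul_le_mul_right h9 h8
  obtain ⟨v, hv⟩ : ∃ v : ℕ × ℕ → ℕ, v = fun p => if q p = 0 then 0 else
    if q p = 1 then 0 else 2 ^ p.2 := ⟨_, rfl⟩
  have hv2 : ∀ j, ∃ k, (d k, s k) = (d j, s j) ∧ v (d j, s j) ≤ vorb (M k) := by
    intro j
    rw [hv]
    simp only
    by_cases h0 : q (d j, s j) = 0
    · exact ⟨j, rfl, by rw [if_pos h0]; exact Nat.zero_le _⟩
    · rw [if_neg h0]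
      by_cases h1 : q (d j, s j) = 1
      · exact ⟨j, rfl, by rw [if_pos h1]; exact Nat.zero_le _⟩
      · rw [if_neg h1]
        exact hq2 j h0 h1
  have key := htypes a M hMi hM hna haut (fun j => (d j, s j)) hcc
    (fun p => Nat.multichoose (om (A p.1)) p.2) v (fun j => by
      obtain ⟨e⟩ := hiM j
      rw [om_congr e]
      exact hpow (d j) (s j) (h5 j)) hv2
  have k1 := halt s d
  have k2 := hperm s d t I q hq1
  obtain ⟨P, hP⟩ : ∃ P : Finset (ℕ × ℕ), P = Finset.univ.image (fun j => (d j, s j)) := ⟨_, rfl⟩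
  obtain ⟨k, hk⟩ : ∃ k : ℕ × ℕ → ℕ, k = fun p =>
    (Finset.univ.filter (fun j => (d j, s j) = p)).card := ⟨_, rfl⟩
  have hkp : ∀ p, (Finset.univ.filter (fun j => (d j, s j) = p)).card = k p := fun p => by rw [hk]
  simp only [hkp] at key k2
  rw [← hP] at key k1 k2
  have hinj : Set.InjOn (fun p : ℕ × ℕ => (p.1, p.2, k p)) (P : Set (ℕ × ℕ)) := by
    intro p _ q _ hpq
    have h1 : p.1 = q.1 := congrArg (fun t : ℕ × ℕ × ℕ => t.1) hpq
    have h2 : p.2 = q.2 := congrArg (fun t : ℕ × ℕ × ℕ => t.2.1) hpq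
    exact Prod.ext h1 h2
  have hmem : ∀ p ∈ P, 5 ≤ p.1 ∧ 1 ≤ p.2 ∧ 1 ≤ k p := by
    intro p hp
    rw [hP, mem_image] at hp
    obtain ⟨j, -, rfl⟩ := hp
    refine ⟨h5 j, hs1 j, ?_⟩
    rw [hk]
    exact card_pos.2 ⟨j, mem_filter.2 ⟨mem_univ _, rfl⟩⟩
  -- the quotient of a type
  obtain ⟨r, hr⟩ : ∃ r : ℕ × ℕ → ℝ, r = fun p => if q p = 0 then rv L (p.1, p.2, k p) else
    if q p = 1 then rx L t (p.1, p.2, k p) else ry L (p.1, p.2, k p) := ⟨_, rfl⟩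
  have hr0r : ∀ p, r0 (p.1, p.2, k p) ≤ r p := by
    intro p
    rw [hr0, hr]
    simp only
    by_cases h0 : q p = 0
    · rw [if_pos h0, if_pos (hq0 p h0)]
      exact (min_le_left _ _).trans (min_le_left _ _)
    · rw [if_neg h0]
      by_cases h1 : q p = 1
      · rw [if_pos h1]
        exact (min_le_left _ _).trans (min_le_right _ _)
      · rw [if_neg h1]
        exact min_le_right _ _
  have hrpos : ∀ p ∈ P, 0 < r p := fun p hp =>
    (hr0pos (p.1, p.2, k p) (hmem p hp).1 (hmem p hp).2.1).trans_le (hr0r p)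
  have hcP : c ≤ ∏ p ∈ P, r p := by
    have h := hc (P.image (fun p => (p.1, p.2, k p))) (by
      intro q hq
      rw [mem_image] at hq
      obtain ⟨p, hp, rfl⟩ := hq
      exact hmem p hp)
    rw [prod_image hinj] at h
    exact h.trans (prod_le_prod (fun p hp => (hr0pos (p.1, p.2, k p) (hmem p hp).1
      (hmem p hp).2.1).le) (fun p _ => hr0r p))
  -- the numerators
  obtain ⟨V, hV⟩ : ∃ V : ℕ × ℕ → ℕ, V = fun p =>
    max (Nat.multichoose (Nat.multichoose (om (A p.1)) p.2) (k p)) (v p) := ⟨_, rfl⟩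
  -- the denominators
  obtain ⟨N, hN⟩ : ∃ N : ℕ × ℕ → ℕ, N = fun p => if q p = 0 then
    (QQ p.2 (p.2 * k p)).card else if q p = 1 then min (DD t p.2 ^ k p) (2 ^ (PP p.2).card)
    else 2 ^ (PP p.2).card := ⟨_, rfl⟩
  obtain ⟨B, hB⟩ : ∃ B : ℕ × ℕ → ℝ, B = fun p =>
    (oo (Fin (p.2 * k p) → A p.1) : ℝ) * (N p : ℝ) := ⟨_, rfl⟩
  have hB0 : ∀ p, 0 ≤ B p := by
    intro p
    rw [hB]
    exact mul_nonneg (Nat.cast_nonneg _) (Nat.cast_nonneg _)
  have hle : (oo (∀ j, Fin (s j) → A (d j)) : ℝ) * (oo I : ℝ) ≤ ∏ p ∈ P, B p := by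
    have e : ∏ p ∈ P, B p = (∏ p ∈ P, (oo (Fin (p.2 * k p) → A p.1) : ℝ)) *
        ∏ p ∈ P, (N p : ℝ) := by
      rw [hB, prod_mul_distrib]
    rw [e]
    have h1 : (oo (∀ j, Fin (s j) → A (d j)) : ℝ) ≤
        ∏ p ∈ P, (oo (Fin (p.2 * k p) → A p.1) : ℝ) := by
      rw [hk]
      exact_mod_cast k1
    have h2 : (oo I : ℝ) ≤ ∏ p ∈ P, (N p : ℝ) := by
      have h3 : oo I ≤ ∏ p ∈ P, N p := by
        rw [hN]
        exact k2
      exact_mod_cast h3
    exact mul_le_mul h1 h2 (Nat.cast_nonneg _) (prod_nonneg fun p _ => Nat.cast_nonneg _)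
  have hrB : ∀ p, r p = (V p : ℝ) / (B p) ^ L := by
    intro p
    rw [hr, hB, hN, hV, hv]
    simp only
    by_cases h0 : q p = 0
    · rw [if_pos h0, if_pos h0, if_pos h0, Nat.max_zero]
      rfl
    · rw [if_neg h0, if_neg h0, if_neg h0]
      by_cases h1 : q p = 1
      · rw [if_pos h1, if_pos h1, if_pos h1, Nat.max_zero]
        rfl
      · rw [if_neg h1, if_neg h1, if_neg h1]
        rfl
  have hrv : (∏ p ∈ P, r p) * (∏ p ∈ P, B p) ^ L = ∏ p ∈ P, (V p : ℝ) := by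
    rw [← prod_pow, ← prod_mul_distrib]
    refine prod_congr rfl fun p hp => ?_
    have h0 : (B p) ^ L ≠ 0 := by
      intro h0
      have h1 := hrpos p hp
      rw [hrB, h0, div_zero] at h1
      exact lt_irrefl _ h1
    rw [hrB, div_mul_cancel₀ _ h0]
  have hPB : 0 ≤ ∏ p ∈ P, B p := prod_nonneg fun p _ => hB0 p
  have key2 : ∏ p ∈ P, V p ≤ om H := by
    rw [hV]
    exact key
  calc c * ((oo (∀ j, Fin (s j) → A (d j)) : ℝ) * (oo I : ℝ)) ^ L
      ≤ c * (∏ p ∈ P, B p) ^ L := by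
        refine mul_le_mul_of_nonneg_left (pow_le_pow_left₀ (by positivity) hle L) hc0.le
    _ ≤ (∏ p ∈ P, r p) * (∏ p ∈ P, B p) ^ L :=
        mul_le_mul_of_nonneg_right hcP (pow_nonneg hPB L)
    _ = ∏ p ∈ P, (V p : ℝ) := hrv
    _ ≤ (om H : ℝ) := by exact_mod_cast key2

end SR32.ZLowerS90
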