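import Pool.Agent.SR32.DefsZ
import Pool.Agent.SR32.WOrd

/-!
# Orders of the elements of a group of permutations of the simple factors, three kinds of types
-/

set_option autoImplicit false

namespace SR32

theorem oo_image_groupedZ {a : ℕ} (s d : Fin a → ℕ) (t : ℕ)
    (I : Subgroup (∀ j, Equiv.Perm (Fin (s j)))) (q : ℕ × ℕ → ℕ)
    (hI : ∀ j, q (d j, s j) = 1 →
      Nat.card (I.map (Pi.evalMonoidHom (fun j => Equiv.Perm (Fin (s j))) j)) ≤ s j ^ t) :
    oo I ≤ ∏ p ∈ Finset.univ.image (fun j => (d j, s j)),
      if q p = 0 then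
        (QQ p.2 (p.2 * (Finset.univ.filter (fun j => (d j, s j) = p)).card)).card
      else if q p = 1 then
        min (DD t p.2 ^ (Finset.univ.filter (fun j => (d j, s j) = p)).card) (2 ^ (PP p.2).card)
      else 2 ^ (PP p.2).card := by
  classical
  let r : ∀ p : ℕ × ℕ, (∀ j, Equiv.Perm (Fin (s j))) →*
      (∀ j : {j : Fin a // (d j, s j) = p}, Equiv.Perm (Fin (s j))) := fun p =>
    { toFun := fun x j => x j
      map_one' := rfl
      map_mul' := fun _ _ => rfl }
  refine (wo_grouped (fun j => (d j, s j)) (fun j => Equiv.Perm (Fin (s j))) I r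
    (fun _ _ _ => rfl)).trans ?_
  refine Finset.prod_le_prod (fun _ _ => Nat.zero_le _) fun p _ => ?_
  have hs : ∀ j : {j : Fin a // (d j, s j) = p}, s j = p.2 := fun j => congrArg Prod.snd j.2
  have hc : Fintype.card {j : Fin a // (d j, s j) = p} =
      (Finset.univ.filter (fun j => (d j, s j) = p)).card := by
    rw [Fintype.card_subtype]
  have h2 := card_orders_pi_perm (fun j : {j : Fin a // (d j, s j) = p} => s j) p.2
    (fun j => (hs j).le)
  have h3 : ∑ j : {j : Fin a // (d j, s j) = p}, s j =
      p.2 * (Finset.univ.filter (fun j => (d j, s j) = p)).card := by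
    rw [Finset.sum_congr rfl (fun j _ => hs j), Finset.sum_const, Finset.card_univ, hc,
      smul_eq_mul, mul_comm]
  rw [h3] at h2
  have h4 : oo (I.map (r p)) ≤
      (QQ p.2 (p.2 * (Finset.univ.filter (fun j => (d j, s j) = p)).card)).card :=
    (oo_subgroup_le _).trans h2
  split_ifs with h h'
  · exact h4
  · apply le_min
    · rw [← hc]
      apply wo_proj (fun j : {j : Fin a // (d j, s j) = p} => Equiv.Perm (Fin (s j)))
      intro j
      have h5 : (I.map (r p)).map (Pi.evalMonoidHom
          (fun j : {j : Fin a // (d j, s j) = p} => Equiv.Perm (Fin (s j))) j) =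
          I.map (Pi.evalMonoidHom (fun j => Equiv.Perm (Fin (s j))) (j : Fin a)) := by
        rw [Subgroup.map_map]
        rfl
      rw [h5]
      have h6 := wo_le_DD t (s j) (hI j (by rw [j.2]; exact h'))
      have h7 : DD t (s j) = DD t p.2 := congrArg (DD t) (hs j)
      exact h6.trans h7.le
    · exact h4.trans (wo_QQ_le _ _)
  · exact h4.trans (wo_QQ_le _ _)

end SR32
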