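import Pool.Agent.SR32.DefsE
import Pool.Agent.SR32.ELowerZ
import Pool.Agent.SR32.YKindAB

/-!
# The part of a group acting on the small and the alternating minimal normal subgroups
-/

set_option autoImplicit false

namespace SR32

universe u

theorem expFac_map {t s : ℕ} {H : Type u} [Group H] [Finite H] (φ : H ≃* H) {K : Subgroup H}
    (h : ExpFac t s K) : ExpFac t s (K.map φ.toMonoidHom) := by
  obtain ⟨n, h1, h2, h3⟩ := h
  refine ⟨n, h1, h2, fun x => ?_⟩
  have h4 : (FacNorm K).map φ.toMonoidHom ≤ FacNorm (K.map φ.toMonoidHom) := by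
    rintro _ ⟨h, hh, rfl⟩
    unfold FacNorm at hh ⊢
    rw [Subgroup.mem_iInf]
    intro S'
    rw [Subgroup.mem_iInf]
    rintro ⟨hle, hmin⟩
    have hSle : S'.comap φ.toMonoidHom ≤ K := by
      intro x hx
      obtain ⟨y, hy, hyx⟩ := hle hx
      have : y = x := φ.injective hyx
      rw [← this]
      exact hy
    have hSmin : IsMinNormal ((S'.comap φ.toMonoidHom).subgroupOf K) := by
      have h2 := minNormal_comap (φ.subgroupMap K) hmin
      have h3 : (S'.subgroupOf (K.map φ.toMonoidHom)).comap (φ.subgroupMap K).toMonoidHom =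
          (S'.comap φ.toMonoidHom).subgroupOf K := by
        ext x
        exact Iff.rfl
      rw [h3] at h2
      exact h2
    rw [SetLike.mem_coe, Subgroup.mem_iInf] at hh
    have h4 := hh (S'.comap φ.toMonoidHom)
    rw [Subgroup.mem_iInf] at h4
    have h5 := Subgroup.mem_normalizer_iff.1 (h4 ⟨hSle, hSmin⟩)
    rw [Subgroup.mem_normalizer_iff]
    intro y
    have h6 := h5 (φ.symm y)
    have h6' : φ (φ.symm y) ∈ S' ↔ φ (h * φ.symm y * h⁻¹) ∈ S' := h6
    rw [map_mul, map_mul, map_inv, MulEquiv.apply_symm_apply] at h6'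
    exact h6'
  refine h4 ⟨φ.symm x ^ n, h3 _, ?_⟩
  show φ (φ.symm x ^ n) = x ^ n
  rw [map_pow, MulEquiv.apply_symm_apply]

theorem kindABE (t L : ℕ) : ∃ c : ℝ, 0 < c ∧
    ∀ (Q : Type u) [Group Q] [Finite Q] (C : Subgroup Q) [C.Normal],
      (∀ z : Q, z ∈ C ↔ ∀ M : Subgroup Q, IsMinNormal M → GoodABE t M → ∀ y ∈ M, z * y = y * z) →
      c * (oo (Q ⧸ C) : ℝ) ^ L ≤ (om Q : ℝ) := by
  classical
  obtain ⟨c0, hc0, hlow⟩ := lowerZE.{u} L t
  set E : ℕ := 2 * Nat.card (MulAut (A 6)) * Nat.factorial (t ^ t) with hE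
  have hE1 : 1 ≤ E := by
    have h1 : 0 < Nat.card (MulAut (A 6)) := Nat.card_pos
    have h2 : 0 < Nat.factorial (t ^ t) := Nat.factorial_pos _
    exact Nat.mul_pos (by omega) h2
  have hEr : (0 : ℝ) < (E : ℝ) := by exact_mod_cast hE1
  refine ⟨c0 / (E : ℝ) ^ L, by positivity, ?_⟩
  intro Q _ _ C hCn hC
  have hoo0 : (0 : ℝ) ≤ (oo (Q ⧸ C) : ℝ) := Nat.cast_nonneg _
  obtain ⟨a, M, d, s, hinj, hM, haut, h5, hR, hiso, hall⟩ :=
    enum_minW (H := Q) (fun K d s => s ≤ t * om (A d) ^ 2 ∨ ExpFac t s K ∨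
      2 ^ s * autFac K ≤ om (A d) ^ s) (by
      intro φ K d s h
      rcases h with h | h | h
      · exact Or.inl h
      · exact Or.inr (Or.inl (expFac_map φ h))
      · exact Or.inr (Or.inr ((Nat.mul_le_mul_left _ (autFac_map φ K)).trans h)))
  obtain ⟨hchar, e, hn, hfac⟩ := structure_enumW a M hinj hM haut d s h5 hiso
  have hnorm : (⨆ j, M j : Subgroup Q).Normal := inferInstance
  obtain ⟨τ, hτ, hτ1⟩ := outerW (⨆ j, M j : Subgroup Q) a d s e h5 hn
  have hgood : ∀ j, GoodABE t (M j) := fun j => Or.inr ⟨d j, s j, h5 j, hR j, hiso j⟩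
  have hCN : ∀ z ∈ C, ∀ y ∈ (⨆ j, M j : Subgroup Q), z * y = y * z := by
    intro z hz
    have h1 : (⨆ j, M j : Subgroup Q) ≤ Subgroup.centralizer {z} := by
      apply iSup_le
      intro j y hy
      rw [Subgroup.mem_centralizer_iff]
      intro w hw
      rw [Set.mem_singleton_iff] at hw
      rw [hw]
      exact (hC z).1 hz (M j) (hM j) (hgood j) y hy
    intro y hy
    exact Subgroup.mem_centralizer_iff.1 (h1 hy) z (Set.mem_singleton z)
  have hτC : ∀ z ∈ C, τ z = 1 := by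
    intro z hz
    funext j
    apply hτ1 z j
    intro i x
    refine ⟨x, ?_⟩
    rw [hCN z hz _ (e (Pi.mulSingle j (Pi.mulSingle i x))).2, mul_inv_cancel_right]
  have hNC : ∀ x ∈ (⨆ j, M j : Subgroup Q), x ∈ C → x = 1 := fun x hx hxC =>
    yk_center _ a d s e h5 x hx (hCN x hxC)
  have hpow : ∀ h : Q, τ h = 1 → ∃ y ∈ C, ∃ x ∈ (⨆ j, M j : Subgroup Q), h ^ E = y * x := by
    intro h hh
    obtain ⟨x, hx, hxy⟩ := hτ h hh
    set c := 2 * Nat.card (MulAut (A 6)) with hc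
    set y := h ^ c * x⁻¹ with hy
    have hcomm : Commute y x := hxy x hx
    have h1 : h ^ c = y * x := by rw [hy]; group
    refine ⟨y ^ Nat.factorial (t ^ t), ?_, x ^ Nat.factorial (t ^ t), Subgroup.pow_mem _ hx _, ?_⟩
    · rw [hC]
      intro K hK hgK z hz
      rcases hgK with ⟨_, h3⟩ | h3
      · have := hK.1
        exact pow_centralize K t h3 y z hz
      · obtain ⟨j, hj⟩ := hall K hK h3
        apply wpow_comm_of
        apply hxy
        rw [← hj] at hz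
        exact (le_iSup M j) hz
    · rw [hE, pow_mul, h1, hcomm.mul_pow]
  have hNn : ((⨆ j, M j : Subgroup Q).map (QuotientGroup.mk' C)).Normal :=
    hnorm.map _ (QuotientGroup.mk'_surjective C)
  have e2 : (⨆ j, M j : Subgroup Q) ≃* (⨆ j, M j : Subgroup Q).map (QuotientGroup.mk' C) := by
    refine MulEquiv.ofBijective ((QuotientGroup.mk' C).subgroupMap (⨆ j, M j : Subgroup Q)) ⟨?_,
      MonoidHom.subgroupMap_surjective _ _⟩
    rw [injective_iff_map_eq_one]
    intro x hx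
    have h1 : (QuotientGroup.mk' C) (x : Q) = 1 := congrArg Subtype.val hx
    rw [QuotientGroup.mk'_apply, QuotientGroup.eq_one_iff] at h1
    exact Subtype.ext (hNC x x.2 h1)
  have hlift : ∀ z ∈ C, τ.rangeRestrict z = 1 := fun z hz => Subtype.ext (hτC z hz)
  have h1 : oo (Q ⧸ C) ≤ oo τ.range *
      (E * oo ((⨆ j, M j : Subgroup Q).map (QuotientGroup.mk' C))) := by
    refine oo_le_outerT ((⨆ j, M j : Subgroup Q).map (QuotientGroup.mk' C))
      (QuotientGroup.lift C τ.rangeRestrict hlift) E hE1 ?_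
    intro q
    refine QuotientGroup.induction_on q ?_
    intro h hh
    have h2 : τ.rangeRestrict h = 1 := hh
    obtain ⟨y, hy, x, hx, hyx⟩ := hpow h (congrArg Subtype.val h2)
    refine ⟨x, hx, ?_⟩
    have h3 : ((y : Q) : Q ⧸ C) = 1 := (QuotientGroup.eq_one_iff y).2 hy
    rw [← QuotientGroup.mk_pow, hyx, QuotientGroup.mk_mul, h3, one_mul]
    rfl
  rw [← oo_congr e2, ← oo_congr e] at h1
  have hI : ∀ j, s j ≤ t * om (A (d j)) ^ 2 ∨
      (∃ n : ℕ, 0 < n ∧ n ≤ s j ^ t ∧ ∀ y ∈ τ.range, y j ^ n = 1) ∨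
      2 ^ s j * autFac (M j) ≤ om (A (d j)) ^ s j := by
    intro j
    rcases hR j with h2 | h2 | h2
    · exact Or.inl h2
    · obtain ⟨n, hn0, hn, hnx⟩ := h2
      refine Or.inr (Or.inl ⟨n, hn0, hn, ?_⟩)
      rintro _ ⟨x, rfl⟩
      have h3 := hτ1 (x ^ n) j (hfac j (x ^ n) (hnx x))
      rw [map_pow] at h3
      exact h3
    · exact Or.inr (Or.inr h2)
  have h2 := hlow Q a M d s hinj hM haut h5 hiso τ.range hI
  have h3 : (oo (Q ⧸ C) : ℝ) ≤ (E : ℝ) * ((oo (∀ j, Fin (s j) → A (d j)) : ℝ) *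
      (oo τ.range : ℝ)) := by
    have : (oo (Q ⧸ C) : ℝ) ≤ ((oo τ.range *
      (E * oo (∀ j, Fin (s j) → A (d j))) : ℕ) : ℝ) := by exact_mod_cast h1
    push_cast at this
    linarith
  have h4 : (oo (Q ⧸ C) : ℝ) ^ L ≤ (E : ℝ) ^ L * ((oo (∀ j, Fin (s j) → A (d j)) : ℝ) *
      (oo τ.range : ℝ)) ^ L := by
    rw [← mul_pow]
    exact pow_le_pow_left₀ hoo0 h3 L
  calc c0 / (E : ℝ) ^ L * (oo (Q ⧸ C) : ℝ) ^ L
      ≤ (c0 / (E : ℝ) ^ L) * ((E : ℝ) ^ L * ((oo (∀ j, Fin (s j) → A (d j)) : ℝ) *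
      (oo τ.range : ℝ)) ^ L) :=
        mul_le_mul_of_nonneg_left h4 (by positivity)
    _ = c0 * ((oo (∀ j, Fin (s j) → A (d j)) : ℝ) *
      (oo τ.range : ℝ)) ^ L := by
        rw [← mul_assoc, div_mul_cancel₀]
        positivity
    _ ≤ (om Q : ℝ) := h2

end SR32
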