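import Pool.Agent.SR32.WExcS3

/-!
# SR32/YNum: numbers for minimal normal subgroups with large simple factors
-/

namespace SR32

open Filter

theorem ynum_sq (L : ℕ) (η : ℕ → ℕ) (hη : Tendsto η atTop atTop) :
    ∃ W0 : ℕ, ∀ w o m k : ℕ, W0 ≤ w → 1 ≤ k → o ^ η w ≤ w → Nat.log 2 m ^ 2 ≤ w →
      (min (o ^ k) m) ^ L ≤ Nat.multichoose w k := by
  obtain ⟨W1, hW1⟩ := (hη.eventually_ge_atTop (2 * L)).exists_forall_of_atTop
  obtain ⟨W2, hW2⟩ := exists_nat_ge (Real.exp (4 * (L : ℝ)))
  refine ⟨W1 + W2 + 1, fun w o m k hw hk ho hm => ?_⟩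
  have hL0 : (0 : ℝ) ≤ L := Nat.cast_nonneg _
  have hw1 : 1 ≤ w := by omega
  have hw0r : (0 : ℝ) < w := by exact_mod_cast hw1
  have hη1 : 2 * L ≤ η w := hW1 w (by omega)
  obtain ⟨v, hv⟩ : ∃ v, v = Real.log w := ⟨_, rfl⟩
  have hexpv : Real.exp v = w := by rw [hv, Real.exp_log hw0r]
  have hvb : 4 * (L : ℝ) ≤ v := by
    rw [hv]
    refine (Real.le_log_iff_exp_le hw0r).2 (hW2.trans ?_)
    exact_mod_cast (by omega : W2 ≤ w)
  have hx : Real.exp (2 * (v / 2)) ≤ (w : ℝ) := by
    rw [show 2 * (v / 2) = v by ring, hexpv]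
  have hgoal : ((min (o ^ k) m : ℕ) : ℝ) ^ L ≤ (Nat.multichoose w k : ℝ) := by
    rcases Nat.lt_or_ge w (k * k) with hwk | hwk
    · -- `k` large
      obtain ⟨b, hb⟩ : ∃ b, b = Nat.sqrt w := ⟨_, rfl⟩
      have hb1 : 1 ≤ b := by
        rw [hb, Nat.le_sqrt]
        omega
      have hbb : b * b ≤ w := by rw [hb]; exact Nat.sqrt_le w
      have hbk : b ≤ k := by
        by_contra hcon
        push Not at hcon
        have := Nat.mul_le_mul hcon.le hcon.le
        omega
      have h9 := vexc_mc_ge (V := w) (a' := b) (a := k) hx hb1 hbb hbk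
      refine le_trans ?_ h9
      have hlog : Nat.log 2 m ≤ b := by
        rw [hb, Nat.le_sqrt']
        exact hm
      have hm2 : m ≤ 2 ^ (2 * b) := by
        have h1 : m < 2 ^ (Nat.log 2 m + 1) := Nat.lt_pow_succ_log_self (by norm_num) m
        exact h1.le.trans (Nat.pow_le_pow_right (by norm_num) (by omega))
      have hmr : ((min (o ^ k) m : ℕ) : ℝ) ≤ Real.exp (2 * b) := by
        have h2 : ((min (o ^ k) m : ℕ) : ℝ) ≤ (2 : ℝ) ^ (2 * b) := by
          exact_mod_cast (min_le_right _ _).trans hm2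
        refine h2.trans ?_
        have h4 : Real.exp (2 * (b : ℝ)) = Real.exp 1 ^ (2 * b) := by
          rw [← Real.exp_nat_mul]
          congr 1
          push_cast
          ring
        rw [h4]
        apply pow_le_pow_left₀ (by norm_num)
        have := Real.exp_one_gt_d9
        linarith
      refine (pow_le_pow_left₀ (Nat.cast_nonneg _) hmr L).trans ?_
      rw [← Real.exp_nat_mul]
      apply Real.exp_le_exp.2
      have hb0 : (0 : ℝ) ≤ b := Nat.cast_nonneg _
      have h5 := mul_le_mul_of_nonneg_left hvb hb0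
      linarith
    · -- `k` small
      have h9 := vexc_mc_ge (V := w) (a' := k) (a := k) hx hk hwk le_rfl
      refine le_trans ?_ h9
      have h1 : ((min (o ^ k) m : ℕ) : ℝ) ≤ (o : ℝ) ^ k := by
        exact_mod_cast min_le_left (o ^ k) m
      refine (pow_le_pow_left₀ (Nat.cast_nonneg _) h1 L).trans ?_
      rw [← pow_mul, mul_comm k L, pow_mul, Real.exp_nat_mul]
      apply pow_le_pow_left₀ (by positivity)
      have h2 : ((o : ℝ) ^ L) ^ 2 ≤ (Real.exp (v / 2)) ^ 2 := by
        rw [← Real.exp_nat_mul]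
        have h3 : ((2 : ℕ) : ℝ) * (v / 2) = v := by push_cast; ring
        rw [h3, hexpv, ← pow_mul]
        rcases Nat.eq_zero_or_pos o with h0 | h0
        · rw [h0]
          rcases Nat.eq_zero_or_pos L with h4 | h4
          · rw [h4]
            simp only [Nat.cast_zero, zero_mul, pow_zero]
            exact_mod_cast hw1
          · rw [Nat.cast_zero, zero_pow (by omega)]
            exact hw0r.le
        · have h4 : o ^ (L * 2) ≤ w :=
            (Nat.pow_le_pow_right h0 (by omega)).trans ho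
          exact_mod_cast h4
      exact (pow_le_pow_iff_left₀ (by positivity) (Real.exp_pos _).le (by norm_num)).1 h2
  exact_mod_cast hgoal

theorem ynum_one (L : ℕ) (η : ℕ → ℕ) (hη : Tendsto η atTop atTop) : ∃ W0 : ℕ,
    ∀ w o m k : ℕ, W0 ≤ w → 1 ≤ k → o ^ η w ≤ w → (Nat.log 2 m + 1) ^ 4 ≤ w →
      (min (o ^ k) m) ^ L ≤ Nat.multichoose w k := by
  obtain ⟨W0, hW0⟩ := ynum_sq L η hη
  refine ⟨W0, fun w o m k h1 h2 h3 h4 => hW0 w o m k h1 h2 h3 ?_⟩
  calc Nat.log 2 m ^ 2 ≤ (Nat.log 2 m + 1) ^ 2 := Nat.pow_le_pow_left (by omega) 2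
    _ ≤ (Nat.log 2 m + 1) ^ 4 := Nat.pow_le_pow_right (by omega) (by norm_num)
    _ ≤ w := h4

theorem ynum_two (L t : ℕ) : ∃ W0 : ℕ, ∀ w s a : ℕ, W0 ≤ w → 1 ≤ s → s ≤ t * w ^ 2 → 1 ≤ a →
    (QQ s (s * a)).card ^ L ≤ Nat.multichoose (Nat.multichoose w s) a := by
  have hL0 : (0 : ℝ) ≤ L := Nat.cast_nonneg _
  have ht0 : (0 : ℝ) ≤ t := Nat.cast_nonneg _
  obtain ⟨ε, hε⟩ : ∃ ε : ℝ, ε = 1 / (20 * (((L : ℝ) + 1) * ((t : ℝ) + 1))) := ⟨_, rfl⟩
  have hε0 : 0 < ε := by rw [hε]; positivity
  have hεt : (L : ℝ) * ε * t ≤ 1 / 20 := by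
    have : (L : ℝ) * ε * t = (L * t) / (20 * (((L : ℝ) + 1) * ((t : ℝ) + 1))) := by
      rw [hε]; ring
    rw [this, div_le_div_iff₀ (by positivity) (by norm_num)]
    nlinarith
  have hε1 : ε ≤ 1 := by
    rw [hε, div_le_one (by positivity)]
    nlinarith
  obtain ⟨C, hC⟩ := part_bound ε hε0
  obtain ⟨S, hS⟩ := exists_nat_ge (Real.exp (2 * (L * (2 * |C| + 8 + t) + 1)) +
    20 * (L * |C|) + 900)
  refine ⟨S, fun w s a hw hs hst ha => ?_⟩
  have hLC : 0 ≤ (L : ℝ) * |C| := by positivity
  have hLt : 0 ≤ (L : ℝ) * t := by positivity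
  have hexp0 := Real.exp_pos (2 * ((L : ℝ) * (2 * |C| + 8 + t) + 1))
  have hwS : (S : ℝ) ≤ w := by exact_mod_cast hw
  have hw900r : (900 : ℝ) ≤ w := by linarith
  have hw900 : 900 ≤ w := by exact_mod_cast hw900r
  have hwC : 20 * ((L : ℝ) * |C|) ≤ w := by linarith
  have hw0r : (0 : ℝ) < w := by linarith
  have hw1 : 1 ≤ w := by omega
  obtain ⟨x, hx⟩ : ∃ x, x = Real.log w / 2 := ⟨_, rfl⟩
  have hxb : (L : ℝ) * (2 * |C| + 8 + t) + 1 ≤ x := by
    have h1 : 2 * ((L : ℝ) * (2 * |C| + 8 + t) + 1) ≤ Real.log w :=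
      (Real.le_log_iff_exp_le hw0r).2 (by linarith)
    rw [hx]
    linarith
  have hx0 : 0 ≤ x := by
    have : 0 ≤ (L : ℝ) * (2 * |C| + 8 + t) := by positivity
    linarith
  have hx1w : Real.exp (2 * x) ≤ (w : ℝ) := by
    rw [hx, show 2 * (Real.log w / 2) = Real.log w by ring, Real.exp_log hw0r]
  obtain ⟨w', hw'⟩ : ∃ w', w' = Nat.sqrt w := ⟨_, rfl⟩
  have hw'1 : 30 ≤ w' := by
    rw [hw', Nat.le_sqrt]
    omega
  have hw'w : w' * w' ≤ w := by rw [hw']; exact Nat.sqrt_le w
  have hw'lt : w < (w' + 1) * (w' + 1) := by rw [hw']; exact Nat.lt_succ_sqrt w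
  have hw'r : (30 : ℝ) ≤ w' := by exact_mod_cast hw'1
  obtain ⟨V, hVd⟩ : ∃ V, V = Nat.multichoose w s := ⟨_, rfl⟩
  rw [← hVd]
  have hVw : w ≤ V := by
    have := exc_W_mono_right hw1 hs
    rwa [Nat.multichoose_one_right, ← hVd] at this
  have ha0 : (0 : ℝ) < a := by exact_mod_cast ha
  have ha1 : (1 : ℝ) ≤ a := by exact_mod_cast ha
  have hs1r : (1 : ℝ) ≤ s := by exact_mod_cast hs
  have hQE : ((QQ s (s * a)).card : ℝ) ≤ Real.exp (C + ε * Real.sqrt ((s * a : ℕ) : ℝ)) := by
    have h1 : ((QQ s (s * a)).card : ℝ) ≤ (EE (s * a)).card := by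
      exact_mod_cast QQ_le_EE s (s * a)
    exact h1.trans (hC _)
  have hQP : ∀ z : ℝ, (s : ℝ) ≤ z → ((QQ s (s * a)).card : ℝ) ≤ Real.exp z := by
    intro z hz
    have h1 : (QQ s (s * a)).card ≤ 2 ^ s :=
      (QQ_le_PP s (s * a)).trans (Nat.pow_le_pow_right (by norm_num) (wexc_PP_card s))
    have h2 : ((QQ s (s * a)).card : ℝ) ≤ (2 : ℝ) ^ s := by exact_mod_cast h1
    refine h2.trans ?_
    have h4 : Real.exp (s : ℝ) = Real.exp 1 ^ s := by
      rw [← Real.exp_nat_mul, mul_one]
    calc (2 : ℝ) ^ s ≤ Real.exp 1 ^ s := by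
          apply pow_le_pow_left₀ (by norm_num)
          have := Real.exp_one_gt_d9
          linarith
      _ = Real.exp (s : ℝ) := h4.symm
      _ ≤ Real.exp z := Real.exp_le_exp.2 hz
  have hfin : ∀ X R : ℝ, ((QQ s (s * a)).card : ℝ) ≤ Real.exp X → L * X ≤ R →
      Real.exp R ≤ (Nat.multichoose V a : ℝ) →
      (QQ s (s * a)).card ^ L ≤ Nat.multichoose V a := by
    intro X R h1 h2 h3
    have h4 : ((QQ s (s * a)).card : ℝ) ^ L ≤ (Nat.multichoose V a : ℝ) := by
      refine (pow_le_pow_left₀ (Nat.cast_nonneg _) h1 L).trans ?_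
      rw [← Real.exp_nat_mul]
      exact (Real.exp_le_exp.2 h2).trans h3
    exact_mod_cast h4
  rcases Nat.lt_or_ge w' s with hsw | hsw
  · rcases Nat.lt_or_ge w s with hsw2 | hsw2
    · -- `w < s`
      have hstr : (s : ℝ) ≤ t * (w : ℝ) ^ 2 := by exact_mod_cast hst
      have htr : (1 : ℝ) ≤ t := by
        have : t ≠ 0 := by
          intro h
          rw [h] at hst
          omega
        exact_mod_cast Nat.one_le_iff_ne_zero.2 this
      rcases Nat.lt_or_ge V (a * a) with hVa | hVa
      · -- `a` large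
        have hV6 : w ^ 4 ≤ V := by
          have h1 := exc_W_ge w 8 (by norm_num)
          have h2 : Nat.multichoose w 8 ≤ V := by
            rw [hVd]
            exact exc_W_mono_right hw1 (by omega)
          have h3 : ((w : ℝ) ^ 4) ≤ ((w : ℝ) / (8 : ℕ)) ^ 8 := by
            rw [div_pow, le_div_iff₀ (by positivity)]
            push_cast
            have h4 : (8 : ℝ) ^ 8 ≤ (w : ℝ) ^ 4 := by
              calc (8 : ℝ) ^ 8 ≤ (900 : ℝ) ^ 4 := by norm_num
                _ ≤ (w : ℝ) ^ 4 := pow_le_pow_left₀ (by norm_num) hw900r 4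
            calc (w : ℝ) ^ 4 * 8 ^ 8 ≤ (w : ℝ) ^ 4 * (w : ℝ) ^ 4 :=
                  mul_le_mul_of_nonneg_left h4 (by positivity)
              _ = (w : ℝ) ^ 8 := by ring
          have h5 : ((w ^ 4 : ℕ) : ℝ) ≤ (V : ℝ) := by
            push_cast
            exact h3.trans (h1.trans (by exact_mod_cast h2))
          exact_mod_cast h5
        have h7 : w ^ 2 * w ^ 2 ≤ V := by
          calc w ^ 2 * w ^ 2 = w ^ 4 := by ring
            _ ≤ V := hV6
        have h8 : w ^ 2 ≤ a := by
          by_contra hcon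
          push Not at hcon
          have := Nat.mul_le_mul hcon.le hcon.le
          omega
        have h9 := vexc_mc_ge (V := V) (a' := w ^ 2) (a := a) (x := x)
          (hx1w.trans (by exact_mod_cast hVw)) (Nat.one_le_pow _ _ (by omega)) h7 h8
        refine hfin _ _ (hQP (t * (w : ℝ) ^ 2) hstr) ?_ h9
        push_cast
        have h10 : (L : ℝ) * t ≤ x := by
          have : (L : ℝ) * (2 * |C| + 8 + t) = 2 * (L * |C|) + 8 * L + L * t := by ring
          linarith
        have h11 := mul_le_mul_of_nonneg_left h10 (show (0 : ℝ) ≤ (w : ℝ) ^ 2 by positivity)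
        linarith
      · -- `a` small
        have hlog2 : 0 < Real.log 2 := Real.log_pos (by norm_num)
        have hl := Real.log_two_gt_d9
        have htwo : ∀ n : ℕ, ((2 : ℝ) ^ n) = Real.exp (Real.log 2 * n) := fun n => by
          rw [Real.exp_mul, Real.exp_log (by norm_num), Real.rpow_natCast]
        have hV5 : Real.exp (2 * (Real.log 2 * (((w : ℝ) - 1) / 4))) ≤ (V : ℝ) := by
          have hh1 : 1 ≤ w / 2 := by omega
          have h2 : ((w : ℝ) - 1) / 2 ≤ ((w / 2 : ℕ) : ℝ) := by
            have : w ≤ 2 * (w / 2) + 1 := by omega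
            have h3 : (w : ℝ) ≤ 2 * ((w / 2 : ℕ) : ℝ) + 1 := by exact_mod_cast this
            linarith
          have hh0 : (0 : ℝ) < ((w / 2 : ℕ) : ℝ) := by exact_mod_cast hh1
          calc Real.exp (2 * (Real.log 2 * (((w : ℝ) - 1) / 4)))
              = Real.exp (Real.log 2 * (((w : ℝ) - 1) / 2)) := by congr 1; ring
            _ ≤ Real.exp (Real.log 2 * ((w / 2 : ℕ) : ℝ)) :=
                Real.exp_le_exp.2 (mul_le_mul_of_nonneg_left h2 hlog2.le)
            _ = (2 : ℝ) ^ (w / 2) := (htwo _).symm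
            _ ≤ ((w : ℝ) / ((w / 2 : ℕ) : ℝ)) ^ (w / 2) := by
                apply pow_le_pow_left₀ (by norm_num)
                rw [le_div_iff₀ hh0]
                have : 2 * (w / 2) ≤ w := by omega
                exact_mod_cast this
            _ ≤ (Nat.multichoose w (w / 2) : ℝ) := exc_W_ge _ _ hh1
            _ ≤ (V : ℝ) := by
                rw [hVd]
                exact_mod_cast exc_W_mono_right hw1 (by omega)
        have h9 := vexc_mc_ge (V := V) (a' := a) (a := a) hV5 ha hVa le_rfl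
        have hsqa : Real.sqrt ((s * a : ℕ) : ℝ) ≤ t * (a * w) := by
          rw [Real.sqrt_le_left (by positivity)]
          push_cast
          calc (s : ℝ) * a ≤ (t * (w : ℝ) ^ 2) * a := mul_le_mul_of_nonneg_right hstr ha0.le
            _ ≤ (t * (w : ℝ) ^ 2) * (a * (t * a)) := by
                apply mul_le_mul_of_nonneg_left _ (by positivity)
                have : 1 ≤ (t : ℝ) * a := by nlinarith
                nlinarith
            _ = (t * (a * w)) ^ 2 := by ring
        have hQ : ((QQ s (s * a)).card : ℝ) ≤ Real.exp (|C| + ε * (t * (a * w))) := by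
          refine hQE.trans (Real.exp_le_exp.2 ?_)
          have := mul_le_mul_of_nonneg_left hsqa hε0.le
          have := le_abs_self C
          linarith
        refine hfin _ _ hQ ?_ h9
        have h12 : (0 : ℝ) ≤ a * w := by positivity
        have h13 := mul_le_mul_of_nonneg_right hεt h12
        have h14 : (w : ℝ) ≤ a * w := by nlinarith
        have h10 : 0.12 * (w : ℝ) ≤ Real.log 2 * (((w : ℝ) - 1) / 4) := by nlinarith
        have h11 := mul_le_mul_of_nonneg_left h10 ha0.le
        calc (L : ℝ) * (|C| + ε * (t * (a * w))) = L * |C| + L * ε * t * (a * w) := by ring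
          _ ≤ w / 20 + 1 / 20 * (a * w) := by linarith
          _ ≤ a * (0.12 * w) := by linarith
          _ ≤ _ := h11
    · -- `w' < s ≤ w`
      have hswr : (s : ℝ) ≤ w := by exact_mod_cast hsw2
      rcases Nat.lt_or_ge V (a * a) with hVa | hVa
      · have hV4 : w * w ≤ V := by
          have h1 := exc_W_ge w 4 (by norm_num)
          have h2 : Nat.multichoose w 4 ≤ V := by
            rw [hVd]
            exact exc_W_mono_right hw1 (by omega)
          have h3 : ((w : ℝ) * w) ≤ ((w : ℝ) / (4 : ℕ)) ^ 4 := by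
            rw [div_pow, le_div_iff₀ (by positivity)]
            push_cast
            have h4 : (4 : ℝ) ^ 4 ≤ (w : ℝ) * w := by nlinarith
            calc (w : ℝ) * w * 4 ^ 4 ≤ ((w : ℝ) * w) * ((w : ℝ) * w) :=
                  mul_le_mul_of_nonneg_left h4 (by positivity)
              _ = (w : ℝ) ^ 4 := by ring
          have h5 : ((w * w : ℕ) : ℝ) ≤ (V : ℝ) := by
            push_cast
            exact h3.trans (h1.trans (by exact_mod_cast h2))
          exact_mod_cast h5
        have h8 : w ≤ a := by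
          by_contra hcon
          push Not at hcon
          have := Nat.mul_le_mul hcon.le hcon.le
          omega
        have h9 := vexc_mc_ge (V := V) (a' := w) (a := a) (x := x)
          (hx1w.trans (by exact_mod_cast hVw)) hw1 hV4 h8
        refine hfin _ _ (hQP w hswr) ?_ h9
        have h10 : (L : ℝ) ≤ x := by
          have : (L : ℝ) * (2 * |C| + 8 + t) = 2 * (L * |C|) + 8 * L + L * t := by ring
          linarith
        have h11 := mul_le_mul_of_nonneg_left h10 hw0r.le
        linarith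
      · have hV3 : Real.exp (2 * ((w' : ℝ) * x / 2)) ≤ (V : ℝ) := by
          have := vexc_mc_ge (V := w) (a' := w') (a := s) (x := x) hx1w (by omega) hw'w hsw.le
          rw [show 2 * ((w' : ℝ) * x / 2) = (w' : ℝ) * x by ring, hVd]
          exact this
        have h9 := vexc_mc_ge (V := V) (a' := a) (a := a) hV3 ha hVa le_rfl
        have hsqa : Real.sqrt ((s * a : ℕ) : ℝ) ≤ 2 * (a * w') := by
          rw [Real.sqrt_le_left (by positivity)]
          push_cast
          have h1 : (w : ℝ) ≤ ((w' : ℝ) + 1) * ((w' : ℝ) + 1) := by exact_mod_cast hw'lt.le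
          have h2 : ((w' : ℝ) + 1) * ((w' : ℝ) + 1) ≤ 4 * (w' * w') := by nlinarith
          calc (s : ℝ) * a ≤ (4 * ((w' : ℝ) * w')) * a :=
                mul_le_mul_of_nonneg_right (hswr.trans (h1.trans h2)) ha0.le
            _ ≤ (4 * ((w' : ℝ) * w')) * (a * a) := by
                apply mul_le_mul_of_nonneg_left _ (by positivity)
                nlinarith
            _ = (2 * (a * w')) ^ 2 := by ring
        have hQ : ((QQ s (s * a)).card : ℝ) ≤ Real.exp (|C| + 2 * (a * w')) := by
          refine hQE.trans (Real.exp_le_exp.2 ?_)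
          have h1 : ε * Real.sqrt ((s * a : ℕ) : ℝ) ≤ 1 * (2 * (a * w')) :=
            mul_le_mul hε1 hsqa (Real.sqrt_nonneg _) (by norm_num)
          have := le_abs_self C
          linarith
        refine hfin _ _ hQ ?_ h9
        have h12 : (1 : ℝ) ≤ a * w' := by nlinarith
        have h13 : (L : ℝ) * |C| ≤ (L * |C|) * (a * w') := by nlinarith
        have h10 : (L : ℝ) * |C| + 2 * L ≤ x / 2 := by
          have : (L : ℝ) * (2 * |C| + 8 + t) = 2 * (L * |C|) + 8 * L + L * t := by ring
          linarith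
        have h11 := mul_le_mul_of_nonneg_left h10 (show (0 : ℝ) ≤ a * w' by linarith)
        linarith
  · -- `s ≤ w'`
    have hswr : (s : ℝ) ≤ w' := by exact_mod_cast hsw
    rcases Nat.lt_or_ge V (a * a) with hVa | hVa
    · have h8 : w' ≤ a := by
        by_contra hcon
        push Not at hcon
        have := Nat.mul_le_mul hcon.le hcon.le
        omega
      have h9 := vexc_mc_ge (V := V) (a' := w') (a := a) (x := x)
        (hx1w.trans (by exact_mod_cast hVw)) (by omega) (hw'w.trans hVw) h8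
      refine hfin _ _ (hQP w' hswr) ?_ h9
      have h10 : (L : ℝ) ≤ x := by
        have : (L : ℝ) * (2 * |C| + 8 + t) = 2 * (L * |C|) + 8 * L + L * t := by ring
        linarith
      have h11 := mul_le_mul_of_nonneg_left h10 (show (0 : ℝ) ≤ w' by linarith)
      linarith
    · -- both small
      have hss : s * s ≤ w := by
        have := Nat.mul_le_mul hsw hsw
        omega
      have hV1 : Real.exp (2 * ((s : ℝ) * x / 2)) ≤ (V : ℝ) := by
        have := vexc_mc_ge (V := w) (a' := s) (a := s) (x := x) hx1w hs hss le_rfl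
        rw [show 2 * ((s : ℝ) * x / 2) = (s : ℝ) * x by ring, hVd]
        exact this
      have h9 := vexc_mc_ge (V := V) (a' := a) (a := a) hV1 ha hVa le_rfl
      have hsa : (1 : ℝ) ≤ (s : ℝ) * a := by nlinarith
      have hQ : ((QQ s (s * a)).card : ℝ) ≤ Real.exp (|C| + s * a) := by
        refine hQE.trans (Real.exp_le_exp.2 ?_)
        have h1 : Real.sqrt ((s * a : ℕ) : ℝ) ≤ s * a := by
          rw [Real.sqrt_le_left (by positivity)]
          push_cast
          nlinarith
        have h2 : ε * Real.sqrt ((s * a : ℕ) : ℝ) ≤ 1 * (s * a) :=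
          mul_le_mul hε1 h1 (Real.sqrt_nonneg _) (by norm_num)
        have := le_abs_self C
        linarith
      refine hfin _ _ hQ ?_ h9
      have h13 : (L : ℝ) * |C| ≤ (L * |C|) * (s * a) := by nlinarith
      have h10 : (L : ℝ) * |C| + L ≤ x / 2 := by
        have : (L : ℝ) * (2 * |C| + 8 + t) = 2 * (L * |C|) + 8 * L + L * t := by ring
        linarith
      have h11 := mul_le_mul_of_nonneg_left h10 (show (0 : ℝ) ≤ s * a by linarith)
      linarith

end SR32
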