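import Pool.Agent.SR32.WEnum
import Pool.Agent.SR32.DefsZ

/-!
# SR32/XOrb: orbits on colourings, for a direct power of an arbitrary nonabelian simple group (helper97)
-/

set_option autoImplicit false

namespace SR32

universe u

open MulAction

theorem xorb_aux {H : Type u} [Group H] {M : Subgroup H} {S : Type u} [Group S]
    [hS : IsSimpleGroup S] (hc : Subgroup.center S = ⊥) {s : ℕ} (e : M ≃* (Fin s → S)) (φ : H ≃* H) (hφ : M.map φ.toMonoidHom = M) :
    ∃ (σ : Equiv.Perm (Fin s)) (τ : Fin s → (S ≃* S)), ∀ x y : M, φ x = y →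
      ∀ i, e y (σ i) = τ i (e x i) := by
  let ψ : M ≃* M := (φ.subgroupMap M).trans (MulEquiv.subgroupCongr hφ)
  let χ : (Fin s → S) ≃* (Fin s → S) := (e.symm.trans ψ).trans e
  obtain ⟨σ, τ, hτ⟩ := aut_pi (fun _ : Fin s => S) (fun _ => hc) χ
  refine ⟨σ, τ, fun x y hxy i => ?_⟩
  have h1 : ψ x = y := Subtype.ext hxy
  have h2 : χ (e x) = e y := by
    show e (ψ (e.symm (e x))) = e y
    rw [MulEquiv.symm_apply_apply, h1]
  rw [← h2]
  exact hτ (e x) i

theorem xorb_factor {H : Type u} [Group H] {M : Subgroup H} {S : Type u} [Group S]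
    [hS : IsSimpleGroup S] {s : ℕ} (e : M ≃* (Fin s → S)) (i : Fin s) :
    ∃ K : {K : Subgroup H // K ≤ M ∧ IsMinNormal (K.subgroupOf M)},
      ∀ x : M, (x : H) ∈ K.1 ↔ ∃ u : S, e x = Pi.mulSingle i u := by
  set R : Subgroup M :=
    (MonoidHom.mulSingle (fun _ : Fin s => S) i).range.comap e.toMonoidHom with hR
  have hRmin : IsMinNormal R := minNormal_comap e (minNormal_single i)
  have hSR : (R.map M.subtype).subgroupOf M = R :=
    Subgroup.comap_map_eq_self_of_injective M.subtype_injective R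
  refine ⟨⟨R.map M.subtype, Subgroup.map_subtype_le R, by rw [hSR]; exact hRmin⟩, fun x => ?_⟩
  constructor
  · rintro ⟨z, ⟨u, hu⟩, hz⟩
    have : z = x := Subtype.ext hz
    rw [← this]
    exact ⟨u, hu.symm⟩
  · rintro ⟨u, hu⟩
    exact ⟨x, ⟨u, hu.symm⟩, rfl⟩

theorem vorb_geS {H : Type u} [Group H] [Finite H] (M : Subgroup H) (hM : IsMinNormal M)
    {S : Type u} [Group S] [Finite S] [hSs : IsSimpleGroup S] (hc : Subgroup.center S = ⊥) {s : ℕ}
    (e : M ≃* (Fin s → S)) : om S ^ s ≤ autFac M * vorb M := by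
  classical
  let J : Type u := {K : Subgroup H // K ≤ M ∧ IsMinNormal (K.subgroupOf M)}
  let AF : Set (J → Subgroup H) := {f | ∃ φ : H ≃* H, M.map φ.toMonoidHom = M ∧
    ∀ K, f K = (K : Subgroup H).map φ.toMonoidHom}
  let V : Set (orbitRel.Quotient (MulAut H) H) :=
    (fun x : H => (Quotient.mk'' x : orbitRel.Quotient (MulAut H) H)) '' (M : Set H)
  have hfin1 : Finite (orbitRel.Quotient (MulAut H) H) := Quotient.finite _
  let Cq : Type u := orbitRel.Quotient (MulAut S) S
  have hfin2 : Finite Cq := Quotient.finite _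
  have hr : ∀ o : V, ∃ r : M, (Quotient.mk'' (r : H) : orbitRel.Quotient (MulAut H) H) = o.1 := by
    rintro ⟨o, x, hx, rfl⟩
    exact ⟨⟨x, hx⟩, rfl⟩
  choose r hr using hr
  let X : (Fin s → Cq) → M := fun c => e.symm (fun i => Quotient.out (c i))
  have hX : ∀ c i, (Quotient.mk'' (e (X c) i) : Cq) = c i := by
    intro c i
    have h1 : e (X c) i = Quotient.out (c i) := by
      show e (e.symm (fun i => Quotient.out (c i))) i = Quotient.out (c i)
      rw [MulEquiv.apply_symm_apply]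
    rw [h1]
    exact Quotient.out_eq' (c i)
  let o : (Fin s → Cq) → V := fun c => ⟨Quotient.mk'' (X c : H), (X c : H), (X c).2, rfl⟩
  have hφ : ∀ c, ∃ φ : H ≃* H, φ (r (o c) : H) = (X c : H) ∧ M.map φ.toMonoidHom = M := by
    intro c
    have h3 : (orbitRel (MulAut H) H) ((X c : M) : H) ((r (o c) : M) : H) :=
      Quotient.exact' (hr (o c)).symm
    rw [orbitRel_apply] at h3
    obtain ⟨φ, hφ⟩ := h3
    have hφ' : φ (r (o c) : H) = (X c : H) := hφ
    by_cases hX1 : X c = 1
    · refine ⟨MulEquiv.refl H, ?_, ?_⟩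
      · have h4 : φ (r (o c) : H) = φ 1 := by
          rw [hφ', hX1, map_one]
          rfl
        have h5 : (r (o c) : H) = 1 := φ.injective h4
        rw [hX1]
        exact h5
      · ext x
        constructor
        · rintro ⟨y, hy, rfl⟩
          exact hy
        · intro hx
          exact ⟨x, hx, rfl⟩
    · refine ⟨φ, hφ', ?_⟩
      have hM' := st_map_min φ hM
      have hn : (M ⊓ M.map φ.toMonoidHom).Normal := by
        have := hM.1
        have := hM'.1
        infer_instance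
      rcases hM.2.2 _ hn inf_le_left with h | h
      · exfalso
        have h1 : ((X c : M) : H) ∈ M ⊓ M.map φ.toMonoidHom :=
          Subgroup.mem_inf.2 ⟨(X c).2, by rw [← hφ']; exact Subgroup.mem_map_of_mem _ (r (o c)).2⟩
        rw [h, Subgroup.mem_bot] at h1
        exact hX1 (Subtype.ext h1)
      · rcases hM'.2.2 M hM.1 (inf_eq_left.1 h) with h' | h'
        · exact absurd h' hM.2.1
        · exact h'.symm
  choose φ hφ1 hφ2 using hφ
  let F : (Fin s → Cq) → AF := fun c =>
    ⟨fun K => K.1.map (φ c).toMonoidHom, φ c, hφ2 c, fun K => rfl⟩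
  have hinj : Function.Injective (fun c => (F c, o c)) := by
    intro c c' h
    have hF : F c = F c' := congrArg Prod.fst h
    have ho : o c = o c' := congrArg Prod.snd h
    have hFS : ∀ K : J, K.1.map (φ c).toMonoidHom = K.1.map (φ c').toMonoidHom := fun K =>
      congrFun (congrArg Subtype.val hF) K
    obtain ⟨σ, τ, hτ⟩ := xorb_aux hc e (φ c) (hφ2 c)
    obtain ⟨σ', τ', hτ'⟩ := xorb_aux hc e (φ c') (hφ2 c')
    have hσ : ∀ i, σ i = σ' i := by
      intro i
      by_contra hne
      obtain ⟨u, hu⟩ := exists_ne (1 : S)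
      obtain ⟨K, hK⟩ := xorb_factor e i
      have hx1 : e (e.symm (Pi.mulSingle i u)) = Pi.mulSingle i u := e.apply_symm_apply _
      have hxS : ((e.symm (Pi.mulSingle i u) : M) : H) ∈ K.1 := (hK _).2 ⟨u, hx1⟩
      have h1 : (φ c) ((e.symm (Pi.mulSingle i u) : M) : H) ∈ K.1.map (φ c').toMonoidHom := by
        rw [← hFS K]
        exact Subgroup.mem_map_of_mem _ hxS
      obtain ⟨z, hz, hz2⟩ := h1
      have hzM : z ∈ M := K.2.1 hz
      obtain ⟨u', hu'⟩ := (hK ⟨z, hzM⟩).1 hz
      have hyM : (φ c) ((e.symm (Pi.mulSingle i u) : M) : H) ∈ M := by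
        have h2 : (φ c) ((e.symm (Pi.mulSingle i u) : M) : H) ∈ M.map (φ c).toMonoidHom :=
          Subgroup.mem_map_of_mem _ (e.symm (Pi.mulSingle i u)).2
        rw [hφ2 c] at h2
        exact h2
      have h3 := hτ (e.symm (Pi.mulSingle i u)) ⟨_, hyM⟩ rfl i
      have h4 := hτ' ⟨z, hzM⟩ ⟨_, hyM⟩ hz2 (σ'.symm (σ i))
      rw [hx1, Pi.mulSingle_eq_same] at h3
      have hki : σ'.symm (σ i) ≠ i := by
        intro hk
        apply hne
        rw [← hk, Equiv.apply_symm_apply, hk]
      rw [Equiv.apply_symm_apply, hu', Pi.mulSingle_eq_of_ne hki, map_one, h3] at h4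
      exact hu ((τ i).map_eq_one_iff.1 h4)
    funext j
    have hcl : ∀ (τ0 : S ≃* S) (a : S),
        (Quotient.mk'' (τ0 a) : Cq) = Quotient.mk'' a := by
      intro τ0 a
      refine Quotient.sound' ?_
      exact ⟨τ0, rfl⟩
    have h1 := hτ (r (o c)) (X c) (hφ1 c) (σ.symm j)
    have h2 := hτ' (r (o c')) (X c') (hφ1 c') (σ.symm j)
    rw [← hσ, Equiv.apply_symm_apply, ← ho] at h2
    rw [Equiv.apply_symm_apply] at h1
    rw [← hX c j, ← hX c' j, h1, h2, hcl, hcl]
  have h1 : Nat.card (Fin s → Cq) ≤ Nat.card (AF × V) :=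
    Nat.card_le_card_of_injective _ hinj
  have h2 : Nat.card (Fin s → Cq) = om S ^ s := by
    rw [Nat.card_fun, Nat.card_fin]
    rfl
  rw [h2, Nat.card_prod, Nat.card_coe_set_eq, Nat.card_coe_set_eq] at h1
  exact h1

end SR32
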