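import Pool.Agent.SR32.YOrd

/-!
# Orders of elements of products of automorphism groups: the small factors cost only a constant
-/

namespace SR32

universe u

theorem xo_le_of_pow {G : Type u} [Group G] [Finite G] {n : ℕ} (hn : n ≠ 0)
    (h : ∀ x : G, x ^ n = 1) : oo G ≤ n := by
  have h1 : oo G ≤ n.divisors.card := by
    unfold oo
    rw [← Set.ncard_coe_finset]
    refine Set.ncard_le_ncard ?_ (Finset.finite_toSet _)
    rintro _ ⟨x, rfl⟩
    rw [Finset.mem_coe, Nat.mem_divisors]
    exact ⟨orderOf_dvd_of_pow_eq_one (h x), hn⟩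
  exact h1.trans (Nat.card_divisors_le_self _)

theorem xo_one_le {G : Type u} [Group G] [Finite G] : 1 ≤ oo G := by
  unfold oo
  exact (Set.ncard_pos (Set.finite_range _)).2 ⟨_, ⟨1, rfl⟩⟩

theorem xo_small {S : Type u} [Group S] [Finite S] {T : ℕ} (hS : Nat.card S ≤ T)
    (φ : MulAut S) : φ ^ (T ^ T).factorial = 1 := by
  have hfin : Finite (MulAut S) := yo_aut_finite S
  have h1 : Nat.card (MulAut S) ≤ Nat.card S ^ Nat.card S := by
    rw [← Nat.card_fun]
    exact Nat.card_le_card_of_injective (fun φ : MulAut S => (φ : S → S))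
      DFunLike.coe_injective
  have h0 : 0 < Nat.card S := Nat.card_pos
  have h2 : Nat.card S ^ Nat.card S ≤ T ^ T :=
    (Nat.pow_le_pow_left hS _).trans (Nat.pow_le_pow_right (h0.trans_le hS) hS)
  have h3 : orderOf φ ≤ T ^ T := (orderOf_le_card.trans h1).trans h2
  exact orderOf_dvd_iff_pow_eq_one.1 (Nat.dvd_factorial (orderOf_pos φ) h3)

theorem oo_aut_groupedX (T : ℕ) : ∃ K : ℕ, 0 < K ∧ ∀ {a : ℕ} (S : Fin a → Type u)
    [∀ j, Group (S j)] [∀ j, Finite (S j)] (s c : Fin a → ℕ) (o m : ℕ × ℕ → ℕ)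
    (g : ℕ × ℕ → Prop) [DecidablePred g],
    (∀ j, o (c j, s j) = oo (MulAut (S j))) →
    (∀ j, m (c j, s j) = Nat.card (MulAut (S j))) →
    (∀ j, g (c j, s j) → Nat.card (S j) ≤ T) →
    oo (∀ j, (Fin (s j) → MulAut (S j))) ≤ K *
      ∏ p ∈ Finset.univ.image (fun j => (c j, s j)),
        if g p then 1 else
          min (o p ^ (p.2 * (Finset.univ.filter (fun j => (c j, s j) = p)).card)) (m p) := by
  refine ⟨(T ^ T).factorial, Nat.factorial_pos _, ?_⟩
  intro a S _ _ s c o m g _ ho hm hg
  have hfin : ∀ j, Finite (MulAut (S j)) := fun j => yo_aut_finite (S j)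
  let cc : Fin a → Option (ℕ × ℕ) := fun j =>
    if g (c j, s j) then none else some (c j, s j)
  let F : Option (ℕ × ℕ) → ℕ := fun p =>
    oo (∀ j : {j : Fin a // cc j = p}, (Fin (s j) → MulAut (S j)))
  have hF1 : ∀ p, 1 ≤ F p := fun p => xo_one_le
  have hcn : ∀ j, cc j = none → Nat.card (S j) ≤ T := by
    intro j hj
    by_contra h
    have h' : ¬ g (c j, s j) := fun hh => h (hg j hh)
    simp only [cc, if_neg h'] at hj
    exact Option.some_ne_none _ hj
  have hcs : ∀ j q, cc j = some q → ¬ g (c j, s j) ∧ (c j, s j) = q := by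
    intro j q hj
    by_cases h : g (c j, s j)
    · simp only [cc, if_pos h] at hj
      exact absurd hj.symm (Option.some_ne_none _)
    · simp only [cc, if_neg h] at hj
      exact ⟨h, Option.some_injective _ hj⟩
  have h0 : oo (∀ j, (Fin (s j) → MulAut (S j))) ≤ ∏ p ∈ Finset.univ.image cc, F p :=
    yo_grouped cc (fun j => (Fin (s j) → MulAut (S j)))
  set P : Finset (ℕ × ℕ) := Finset.univ.image (fun j => (c j, s j)) with hP
  have hsub : Finset.univ.image cc ⊆
      insert none ((P.filter (fun q => ¬ g q)).image some) := by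
    intro p hp
    obtain ⟨j, -, hj⟩ := Finset.mem_image.1 hp
    rcases p with _ | q
    · exact Finset.mem_insert_self _ _
    · refine Finset.mem_insert_of_mem (Finset.mem_image_of_mem _ ?_)
      obtain ⟨h1, h2⟩ := hcs j q hj
      refine Finset.mem_filter.2 ⟨?_, ?_⟩
      · rw [hP, ← h2]
        exact Finset.mem_image_of_mem _ (Finset.mem_univ j)
      · rw [← h2]
        exact h1
  have h1 : ∏ p ∈ Finset.univ.image cc, F p ≤
      F none * ∏ q ∈ P.filter (fun q => ¬ g q), F (some q) := by
    refine (Finset.prod_le_prod_of_subset_of_one_le' hsub fun p _ _ => hF1 p).trans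
      (le_of_eq ?_)
    rw [Finset.prod_insert (by simp), Finset.prod_image]
    intro x _ y _ hxy
    exact Option.some_injective _ hxy
  have h2 : F none ≤ (T ^ T).factorial := by
    refine xo_le_of_pow (Nat.factorial_pos _).ne' fun x => ?_
    funext j i
    exact xo_small (hcn j j.2) (x j i)
  have h3 : ∀ q ∈ P.filter (fun q => ¬ g q), F (some q) ≤
      min (o q ^ (q.2 * (Finset.univ.filter (fun j => (c j, s j) = q)).card)) (m q) := by
    intro q hq
    obtain ⟨hqP, hqz⟩ := Finset.mem_filter.1 hq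
    have hs : ∀ j : {j : Fin a // cc j = some q}, s j = q.2 := fun j =>
      congrArg Prod.snd (hcs j q j.2).2
    have ho' : ∀ j : {j : Fin a // cc j = some q}, oo (MulAut (S j)) = o q := fun j => by
      rw [← ho, (hcs j q j.2).2]
    have hm' : ∀ j : {j : Fin a // cc j = some q}, Nat.card (MulAut (S j)) = m q := fun j => by
      rw [← hm, (hcs j q j.2).2]
    obtain ⟨j0, -, hj0⟩ := Finset.mem_image.1 hqP
    have hcj0 : cc j0 = some q := by
      have h : ¬ g (c j0, s j0) := by
        rw [hj0]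
        exact hqz
      simp only [cc, if_neg h]
      rw [hj0]
    have hoq : 1 ≤ o q := by
      rw [← ho' ⟨j0, hcj0⟩]
      exact xo_one_le
    refine le_min ?_ ?_
    · have h1 : oo (∀ j : {j : Fin a // cc j = some q}, (Fin (s j) → MulAut (S j))) ≤
          ∏ j : {j : Fin a // cc j = some q}, oo (Fin (s j) → MulAut (S j)) :=
        oo_pi_le (fun j : {j : Fin a // cc j = some q} => (Fin (s j) → MulAut (S j)))
      refine h1.trans ?_
      have h2 : ∀ j : {j : Fin a // cc j = some q},
          oo (Fin (s j) → MulAut (S j)) ≤ o q ^ q.2 := by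
        intro j
        have h3 : oo (Fin (s j) → MulAut (S j)) ≤ ∏ _i : Fin (s j), oo (MulAut (S j)) :=
          oo_pi_le (fun _i : Fin (s j) => MulAut (S j))
        refine h3.trans (le_of_eq ?_)
        rw [Finset.prod_const, Finset.card_univ, Fintype.card_fin, ho' j, hs j]
      refine (Finset.prod_le_prod (fun _ _ => Nat.zero_le _) fun j _ => h2 j).trans ?_
      rw [Finset.prod_const, Finset.card_univ, Fintype.card_subtype, ← pow_mul]
      refine Nat.pow_le_pow_right hoq (Nat.mul_le_mul_left _ (Finset.card_le_card ?_))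
      intro j hj
      rw [Finset.mem_filter] at hj ⊢
      exact ⟨hj.1, (hcs j q hj.2).2⟩
    · have hm0 : m q ≠ 0 := by
        rw [← hm' ⟨j0, hcj0⟩]
        exact Nat.card_pos.ne'
      refine xo_le_of_pow hm0 fun x => ?_
      funext j i
      show (x j i) ^ (m q) = 1
      rw [← hm' j]
      exact pow_card_eq_one'
  refine h0.trans (h1.trans (Nat.mul_le_mul h2 ?_))
  refine (Finset.prod_le_prod (fun _ _ => Nat.zero_le _) h3).trans (le_of_eq ?_)
  rw [Finset.prod_filter]
  refine Finset.prod_congr rfl fun q _ => ?_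
  by_cases h : g q
  · rw [if_neg (not_not.2 h), if_pos h]
  · rw [if_pos h, if_neg h]

/-- The same with the orders of the simple factors given by a function of the type. -/
theorem oo_aut_groupedXz (T : ℕ) : ∃ K : ℕ, 1 ≤ K ∧ ∀ (a : ℕ) (S : Fin a → Type u)
    [∀ j, Group (S j)] [∀ j, Finite (S j)] (s c : Fin a → ℕ) (o m z : ℕ × ℕ → ℕ),
    (∀ j, o (c j, s j) = oo (MulAut (S j))) →
    (∀ j, m (c j, s j) = Nat.card (MulAut (S j))) →
    (∀ j, z (c j, s j) = Nat.card (S j)) →
    oo (∀ j, (Fin (s j) → MulAut (S j))) ≤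
      K * ∏ p ∈ Finset.univ.image (fun j => (c j, s j)),
        (if z p ≤ T then 1 else
          min (o p ^ (p.2 * (Finset.univ.filter (fun j => (c j, s j) = p)).card)) (m p)) := by
  obtain ⟨K, hK, h⟩ := oo_aut_groupedX.{u} T
  exact ⟨K, hK, fun a S _ _ s c o m z ho hm hz =>
    h S s c o m (fun p => z p ≤ T) ho hm (fun j hj => (hz j).symm.le.trans hj)⟩

end SR32
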