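import Pool.Agent.SR32.DefsX

/-!
# SR32/XThree: a finite nonabelian simple group has at least three automorphism classes
-/

set_option autoImplicit false

namespace SR32

universe u

theorem xthree_order {S : Type u} [Group S] {x y : S}
    (h : (Quotient.mk'' x : MulAction.orbitRel.Quotient (MulAut S) S) = Quotient.mk'' y) :
    orderOf x = orderOf y := by
  have h1 : MulAction.orbitRel (MulAut S) S x y := Quotient.exact' h
  rw [MulAction.orbitRel_apply] at h1
  obtain ⟨φ, hφ⟩ := h1
  have h2 : φ y = x := hφ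
  rw [← h2]
  exact orderOf_injective φ.toMonoidHom φ.injective y

theorem three_le_om {S : Type u} [Group S] [Finite S] (hS : IsSimpleGroup S)
    (hna : ∃ x y : S, x * y ≠ y * x) : 3 ≤ om S := by
  classical
  have hnt : Nontrivial S := hS.toNontrivial
  have hn1 : 1 < Nat.card S := Finite.one_lt_card
  obtain ⟨p, hp, hpd⟩ : ∃ p, p.Prime ∧ p ∣ Nat.card S :=
    ⟨_, Nat.minFac_prime hn1.ne', Nat.minFac_dvd _⟩
  obtain ⟨q, hq, hqd, hqp⟩ : ∃ q, q.Prime ∧ q ∣ Nat.card S ∧ q ≠ p := by
    by_contra hcon
    have h1 : ∀ {d : ℕ}, d.Prime → d ∣ Nat.card S → d = p := by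
      intro d hd hdd
      by_contra h
      exact hcon ⟨d, hd, hdd, h⟩
    have h2 := Nat.eq_prime_pow_of_unique_prime_dvd (by omega) h1
    have hpf : Fact p.Prime := ⟨hp⟩
    have h3 : IsPGroup p S := IsPGroup.of_card h2
    have h4 : Nontrivial (Subgroup.center S) := h3.center_nontrivial
    rcases hS.eq_bot_or_eq_top_of_normal (Subgroup.center S) inferInstance with h5 | h5
    · rw [h5] at h4
      exact not_nontrivial _ h4
    · obtain ⟨x, y, hxy⟩ := hna
      have h6 : y ∈ Subgroup.center S := by rw [h5]; exact Subgroup.mem_top _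
      exact hxy (Subgroup.mem_center_iff.1 h6 x)
  have hpf : Fact p.Prime := ⟨hp⟩
  have hqf : Fact q.Prime := ⟨hq⟩
  obtain ⟨x, hx⟩ := exists_prime_orderOf_dvd_card' p hpd
  obtain ⟨y, hy⟩ := exists_prime_orderOf_dvd_card' q hqd
  have h1x : (Quotient.mk'' (1 : S) : MulAction.orbitRel.Quotient (MulAut S) S) ≠
      Quotient.mk'' x := by
    intro h
    have := xthree_order h
    rw [orderOf_one, hx] at this
    exact hp.one_lt.ne this
  have h1y : (Quotient.mk'' (1 : S) : MulAction.orbitRel.Quotient (MulAut S) S) ≠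
      Quotient.mk'' y := by
    intro h
    have := xthree_order h
    rw [orderOf_one, hy] at this
    exact hq.one_lt.ne this
  have hxy : (Quotient.mk'' x : MulAction.orbitRel.Quotient (MulAut S) S) ≠
      Quotient.mk'' y := by
    intro h
    have := xthree_order h
    rw [hx, hy] at this
    exact hqp this.symm
  unfold om
  have : Finite (MulAction.orbitRel.Quotient (MulAut S) S) := Quotient.finite _
  obtain ⟨ft⟩ : Nonempty (Fintype (MulAction.orbitRel.Quotient (MulAut S) S)) :=
    ⟨Fintype.ofFinite _⟩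
  rw [Nat.card_eq_fintype_card]
  have h3 : ({Quotient.mk'' (1 : S), Quotient.mk'' x, Quotient.mk'' y} :
      Finset (MulAction.orbitRel.Quotient (MulAut S) S)).card = 3 :=
    Finset.card_eq_three.2 ⟨_, _, _, h1x, h1y, hxy, rfl⟩
  rw [← h3]
  exact Finset.card_le_univ _

end SR32

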