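import Pool.Agent.SR32.XNum
import Pool.Agent.SR32.XThree
import Pool.Agent.SR32.XOrb
import Pool.Agent.SR32.XOrd
import Pool.Agent.SR32.ELowerS

/-!
# SR32/XLower: the lower bound for minimal normal subgroups with many simple factors (lowerX)
-/

namespace SR32

universe u

open Filter

theorem lowerXE (L t : ℕ) (η : ℕ → ℕ) (hη : Tendsto η atTop atTop) : ∃ s0 W0 : ℕ, ∀ T : ℕ,
    ∃ c : ℝ, 0 < c ∧
    ∀ (H : Type u) [Group H] [Finite H] (a : ℕ) (M : Fin a → Subgroup H) (S : Fin a → Type u)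
      [∀ j, Group (S j)] [∀ j, Finite (S j)] (s : Fin a → ℕ),
      Function.Injective M → (∀ j, IsMinNormal (M j)) →
      (∀ (φ : H ≃* H) (j : Fin a), ∃ k, (M j).map φ.toMonoidHom = M k) →
      (∀ j, IsSimpleGroup (S j)) → (∀ j, ∃ x y : S j, x * y ≠ y * x) →
      (∀ j, Nat.card (S j) ≤ T ∨ (Rich η (S j) ∧ W0 ≤ om (S j))) → (∀ j, s0 ≤ s j) →
      (∀ j, Nonempty (M j ≃* (Fin (s j) → S j))) →
      ∀ I : Subgroup (∀ j, Equiv.Perm (Fin (s j))),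
      (∀ j, (∃ n : ℕ, 0 < n ∧ n ≤ s j ^ t ∧ ∀ y ∈ I, y j ^ n = 1) ∨
        2 ^ s j * autFac (M j) ≤ om (S j) ^ s j) →
      c * ((oo I : ℝ) * (oo (∀ j, (Fin (s j) → MulAut (S j))) : ℝ)) ^ L ≤ (om H : ℝ) :=
  ELowerS.lowerXE_of xnum_one xnum_two three_le_om vorb_geS oo_aut_groupedX L t η hη

end SR32
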