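import Pool.Agent.SR32.StructS92
import Pool.Agent.SR32.DefsW

/-!
# Enumeration of minimal normal subgroups with their simple factors
-/

set_option autoImplicit false

namespace SR32

universe u

theorem minNormal_comap {G P : Type*} [Group G] [Group P] (φ : G ≃* P) {K : Subgroup P}
    (hK : IsMinNormal K) : IsMinNormal (K.comap φ.toMonoidHom) := by
  obtain ⟨h1, h2, h3⟩ := hK
  have hcm : ∀ L : Subgroup P, (L.comap φ.toMonoidHom).map φ.toMonoidHom = L := fun L =>
    Subgroup.map_comap_eq_self_of_surjective φ.surjective L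
  have hmc : ∀ L : Subgroup G, (L.map φ.toMonoidHom).comap φ.toMonoidHom = L := fun L =>
    Subgroup.comap_map_eq_self_of_injective φ.injective L
  refine ⟨h1.comap _, ?_, ?_⟩
  · intro h
    apply h2
    rw [← hcm K, h, Subgroup.map_bot]
  · intro M hM hMK
    have h4 : M.map φ.toMonoidHom ≤ K := by
      rw [← hcm K]
      exact Subgroup.map_mono hMK
    rcases h3 _ (hM.map _ φ.surjective) h4 with h | h
    · left
      rw [← hmc M, h]
      exact (MonoidHom.comap_bot _).trans ((MonoidHom.ker_eq_bot_iff _).2 φ.injective)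
    · right
      rw [← hmc M, h]

theorem minNormal_single {ι : Type*} [DecidableEq ι] {S : Type*} [Group S] [IsSimpleGroup S]
    (i : ι) : IsMinNormal (MonoidHom.mulSingle (fun _ : ι => S) i).range := by
  have hnorm : (MonoidHom.mulSingle (fun _ : ι => S) i).range.Normal := by
    constructor
    rintro _ ⟨x, rfl⟩ g
    refine ⟨g i * x * (g i)⁻¹, ?_⟩
    funext k
    rw [Pi.mul_apply, Pi.mul_apply, Pi.inv_apply, MonoidHom.mulSingle_apply,
      MonoidHom.mulSingle_apply]
    by_cases hk : k = i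
    · subst hk
      simp
    · rw [Pi.mulSingle_eq_of_ne hk, Pi.mulSingle_eq_of_ne hk]
      simp
  refine ⟨hnorm, ?_, ?_⟩
  · intro h
    obtain ⟨x, hx⟩ := exists_ne (1 : S)
    have h1 : MonoidHom.mulSingle (fun _ : ι => S) i x ∈ (⊥ : Subgroup (ι → S)) := by
      rw [← h]
      exact ⟨x, rfl⟩
    rw [Subgroup.mem_bot] at h1
    apply hx
    have h2 := congrFun h1 i
    rw [MonoidHom.mulSingle_apply, Pi.mulSingle_eq_same] at h2
    exact h2
  · intro K hK hKle
    have h1 : (K.comap (MonoidHom.mulSingle (fun _ : ι => S) i)).Normal := hK.comap _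
    rcases h1.eq_bot_or_eq_top with h | h
    · left
      rw [Subgroup.eq_bot_iff_forall]
      intro x hx
      obtain ⟨y, rfl⟩ := hKle hx
      have h2 : y ∈ K.comap (MonoidHom.mulSingle (fun _ : ι => S) i) := hx
      rw [h, Subgroup.mem_bot] at h2
      rw [h2, map_one]
    · right
      apply le_antisymm hKle
      rintro _ ⟨y, rfl⟩
      have h2 : y ∈ K.comap (MonoidHom.mulSingle (fun _ : ι => S) i) := by
        rw [h]; exact Subgroup.mem_top _
      exact h2

theorem structure_enumW {H : Type u} [Group H] [Finite H] (a : ℕ) (M : Fin a → Subgroup H)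
    (hMinj : Function.Injective M) (hM : ∀ j, IsMinNormal (M j))
    (haut : ∀ (φ : H ≃* H) (j : Fin a), ∃ k, (M j).map φ.toMonoidHom = M k)
    (d s : Fin a → ℕ) (h5 : ∀ j, 5 ≤ d j)
    (hψ : ∀ j, Nonempty (M j ≃* (Fin (s j) → A (d j)))) :
    (⨆ j, M j : Subgroup H).Characteristic ∧
      ∃ e : (∀ j, (Fin (s j) → A (d j))) ≃* (⨆ j, M j : Subgroup H),
        (∀ (h : H) (j : Fin a) (x : Fin (s j) → A (d j)), ∃ y : Fin (s j) → A (d j),
          h * (e (Pi.mulSingle j x) : H) * h⁻¹ = (e (Pi.mulSingle j y) : H)) ∧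
        ∀ (j : Fin a) (h : H), h ∈ FacNorm (M j) → ∀ (i : Fin (s j)) (x : A (d j)),
          ∃ y : A (d j), h * (e (Pi.mulSingle j (Pi.mulSingle i x)) : H) * h⁻¹ =
            (e (Pi.mulSingle j (Pi.mulSingle i y)) : H) := by
  classical
  have φ : ∀ j, (M j) ≃* (Fin (s j) → A (d j)) := fun j => (hψ j).some
  have hcomm : Pairwise fun i j : Fin a => ∀ x y : H, x ∈ M i → y ∈ M j → Commute x y := by
    intro i j hij
    apply Subgroup.commute_of_normal_of_disjoint _ _ (hM i).1 (hM j).1
    rw [disjoint_iff]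
    have hn : (M i ⊓ M j).Normal := by
      have := (hM i).1
      have := (hM j).1
      infer_instance
    rcases (hM i).2.2 _ hn inf_le_left with h | h
    · exact h
    · rcases (hM j).2.2 (M i) (hM i).1 (by rw [← h]; exact inf_le_right) with h' | h'
      · exact absurd h' (hM i).2.1
      · exact absurd (hMinj h') hij
  let f : (∀ j, M j) →* H := Subgroup.noncommPiCoprod hcomm
  have hf : ∀ (j : Fin a) (y : M j), f (Pi.mulSingle j y) = (y : H) := fun j y =>
    Subgroup.noncommPiCoprod_mulSingle j y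
  have hinj : Function.Injective f := by
    rw [injective_iff_map_eq_one]
    intro x hx
    funext j
    apply st_center (h5 j) (φ j)
    intro y
    have h1 : f (x * Pi.mulSingle j y * x⁻¹) = (y : H) := by
      rw [map_mul, map_mul, map_inv, hx, hf]
      group
    rw [perm_conj_single, hf] at h1
    have h2 : x j * y * (x j)⁻¹ = y := Subtype.ext h1
    calc x j * y = x j * y * (x j)⁻¹ * x j := by group
      _ = y * x j := by rw [h2]
  have hrange : f.range = ⨆ j, M j := Subgroup.noncommPiCoprod_range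
  have hchar : (⨆ j, M j : Subgroup H).Characteristic := by
    rw [Subgroup.characteristic_iff_map_le]
    intro ψ
    rw [Subgroup.map_iSup]
    apply iSup_le
    intro j
    obtain ⟨k, hk⟩ := haut ψ j
    rw [hk]
    exact le_iSup M k
  let e : (∀ j, (Fin (s j) → A (d j))) ≃* (⨆ j, M j : Subgroup H) :=
    ((MulEquiv.piCongrRight (fun j => (φ j).symm)).trans (MonoidHom.ofInjective hinj)).trans
      (MulEquiv.subgroupCongr hrange)
  have he : ∀ (j : Fin a) (x : Fin (s j) → A (d j)),
      (e (Pi.mulSingle j x) : H) = ((φ j).symm x : H) := by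
    intro j x
    show ((MonoidHom.ofInjective hinj)
      ((MulEquiv.piCongrRight (fun j => (φ j).symm)) (Pi.mulSingle j x)) : H) = _
    rw [MonoidHom.ofInjective_apply]
    have : (MulEquiv.piCongrRight (fun j => (φ j).symm)) (Pi.mulSingle j x) =
        Pi.mulSingle j ((φ j).symm x) := by
      funext k
      rw [MulEquiv.piCongrRight_apply]
      by_cases h : k = j
      · subst h
        simp
      · simp [Pi.mulSingle_eq_of_ne h]
    rw [this, hf]
  refine ⟨hchar, e, ?_, ?_⟩
  · intro h j x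
    refine ⟨φ j ⟨h * ((φ j).symm x : H) * h⁻¹, (hM j).1.conj_mem _ ((φ j).symm x).2 h⟩, ?_⟩
    rw [he, he, MulEquiv.symm_apply_apply]
  · intro j h hh i x
    have hsimple : IsSimpleGroup (A (d j)) := alternatingGroup.isSimpleGroup (by
      rw [Nat.card_eq_fintype_card, Fintype.card_fin]; exact h5 j)
    -- the simple factor
    set R : Subgroup (M j) :=
      (MonoidHom.mulSingle (fun _ : Fin (s j) => A (d j)) i).range.comap (φ j).toMonoidHom with hR
    have hRmin : IsMinNormal R := minNormal_comap (φ j) (minNormal_single i)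
    set S : Subgroup H := R.map (M j).subtype with hS
    have hSle : S ≤ M j := by
      rw [hS]
      exact Subgroup.map_subtype_le R
    have hSR : S.subgroupOf (M j) = R := by
      rw [hS]
      exact Subgroup.comap_map_eq_self_of_injective (M j).subtype_injective R
    have hmem : h ∈ Subgroup.normalizer (S : Set H) := by
      unfold FacNorm at hh
      rw [Subgroup.mem_iInf] at hh
      have h1 := hh S
      rw [Subgroup.mem_iInf] at h1
      exact h1 ⟨hSle, by rw [hSR]; exact hRmin⟩
    have hSmem : ∀ z : A (d j), ((φ j).symm (Pi.mulSingle i z) : H) ∈ S := by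
      intro z
      rw [hS]
      refine ⟨(φ j).symm (Pi.mulSingle i z), ?_, rfl⟩
      show (φ j) ((φ j).symm (Pi.mulSingle i z)) ∈
        (MonoidHom.mulSingle (fun _ : Fin (s j) => A (d j)) i).range
      rw [MulEquiv.apply_symm_apply]
      exact ⟨z, rfl⟩
    have h2 : h * ((φ j).symm (Pi.mulSingle i x) : H) * h⁻¹ ∈ S :=
      (Subgroup.mem_normalizer_iff.1 hmem _).1 (hSmem x)
    rw [hS] at h2
    obtain ⟨r, hr, hr2⟩ := h2
    obtain ⟨y, hy⟩ := hr
    refine ⟨y, ?_⟩
    rw [he, he]
    have h3 : (φ j).symm (Pi.mulSingle i y) = r := by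
      rw [MulEquiv.symm_apply_eq]
      exact hy
    rw [h3]
    exact hr2.symm

theorem facNorm_map_index {H : Type u} [Group H] [Finite H] (φ : H ≃* H) (K : Subgroup H) :
    (FacNorm (K.map φ.toMonoidHom)).index ≤ (FacNorm K).index := by
  have h1 : (FacNorm K).map φ.toMonoidHom ≤ FacNorm (K.map φ.toMonoidHom) := by
    rintro _ ⟨h, hh, rfl⟩
    unfold FacNorm at hh ⊢
    rw [Subgroup.mem_iInf]
    intro S'
    rw [Subgroup.mem_iInf]
    rintro ⟨hle, hmin⟩
    have hSle : S'.comap φ.toMonoidHom ≤ K := by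
      intro x hx
      obtain ⟨y, hy, hyx⟩ := hle hx
      have : y = x := φ.injective hyx
      rw [← this]
      exact hy
    have hSmin : IsMinNormal ((S'.comap φ.toMonoidHom).subgroupOf K) := by
      have h2 := minNormal_comap (φ.subgroupMap K) hmin
      have h3 : (S'.subgroupOf (K.map φ.toMonoidHom)).comap (φ.subgroupMap K).toMonoidHom =
          (S'.comap φ.toMonoidHom).subgroupOf K := by
        ext x
        exact Iff.rfl
      rw [h3] at h2
      exact h2
    rw [SetLike.mem_coe, Subgroup.mem_iInf] at hh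
    have h4 := hh (S'.comap φ.toMonoidHom)
    rw [Subgroup.mem_iInf] at h4
    have h5 := Subgroup.mem_normalizer_iff.1 (h4 ⟨hSle, hSmin⟩)
    rw [Subgroup.mem_normalizer_iff]
    intro y
    have h6 := h5 (φ.symm y)
    have h7 : ∀ z : H, z ∈ S'.comap φ.toMonoidHom ↔ φ z ∈ S' := fun z => Iff.rfl
    have h6' : φ (φ.symm y) ∈ S' ↔ φ (h * φ.symm y * h⁻¹) ∈ S' := h6
    rw [map_mul, map_mul, map_inv, MulEquiv.apply_symm_apply] at h6'
    exact h6'
  have h2 : ((FacNorm K).map φ.toMonoidHom).index = (FacNorm K).index :=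
    Subgroup.index_map_equiv (FacNorm K) φ
  rw [← h2]
  have h3 : ((FacNorm K).map φ.toMonoidHom).index ≠ 0 := Subgroup.index_ne_zero_of_finite
  exact Nat.le_of_dvd (Nat.pos_of_ne_zero h3) (Subgroup.index_dvd_of_le h1)

/-- Enumeration of all minimal normal subgroups of a given kind. -/
theorem enum_minW {H : Type u} [Group H] [Finite H] (R : Subgroup H → ℕ → ℕ → Prop)
    (hR : ∀ (φ : H ≃* H) (K : Subgroup H) (d s : ℕ), R K d s → R (K.map φ.toMonoidHom) d s) :
    ∃ (a : ℕ) (M : Fin a → Subgroup H) (d s : Fin a → ℕ), Function.Injective M ∧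
      (∀ j, IsMinNormal (M j)) ∧
      (∀ (φ : H ≃* H) (j : Fin a), ∃ k, (M j).map φ.toMonoidHom = M k) ∧
      (∀ j, 5 ≤ d j) ∧ (∀ j, R (M j) (d j) (s j)) ∧
      (∀ j, Nonempty (M j ≃* (Fin (s j) → A (d j)))) ∧
      ∀ K : Subgroup H, IsMinNormal K →
        (∃ d s : ℕ, 5 ≤ d ∧ R K d s ∧ Nonempty (K ≃* (Fin s → A d))) → ∃ j, M j = K := by
  classical
  obtain ⟨a, ⟨ν⟩⟩ := Finite.exists_equiv_fin
    {K : Subgroup H // IsMinNormal K ∧ ∃ d s : ℕ, 5 ≤ d ∧ R K d s ∧ Nonempty (K ≃* (Fin s → A d))}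
  let M : Fin a → Subgroup H := fun j => (ν.symm j).1
  have hM : ∀ j, IsMinNormal (M j) := fun j => (ν.symm j).2.1
  have hall : ∀ K : Subgroup H, IsMinNormal K →
        (∃ d s : ℕ, 5 ≤ d ∧ R K d s ∧ Nonempty (K ≃* (Fin s → A d))) → ∃ j, M j = K := by
    intro K hK hK'
    refine ⟨ν ⟨K, hK, hK'⟩, ?_⟩
    show (ν.symm (ν ⟨K, hK, hK'⟩)).1 = K
    rw [Equiv.symm_apply_apply]
  have hMinj : Function.Injective M := fun i j hij => ν.symm.injective (Subtype.ext hij)
  choose d s h5 hP hψ using fun j => (ν.symm j).2.2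
  refine ⟨a, M, d, s, hMinj, hM, ?_, h5, hP, hψ, hall⟩
  intro φ j
  obtain ⟨k, hk⟩ := hall ((M j).map φ.toMonoidHom) (st_map_min φ (hM j))
    ⟨d j, s j, h5 j, hR φ _ _ _ (hP j), ⟨((φ.subgroupMap (M j)).symm).trans (hψ j).some⟩⟩
  exact ⟨k, hk.symm⟩

end SR32
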