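import Pool.Agent.SR32.DefsX
import Pool.Agent.SR32.YAct
import Pool.Agent.SR32.WEnum

/-!
# Element orders modulo the centralizer of powers of simple groups, with the permutation group
-/

set_option autoImplicit false

namespace SR32

universe u

/-- The simple factors are fixed by the elements of `FacNorm`. -/
theorem xfac {H : Type u} [Group H] {M : Subgroup H} {S : Type u} [Group S] [IsSimpleGroup S]
    {s : ℕ} (e : M ≃* (Fin s → S)) (h : H) (hh : h ∈ FacNorm M) (i : Fin s) (x : S) :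
    ∃ y : S, h * ((e.symm (Pi.mulSingle i x) : M) : H) * h⁻¹ =
      ((e.symm (Pi.mulSingle i y) : M) : H) := by
  classical
  obtain ⟨R, hR⟩ : ∃ R : Subgroup M,
    R = (MonoidHom.mulSingle (fun _ : Fin s => S) i).range.comap e.toMonoidHom := ⟨_, rfl⟩
  have hRmin : IsMinNormal R := by
    rw [hR]
    exact minNormal_comap e (minNormal_single i)
  obtain ⟨K, hK⟩ : ∃ K : Subgroup H, K = R.map M.subtype := ⟨_, rfl⟩
  have hKle : K ≤ M := by
    rw [hK]
    exact Subgroup.map_subtype_le R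
  have hKR : K.subgroupOf M = R := by
    rw [hK]
    exact Subgroup.comap_map_eq_self_of_injective M.subtype_injective R
  have hmem : h ∈ Subgroup.normalizer (K : Set H) := by
    unfold FacNorm at hh
    rw [Subgroup.mem_iInf] at hh
    have h1 := hh K
    rw [Subgroup.mem_iInf] at h1
    exact h1 ⟨hKle, by rw [hKR]; exact hRmin⟩
  have hKmem : ∀ z : S, ((e.symm (Pi.mulSingle i z) : M) : H) ∈ K := by
    intro z
    rw [hK]
    refine ⟨e.symm (Pi.mulSingle i z), ?_, rfl⟩
    rw [hR]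
    show e (e.symm (Pi.mulSingle i z)) ∈ (MonoidHom.mulSingle (fun _ : Fin s => S) i).range
    rw [MulEquiv.apply_symm_apply]
    exact ⟨z, rfl⟩
  have h2 : h * ((e.symm (Pi.mulSingle i x) : M) : H) * h⁻¹ ∈ K :=
    (Subgroup.mem_normalizer_iff.1 hmem _).1 (hKmem x)
  rw [hK] at h2
  obtain ⟨r, hr, hr2⟩ := h2
  rw [hR] at hr
  obtain ⟨y, hy⟩ := hr
  refine ⟨y, ?_⟩
  have h3 : e.symm (Pi.mulSingle i y) = r := by
    rw [MulEquiv.symm_apply_eq]
    exact hy
  rw [h3]
  exact hr2.symm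

/-- The action on the simple factors and on each of them. -/
theorem xact {H : Type u} [Group H] [Finite H] (a : ℕ) (M : Fin a → Subgroup H)
    (hn : ∀ j, (M j).Normal) (S : Fin a → Type u) [∀ j, Group (S j)] [∀ j, Finite (S j)]
    (hS : ∀ j, IsSimpleGroup (S j)) (hc : ∀ j, Subgroup.center (S j) = ⊥) (s : Fin a → ℕ)
    (e : ∀ j, M j ≃* (Fin (s j) → S j)) (C : Subgroup H)
    (hC : ∀ z : H, z ∈ C ↔ ∀ j, ∀ y ∈ M j, z * y = y * z) :
    ∃ τ : H →* (∀ j, Equiv.Perm (Fin (s j))), (∀ z ∈ C, τ z = 1) ∧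
      (∀ (j : Fin a) (h : H), h ∈ FacNorm (M j) → τ h j = 1) ∧
      ∀ h : H, τ h = 1 → ∃ α : ∀ j, (Fin (s j) → MulAut (S j)), ∀ m : ℕ,
        h ^ m ∈ C ↔ α ^ m = 1 := by
  classical
  have hβ : ∀ j, ∃ β : H →* MulAut (Fin (s j) → S j), ∀ (h : H) (y : M j),
      β h (e j y) = e j ⟨h * y * h⁻¹, (hn j).conj_mem _ y.2 h⟩ := by
    intro j
    have := hn j
    refine ⟨MonoidHom.mk' (fun h => (e j).symm.trans
      ((MulAut.conjNormal h : MulAut (M j)).trans (e j))) ?_, ?_⟩
    · intro g h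
      ext1 x
      show e j ((MulAut.conjNormal (g * h) : MulAut (M j)) ((e j).symm x)) =
        e j ((MulAut.conjNormal g : MulAut (M j)) ((e j).symm
          (e j ((MulAut.conjNormal h : MulAut (M j)) ((e j).symm x)))))
      rw [MulEquiv.symm_apply_apply, map_mul, MulAut.mul_apply]
    · intro h y
      show e j ((MulAut.conjNormal h : MulAut (M j)) ((e j).symm (e j y))) = _
      rw [MulEquiv.symm_apply_apply]
      congr 1
  choose β hβ using hβ
  -- elements of `C`
  have hCβ : ∀ z : H, z ∈ C ↔ ∀ j, β j z = 1 := by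
    intro z
    rw [hC]
    constructor
    · intro h j
      ext1 x
      obtain ⟨y, rfl⟩ := (e j).surjective x
      rw [hβ, MulAut.one_apply]
      congr 1
      apply Subtype.ext
      show z * y * z⁻¹ = y
      rw [h j y y.2]
      group
    · intro h j y hy
      have h1 := hβ j z ⟨y, hy⟩
      rw [h j, MulAut.one_apply] at h1
      have h2 := congrArg Subtype.val ((e j).injective h1)
      have h3 : y = z * y * z⁻¹ := h2
      calc z * y = z * y * z⁻¹ * z := by group
        _ = y * z := by rw [← h3]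
  have hσ : ∀ (j : Fin a) (φ : MulAut (Fin (s j) → S j)),
      ∃ σ : Equiv.Perm (Fin (s j)), PermOf φ σ := by
    intro j φ
    have := hS j
    obtain ⟨σ, ψ, hψ⟩ := aut_pi (fun _ : Fin (s j) => S j) (fun _ => hc j) φ
    exact ⟨σ, ψ, hψ⟩
  choose σ hσ using hσ
  have hnt : ∀ j, Nontrivial (S j) := fun j => (hS j).toNontrivial
  have hσmul : ∀ (j : Fin a) (φ φ' : MulAut (Fin (s j) → S j)),
      σ j (φ * φ') = σ j φ * σ j φ' := by
    intro j φ φ'
    have := hnt j
    exact (hσ j (φ * φ')).unique ((hσ j φ).mul (hσ j φ'))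
  have hσone : ∀ j, σ j 1 = 1 := by
    intro j
    have := hnt j
    exact (hσ j 1).unique yact_one
  refine ⟨MonoidHom.mk' (fun h j => σ j (β j h)) ?_, fun z hz => ?_, fun j h hh => ?_,
    fun h hh => ?_⟩
  · intro g h
    funext j
    show σ j (β j (g * h)) = σ j (β j g) * σ j (β j h)
    rw [map_mul, hσmul]
  · funext j
    show σ j (β j z) = 1
    rw [(hCβ z).1 hz j, hσone]
  · show σ j (β j h) = 1
    have hsim := hS j
    have := hnt j
    obtain ⟨z, hz⟩ := exists_ne (1 : S j)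
    obtain ⟨ψ, hψ⟩ := hσ j (β j h)
    ext1 i
    rw [Equiv.Perm.one_apply]
    by_contra hi
    obtain ⟨y, hy⟩ := xfac (e j) h hh i z
    have h1 := hβ j h ((e j).symm (Pi.mulSingle i z))
    have h2 : (⟨h * ((e j).symm (Pi.mulSingle i z) : M j) * h⁻¹,
        (hn j).conj_mem _ ((e j).symm (Pi.mulSingle i z)).2 h⟩ : M j) =
        (e j).symm (Pi.mulSingle i y) := Subtype.ext hy
    rw [h2, MulEquiv.apply_symm_apply, MulEquiv.apply_symm_apply] at h1
    have h3 := hψ (Pi.mulSingle i z) i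
    rw [h1, Pi.mulSingle_eq_same, Pi.mulSingle_eq_of_ne hi] at h3
    exact hz ((map_eq_one_iff _ (ψ i).injective).1 h3.symm)
  · have hone : ∀ j, σ j (β j h) = 1 := fun j => congrFun hh j
    have hψ : ∀ (j : Fin a) (i : Fin (s j)), ∃ ψ : MulAut (S j),
        ∀ x : Fin (s j) → S j, β j h x i = ψ (x i) := by
      intro j i
      obtain ⟨ψ, hψ⟩ := hσ j (β j h)
      refine ⟨ψ i, fun x => ?_⟩
      have h1 := hψ x i
      rw [hone j] at h1
      exact h1
    choose ψ hψ using hψ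
    have hψpow : ∀ (k : ℕ) (j : Fin a) (i : Fin (s j)) (x : Fin (s j) → S j),
        (β j h ^ k) x i = (ψ j i ^ k) (x i) := by
      intro k
      induction k with
      | zero => intro j i x; rfl
      | succ k ih =>
        intro j i x
        rw [pow_succ', MulAut.mul_apply, hψ, ih, pow_succ', MulAut.mul_apply]
    refine ⟨ψ, fun m => ?_⟩
    rw [hCβ]
    constructor
    · intro h1
      funext j i
      ext1 z
      have h2 := hψpow m j i (fun _ => z)
      rw [← map_pow, h1 j, MulAut.one_apply] at h2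
      exact h2.symm
    · intro h1 j
      ext1 x
      funext i
      rw [map_pow, hψpow, MulAut.one_apply]
      have h2 : ψ j i ^ m = 1 := congrFun (congrFun h1 j) i
      rw [h2, MulAut.one_apply]

theorem oo_quot_image {H : Type u} [Group H] [Finite H] (a : ℕ) (M : Fin a → Subgroup H)
    (hn : ∀ j, (M j).Normal) (S : Fin a → Type u) [∀ j, Group (S j)] [∀ j, Finite (S j)]
    (hS : ∀ j, IsSimpleGroup (S j)) (hc : ∀ j, Subgroup.center (S j) = ⊥) (s : Fin a → ℕ)
    (e : ∀ j, M j ≃* (Fin (s j) → S j)) (C : Subgroup H) [C.Normal]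
    (hC : ∀ z : H, z ∈ C ↔ ∀ j, ∀ y ∈ M j, z * y = y * z) :
    ∃ I : Subgroup (∀ j, Equiv.Perm (Fin (s j))),
      (∀ j, Nat.card (I.map (Pi.evalMonoidHom (fun j => Equiv.Perm (Fin (s j))) j)) ≤
        (FacNorm (M j)).index) ∧
      oo (H ⧸ C) ≤ oo I * oo (∀ j, (Fin (s j) → MulAut (S j))) := by
  classical
  obtain ⟨τ, hτ1, hτ2, hτ⟩ := xact a M hn S hS hc s e C hC
  have hfa : ∀ j, Finite (MulAut (S j)) := fun j => inferInstance
  refine ⟨τ.range, fun j => ?_, ?_⟩
  · obtain ⟨g, hg⟩ : ∃ g : H →* Equiv.Perm (Fin (s j)),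
      g = (Pi.evalMonoidHom (fun j => Equiv.Perm (Fin (s j))) j).comp τ := ⟨_, rfl⟩
    have h3 : τ.range.map (Pi.evalMonoidHom (fun j => Equiv.Perm (Fin (s j))) j) = g.range := by
      rw [hg, MonoidHom.range_comp]
    rw [h3, ← Subgroup.index_ker]
    have h4 : FacNorm (M j) ≤ g.ker := by
      intro h hh
      rw [MonoidHom.mem_ker, hg]
      exact hτ2 j h hh
    exact Nat.le_of_dvd (Nat.pos_of_ne_zero Subgroup.index_ne_zero_of_finite)
      (Subgroup.index_dvd_of_le h4)
  unfold oo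
  have hfin : (Set.range (fun g : τ.range => orderOf g) ×ˢ
      Set.range (fun g : (∀ j, (Fin (s j) → MulAut (S j))) => orderOf g)).Finite :=
    (Set.finite_range _).prod (Set.finite_range _)
  have hsub : Set.range (fun g : H ⧸ C => orderOf g) ⊆ (fun p : ℕ × ℕ => p.1 * p.2) ''
      (Set.range (fun g : τ.range => orderOf g) ×ˢ
      Set.range (fun g : (∀ j, (Fin (s j) → MulAut (S j))) => orderOf g)) := by
    rintro _ ⟨q, rfl⟩
    obtain ⟨h, rfl⟩ := QuotientGroup.mk_surjective q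
    obtain ⟨k, hk⟩ : ∃ k : ℕ, k = orderOf (τ.rangeRestrict h) := ⟨_, rfl⟩
    have hk' : k = orderOf (τ h) := by
      rw [hk, ← Subgroup.orderOf_coe]
      rfl
    have hk0 : 0 < k := by rw [hk']; exact orderOf_pos _
    have hker : τ (h ^ k) = 1 := by rw [map_pow, hk', pow_orderOf_eq_one]
    obtain ⟨α, hα⟩ := hτ (h ^ k) hker
    refine ⟨(k, orderOf α), ⟨⟨τ.rangeRestrict h, hk.symm⟩, ⟨α, rfl⟩⟩, ?_⟩
    have hpow : ∀ m : ℕ, (QuotientGroup.mk h : H ⧸ C) ^ m = 1 ↔ h ^ m ∈ C := by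
      intro m
      rw [← QuotientGroup.mk_pow, QuotientGroup.eq_one_iff]
    have h1 : orderOf ((QuotientGroup.mk h : H ⧸ C) ^ k) = orderOf α := by
      apply Nat.dvd_antisymm
      · rw [orderOf_dvd_iff_pow_eq_one, ← pow_mul, hpow, pow_mul, hα]
        exact pow_orderOf_eq_one α
      · rw [orderOf_dvd_iff_pow_eq_one, ← hα, ← pow_mul, ← hpow, pow_mul]
        exact pow_orderOf_eq_one _
    have hdvd : k ∣ orderOf (QuotientGroup.mk h : H ⧸ C) := by
      rw [hk', orderOf_dvd_iff_pow_eq_one, ← map_pow]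
      exact hτ1 _ ((hpow _).1 (pow_orderOf_eq_one _))
    show k * orderOf α = orderOf (QuotientGroup.mk h : H ⧸ C)
    rw [← h1, orderOf_pow' _ hk0.ne', Nat.gcd_eq_right hdvd]
    exact Nat.mul_div_cancel' hdvd
  refine (Set.ncard_le_ncard hsub (hfin.image _)).trans ((Set.ncard_image_le hfin).trans ?_)
  rw [Set.ncard_prod]

end SR32
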