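import Pool.Agent.SR32.DefsX
import Pool.Agent.SR32.YNum
import Pool.Agent.SR32.YPow
import Pool.Agent.SR32.ZTypes
import Pool.Agent.SR32.ZOrd

/-!
# SR32/XLowerS90: the lower bound for minimal normal subgroups with many simple factors

`lowerX_of`: `lowerX` from other modules (their statements are hypotheses).
-/

set_option autoImplicit false

namespace SR32.XLowerS90

open SR32 Finset Filter

universe u

/-- the centre of a nonabelian simple group is trivial -/
theorem center_bot {S : Type u} [Group S] (hs : IsSimpleGroup S)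
    (hna : ∃ x y : S, x * y ≠ y * x) : Subgroup.center S = ⊥ := by
  rcases hs.eq_bot_or_eq_top_of_normal (Subgroup.center S) inferInstance with h | h
  · exact h
  · exfalso
    obtain ⟨x, y, hxy⟩ := hna
    have h1 : y ∈ Subgroup.center S := by
      rw [h]
      exact Subgroup.mem_top y
    exact hxy (Subgroup.mem_center_iff.1 h1 x)

/-- from two upper bounds with exponent `2 L` to one with exponent `L` -/
theorem half {x y V L : ℕ} (h1 : x ^ (2 * L) ≤ V) (h2 : y ^ (2 * L) ≤ V) :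
    (x * y) ^ L ≤ V := by
  have h3 : ((x * y) ^ L) ^ 2 ≤ V ^ 2 := by
    calc ((x * y) ^ L) ^ 2 = x ^ (2 * L) * y ^ (2 * L) := by
          rw [← pow_mul, mul_comm L 2, mul_pow]
      _ ≤ V * V := Nat.mul_le_mul h1 h2
      _ = V ^ 2 := (sq V).symm
  exact (Nat.pow_le_pow_iff_left two_ne_zero).1 h3

theorem mc_pos {n : ℕ} (hn : 1 ≤ n) (k : ℕ) : 1 ≤ Nat.multichoose n k := by
  rw [Nat.multichoose_eq]
  exact Nat.choose_pos (by omega)

theorem lowerX_of
    (hD1 : ∀ L t : ℕ, ∃ s0 : ℕ, ∀ w s a : ℕ, 3 ≤ w → s0 ≤ s → 1 ≤ a →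
      (min (DD t s ^ a) (2 ^ (PP s).card)) ^ L ≤ Nat.multichoose (Nat.multichoose w s) a)
    (hD1' : ∀ L : ℕ, ∃ s0 : ℕ, ∀ s : ℕ, s0 ≤ s → (2 ^ (PP s).card) ^ L ≤ 2 ^ s)
    (hD2 : ∀ {S : Type u} [Group S] [Finite S], IsSimpleGroup S → (∃ x y : S, x * y ≠ y * x) →
      3 ≤ om S)
    (hD3 : ∀ {H : Type u} [Group H] [Finite H] (M : Subgroup H), IsMinNormal M →
      ∀ {S : Type u} [Group S] [Finite S] [IsSimpleGroup S], Subgroup.center S = ⊥ →
      ∀ {s : ℕ}, (M ≃* (Fin s → S)) → om S ^ s ≤ autFac M * vorb M)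
    (hord : ∀ T : ℕ, ∃ K : ℕ, 0 < K ∧ ∀ {a : ℕ} (S : Fin a → Type u)
      [∀ j, Group (S j)] [∀ j, Finite (S j)] (s c : Fin a → ℕ) (o m : ℕ × ℕ → ℕ)
      (g : ℕ × ℕ → Prop) [DecidablePred g],
      (∀ j, o (c j, s j) = oo (MulAut (S j))) →
      (∀ j, m (c j, s j) = Nat.card (MulAut (S j))) →
      (∀ j, g (c j, s j) → Nat.card (S j) ≤ T) →
      oo (∀ j, (Fin (s j) → MulAut (S j))) ≤ K *
        ∏ p ∈ Finset.univ.image (fun j => (c j, s j)),
          if g p then 1 else
            min (o p ^ (p.2 * (Finset.univ.filter (fun j => (c j, s j) = p)).card)) (m p))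
    (L t : ℕ) (η : ℕ → ℕ) (hη : Tendsto η atTop atTop) : ∃ s0 W0 : ℕ, ∀ T : ℕ,
    ∃ c : ℝ, 0 < c ∧ ∀ (H : Type u) [Group H] [Finite H] (a : ℕ) (M : Fin a → Subgroup H)
      (S : Fin a → Type u) [∀ j, Group (S j)] [∀ j, Finite (S j)] (s : Fin a → ℕ),
      Function.Injective M → (∀ j, IsMinNormal (M j)) →
      (∀ (φ : H ≃* H) (j : Fin a), ∃ k, (M j).map φ.toMonoidHom = M k) →
      (∀ j, IsSimpleGroup (S j)) → (∀ j, ∃ x y : S j, x * y ≠ y * x) →
      (∀ j, Nat.card (S j) ≤ T ∨ (Rich η (S j) ∧ W0 ≤ om (S j))) → (∀ j, s0 ≤ s j) →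
      (∀ j, Nonempty (M j ≃* (Fin (s j) → S j))) →
      ∀ I : Subgroup (∀ j, Equiv.Perm (Fin (s j))),
      (∀ j, Nat.card (I.map (Pi.evalMonoidHom (fun j => Equiv.Perm (Fin (s j))) j)) ≤ s j ^ t ∨
        2 ^ s j * autFac (M j) ≤ om (S j) ^ s j) →
      c * ((oo I : ℝ) * (oo (∀ j, (Fin (s j) → MulAut (S j))) : ℝ)) ^ L ≤ (om H : ℝ) := by
  classical
  obtain ⟨W1, hW1⟩ := ynum_one (2 * L) η hη
  obtain ⟨s1, hs1⟩ := hD1 (2 * L) t
  obtain ⟨s2, hs2⟩ := hD1' (2 * L)
  refine ⟨max 1 (max s1 s2), W1, fun T => ?_⟩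
  obtain ⟨K, hK1, hK⟩ := hord T
  have hKr : (0 : ℝ) < (K : ℝ) := by exact_mod_cast hK1
  refine ⟨1 / (K : ℝ) ^ L, by positivity,
    fun H _ _ a M S _ _ s hMi hM haut hsim hna0 hkind hsj hiM I hI => ?_⟩
  have hcen : ∀ j, Subgroup.center (S j) = ⊥ := fun j => center_bot (hsim j) (hna0 j)
  have hw3 : ∀ j, 3 ≤ om (S j) := fun j => hD2 (hsim j) (hna0 j)
  have hsp : ∀ j, 1 ≤ s j := fun j => (le_max_left _ _).trans (hsj j)
  have hss1 : ∀ j, s1 ≤ s j := fun j =>
    ((le_max_left _ _).trans (le_max_right _ _)).trans (hsj j)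
  have hss2 : ∀ j, s2 ≤ s j := fun j =>
    ((le_max_right _ _).trans (le_max_right _ _)).trans (hsj j)
  have hna : ∀ j, ∃ x ∈ M j, ∃ y ∈ M j, x * y ≠ y * x := by
    intro j
    obtain ⟨e⟩ := hiM j
    obtain ⟨x, y, hxy⟩ := hna0 j
    refine ⟨(e.symm (fun _ => x)).1, (e.symm _).2, (e.symm (fun _ => y)).1, (e.symm _).2,
      fun h => hxy ?_⟩
    have h1 : e.symm (fun _ => x) * e.symm (fun _ => y) =
        e.symm (fun _ => y) * e.symm (fun _ => x) := Subtype.ext h
    rw [← map_mul, ← map_mul] at h1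
    exact congrFun (e.symm.injective h1) ⟨0, hsp j⟩
  -- a colour for each isomorphism type of the simple factors
  obtain ⟨c, hcl, hcr⟩ : ∃ c : Fin a → ℕ, (∀ i j, c i = c j → Nonempty (S i ≃* S j)) ∧
      (∀ i j, Nonempty (S i ≃* S j) → c i = c j) := by
    let st : Setoid (Fin a) :=
      { r := fun i j => Nonempty (S i ≃* S j)
        iseqv := ⟨fun i => ⟨MulEquiv.refl _⟩, fun ⟨e⟩ => ⟨e.symm⟩,
          fun ⟨e⟩ ⟨f⟩ => ⟨e.trans f⟩⟩ }
    refine ⟨fun j => ((Quotient.mk st j).out : Fin a).val, fun i j h => ?_, fun i j h => ?_⟩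
    · have h1 : (Quotient.mk st i).out = (Quotient.mk st j).out := Fin.ext h
      have h2 : Quotient.mk st i = Quotient.mk st j := by
        rw [← Quotient.out_eq (Quotient.mk st i), ← Quotient.out_eq (Quotient.mk st j), h1]
      exact Quotient.exact h2
    · have h2 : Quotient.mk st i = Quotient.mk st j := Quotient.sound h
      show ((Quotient.mk st i).out : Fin a).val = ((Quotient.mk st j).out : Fin a).val
      rw [h2]
  have hcc : ∀ i j, Nonempty (M i ≃* M j) ↔ (c i, s i) = (c j, s j) := by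
    intro i j
    obtain ⟨ei⟩ := hiM i
    obtain ⟨ej⟩ := hiM j
    have := hsim i
    have := hsim j
    constructor
    · rintro ⟨f⟩
      obtain ⟨h1, h2⟩ := powS_iso (hcen i) (hcen j) ((ei.symm.trans f).trans ej) (hsp i)
      rw [hcr i j h2, h1]
    · intro h
      have h1 : c i = c j := congrArg Prod.fst h
      have h2 : s i = s j := congrArg Prod.snd h
      obtain ⟨f⟩ := hcl i j h1
      have g : (Fin (s i) → S i) ≃* (Fin (s j) → S j) := by
        rw [h2]
        exact MulEquiv.piCongrRight (fun _ => f)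
      exact ⟨(ei.trans g).trans ej.symm⟩
  -- the numbers of a type
  have hext : ∀ g : Fin a → ℕ, (∀ i j, c i = c j → g i = g j) →
      ∃ G : ℕ × ℕ → ℕ, ∀ j, G (c j, s j) = g j := by
    intro g hg
    have h1 : g.FactorsThrough (fun j => (c j, s j)) := by
      intro i j h
      exact hg i j (congrArg Prod.fst h)
    exact ⟨Function.extend (fun j => (c j, s j)) g 0, fun j => h1.extend_apply 0 j⟩
  obtain ⟨W, hWd⟩ := hext (fun j => om (S j)) (fun i j h => by
    obtain ⟨f⟩ := hcl i j h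
    exact om_congr f)
  obtain ⟨o, ho⟩ := hext (fun j => oo (MulAut (S j))) (fun i j h => by
    obtain ⟨f⟩ := hcl i j h
    exact oo_congr (MulAut.congr f))
  obtain ⟨m, hm⟩ := hext (fun j => Nat.card (MulAut (S j))) (fun i j h => by
    obtain ⟨f⟩ := hcl i j h
    exact Nat.card_congr (MulAut.congr f).toEquiv)
  obtain ⟨z, hz⟩ := hext (fun j => Nat.card (S j)) (fun i j h => by
    obtain ⟨f⟩ := hcl i j h
    exact Nat.card_congr f.toEquiv)
  -- the alternative of a type
  obtain ⟨q, hq⟩ : ∃ q : ℕ × ℕ → ℕ, q = fun p => if ∀ j, (c j, s j) = p →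
      Nat.card (I.map (Pi.evalMonoidHom (fun j => Equiv.Perm (Fin (s j))) j)) ≤ s j ^ t
    then 1 else 2 := ⟨_, rfl⟩
  have hq0 : ∀ p, q p ≠ 0 := by
    intro p hp
    rw [hq] at hp
    simp only at hp
    split_ifs at hp
  have hq1 : ∀ j, q (c j, s j) = 1 →
      Nat.card (I.map (Pi.evalMonoidHom (fun j => Equiv.Perm (Fin (s j))) j)) ≤ s j ^ t := by
    intro j hj
    by_contra h3
    rw [hq] at hj
    simp only at hj
    rw [if_neg (fun h2 => h3 (h2 j rfl))] at hj
    exact absurd hj (by norm_num)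
  have hq2 : ∀ j, q (c j, s j) ≠ 1 →
      ∃ k, (c k, s k) = (c j, s j) ∧ 2 ^ s j ≤ vorb (M k) := by
    intro j h1
    rw [hq] at h1
    simp only at h1
    by_cases h3 : ∀ k, (c k, s k) = (c j, s j) →
        Nat.card (I.map (Pi.evalMonoidHom (fun j => Equiv.Perm (Fin (s j))) k)) ≤ s k ^ t
    · exact absurd (if_pos h3) h1
    push Not at h3
    obtain ⟨k, hk, hk2⟩ := h3
    refine ⟨k, hk, ?_⟩
    have e2 : s k = s j := congrArg Prod.snd hk
    rcases hI k with h4 | h4
    · exact absurd h4 (not_le.2 hk2)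
    · obtain ⟨e⟩ := hiM k
      have := hsim k
      have h6 := hD3 (M k) (hM k) (hcen k) e
      have h7 : 0 < om (S k) ^ s k := Nat.pow_pos (om_pos _)
      have h8 : 0 < autFac (M k) := by
        rcases Nat.eq_zero_or_pos (autFac (M k)) with h | h
        · rw [h, zero_mul] at h6
          omega
        · exact h
      rw [← e2]
      have h9 : 2 ^ s k * autFac (M k) ≤ vorb (M k) * autFac (M k) := by
        rw [mul_comm (vorb (M k))]
        exact h4.trans h6
      exact Nat.le_of_mul_le_mul_right h9 h8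
  obtain ⟨v, hv⟩ : ∃ v : ℕ × ℕ → ℕ, v = fun p => if q p = 1 then 0 else 2 ^ p.2 := ⟨_, rfl⟩
  have hv2 : ∀ j, ∃ k, (c k, s k) = (c j, s j) ∧ v (c j, s j) ≤ vorb (M k) := by
    intro j
    rw [hv]
    simp only
    by_cases h1 : q (c j, s j) = 1
    · exact ⟨j, rfl, by rw [if_pos h1]; exact Nat.zero_le _⟩
    · rw [if_neg h1]
      exact hq2 j h1
  have key := om_types_geZ a M hMi hM hna haut (fun j => (c j, s j)) hcc
    (fun p => Nat.multichoose (W p) p.2) v (fun j => by
      obtain ⟨e⟩ := hiM j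
      have := hsim j
      rw [om_congr e]
      show Nat.multichoose (W (c j, s j)) (s j) ≤ _
      rw [hWd j]
      exact om_powS_ge (hcen j) (s j)) hv2
  have k1 := oo_image_groupedZ s c t I q hq1
  have k2 := hK S s c o m (fun p => z p ≤ T) ho hm (fun j hj => by
    have hj' : z (c j, s j) ≤ T := hj
    rwa [hz j] at hj')
  obtain ⟨P, hP⟩ : ∃ P : Finset (ℕ × ℕ), P = Finset.univ.image (fun j => (c j, s j)) := ⟨_, rfl⟩
  obtain ⟨k, hk⟩ : ∃ k : ℕ × ℕ → ℕ, k = fun p =>
    (Finset.univ.filter (fun j => (c j, s j) = p)).card := ⟨_, rfl⟩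
  have hkp : ∀ p, (Finset.univ.filter (fun j => (c j, s j) = p)).card = k p := fun p => by rw [hk]
  simp only [hkp] at key k1 k2
  rw [← hP] at key k1 k2
  -- the factors
  obtain ⟨V, hV⟩ : ∃ V : ℕ × ℕ → ℕ, V = fun p =>
    max (Nat.multichoose (Nat.multichoose (W p) p.2) (k p)) (v p) := ⟨_, rfl⟩
  obtain ⟨N, hN⟩ : ∃ N : ℕ × ℕ → ℕ, N = fun p => if q p = 0 then
    (QQ p.2 (p.2 * k p)).card else if q p = 1 then min (DD t p.2 ^ k p) (2 ^ (PP p.2).card)
    else 2 ^ (PP p.2).card := ⟨_, rfl⟩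
  obtain ⟨B, hB⟩ : ∃ B : ℕ × ℕ → ℕ, B = fun p => if z p ≤ T then 1 else
    min (o p ^ (p.2 * k p)) (m p) := ⟨_, rfl⟩
  have hNB : ∀ p ∈ P, (N p * B p) ^ L ≤ V p := by
    intro p hp
    have hk1 : 1 ≤ k p := by
      rw [hP, mem_image] at hp
      obtain ⟨j, -, hj⟩ := hp
      rw [hk]
      exact card_pos.2 ⟨j, mem_filter.2 ⟨mem_univ _, hj⟩⟩
    rw [hP, mem_image] at hp
    obtain ⟨j, -, hj⟩ := hp
    have e2 : p.2 = s j := by rw [← hj]
    have eW : W p = om (S j) := by rw [← hj]; exact hWd j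
    have eo : o p = oo (MulAut (S j)) := by rw [← hj]; exact ho j
    have em : m p = Nat.card (MulAut (S j)) := by rw [← hj]; exact hm j
    have ez : z p = Nat.card (S j) := by rw [← hj]; exact hz j
    have hVV : Nat.multichoose (Nat.multichoose (om (S j)) (s j)) (k p) ≤ V p := by
      rw [hV]
      simp only
      rw [eW, e2]
      exact le_max_left _ _
    refine half ?_ ?_
    · rw [hN]
      simp only
      rw [if_neg (hq0 p)]
      by_cases h1 : q p = 1
      · rw [if_pos h1, e2]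
        exact (hs1 (om (S j)) (s j) (k p) (hw3 j) (hss1 j) hk1).trans hVV
      · rw [if_neg h1, e2]
        refine (hs2 (s j) (hss2 j)).trans ?_
        have h2 : v p = 2 ^ s j := by
          rw [hv]
          simp only
          rw [if_neg h1, e2]
        rw [← h2, hV]
        exact le_max_right _ _
    · rw [hB]
      simp only
      by_cases h1 : z p ≤ T
      · rw [if_pos h1, one_pow]
        exact (mc_pos (mc_pos (by have := hw3 j; omega) _) _).trans hVV
      · rw [if_neg h1, eo, em, e2]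
        rcases hkind j with h2 | ⟨h2, h3⟩
        · rw [ez] at h1
          exact absurd h2 h1
        · refine ((hW1 (om (S j)) (oo (MulAut (S j))) (Nat.card (MulAut (S j)))
            (s j * k p) h3 (Nat.mul_pos (hsp j) hk1) h2.2.2.1 h2.2.2.2).trans
            (wexc_mc_mc _ _ _)).trans hVV
  have hfin : (oo I * oo (∀ j, (Fin (s j) → MulAut (S j)))) ^ L ≤ K ^ L * om H := by
    calc (oo I * oo (∀ j, (Fin (s j) → MulAut (S j)))) ^ L
        ≤ ((∏ p ∈ P, N p) * (K * ∏ p ∈ P, B p)) ^ L := by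
          refine Nat.pow_le_pow_left (Nat.mul_le_mul ?_ ?_) L
          · rw [hN]
            exact k1
          · rw [hB]
            exact k2
      _ = K ^ L * ∏ p ∈ P, (N p * B p) ^ L := by
          rw [prod_pow, prod_mul_distrib, ← mul_pow]
          congr 1
          ring
      _ ≤ K ^ L * ∏ p ∈ P, V p :=
          Nat.mul_le_mul_left _ (prod_le_prod (fun _ _ => Nat.zero_le _) hNB)
      _ ≤ K ^ L * om H := by
          refine Nat.mul_le_mul_left _ ?_
          rw [hV]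
          exact key
  have hfin' : ((oo I : ℝ) * (oo (∀ j, (Fin (s j) → MulAut (S j))) : ℝ)) ^ L ≤
      (K : ℝ) ^ L * (om H : ℝ) := by exact_mod_cast hfin
  rw [one_div, inv_mul_le_iff₀ (by positivity)]
  exact hfin'

end SR32.XLowerS90
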