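import Pool.Agent.SR32.DefsY
import Pool.Agent.SR32.YNum
import Pool.Agent.SR32.VTypes
import Pool.Agent.SR32.VOrd

/-!
# SR32/YLowerS90: the lower bound for minimal normal subgroups with rich simple factors

`lowerY_of`: `lowerY` from the modules `YPow` and `YOrd` (their statements are hypotheses).
-/

set_option autoImplicit false

namespace SR32.YLowerS90

open SR32 Finset Filter

universe u

/-- the centre of a nonabelian simple group is trivial -/
theorem center_bot {S : Type u} [Group S] (hs : IsSimpleGroup S)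
    (hna : ∃ x y : S, x * y ≠ y * x) : Subgroup.center S = ⊥ := by
  rcases hs.eq_bot_or_eq_top_of_normal (Subgroup.center S) inferInstance with h | h
  · exact h
  · exfalso
    obtain ⟨x, y, hxy⟩ := hna
    have h1 : y ∈ Subgroup.center S := by
      rw [h]
      exact Subgroup.mem_top y
    exact hxy (Subgroup.mem_center_iff.1 h1 x)

/-- from two upper bounds with exponent `2 L` to one with exponent `L` -/
theorem half {x y V L : ℕ} (h1 : x ^ (2 * L) ≤ V) (h2 : y ^ (2 * L) ≤ V) :
    (x * y) ^ L ≤ V := by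
  have h3 : ((x * y) ^ L) ^ 2 ≤ V ^ 2 := by
    calc ((x * y) ^ L) ^ 2 = x ^ (2 * L) * y ^ (2 * L) := by
          rw [← pow_mul, mul_comm L 2, mul_pow]
      _ ≤ V * V := Nat.mul_le_mul h1 h2
      _ = V ^ 2 := (sq V).symm
  exact (Nat.pow_le_pow_iff_left two_ne_zero).1 h3

theorem lowerY_of
    (hpowS : ∀ {S : Type u} [Group S] [Finite S] [IsSimpleGroup S],
      Subgroup.center S = ⊥ → ∀ s : ℕ, Nat.multichoose (om S) s ≤ om (Fin s → S))
    (hisoS : ∀ {S S' : Type u} [Group S] [Group S'] [Finite S] [Finite S'] [IsSimpleGroup S]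
      [IsSimpleGroup S'], Subgroup.center S = ⊥ → Subgroup.center S' = ⊥ → ∀ {s s' : ℕ},
      ((Fin s → S) ≃* (Fin s' → S')) → 1 ≤ s → s = s' ∧ Nonempty (S ≃* S'))
    (hordS : ∀ {a : ℕ} (S : Fin a → Type u) [∀ j, Group (S j)] [∀ j, Finite (S j)]
      (s c : Fin a → ℕ) (o m : ℕ × ℕ → ℕ), (∀ i j, c i = c j → Nonempty (S i ≃* S j)) →
      (∀ j, o (c j, s j) = oo (MulAut (S j))) →
      (∀ j, m (c j, s j) = Nat.card (MulAut (S j))) →
      oo (∀ j, (Fin (s j) → MulAut (S j))) ≤
        ∏ p ∈ Finset.univ.image (fun j => (c j, s j)),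
          min (o p ^ (p.2 * (Finset.univ.filter (fun j => (c j, s j) = p)).card)) (m p))
    (L t : ℕ) (η : ℕ → ℕ) (hη : Tendsto η atTop atTop) : ∃ W0 : ℕ,
    ∀ (H : Type u) [Group H] [Finite H] (a : ℕ) (M : Fin a → Subgroup H) (S : Fin a → Type u)
      [∀ j, Group (S j)] [∀ j, Finite (S j)] (s : Fin a → ℕ),
      Function.Injective M → (∀ j, IsMinNormal (M j)) →
      (∀ (φ : H ≃* H) (j : Fin a), ∃ k, (M j).map φ.toMonoidHom = M k) →
      (∀ j, Rich η (S j)) → (∀ j, W0 ≤ om (S j)) → (∀ j, s j ≤ t * om (S j) ^ 2) →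
      (∀ j, Nonempty (M j ≃* (Fin (s j) → S j))) →
      (oo (∀ j, Equiv.Perm (Fin (s j))) * oo (∀ j, (Fin (s j) → MulAut (S j)))) ^ L ≤ om H := by
  classical
  obtain ⟨W1, hW1⟩ := ynum_one (2 * L) η hη
  obtain ⟨W2, hW2⟩ := ynum_two (2 * L) t
  refine ⟨max W1 W2, fun H _ _ a M S _ _ s hMi hM haut hR hW hst hiM => ?_⟩
  have hsim : ∀ j, IsSimpleGroup (S j) := fun j => (hR j).1
  have hcen : ∀ j, Subgroup.center (S j) = ⊥ := fun j => center_bot (hR j).1 (hR j).2.1
  have hs1 : ∀ j, 1 ≤ s j := by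
    intro j
    by_contra h0
    have h0' : s j = 0 := by omega
    obtain ⟨e⟩ := hiM j
    apply (hM j).2.1
    rw [eq_bot_iff]
    intro x hx
    haveI : Subsingleton (Fin (s j) → S j) := by
      rw [h0']
      infer_instance
    have h1 := e.injective (Subsingleton.elim (e ⟨x, hx⟩) (e 1))
    exact Subgroup.mem_bot.2 (congrArg Subtype.val h1)
  have hna : ∀ j, ∃ x ∈ M j, ∃ y ∈ M j, x * y ≠ y * x := by
    intro j
    obtain ⟨e⟩ := hiM j
    obtain ⟨x, y, hxy⟩ := (hR j).2.1
    refine ⟨(e.symm (fun _ => x)).1, (e.symm _).2, (e.symm (fun _ => y)).1, (e.symm _).2,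
      fun h => hxy ?_⟩
    have h1 : e.symm (fun _ => x) * e.symm (fun _ => y) =
        e.symm (fun _ => y) * e.symm (fun _ => x) := Subtype.ext h
    rw [← map_mul, ← map_mul] at h1
    exact congrFun (e.symm.injective h1) ⟨0, hs1 j⟩
  -- a colour for each isomorphism type of the simple factors
  obtain ⟨c, hcl, hcr⟩ : ∃ c : Fin a → ℕ, (∀ i j, c i = c j → Nonempty (S i ≃* S j)) ∧
      (∀ i j, Nonempty (S i ≃* S j) → c i = c j) := by
    let st : Setoid (Fin a) :=
      { r := fun i j => Nonempty (S i ≃* S j)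
        iseqv := ⟨fun i => ⟨MulEquiv.refl _⟩, fun ⟨e⟩ => ⟨e.symm⟩,
          fun ⟨e⟩ ⟨f⟩ => ⟨e.trans f⟩⟩ }
    refine ⟨fun j => ((Quotient.mk st j).out : Fin a).val, fun i j h => ?_, fun i j h => ?_⟩
    · have h1 : (Quotient.mk st i).out = (Quotient.mk st j).out := Fin.ext h
      have h2 : Quotient.mk st i = Quotient.mk st j := by
        rw [← Quotient.out_eq (Quotient.mk st i), ← Quotient.out_eq (Quotient.mk st j), h1]
      exact Quotient.exact h2
    · have h2 : Quotient.mk st i = Quotient.mk st j := Quotient.sound h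
      show ((Quotient.mk st i).out : Fin a).val = ((Quotient.mk st j).out : Fin a).val
      rw [h2]
  have hcc : ∀ i j, Nonempty (M i ≃* M j) ↔ (c i, s i) = (c j, s j) := by
    intro i j
    obtain ⟨ei⟩ := hiM i
    obtain ⟨ej⟩ := hiM j
    haveI := hsim i
    haveI := hsim j
    constructor
    · rintro ⟨f⟩
      obtain ⟨h1, h2⟩ := hisoS (hcen i) (hcen j) ((ei.symm.trans f).trans ej) (hs1 i)
      rw [hcr i j h2, h1]
    · intro h
      have h1 : c i = c j := congrArg Prod.fst h
      have h2 : s i = s j := congrArg Prod.snd h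
      obtain ⟨f⟩ := hcl i j h1
      have g : (Fin (s i) → S i) ≃* (Fin (s j) → S j) := by
        rw [h2]
        exact MulEquiv.piCongrRight (fun _ => f)
      exact ⟨(ei.trans g).trans ej.symm⟩
  -- the numbers of a type
  have hext : ∀ g : Fin a → ℕ, (∀ i j, c i = c j → g i = g j) →
      ∃ G : ℕ × ℕ → ℕ, ∀ j, G (c j, s j) = g j := by
    intro g hg
    have h1 : g.FactorsThrough (fun j => (c j, s j)) := by
      intro i j h
      exact hg i j (congrArg Prod.fst h)
    exact ⟨Function.extend (fun j => (c j, s j)) g 0, fun j => h1.extend_apply 0 j⟩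
  obtain ⟨W, hWd⟩ := hext (fun j => om (S j)) (fun i j h => by
    obtain ⟨f⟩ := hcl i j h
    exact om_congr f)
  obtain ⟨o, ho⟩ := hext (fun j => oo (MulAut (S j))) (fun i j h => by
    obtain ⟨f⟩ := hcl i j h
    exact oo_congr (MulAut.congr f))
  obtain ⟨m, hm⟩ := hext (fun j => Nat.card (MulAut (S j))) (fun i j h => by
    obtain ⟨f⟩ := hcl i j h
    exact Nat.card_congr (MulAut.congr f).toEquiv)
  have key := om_types_ge a M hMi hM hna haut (fun j => (c j, s j)) hcc
    (fun p => Nat.multichoose (W p) p.2) (fun j => by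
      obtain ⟨e⟩ := hiM j
      haveI := hsim j
      rw [om_congr e]
      show Nat.multichoose (W (c j, s j)) (s j) ≤ _
      rw [hWd j]
      exact hpowS (hcen j) (s j))
  have k1 := oo_perm_grouped s c
  have k2 := hordS S s c o m hcl ho hm
  obtain ⟨P, hP⟩ : ∃ P : Finset (ℕ × ℕ), P = Finset.univ.image (fun j => (c j, s j)) := ⟨_, rfl⟩
  obtain ⟨k, hk⟩ : ∃ k : ℕ × ℕ → ℕ, k = fun p =>
    (Finset.univ.filter (fun j => (c j, s j) = p)).card := ⟨_, rfl⟩
  have hkp : ∀ p, (Finset.univ.filter (fun j => (c j, s j) = p)).card = k p := fun p => by rw [hk]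
  simp only [hkp] at key k1 k2
  rw [← hP] at key k1 k2
  calc (oo (∀ j, Equiv.Perm (Fin (s j))) * oo (∀ j, (Fin (s j) → MulAut (S j)))) ^ L
      ≤ ((∏ p ∈ P, (QQ p.2 (p.2 * k p)).card) * ∏ p ∈ P, min (o p ^ (p.2 * k p)) (m p)) ^ L :=
        Nat.pow_le_pow_left (Nat.mul_le_mul k1 k2) L
    _ = ∏ p ∈ P, ((QQ p.2 (p.2 * k p)).card * min (o p ^ (p.2 * k p)) (m p)) ^ L := by
        rw [← prod_mul_distrib, prod_pow]
    _ ≤ ∏ p ∈ P, Nat.multichoose (Nat.multichoose (W p) p.2) (k p) := by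
        refine prod_le_prod (fun _ _ => Nat.zero_le _) fun p hp => ?_
        have hk1 : 1 ≤ k p := by
          rw [hP, mem_image] at hp
          obtain ⟨j, -, hj⟩ := hp
          rw [hk]
          exact card_pos.2 ⟨j, mem_filter.2 ⟨mem_univ _, hj⟩⟩
        rw [hP, mem_image] at hp
        obtain ⟨j, -, hj⟩ := hp
        rw [← hj] at hk1 ⊢
        rw [hWd j, ho j, hm j]
        show ((QQ (s j) (s j * k (c j, s j))).card *
          min (oo (MulAut (S j)) ^ (s j * k (c j, s j))) (Nat.card (MulAut (S j)))) ^ L ≤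
          Nat.multichoose (Nat.multichoose (om (S j)) (s j)) (k (c j, s j))
        refine half ?_ ?_
        · exact hW2 (om (S j)) (s j) (k (c j, s j)) ((le_max_right _ _).trans (hW j)) (hs1 j)
            (hst j) hk1
        · refine (hW1 (om (S j)) (oo (MulAut (S j))) (Nat.card (MulAut (S j)))
            (s j * k (c j, s j)) ((le_max_left _ _).trans (hW j))
            (Nat.mul_pos (hs1 j) hk1) (hR j).2.2.1 ?_).trans (wexc_mc_mc _ _ _)
          have h1 := (hR j).2.2.2
          first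
            | exact h1
            | exact (Nat.pow_le_pow_left (Nat.le_succ _) 2).trans
                ((Nat.pow_le_pow_right (Nat.succ_pos _) (by norm_num)).trans h1)
    _ ≤ om H := key

end SR32.YLowerS90
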