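import Pool.Agent.SR32.DefsY
import Pool.Agent.SR32.QOrd

/-!
# Orders of elements of products of automorphism groups, grouped by isomorphism type
-/

namespace SR32

universe u

theorem yo_grouped {a : ℕ} {T : Type} [DecidableEq T] (c : Fin a → T) (G : Fin a → Type u)
    [∀ j, Group (G j)] [∀ j, Finite (G j)] :
    oo (∀ j, G j) ≤ ∏ p ∈ Finset.univ.image c, oo (∀ j : {j : Fin a // c j = p}, G j) := by
  classical
  let K : T → Type u := fun p => ∀ j : {j : Fin a // c j = p}, G j
  let f : (∀ j, G j) →* (∀ p : {p : T // p ∈ Finset.univ.image c}, K p) :=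
    { toFun := fun x p j => x j
      map_one' := rfl
      map_mul' := fun _ _ => rfl }
  have hf : Function.Injective f := by
    intro x y h
    funext j
    exact congrFun (congrFun h ⟨c j, Finset.mem_image_of_mem c (Finset.mem_univ j)⟩) ⟨j, rfl⟩
  have h1 : oo (∀ j, G j) ≤ ∏ p : {p : T // p ∈ Finset.univ.image c}, oo (K p) :=
    (oo_le_of_injective f hf).trans
      (oo_pi_le (fun p : {p : T // p ∈ Finset.univ.image c} => K p))
  rw [Finset.prod_coe_sort (Finset.univ.image c) (fun p => oo (K p))] at h1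
  exact h1

theorem yo_aut_finite (S : Type u) [Group S] [Finite S] : Finite (MulAut S) :=
  Finite.of_injective (fun φ : MulAut S => (φ : S → S)) DFunLike.coe_injective

theorem oo_aut_grouped {a : ℕ} (S : Fin a → Type u) [∀ j, Group (S j)] [∀ j, Finite (S j)]
    (s c : Fin a → ℕ) (o m : ℕ × ℕ → ℕ) (hc : ∀ i j, c i = c j → Nonempty (S i ≃* S j))
    (ho : ∀ j, o (c j, s j) = oo (MulAut (S j)))
    (hm : ∀ j, m (c j, s j) = Nat.card (MulAut (S j))) :
    oo (∀ j, (Fin (s j) → MulAut (S j))) ≤
      ∏ p ∈ Finset.univ.image (fun j => (c j, s j)),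
        min (o p ^ (p.2 * (Finset.univ.filter (fun j => (c j, s j) = p)).card)) (m p) := by
  classical
  have _ := hc
  have hfin : ∀ j, Finite (MulAut (S j)) := fun j => yo_aut_finite (S j)
  refine (yo_grouped (fun j => (c j, s j)) (fun j => (Fin (s j) → MulAut (S j)))).trans ?_
  refine Finset.prod_le_prod (fun _ _ => Nat.zero_le _) fun p hp => ?_
  have hs : ∀ j : {j : Fin a // (c j, s j) = p}, s j = p.2 := fun j => congrArg Prod.snd j.2
  have ho' : ∀ j : {j : Fin a // (c j, s j) = p}, oo (MulAut (S j)) = o p := fun j => by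
    rw [← ho, j.2]
  have hm' : ∀ j : {j : Fin a // (c j, s j) = p}, Nat.card (MulAut (S j)) = m p := fun j => by
    rw [← hm, j.2]
  refine le_min ?_ ?_
  · have h1 : oo (∀ j : {j : Fin a // (c j, s j) = p}, (Fin (s j) → MulAut (S j))) ≤
        ∏ j : {j : Fin a // (c j, s j) = p}, oo (Fin (s j) → MulAut (S j)) :=
      oo_pi_le (fun j : {j : Fin a // (c j, s j) = p} => (Fin (s j) → MulAut (S j)))
    refine h1.trans ?_
    have h2 : ∀ j : {j : Fin a // (c j, s j) = p},
        oo (Fin (s j) → MulAut (S j)) ≤ o p ^ p.2 := by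
      intro j
      have h3 : oo (Fin (s j) → MulAut (S j)) ≤ ∏ _i : Fin (s j), oo (MulAut (S j)) :=
        oo_pi_le (fun _i : Fin (s j) => MulAut (S j))
      refine h3.trans (le_of_eq ?_)
      rw [Finset.prod_const, Finset.card_univ, Fintype.card_fin, ho' j, hs j]
    refine (Finset.prod_le_prod (fun _ _ => Nat.zero_le _) fun j _ => h2 j).trans (le_of_eq ?_)
    rw [Finset.prod_const, Finset.card_univ, Fintype.card_subtype, pow_mul]
  · obtain ⟨j0, -, hj0⟩ := Finset.mem_image.1 hp
    have hm0 : m p ≠ 0 := by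
      rw [← hm' ⟨j0, hj0⟩]
      exact Nat.card_pos.ne'
    have h1 : oo (∀ j : {j : Fin a // (c j, s j) = p}, (Fin (s j) → MulAut (S j))) ≤
        (m p).divisors.card := by
      unfold oo
      rw [← Set.ncard_coe_finset]
      refine Set.ncard_le_ncard ?_ (Finset.finite_toSet _)
      rintro _ ⟨x, rfl⟩
      rw [Finset.mem_coe, Nat.mem_divisors]
      refine ⟨orderOf_dvd_of_pow_eq_one ?_, hm0⟩
      funext j i
      show (x j i) ^ (m p) = 1
      rw [← hm' j]
      exact pow_card_eq_one'
    exact h1.trans (Nat.card_divisors_le_self _)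

end SR32
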