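import Pool.Agent.SR32.YPow
import Pool.Agent.SR32.YOrd
import Pool.Agent.SR32.YLowerS90

/-!
# SR32/YLower: the lower bound for minimal normal subgroups with rich simple factors (lowerY)
-/

namespace SR32

universe u

open Filter

theorem lowerY (L t : ℕ) (η : ℕ → ℕ) (hη : Tendsto η atTop atTop) : ∃ W0 : ℕ,
    ∀ (H : Type u) [Group H] [Finite H] (a : ℕ) (M : Fin a → Subgroup H) (S : Fin a → Type u)
      [∀ j, Group (S j)] [∀ j, Finite (S j)] (s : Fin a → ℕ),
      Function.Injective M → (∀ j, IsMinNormal (M j)) →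
      (∀ (φ : H ≃* H) (j : Fin a), ∃ k, (M j).map φ.toMonoidHom = M k) →
      (∀ j, Rich η (S j)) → (∀ j, W0 ≤ om (S j)) → (∀ j, s j ≤ t * om (S j) ^ 2) →
      (∀ j, Nonempty (M j ≃* (Fin (s j) → S j))) →
      (oo (∀ j, Equiv.Perm (Fin (s j))) * oo (∀ j, (Fin (s j) → MulAut (S j)))) ^ L ≤ om H :=
  YLowerS90.lowerY_of om_powS_ge powS_iso oo_aut_grouped L t η hη

end SR32
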