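import Pool.Agent.SR32.YMin
import Pool.Agent.SR32.YAct
import Pool.Agent.SR32.YLower
import Pool.Agent.SR32.Quot

/-!
# Element orders modulo the centralizer of the minimal normal subgroups with rich factors
-/

set_option autoImplicit false

namespace SR32

universe u

open Filter

theorem rich_congr {η : ℕ → ℕ} {S S' : Type u} [Group S] [Group S'] (e : S ≃* S')
    (h : Rich η S) : Rich η S' := by
  obtain ⟨h1, ⟨x, y, hxy⟩, h3, h4⟩ := h
  have e' : MulAut S ≃* MulAut S' := MulAut.congr e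
  refine ⟨(MulEquiv.isSimpleGroup_congr e).1 h1, ⟨e x, e y, ?_⟩, ?_, ?_⟩
  · intro h
    apply hxy
    apply e.injective
    rw [map_mul, map_mul, h]
  · rw [← oo_congr e', ← om_congr e]
    exact h3
  · rw [← Nat.card_congr e'.toEquiv, ← om_congr e]
    exact h4

theorem goodC_map {η : ℕ → ℕ} {W t : ℕ} {Q : Type u} [Group Q] (φ : Q ≃* Q) {K : Subgroup Q}
    (h : GoodC η W t K) : GoodC η W t (K.map φ.toMonoidHom) := by
  obtain ⟨S, s, h1, h2, h3, ⟨e⟩⟩ := h
  let ψ : K ≃* K.map φ.toMonoidHom := φ.subgroupMap K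
  let χ : S ≃* S.map ψ.toMonoidHom := ψ.subgroupMap S
  refine ⟨S.map ψ.toMonoidHom, s, rich_congr χ h1, ?_, ?_, ⟨?_⟩⟩
  · rw [← om_congr χ]; exact h2
  · rw [← om_congr χ]; exact h3
  · exact ψ.symm.trans (e.trans (MulEquiv.piCongrRight fun _ => χ))

theorem kindC (L t : ℕ) (η : ℕ → ℕ) (hη : Tendsto η atTop atTop) : ∃ W0 : ℕ,
    ∀ (Q : Type u) [Group Q] [Finite Q] (C : Subgroup Q) [C.Normal],
      (∀ z : Q, z ∈ C ↔ ∀ M : Subgroup Q, IsMinNormal M → GoodC η W0 t M →
        ∀ y ∈ M, z * y = y * z) →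
      oo (Q ⧸ C) ^ L ≤ om Q := by
  classical
  obtain ⟨W0, hW0⟩ := lowerY.{u} L t η hη
  refine ⟨W0, ?_⟩
  intro Q _ _ C _ hC
  obtain ⟨a, ⟨ν⟩⟩ := Finite.exists_equiv_fin {K : Subgroup Q // IsMinNormal K ∧ GoodC η W0 t K}
  let M : Fin a → Subgroup Q := fun j => (ν.symm j).1
  have hM : ∀ j, IsMinNormal (M j) := fun j => (ν.symm j).2.1
  have hG : ∀ j, GoodC η W0 t (M j) := fun j => (ν.symm j).2.2
  have hall : ∀ K : Subgroup Q, IsMinNormal K → GoodC η W0 t K → ∃ j, M j = K := by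
    intro K hK hK'
    refine ⟨ν ⟨K, hK, hK'⟩, ?_⟩
    show (ν.symm (ν ⟨K, hK, hK'⟩)).1 = K
    rw [Equiv.symm_apply_apply]
  have hMinj : Function.Injective M := fun i j hij => ν.symm.injective (Subtype.ext hij)
  have haut : ∀ (φ : Q ≃* Q) (j : Fin a), ∃ k, (M j).map φ.toMonoidHom = M k := by
    intro φ j
    obtain ⟨k, hk⟩ := hall ((M j).map φ.toMonoidHom) (st_map_min φ (hM j)) (goodC_map φ (hG j))
    exact ⟨k, hk.symm⟩
  choose S s hrich hW hs he using hG
  have h1 := hW0 Q a M (fun j => (S j : Type u)) s hMinj hM haut hrich hW hs he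
  have h2 := oo_quot_act a M (fun j => (hM j).1) (fun j => (S j : Type u))
    (fun j => (hrich j).1) (fun j => rich_center (hrich j)) s (fun j => (he j).some) C (by
      intro z
      rw [hC]
      constructor
      · intro h j y hy
        exact h (M j) (hM j) ⟨S j, s j, hrich j, hW j, hs j, he j⟩ y hy
      · intro h K hK hK' y hy
        obtain ⟨j, rfl⟩ := hall K hK hK'
        exact h j y hy)
  exact (Nat.pow_le_pow_left h2 L).trans h1

end SR32
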