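import Pool.Agent.SR32.DefsX
import Pool.Agent.SR32.XAct
import Pool.Agent.SR32.XLower
import Pool.Agent.SR32.YKindC
import Pool.Agent.SR32.ZOrb

/-!
# Element orders modulo the centralizer of the minimal normal subgroups of the kind `GoodD`
-/

set_option autoImplicit false

namespace SR32

universe u

open Filter

theorem xcenter {S : Type u} [Group S] (hS : IsSimpleGroup S) (hna : ∃ x y : S, x * y ≠ y * x) :
    Subgroup.center S = ⊥ := by
  obtain ⟨x, y, hxy⟩ := hna
  rcases hS.eq_bot_or_eq_top_of_normal (Subgroup.center S) inferInstance with h | h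
  · exact h
  · exfalso
    apply hxy
    have h2 : x ∈ Subgroup.center S := by rw [h]; exact Subgroup.mem_top _
    exact (Subgroup.mem_center_iff.1 h2 y).symm

theorem goodD_map {η : ℕ → ℕ} {W s0 t T : ℕ} {Q : Type u} [Group Q] [Finite Q] (φ : Q ≃* Q)
    {K : Subgroup Q} (h : GoodD η W s0 t T K) : GoodD η W s0 t T (K.map φ.toMonoidHom) := by
  obtain ⟨S, s, h1, ⟨x, y, hxy⟩, h3, h4, h5, ⟨e⟩⟩ := h
  let ψ : K ≃* K.map φ.toMonoidHom := φ.subgroupMap K
  let χ : S ≃* S.map ψ.toMonoidHom := ψ.subgroupMap S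
  refine ⟨S.map ψ.toMonoidHom, s, (MulEquiv.isSimpleGroup_congr χ).1 h1, ⟨χ x, χ y, ?_⟩, ?_, h4,
    ?_, ⟨?_⟩⟩
  · intro h
    apply hxy
    apply χ.injective
    rw [map_mul, map_mul, h]
  · rcases h3 with h3 | ⟨h3, h3'⟩
    · left
      rw [← Nat.card_congr χ.toEquiv]
      exact h3
    · right
      exact ⟨rich_congr χ h3, by rw [← om_congr χ]; exact h3'⟩
  · rcases h5 with h5 | h5
    · left
      exact (facNorm_map_index φ K).trans h5
    · right
      rw [← om_congr χ]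
      exact (Nat.mul_le_mul_left _ (autFac_map φ K)).trans h5
  · exact ψ.symm.trans (e.trans (MulEquiv.piCongrRight fun _ => χ))

theorem kindD (L t : ℕ) (η : ℕ → ℕ) (hη : Tendsto η atTop atTop) : ∃ s0 W0 : ℕ, ∀ T : ℕ,
    ∃ c : ℝ, 0 < c ∧ ∀ (Q : Type u) [Group Q] [Finite Q] (C : Subgroup Q) [C.Normal],
      (∀ z : Q, z ∈ C ↔ ∀ M : Subgroup Q, IsMinNormal M → GoodD η W0 s0 t T M →
        ∀ y ∈ M, z * y = y * z) →
      c * (oo (Q ⧸ C) : ℝ) ^ L ≤ (om Q : ℝ) := by
  classical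
  obtain ⟨s0, W0, hW0⟩ := lowerX.{u} L t η hη
  refine ⟨s0, W0, fun T => ?_⟩
  obtain ⟨c, hc0, hc⟩ := hW0 T
  refine ⟨c, hc0, ?_⟩
  intro Q _ _ C _ hC
  obtain ⟨a, ⟨ν⟩⟩ :=
    Finite.exists_equiv_fin {K : Subgroup Q // IsMinNormal K ∧ GoodD η W0 s0 t T K}
  let M : Fin a → Subgroup Q := fun j => (ν.symm j).1
  have hM : ∀ j, IsMinNormal (M j) := fun j => (ν.symm j).2.1
  have hG : ∀ j, GoodD η W0 s0 t T (M j) := fun j => (ν.symm j).2.2
  have hall : ∀ K : Subgroup Q, IsMinNormal K → GoodD η W0 s0 t T K → ∃ j, M j = K := by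
    intro K hK hK'
    refine ⟨ν ⟨K, hK, hK'⟩, ?_⟩
    show (ν.symm (ν ⟨K, hK, hK'⟩)).1 = K
    rw [Equiv.symm_apply_apply]
  have hMinj : Function.Injective M := fun i j hij => ν.symm.injective (Subtype.ext hij)
  have haut : ∀ (φ : Q ≃* Q) (j : Fin a), ∃ k, (M j).map φ.toMonoidHom = M k := by
    intro φ j
    obtain ⟨k, hk⟩ := hall ((M j).map φ.toMonoidHom) (st_map_min φ (hM j)) (goodD_map φ (hG j))
    exact ⟨k, hk.symm⟩
  choose S s hsim hna hT hs hfac he using hG
  obtain ⟨I, hI, hoo⟩ := oo_quot_image a M (fun j => (hM j).1) (fun j => (S j : Type u))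
    hsim (fun j => xcenter (hsim j) (hna j)) s (fun j => (he j).some) C (by
      intro z
      rw [hC]
      constructor
      · intro h j y hy
        exact h (M j) (hM j) ⟨S j, s j, hsim j, hna j, hT j, hs j, hfac j, he j⟩ y hy
      · intro h K hK hK' y hy
        obtain ⟨j, rfl⟩ := hall K hK hK'
        exact h j y hy)
  have h1 := hc Q a M (fun j => (S j : Type u)) s hMinj hM haut hsim hna hT hs he I (by
    intro j
    rcases hfac j with h | h
    · exact Or.inl ((hI j).trans h)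
    · exact Or.inr h)
  refine le_trans ?_ h1
  refine mul_le_mul_of_nonneg_left ?_ hc0.le
  refine pow_le_pow_left₀ (Nat.cast_nonneg _) ?_ L
  exact_mod_cast hoo

end SR32
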