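import Pool.Agent.SR32.Perm
import Pool.Agent.SR32.DefsT

/-!
# The socle of a finite group whose minimal normal subgroups are powers of alternating groups

Different minimal normal subgroups meet trivially, so they commute; they have trivial centre, so their
join is their direct product.  The join is characteristic, and its centralizer is trivial: otherwise it
contains a minimal normal subgroup, which is then abelian.
-/

set_option autoImplicit false

namespace SR32

/-- the centre of a power of an alternating group is trivial -/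
theorem st_center_pi {d s : ℕ} (h5 : 5 ≤ d) (z : Fin s → A d)
    (hz : ∀ x : Fin s → A d, z * x = x * z) : z = 1 := by
  classical
  funext i
  have h : z i ∈ Subgroup.center (A d) := by
    rw [Subgroup.mem_center_iff]
    intro g
    have h1 := congrFun (hz (Pi.mulSingle i g)) i
    rw [Pi.mul_apply, Pi.mul_apply, Pi.mulSingle_eq_same] at h1
    exact h1.symm
  have hc : Subgroup.center (A d) = ⊥ := alternatingGroup.center_eq_bot (by
    rw [Nat.card_eq_fintype_card, Fintype.card_fin]
    omega)
  rw [hc, Subgroup.mem_bot] at h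
  exact h

/-- an element of `M` commuting with `M` is trivial -/
theorem st_center {H : Type*} [Group H] {M : Subgroup H} {d s : ℕ} (h5 : 5 ≤ d)
    (φ : M ≃* (Fin s → A d)) (z : M) (hz : ∀ y : M, z * y = y * z) : z = 1 := by
  have h1 : φ z = 1 := by
    apply st_center_pi h5
    intro x
    rw [← φ.apply_symm_apply x, ← map_mul, ← map_mul, hz]
  exact (MulEquiv.map_eq_one_iff φ).1 h1

/-- a nontrivial normal subgroup contains a minimal one -/
theorem st_exists_min {H : Type*} [Group H] [Finite H] (C : Subgroup H) (hC : C.Normal)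
    (hne : C ≠ ⊥) : ∃ M : Subgroup H, IsMinNormal M ∧ M ≤ C := by
  obtain ⟨M, hM⟩ := Set.Finite.exists_minimal
    (s := {K : Subgroup H | K.Normal ∧ K ≠ ⊥ ∧ K ≤ C}) (Set.toFinite _) ⟨C, hC, hne, le_refl _⟩
  obtain ⟨⟨h1, h2, h3⟩, h4⟩ := hM
  refine ⟨M, ⟨h1, h2, ?_⟩, h3⟩
  intro K hK hKM
  by_cases hb : K = ⊥
  · exact Or.inl hb
  · right
    exact le_antisymm hKM (h4 ⟨hK, hb, hKM.trans h3⟩ hKM)

/-- automorphisms preserve minimal normal subgroups -/
theorem st_map_min {H : Type*} [Group H] (φ : H ≃* H) {M : Subgroup H} (hM : IsMinNormal M) :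
    IsMinNormal (M.map φ.toMonoidHom) := by
  obtain ⟨h1, h2, h3⟩ := hM
  refine ⟨h1.map _ φ.surjective, ?_, ?_⟩
  · intro h
    apply h2
    exact (Subgroup.map_eq_bot_iff_of_injective M (f := φ.toMonoidHom) φ.injective).1 h
  · intro K hK hKM
    have e1 : (K.map φ.symm.toMonoidHom).map φ.toMonoidHom = K := by
      rw [Subgroup.map_map]
      have : φ.toMonoidHom.comp φ.symm.toMonoidHom = MonoidHom.id H := by
        ext x
        simp
      rw [this, Subgroup.map_id]
    have e2 : (M.map φ.toMonoidHom).map φ.symm.toMonoidHom = M := by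
      rw [Subgroup.map_map]
      have : φ.symm.toMonoidHom.comp φ.toMonoidHom = MonoidHom.id H := by
        ext x
        simp
      rw [this, Subgroup.map_id]
    have h4 : K.map φ.symm.toMonoidHom ≤ M := by
      have := Subgroup.map_mono (f := φ.symm.toMonoidHom) hKM
      rwa [e2] at this
    rcases h3 _ (hK.map _ φ.symm.surjective) h4 with h | h
    · left
      rw [← e1, h, Subgroup.map_bot]
    · right
      rw [← e1, h]

theorem structure_thmT_s92 {H : Type*} [Group H] [Finite H] (P : ℕ → ℕ → Prop)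
    (hmin : ∀ M : Subgroup H, IsMinNormal M →
      ∃ d s : ℕ, 5 ≤ d ∧ P d s ∧ Nonempty (M ≃* (Fin s → A d))) :
    ∃ N : Subgroup H, N.Characteristic ∧ Subgroup.centralizer (N : Set H) = ⊥ ∧
      ∃ (a : ℕ) (d s : Fin a → ℕ) (e : (∀ j, (Fin (s j) → A (d j))) ≃* N),
        (∀ j, 5 ≤ d j) ∧ (∀ j, P (d j) (s j)) ∧
        ∀ (h : H) (j : Fin a) (x : Fin (s j) → A (d j)), ∃ y : Fin (s j) → A (d j),
          h * (e (Pi.mulSingle j x) : H) * h⁻¹ = (e (Pi.mulSingle j y) : H) := by
  classical
  -- enumerate the minimal normal subgroups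
  obtain ⟨a, ⟨ν⟩⟩ := Finite.exists_equiv_fin {M : Subgroup H // IsMinNormal M}
  let M : Fin a → Subgroup H := fun j => (ν.symm j).1
  have hM : ∀ j, IsMinNormal (M j) := fun j => (ν.symm j).2
  have hall : ∀ K : Subgroup H, IsMinNormal K → ∃ j, M j = K := by
    intro K hK
    refine ⟨ν ⟨K, hK⟩, ?_⟩
    show (ν.symm (ν ⟨K, hK⟩)).1 = K
    rw [Equiv.symm_apply_apply]
  have hMinj : Function.Injective M := fun i j hij => ν.symm.injective (Subtype.ext hij)
  choose d s h5 hP hφ using fun j => hmin (M j) (hM j)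
  have φ : ∀ j, (M j) ≃* (Fin (s j) → A (d j)) := fun j => (hφ j).some
  have hcomm : Pairwise fun i j : Fin a => ∀ x y : H, x ∈ M i → y ∈ M j → Commute x y := by
    intro i j hij
    apply Subgroup.commute_of_normal_of_disjoint _ _ (hM i).1 (hM j).1
    rw [disjoint_iff]
    have hn : (M i ⊓ M j).Normal := by
      have := (hM i).1
      have := (hM j).1
      infer_instance
    rcases (hM i).2.2 _ hn inf_le_left with h | h
    · exact h
    · rcases (hM j).2.2 (M i) (hM i).1 (by rw [← h]; exact inf_le_right) with h' | h'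
      · exact absurd h' (hM i).2.1
      · exact absurd (hMinj h') hij
  let f : (∀ j, M j) →* H := Subgroup.noncommPiCoprod hcomm
  have hf : ∀ (j : Fin a) (y : M j), f (Pi.mulSingle j y) = (y : H) := fun j y =>
    Subgroup.noncommPiCoprod_mulSingle j y
  have hinj : Function.Injective f := by
    rw [injective_iff_map_eq_one]
    intro x hx
    funext j
    apply st_center (h5 j) (φ j)
    intro y
    have h1 : f (x * Pi.mulSingle j y * x⁻¹) = (y : H) := by
      rw [map_mul, map_mul, map_inv, hx, hf]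
      group
    rw [perm_conj_single, hf] at h1
    have h2 : x j * y * (x j)⁻¹ = y := Subtype.ext h1
    calc x j * y = x j * y * (x j)⁻¹ * x j := by group
      _ = y * x j := by rw [h2]
  have hrange : f.range = ⨆ j, M j := Subgroup.noncommPiCoprod_range
  have hMle : ∀ j, M j ≤ f.range := by
    intro j
    rw [hrange]
    exact le_iSup M j
  have hchar : f.range.Characteristic := by
    rw [Subgroup.characteristic_iff_map_le]
    intro ψ
    rw [hrange, Subgroup.map_iSup]
    apply iSup_le
    intro j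
    obtain ⟨k, hk⟩ := hall _ (st_map_min ψ (hM j))
    rw [← hk]
    exact le_iSup M k
  refine ⟨f.range, hchar, ?_, a, d, s,
    (MulEquiv.piCongrRight (fun j => (φ j).symm)).trans (MonoidHom.ofInjective hinj), h5, hP, ?_⟩
  · by_contra hne
    have hnorm : f.range.Normal := inferInstance
    obtain ⟨K, hK, hKC⟩ := st_exists_min (Subgroup.centralizer (f.range : Set H)) inferInstance hne
    obtain ⟨j, hj⟩ := hall K hK
    apply hK.2.1
    rw [← hj, Subgroup.eq_bot_iff_forall]
    intro x hx
    have h1 : (⟨x, hx⟩ : M j) = 1 := by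
      apply st_center (h5 j) (φ j)
      intro y
      have h2 : x ∈ Subgroup.centralizer (f.range : Set H) := hKC (hj ▸ hx)
      rw [Subgroup.mem_centralizer_iff] at h2
      have h3 := h2 y (hMle j y.2)
      exact Subtype.ext h3.symm
    exact congrArg Subtype.val h1
  · have he : ∀ (j : Fin a) (x : Fin (s j) → A (d j)),
        (((MulEquiv.piCongrRight (fun j => (φ j).symm)).trans (MonoidHom.ofInjective hinj))
          (Pi.mulSingle j x) : H) = ((φ j).symm x : H) := by
      intro j x
      rw [MulEquiv.trans_apply, MonoidHom.ofInjective_apply]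
      have : (MulEquiv.piCongrRight (fun j => (φ j).symm)) (Pi.mulSingle j x) =
          Pi.mulSingle j ((φ j).symm x) := by
        funext k
        rw [MulEquiv.piCongrRight_apply]
        by_cases h : k = j
        · subst h
          simp
        · simp [Pi.mulSingle_eq_of_ne h]
      rw [this, hf]
    intro h j x
    refine ⟨φ j ⟨h * ((φ j).symm x : H) * h⁻¹, (hM j).1.conj_mem _ ((φ j).symm x).2 h⟩, ?_⟩
    rw [he, he, MulEquiv.symm_apply_apply]

theorem structure_thm_s92 {H : Type*} [Group H] [Finite H]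
    (hmin : ∀ M : Subgroup H, IsMinNormal M → ∃ d : ℕ, 5 ≤ d ∧ Nonempty (M ≃* A d)) :
    ∃ N : Subgroup H, N.Characteristic ∧ Subgroup.centralizer (N : Set H) = ⊥ ∧
      ∃ (r : ℕ) (n : Fin r → ℕ) (e : (∀ i, A (n i)) ≃* N), (∀ i, 5 ≤ n i) ∧
        ∀ (h : H) (i : Fin r) (x : A (n i)), ∃ y : A (n i),
          h * (e (Pi.mulSingle i x) : H) * h⁻¹ = (e (Pi.mulSingle i y) : H) := by
  obtain ⟨N, h1, h2, a, d, s, e, h5, hs, hn⟩ :=
    structure_thmT_s92 (H := H) (fun _ s => s = 1) (by
      intro M hM
      obtain ⟨d, h5, ⟨φ⟩⟩ := hmin M hM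
      exact ⟨d, 1, h5, rfl, ⟨φ.trans (MulEquiv.funUnique (Fin 1) (A d)).symm⟩⟩)
  have hs' : s = fun _ => 1 := funext hs
  subst hs'
  let ε : (∀ i, A (d i)) ≃* (∀ i, Fin 1 → A (d i)) :=
    MulEquiv.piCongrRight (fun i => (MulEquiv.funUnique (Fin 1) (A (d i))).symm)
  have hε : ∀ (i : Fin a) (x : A (d i)), ε (Pi.mulSingle i x) = Pi.mulSingle i (fun _ => x) := by
    intro i x
    funext k l
    show (Pi.mulSingle i x : ∀ i, A (d i)) k = _
    by_cases h : k = i
    · subst h
      simp
    · rw [Pi.mulSingle_eq_of_ne h, Pi.mulSingle_eq_of_ne h]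
      rfl
  refine ⟨N, h1, h2, a, d, ε.trans e, h5, ?_⟩
  intro h i x
  obtain ⟨y, hy⟩ := hn h i (fun _ => x)
  refine ⟨y 0, ?_⟩
  rw [MulEquiv.trans_apply, MulEquiv.trans_apply, hε, hε, hy]
  congr 4
  funext k
  rw [Subsingleton.elim k 0]

end SR32
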