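import Pool.Agent.SR32.DefsY
import Pool.Agent.SR32.StructS92

/-!
# Automorphism classes of a minimal normal subgroup; rich groups with few classes are small
-/

set_option autoImplicit false

namespace SR32

universe u

theorem om_min_le {H : Type u} [Group H] [Finite H] (M : Subgroup H) (hM : IsMinNormal M) :
    om M ≤ om H := by
  unfold om
  have hfq : Finite (MulAction.orbitRel.Quotient (MulAut H) H) := Quotient.finite _
  refine Nat.card_le_card_of_injective
    (fun q : MulAction.orbitRel.Quotient (MulAut M) M =>
      (Quotient.mk'' ((Quotient.out q : M) : H) :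
        MulAction.orbitRel.Quotient (MulAut H) H)) ?_
  intro p q hpq
  have h1 : MulAction.orbitRel (MulAut H) H ((Quotient.out p : M) : H)
      ((Quotient.out q : M) : H) := Quotient.exact hpq
  rw [MulAction.orbitRel_apply] at h1
  obtain ⟨φ, hφ⟩ := h1
  have hφ' : φ ((Quotient.out q : M) : H) = ((Quotient.out p : M) : H) := hφ
  by_cases hq : (Quotient.out q : M) = 1
  · have hp : (Quotient.out p : M) = 1 := by
      apply Subtype.ext
      rw [← hφ', hq]
      exact map_one φ
    rw [← Quotient.out_eq p, ← Quotient.out_eq q, hp, hq]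
  · have hp : (Quotient.out p : M) ≠ 1 := by
      intro hp
      apply hq
      apply Subtype.ext
      apply φ.injective
      rw [hφ', hp]
      exact (map_one φ).symm
    have hmap : M.map φ.toMonoidHom = M := by
      have hM' := st_map_min φ hM
      have hn : (M ⊓ M.map φ.toMonoidHom).Normal := by
        have := hM.1
        have := hM'.1
        infer_instance
      rcases hM.2.2 _ hn inf_le_left with h | h
      · exfalso
        have h1 : ((Quotient.out p : M) : H) ∈ M ⊓ M.map φ.toMonoidHom :=
          Subgroup.mem_inf.2 ⟨(Quotient.out p : M).2, by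
            rw [← hφ']; exact Subgroup.mem_map_of_mem _ (Quotient.out q : M).2⟩
        rw [h, Subgroup.mem_bot] at h1
        exact hp (Subtype.ext h1)
      · rcases hM'.2.2 M hM.1 (inf_eq_left.1 h) with h' | h'
        · exact absurd h' hM.2.1
        · exact h'.symm
    have h2 : MulAction.orbitRel (MulAut M) M (Quotient.out p : M) (Quotient.out q : M) := by
      rw [MulAction.orbitRel_apply]
      exact ⟨(φ.subgroupMap M).trans (MulEquiv.subgroupCongr hmap), Subtype.ext hφ⟩
    rw [← Quotient.out_eq p, ← Quotient.out_eq q]
    exact Quotient.sound h2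

theorem card_le_aut {S : Type u} [Group S] [Finite S] (hc : Subgroup.center S = ⊥) :
    Nat.card S ≤ Nat.card (MulAut S) := by
  refine Nat.card_le_card_of_injective (MulAut.conj : S →* MulAut S) ?_
  rw [injective_iff_map_eq_one]
  intro x hx
  have h1 : x ∈ Subgroup.center S := by
    rw [Subgroup.mem_center_iff]
    intro g
    have h2 := DFunLike.congr_fun hx g
    rw [MulAut.conj_apply, MulAut.one_apply] at h2
    calc g * x = x * g * x⁻¹ * x := by rw [h2]
      _ = x * g := by group
  rw [hc, Subgroup.mem_bot] at h1
  exact h1

theorem rich_center {η : ℕ → ℕ} {S : Type u} [Group S] (h : Rich η S) :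
    Subgroup.center S = ⊥ := by
  obtain ⟨hS, ⟨x, y, hxy⟩, -⟩ := h
  rcases hS.eq_bot_or_eq_top_of_normal (Subgroup.center S) inferInstance with h | h
  · exact h
  · exfalso
    apply hxy
    have h2 : x ∈ Subgroup.center S := by rw [h]; exact Subgroup.mem_top _
    exact (Subgroup.mem_center_iff.1 h2 y).symm

/-- A rich group with few classes is small. -/
theorem rich_card {η : ℕ → ℕ} {S : Type u} [Group S] [Finite S] (h : Rich η S) :
    Nat.card S ≤ 2 ^ om S := by
  refine (card_le_aut (rich_center h)).trans ?_
  have h1 : Nat.card (MulAut S) < 2 ^ (Nat.log 2 (Nat.card (MulAut S)) + 1) :=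
    Nat.lt_pow_succ_log_self (by norm_num) _
  refine h1.le.trans (Nat.pow_le_pow_right (by norm_num) ?_)
  exact (Nat.le_self_pow (by norm_num) _).trans h.2.2.2

end SR32
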