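import Pool.Agent.SR32.UCenter
import Pool.Agent.SR32.YMin
import Pool.Agent.SR32.StructS92

/-!
# SR32/YTwo: two normal subgroups with trivial intersection; the centralizer of a family (helper97)

`yg_tameY_lower_of` = `tameY_lower` with `kindC` and `kindAB` as hypotheses.
-/

set_option autoImplicit false

namespace SR32

universe u

open Filter

theorem oo_le_two {Q : Type u} [Group Q] [Finite Q] (C D : Subgroup Q) [C.Normal] [D.Normal]
    (h : C ⊓ D = ⊥) : oo Q ≤ oo (Q ⧸ C) * oo (Q ⧸ D) := by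
  classical
  unfold oo
  have hsub : Set.range (fun g : Q => orderOf g) ⊆
      (fun p : ℕ × ℕ => Nat.lcm p.1 p.2) ''
        (Set.range (fun g : Q ⧸ C => orderOf g) ×ˢ Set.range (fun g : Q ⧸ D => orderOf g)) := by
    rintro _ ⟨g, rfl⟩
    refine ⟨(orderOf (g : Q ⧸ C), orderOf (g : Q ⧸ D)), ⟨⟨_, rfl⟩, ⟨_, rfl⟩⟩, ?_⟩
    show Nat.lcm (orderOf (g : Q ⧸ C)) (orderOf (g : Q ⧸ D)) = orderOf g
    apply Nat.dvd_antisymm
    · apply Nat.lcm_dvd
      · rw [orderOf_dvd_iff_pow_eq_one, ← QuotientGroup.mk_pow, pow_orderOf_eq_one]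
        rfl
      · rw [orderOf_dvd_iff_pow_eq_one, ← QuotientGroup.mk_pow, pow_orderOf_eq_one]
        rfl
    · rw [orderOf_dvd_iff_pow_eq_one]
      have h1 : g ^ Nat.lcm (orderOf (g : Q ⧸ C)) (orderOf (g : Q ⧸ D)) ∈ C := by
        rw [← QuotientGroup.eq_one_iff, QuotientGroup.mk_pow]
        exact orderOf_dvd_iff_pow_eq_one.1 (Nat.dvd_lcm_left _ _)
      have h2 : g ^ Nat.lcm (orderOf (g : Q ⧸ C)) (orderOf (g : Q ⧸ D)) ∈ D := by
        rw [← QuotientGroup.eq_one_iff, QuotientGroup.mk_pow]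
        exact orderOf_dvd_iff_pow_eq_one.1 (Nat.dvd_lcm_right _ _)
      have h3 := Subgroup.mem_inf.2 ⟨h1, h2⟩
      rw [h, Subgroup.mem_bot] at h3
      exact h3
  refine (Set.ncard_le_ncard hsub (Set.toFinite _)).trans ?_
  refine (Set.ncard_image_le (Set.toFinite _)).trans ?_
  rw [Set.ncard_prod]

/-- the centralizer of a family of normal subgroups -/
theorem exists_cent {Q : Type u} [Group Q] (P : Subgroup Q → Prop)
    (hP : ∀ M : Subgroup Q, P M → M.Normal) :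
    ∃ C : Subgroup Q, C.Normal ∧ ∀ z : Q, z ∈ C ↔ ∀ M : Subgroup Q, P M → ∀ y ∈ M, z * y = y * z := by
  let C : Subgroup Q :=
    { carrier := {z | ∀ M : Subgroup Q, P M → ∀ y ∈ M, z * y = y * z}
      one_mem' := fun M _ y _ => by rw [one_mul, mul_one]
      mul_mem' := fun {a b} ha hb M hM y hy => by
        rw [mul_assoc, hb M hM y hy, ← mul_assoc, ha M hM y hy, mul_assoc]
      inv_mem' := fun {a} ha M hM y hy => by
        have h := ha M hM y hy
        calc a⁻¹ * y = a⁻¹ * (y * a) * a⁻¹ := by group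
          _ = a⁻¹ * (a * y) * a⁻¹ := by rw [h]
          _ = y * a⁻¹ := by group }
  refine ⟨C, ⟨fun a ha g M hM y hy => ?_⟩, fun z => Iff.rfl⟩
  have h1 : g⁻¹ * y * g ∈ M := by
    have := (hP M hM).conj_mem y hy g⁻¹
    rwa [inv_inv] at this
  have h2 := ha M hM _ h1
  calc g * a * g⁻¹ * y = g * (a * (g⁻¹ * y * g)) * g⁻¹ := by group
    _ = g * ((g⁻¹ * y * g) * a) * g⁻¹ := by rw [h2]
    _ = y * (g * a * g⁻¹) := by group

theorem yg_AB_mono {t t' : ℕ} (htt : t ≤ t') {Q : Type u} [Group Q] {M : Subgroup Q}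
    (hM : IsMinNormal M) (h : GoodAB t M) : GoodAB t' M := by
  rcases h with ⟨h1, h2⟩ | ⟨d, s, hd, h1, ⟨e⟩⟩
  · exact Or.inl ⟨h1, h2.trans htt⟩
  · refine Or.inr ⟨d, s, hd, ?_, ⟨e⟩⟩
    rcases h1 with h1 | h1 | h1
    · exact Or.inl (h1.trans (Nat.mul_le_mul_right _ htt))
    · rcases Nat.eq_zero_or_pos s with hs | hs
      · exfalso
        apply hM.2.1
        rw [Subgroup.eq_bot_iff_forall]
        intro x hx
        have h2 : (⟨x, hx⟩ : M) = 1 := by
          apply e.injective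
          funext i
          subst hs
          exact i.elim0
        exact congrArg Subtype.val h2
      · exact Or.inr (Or.inl (h1.trans (Nat.pow_le_pow_right hs htt)))
    · exact Or.inr (Or.inr h1)

theorem yg_nonab {Q : Type u} [Group Q] {M : Subgroup Q} (hM : IsMinNormal M)
    {S : Type u} [Group S] (hS : ∃ x y : S, x * y ≠ y * x) {s : ℕ} (e : M ≃* (Fin s → S)) :
    ∃ x ∈ M, ∃ y ∈ M, x * y ≠ y * x := by
  obtain ⟨x, y, hxy⟩ := hS
  have hs : 0 < s := by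
    rcases Nat.eq_zero_or_pos s with hs | hs
    · exfalso
      apply hM.2.1
      rw [Subgroup.eq_bot_iff_forall]
      intro x hx
      have h2 : (⟨x, hx⟩ : M) = 1 := by
        apply e.injective
        funext i
        subst hs
        exact i.elim0
      exact congrArg Subtype.val h2
    · exact hs
  refine ⟨e.symm (fun _ => x), (e.symm (fun _ => x)).2, e.symm (fun _ => y),
    (e.symm (fun _ => y)).2, fun h => ?_⟩
  have h1 : e.symm (fun _ => x) * e.symm (fun _ => y) =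
      e.symm (fun _ => y) * e.symm (fun _ => x) := Subtype.ext h
  rw [← map_mul, ← map_mul] at h1
  have h2 := congrFun (e.symm.injective h1) ⟨0, hs⟩
  exact hxy h2

theorem yg_split {η : ℕ → ℕ} {W t t' : ℕ} (htt : (2 ^ W) ^ (t * W ^ 2) ≤ t') {Q : Type u}
    [Group Q] [Finite Q] {M : Subgroup Q} (hM : IsMinNormal M) (h : GoodC η 0 t M) :
    GoodC η W t M ∨ GoodAB t' M := by
  obtain ⟨S, s, hR, _, hs, ⟨e⟩⟩ := h
  rcases Nat.lt_or_ge (om S) W with hW | hW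
  · right
    refine Or.inl ⟨yg_nonab hM hR.2.1 e, le_trans ?_ htt⟩
    have h1 : Nat.card S ≤ 2 ^ W := (rich_card hR).trans (Nat.pow_le_pow_right (by norm_num) hW.le)
    have h2 : s ≤ t * W ^ 2 := hs.trans (Nat.mul_le_mul_left t (Nat.pow_le_pow_left hW.le 2))
    have h3 : Nat.card M = Nat.card S ^ s := by
      rw [Nat.card_congr e.toEquiv, Nat.card_fun, Nat.card_fin]
    rw [h3]
    exact (Nat.pow_le_pow_left h1 s).trans (Nat.pow_le_pow_right (Nat.one_le_two_pow) h2)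
  · exact Or.inl ⟨S, s, hR, hW, hs, ⟨e⟩⟩

theorem yg_AB_nonab {t : ℕ} {Q : Type u} [Group Q] {M : Subgroup Q} (hM : IsMinNormal M)
    (h : GoodAB t M) : ∃ x ∈ M, ∃ y ∈ M, x * y ≠ y * x := by
  rcases h with ⟨h1, _⟩ | ⟨d, s, hd, _, ⟨e⟩⟩
  · exact h1
  · by_contra hcon
    push Not at hcon
    apply hM.2.1
    rw [Subgroup.eq_bot_iff_forall]
    intro x hx
    have h1 : (⟨x, hx⟩ : M) = 1 := by
      apply st_center hd e
      intro y
      exact Subtype.ext (hcon x hx y y.2)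
    exact congrArg Subtype.val h1

theorem yg_tameY_lower_of (t L : ℕ) (η : ℕ → ℕ)
    (hC : ∃ W0 : ℕ, ∀ (Q : Type u) [Group Q] [Finite Q] (C : Subgroup Q) [C.Normal],
      (∀ z : Q, z ∈ C ↔ ∀ M : Subgroup Q, IsMinNormal M → GoodC η W0 t M →
        ∀ y ∈ M, z * y = y * z) →
      oo (Q ⧸ C) ^ (2 * L) ≤ om Q)
    (hAB : ∀ t' : ℕ, ∃ c : ℝ, 0 < c ∧
      ∀ (Q : Type u) [Group Q] [Finite Q] (C : Subgroup Q) [C.Normal],
        (∀ z : Q, z ∈ C ↔ ∀ M : Subgroup Q, IsMinNormal M → GoodAB t' M → ∀ y ∈ M,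
          z * y = y * z) →
        c * (oo (Q ⧸ C) : ℝ) ^ (2 * L) ≤ (om Q : ℝ)) :
    ∃ c : ℝ, 0 < c ∧
    ∀ (Q : Type u) [Group Q] [Finite Q], TameY η t Q → c * (oo Q : ℝ) ^ L ≤ (om Q : ℝ) := by
  classical
  obtain ⟨W, hW⟩ := hC
  obtain ⟨t', ht'⟩ : ∃ t' : ℕ, t' = t + (2 ^ W) ^ (t * W ^ 2) := ⟨_, rfl⟩
  obtain ⟨c0, hc0, hAB'⟩ := hAB t'
  refine ⟨min (1 / ((t : ℝ) + 1) ^ L) (Real.sqrt c0), by positivity, ?_⟩
  intro Q _ _ hQ
  have hoo0 : (0 : ℝ) ≤ (oo Q : ℝ) := Nat.cast_nonneg _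
  rcases hQ with hQ | hQ
  · have h1 : (oo Q : ℝ) ^ L ≤ ((t : ℝ) + 1) ^ L := by
      apply pow_le_pow_left₀ hoo0
      have : (oo Q : ℝ) ≤ (t : ℝ) := by exact_mod_cast hQ
      linarith
    calc min (1 / ((t : ℝ) + 1) ^ L) (Real.sqrt c0) * (oo Q : ℝ) ^ L
        ≤ (1 / ((t : ℝ) + 1) ^ L) * (oo Q : ℝ) ^ L :=
          mul_le_mul_of_nonneg_right (min_le_left _ _) (by positivity)
      _ ≤ (1 / ((t : ℝ) + 1) ^ L) * ((t : ℝ) + 1) ^ L :=
          mul_le_mul_of_nonneg_left h1 (by positivity)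
      _ = 1 := by
          rw [one_div, inv_mul_cancel₀]
          positivity
      _ ≤ (om Q : ℝ) := by exact_mod_cast om_pos Q
  · -- every minimal normal subgroup is of the kind C (large) or AB
    have hkind : ∀ M : Subgroup Q, IsMinNormal M → GoodC η W t M ∨ GoodAB t' M := by
      intro M hM
      rcases hQ M hM with h | h
      · exact Or.inr (yg_AB_mono (by omega) hM h)
      · exact yg_split (by omega) hM h
    have hna : ∀ M : Subgroup Q, IsMinNormal M → ∃ x ∈ M, ∃ y ∈ M, x * y ≠ y * x := by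
      intro M hM
      rcases hkind M hM with h | h
      · obtain ⟨S, s, hR, _, _, ⟨e⟩⟩ := h
        exact yg_nonab hM hR.2.1 e
      · exact yg_AB_nonab hM h
    obtain ⟨C, hCn, hC⟩ := exists_cent (fun M : Subgroup Q => IsMinNormal M ∧ GoodC η W t M)
      (fun M hM => hM.1.1)
    obtain ⟨D, hDn, hD⟩ := exists_cent (fun M : Subgroup Q => IsMinNormal M ∧ GoodAB t' M)
      (fun M hM => hM.1.1)
    have hCD : C ⊓ D = ⊥ := by
      rw [Subgroup.eq_bot_iff_forall]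
      intro z hz
      obtain ⟨hzC, hzD⟩ := Subgroup.mem_inf.1 hz
      apply eq_one_of_centralize hna
      intro M hM y hy
      rcases hkind M hM with h | h
      · exact (hC z).1 hzC M ⟨hM, h⟩ y hy
      · exact (hD z).1 hzD M ⟨hM, h⟩ y hy
    have h1 : oo (Q ⧸ C) ^ (2 * L) ≤ om Q := hW Q C fun z => by
      rw [hC z]
      exact ⟨fun h M hM hg => h M ⟨hM, hg⟩, fun h M hM => h M hM.1 hM.2⟩
    have h2 : c0 * (oo (Q ⧸ D) : ℝ) ^ (2 * L) ≤ (om Q : ℝ) := hAB' Q D fun z => by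
      rw [hD z]
      exact ⟨fun h M hM hg => h M ⟨hM, hg⟩, fun h M hM => h M hM.1 hM.2⟩
    have h3 := oo_le_two C D hCD
    have h1' : (oo (Q ⧸ C) : ℝ) ^ (2 * L) ≤ (om Q : ℝ) := by exact_mod_cast h1
    have h3' : (oo Q : ℝ) ≤ (oo (Q ⧸ C) : ℝ) * (oo (Q ⧸ D) : ℝ) := by exact_mod_cast h3
    have hom : (0 : ℝ) ≤ (om Q : ℝ) := Nat.cast_nonneg _
    have h4 : c0 * (oo Q : ℝ) ^ (2 * L) ≤ (om Q : ℝ) * (om Q : ℝ) := by
      calc c0 * (oo Q : ℝ) ^ (2 * L)
          ≤ c0 * ((oo (Q ⧸ C) : ℝ) * (oo (Q ⧸ D) : ℝ)) ^ (2 * L) := by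
            apply mul_le_mul_of_nonneg_left _ hc0.le
            exact pow_le_pow_left₀ hoo0 h3' _
        _ = (oo (Q ⧸ C) : ℝ) ^ (2 * L) * (c0 * (oo (Q ⧸ D) : ℝ) ^ (2 * L)) := by
            rw [mul_pow]; ring
        _ ≤ (om Q : ℝ) * (om Q : ℝ) := by
            apply mul_le_mul h1' h2 (by positivity) hom
    have h5 : (Real.sqrt c0 * (oo Q : ℝ) ^ L) ^ 2 ≤ (om Q : ℝ) ^ 2 := by
      rw [mul_pow, Real.sq_sqrt hc0.le, ← pow_mul, mul_comm L 2, sq (om Q : ℝ)]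
      exact h4
    have h6 : Real.sqrt c0 * (oo Q : ℝ) ^ L ≤ (om Q : ℝ) := le_of_sq_le_sq h5 hom
    exact (mul_le_mul_of_nonneg_right (min_le_right _ _) (by positivity)).trans h6

end SR32
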