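import Pool.Agent.SR32.DefsE
import Pool.Agent.SR32.EKindAB
import Pool.Agent.SR32.EKindD
import Pool.Agent.SR32.XGoodS92

/-!
# Tame groups (exponent version) from the three kinds of minimal normal subgroups
-/

set_option autoImplicit false

namespace SR32

universe u

open Filter

theorem eg_AB_mono {t t' : ℕ} (htt : t ≤ t') {Q : Type u} [Group Q] {M : Subgroup Q}
    (hM : IsMinNormal M) (h : GoodABE t M) : GoodABE t' M := by
  rcases h with ⟨h1, h2⟩ | ⟨d, s, hd, h1, ⟨e⟩⟩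
  · exact Or.inl ⟨h1, h2.trans htt⟩
  · refine Or.inr ⟨d, s, hd, ?_, ⟨e⟩⟩
    rcases h1 with h1 | h1 | h1
    · exact Or.inl (h1.trans (Nat.mul_le_mul_right _ htt))
    · rcases Nat.eq_zero_or_pos s with hs | hs
      · exfalso
        apply hM.2.1
        rw [Subgroup.eq_bot_iff_forall]
        intro x hx
        have h2 : (⟨x, hx⟩ : M) = 1 := by
          apply e.injective
          funext i
          subst hs
          exact i.elim0
        exact congrArg Subtype.val h2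
      · obtain ⟨n, hn0, hn, hnx⟩ := h1
        exact Or.inr (Or.inl ⟨n, hn0, hn.trans (Nat.pow_le_pow_right hs htt), hnx⟩)
    · exact Or.inr (Or.inr h1)

/-- the minimal normal subgroups satisfying `GoodE` are of one of the three kinds -/
theorem eg_kinds {η : ℕ → ℕ} {t s0 W0 W1 t1 T1 T2 : ℕ} (ht1 : t ≤ t1) (hs0 : s0 ≤ t1)
    (htT : t ≤ T1) (hW0 : 2 ^ W0 ≤ T1) (hW1 : 2 ^ W1 ≤ T1) (hT2 : T1 ^ (t1 * T1 ^ 2) ≤ T2)
    (htT2 : t ≤ T2) {Q : Type u} [Group Q] [Finite Q] {M : Subgroup Q} (hM : IsMinNormal M)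
    (h : GoodE η t M) : (∃ x ∈ M, ∃ y ∈ M, x * y ≠ y * x) ∧
      (GoodABE T2 M ∨ GoodC η W1 t1 M ∨ GoodDE η W0 s0 t T1 M) := by
  obtain ⟨S, s, ⟨hsimp, ⟨x, y, hxy⟩, hk⟩, ⟨e⟩, hs⟩ := h
  have hnab : ∃ x ∈ M, ∃ y ∈ M, x * y ≠ y * x := by
    refine ⟨((x : M) : Q), (x : M).2, ((y : M) : Q), (y : M).2, fun h => hxy ?_⟩
    apply Subtype.ext
    apply Subtype.ext
    exact h
  refine ⟨hnab, ?_⟩
  have hT1 : 1 ≤ T1 := le_trans Nat.one_le_two_pow hW0
  have homS : 1 ≤ om S := om_pos S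
  -- the kinds other than the alternating one
  have hmain : (Nat.card S ≤ t ∨ Rich η S) → (GoodABE T2 M ∨ GoodC η W1 t1 M ∨
      GoodDE η W0 s0 t T1 M) := by
    intro hk'
    have hom_of : T1 < Nat.card S → Rich η S ∧ W0 ≤ om S ∧ W1 ≤ om S := by
      intro hlt
      have hr : Rich η S := by
        rcases hk' with h1 | h1
        · omega
        · exact h1
      have h2 : T1 < 2 ^ om S := lt_of_lt_of_le hlt (rich_card hr)
      refine ⟨hr, ?_, ?_⟩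
      · by_contra h3
        have h4 : 2 ^ om S ≤ 2 ^ W0 := Nat.pow_le_pow_right (by norm_num) (by omega)
        omega
      · by_contra h3
        have h4 : 2 ^ om S ≤ 2 ^ W1 := Nat.pow_le_pow_right (by norm_num) (by omega)
        omega
    rcases Nat.lt_or_ge (t1 * om S ^ 2) s with hlt | hge
    · -- many factors
      right; right
      have hsq : 1 ≤ om S ^ 2 := Nat.one_le_pow _ _ homS
      have h1 : t1 ≤ s := by nlinarith
      have h2 : ¬ s ≤ t * om S ^ 2 := by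
        intro h3
        have h4 : t * om S ^ 2 ≤ t1 * om S ^ 2 := Nat.mul_le_mul_right _ ht1
        omega
      refine ⟨S, s, hsimp, ⟨x, y, hxy⟩, ?_, hs0.trans h1, hs.resolve_left h2, ⟨e⟩⟩
      rcases Nat.lt_or_ge T1 (Nat.card S) with h3 | h3
      · exact Or.inr ⟨(hom_of h3).1, (hom_of h3).2.1⟩
      · exact Or.inl h3
    · rcases Nat.lt_or_ge T1 (Nat.card S) with h3 | h3
      · right; left
        exact ⟨S, s, (hom_of h3).1, (hom_of h3).2.2, hge, ⟨e⟩⟩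
      · left
        left
        refine ⟨hnab, ?_⟩
        have hc3 : Nat.card M = Nat.card S ^ s := by
          rw [Nat.card_congr e.toEquiv, Nat.card_fun, Nat.card_eq_fintype_card (α := Fin s),
            Fintype.card_fin]
        have homle : om S ≤ T1 := by
          refine le_trans ?_ h3
          unfold om
          exact Nat.card_le_card_of_surjective (Quotient.mk'' : S → _) Quotient.mk''_surjective
        have hsT : s ≤ t1 * T1 ^ 2 :=
          hge.trans (Nat.mul_le_mul_left _ (Nat.pow_le_pow_left homle 2))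
        rw [hc3]
        exact ((Nat.pow_le_pow_left h3 s).trans (Nat.pow_le_pow_right hT1 hsT)).trans hT2
  rcases hk with h1 | h1 | ⟨d, hd, ⟨f⟩⟩
  · exact hmain (Or.inl h1)
  · exact hmain (Or.inr h1)
  · left
    apply eg_AB_mono htT2 hM
    right
    refine ⟨d, s, hd, ?_, ⟨e.trans (MulEquiv.piCongrRight fun _ => f)⟩⟩
    rw [← om_congr f]
    exact hs

theorem tameE_lower_of
    (hD : ∀ (L t : ℕ) (η : ℕ → ℕ), Tendsto η atTop atTop → ∃ s0 W0 : ℕ, ∀ T : ℕ,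
      ∃ c : ℝ, 0 < c ∧ ∀ (Q : Type u) [Group Q] [Finite Q] (C : Subgroup Q) [C.Normal],
        (∀ z : Q, z ∈ C ↔ ∀ M : Subgroup Q, IsMinNormal M → GoodDE η W0 s0 t T M →
          ∀ y ∈ M, z * y = y * z) → c * (oo (Q ⧸ C) : ℝ) ^ L ≤ (om Q : ℝ))
    (t L : ℕ) (η : ℕ → ℕ) (hη : Tendsto η atTop atTop) : ∃ c : ℝ, 0 < c ∧
    ∀ (Q : Type u) [Group Q] [Finite Q], TameE η t Q → c * (oo Q : ℝ) ^ L ≤ (om Q : ℝ) := by
  classical
  obtain ⟨s0, W0, hD0⟩ := hD (3 * L) t η hη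
  obtain ⟨W1, hC0⟩ := kindC.{u} (3 * L) (max t s0) η hη
  obtain ⟨T1, hT1⟩ : ∃ T1 : ℕ, T1 = max t (max (2 ^ W0) (2 ^ W1)) := ⟨_, rfl⟩
  obtain ⟨c3, hc3, hD1⟩ := hD0 T1
  obtain ⟨T2, hT2⟩ : ∃ T2 : ℕ, T2 = max t (T1 ^ (max t s0 * T1 ^ 2)) := ⟨_, rfl⟩
  obtain ⟨c1, hc1, hAB⟩ := kindABE.{u} T2 (3 * L)
  have hcc : 0 < min 1 (c1 * c3) := lt_min one_pos (mul_pos hc1 hc3)
  refine ⟨min (1 / ((t : ℝ) + 1) ^ L) (min 1 (c1 * c3)), lt_min (by positivity) hcc, ?_⟩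
  intro Q _ _ hQ
  have hoo0 : (0 : ℝ) ≤ (oo Q : ℝ) := Nat.cast_nonneg _
  rcases hQ with hQ | hQ
  · have h1 : (oo Q : ℝ) ^ L ≤ ((t : ℝ) + 1) ^ L := by
      apply pow_le_pow_left₀ hoo0
      have : (oo Q : ℝ) ≤ (t : ℝ) := by exact_mod_cast hQ
      linarith
    calc min (1 / ((t : ℝ) + 1) ^ L) (min 1 (c1 * c3)) * (oo Q : ℝ) ^ L
        ≤ (1 / ((t : ℝ) + 1) ^ L) * (oo Q : ℝ) ^ L :=
          mul_le_mul_of_nonneg_right (min_le_left _ _) (by positivity)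
      _ ≤ (1 / ((t : ℝ) + 1) ^ L) * ((t : ℝ) + 1) ^ L :=
          mul_le_mul_of_nonneg_left h1 (by positivity)
      _ = 1 := by
          rw [one_div, inv_mul_cancel₀]
          positivity
      _ ≤ (om Q : ℝ) := by exact_mod_cast om_pos Q
  · have hkind : ∀ K : Subgroup Q, IsMinNormal K → (∃ x ∈ K, ∃ y ∈ K, x * y ≠ y * x) ∧
        (GoodABE T2 K ∨ GoodC η W1 (max t s0) K ∨ GoodDE η W0 s0 t T1 K) := fun K hK =>
      eg_kinds (le_max_left _ _) (le_max_right _ _) (by rw [hT1]; exact le_max_left _ _)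
        (by rw [hT1]; exact (le_max_left _ _).trans (le_max_right _ _))
        (by rw [hT1]; exact (le_max_right _ _).trans (le_max_right _ _))
        (by rw [hT2]; exact le_max_right _ _) (by rw [hT2]; exact le_max_left _ _) hK (hQ K hK)
    obtain ⟨CA, hAn, hA⟩ := exists_cent (fun M : Subgroup Q => IsMinNormal M ∧ GoodABE T2 M)
      (fun M hM => hM.1.1)
    obtain ⟨CC, hCn, hC⟩ := exists_cent
      (fun M : Subgroup Q => IsMinNormal M ∧ GoodC η W1 (max t s0) M) (fun M hM => hM.1.1)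
    obtain ⟨CD, hDn, hDD⟩ := exists_cent
      (fun M : Subgroup Q => IsMinNormal M ∧ GoodDE η W0 s0 t T1 M) (fun M hM => hM.1.1)
    have h1 := hAB Q CA (fun z => (hA z).trans
      ⟨fun h M hM hG => h M ⟨hM, hG⟩, fun h M hM => h M hM.1 hM.2⟩)
    have h2 := hC0 Q CC (fun z => (hC z).trans
      ⟨fun h M hM hG => h M ⟨hM, hG⟩, fun h M hM => h M hM.1 hM.2⟩)
    have h3 := hD1 Q CD (fun z => (hDD z).trans
      ⟨fun h M hM hG => h M ⟨hM, hG⟩, fun h M hM => h M hM.1 hM.2⟩)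
    have h4 : oo Q ≤ oo (Q ⧸ CA) * (oo (Q ⧸ CC) * oo (Q ⧸ CD)) := by
      apply oo_le_three
      intro z hzA hzC hzD
      apply eq_one_of_centralize (fun K hK => (hkind K hK).1)
      intro K hK y hy
      rcases (hkind K hK).2 with h5 | h5 | h5
      · exact (hA z).1 hzA K ⟨hK, h5⟩ y hy
      · exact (hC z).1 hzC K ⟨hK, h5⟩ y hy
      · exact (hDD z).1 hzD K ⟨hK, h5⟩ y hy
    obtain ⟨a, ha⟩ : ∃ a : ℝ, a = (oo (Q ⧸ CA) : ℝ) := ⟨_, rfl⟩
    obtain ⟨b, hb⟩ : ∃ b : ℝ, b = (oo (Q ⧸ CC) : ℝ) := ⟨_, rfl⟩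
    obtain ⟨d, hd⟩ : ∃ d : ℝ, d = (oo (Q ⧸ CD) : ℝ) := ⟨_, rfl⟩
    have ha0 : 0 ≤ a := by rw [ha]; exact Nat.cast_nonneg _
    have hb0 : 0 ≤ b := by rw [hb]; exact Nat.cast_nonneg _
    have hd0 : 0 ≤ d := by rw [hd]; exact Nat.cast_nonneg _
    have h2' : b ^ (3 * L) ≤ (om Q : ℝ) := by
      rw [hb]
      exact_mod_cast h2
    rw [← ha] at h1
    rw [← hd] at h3
    have h5 : (oo Q : ℝ) ≤ a * (b * d) := by
      rw [ha, hb, hd]
      exact_mod_cast h4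
    have hom0 : (0 : ℝ) ≤ (om Q : ℝ) := Nat.cast_nonneg _
    have h6 : (min 1 (c1 * c3) * (oo Q : ℝ) ^ L) ^ 3 ≤ (om Q : ℝ) ^ 3 := by
      have h7 : min 1 (c1 * c3) ^ 3 ≤ c1 * c3 := by
        calc min 1 (c1 * c3) ^ 3 = min 1 (c1 * c3) ^ 2 * min 1 (c1 * c3) := by ring
          _ ≤ 1 * min 1 (c1 * c3) := mul_le_mul_of_nonneg_right
              (pow_le_one₀ hcc.le (min_le_left _ _)) hcc.le
          _ ≤ c1 * c3 := by rw [one_mul]; exact min_le_right _ _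
      calc (min 1 (c1 * c3) * (oo Q : ℝ) ^ L) ^ 3
          = min 1 (c1 * c3) ^ 3 * (oo Q : ℝ) ^ (3 * L) := by
            rw [mul_pow, ← pow_mul, mul_comm L 3]
        _ ≤ (c1 * c3) * (a * (b * d)) ^ (3 * L) :=
            mul_le_mul h7 (pow_le_pow_left₀ hoo0 h5 _) (by positivity) (by positivity)
        _ = (c1 * a ^ (3 * L)) * (b ^ (3 * L)) * (c3 * d ^ (3 * L)) := by
            rw [mul_pow, mul_pow]
            ring
        _ ≤ (om Q : ℝ) * (om Q : ℝ) * (om Q : ℝ) :=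
            mul_le_mul (mul_le_mul h1 h2' (by positivity) hom0) h3 (by positivity)
              (by positivity)
        _ = (om Q : ℝ) ^ 3 := by ring
    have h7 : min 1 (c1 * c3) * (oo Q : ℝ) ^ L ≤ (om Q : ℝ) :=
      (pow_le_pow_iff_left₀ (by positivity) hom0 (by norm_num)).1 h6
    exact (mul_le_mul_of_nonneg_right (min_le_right _ _) (by positivity)).trans h7

theorem tameE_lower (t L : ℕ) (η : ℕ → ℕ) (hη : Tendsto η atTop atTop) : ∃ c : ℝ, 0 < c ∧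
    ∀ (Q : Type u) [Group Q] [Finite Q], TameE η t Q → c * (oo Q : ℝ) ^ L ≤ (om Q : ℝ) :=
  tameE_lower_of kindDE t L η hη

end SR32
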