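import Pool.Agent.SR32.CT
import Pool.Agent.SR32.Orders

/-!
# SR32/ExcCore: only finitely many pairs `(d, k)` have few multisets of classes against orders
-/

namespace SR32

open Filter

theorem exc_W_mono_right {w : ℕ} (hw : 1 ≤ w) {s k : ℕ} (h : s ≤ k) :
    Nat.multichoose w s ≤ Nat.multichoose w k := by
  obtain ⟨n, rfl⟩ : ∃ n, w = n + 1 := ⟨w - 1, by omega⟩
  refine monotone_nat_of_le_succ (f := fun k => Nat.multichoose (n + 1) k) (fun k => ?_) h
  rw [Nat.multichoose_succ_succ]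
  omega

theorem exc_W_mono_left {w w' : ℕ} (h : w ≤ w') (k : ℕ) :
    Nat.multichoose w k ≤ Nat.multichoose w' k := by
  refine monotone_nat_of_le_succ (f := fun w => Nat.multichoose w k) (fun n => ?_) h
  cases k with
  | zero => simp
  | succ k =>
    rw [Nat.multichoose_succ_succ]
    omega

theorem exc_W_two {w : ℕ} (hw : 2 ≤ w) (k : ℕ) : k + 1 ≤ Nat.multichoose w k := by
  rw [← Nat.multichoose_two]
  exact exc_W_mono_left hw k

theorem exc_W_ge (w k : ℕ) (hk : 1 ≤ k) :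
    ((w : ℝ) / k) ^ k ≤ (Nat.multichoose w k : ℝ) := by
  have h1 := Nat.pow_le_choose (α := ℝ) k (w + k - 1)
  rw [← Nat.multichoose_eq] at h1
  have h2 : w + k - 1 + 1 - k = w := by omega
  rw [h2] at h1
  refine le_trans ?_ h1
  rw [div_pow]
  have h3 : (k.factorial : ℝ) ≤ (k : ℝ) ^ k := by exact_mod_cast Nat.factorial_le_pow k
  have h4 : (0 : ℝ) < k.factorial := by exact_mod_cast Nat.factorial_pos k
  exact div_le_div_of_nonneg_left (by positivity) h4 h3

theorem rr_pos (L : ℕ) (p : ℕ × ℕ) (h1 : 5 ≤ p.1) : 0 < rr L p := by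
  unfold rr
  have hw := two_le_om p.1 h1
  have hW : 0 < Nat.multichoose (om (A p.1)) p.2 := by
    have := exc_W_two hw p.2
    omega
  have hO : 0 < oo (Fin p.2 → A p.1) := oo_pos _
  positivity

theorem exc_ev_log : ∀ᶠ s : ℕ in atTop, Real.log (s : ℝ) ≤ (s : ℝ) / 100 := by
  have h := (Real.isLittleO_log_id_atTop.bound (show (0 : ℝ) < 1 / 100 by norm_num))
  have h2 := tendsto_natCast_atTop_atTop.eventually h
  filter_upwards [h2, eventually_ge_atTop 1] with s hs h1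
  have hs1 : (1 : ℝ) ≤ s := by exact_mod_cast h1
  simp only [id] at hs
  rw [Real.norm_of_nonneg (Real.log_nonneg hs1), Real.norm_of_nonneg (by linarith)] at hs
  linarith

theorem exc_base {s : ℕ} (hs : 1 ≤ s) :
    (2 : ℝ) ^ (s - 1) / s = Real.exp (((s : ℝ) - 1) * Real.log 2 - Real.log s) := by
  have hs0 : (0 : ℝ) < s := by exact_mod_cast hs
  rw [Real.exp_sub, Real.exp_log hs0]
  congr 1
  rw [mul_comm, Real.exp_mul, Real.exp_log (by norm_num), ← Real.rpow_natCast]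
  congr 1
  push_cast [Nat.cast_sub hs]
  ring

/-- first estimate -/
theorem exc_ev_one (L : ℕ) (M C ε : ℝ) (hM : 0 < M) (hε : (L : ℝ) * ε ≤ 1 / 2) :
    ∀ᶠ s : ℕ in atTop, M * Real.exp (L * (C + ε * ((s : ℝ) + 1))) ≤ (2 : ℝ) ^ (s - 1) / s := by
  filter_upwards [exc_ev_log, eventually_ge_atTop 1,
    tendsto_natCast_atTop_atTop.eventually_ge_atTop ((Real.log M + L * C + 2) / 0.18)] with s h1 h2 h3
  have hs1 : (1 : ℝ) ≤ s := by exact_mod_cast h2
  rw [exc_base h2]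
  calc M * Real.exp (L * (C + ε * ((s : ℝ) + 1)))
      = Real.exp (Real.log M + L * (C + ε * ((s : ℝ) + 1))) := by
        rw [Real.exp_add, Real.exp_log hM]
    _ ≤ _ := by
        apply Real.exp_le_exp.2
        have hl := Real.log_two_gt_d9
        rw [div_le_iff₀ (by norm_num)] at h3
        have h4 : (L : ℝ) * (C + ε * ((s : ℝ) + 1)) = L * C + (L * ε) * (s + 1) := by ring
        have h5 : ((L : ℝ) * ε) * (s + 1) ≤ 1 / 2 * (s + 1) :=
          mul_le_mul_of_nonneg_right hε (by linarith)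
        have h6 : 0.69 * ((s : ℝ) - 1) ≤ ((s : ℝ) - 1) * Real.log 2 := by
          rw [mul_comm]
          exact mul_le_mul_of_nonneg_left (by linarith) (by linarith)
        rw [h4]
        linarith

/-- second estimate -/
theorem exc_ev_two (L : ℕ) (M C ε : ℝ) (hM : 0 < M) (hε : (L : ℝ) * ε ≤ 1 / 2) :
    ∀ᶠ s : ℕ in atTop, M * Real.exp (Real.log 2 * (L * (C + ε * ((s : ℝ) + 1) ^ 2))) ≤
      ((2 : ℝ) ^ (s - 1) / s) ^ s := by
  filter_upwards [exc_ev_log, eventually_ge_atTop 10,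
    tendsto_natCast_atTop_atTop.eventually_ge_atTop
      (Real.log M + Real.log 2 * (L * C) + 1)] with s h1 h2 h3
  have hs1 : (10 : ℝ) ≤ s := by exact_mod_cast h2
  rw [exc_base (by omega), ← Real.exp_nat_mul]
  calc M * Real.exp (Real.log 2 * (L * (C + ε * ((s : ℝ) + 1) ^ 2)))
      = Real.exp (Real.log M + Real.log 2 * (L * (C + ε * ((s : ℝ) + 1) ^ 2))) := by
        rw [Real.exp_add, Real.exp_log hM]
    _ ≤ _ := by
        apply Real.exp_le_exp.2
        have hl := Real.log_two_gt_d9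
        have hl' := Real.log_two_lt_d9
        have h4 : Real.log 2 * ((L : ℝ) * (C + ε * ((s : ℝ) + 1) ^ 2)) =
            Real.log 2 * (L * C) + Real.log 2 * ((L * ε) * (s + 1) ^ 2) := by ring
        have h5 : ((L : ℝ) * ε) * (s + 1) ^ 2 ≤ 1 / 2 * (s + 1) ^ 2 :=
          mul_le_mul_of_nonneg_right hε (by positivity)
        have h5' : Real.log 2 * (((L : ℝ) * ε) * (s + 1) ^ 2) ≤ 0.35 * (s + 1) ^ 2 := by
          calc Real.log 2 * (((L : ℝ) * ε) * (s + 1) ^ 2)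
              ≤ Real.log 2 * (1 / 2 * (s + 1) ^ 2) :=
                mul_le_mul_of_nonneg_left h5 (by linarith)
            _ ≤ 0.7 * (1 / 2 * (s + 1) ^ 2) :=
                mul_le_mul_of_nonneg_right (by linarith) (by positivity)
            _ = 0.35 * (s + 1) ^ 2 := by ring
        have h6 : 0.69 * ((s : ℝ) - 1) ≤ ((s : ℝ) - 1) * Real.log 2 := by
          rw [mul_comm]
          exact mul_le_mul_of_nonneg_left (by linarith) (by linarith)
        have h7 : (s : ℝ) * (0.69 * (s - 1) - s / 100) ≤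
            s * (((s : ℝ) - 1) * Real.log 2 - Real.log s) :=
          mul_le_mul_of_nonneg_left (by linarith) (by linarith)
        rw [h4]
        nlinarith

theorem exc_large (hpp : ∀ ε : ℝ, 0 < ε →
      ∃ C : ℝ, ∀ d : ℕ, ((PP d).card : ℝ) ≤ C + ε * d)
    (hpb : ∀ ε : ℝ, 0 < ε →
      ∃ C : ℝ, ∀ d : ℕ, ((EE d).card : ℝ) ≤ Real.exp (C + ε * Real.sqrt d))
    (L : ℕ) (M : ℝ) (hM : 1 ≤ M) : ∃ D : ℕ, ∀ d : ℕ, D ≤ d → ∀ k : ℕ, 1 ≤ k →
    M ≤ rr L (d, k) := by
  set ε : ℝ := 1 / (2 * ((L : ℝ) + 1)) with hε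
  have hε0 : 0 < ε := by positivity
  have hεL : (L : ℝ) * ε ≤ 1 / 2 := by
    rw [hε, mul_one_div, div_le_div_iff₀ (by positivity) (by norm_num)]
    linarith
  obtain ⟨C1, hC1⟩ := hpb ε hε0
  obtain ⟨C2, hC2⟩ := hpp ε hε0
  have hM0 : 0 < M := by linarith
  obtain ⟨S, hS⟩ := Filter.eventually_atTop.1
    ((exc_ev_one L M C1 ε hM0 hεL).and (exc_ev_two L M C2 ε hM0 hεL))
  refine ⟨S * S + 7, fun d hd k hk => ?_⟩
  set s := Nat.sqrt d with hs
  have hSs : S ≤ s := Nat.le_sqrt.2 (by omega)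
  have hs1 : 1 ≤ s := Nat.le_sqrt.2 (by omega)
  have hs0 : (0 : ℝ) < s := by exact_mod_cast hs1
  obtain ⟨e1, e2⟩ := hS s hSs
  have hdlt : d < (s + 1) * (s + 1) := Nat.lt_succ_sqrt d
  have hdr : (d : ℝ) ≤ ((s : ℝ) + 1) ^ 2 := by
    rw [sq]
    exact_mod_cast hdlt.le
  have hsq : Real.sqrt d ≤ (s : ℝ) + 1 := by
    rw [Real.sqrt_le_left (by positivity)]
    exact hdr
  have hw := om_alt_ge d (by omega) (by omega)
  rw [← hs] at hw
  have hwr : (2 : ℝ) ^ (s - 1) ≤ (om (A d) : ℝ) := by exact_mod_cast hw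
  have hOpos : (0 : ℝ) < (oo (Fin k → A d) : ℝ) := by
    exact_mod_cast (oo_pos (Fin k → A d))
  have hL0 : (0 : ℝ) ≤ L := Nat.cast_nonneg _
  unfold rr
  simp only
  rw [le_div_iff₀ (by positivity)]
  rcases Nat.lt_or_ge s k with hks | hks
  · -- large k
    have hO : (oo (Fin k → A d) : ℝ) ^ L ≤
        Real.exp (Real.log 2 * (L * (C2 + ε * ((s : ℝ) + 1) ^ 2))) := by
      have h1 : (oo (Fin k → A d) : ℝ) ≤ 2 ^ (PP d).card := by exact_mod_cast oo_pow_le d k
      have h2 : ((2 : ℝ) ^ (PP d).card) = Real.exp (Real.log 2 * (PP d).card) := by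
        rw [Real.exp_mul, Real.exp_log (by norm_num), Real.rpow_natCast]
      calc (oo (Fin k → A d) : ℝ) ^ L ≤ (Real.exp (Real.log 2 * (PP d).card)) ^ L := by
            rw [← h2]
            exact pow_le_pow_left₀ hOpos.le h1 L
        _ = Real.exp (L * (Real.log 2 * (PP d).card)) := by rw [Real.exp_nat_mul]
        _ ≤ _ := by
            apply Real.exp_le_exp.2
            have h3 : ((PP d).card : ℝ) ≤ C2 + ε * ((s : ℝ) + 1) ^ 2 :=
              (hC2 d).trans (by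
                have := mul_le_mul_of_nonneg_left hdr hε0.le
                linarith)
            have h4 := mul_le_mul_of_nonneg_left h3
              (mul_nonneg (Real.log_nonneg (by norm_num : (1 : ℝ) ≤ 2)) hL0)
            linarith
    have hW : ((2 : ℝ) ^ (s - 1) / s) ^ s ≤ (Nat.multichoose (om (A d)) k : ℝ) := by
      calc ((2 : ℝ) ^ (s - 1) / s) ^ s ≤ ((om (A d) : ℝ) / s) ^ s :=
            pow_le_pow_left₀ (by positivity) (div_le_div_of_nonneg_right hwr hs0.le) s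
        _ ≤ (Nat.multichoose (om (A d)) s : ℝ) := exc_W_ge _ _ hs1
        _ ≤ (Nat.multichoose (om (A d)) k : ℝ) := by
            exact_mod_cast exc_W_mono_right (om_pos _) hks.le
    exact (mul_le_mul_of_nonneg_left hO hM0.le).trans (e2.trans hW)
  · -- small k
    have hk0 : (0 : ℝ) < k := by exact_mod_cast hk
    have hO : (oo (Fin k → A d) : ℝ) ^ L ≤
        (Real.exp (L * (C1 + ε * ((s : ℝ) + 1)))) ^ k := by
      have h0 : (oo (A d) : ℝ) ≤ Real.exp (C1 + ε * ((s : ℝ) + 1)) := by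
        have h1 : (oo (A d) : ℝ) ≤ (EE d).card := by exact_mod_cast oo_alt_le d
        refine h1.trans ((hC1 d).trans (Real.exp_le_exp.2 ?_))
        have := mul_le_mul_of_nonneg_left hsq hε0.le
        linarith
      have h1 : (oo (Fin k → A d) : ℝ) ≤ (oo (A d) : ℝ) ^ k := by
        exact_mod_cast oo_pow_le_pow d k
      calc (oo (Fin k → A d) : ℝ) ^ L ≤ ((oo (A d) : ℝ) ^ k) ^ L :=
            pow_le_pow_left₀ hOpos.le h1 L
        _ ≤ ((Real.exp (C1 + ε * ((s : ℝ) + 1))) ^ k) ^ L :=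
            pow_le_pow_left₀ (by positivity) (pow_le_pow_left₀ (Nat.cast_nonneg _) h0 k) L
        _ = (Real.exp (L * (C1 + ε * ((s : ℝ) + 1)))) ^ k := by
            rw [Real.exp_nat_mul, ← pow_mul, ← pow_mul, mul_comm k L]
    have hMk : M ≤ M ^ k := le_self_pow₀ hM (by omega)
    calc M * (oo (Fin k → A d) : ℝ) ^ L
        ≤ M ^ k * (Real.exp (L * (C1 + ε * ((s : ℝ) + 1)))) ^ k :=
          mul_le_mul hMk hO (by positivity) (by positivity)
      _ = (M * Real.exp (L * (C1 + ε * ((s : ℝ) + 1)))) ^ k := by rw [mul_pow]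
      _ ≤ ((2 : ℝ) ^ (s - 1) / s) ^ k := pow_le_pow_left₀ (by positivity) e1 k
      _ ≤ ((om (A d) : ℝ) / k) ^ k := by
          apply pow_le_pow_left₀ (by positivity)
          have hks' : (k : ℝ) ≤ s := by exact_mod_cast hks
          calc (2 : ℝ) ^ (s - 1) / s ≤ (2 : ℝ) ^ (s - 1) / k :=
                div_le_div_of_nonneg_left (by positivity) hk0 hks'
            _ ≤ (om (A d) : ℝ) / k := div_le_div_of_nonneg_right hwr hk0.le
      _ ≤ (Nat.multichoose (om (A d)) k : ℝ) := exc_W_ge _ _ hk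

theorem exc_fixed (L : ℕ) (M : ℝ) (d : ℕ) (hd : 5 ≤ d) : ∃ K : ℕ, ∀ k : ℕ, K ≤ k →
    M ≤ rr L (d, k) := by
  refine ⟨⌈M * ((2 : ℝ) ^ (PP d).card) ^ L⌉₊, fun k hk => ?_⟩
  have hOpos : (0 : ℝ) < (oo (Fin k → A d) : ℝ) := by
    exact_mod_cast (oo_pos (Fin k → A d))
  unfold rr
  simp only
  rw [le_div_iff₀ (by positivity)]
  have h1 : (oo (Fin k → A d) : ℝ) ≤ 2 ^ (PP d).card := by exact_mod_cast oo_pow_le d k
  have hW : (k : ℝ) ≤ (Nat.multichoose (om (A d)) k : ℝ) := by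
    have := exc_W_two (two_le_om d hd) k
    have h2 : k ≤ Nat.multichoose (om (A d)) k := by omega
    exact_mod_cast h2
  rcases le_or_gt M 0 with hM | hM
  · have : M * (oo (Fin k → A d) : ℝ) ^ L ≤ 0 := mul_nonpos_of_nonpos_of_nonneg hM (by positivity)
    exact this.trans (Nat.cast_nonneg _)
  · calc M * (oo (Fin k → A d) : ℝ) ^ L ≤ M * ((2 : ℝ) ^ (PP d).card) ^ L :=
          mul_le_mul_of_nonneg_left (pow_le_pow_left₀ hOpos.le h1 L) hM.le
      _ ≤ k := Nat.ceil_le.1 hk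
      _ ≤ _ := hW

theorem finite_exc_of (hpp : ∀ ε : ℝ, 0 < ε →
      ∃ C : ℝ, ∀ d : ℕ, ((PP d).card : ℝ) ≤ C + ε * d)
    (hpb : ∀ ε : ℝ, 0 < ε →
      ∃ C : ℝ, ∀ d : ℕ, ((EE d).card : ℝ) ≤ Real.exp (C + ε * Real.sqrt d))
    (L : ℕ) (C : ℝ) :
    {p : ℕ × ℕ | 5 ≤ p.1 ∧ 1 ≤ p.2 ∧ rr L p < C}.Finite := by
  obtain ⟨D, hD⟩ := exc_large hpp hpb L (max C 1) (le_max_right _ _)
  have hK : ∀ d : ℕ, ∃ K : ℕ, 5 ≤ d → ∀ k : ℕ, K ≤ k → max C 1 ≤ rr L (d, k) := by
    intro d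
    by_cases hd : 5 ≤ d
    · obtain ⟨K, hK⟩ := exc_fixed L (max C 1) d hd
      exact ⟨K, fun _ => hK⟩
    · exact ⟨0, fun h => absurd h hd⟩
  choose K hK using hK
  refine Set.Finite.subset (Finset.finite_toSet
    ((Finset.range D).biUnion fun d => (Finset.range (K d)).map
      ⟨fun k => (d, k), fun a b h => (Prod.mk.inj h).2⟩)) ?_
  rintro ⟨d, k⟩ ⟨h1, h2, h3⟩
  simp only at h1 h2
  have h4 : rr L (d, k) < max C 1 := lt_of_lt_of_le h3 (le_max_left _ _)
  have hd : d < D := by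
    by_contra hcon
    push Not at hcon
    exact absurd (hD d hcon k h2) (not_le.2 h4)
  have hk : k < K d := by
    by_contra hcon
    push Not at hcon
    exact absurd (hK d h1 k hcon) (not_le.2 h4)
  rw [Finset.mem_coe, Finset.mem_biUnion]
  refine ⟨d, Finset.mem_range.2 hd, ?_⟩
  rw [Finset.mem_map]
  exact ⟨k, Finset.mem_range.2 hk, rfl⟩

end SR32
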