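import Pool.Agent.SR32.Defs

/-!
# SR32/ExcS58: only finitely many pairs with a small ratio (Claim F)
-/

set_option autoImplicit false

namespace SR32

theorem exc_mc_pos (w k : ℕ) (hw : 1 ≤ w) : 0 < Nat.multichoose w k := by
  rw [Nat.multichoose_eq]
  exact Nat.choose_pos (by omega)

theorem exc_mc_mono (w : ℕ) (hw : 1 ≤ w) : Monotone (Nat.multichoose w) := by
  refine monotone_nat_of_le_succ fun k => ?_
  obtain ⟨n, rfl⟩ : ∃ n, w = n + 1 := ⟨w - 1, by omega⟩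
  rw [Nat.multichoose_succ_succ]
  omega

theorem exc_mc_two (w k : ℕ) (hw : 2 ≤ w) : k + 1 ≤ Nat.multichoose w k := by
  rw [Nat.multichoose_eq]
  have h1 : k + 1 ≤ w + k - 1 := by omega
  calc k + 1 = (k + 1).choose k := by rw [Nat.choose_succ_self_right]
    _ ≤ (w + k - 1).choose k := Nat.choose_le_choose k h1

theorem exc_mc_pow (w k : ℕ) (hw : 1 ≤ w) :
    (w : ℝ) ^ k ≤ (Nat.factorial k : ℝ) * (Nat.multichoose w k : ℝ) := by
  have h := Nat.pow_le_choose (α := ℝ) k (w + k - 1)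
  have e : w + k - 1 + 1 - k = w := by omega
  rw [e, ← Nat.multichoose_eq] at h
  rw [div_le_iff₀ (by exact_mod_cast Nat.factorial_pos k)] at h
  linarith

theorem rr_pos' (L : ℕ) (p : ℕ × ℕ) : 0 < rr L p := by
  unfold rr
  have h1 : 0 < Nat.multichoose (om (A p.1)) p.2 := exc_mc_pos _ _ (om_pos _)
  have h2 : 0 < oo (Fin p.2 → A p.1) := oo_pos _
  have h3 : (0 : ℝ) < (Nat.multichoose (om (A p.1)) p.2 : ℝ) := by exact_mod_cast h1
  have h4 : (0 : ℝ) < (oo (Fin p.2 → A p.1) : ℝ) := by exact_mod_cast h2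
  exact div_pos h3 (pow_pos h4 _)

theorem exc_log (s : ℝ) (hs : 0 < s) : Real.log s ≤ s / 4 + 1 := by
  have h1 : Real.log s = Real.log (s / 4) + Real.log 4 := by
    rw [← Real.log_mul (by positivity) (by norm_num)]
    congr 1; ring
  have h2 := Real.log_le_sub_one_of_pos (show 0 < s / 4 by positivity)
  have h3 : Real.log 4 ≤ 2 := by
    have : (4 : ℝ) = 2 ^ 2 := by norm_num
    rw [this, Real.log_pow]
    have := Real.log_two_lt_d9
    push_cast
    linarith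
  linarith

/-- the lower bound for the number of multisets, `k ≤ s` -/
theorem exc_low (w s k : ℕ) (hs : 1 ≤ s) (hw : 2 ^ (s - 1) ≤ w) (hk : k ≤ s) :
    Real.exp (k * (((s : ℝ) - 1) * Real.log 2 - Real.log s)) ≤ (Nat.multichoose w k : ℝ) := by
  have hw1 : 1 ≤ w := le_trans Nat.one_le_two_pow hw
  have h1 := exc_mc_pow w k hw1
  have hs0 : (0 : ℝ) < s := by exact_mod_cast hs
  have h2 : (Nat.factorial k : ℝ) ≤ (s : ℝ) ^ k := by
    have h3 : Nat.factorial k ≤ k ^ k := Nat.factorial_le_pow k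
    have h4 : k ^ k ≤ s ^ k := Nat.pow_le_pow_left hk k
    exact_mod_cast h3.trans h4
  have h5 : Real.exp (k * (((s : ℝ) - 1) * Real.log 2 - Real.log s)) =
      ((2 : ℝ) ^ (s - 1)) ^ k / (s : ℝ) ^ k := by
    have e1 : ((s : ℝ) - 1) * Real.log 2 = Real.log ((2 : ℝ) ^ (s - 1)) := by
      rw [Real.log_pow, Nat.cast_sub hs, Nat.cast_one]
    rw [e1, ← Real.log_div (by positivity) hs0.ne', mul_comm, Real.exp_mul,
      Real.exp_log (by positivity), Real.rpow_natCast, div_pow]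
  rw [h5, div_le_iff₀ (by positivity)]
  have h6 : ((2 : ℝ) ^ (s - 1)) ^ k ≤ (w : ℝ) ^ k := by
    refine pow_le_pow_left₀ (by positivity) ?_ k
    exact_mod_cast hw
  have h7 : (0 : ℝ) ≤ (Nat.multichoose w k : ℝ) := Nat.cast_nonneg _
  calc ((2 : ℝ) ^ (s - 1)) ^ k ≤ (w : ℝ) ^ k := h6
    _ ≤ (Nat.factorial k : ℝ) * (Nat.multichoose w k : ℝ) := h1
    _ ≤ (s : ℝ) ^ k * (Nat.multichoose w k : ℝ) := mul_le_mul_of_nonneg_right h2 h7
    _ = _ := mul_comm _ _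

theorem finite_exc_of
    (h1 : ∀ d : ℕ, 5 ≤ d → d ≠ 6 → 2 ^ (Nat.sqrt d - 1) ≤ om (A d))
    (h2 : ∀ d : ℕ, 5 ≤ d → 2 ≤ om (A d))
    (h3 : ∀ d : ℕ, oo (A d) ≤ (EE d).card)
    (h4 : ∀ d k : ℕ, oo (Fin k → A d) ≤ 2 ^ (PP d).card)
    (h5 : ∀ d k : ℕ, oo (Fin k → A d) ≤ oo (A d) ^ k)
    (h6 : ∀ ε : ℝ, 0 < ε → ∃ C : ℝ, ∀ d : ℕ, ((PP d).card : ℝ) ≤ C + ε * d)
    (h7 : ∀ ε : ℝ, 0 < ε → ∃ C : ℝ, ∀ d : ℕ, ((EE d).card : ℝ) ≤ Real.exp (C + ε * Real.sqrt d))
    (L : ℕ) (C : ℝ) : {p : ℕ × ℕ | 5 ≤ p.1 ∧ 1 ≤ p.2 ∧ rr L p < C}.Finite := by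
  -- fixed `d`
  have F : ∀ d : ℕ, 5 ≤ d → ∃ K0 : ℕ, ∀ k, K0 ≤ k → C ≤ rr L (d, k) := by
    intro d hd
    refine ⟨⌈C * (2 ^ (PP d).card : ℝ) ^ L⌉₊, fun k hk => ?_⟩
    unfold rr
    have a1 : (0 : ℝ) < (oo (Fin k → A d) : ℝ) := by exact_mod_cast oo_pos (Fin k → A d)
    have a2 : (oo (Fin k → A d) : ℝ) ≤ 2 ^ (PP d).card := by exact_mod_cast h4 d k
    have a3 : (k : ℝ) + 1 ≤ (Nat.multichoose (om (A d)) k : ℝ) := by
      exact_mod_cast exc_mc_two _ k (h2 d hd)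
    have a4 : C * (2 ^ (PP d).card : ℝ) ^ L ≤ k := (Nat.le_ceil _).trans (by exact_mod_cast hk)
    show C ≤ (Nat.multichoose (om (A d)) k : ℝ) / (oo (Fin k → A d) : ℝ) ^ L
    rw [le_div_iff₀ (pow_pos a1 _)]
    rcases le_or_gt C 0 with hC | hC
    · have : C * (oo (Fin k → A d) : ℝ) ^ L ≤ 0 :=
        mul_nonpos_of_nonpos_of_nonneg hC (pow_nonneg a1.le _)
      linarith [Nat.cast_nonneg (α := ℝ) k]
    · calc C * (oo (Fin k → A d) : ℝ) ^ L ≤ C * (2 ^ (PP d).card : ℝ) ^ L :=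
            mul_le_mul_of_nonneg_left (pow_le_pow_left₀ a1.le a2 L) hC.le
        _ ≤ k := a4
        _ ≤ _ := by linarith
  -- large `d`
  have hL0 : (0 : ℝ) ≤ L := Nat.cast_nonneg _
  obtain ⟨ε, hε⟩ : ∃ ε : ℝ, ε = 1 / (8 * ((L : ℝ) + 1)) := ⟨_, rfl⟩
  have hε0 : 0 < ε := by rw [hε]; positivity
  have hLε : (L : ℝ) * ε ≤ 1 / 8 := by
    rw [hε, mul_one_div, div_le_div_iff₀ (by positivity) (by norm_num)]
    linarith
  obtain ⟨C1, hC1⟩ := h7 ε hε0
  obtain ⟨C2, hC2⟩ := h6 ε hε0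
  have hl2 := Real.log_two_gt_d9
  obtain ⟨S0, hS0⟩ : ∃ S0 : ℕ, (|C| + 3 + L * |C1| + L * |C2| + 3) / (3 / 10) + 10 ≤ S0 :=
    ⟨_, Nat.le_ceil _⟩
  have G : ∀ d : ℕ, 7 + S0 ^ 2 ≤ d → ∀ k, 1 ≤ k → C ≤ rr L (d, k) := by
    intro d hd k hk
    obtain ⟨s, hs⟩ : ∃ s : ℕ, s = Nat.sqrt d := ⟨_, rfl⟩
    have hsS : S0 ≤ s := by
      rw [hs, Nat.le_sqrt']; omega
    have hsd : (d : ℝ) ≤ ((s : ℝ) + 1) ^ 2 := by
      have := Nat.lt_succ_sqrt' d
      rw [← hs] at this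
      have h' : d ≤ (s + 1) ^ 2 := this.le
      exact_mod_cast h'
    have hsq : Real.sqrt d ≤ (s : ℝ) + 1 := by
      rw [Real.sqrt_le_left (by positivity)]
      exact hsd
    have hsr : (|C| + 3 + L * |C1| + L * |C2| + 3) / (3 / 10) + 10 ≤ (s : ℝ) :=
      hS0.trans (by exact_mod_cast hsS)
    have hb : |C| + 6 + L * |C1| + L * |C2| ≤ 3 / 10 * ((s : ℝ) - 10) := by
      have : (|C| + 3 + L * |C1| + L * |C2| + 3) / (3 / 10) ≤ (s : ℝ) - 10 := by linarith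
      rw [div_le_iff₀ (by norm_num)] at this
      linarith
    have hLC1 : 0 ≤ (L : ℝ) * |C1| := mul_nonneg hL0 (abs_nonneg _)
    have hLC2 : 0 ≤ (L : ℝ) * |C2| := mul_nonneg hL0 (abs_nonneg _)
    have hC0 : 0 ≤ |C| := abs_nonneg _
    have hs10 : (10 : ℝ) ≤ s := by linarith
    have hs1 : 1 ≤ s := by
      have : (1 : ℝ) ≤ s := by linarith
      exact_mod_cast this
    have hs0 : (0 : ℝ) < s := by linarith
    have hw : 2 ^ (s - 1) ≤ om (A d) := by
      rw [hs]; exact h1 d (by omega) (by omega)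
    have hlog := exc_log s hs0
    have hbase : 0.44 * (s : ℝ) - 2 ≤ ((s : ℝ) - 1) * Real.log 2 - Real.log s := by
      have : ((s : ℝ) - 1) * 0.69 ≤ ((s : ℝ) - 1) * Real.log 2 :=
        mul_le_mul_of_nonneg_left (by linarith) (by linarith)
      linarith
    have a1 : (0 : ℝ) < (oo (Fin k → A d) : ℝ) := by exact_mod_cast oo_pos (Fin k → A d)
    show C ≤ (Nat.multichoose (om (A d)) k : ℝ) / (oo (Fin k → A d) : ℝ) ^ L
    have key : ∀ X Y : ℝ, Real.exp X ≤ (Nat.multichoose (om (A d)) k : ℝ) →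
        (oo (Fin k → A d) : ℝ) ^ L ≤ Real.exp Y → |C| ≤ X - Y →
        C ≤ (Nat.multichoose (om (A d)) k : ℝ) / (oo (Fin k → A d) : ℝ) ^ L := by
      intro X Y hX hY hXY
      rw [le_div_iff₀ (pow_pos a1 _)]
      have e1 : C ≤ Real.exp (X - Y) := by
        have := Real.add_one_le_exp (X - Y)
        have := le_abs_self C
        linarith
      calc C * (oo (Fin k → A d) : ℝ) ^ L ≤ Real.exp (X - Y) * (oo (Fin k → A d) : ℝ) ^ L :=
            mul_le_mul_of_nonneg_right e1 (pow_nonneg a1.le _)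
        _ ≤ Real.exp (X - Y) * Real.exp Y :=
            mul_le_mul_of_nonneg_left hY (Real.exp_pos _).le
        _ = Real.exp X := by rw [← Real.exp_add]; congr 1; ring
        _ ≤ _ := hX
    rcases le_or_gt k s with hks | hks
    · refine key (k * (((s : ℝ) - 1) * Real.log 2 - Real.log s))
        (k * (L * (C1 + ε * Real.sqrt d))) (exc_low _ s k hs1 hw hks) ?_ ?_
      · have b1 : (oo (Fin k → A d) : ℝ) ≤ Real.exp (C1 + ε * Real.sqrt d) ^ k := by
          calc (oo (Fin k → A d) : ℝ) ≤ (oo (A d) : ℝ) ^ k := by exact_mod_cast h5 d k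
            _ ≤ _ := by
              refine pow_le_pow_left₀ (Nat.cast_nonneg _) ?_ k
              exact le_trans (by exact_mod_cast h3 d) (hC1 d)
        calc (oo (Fin k → A d) : ℝ) ^ L ≤ (Real.exp (C1 + ε * Real.sqrt d) ^ k) ^ L :=
              pow_le_pow_left₀ a1.le b1 L
          _ = _ := by
              rw [← Real.exp_nat_mul, ← Real.exp_nat_mul]
              congr 1; ring
      · have b2 : (L : ℝ) * (C1 + ε * Real.sqrt d) ≤ L * |C1| + ((s : ℝ) + 1) / 8 := by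
          have c1 : (L : ℝ) * C1 ≤ L * |C1| := mul_le_mul_of_nonneg_left (le_abs_self _) hL0
          have c2 : (L : ℝ) * ε * Real.sqrt d ≤ 1 / 8 * ((s : ℝ) + 1) :=
            mul_le_mul hLε hsq (Real.sqrt_nonneg _) (by norm_num)
          linarith
        have b3 : |C| ≤ (((s : ℝ) - 1) * Real.log 2 - Real.log s) -
            L * (C1 + ε * Real.sqrt d) := by linarith
        have hk1 : (1 : ℝ) ≤ k := by exact_mod_cast hk
        calc |C| ≤ 1 * ((((s : ℝ) - 1) * Real.log 2 - Real.log s) -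
            L * (C1 + ε * Real.sqrt d)) := by linarith
          _ ≤ k * ((((s : ℝ) - 1) * Real.log 2 - Real.log s) -
            L * (C1 + ε * Real.sqrt d)) := mul_le_mul_of_nonneg_right hk1 (by linarith)
          _ = _ := by ring
    · refine key (s * (((s : ℝ) - 1) * Real.log 2 - Real.log s)) (L * (C2 + ε * d)) ?_ ?_ ?_
      · refine (exc_low _ s s hs1 hw le_rfl).trans ?_
        exact_mod_cast exc_mc_mono _ (om_pos _) hks.le
      · have b1 : (oo (Fin k → A d) : ℝ) ≤ Real.exp (C2 + ε * d) := by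
          calc (oo (Fin k → A d) : ℝ) ≤ (2 : ℝ) ^ (PP d).card := by exact_mod_cast h4 d k
            _ ≤ Real.exp 1 ^ (PP d).card := by
              refine pow_le_pow_left₀ (by norm_num) ?_ _
              have := Real.add_one_le_exp (1 : ℝ)
              linarith
            _ = Real.exp ((PP d).card : ℝ) := by
              rw [← Real.exp_nat_mul, mul_one]
            _ ≤ _ := Real.exp_le_exp.2 (hC2 d)
        calc (oo (Fin k → A d) : ℝ) ^ L ≤ Real.exp (C2 + ε * d) ^ L :=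
              pow_le_pow_left₀ a1.le b1 L
          _ = _ := by rw [← Real.exp_nat_mul]
      · have b2 : (L : ℝ) * (C2 + ε * d) ≤ L * |C2| + ((s : ℝ) + 1) ^ 2 / 8 := by
          have c1 : (L : ℝ) * C2 ≤ L * |C2| := mul_le_mul_of_nonneg_left (le_abs_self _) hL0
          have c2 : (L : ℝ) * ε * d ≤ 1 / 8 * ((s : ℝ) + 1) ^ 2 :=
            mul_le_mul hLε hsd (Nat.cast_nonneg _) (by norm_num)
          linarith
        have b3 : (s : ℝ) * (0.44 * (s : ℝ) - 2) ≤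
            s * (((s : ℝ) - 1) * Real.log 2 - Real.log s) :=
          mul_le_mul_of_nonneg_left hbase hs0.le
        nlinarith
  -- the union
  choose! K0 hK0 using F
  refine Set.Finite.subset (Set.Finite.biUnion (Set.finite_lt_nat (7 + S0 ^ 2))
    (t := fun d => (fun k => ((d, k) : ℕ × ℕ)) '' {k | k < K0 d})
    fun d _ => (Set.finite_lt_nat (K0 d)).image _) ?_
  rintro ⟨d, k⟩ ⟨hd, hk, hr⟩
  have e1 : d < 7 + S0 ^ 2 := by
    by_contra h
    exact absurd (G d (not_lt.1 h) k hk) (not_le.2 hr)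
  have e2 : k < K0 d := by
    by_contra h
    exact absurd (hK0 d hd k (not_lt.1 h)) (not_le.2 hr)
  exact Set.mem_biUnion (show d ∈ {n | n < 7 + S0 ^ 2} from e1) ⟨k, e2, rfl⟩

end SR32

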