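import Pool.Agent.SR32.ExcCore
import Pool.Agent.SR32.DefsT

/-!
# SR32/ExcTCore: Claim F for the version with permuted simple factors
-/

namespace SR32

open Filter

theorem QQ_le_EE (b k : ℕ) : (QQ b k).card ≤ (EE k).card := by
  classical
  unfold QQ
  exact Finset.card_filter_le _ _

theorem QQ_le_PP (b k : ℕ) : (QQ b k).card ≤ 2 ^ (PP b).card := by
  classical
  rw [← Finset.card_powerset]
  apply Finset.card_le_card
  intro S hS
  rw [mem_QQ] at hS
  rw [Finset.mem_powerset]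
  intro q hq
  rw [mem_PP]
  exact ⟨hS.2.2 q hq, (hS.1 q hq).2⟩

theorem QQ_pos (b k : ℕ) : 1 ≤ (QQ b k).card := by
  have : (∅ : Finset ℕ) ∈ QQ b k := by
    rw [mem_QQ]
    simp
  exact Finset.card_pos.2 ⟨_, this⟩

theorem rt_pos (L t : ℕ) (p : ℕ × ℕ) (h1 : 5 ≤ p.1) : 0 < rt L t p := by
  unfold rt
  have hw := two_le_om p.1 h1
  have hW : 0 < Nat.multichoose (om (A p.1)) p.2 := by
    have := exc_W_two hw p.2
    omega
  have hO : 0 < oo (Fin p.2 → A p.1) := oo_pos _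
  have hQ : 0 < (QQ (t * om (A p.1)) p.2).card := QQ_pos _ _
  positivity

/-- middle range of `k` -/
theorem excT_ev_two (L : ℕ) (M C C' ε : ℝ) (hε : (L : ℝ) * ε ≤ 1 / 10) :
    ∀ᶠ s : ℕ in atTop, ∀ k : ℝ, (s : ℝ) + 1 ≤ k →
      Real.log M + L * (Real.log 2 * (C' + ε * ((s : ℝ) + 1) ^ 2) + (C + ε * (k + 1))) ≤
        k * (((s : ℝ) - 1) * Real.log 2 / 2) := by
  filter_upwards [eventually_ge_atTop 10,
    tendsto_natCast_atTop_atTop.eventually_ge_atTop
      (Real.log M + L * (Real.log 2 * C') + L * C)] with s h2 h3 k hk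
  have hs1 : (10 : ℝ) ≤ s := by exact_mod_cast h2
  have hl := Real.log_two_gt_d9
  have hl' := Real.log_two_lt_d9
  have h4 : Real.log M + L * (Real.log 2 * (C' + ε * ((s : ℝ) + 1) ^ 2) + (C + ε * (k + 1))) =
      (Real.log M + L * (Real.log 2 * C') + L * C) + Real.log 2 * ((L * ε) * (s + 1) ^ 2) +
        (L * ε) * (k + 1) := by ring
  have h5 : ((L : ℝ) * ε) * (s + 1) ^ 2 ≤ 1 / 10 * (s + 1) ^ 2 :=
    mul_le_mul_of_nonneg_right hε (by positivity)
  have h5' : Real.log 2 * (((L : ℝ) * ε) * (s + 1) ^ 2) ≤ 0.07 * (s + 1) ^ 2 := by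
    calc Real.log 2 * (((L : ℝ) * ε) * (s + 1) ^ 2)
        ≤ Real.log 2 * (1 / 10 * (s + 1) ^ 2) :=
          mul_le_mul_of_nonneg_left h5 (by linarith)
      _ ≤ 0.7 * (1 / 10 * (s + 1) ^ 2) :=
          mul_le_mul_of_nonneg_right (by linarith) (by positivity)
      _ = 0.07 * (s + 1) ^ 2 := by ring
  have h6 : ((L : ℝ) * ε) * (k + 1) ≤ 1 / 10 * (k + 1) :=
    mul_le_mul_of_nonneg_right hε (by linarith)
  have h7 : 0.345 * ((s : ℝ) - 1) ≤ ((s : ℝ) - 1) * Real.log 2 / 2 := by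
    have : 0.69 * ((s : ℝ) - 1) ≤ ((s : ℝ) - 1) * Real.log 2 := by
      rw [mul_comm]
      exact mul_le_mul_of_nonneg_left (by linarith) (by linarith)
    linarith
  have h8 : k * (0.345 * ((s : ℝ) - 1)) ≤ k * (((s : ℝ) - 1) * Real.log 2 / 2) :=
    mul_le_mul_of_nonneg_left h7 (by linarith)
  have h9 : 0.3 * (((s : ℝ) + 1) * (s - 1)) ≤ 0.3 * (k * (s - 1)) := by
    have := mul_le_mul_of_nonneg_right hk (show (0 : ℝ) ≤ (s : ℝ) - 1 by linarith)
    linarith
  have h10 : 9 * k ≤ k * ((s : ℝ) - 1) := by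
    rw [mul_comm]
    exact mul_le_mul_of_nonneg_left (by linarith) (by linarith)
  rw [h4]
  nlinarith

/-- large range of `k` -/
theorem excT_ev_three (L t : ℕ) (M C ε : ℝ) (hε : (L : ℝ) * ε ≤ 1 / 10)
    (hεt : (L : ℝ) * ε * t ≤ 1 / 10) :
    ∀ᶠ s : ℕ in atTop, ∀ w : ℝ, ((s : ℝ) + 1) ^ 2 ≤ w →
      Real.log M + L * (Real.log 2 * (C + ε * ((s : ℝ) + 1) ^ 2) +
        Real.log 2 * (C + ε * (t * w))) ≤ Real.log 2 * ((w - 1) / 2) := by
  filter_upwards [eventually_ge_atTop 10,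
    tendsto_natCast_atTop_atTop.eventually_ge_atTop
      (5 * (Real.log M + 2 * (L * (Real.log 2 * C))) + 5)] with s h2 h3 w hw
  have hs1 : (10 : ℝ) ≤ s := by exact_mod_cast h2
  have hl := Real.log_two_gt_d9
  have hl' := Real.log_two_lt_d9
  have hsw : (s : ℝ) ≤ w := by nlinarith
  have h4 : Real.log M + L * (Real.log 2 * (C + ε * ((s : ℝ) + 1) ^ 2) +
        Real.log 2 * (C + ε * (t * w))) =
      (Real.log M + 2 * (L * (Real.log 2 * C))) + Real.log 2 * ((L * ε) * (s + 1) ^ 2) +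
        Real.log 2 * ((L * ε * t) * w) := by ring
  have h5 : ((L : ℝ) * ε) * (s + 1) ^ 2 ≤ 1 / 10 * w :=
    (mul_le_mul_of_nonneg_right hε (by positivity)).trans
      (mul_le_mul_of_nonneg_left hw (by norm_num))
  have h6 : ((L : ℝ) * ε * t) * w ≤ 1 / 10 * w :=
    mul_le_mul_of_nonneg_right hεt (by linarith)
  have h5' : Real.log 2 * (((L : ℝ) * ε) * (s + 1) ^ 2) ≤ 0.07 * w := by
    calc Real.log 2 * (((L : ℝ) * ε) * (s + 1) ^ 2) ≤ Real.log 2 * (1 / 10 * w) :=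
          mul_le_mul_of_nonneg_left h5 (by linarith)
      _ ≤ 0.7 * (1 / 10 * w) := mul_le_mul_of_nonneg_right (by linarith) (by linarith)
      _ = 0.07 * w := by ring
  have h6' : Real.log 2 * (((L : ℝ) * ε * t) * w) ≤ 0.07 * w := by
    calc Real.log 2 * (((L : ℝ) * ε * t) * w) ≤ Real.log 2 * (1 / 10 * w) :=
          mul_le_mul_of_nonneg_left h6 (by linarith)
      _ ≤ 0.7 * (1 / 10 * w) := mul_le_mul_of_nonneg_right (by linarith) (by linarith)
      _ = 0.07 * w := by ring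
  have h7 : 0.69 * ((w - 1) / 2) ≤ Real.log 2 * ((w - 1) / 2) :=
    mul_le_mul_of_nonneg_right (by linarith) (by linarith)
  rw [h4]
  linarith

theorem sq_le_two_pow {s : ℕ} (hs : 8 ≤ s) : (s + 1) ^ 2 ≤ 2 ^ (s - 1) := by
  induction s, hs using Nat.le_induction with
  | base => norm_num
  | succ n hn ih =>
    have h1 : n + 1 - 1 = (n - 1) + 1 := by omega
    have h2 : 2 ^ (n - 1 + 1) = 2 ^ (n - 1) * 2 := pow_succ 2 (n - 1)
    rw [h1, h2]
    nlinarith

theorem excT_large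
    (hpp : ∀ ε : ℝ, 0 < ε →
      ∃ C : ℝ, ∀ d : ℕ, ((PP d).card : ℝ) ≤ C + ε * d)
    (hpb : ∀ ε : ℝ, 0 < ε →
      ∃ C : ℝ, ∀ d : ℕ, ((EE d).card : ℝ) ≤ Real.exp (C + ε * Real.sqrt d))
    (L t : ℕ) (M : ℝ) (hM : 1 ≤ M) : ∃ D : ℕ, ∀ d : ℕ, D ≤ d → ∀ k : ℕ, 1 ≤ k →
    M ≤ rt L t (d, k) := by
  set ε : ℝ := 1 / (10 * (((L : ℝ) + 1) * ((t : ℝ) + 1))) with hε
  have hL0 : (0 : ℝ) ≤ L := Nat.cast_nonneg _
  have ht0 : (0 : ℝ) ≤ t := Nat.cast_nonneg _
  have hε0 : 0 < ε := by positivity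
  have hεL : (L : ℝ) * ε ≤ 1 / 10 := by
    rw [hε, mul_one_div, div_le_div_iff₀ (by positivity) (by norm_num)]
    nlinarith
  have hεt : (L : ℝ) * ε * t ≤ 1 / 10 := by
    have : (L : ℝ) * ε * t = (L * t) / (10 * (((L : ℝ) + 1) * ((t : ℝ) + 1))) := by
      rw [hε]; ring
    rw [this, div_le_div_iff₀ (by positivity) (by norm_num)]
    nlinarith [mul_nonneg hL0 ht0]
  obtain ⟨C1, hC1⟩ := hpb ε hε0
  obtain ⟨C2, hC2⟩ := hpp ε hε0
  have hM0 : 0 < M := by linarith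
  have hlog2 : 0 < Real.log 2 := Real.log_pos (by norm_num)
  obtain ⟨S, hS⟩ := Filter.eventually_atTop.1
    ((exc_ev_one L M (2 * |C1|) (2 * ε) hM0 (by linarith)).and
      ((excT_ev_two L M C1 C2 ε hεL).and
        ((excT_ev_three L t M C2 ε hεL hεt).and (eventually_ge_atTop 8))))
  refine ⟨S * S + 7, fun d hd k hk => ?_⟩
  set s := Nat.sqrt d with hs
  have hSs : S ≤ s := Nat.le_sqrt.2 (by omega)
  obtain ⟨e1, e2, e3, e4⟩ := hS s hSs
  have hs1 : 1 ≤ s := by omega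
  have hs0 : (0 : ℝ) < s := by exact_mod_cast hs1
  have hdlt : d < (s + 1) * (s + 1) := Nat.lt_succ_sqrt d
  have hdr : (d : ℝ) ≤ ((s : ℝ) + 1) ^ 2 := by
    rw [sq]
    exact_mod_cast hdlt.le
  have hsq : Real.sqrt d ≤ (s : ℝ) + 1 := by
    rw [Real.sqrt_le_left (by positivity)]
    exact hdr
  have hw := om_alt_ge d (by omega) (by omega)
  rw [← hs] at hw
  set w := om (A d) with hwdef
  have hwr : (2 : ℝ) ^ (s - 1) ≤ (w : ℝ) := by exact_mod_cast hw
  have hw2 : (s + 1) ^ 2 ≤ w := (sq_le_two_pow e4).trans hw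
  have hw2r : ((s : ℝ) + 1) ^ 2 ≤ (w : ℝ) := by exact_mod_cast hw2
  have hw1 : 1 ≤ w := om_pos _
  have hOpos : (0 : ℝ) < (oo (Fin k → A d) : ℝ) := by
    exact_mod_cast (oo_pos (Fin k → A d))
  have hQpos : (0 : ℝ) < ((QQ (t * w) k).card : ℝ) := by
    exact_mod_cast (QQ_pos (t * w) k)
  have hk0 : (0 : ℝ) < k := by exact_mod_cast hk
  have hk1 : (1 : ℝ) ≤ k := by exact_mod_cast hk
  -- bounds for the denominators
  have hQE : ((QQ (t * w) k).card : ℝ) ≤ Real.exp (C1 + ε * Real.sqrt k) := by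
    have h1 : ((QQ (t * w) k).card : ℝ) ≤ (EE k).card := by exact_mod_cast QQ_le_EE (t * w) k
    exact h1.trans (hC1 k)
  have htwo : ∀ n : ℕ, ((2 : ℝ) ^ n) = Real.exp (Real.log 2 * n) := fun n => by
    rw [Real.exp_mul, Real.exp_log (by norm_num), Real.rpow_natCast]
  have hOP : (oo (Fin k → A d) : ℝ) ≤ Real.exp (Real.log 2 * (C2 + ε * ((s : ℝ) + 1) ^ 2)) := by
    have h1 : (oo (Fin k → A d) : ℝ) ≤ 2 ^ (PP d).card := by exact_mod_cast oo_pow_le d k
    rw [htwo] at h1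
    refine h1.trans (Real.exp_le_exp.2 (mul_le_mul_of_nonneg_left ?_ hlog2.le))
    refine (hC2 d).trans ?_
    have := mul_le_mul_of_nonneg_left hdr hε0.le
    linarith
  unfold rt
  simp only
  rw [← hwdef, le_div_iff₀ (by positivity)]
  rcases Nat.lt_or_ge s k with hks | hks
  · have hkey : ∀ (X Y : ℝ), (oo (Fin k → A d) : ℝ) ≤ Real.exp X →
        ((QQ (t * w) k).card : ℝ) ≤ Real.exp Y →
        M * ((oo (Fin k → A d) : ℝ) * ((QQ (t * w) k).card : ℝ)) ^ L ≤
          Real.exp (Real.log M + L * (X + Y)) := by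
      intro X Y hX hY
      rw [Real.exp_add, Real.exp_log hM0, Real.exp_nat_mul, Real.exp_add]
      exact mul_le_mul_of_nonneg_left (pow_le_pow_left₀ (by positivity)
        (mul_le_mul hX hY hQpos.le (Real.exp_pos _).le) L) hM0.le
    rcases Nat.lt_or_ge w k with hkw | hkw
    · -- `k > w`
      have hQ2 : ((QQ (t * w) k).card : ℝ) ≤ Real.exp (Real.log 2 * (C2 + ε * (t * w))) := by
        have h1 : ((QQ (t * w) k).card : ℝ) ≤ 2 ^ (PP (t * w)).card := by
          exact_mod_cast QQ_le_PP (t * w) k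
        rw [htwo] at h1
        refine h1.trans (Real.exp_le_exp.2 (mul_le_mul_of_nonneg_left ?_ hlog2.le))
        have := hC2 (t * w)
        push_cast at this
        exact this
      have hh1 : 1 ≤ w / 2 := by
        have : 81 ≤ w := by nlinarith
        omega
      have hW : Real.exp (Real.log 2 * (((w : ℝ) - 1) / 2)) ≤ (Nat.multichoose w k : ℝ) := by
        have h2 : ((w : ℝ) - 1) / 2 ≤ ((w / 2 : ℕ) : ℝ) := by
          have : w ≤ 2 * (w / 2) + 1 := by omega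
          have h3 : (w : ℝ) ≤ 2 * ((w / 2 : ℕ) : ℝ) + 1 := by exact_mod_cast this
          linarith
        have hh0 : (0 : ℝ) < ((w / 2 : ℕ) : ℝ) := by exact_mod_cast hh1
        calc Real.exp (Real.log 2 * (((w : ℝ) - 1) / 2))
            ≤ Real.exp (Real.log 2 * ((w / 2 : ℕ) : ℝ)) :=
              Real.exp_le_exp.2 (mul_le_mul_of_nonneg_left h2 hlog2.le)
          _ = (2 : ℝ) ^ (w / 2) := (htwo _).symm
          _ ≤ ((w : ℝ) / ((w / 2 : ℕ) : ℝ)) ^ (w / 2) := by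
              apply pow_le_pow_left₀ (by norm_num)
              rw [le_div_iff₀ hh0]
              have : 2 * (w / 2) ≤ w := by omega
              exact_mod_cast this
          _ ≤ (Nat.multichoose w (w / 2) : ℝ) := exc_W_ge _ _ hh1
          _ ≤ (Nat.multichoose w k : ℝ) := by
              exact_mod_cast exc_W_mono_right hw1 (by omega)
      exact (hkey _ _ hOP hQ2).trans ((Real.exp_le_exp.2 (e3 w hw2r)).trans hW)
    · -- `s < k ≤ w`
      obtain ⟨k', hk'1, hk'2, hk'3, hk'4⟩ : ∃ k' : ℕ, s + 1 ≤ k' ∧ k' ≤ k ∧ k' * k' ≤ w ∧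
          Real.sqrt k ≤ (k' : ℝ) + 1 := by
        rcases Nat.lt_or_ge (Nat.sqrt w) k with h | h
        · refine ⟨Nat.sqrt w, ?_, h.le, Nat.sqrt_le w, ?_⟩
          · rw [Nat.le_sqrt]
            rw [← sq]
            exact hw2
          · rw [Real.sqrt_le_left (by positivity)]
            have h1 : k ≤ (Nat.sqrt w + 1) * (Nat.sqrt w + 1) :=
              hkw.trans (Nat.lt_succ_sqrt w).le
            rw [sq]
            exact_mod_cast h1
        · refine ⟨k, hks, le_refl _, Nat.le_sqrt.1 h, ?_⟩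
          rw [Real.sqrt_le_left (by positivity)]
          nlinarith
      have hk'0 : (0 : ℝ) < k' := by
        have : 0 < k' := by omega
        exact_mod_cast this
      have hQ2 : ((QQ (t * w) k).card : ℝ) ≤ Real.exp (C1 + ε * ((k' : ℝ) + 1)) := by
        refine hQE.trans (Real.exp_le_exp.2 ?_)
        have := mul_le_mul_of_nonneg_left hk'4 hε0.le
        linarith
      have hbase : Real.exp (((s : ℝ) - 1) * Real.log 2 / 2) ≤ (w : ℝ) / k' := by
        have h1 : Real.exp (((s : ℝ) - 1) * Real.log 2 / 2) ^ 2 ≤ ((w : ℝ) / k') ^ 2 := by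
          rw [← Real.exp_nat_mul]
          have h2 : ((2 : ℕ) : ℝ) * (((s : ℝ) - 1) * Real.log 2 / 2) =
              Real.log 2 * ((s - 1 : ℕ) : ℝ) := by
            push_cast [Nat.cast_sub hs1]
            ring
          rw [h2, ← htwo, div_pow, le_div_iff₀ (by positivity)]
          have h3 : (k' : ℝ) ^ 2 ≤ w := by
            rw [sq]
            exact_mod_cast hk'3
          calc (2 : ℝ) ^ (s - 1) * (k' : ℝ) ^ 2 ≤ w * w :=
                mul_le_mul hwr h3 (by positivity) (Nat.cast_nonneg _)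
            _ = (w : ℝ) ^ 2 := by ring
        exact (pow_le_pow_iff_left₀ (Real.exp_pos _).le (by positivity) (by norm_num)).1 h1
      have hW : Real.exp ((k' : ℝ) * (((s : ℝ) - 1) * Real.log 2 / 2)) ≤
          (Nat.multichoose w k : ℝ) := by
        calc Real.exp ((k' : ℝ) * (((s : ℝ) - 1) * Real.log 2 / 2))
            = (Real.exp (((s : ℝ) - 1) * Real.log 2 / 2)) ^ k' := by rw [Real.exp_nat_mul]
          _ ≤ ((w : ℝ) / k') ^ k' := pow_le_pow_left₀ (Real.exp_pos _).le hbase _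
          _ ≤ (Nat.multichoose w k' : ℝ) := exc_W_ge _ _ (by omega)
          _ ≤ (Nat.multichoose w k : ℝ) := by exact_mod_cast exc_W_mono_right hw1 hk'2
      have hk'r : (s : ℝ) + 1 ≤ (k' : ℝ) := by exact_mod_cast hk'1
      exact (hkey _ _ hOP hQ2).trans ((Real.exp_le_exp.2 (e2 k' hk'r)).trans hW)
  · -- small `k`
    have hO : (oo (Fin k → A d) : ℝ) ≤ (Real.exp (|C1| + ε * ((s : ℝ) + 1))) ^ k := by
      have h0 : (oo (A d) : ℝ) ≤ Real.exp (|C1| + ε * ((s : ℝ) + 1)) := by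
        have h1 : (oo (A d) : ℝ) ≤ (EE d).card := by exact_mod_cast oo_alt_le d
        refine h1.trans ((hC1 d).trans (Real.exp_le_exp.2 ?_))
        have := mul_le_mul_of_nonneg_left hsq hε0.le
        have := le_abs_self C1
        linarith
      have h1 : (oo (Fin k → A d) : ℝ) ≤ (oo (A d) : ℝ) ^ k := by
        exact_mod_cast oo_pow_le_pow d k
      exact h1.trans (pow_le_pow_left₀ (Nat.cast_nonneg _) h0 k)
    have hQ : ((QQ (t * w) k).card : ℝ) ≤ (Real.exp (|C1| + ε * ((s : ℝ) + 1))) ^ k := by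
      rw [← Real.exp_nat_mul]
      refine hQE.trans (Real.exp_le_exp.2 ?_)
      have h1 : Real.sqrt k ≤ k := by
        rw [Real.sqrt_le_left hk0.le]
        nlinarith
      have h2 : C1 ≤ k * |C1| := by
        have h3 := le_abs_self C1
        have h4 := mul_le_mul_of_nonneg_right hk1 (abs_nonneg C1)
        linarith
      have h3 : Real.sqrt k ≤ k * ((s : ℝ) + 1) := by
        have : (k : ℝ) * 1 ≤ k * ((s : ℝ) + 1) :=
          mul_le_mul_of_nonneg_left (by linarith) hk0.le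
        linarith
      have h4 := mul_le_mul_of_nonneg_left h3 hε0.le
      calc C1 + ε * Real.sqrt k ≤ k * |C1| + ε * (k * ((s : ℝ) + 1)) := by linarith
        _ = k * (|C1| + ε * ((s : ℝ) + 1)) := by ring
    have hOQ : ((oo (Fin k → A d) : ℝ) * ((QQ (t * w) k).card : ℝ)) ^ L ≤
        (Real.exp (L * (2 * |C1| + 2 * ε * ((s : ℝ) + 1)))) ^ k := by
      calc ((oo (Fin k → A d) : ℝ) * ((QQ (t * w) k).card : ℝ)) ^ L
          ≤ ((Real.exp (|C1| + ε * ((s : ℝ) + 1))) ^ k *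
              (Real.exp (|C1| + ε * ((s : ℝ) + 1))) ^ k) ^ L :=
            pow_le_pow_left₀ (by positivity) (mul_le_mul hO hQ hQpos.le (by positivity)) L
        _ = (Real.exp (L * (2 * |C1| + 2 * ε * ((s : ℝ) + 1)))) ^ k := by
            rw [← mul_pow, ← Real.exp_add, ← pow_mul, ← Real.exp_nat_mul, ← Real.exp_nat_mul]
            congr 1
            push_cast
            ring
    have hMk : M ≤ M ^ k := le_self_pow₀ hM (by omega)
    calc M * ((oo (Fin k → A d) : ℝ) * ((QQ (t * w) k).card : ℝ)) ^ L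
        ≤ M ^ k * (Real.exp (L * (2 * |C1| + 2 * ε * ((s : ℝ) + 1)))) ^ k :=
          mul_le_mul hMk hOQ (by positivity) (by positivity)
      _ = (M * Real.exp (L * (2 * |C1| + 2 * ε * ((s : ℝ) + 1)))) ^ k := by rw [mul_pow]
      _ ≤ ((2 : ℝ) ^ (s - 1) / s) ^ k := pow_le_pow_left₀ (by positivity) e1 k
      _ ≤ ((w : ℝ) / k) ^ k := by
          apply pow_le_pow_left₀ (by positivity)
          have hks' : (k : ℝ) ≤ s := by exact_mod_cast hks
          calc (2 : ℝ) ^ (s - 1) / s ≤ (2 : ℝ) ^ (s - 1) / k :=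
                div_le_div_of_nonneg_left (by positivity) hk0 hks'
            _ ≤ (w : ℝ) / k := div_le_div_of_nonneg_right hwr hk0.le
      _ ≤ (Nat.multichoose w k : ℝ) := exc_W_ge _ _ hk

theorem excT_fixed (L t : ℕ) (M : ℝ) (d : ℕ) (hd : 5 ≤ d) : ∃ K : ℕ, ∀ k : ℕ, K ≤ k →
    M ≤ rt L t (d, k) := by
  refine ⟨⌈M * ((2 : ℝ) ^ (PP d).card * (2 : ℝ) ^ (PP (t * om (A d))).card) ^ L⌉₊,
    fun k hk => ?_⟩
  have hOpos : (0 : ℝ) < (oo (Fin k → A d) : ℝ) := by
    exact_mod_cast (oo_pos (Fin k → A d))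
  have hQpos : (0 : ℝ) < ((QQ (t * om (A d)) k).card : ℝ) := by
    exact_mod_cast (QQ_pos (t * om (A d)) k)
  unfold rt
  simp only
  rw [le_div_iff₀ (by positivity)]
  have h1 : (oo (Fin k → A d) : ℝ) ≤ 2 ^ (PP d).card := by exact_mod_cast oo_pow_le d k
  have h2 : ((QQ (t * om (A d)) k).card : ℝ) ≤ 2 ^ (PP (t * om (A d))).card := by
    exact_mod_cast QQ_le_PP (t * om (A d)) k
  have hW : (k : ℝ) ≤ (Nat.multichoose (om (A d)) k : ℝ) := by
    have := exc_W_two (two_le_om d hd) k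
    have h2 : k ≤ Nat.multichoose (om (A d)) k := by omega
    exact_mod_cast h2
  rcases le_or_gt M 0 with hM | hM
  · have : M * ((oo (Fin k → A d) : ℝ) * ((QQ (t * om (A d)) k).card : ℝ)) ^ L ≤ 0 :=
      mul_nonpos_of_nonpos_of_nonneg hM (by positivity)
    exact this.trans (Nat.cast_nonneg _)
  · calc M * ((oo (Fin k → A d) : ℝ) * ((QQ (t * om (A d)) k).card : ℝ)) ^ L
        ≤ M * ((2 : ℝ) ^ (PP d).card * (2 : ℝ) ^ (PP (t * om (A d))).card) ^ L :=
          mul_le_mul_of_nonneg_left (pow_le_pow_left₀ (by positivity)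
            (mul_le_mul h1 h2 hQpos.le (by positivity)) L) hM.le
      _ ≤ k := Nat.ceil_le.1 hk
      _ ≤ _ := hW

theorem finite_excT_of
    (hpp : ∀ ε : ℝ, 0 < ε →
      ∃ C : ℝ, ∀ d : ℕ, ((PP d).card : ℝ) ≤ C + ε * d)
    (hpb : ∀ ε : ℝ, 0 < ε →
      ∃ C : ℝ, ∀ d : ℕ, ((EE d).card : ℝ) ≤ Real.exp (C + ε * Real.sqrt d))
    (L t : ℕ) (C : ℝ) :
    {p : ℕ × ℕ | 5 ≤ p.1 ∧ 1 ≤ p.2 ∧ rt L t p < C}.Finite := by
  obtain ⟨D, hD⟩ := excT_large hpp hpb L t (max C 1) (le_max_right _ _)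
  have hK : ∀ d : ℕ, ∃ K : ℕ, 5 ≤ d → ∀ k : ℕ, K ≤ k → max C 1 ≤ rt L t (d, k) := by
    intro d
    by_cases hd : 5 ≤ d
    · obtain ⟨K, hK⟩ := excT_fixed L t (max C 1) d hd
      exact ⟨K, fun _ => hK⟩
    · exact ⟨0, fun h => absurd h hd⟩
  choose K hK using hK
  refine Set.Finite.subset (Finset.finite_toSet
    ((Finset.range D).biUnion fun d => (Finset.range (K d)).map
      ⟨fun k => (d, k), fun a b h => (Prod.mk.inj h).2⟩)) ?_
  rintro ⟨d, k⟩ ⟨h1, h2, h3⟩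
  simp only at h1 h2
  have h4 : rt L t (d, k) < max C 1 := lt_of_lt_of_le h3 (le_max_left _ _)
  have hd : d < D := by
    by_contra hcon
    push Not at hcon
    exact absurd (hD d hcon k h2) (not_le.2 h4)
  have hk : k < K d := by
    by_contra hcon
    push Not at hcon
    exact absurd (hK d h1 k hcon) (not_le.2 h4)
  rw [Finset.mem_coe, Finset.mem_biUnion]
  refine ⟨d, Finset.mem_range.2 hd, ?_⟩
  rw [Finset.mem_map]
  exact ⟨k, Finset.mem_range.2 hk, rfl⟩

end SR32
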