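import Pool.Agent.SR32.DefsT
import Pool.Agent.SR32.ExcS58

/-!
# SR32/ExcTS58: only finitely many pairs with a small ratio (Claim F')
-/

set_option autoImplicit false

namespace SR32

theorem excT_QQ_EE (b k : ℕ) : (QQ b k).card ≤ (EE k).card := by
  classical
  refine Finset.card_le_card fun S hS => ?_
  rw [mem_QQ] at hS
  rw [mem_EE]
  exact ⟨hS.1, hS.2.1⟩

theorem excT_QQ_PP (b k : ℕ) : (QQ b k).card ≤ 2 ^ (PP b).card := by
  classical
  rw [← Finset.card_powerset]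
  refine Finset.card_le_card fun S hS => ?_
  rw [mem_QQ] at hS
  rw [Finset.mem_powerset]
  intro q hq
  rw [mem_PP]
  exact ⟨hS.2.2 q hq, (hS.1 q hq).2⟩

theorem excT_QQ_pos (b k : ℕ) : 1 ≤ (QQ b k).card := by
  classical
  refine Finset.card_pos.2 ⟨∅, ?_⟩
  rw [mem_QQ]
  refine ⟨fun q hq => absurd hq (Finset.notMem_empty q), by simp,
    fun q hq => absurd hq (Finset.notMem_empty q)⟩

theorem rt_pos' (L t : ℕ) (p : ℕ × ℕ) : 0 < rt L t p := by
  unfold rt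
  have h1 : 0 < Nat.multichoose (om (A p.1)) p.2 := exc_mc_pos _ _ (om_pos _)
  have h2 : 0 < oo (Fin p.2 → A p.1) := oo_pos _
  have h5 : 0 < (QQ (t * om (A p.1)) p.2).card := excT_QQ_pos _ _
  have h3 : (0 : ℝ) < (Nat.multichoose (om (A p.1)) p.2 : ℝ) := by exact_mod_cast h1
  have h4 : (0 : ℝ) < (oo (Fin p.2 → A p.1) : ℝ) := by exact_mod_cast h2
  have h6 : (0 : ℝ) < ((QQ (t * om (A p.1)) p.2).card : ℝ) := by exact_mod_cast h5
  exact div_pos h3 (pow_pos (mul_pos h4 h6) _)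

theorem excT_low (w k : ℕ) (hk : 1 ≤ k) (hw : k ^ 2 ≤ w) :
    Real.exp ((k : ℝ) / 2 * Real.log w) ≤ (Nat.multichoose w k : ℝ) := by
  have hw1 : 1 ≤ w := le_trans (Nat.one_le_pow _ _ hk) hw
  have hw0 : (0 : ℝ) < w := by exact_mod_cast hw1
  have hk0 : (0 : ℝ) < k := by exact_mod_cast hk
  have h1 := exc_mc_pow w k hw1
  obtain ⟨r, hr⟩ : ∃ r : ℝ, r = Real.exp (Real.log w / 2) := ⟨_, rfl⟩
  have hr0 : 0 < r := by rw [hr]; exact Real.exp_pos _
  have hrr : r * r = w := by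
    rw [hr, ← Real.exp_add, add_halves, Real.exp_log hw0]
  have hkr : (k : ℝ) ≤ r := by
    have h2 : (k : ℝ) ^ 2 ≤ r ^ 2 := by
      rw [sq r, hrr]
      exact_mod_cast hw
    exact le_of_sq_le_sq h2 hr0.le
  have h3 : Real.exp ((k : ℝ) / 2 * Real.log w) = r ^ k := by
    rw [hr, ← Real.exp_nat_mul]
    congr 1; ring
  rw [h3]
  have h4 : (Nat.factorial k : ℝ) ≤ (k : ℝ) ^ k := by exact_mod_cast Nat.factorial_le_pow k
  have h7 : (0 : ℝ) ≤ (Nat.multichoose w k : ℝ) := Nat.cast_nonneg _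
  have h8 : r ^ k * (k : ℝ) ^ k ≤ (Nat.multichoose w k : ℝ) * (k : ℝ) ^ k := by
    calc r ^ k * (k : ℝ) ^ k ≤ r ^ k * r ^ k :=
          mul_le_mul_of_nonneg_left (pow_le_pow_left₀ hk0.le hkr k) (pow_nonneg hr0.le k)
      _ = (w : ℝ) ^ k := by rw [← mul_pow, hrr]
      _ ≤ (Nat.factorial k : ℝ) * (Nat.multichoose w k : ℝ) := h1
      _ ≤ (k : ℝ) ^ k * (Nat.multichoose w k : ℝ) := mul_le_mul_of_nonneg_right h4 h7
      _ = _ := mul_comm _ _
  exact le_of_mul_le_mul_right h8 (pow_pos hk0 k)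

theorem excT_half (w : ℕ) (hw : 2 ≤ w) :
    Real.exp (((w / 2 : ℕ) : ℝ) * Real.log 2) ≤ (Nat.multichoose w (w / 2) : ℝ) := by
  obtain ⟨j, hj⟩ : ∃ j : ℕ, j = w / 2 := ⟨_, rfl⟩
  have hj1 : 1 ≤ j := by omega
  have hjw : 2 * j ≤ w := by omega
  rw [← hj]
  have hj0 : (0 : ℝ) < j := by exact_mod_cast hj1
  have h1 := exc_mc_pow w j (by omega)
  have h4 : (Nat.factorial j : ℝ) ≤ (j : ℝ) ^ j := by exact_mod_cast Nat.factorial_le_pow j
  have h7 : (0 : ℝ) ≤ (Nat.multichoose w j : ℝ) := Nat.cast_nonneg _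
  have h3 : Real.exp ((j : ℝ) * Real.log 2) = 2 ^ j := by
    rw [Real.exp_nat_mul, Real.exp_log (by norm_num)]
  rw [h3]
  have h8 : (2 : ℝ) ^ j * (j : ℝ) ^ j ≤ (Nat.multichoose w j : ℝ) * (j : ℝ) ^ j := by
    calc (2 : ℝ) ^ j * (j : ℝ) ^ j = (2 * (j : ℝ)) ^ j := by rw [mul_pow]
      _ ≤ (w : ℝ) ^ j := by
          refine pow_le_pow_left₀ (by positivity) ?_ j
          exact_mod_cast hjw
      _ ≤ (Nat.factorial j : ℝ) * (Nat.multichoose w j : ℝ) := h1
      _ ≤ (j : ℝ) ^ j * (Nat.multichoose w j : ℝ) := mul_le_mul_of_nonneg_right h4 h7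
      _ = _ := mul_comm _ _
  exact le_of_mul_le_mul_right h8 (pow_pos hj0 j)

theorem excT_two_pow (n : ℕ) : (n + 9) ^ 2 ≤ 2 ^ (n + 7) := by
  induction n with
  | zero => norm_num
  | succ n ih =>
    have : 2 ^ (n + 1 + 7) = 2 * 2 ^ (n + 7) := by rw [← pow_succ']
    rw [this]
    have h2 : 2 * (n + 9) ^ 2 = (n + 1 + 9) ^ 2 + (n ^ 2 + 16 * n + 62) := by ring
    have h3 : 2 * (n + 9) ^ 2 ≤ 2 * 2 ^ (n + 7) := Nat.mul_le_mul_left 2 ih
    rw [h2] at h3
    exact le_trans (Nat.le_add_right _ _) h3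

theorem finite_excT_of
    (h1 : ∀ d : ℕ, 5 ≤ d → d ≠ 6 → 2 ^ (Nat.sqrt d - 1) ≤ om (A d))
    (h2 : ∀ d : ℕ, 5 ≤ d → 2 ≤ om (A d))
    (h3 : ∀ d : ℕ, oo (A d) ≤ (EE d).card)
    (h4 : ∀ d k : ℕ, oo (Fin k → A d) ≤ 2 ^ (PP d).card)
    (h5 : ∀ d k : ℕ, oo (Fin k → A d) ≤ oo (A d) ^ k)
    (h6 : ∀ ε : ℝ, 0 < ε → ∃ C : ℝ, ∀ d : ℕ, ((PP d).card : ℝ) ≤ C + ε * d)
    (h7 : ∀ ε : ℝ, 0 < ε → ∃ C : ℝ, ∀ d : ℕ, ((EE d).card : ℝ) ≤ Real.exp (C + ε * Real.sqrt d))
    (L t : ℕ) (C : ℝ) : {p : ℕ × ℕ | 5 ≤ p.1 ∧ 1 ≤ p.2 ∧ rt L t p < C}.Finite := by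
  -- fixed `d`
  have F : ∀ d : ℕ, 5 ≤ d → ∃ K0 : ℕ, ∀ k, K0 ≤ k → C ≤ rt L t (d, k) := by
    intro d hd
    refine ⟨⌈C * ((2 ^ (PP d).card : ℝ) * 2 ^ (PP (t * om (A d))).card) ^ L⌉₊, fun k hk => ?_⟩
    unfold rt
    have a1 : (0 : ℝ) < (oo (Fin k → A d) : ℝ) := by exact_mod_cast oo_pos (Fin k → A d)
    have a2 : (oo (Fin k → A d) : ℝ) ≤ 2 ^ (PP d).card := by exact_mod_cast h4 d k
    have q1 : (0 : ℝ) < ((QQ (t * om (A d)) k).card : ℝ) := by
      exact_mod_cast excT_QQ_pos (t * om (A d)) k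
    have q2 : ((QQ (t * om (A d)) k).card : ℝ) ≤ 2 ^ (PP (t * om (A d))).card := by
      exact_mod_cast excT_QQ_PP (t * om (A d)) k
    have a3 : (k : ℝ) + 1 ≤ (Nat.multichoose (om (A d)) k : ℝ) := by
      exact_mod_cast exc_mc_two _ k (h2 d hd)
    have a4 : C * ((2 ^ (PP d).card : ℝ) * 2 ^ (PP (t * om (A d))).card) ^ L ≤ k :=
      (Nat.le_ceil _).trans (by exact_mod_cast hk)
    show C ≤ (Nat.multichoose (om (A d)) k : ℝ) /
      ((oo (Fin k → A d) : ℝ) * ((QQ (t * om (A d)) k).card : ℝ)) ^ L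
    rw [le_div_iff₀ (pow_pos (mul_pos a1 q1) _)]
    rcases le_or_gt C 0 with hC | hC
    · have : C * ((oo (Fin k → A d) : ℝ) * ((QQ (t * om (A d)) k).card : ℝ)) ^ L ≤ 0 :=
        mul_nonpos_of_nonpos_of_nonneg hC (pow_nonneg (mul_pos a1 q1).le _)
      linarith [Nat.cast_nonneg (α := ℝ) k]
    · calc C * ((oo (Fin k → A d) : ℝ) * ((QQ (t * om (A d)) k).card : ℝ)) ^ L
          ≤ C * ((2 ^ (PP d).card : ℝ) * 2 ^ (PP (t * om (A d))).card) ^ L := by
            refine mul_le_mul_of_nonneg_left (pow_le_pow_left₀ (mul_pos a1 q1).le ?_ L) hC.le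
            exact mul_le_mul a2 q2 q1.le (by positivity)
        _ ≤ k := a4
        _ ≤ _ := by linarith
  -- large `d`
  have hL0 : (0 : ℝ) ≤ L := Nat.cast_nonneg _
  have ht0 : (0 : ℝ) ≤ t := Nat.cast_nonneg _
  obtain ⟨ε, hε⟩ : ∃ ε : ℝ, ε = 1 / (16 * ((L : ℝ) + 1) * ((t : ℝ) + 1)) := ⟨_, rfl⟩
  have hε0 : 0 < ε := by rw [hε]; positivity
  have hε1 : ((L : ℝ) + 1) * ((t : ℝ) + 1) * ε = 1 / 16 := by
    rw [hε]; field_simp
  have hLt0 : 0 ≤ (L : ℝ) * t := mul_nonneg hL0 ht0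
  have hLε0 : 0 ≤ (L : ℝ) * ε := mul_nonneg hL0 hε0.le
  have htε0 : 0 ≤ (t : ℝ) * ε := mul_nonneg ht0 hε0.le
  have hLtε0 : 0 ≤ (L : ℝ) * t * ε := mul_nonneg hLt0 hε0.le
  have hexp : ((L : ℝ) + 1) * ((t : ℝ) + 1) * ε = L * t * ε + L * ε + t * ε + ε := by ring
  have hLε : (L : ℝ) * ε ≤ 1 / 16 := by linarith
  have hLtε : (L : ℝ) * t * ε ≤ 1 / 16 := by linarith
  obtain ⟨C1, hC1⟩ := h7 ε hε0
  obtain ⟨C2, hC2⟩ := h6 ε hε0
  have hl2 := Real.log_two_gt_d9
  obtain ⟨S0, hS0⟩ : ∃ S0 : ℕ, (|C| + 6 + 2 * (L * |C1|) + 2 * (L * |C2|)) / (1 / 10) + 10 ≤ S0 :=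
    ⟨_, Nat.le_ceil _⟩
  have G : ∀ d : ℕ, 7 + S0 ^ 2 ≤ d → ∀ k, 1 ≤ k → C ≤ rt L t (d, k) := by
    intro d hd k hk
    obtain ⟨s, hs⟩ : ∃ s : ℕ, s = Nat.sqrt d := ⟨_, rfl⟩
    have hsS : S0 ≤ s := by
      rw [hs, Nat.le_sqrt']; omega
    have hsd : (d : ℝ) ≤ ((s : ℝ) + 1) ^ 2 := by
      have := Nat.lt_succ_sqrt' d
      rw [← hs] at this
      have h' : d ≤ (s + 1) ^ 2 := this.le
      exact_mod_cast h'
    have hsq : Real.sqrt d ≤ (s : ℝ) + 1 := by
      rw [Real.sqrt_le_left (by positivity)]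
      exact hsd
    have hsr : (|C| + 6 + 2 * (L * |C1|) + 2 * (L * |C2|)) / (1 / 10) + 10 ≤ (s : ℝ) :=
      hS0.trans (by exact_mod_cast hsS)
    have hLC1 : 0 ≤ (L : ℝ) * |C1| := mul_nonneg hL0 (abs_nonneg _)
    have hLC2 : 0 ≤ (L : ℝ) * |C2| := mul_nonneg hL0 (abs_nonneg _)
    have hC0 : 0 ≤ |C| := abs_nonneg _
    have hb : |C| + 6 + 2 * (L * |C1|) + 2 * (L * |C2|) ≤ 1 / 10 * ((s : ℝ) - 10) := by
      have : (|C| + 6 + 2 * (L * |C1|) + 2 * (L * |C2|)) / (1 / 10) ≤ (s : ℝ) - 10 := by linarith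
      rw [div_le_iff₀ (by norm_num)] at this
      linarith
    have hs10 : (10 : ℝ) ≤ s := by linarith
    have hs10' : 10 ≤ s := by exact_mod_cast hs10
    have hs1 : 1 ≤ s := by omega
    have hs0 : (0 : ℝ) < s := by linarith
    obtain ⟨w, hwd⟩ : ∃ w : ℕ, w = om (A d) := ⟨_, rfl⟩
    have hw : 2 ^ (s - 1) ≤ w := by
      rw [hs, hwd]; exact h1 d (by omega) (by omega)
    have hsw : (s + 1) ^ 2 ≤ w := by
      have := excT_two_pow (s - 8)
      have e1 : s - 8 + 9 = s + 1 := by omega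
      have e2 : s - 8 + 7 = s - 1 := by omega
      rw [e1, e2] at this
      exact this.trans hw
    have hsw' : ((s : ℝ) + 1) ^ 2 ≤ w := by exact_mod_cast hsw
    have hw1 : 1 ≤ w := le_trans Nat.one_le_two_pow hw
    have hw0 : (0 : ℝ) < w := by exact_mod_cast hw1
    have hlog := exc_log s hs0
    have hbase : 0.44 * (s : ℝ) - 2 ≤ ((s : ℝ) - 1) * Real.log 2 - Real.log s := by
      have : ((s : ℝ) - 1) * 0.69 ≤ ((s : ℝ) - 1) * Real.log 2 :=
        mul_le_mul_of_nonneg_left (by linarith) (by linarith)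
      linarith
    have hlogw : 0.69 * ((s : ℝ) - 1) ≤ Real.log w := by
      have e1 : ((s : ℝ) - 1) * Real.log 2 = Real.log ((2 : ℝ) ^ (s - 1)) := by
        rw [Real.log_pow, Nat.cast_sub hs1, Nat.cast_one]
      have e2 : Real.log ((2 : ℝ) ^ (s - 1)) ≤ Real.log w :=
        Real.log_le_log (by positivity) (by exact_mod_cast hw)
      have : ((s : ℝ) - 1) * 0.69 ≤ ((s : ℝ) - 1) * Real.log 2 :=
        mul_le_mul_of_nonneg_left (by linarith) (by linarith)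
      linarith
    have a1 : (0 : ℝ) < (oo (Fin k → A d) : ℝ) := by exact_mod_cast oo_pos (Fin k → A d)
    have q1 : (0 : ℝ) < ((QQ (t * w) k).card : ℝ) := by exact_mod_cast excT_QQ_pos (t * w) k
    show C ≤ (Nat.multichoose (om (A d)) k : ℝ) /
      ((oo (Fin k → A d) : ℝ) * ((QQ (t * om (A d)) k).card : ℝ)) ^ L
    rw [← hwd]
    have key : ∀ X Y Z : ℝ, Real.exp X ≤ (Nat.multichoose w k : ℝ) →
        (oo (Fin k → A d) : ℝ) ≤ Real.exp Y → ((QQ (t * w) k).card : ℝ) ≤ Real.exp Z →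
        |C| ≤ X - (L * Y + L * Z) →
        C ≤ (Nat.multichoose w k : ℝ) /
          ((oo (Fin k → A d) : ℝ) * ((QQ (t * w) k).card : ℝ)) ^ L := by
      intro X Y Z hX hY hZ hXY
      rw [le_div_iff₀ (pow_pos (mul_pos a1 q1) _)]
      have e1 : C ≤ Real.exp (X - (L * Y + L * Z)) := by
        have := Real.add_one_le_exp (X - (L * Y + L * Z))
        have := le_abs_self C
        linarith
      have e2 : ((oo (Fin k → A d) : ℝ) * ((QQ (t * w) k).card : ℝ)) ^ L ≤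
          Real.exp (L * Y + L * Z) := by
        calc _ ≤ (Real.exp Y * Real.exp Z) ^ L :=
              pow_le_pow_left₀ (mul_pos a1 q1).le
                (mul_le_mul hY hZ q1.le (Real.exp_pos _).le) L
          _ = _ := by
              rw [← Real.exp_add, ← Real.exp_nat_mul]
              congr 1; ring
      calc C * ((oo (Fin k → A d) : ℝ) * ((QQ (t * w) k).card : ℝ)) ^ L
          ≤ Real.exp (X - (L * Y + L * Z)) *
            ((oo (Fin k → A d) : ℝ) * ((QQ (t * w) k).card : ℝ)) ^ L :=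
            mul_le_mul_of_nonneg_right e1 (pow_nonneg (mul_pos a1 q1).le _)
        _ ≤ Real.exp (X - (L * Y + L * Z)) * Real.exp (L * Y + L * Z) :=
            mul_le_mul_of_nonneg_left e2 (Real.exp_pos _).le
        _ = Real.exp X := by rw [← Real.exp_add]; congr 1; ring
        _ ≤ _ := hX
    -- the inputs
    have O1 : (oo (Fin k → A d) : ℝ) ≤ Real.exp (k * (C1 + ε * Real.sqrt d)) := by
      calc (oo (Fin k → A d) : ℝ) ≤ (oo (A d) : ℝ) ^ k := by exact_mod_cast h5 d k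
        _ ≤ Real.exp (C1 + ε * Real.sqrt d) ^ k := by
          refine pow_le_pow_left₀ (Nat.cast_nonneg _) ?_ k
          exact le_trans (by exact_mod_cast h3 d) (hC1 d)
        _ = _ := by rw [← Real.exp_nat_mul]
    have PB : ∀ m b : ℕ, m ≤ 2 ^ (PP b).card → (m : ℝ) ≤ Real.exp (C2 + ε * b) := by
      intro m b hm
      calc (m : ℝ) ≤ (2 : ℝ) ^ (PP b).card := by exact_mod_cast hm
        _ ≤ Real.exp 1 ^ (PP b).card := by
          refine pow_le_pow_left₀ (by norm_num) ?_ _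
          have := Real.add_one_le_exp (1 : ℝ)
          linarith
        _ = Real.exp ((PP b).card : ℝ) := by
          rw [← Real.exp_nat_mul, mul_one]
        _ ≤ _ := Real.exp_le_exp.2 (hC2 b)
    have O2 : (oo (Fin k → A d) : ℝ) ≤ Real.exp (C2 + ε * d) := PB _ d (h4 d k)
    have Q1 : ((QQ (t * w) k).card : ℝ) ≤ Real.exp (C1 + ε * Real.sqrt k) :=
      le_trans (by exact_mod_cast excT_QQ_EE (t * w) k) (hC1 k)
    have Q2 : ((QQ (t * w) k).card : ℝ) ≤ Real.exp (C2 + ε * ((t * w : ℕ) : ℝ)) :=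
      PB _ (t * w) (excT_QQ_PP (t * w) k)
    have c1 : (L : ℝ) * C1 ≤ L * |C1| := mul_le_mul_of_nonneg_left (le_abs_self _) hL0
    have c2 : (L : ℝ) * C2 ≤ L * |C2| := mul_le_mul_of_nonneg_left (le_abs_self _) hL0
    have hk1 : (1 : ℝ) ≤ k := by exact_mod_cast hk
    rcases le_or_gt k s with hks | hks
    · -- (a)
      refine key (k * (((s : ℝ) - 1) * Real.log 2 - Real.log s)) _ _
        (exc_low _ s k hs1 hw hks) O1 Q1 ?_
      have hksr : (k : ℝ) ≤ s := by exact_mod_cast hks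
      have hsk : Real.sqrt k ≤ (s : ℝ) + 1 := by
        rw [Real.sqrt_le_left (by positivity)]
        nlinarith
      have b1 : (L : ℝ) * (C1 + ε * Real.sqrt d) ≤ L * |C1| + ((s : ℝ) + 1) / 16 := by
        have : (L : ℝ) * ε * Real.sqrt d ≤ 1 / 16 * ((s : ℝ) + 1) :=
          mul_le_mul hLε hsq (Real.sqrt_nonneg _) (by norm_num)
        linarith
      have b2 : (L : ℝ) * (C1 + ε * Real.sqrt k) ≤ L * |C1| + ((s : ℝ) + 1) / 16 := by
        have : (L : ℝ) * ε * Real.sqrt k ≤ 1 / 16 * ((s : ℝ) + 1) :=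
          mul_le_mul hLε hsk (Real.sqrt_nonneg _) (by norm_num)
        linarith
      have b3 : (k : ℝ) * (L * (C1 + ε * Real.sqrt d)) ≤ k * (L * |C1| + ((s : ℝ) + 1) / 16) :=
        mul_le_mul_of_nonneg_left b1 (by linarith)
      have b4 : 1 * (L * |C1| + ((s : ℝ) + 1) / 16) ≤ k * (L * |C1| + ((s : ℝ) + 1) / 16) :=
        mul_le_mul_of_nonneg_right hk1 (by positivity)
      have b5 : (k : ℝ) * (0.44 * (s : ℝ) - 2) ≤
          k * (((s : ℝ) - 1) * Real.log 2 - Real.log s) :=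
        mul_le_mul_of_nonneg_left hbase (by linarith)
      have b6 : 1 * (0.44 * (s : ℝ) - 2 - 2 * (L * |C1| + ((s : ℝ) + 1) / 16)) ≤
          k * (0.44 * (s : ℝ) - 2 - 2 * (L * |C1| + ((s : ℝ) + 1) / 16)) :=
        mul_le_mul_of_nonneg_right hk1 (by linarith)
      have b7 : (L : ℝ) * (k * (C1 + ε * Real.sqrt d)) =
          (k : ℝ) * (L * (C1 + ε * Real.sqrt d)) := by ring
      rw [b7]
      linarith
    · rcases le_or_gt k w with hkw | hkw
      · -- (b), (c)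
        obtain ⟨m, hm⟩ : ∃ m : ℕ, m = min k (Nat.sqrt w) := ⟨_, rfl⟩
        have hsm : s ≤ m := by
          rw [hm, le_min_iff]
          refine ⟨hks.le, ?_⟩
          rw [Nat.le_sqrt']
          exact le_trans (Nat.pow_le_pow_left (Nat.le_succ s) 2) hsw
        have hmk : m ≤ k := by rw [hm]; exact min_le_left _ _
        have hmw : m ^ 2 ≤ w := by
          have : m ≤ Nat.sqrt w := by rw [hm]; exact min_le_right _ _
          exact Nat.le_sqrt'.1 this
        have hkm : Real.sqrt k ≤ (m : ℝ) + 1 := by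
          rw [Real.sqrt_le_left (by positivity)]
          rcases le_total k (Nat.sqrt w) with h | h
          · have : m = k := by rw [hm]; exact min_eq_left h
            rw [this]
            nlinarith
          · have : m = Nat.sqrt w := by rw [hm]; exact min_eq_right h
            rw [this]
            have h8 := Nat.lt_succ_sqrt' w
            have h9 : k ≤ (Nat.sqrt w + 1) ^ 2 := hkw.trans h8.le
            exact_mod_cast h9
        refine key ((m : ℝ) / 2 * Real.log w) _ _ ?_ O2 Q1 ?_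
        · refine (excT_low w m (by omega) hmw).trans ?_
          exact_mod_cast exc_mc_mono w hw1 hmk
        · have b1 : (L : ℝ) * (C2 + ε * d) ≤ L * |C2| + ((s : ℝ) + 1) ^ 2 / 16 := by
            have : (L : ℝ) * ε * d ≤ 1 / 16 * ((s : ℝ) + 1) ^ 2 :=
              mul_le_mul hLε hsd (Nat.cast_nonneg _) (by norm_num)
            linarith
          have b2 : (L : ℝ) * (C1 + ε * Real.sqrt k) ≤ L * |C1| + ((m : ℝ) + 1) / 16 := by
            have : (L : ℝ) * ε * Real.sqrt k ≤ 1 / 16 * ((m : ℝ) + 1) :=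
              mul_le_mul hLε hkm (Real.sqrt_nonneg _) (by norm_num)
            linarith
          have hsm' : (s : ℝ) ≤ m := by exact_mod_cast hsm
          have b3 : (m : ℝ) / 2 * (0.69 * ((s : ℝ) - 1)) ≤ (m : ℝ) / 2 * Real.log w :=
            mul_le_mul_of_nonneg_left hlogw (by positivity)
          have b4 : (s : ℝ) * (0.345 * ((s : ℝ) - 1) - 1 / 16) ≤
              m * (0.345 * ((s : ℝ) - 1) - 1 / 16) :=
            mul_le_mul_of_nonneg_right hsm' (by linarith)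
          nlinarith
      · -- (d)
        refine key (((w / 2 : ℕ) : ℝ) * Real.log 2) _ _ ?_ O2 Q2 ?_
        · refine (excT_half w ?_).trans ?_
          · have : 2 ^ 2 ≤ (s + 1) ^ 2 := Nat.pow_le_pow_left (by omega) 2
            omega
          · exact_mod_cast exc_mc_mono w hw1 (le_trans (Nat.div_le_self w 2) hkw.le)
        · have b1 : (L : ℝ) * (C2 + ε * d) ≤ L * |C2| + (w : ℝ) / 16 := by
            have : (L : ℝ) * ε * d ≤ 1 / 16 * (w : ℝ) :=
              mul_le_mul hLε (hsd.trans hsw') (Nat.cast_nonneg _) (by norm_num)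
            linarith
          have b2 : (L : ℝ) * (C2 + ε * ((t * w : ℕ) : ℝ)) ≤ L * |C2| + (w : ℝ) / 16 := by
            have : (L : ℝ) * t * ε * w ≤ 1 / 16 * w :=
              mul_le_mul_of_nonneg_right hLtε hw0.le
            push_cast
            linarith
          have b3 : ((w : ℝ) - 1) / 2 ≤ ((w / 2 : ℕ) : ℝ) := by
            have : w ≤ 2 * (w / 2) + 1 := by omega
            have h' : (w : ℝ) ≤ 2 * ((w / 2 : ℕ) : ℝ) + 1 := by exact_mod_cast this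
            linarith
          have b4 : ((w / 2 : ℕ) : ℝ) * 0.69 ≤ ((w / 2 : ℕ) : ℝ) * Real.log 2 :=
            mul_le_mul_of_nonneg_left (by linarith) (Nat.cast_nonneg _)
          have b5 : (s : ℝ) ≤ w := by nlinarith
          linarith
  -- the union
  choose! K0 hK0 using F
  refine Set.Finite.subset (Set.Finite.biUnion (Set.finite_lt_nat (7 + S0 ^ 2))
    (t := fun d => (fun k => ((d, k) : ℕ × ℕ)) '' {k | k < K0 d})
    fun d _ => (Set.finite_lt_nat (K0 d)).image _) ?_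
  rintro ⟨d, k⟩ ⟨hd, hk, hr⟩
  have e1 : d < 7 + S0 ^ 2 := by
    by_contra h
    exact absurd (G d (not_lt.1 h) k hk) (not_le.2 hr)
  have e2 : k < K0 d := by
    by_contra h
    exact absurd (hK0 d hd k (not_lt.1 h)) (not_le.2 hr)
  exact Set.mem_biUnion (show d ∈ {n | n < 7 + S0 ^ 2} from e1) ⟨k, e2, rfl⟩

end SR32

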