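import Mathlib

/-!
# SR32/FFNorm: normal subgroups of powers of a simple group (helper92)
-/

set_option autoImplicit false

namespace SR32

universe u

/-- normal subgroups of `T ^ n` are partial products -/
theorem norm_pow {T : Type u} [Group T] [Finite T] (hT : IsSimpleGroup T)
    (hna : ∃ x y : T, x * y ≠ y * x) {n : ℕ} (K : Subgroup (Fin n → T)) [K.Normal] :
    ∃ m : ℕ, m ≤ n ∧ Nonempty (K ≃* (Fin m → T)) := by
  classical
  have hcen : ∀ x : T, (∀ y, y * x = x * y) → x = 1 := by
    intro x hx
    rcases (inferInstance : (Subgroup.center T).Normal).eq_bot_or_eq_top with h | h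
    · have : x ∈ Subgroup.center T := Subgroup.mem_center_iff.2 hx
      rw [h, Subgroup.mem_bot] at this
      exact this
    · exfalso
      obtain ⟨a, b, hab⟩ := hna
      have hb : b ∈ Subgroup.center T := by rw [h]; exact Subgroup.mem_top _
      exact hab (Subgroup.mem_center_iff.1 hb a)
  have hconj : ∀ (i : Fin n) (x t : T), (Pi.mulSingle i t : Fin n → T) * Pi.mulSingle i x *
      (Pi.mulSingle i t)⁻¹ = Pi.mulSingle i (t * x * t⁻¹) := by
    intro i x t
    funext k
    rw [Pi.mul_apply, Pi.mul_apply, Pi.inv_apply]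
    by_cases hk : k = i
    · subst hk
      rw [Pi.mulSingle_eq_same, Pi.mulSingle_eq_same, Pi.mulSingle_eq_same]
    · rw [Pi.mulSingle_eq_of_ne hk, Pi.mulSingle_eq_of_ne hk, Pi.mulSingle_eq_of_ne hk]
      group
  have hfac : ∀ i : Fin n, (∃ k ∈ K, k i ≠ 1) → ∀ x : T, (Pi.mulSingle i x : Fin n → T) ∈ K := by
    rintro i ⟨k, hk, hki⟩
    let V : Subgroup T := K.comap (MonoidHom.mulSingle (fun _ : Fin n => T) i)
    have hVn : V.Normal := inferInstance
    rcases hVn.eq_bot_or_eq_top with h | h
    · exfalso
      have h1 : ∃ y, y * k i ≠ k i * y := by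
        by_contra hcon
        push Not at hcon
        exact hki (hcen _ hcon)
      obtain ⟨y, hy⟩ := h1
      have h2 : (Pi.mulSingle i y : Fin n → T) * k * (Pi.mulSingle i y)⁻¹ * k⁻¹ =
          Pi.mulSingle i (y * k i * y⁻¹ * (k i)⁻¹) := by
        funext l
        rw [Pi.mul_apply, Pi.mul_apply, Pi.mul_apply, Pi.inv_apply, Pi.inv_apply]
        by_cases hl : l = i
        · subst hl
          rw [Pi.mulSingle_eq_same, Pi.mulSingle_eq_same]
        · rw [Pi.mulSingle_eq_of_ne hl, Pi.mulSingle_eq_of_ne hl]
          group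
      have h3 : y * k i * y⁻¹ * (k i)⁻¹ ∈ V := by
        show Pi.mulSingle i (y * k i * y⁻¹ * (k i)⁻¹) ∈ K
        rw [← h2]
        exact K.mul_mem ((inferInstance : K.Normal).conj_mem k hk _) (K.inv_mem hk)
      rw [h, Subgroup.mem_bot, mul_inv_eq_one] at h3
      apply hy
      calc y * k i = y * k i * y⁻¹ * y := by group
        _ = k i * y := by rw [h3]
    · intro x
      have : x ∈ V := by rw [h]; exact Subgroup.mem_top _
      exact this
  let P : Fin n → Prop := fun i => ∃ k ∈ K, k i ≠ 1
  let f : K →* ({i : Fin n // P i} → T) :=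
    { toFun := fun k i => (k : Fin n → T) i
      map_one' := rfl
      map_mul' := fun _ _ => rfl }
  have hinj : Function.Injective f := by
    rw [injective_iff_map_eq_one]
    intro k hk
    apply Subtype.ext
    funext i
    by_cases hi : P i
    · exact congrFun hk ⟨i, hi⟩
    · by_contra hne
      exact hi ⟨k, k.2, hne⟩
  have hsurj : Function.Surjective f := by
    intro g
    let g' : Fin n → T := fun i => if h : P i then g ⟨i, h⟩ else 1
    have hg' : g' ∈ K := by
      rw [← Finset.noncommProd_mulSingle g']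
      apply Subgroup.noncommProd_mem
      intro i _
      by_cases hi : P i
      · exact hfac i hi _
      · have : g' i = 1 := dif_neg hi
        rw [this, Pi.mulSingle_one]
        exact K.one_mem
    refine ⟨⟨g', hg'⟩, ?_⟩
    funext i
    exact dif_pos i.2
  refine ⟨Fintype.card {i : Fin n // P i}, ?_, ⟨?_⟩⟩
  · exact (Fintype.card_subtype_le _).trans (Fintype.card_fin n).le
  · exact (MulEquiv.ofBijective f ⟨hinj, hsurj⟩).trans
      (MulEquiv.arrowCongr (Fintype.equivFin _) (MulEquiv.refl T))

end SR32
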