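import Pool.Agent.SR32.FFAbsS46
import Pool.Agent.SR32.FFNorm

/-!
# SR32/FFAbs: minimal normal subgroups that act nontrivially in a section
-/

namespace SR32

universe u

/-- PROOF. `N0` the normal closure of `θ M` in `P`, contained in `Z = θ X` (normal by `hn`); `N'` a
minimal normal subgroup of `P` in `N0`. `M ⊓ θ⁻¹ N'` is normal in `X`: if it is `1` then `θ M` and
`N'` commute, so `N0` and `N'` commute, `N'` abelian, contradiction. So `θ M ≤ N'`, `θ M` is normal in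
`N' = S ^ n`, `norm_pow`; `θ` is injective on `M`. `kind_congr`. -/
theorem sec_abs {η : ℕ → ℕ} {t1 : ℕ} {X P : Type u} [Group X] [Finite X] [Group P] [Finite P]
    (hP : ∀ N : Subgroup P, IsMinNormal N → (∃ x ∈ N, ∃ y ∈ N, x * y ≠ y * x) ∧
      ∃ (S : Subgroup N) (s : ℕ), Kind η t1 S ∧ s ≤ t1 * om S ^ 2 ∧ Nonempty (N ≃* (Fin s → S)))
    (θ : X →* P) (hn : ∀ (p : P) (x : X), ∃ y : X, p * θ x * p⁻¹ = θ y)
    (M : Subgroup X) (hM : IsMinNormal M) (hθ : ∃ m ∈ M, θ m ≠ 1) : GoodX η t1 M :=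
  a46_sec_abs (fun _ _ _ hT hna _ K _ => norm_pow hT hna K) hP θ hn M hM hθ

end SR32
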