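import Pool.Agent.SR32.DefsP
import Pool.Agent.SR32.Quot

/-!
# SR32/PFacS46: the kernel of the permutation of the simple factors is tame

The minimal normal subgroups of `KK H` are the simple factors (`KK_tame` of PFac, from `fac_simple` and
`fac_iso`).
-/

set_option autoImplicit false

namespace SR32

universe u

theorem p46_rich_congr {η : ℕ → ℕ} {S S' : Type u} [Group S] [Group S'] (e : S ≃* S')
    (h : Rich η S) : Rich η S' := by
  obtain ⟨h1, ⟨x, y, hxy⟩, h3, h4⟩ := h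
  refine ⟨(MulEquiv.isSimpleGroup_congr e).1 h1, ⟨e x, e y, ?_⟩, ?_, ?_⟩
  · intro h
    apply hxy
    apply e.injective
    rw [map_mul, map_mul, h]
  · rw [← oo_congr (MulAut.congr e), ← om_congr e]
    exact h3
  · rw [← Nat.card_congr (MulAut.congr e).toEquiv, ← om_congr e]
    exact h4

theorem p46_kind_congr {η : ℕ → ℕ} {t : ℕ} {S S' : Type u} [Group S] [Group S'] (e : S ≃* S')
    (h : Kind η t S) : Kind η t S' := by
  obtain ⟨h1, ⟨x, y, hxy⟩, h3⟩ := h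
  refine ⟨(MulEquiv.isSimpleGroup_congr e).1 h1, ⟨e x, e y, ?_⟩, ?_⟩
  · intro h
    apply hxy
    apply e.injective
    rw [map_mul, map_mul, h]
  · rcases h3 with h3 | h3 | ⟨d, hd, ⟨f⟩⟩
    · left
      rw [← Nat.card_congr e.toEquiv]
      exact h3
    · exact Or.inr (Or.inl (p46_rich_congr e h3))
    · exact Or.inr (Or.inr ⟨d, hd, ⟨e.symm.trans f⟩⟩)

theorem p46_KK_normalizes {H : Type u} [Group H] {S : Subgroup H} (hS : S ∈ Fac H) {k x : H}
    (hk : k ∈ KK H) (hx : x ∈ S) : k * x * k⁻¹ ∈ S := by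
  unfold KK at hk
  rw [Subgroup.mem_iInf] at hk
  have h1 := hk S
  rw [Subgroup.mem_iInf] at h1
  exact (Subgroup.mem_normalizer_iff.1 (h1 hS) x).1 hx

theorem p46_KK_tame {H : Type u} [Group H] [Finite H] {η : ℕ → ℕ} {t : ℕ} (ht : 1 ≤ t)
    (hp : MinPowX η t H)
    (h1 : ∀ S ∈ Fac H, IsSimpleGroup S ∧ (∃ x ∈ S, ∃ y ∈ S, x * y ≠ y * x) ∧ S ≤ KK H)
    (h4 : ∀ z : H, (∀ S ∈ Fac H, ∀ y ∈ S, z * y = y * z) → z = 1)
    (hiso : ∀ M : Subgroup H, IsMinNormal M → ∀ (S : Subgroup M) (s : ℕ), IsSimpleGroup S →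
      (∃ x y : S, x * y ≠ y * x) → (M ≃* (Fin s → S)) → ∀ T : Subgroup H, T ≤ M →
        IsMinNormal (T.subgroupOf M) → Nonempty (T ≃* S)) : TameX η t (KK H) := by
  right
  intro M hM
  obtain ⟨m, hmM, hm1⟩ : ∃ m ∈ M, m ≠ 1 := by
    by_contra hno
    push Not at hno
    exact hM.2.1 ((Subgroup.eq_bot_iff_forall M).2 hno)
  have hz1 : (m : H) ≠ 1 := fun h => hm1 (Subtype.ext h)
  obtain ⟨S, hS, y, hy, hzy⟩ : ∃ S ∈ Fac H, ∃ y ∈ S, (m : H) * y ≠ y * m := by
    by_contra hno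
    push Not at hno
    exact hz1 (h4 m hno)
  obtain ⟨hSs, -, hSK⟩ := h1 S hS
  have hn : (S.subgroupOf (KK H)).Normal := by
    refine ⟨fun n hn g => ?_⟩
    rw [Subgroup.mem_subgroupOf] at hn ⊢
    exact p46_KK_normalizes hS g.2 hn
  have := hM.1
  have hN : (M.comap (Subgroup.inclusion hSK)).Normal := inferInstance
  have hSM : S.subgroupOf (KK H) ≤ M := by
    have hNt : M.comap (Subgroup.inclusion hSK) = ⊤ := by
      rcases IsSimpleGroup.eq_bot_or_eq_top_of_normal (M.comap (Subgroup.inclusion hSK)) hN with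
        hb | hb
      · exfalso
        have hcS : (m : H) * y * (m : H)⁻¹ * y⁻¹ ∈ S :=
          S.mul_mem (p46_KK_normalizes hS m.2 hy) (S.inv_mem hy)
        have hcM : Subgroup.inclusion hSK ⟨_, hcS⟩ ∈ M := by
          have e1 : Subgroup.inclusion hSK ⟨_, hcS⟩ =
              m * (⟨y, hSK hy⟩ * m⁻¹ * (⟨y, hSK hy⟩ : KK H)⁻¹) := by
            apply Subtype.ext
            simp only [Subgroup.coe_inclusion, Subgroup.coe_mul, Subgroup.coe_inv]
            group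
          rw [e1]
          exact M.mul_mem hmM (hM.1.conj_mem _ (M.inv_mem hmM) _)
        have h5 : (⟨_, hcS⟩ : S) ∈ M.comap (Subgroup.inclusion hSK) := hcM
        rw [hb, Subgroup.mem_bot] at h5
        have h6 : (m : H) * y * (m : H)⁻¹ * y⁻¹ = 1 := congrArg Subtype.val h5
        apply hzy
        calc (m : H) * y = ((m : H) * y * (m : H)⁻¹ * y⁻¹) * (y * m) := by group
          _ = y * m := by rw [h6, one_mul]
      · exact hb
    intro x hx
    rw [Subgroup.mem_subgroupOf] at hx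
    have h5 : (⟨(x : H), hx⟩ : S) ∈ M.comap (Subgroup.inclusion hSK) := by
      rw [hNt]
      exact Subgroup.mem_top _
    have h6 : Subgroup.inclusion hSK ⟨(x : H), hx⟩ ∈ M := h5
    have h7 : Subgroup.inclusion hSK ⟨(x : H), hx⟩ = x := Subtype.ext rfl
    rwa [h7] at h6
  have hMS : S.subgroupOf (KK H) = M := by
    rcases hM.2.2 _ hn hSM with h | h
    · exfalso
      have h5 : (⟨y, hSK hy⟩ : KK H) ∈ S.subgroupOf (KK H) := Subgroup.mem_subgroupOf.2 hy
      rw [h, Subgroup.mem_bot] at h5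
      have h6 : y = 1 := congrArg Subtype.val h5
      apply hzy
      rw [h6, mul_one, one_mul]
    · exact h
  subst hMS
  obtain ⟨M₀, hM₀, hSM₀, hmin⟩ := hS
  obtain ⟨S₀, s₀, hk, ⟨e₀⟩⟩ := hp M₀ hM₀
  obtain ⟨e₁⟩ := hiso M₀ hM₀ S₀ s₀ hk.1 hk.2.1 e₀ S hSM₀ hmin
  let e₂ : S.subgroupOf (KK H) ≃* S := Subgroup.subgroupOfEquivOfLe hSK
  let e₃ : S.subgroupOf (KK H) ≃* (⊤ : Subgroup (S.subgroupOf (KK H))) := Subgroup.topEquiv.symm
  refine ⟨⊤, 1, p46_kind_congr ((e₁.symm.trans e₂.symm).trans e₃) hk,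
    ⟨e₃.trans (MulEquiv.funUnique (Fin 1) _).symm⟩, Or.inl ?_⟩
  have h8 := om_pos (⊤ : Subgroup (S.subgroupOf (KK H)))
  exact Nat.mul_pos ht (Nat.pow_pos h8)

end SR32
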