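import Pool.Agent.SR32.DefsFF
import Pool.Agent.SR32.UCenter
import Pool.Agent.SR32.PFacS46

/-!
# SR32/FFAbsS46: minimal normal subgroups that act nontrivially in a section

`sec_abs` of FFAbs, with `norm_pow` as hypothesis.
-/

set_option autoImplicit false

namespace SR32

universe u

/-- a factor as a subgroup -/
theorem a46_factor {η : ℕ → ℕ} {t m : ℕ} {M S : Type u} [Group M] [Group S] (hk : Kind η t S)
    (hm : m ≠ 0) (e : M ≃* (Fin m → S)) (hs : m ≤ t * om S ^ 2) :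
    ∃ S' : Subgroup M, Kind η t S' ∧ Nonempty (M ≃* (Fin m → S')) ∧ m ≤ t * om S' ^ 2 := by
  have hm0 : 0 < m := Nat.pos_of_ne_zero hm
  let i0 : Fin m := ⟨0, hm0⟩
  let j : S →* M := e.symm.toMonoidHom.comp (MonoidHom.mulSingle (fun _ : Fin m => S) i0)
  have hj : Function.Injective j := by
    intro x y hxy
    have h1 : MonoidHom.mulSingle (fun _ : Fin m => S) i0 x =
        MonoidHom.mulSingle (fun _ : Fin m => S) i0 y := e.symm.injective hxy
    have h2 := congrFun h1 i0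
    simpa using h2
  let ε : S ≃* j.range := MonoidHom.ofInjective hj
  refine ⟨j.range, p46_kind_congr ε hk, ⟨e.trans (MulEquiv.piCongrRight fun _ => ε)⟩, ?_⟩
  rw [← om_congr ε]
  exact hs

theorem a46_sec_abs {η : ℕ → ℕ} {t1 : ℕ} {X P : Type u} [Group X] [Finite X] [Group P] [Finite P]
    (hnp : ∀ (T : Type u) [Group T] [Finite T], IsSimpleGroup T → (∃ x y : T, x * y ≠ y * x) →
      ∀ (n : ℕ) (K : Subgroup (Fin n → T)) [K.Normal],
        ∃ m : ℕ, m ≤ n ∧ Nonempty (K ≃* (Fin m → T)))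
    (hP : ∀ N : Subgroup P, IsMinNormal N → (∃ x ∈ N, ∃ y ∈ N, x * y ≠ y * x) ∧
      ∃ (S : Subgroup N) (s : ℕ), Kind η t1 S ∧ s ≤ t1 * om S ^ 2 ∧ Nonempty (N ≃* (Fin s → S)))
    (θ : X →* P) (hn : ∀ (p : P) (x : X), ∃ y : X, p * θ x * p⁻¹ = θ y)
    (M : Subgroup X) (hM : IsMinNormal M) (hθ : ∃ m ∈ M, θ m ≠ 1) : GoodX η t1 M := by
  obtain ⟨m0, hm0, hm1⟩ := hθ
  have hMn : M.Normal := hM.1
  -- `θ` is injective on `M`
  have hker : M ⊓ θ.ker = ⊥ := by
    rcases hM.2.2 (M ⊓ θ.ker) inferInstance inf_le_left with h | h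
    · exact h
    · exfalso
      have h1 : m0 ∈ M ⊓ θ.ker := by rw [h]; exact hm0
      exact hm1 (Subgroup.mem_inf.1 h1).2
  have hinj : ∀ x ∈ M, θ x = 1 → x = 1 := by
    intro x hx hx1
    have h1 : x ∈ M ⊓ θ.ker := Subgroup.mem_inf.2 ⟨hx, hx1⟩
    rw [hker, Subgroup.mem_bot] at h1
    exact h1
  -- the range is normal
  have hZ : θ.range.Normal := by
    refine ⟨?_⟩
    rintro _ ⟨x, rfl⟩ p
    obtain ⟨y, hy⟩ := hn p x
    exact ⟨y, hy.symm⟩
  let N0 : Subgroup P := Subgroup.normalClosure (M.map θ : Set P)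
  have hN0Z : N0 ≤ θ.range := by
    refine Subgroup.normalClosure_le_normal ?_
    rintro _ ⟨x, -, rfl⟩
    exact ⟨x, rfl⟩
  have hMN0 : ∀ x ∈ M, θ x ∈ N0 := fun x hx =>
    Subgroup.subset_normalClosure (Subgroup.mem_map_of_mem θ hx)
  have hN0 : N0 ≠ ⊥ := by
    intro h
    have h1 := hMN0 m0 hm0
    rw [h, Subgroup.mem_bot] at h1
    exact hm1 h1
  obtain ⟨N', hN'0, hN'⟩ := exists_minNormal_le N0 Subgroup.normalClosure_normal hN0
  have hN'n : N'.Normal := hN'.1
  obtain ⟨hna, S, s, hk, hs, ⟨e⟩⟩ := hP N' hN'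
  have hle : ∀ x ∈ M, θ x ∈ N' := by
    rcases hM.2.2 (M ⊓ N'.comap θ) inferInstance inf_le_left with h | h
    · exfalso
      have hcomm : ∀ x ∈ M, ∀ y ∈ N', θ x * y = y * θ x := by
        intro x hx y hy
        obtain ⟨z, rfl⟩ := hN0Z (hN'0 hy)
        have h1 : x * z * x⁻¹ * z⁻¹ ∈ M ⊓ N'.comap θ := by
          refine Subgroup.mem_inf.2 ⟨?_, ?_⟩
          · have h2 := hMn.conj_mem x⁻¹ (M.inv_mem hx) z
            have h3 : x * z * x⁻¹ * z⁻¹ = x * (z * x⁻¹ * z⁻¹) := by group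
            rw [h3]
            exact M.mul_mem hx h2
          · rw [Subgroup.mem_comap, map_mul, map_mul, map_mul, map_inv, map_inv]
            exact N'.mul_mem (hN'n.conj_mem _ hy _) (N'.inv_mem hy)
        rw [h, Subgroup.mem_bot] at h1
        have h4 : x * z = z * x := by
          calc x * z = (x * z * x⁻¹ * z⁻¹) * (z * x) := by group
            _ = z * x := by rw [h1, one_mul]
        rw [← map_mul, ← map_mul, h4]
      have hC : N0 ≤ Subgroup.centralizer (N' : Set P) := by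
        refine Subgroup.normalClosure_le_normal ?_
        rintro _ ⟨x, hx, rfl⟩
        exact Subgroup.mem_centralizer_iff.2 fun y hy => (hcomm x hx y hy).symm
      obtain ⟨x, hx, y, hy, hxy⟩ := hna
      exact hxy (Subgroup.mem_centralizer_iff.1 (hC (hN'0 hy)) x hx)
    · intro x hx
      have h1 : x ∈ M ⊓ N'.comap θ := by rw [h]; exact hx
      exact (Subgroup.mem_inf.1 h1).2
  -- the map from `M` to `S ^ s`
  let φ : M →* N' := (θ.comp M.subtype).codRestrict N' fun x => hle x x.2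
  have hφ : Function.Injective φ := by
    rw [injective_iff_map_eq_one]
    intro x hx
    have h1 : θ (x : X) = 1 := congrArg Subtype.val hx
    exact Subtype.ext (hinj x x.2 h1)
  let ψ : M →* (Fin s → S) := e.toMonoidHom.comp φ
  have hψ : Function.Injective ψ := e.injective.comp hφ
  have hKn : ψ.range.Normal := by
    refine ⟨?_⟩
    rintro _ ⟨x, rfl⟩ g
    obtain ⟨y, rfl⟩ := e.surjective g
    obtain ⟨z, hz⟩ := hN0Z (hN'0 y.2)
    refine ⟨⟨z * x * z⁻¹, hMn.conj_mem _ x.2 _⟩, ?_⟩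
    change e (φ _) = e y * e (φ x) * (e y)⁻¹
    rw [← map_mul, ← map_inv, ← map_mul]
    congr 1
    apply Subtype.ext
    change θ (z * x * z⁻¹) = (y : P) * θ x * (y : P)⁻¹
    rw [map_mul, map_mul, map_inv, hz]
  obtain ⟨m, hms, ⟨f⟩⟩ := hnp S hk.1 hk.2.1 s ψ.range
  let g : M ≃* (Fin m → S) := (MonoidHom.ofInjective hψ).trans f
  have hm : m ≠ 0 := by
    rintro rfl
    apply hm1
    have h1 : (⟨m0, hm0⟩ : M) = 1 := g.injective (Subsingleton.elim _ _)
    have h2 : m0 = 1 := congrArg Subtype.val h1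
    rw [h2, map_one]
  obtain ⟨S', h1, h2, h3⟩ := a46_factor hk hm g (hms.trans hs)
  exact ⟨S', m, h1, h2, Or.inl h3⟩

end SR32
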