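import Pool.Agent.SR32.FFTowerS64

/-!
# The tower lemma with large layers, for a subgroup and for a family of subgroups
-/

namespace SR32

universe u

theorem f64_a_mono {Γ : Type u} [Group Γ] {O : Subgroup Γ} {E E' : ℕ} (h : E ∣ E')
    (ha : ∀ g x : Γ, x⁻¹ * g ^ E * x ∈ O) : ∀ g x : Γ, x⁻¹ * g ^ E' * x ∈ O := by
  obtain ⟨m, rfl⟩ := h
  intro g x
  have := ha (g ^ m) x
  rw [← pow_mul, mul_comm m E] at this
  exact this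

theorem f64_b_mono {Γ : Type u} [Group Γ] {I D : Subgroup Γ} {E E' : ℕ} (h : E ∣ E')
    (hb : ∀ g : Γ, (∀ x : Γ, x⁻¹ * g * x ∈ I) → ∀ x : Γ, x⁻¹ * g ^ E * x ∈ D) :
    ∀ g : Γ, (∀ x : Γ, x⁻¹ * g * x ∈ I) → ∀ x : Γ, x⁻¹ * g ^ E' * x ∈ D := by
  obtain ⟨m, rfl⟩ := h
  intro g hg x
  have := hb (g ^ m) (fun y => ?_) x
  · rw [← pow_mul, mul_comm m E] at this
    exact this
  · rw [s64_conj_pow]
    exact Subgroup.pow_mem _ (hg y) m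

theorem f64_div_prod {a : ℕ} (F : Fin a → ℕ) (s : Finset (Fin a)) :
    (∏ i ∈ s, F i).divisors.card ≤ ∏ i ∈ s, (F i).divisors.card := by
  classical
  induction s using Finset.induction_on with
  | empty => simp
  | insert i s hi ih =>
    rw [Finset.prod_insert hi, Finset.prod_insert hi]
    exact (card_div_mul _ _).trans (Nat.mul_le_mul_left _ ih)

/-- `growF` of FFNum as a hypothesis -/
theorem towerF_of
    (grow : ∀ {b v v' k : ℕ}, 2 ≤ b → 3 ≤ v' → Nat.multichoose v' b ≤ v →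
      v' ^ b ≤ v * k →
      3 / 2 * Real.log v' ≤ Real.log v ∧
        ((b : ℝ) / 3 ≤ Real.log v ∨
          (2 ^ b < k ∧ ((v' : ℝ) - 1) * Real.log 2 ≤ Real.log v)))
    (t : ℕ) (ε : ℝ) (hε : 0 < ε) : ∃ C : ℝ, 1 ≤ C ∧
    ∀ (Γ : Type u) [Group Γ] [Finite Γ] (Δ : Subgroup Γ),
    ∃ (E : ℕ) (I O : Subgroup Γ), 0 < E ∧ Δ ≤ I ∧ I ≤ O ∧
      (∀ g x : Γ, x⁻¹ * g ^ E * x ∈ O) ∧
      (∀ g : Γ, (∀ x : Γ, x⁻¹ * g * x ∈ I) → ∀ x : Γ, x⁻¹ * g ^ E * x ∈ Δ) ∧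
      (E.divisors.card : ℝ) ≤ C * (orbC Γ (Γ ⧸ Δ) 3 : ℝ) ^ ε ∧ BigLayer t I O :=
  f64_tower grow t ε hε

theorem familyF_of
    (grow : ∀ {b v v' k : ℕ}, 2 ≤ b → 3 ≤ v' → Nat.multichoose v' b ≤ v →
      v' ^ b ≤ v * k →
      3 / 2 * Real.log v' ≤ Real.log v ∧
        ((b : ℝ) / 3 ≤ Real.log v ∨
          (2 ^ b < k ∧ ((v' : ℝ) - 1) * Real.log 2 ≤ Real.log v)))
    (t : ℕ) (ε : ℝ) (hε : 0 < ε) : ∃ C : ℝ, 1 ≤ C ∧
    ∀ (Γ : Type u) [Group Γ] [Finite Γ] (a : ℕ) (D : Fin a → Subgroup Γ),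
    ∃ (E : ℕ) (I O : Fin a → Subgroup Γ), 0 < E ∧ (∀ i, D i ≤ I i) ∧ (∀ i, I i ≤ O i) ∧
      (∀ i, ∀ g x : Γ, x⁻¹ * g ^ E * x ∈ O i) ∧
      (∀ i, ∀ g : Γ, (∀ x : Γ, x⁻¹ * g * x ∈ I i) → ∀ x : Γ, x⁻¹ * g ^ E * x ∈ D i) ∧
      (E.divisors.card : ℝ) ≤ C * (∏ i, (orbC Γ (Γ ⧸ D i) 3 : ℝ)) ^ ε ∧
      ∀ i, BigLayer t (I i) (O i) := by
  obtain ⟨C, hC, hT⟩ := f64_tower.{u} grow t (ε / 2) (by positivity)
  obtain ⟨V, hV⟩ : ∃ V : ℕ, ∀ v : ℕ, V ≤ v → C ≤ (v : ℝ) ^ (ε / 2) := by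
    refine ⟨⌈C ^ (2 / ε)⌉₊, fun v hv => ?_⟩
    have h1 : C ^ (2 / ε) ≤ v := (Nat.le_ceil _).trans (by exact_mod_cast hv)
    have hC0 : (0 : ℝ) ≤ C := by linarith
    have h2 : (C ^ (2 / ε)) ^ (ε / 2) = C := by
      rw [← Real.rpow_mul hC0]
      have : 2 / ε * (ε / 2) = 1 := by
        field_simp
      rw [this, Real.rpow_one]
    rw [← h2]
    exact Real.rpow_le_rpow (Real.rpow_nonneg hC0 _) h1 (by positivity)
  have hL1 : 1 ≤ (LL V).divisors.card := by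
    rw [Nat.succ_le_iff, Finset.card_pos]
    exact ⟨1, Nat.one_mem_divisors.mpr (LL_pos V).ne'⟩
  refine ⟨((LL V).divisors.card : ℝ), by exact_mod_cast hL1, ?_⟩
  intro Γ _ _ a D
  have key : ∀ i : Fin a, ∃ (F : ℕ) (I O : Subgroup Γ), 0 < F ∧ D i ≤ I ∧ I ≤ O ∧
      (∀ E : ℕ, LL V ∣ E → F ∣ E → ∀ g x : Γ, x⁻¹ * g ^ E * x ∈ O) ∧
      (∀ E : ℕ, LL V ∣ E → F ∣ E →
        ∀ g : Γ, (∀ x : Γ, x⁻¹ * g * x ∈ I) → ∀ x : Γ, x⁻¹ * g ^ E * x ∈ D i) ∧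
      (F.divisors.card : ℝ) ≤ (orbC Γ (Γ ⧸ D i) 3 : ℝ) ^ ε ∧ BigLayer t I O := by
    intro i
    have h1 := orbC_multi Γ (Γ ⧸ D i) 3
    have h2 := s64_multi (Nat.card (Γ ⧸ D i))
    have hn : (D i).index < orbC Γ (Γ ⧸ D i) 3 := by
      have : (D i).index = Nat.card (Γ ⧸ D i) := rfl
      omega
    have hv1 : (1 : ℝ) ≤ (orbC Γ (Γ ⧸ D i) 3 : ℝ) := by
      have : 1 ≤ orbC Γ (Γ ⧸ D i) 3 := by omega
      exact_mod_cast this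
    rcases Nat.lt_or_ge (orbC Γ (Γ ⧸ D i) 3) V with hlt | hge
    · refine ⟨1, D i, D i, Nat.one_pos, le_rfl, le_rfl, ?_, ?_, ?_, Or.inl rfl⟩
      · intro E hE _ g x
        exact f64_a_mono ((LL_dvd (by omega)).trans hE) (fun g x => pow_LL_mem (D i) g x) g x
      · intro E hE _ g _ x
        exact f64_a_mono ((LL_dvd (by omega)).trans hE) (fun g x => pow_LL_mem (D i) g x) g x
      · rw [Nat.divisors_one, Finset.card_singleton, Nat.cast_one]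
        exact Real.one_le_rpow hv1 hε.le
    · obtain ⟨E0, I, O, h0, hI, hO, ha, hb, hc, hA⟩ := hT Γ (D i)
      refine ⟨E0, I, O, h0, hI, hO, fun E _ hE => f64_a_mono hE ha,
        fun E _ hE => f64_b_mono hE hb, ?_, hA⟩
      have h3 := hV _ hge
      have h4 : (0 : ℝ) ≤ (orbC Γ (Γ ⧸ D i) 3 : ℝ) ^ (ε / 2) := by positivity
      calc (E0.divisors.card : ℝ) ≤ C * (orbC Γ (Γ ⧸ D i) 3 : ℝ) ^ (ε / 2) := hc
        _ ≤ (orbC Γ (Γ ⧸ D i) 3 : ℝ) ^ (ε / 2) * (orbC Γ (Γ ⧸ D i) 3 : ℝ) ^ (ε / 2) :=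
          mul_le_mul_of_nonneg_right h3 h4
        _ = (orbC Γ (Γ ⧸ D i) 3 : ℝ) ^ ε := by
          rw [← Real.rpow_add (by linarith), add_halves]
  choose F I O hF hI hO ha hb hc hA using key
  have hdv : ∀ i, F i ∣ LL V * ∏ i, F i := fun i =>
    (Finset.dvd_prod_of_mem F (Finset.mem_univ i)).mul_left _
  refine ⟨LL V * ∏ i, F i, I, O,
    Nat.mul_pos (LL_pos V) (Finset.prod_pos fun i _ => hF i), hI, hO,
    fun i => ha i _ (Dvd.intro _ rfl) (hdv i), fun i => hb i _ (Dvd.intro _ rfl) (hdv i), ?_, hA⟩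
  have h1 : ((LL V * ∏ i, F i).divisors.card : ℝ) ≤
      ((LL V).divisors.card : ℝ) * ∏ i, ((F i).divisors.card : ℝ) := by
    have := (card_div_mul (LL V) (∏ i, F i)).trans
      (Nat.mul_le_mul_left _ (f64_div_prod F Finset.univ))
    exact_mod_cast this
  refine h1.trans (mul_le_mul_of_nonneg_left ?_ (Nat.cast_nonneg _))
  rw [← Real.finsetProd_rpow _ _ (fun i _ => Nat.cast_nonneg _)]
  exact Finset.prod_le_prod (fun i _ => Nat.cast_nonneg _) (fun i _ => hc i)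

end SR32
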