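import Pool.Agent.SR32.PTowerS64
import Pool.Agent.SR32.DefsFF

/-!
# SR32/FFFamS76: the tower lemma for a family of subgroups, with the large primitive layer
-/

set_option autoImplicit false

namespace SR32

universe u

theorem ff76_card_div_prod {ι : Type*} (s : Finset ι) (f : ι → ℕ) :
    (∏ i ∈ s, f i).divisors.card ≤ ∏ i ∈ s, (f i).divisors.card := by
  classical
  induction s using Finset.induction_on with
  | empty => simp
  | insert a s ha ih =>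
    rw [Finset.prod_insert ha, Finset.prod_insert ha]
    exact (card_div_mul _ _).trans (Nat.mul_le_mul_left _ ih)

theorem familyF_of76 (t : ℕ)
    (tow : ∀ (ε : ℝ), 0 < ε → ∃ C : ℝ, 1 ≤ C ∧
      ∀ (Γ : Type u) [Group Γ] [Finite Γ] (Δ : Subgroup Γ),
      ∃ (E : ℕ) (I O : Subgroup Γ), 0 < E ∧ Δ ≤ I ∧ I ≤ O ∧
        (∀ g x : Γ, x⁻¹ * g ^ E * x ∈ O) ∧
        (∀ g : Γ, (∀ x : Γ, x⁻¹ * g * x ∈ I) → ∀ x : Γ, x⁻¹ * g ^ E * x ∈ Δ) ∧
        (E.divisors.card : ℝ) ≤ C * (orbC Γ (Γ ⧸ Δ) 3 : ℝ) ^ ε ∧ BigLayer t I O)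
    (ε : ℝ) (hε : 0 < ε) : ∃ C : ℝ, 1 ≤ C ∧
    ∀ (Γ : Type u) [Group Γ] [Finite Γ] (a : ℕ) (D : Fin a → Subgroup Γ),
    ∃ (E : ℕ) (I O : Fin a → Subgroup Γ), 0 < E ∧ (∀ i, D i ≤ I i) ∧ (∀ i, I i ≤ O i) ∧
      (∀ i, ∀ g x : Γ, x⁻¹ * g ^ E * x ∈ O i) ∧
      (∀ i, ∀ g : Γ, (∀ x : Γ, x⁻¹ * g * x ∈ I i) → ∀ x : Γ, x⁻¹ * g ^ E * x ∈ D i) ∧
      (E.divisors.card : ℝ) ≤ C * (∏ i, (orbC Γ (Γ ⧸ D i) 3 : ℝ)) ^ ε ∧
      ∀ i, BigLayer t (I i) (O i) := by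
  obtain ⟨C0, hC0, htow⟩ := tow (ε / 2) (by linarith)
  obtain ⟨V, hV⟩ := exists_nat_ge (C0 ^ (2 / ε))
  refine ⟨((LL V).divisors.card : ℝ), ?_, ?_⟩
  · have h : 1 ≤ (LL V).divisors.card :=
      Finset.card_pos.2 ⟨1, Nat.one_mem_divisors.2 (LL_pos V).ne'⟩
    exact_mod_cast h
  intro Γ _ _ a D
  have hv1 : ∀ i, (1 : ℝ) ≤ (orbC Γ (Γ ⧸ D i) 3 : ℝ) := by
    intro i
    have h1 := orbC_multi Γ (Γ ⧸ D i) 3
    have h2 := s64_multi (Nat.card (Γ ⧸ D i))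
    have h3 : 1 ≤ orbC Γ (Γ ⧸ D i) 3 := by omega
    exact_mod_cast h3
  have key : ∀ i, ∃ (E : ℕ) (I O : Subgroup Γ), 0 < E ∧ D i ≤ I ∧ I ≤ O ∧
      (∀ g x : Γ, x⁻¹ * g ^ (E * LL V) * x ∈ O) ∧
      (∀ g : Γ, (∀ x : Γ, x⁻¹ * g * x ∈ I) → ∀ x : Γ, x⁻¹ * g ^ (E * LL V) * x ∈ D i) ∧
      (E.divisors.card : ℝ) ≤ (orbC Γ (Γ ⧸ D i) 3 : ℝ) ^ ε ∧ BigLayer t I O := by
    intro i
    rcases Nat.lt_or_ge (orbC Γ (Γ ⧸ D i) 3) V with hlt | hge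
    · have hidx : (D i).index ≤ V := by
        have h1 := orbC_multi Γ (Γ ⧸ D i) 3
        have h2 := s64_multi (Nat.card (Γ ⧸ D i))
        have h3 : (D i).index = Nat.card (Γ ⧸ D i) := rfl
        omega
      obtain ⟨k, hk⟩ := LL_dvd hidx
      have hmem : ∀ g x : Γ, x⁻¹ * g ^ (1 * LL V) * x ∈ D i := by
        intro g x
        rw [one_mul, hk, mul_comm, pow_mul]
        exact pow_LL_mem (D i) (g ^ k) x
      refine ⟨1, D i, D i, one_pos, le_rfl, le_rfl, hmem, fun g _ x => hmem g x, ?_, Or.inl rfl⟩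
      rw [Nat.divisors_one, Finset.card_singleton, Nat.cast_one]
      exact Real.one_le_rpow (hv1 i) hε.le
    · obtain ⟨E, I, O, hE, hDI, hIO, hO, hD, hcard, halt⟩ := htow Γ (D i)
      refine ⟨E, I, O, hE, hDI, hIO, ?_, ?_, ?_, halt⟩
      · intro g x
        rw [mul_comm, pow_mul]
        exact hO (g ^ LL V) x
      · intro g hg x
        rw [pow_mul, s64_conj_pow]
        exact (D i).pow_mem (hD g hg x) _
      · have hvV : C0 ^ (2 / ε) ≤ (orbC Γ (Γ ⧸ D i) 3 : ℝ) := by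
          refine hV.trans ?_
          exact_mod_cast hge
        have hC0' : C0 ≤ (orbC Γ (Γ ⧸ D i) 3 : ℝ) ^ (ε / 2) := by
          have h1 : (C0 ^ (2 / ε)) ^ (ε / 2) = C0 := by
            rw [← Real.rpow_mul (by linarith)]
            have : 2 / ε * (ε / 2) = 1 := by field_simp
            rw [this, Real.rpow_one]
          calc C0 = (C0 ^ (2 / ε)) ^ (ε / 2) := h1.symm
            _ ≤ (orbC Γ (Γ ⧸ D i) 3 : ℝ) ^ (ε / 2) :=
              Real.rpow_le_rpow (Real.rpow_nonneg (by linarith) _) hvV (by linarith)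
        have hv0 : (0 : ℝ) < (orbC Γ (Γ ⧸ D i) 3 : ℝ) := lt_of_lt_of_le one_pos (hv1 i)
        calc (E.divisors.card : ℝ) ≤ C0 * (orbC Γ (Γ ⧸ D i) 3 : ℝ) ^ (ε / 2) := hcard
          _ ≤ (orbC Γ (Γ ⧸ D i) 3 : ℝ) ^ (ε / 2) * (orbC Γ (Γ ⧸ D i) 3 : ℝ) ^ (ε / 2) :=
            mul_le_mul_of_nonneg_right hC0' (Real.rpow_nonneg hv0.le _)
          _ = (orbC Γ (Γ ⧸ D i) 3 : ℝ) ^ ε := by
            rw [← Real.rpow_add hv0]
            congr 1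
            ring
  choose E I O hE hDI hIO hO hD hcard halt using key
  have hsplit : ∀ i, ∃ k : ℕ, LL V * ∏ j, E j = (E i * LL V) * k := by
    intro i
    obtain ⟨k, hk⟩ := Finset.dvd_prod_of_mem E (Finset.mem_univ i)
    exact ⟨k, by rw [hk]; ring⟩
  refine ⟨LL V * ∏ j, E j, I, O, Nat.mul_pos (LL_pos V) (Finset.prod_pos fun j _ => hE j), hDI, hIO,
    ?_, ?_, ?_, halt⟩
  · intro i g x
    obtain ⟨k, hk⟩ := hsplit i
    rw [hk, mul_comm, pow_mul]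
    exact hO i (g ^ k) x
  · intro i g hg x
    obtain ⟨k, hk⟩ := hsplit i
    rw [hk, pow_mul, s64_conj_pow]
    exact (D i).pow_mem (hD i g hg x) _
  · have h1 : ((LL V * ∏ j, E j).divisors.card : ℝ) ≤
        ((LL V).divisors.card : ℝ) * ∏ j, ((E j).divisors.card : ℝ) := by
      have h2 := (card_div_mul (LL V) (∏ j, E j)).trans
        (Nat.mul_le_mul_left _ (ff76_card_div_prod Finset.univ E))
      calc ((LL V * ∏ j, E j).divisors.card : ℝ)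
          ≤ (((LL V).divisors.card * ∏ j, (E j).divisors.card : ℕ) : ℝ) := by exact_mod_cast h2
        _ = ((LL V).divisors.card : ℝ) * ∏ j, ((E j).divisors.card : ℝ) := by push_cast; rfl
    refine h1.trans (mul_le_mul_of_nonneg_left ?_ (Nat.cast_nonneg _))
    calc ∏ j, ((E j).divisors.card : ℝ) ≤ ∏ j, (orbC Γ (Γ ⧸ D j) 3 : ℝ) ^ ε :=
          Finset.prod_le_prod (fun j _ => Nat.cast_nonneg _) fun j _ => hcard j
      _ = (∏ j, (orbC Γ (Γ ⧸ D j) 3 : ℝ)) ^ ε :=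
          Real.finsetProd_rpow _ _ (fun j _ => Nat.cast_nonneg _) ε

end SR32
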