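import Pool.Agent.SR32.FIdxS92

/-!
# SR32/FFIdx: the index of a core-free subgroup of a power of a simple group
-/

set_option autoImplicit false

namespace SR32

universe u

theorem idx_pow {T : Type u} [Group T] [Finite T] (hT : IsSimpleGroup T)
    (hna : ∃ x y : T, x * y ≠ y * x) {n : ℕ} (K : Subgroup (Fin n → T))
    (hK : K.normalCore = ⊥) : 2 ^ n ≤ K.index := by
  have h1 : ∀ i : Fin n, ∃ x : T, (Pi.mulSingle i x : Fin n → T) ∉ K := by
    intro i
    by_contra hcon
    push Not at hcon
    have h2 : ∀ x : T, (Pi.mulSingle i x : Fin n → T) ∈ K.normalCore := by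
      intro x g
      have h3 : g * Pi.mulSingle i x * g⁻¹ = Pi.mulSingle i (g i * x * (g i)⁻¹) := by
        funext k
        rw [Pi.mul_apply, Pi.mul_apply, Pi.inv_apply]
        by_cases hk : k = i
        · subst hk
          rw [Pi.mulSingle_eq_same, Pi.mulSingle_eq_same]
        · rw [Pi.mulSingle_eq_of_ne hk, Pi.mulSingle_eq_of_ne hk, mul_one, mul_inv_cancel]
      rw [h3]
      exact hcon _
    obtain ⟨x, y, hxy⟩ := hna
    have h4 : ∀ x : T, x = 1 := by
      intro x
      have h5 := h2 x
      rw [hK, Subgroup.mem_bot] at h5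
      have h6 := congrFun h5 i
      rw [Pi.mulSingle_eq_same] at h6
      exact h6
    apply hxy
    rw [h4 x, h4 y]
  have h2 := S92.two_pow_le_index hna K h1
  rwa [Fintype.card_fin] at h2

end SR32
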