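import Pool.Agent.SR32.DefsP
import Pool.Agent.SR32.Quot

/-!
# SR32/PKKS3: the kernel of the action on the simple factors is tame
-/

set_option autoImplicit false

namespace SR32.PKKS3

open SR32

universe u

theorem rich_congr {η : ℕ → ℕ} {S S' : Type u} [Group S] [Group S'] (e : S ≃* S')
    (h : Rich η S) : Rich η S' := by
  obtain ⟨h1, ⟨x, y, hxy⟩, h3, h4⟩ := h
  refine ⟨(MulEquiv.isSimpleGroup_congr e).1 h1, ⟨e x, e y, ?_⟩, ?_, ?_⟩
  · intro h
    apply hxy
    apply e.injective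
    rw [map_mul, map_mul, h]
  · rw [← oo_congr (MulAut.congr e), ← om_congr e]
    exact h3
  · rw [← Nat.card_congr (MulAut.congr e).toEquiv, ← om_congr e]
    exact h4

theorem kind_congr {η : ℕ → ℕ} {t : ℕ} {S S' : Type u} [Group S] [Group S'] (e : S ≃* S')
    (h : Kind η t S) : Kind η t S' := by
  obtain ⟨h1, ⟨x, y, hxy⟩, h3⟩ := h
  refine ⟨(MulEquiv.isSimpleGroup_congr e).1 h1, ⟨e x, e y, ?_⟩, ?_⟩
  · intro h
    apply hxy
    apply e.injective
    rw [map_mul, map_mul, h]
  · rcases h3 with h3 | h3 | ⟨d, hd, ⟨e'⟩⟩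
    · left
      rw [← Nat.card_congr e.toEquiv]
      exact h3
    · exact Or.inr (Or.inl (rich_congr e h3))
    · exact Or.inr (Or.inr ⟨d, hd, ⟨e.symm.trans e'⟩⟩)

theorem kk_tame_of {H : Type u} [Group H] [Finite H] {η : ℕ → ℕ} {t : ℕ} (ht : 1 ≤ t)
    (h1 : ∀ S ∈ Fac H, IsSimpleGroup S ∧ (∃ x ∈ S, ∃ y ∈ S, x * y ≠ y * x) ∧ S ≤ KK H)
    (h4 : ∀ z : H, (∀ S ∈ Fac H, ∀ y ∈ S, z * y = y * z) → z = 1)
    (hk : ∀ S ∈ Fac H, Kind η t S) : TameX η t (KK H) := by
  classical
  right
  intro N hN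
  -- the simple factors are normal in `KK H`
  have hnorm : ∀ S ∈ Fac H, (S.subgroupOf (KK H)).Normal := by
    intro S hS
    constructor
    rintro ⟨n, hn⟩ hnS ⟨g, hg⟩
    have hg' : g ∈ Subgroup.normalizer (S : Set H) := by
      unfold KK at hg
      rw [Subgroup.mem_iInf] at hg
      have h2 := hg S
      rw [Subgroup.mem_iInf] at h2
      exact h2 hS
    rw [Subgroup.mem_subgroupOf] at hnS ⊢
    exact (Subgroup.mem_normalizer_iff.1 hg' n).1 hnS
  -- one of them meets `N`
  obtain ⟨S, hS, hne⟩ : ∃ S ∈ Fac H, N ⊓ S.subgroupOf (KK H) ≠ ⊥ := by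
    by_contra hcon
    push Not at hcon
    apply hN.2.1
    rw [Subgroup.eq_bot_iff_forall]
    intro z hz
    apply Subtype.ext
    apply h4
    intro S hS y hy
    have hyK : y ∈ KK H := (h1 S hS).2.2 hy
    have hc : Commute z (⟨y, hyK⟩ : KK H) :=
      Subgroup.commute_of_normal_of_disjoint _ _ hN.1 (hnorm S hS)
        (disjoint_iff.2 (hcon S hS)) z ⟨y, hyK⟩ hz (Subgroup.mem_subgroupOf.2 hy)
    exact congrArg Subtype.val hc.eq
  have hSn := hnorm S hS
  have hNn := hN.1
  have hinf : (N ⊓ S.subgroupOf (KK H)).Normal := inferInstance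
  have hle : N ≤ S.subgroupOf (KK H) := by
    rcases hN.2.2 _ hinf inf_le_left with h | h
    · exact absurd h hne
    · rw [← h]
      exact inf_le_right
  have hSK : S ≤ KK H := (h1 S hS).2.2
  -- `N = S`
  have hSsimple : IsSimpleGroup S := (h1 S hS).1
  have hNS : N = S.subgroupOf (KK H) := by
    apply le_antisymm hle
    -- the preimage of `N` in `S`
    let ι : S →* KK H := Subgroup.inclusion hSK
    have hn : (N.comap ι).Normal := hNn.comap ι
    rcases hSsimple.eq_bot_or_eq_top_of_normal (N.comap ι) hn with h | h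
    · exfalso
      apply hN.2.1
      rw [Subgroup.eq_bot_iff_forall]
      intro z hz
      have hzS : (z : H) ∈ S := Subgroup.mem_subgroupOf.1 (hle hz)
      have h5 : (⟨(z : H), hzS⟩ : S) ∈ N.comap ι := by
        rw [Subgroup.mem_comap]
        exact hz
      rw [h, Subgroup.mem_bot] at h5
      exact Subtype.ext (congrArg (fun w : S => (w : H)) h5)
    · intro z hz
      have hzS : (z : H) ∈ S := Subgroup.mem_subgroupOf.1 hz
      have h5 : (⟨(z : H), hzS⟩ : S) ∈ N.comap ι := by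
        rw [h]
        exact Subgroup.mem_top _
      rw [Subgroup.mem_comap] at h5
      exact h5
  have e1 : N ≃* S := by
    rw [hNS]
    exact Subgroup.subgroupOfEquivOfLe hSK
  have e2 : (⊤ : Subgroup N) ≃* N := Subgroup.topEquiv
  have hkind : Kind η t (⊤ : Subgroup N) := kind_congr (e1.symm.trans e2.symm) (hk S hS)
  refine ⟨⊤, 1, hkind, ⟨?_⟩, Or.inl ?_⟩
  · exact e2.symm.trans
      { toFun := fun x _ => x
        invFun := fun f => f 0
        left_inv := fun x => rfl
        right_inv := fun f => by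
          funext i
          rw [Subsingleton.elim i 0]
        map_mul' := fun x y => rfl }
  · have h2 : 1 ≤ om (⊤ : Subgroup N) := om_pos _
    have h3 : 1 ≤ om (⊤ : Subgroup N) ^ 2 := Nat.one_le_pow _ _ h2
    exact Nat.mul_pos ht h3

end SR32.PKKS3
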