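import Pool.Agent.SR32.DefsFF
import Pool.Agent.SR32.CT
import Pool.Agent.SR32.PKKS3

/-!
# Automorphism groups of groups of kind `(η, t)` are not too large (helper89)
-/

namespace SR32

universe u

open Filter Topology

theorem ffk_gen (G : Type u) [Group G] [Finite G] : ∀ n : ℕ, ∀ H : Subgroup G, H.index = n →
    ∃ S : Finset G, S.card ≤ Nat.log 2 n ∧ H ⊔ Subgroup.closure (S : Set G) = ⊤ := by
  classical
  intro n
  induction n using Nat.strong_induction_on with
  | _ n ih =>
    intro H hH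
    by_cases hT : H = ⊤
    · exact ⟨∅, by simp, by rw [hT, top_sup_eq]⟩
    · obtain ⟨x, hx⟩ : ∃ x, x ∉ H := by
        by_contra hcon
        push Not at hcon
        exact hT ((Subgroup.eq_top_iff' H).2 hcon)
      set H' := H ⊔ Subgroup.closure {x} with hH'
      have hle : H ≤ H' := le_sup_left
      have hxH' : x ∈ H' := (le_sup_right : Subgroup.closure {x} ≤ H')
        (Subgroup.subset_closure (Set.mem_singleton x))
      have hmul : H.relIndex H' * H'.index = H.index := Subgroup.relIndex_mul_index hle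
      have hr0 : H.relIndex H' ≠ 0 := fun h => by
        rw [h, zero_mul] at hmul
        exact Subgroup.index_ne_zero_of_finite hmul.symm
      have hr1 : H.relIndex H' ≠ 1 := fun h => hx (Subgroup.relIndex_eq_one.1 h hxH')
      have hi0 : 0 < H'.index := Nat.pos_of_ne_zero Subgroup.index_ne_zero_of_finite
      have h2 : 2 * H'.index ≤ n := by
        rw [← hH, ← hmul]
        exact Nat.mul_le_mul_right _ (by omega)
      obtain ⟨S, hS, hS'⟩ := ih H'.index (by omega) H' rfl
      refine ⟨insert x S, ?_, ?_⟩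
      · calc (insert x S).card ≤ S.card + 1 := Finset.card_insert_le _ _
          _ ≤ Nat.log 2 H'.index + 1 := Nat.add_le_add_right hS 1
          _ = Nat.log 2 (H'.index * 2) := (Nat.log_mul_base (by norm_num) hi0.ne').symm
          _ ≤ Nat.log 2 n := Nat.log_mono_right (by omega)
      · rw [Finset.coe_insert, Set.insert_eq, Subgroup.closure_union, ← sup_assoc]
        exact hS'

/-- a finite group has a generating set of at most `log₂` of its order elements -/
theorem card_mulAut_le (G : Type u) [Group G] [Finite G] :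
    Nat.card (MulAut G) ≤ Nat.card G ^ Nat.log 2 (Nat.card G) := by
  classical
  obtain ⟨S, hS, hS'⟩ := ffk_gen G (Nat.card G) ⊥ Subgroup.index_bot
  rw [bot_sup_eq] at hS'
  have hinj : Function.Injective (fun (φ : MulAut G) (s : S) => φ (s : G)) := by
    intro φ ψ h
    have h1 : (φ : G →* G) = (ψ : G →* G) := by
      refine MonoidHom.eq_of_eqOn_dense hS' ?_
      intro s hs
      exact congrFun h ⟨s, hs⟩
    exact MulEquiv.toMonoidHom_injective h1
  have h1 : Nat.card (MulAut G) ≤ Nat.card (S → G) := Nat.card_le_card_of_injective _ hinj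
  rw [Nat.card_fun, Nat.card_eq_fintype_card (α := S), Fintype.card_coe] at h1
  exact h1.trans (Nat.pow_le_pow_right Nat.card_pos hS)

theorem kind_congr {η : ℕ → ℕ} {t : ℕ} {S S' : Type u} [Group S] [Group S'] (e : S ≃* S')
    (h : Kind η t S) : Kind η t S' :=
  PKKS3.kind_congr e h

theorem ffk_num : ∃ N : ℕ, ∀ r : ℕ, 1 ≤ r → N ≤ r + 1 → (r + 1) ^ 8 ≤ 2 ^ (4 * (r - 1)) := by
  have h := tendsto_pow_const_div_const_pow_of_one_lt 8 (r := (16 : ℝ)) (by norm_num)
  have h1 := h.eventually (gt_mem_nhds (show (0 : ℝ) < 1 / 256 by norm_num))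
  obtain ⟨N, hN⟩ := eventually_atTop.1 h1
  refine ⟨N, fun r hr hNr => ?_⟩
  have h2 := hN (r + 1) hNr
  rw [div_lt_iff₀ (by positivity)] at h2
  obtain ⟨k, rfl⟩ : ∃ k, r = k + 1 := ⟨r - 1, by omega⟩
  have h3 : (1 / 256 : ℝ) * 16 ^ (k + 1 + 1) = 2 ^ (4 * k) := by
    rw [pow_mul, pow_succ, pow_succ]
    norm_num
    ring
  rw [h3] at h2
  have h4 : (k + 1 + 1) ^ 8 < 2 ^ (4 * k) := by exact_mod_cast h2
  simpa using h4.le

/-- order at most `t`: trivial bound; rich: definition; alternating: `om_alt_ge` (CT.lean) and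
`card_mulAut_le` -/
theorem kind_aut (η : ℕ → ℕ) (t : ℕ) : ∃ K1 : ℕ, ∀ (S : Type u) [Group S] [Finite S],
    Kind η t S → Nat.card (MulAut S) < 2 ^ (K1 + om S ^ 4) := by
  obtain ⟨N, hN⟩ := ffk_num
  refine ⟨N ^ 8 + t ^ t + Nat.card (MulAut (A 6)) + 1, ?_⟩
  intro S _ _ hS
  set K1 := N ^ 8 + t ^ t + Nat.card (MulAut (A 6)) + 1 with hK1
  have hgen : ∀ n m : ℕ, n ≤ 2 ^ m → m < K1 + om S ^ 4 → n < 2 ^ (K1 + om S ^ 4) :=
    fun n m h1 h2 => lt_of_le_of_lt h1 (Nat.pow_lt_pow_right (by norm_num) h2)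
  rcases hS.2.2 with h | h | ⟨d, hd, ⟨e⟩⟩
  · have h1 : Nat.card (MulAut S) ≤ Nat.card S ^ Nat.card S := by
      rw [← Nat.card_fun]
      exact Nat.card_le_card_of_injective (fun φ : MulAut S => (φ : S → S))
        DFunLike.coe_injective
    have h0 : 0 < Nat.card S := Nat.card_pos
    have h2 : Nat.card S ^ Nat.card S ≤ t ^ t :=
      (Nat.pow_le_pow_left h _).trans (Nat.pow_le_pow_right (h0.trans_le h) h)
    exact hgen _ (t ^ t) ((h1.trans h2).trans Nat.lt_two_pow_self.le) (by omega)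
  · obtain ⟨_, _, _, h4⟩ := h
    have h1 : Nat.card (MulAut S) < 2 ^ (Nat.log 2 (Nat.card (MulAut S)) + 1) :=
      Nat.lt_pow_succ_log_self (by norm_num) _
    have h2 : Nat.log 2 (Nat.card (MulAut S)) + 1 ≤
        (Nat.log 2 (Nat.card (MulAut S)) + 1) ^ 4 := Nat.le_self_pow (by norm_num) _
    have h3 : om S ≤ om S ^ 4 := Nat.le_self_pow (by norm_num) _
    exact hgen _ _ h1.le (by omega)
  · have hcard : Nat.card (MulAut S) = Nat.card (MulAut (A d)) :=
      Nat.card_congr (MulAut.congr e).toEquiv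
    have hom : om S = om (A d) := om_congr e
    rw [hcard]
    by_cases hd6 : d = 6
    · subst hd6
      exact hgen _ (Nat.card (MulAut (A 6))) Nat.lt_two_pow_self.le (by omega)
    · have h1 := card_mulAut_le (A d)
      have h2 : Nat.card (A d) ≤ 2 ^ (d ^ 2) := by
        have h3 : Nat.card (A d) ≤ Nat.card (Equiv.Perm (Fin d)) :=
          Nat.card_le_card_of_injective (fun x : A d => (x : Equiv.Perm (Fin d)))
            Subtype.coe_injective
        rw [Nat.card_eq_fintype_card (α := Equiv.Perm (Fin d)), Fintype.card_perm,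
          Fintype.card_fin] at h3
        calc Nat.card (A d) ≤ d.factorial := h3
          _ ≤ d ^ d := Nat.factorial_le_pow d
          _ ≤ (2 ^ d) ^ d := Nat.pow_le_pow_left Nat.lt_two_pow_self.le d
          _ = 2 ^ (d ^ 2) := by rw [← pow_mul, sq]
      have h3 : Nat.log 2 (Nat.card (A d)) ≤ d ^ 2 := by
        calc Nat.log 2 (Nat.card (A d)) ≤ Nat.log 2 (2 ^ (d ^ 2)) := Nat.log_mono_right h2
          _ = d ^ 2 := Nat.log_pow (by norm_num) _
      have h4 : Nat.card (MulAut (A d)) ≤ 2 ^ (d ^ 4) := by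
        calc Nat.card (MulAut (A d)) ≤ Nat.card (A d) ^ Nat.log 2 (Nat.card (A d)) := h1
          _ ≤ (2 ^ (d ^ 2)) ^ Nat.log 2 (Nat.card (A d)) := Nat.pow_le_pow_left h2 _
          _ ≤ (2 ^ (d ^ 2)) ^ (d ^ 2) :=
              Nat.pow_le_pow_right (pow_pos (by norm_num) _) h3
          _ = 2 ^ (d ^ 4) := by
              rw [← pow_mul]
              congr 1
              ring
      refine hgen _ _ h4 ?_
      rw [hom]
      have h5 := om_alt_ge d hd hd6
      set r := Nat.sqrt d with hr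
      have hr1 : 1 ≤ r := Nat.sqrt_pos.2 (by omega)
      have h6 : d < (r + 1) ^ 2 := Nat.lt_succ_sqrt' d
      have h7 : d ^ 4 ≤ (r + 1) ^ 8 := by
        calc d ^ 4 ≤ ((r + 1) ^ 2) ^ 4 := Nat.pow_le_pow_left h6.le 4
          _ = (r + 1) ^ 8 := by rw [← pow_mul]
      rcases Nat.lt_or_ge (r + 1) N with hlt | hge
      · have h8 : (r + 1) ^ 8 ≤ N ^ 8 := Nat.pow_le_pow_left hlt.le 8
        omega
      · have h8 := hN r hr1 hge
        have h9 : 2 ^ (4 * (r - 1)) ≤ om (A d) ^ 4 := by
          rw [mul_comm, pow_mul]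
          exact Nat.pow_le_pow_left h5 4
        omega

end SR32
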