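import Pool.Agent.SR32.DefsP

/-!
# SR32/POrbS58: numbers of colourings up to a group (orbC_multi, orbC_core)
-/

set_option autoImplicit false

namespace SR32

universe u

theorem porb_vec {α Ω : Type*} [Fintype Ω] (s : Multiset α) (h : Multiset.card s = Fintype.card Ω) :
    ∃ v : Ω → α, (Finset.univ : Finset Ω).val.map v = s := by
  obtain ⟨l, hl⟩ := Quotient.exists_rep s
  have hl' : (l : Multiset α) = s := hl
  have hlen : l.length = Fintype.card Ω := by
    rw [← h, ← hl', Multiset.coe_card]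
  obtain ⟨w, hw⟩ : ∃ w : Fin (Fintype.card Ω) → α,
      (Finset.univ : Finset (Fin (Fintype.card Ω))).val.map w = s := by
    refine ⟨fun i => l.get (Fin.cast hlen.symm i), ?_⟩
    rw [Fin.univ_val_map, ← hl']
    show ((List.ofFn _ : List α) : Multiset α) = (l : Multiset α)
    congr 1
    apply List.ext_get
    · simp [hlen]
    · intro n h1 h2
      simp
  refine ⟨fun ω => w (Fintype.equivFin Ω ω), ?_⟩
  rw [← hw]
  have h1 : ((Finset.univ : Finset Ω).val.map (Fintype.equivFin Ω)) =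
      (Finset.univ : Finset (Fin (Fintype.card Ω))).val := by
    have := Finset.map_univ_equiv (Fintype.equivFin Ω)
    have h2 := congrArg Finset.val this
    rw [Finset.map_val] at h2
    exact h2
  rw [← h1, Multiset.map_map]
  rfl

theorem orbC_multi58 (Γ Ω : Type u) [Group Γ] [Finite Γ] [Finite Ω] [MulAction Γ Ω] (v : ℕ) :
    Nat.multichoose v (Nat.card Ω) ≤ orbC Γ Ω v := by
  classical
  obtain ⟨ft⟩ : Nonempty (Fintype Ω) := ⟨Fintype.ofFinite _⟩
  have h1 : Nat.multichoose v (Nat.card Ω) = Nat.card (Sym (Fin v) (Fintype.card Ω)) := by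
    rw [Nat.card_eq_fintype_card, Nat.card_eq_fintype_card, Sym.card_sym_eq_multichoose,
      Fintype.card_fin]
  rw [h1]
  unfold orbC
  have h2 : ∀ s : Sym (Fin v) (Fintype.card Ω), ∃ w : Ω → Fin v,
      (Finset.univ : Finset Ω).val.map w = s.1 := fun s => porb_vec s.1 s.2
  choose w hw using h2
  have hfin : Finite (Quotient (colS Γ Ω v)) := Quotient.finite _
  refine Nat.card_le_card_of_injective
    (fun s => (Quotient.mk (colS Γ Ω v) (w s))) ?_
  intro s s' hss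
  have h3 : (colS Γ Ω v).r (w s) (w s') := Quotient.exact hss
  obtain ⟨g, hg⟩ := h3
  have h4 : (Finset.univ : Finset Ω).val.map (w s) = (Finset.univ : Finset Ω).val.map (w s') := by
    have h5 : ((Finset.univ : Finset Ω).val.map (MulAction.toPerm g)) =
        (Finset.univ : Finset Ω).val := by
      have := Finset.map_univ_equiv (MulAction.toPerm g : Equiv.Perm Ω)
      have h2 := congrArg Finset.val this
      rw [Finset.map_val] at h2
      exact h2
    conv_rhs => rw [← h5]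
    rw [Multiset.map_map]
    refine Multiset.map_congr rfl fun ω _ => ?_
    rw [Function.comp_apply, MulAction.toPerm_apply]
    exact (hg ω).symm
  rw [hw, hw] at h4
  exact Subtype.ext h4

theorem orbC_core58 {Γ : Type u} [Group Γ] [Finite Γ] (Λ : Subgroup Γ) (v : ℕ) :
    v ^ Λ.index ≤ orbC Γ (Γ ⧸ Λ) v * Λ.normalCore.index := by
  classical
  have hfin : Finite (Quotient (colS Γ (Γ ⧸ Λ) v)) := Quotient.finite _
  have h1 : v ^ Λ.index = Nat.card ((Γ ⧸ Λ) → Fin v) := by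
    rw [Nat.card_fun, Nat.card_eq_fintype_card (α := Fin v), Fintype.card_fin]
    rfl
  have h2 : orbC Γ (Γ ⧸ Λ) v * Λ.normalCore.index =
      Nat.card (Quotient (colS Γ (Γ ⧸ Λ) v) × (Γ ⧸ Λ.normalCore)) := by
    rw [Nat.card_prod]
    rfl
  rw [h1, h2]
  refine Nat.card_le_card_of_surjective
    (fun p : Quotient (colS Γ (Γ ⧸ Λ) v) × (Γ ⧸ Λ.normalCore) =>
      fun ω : Γ ⧸ Λ => (Quotient.out p.1) ((Quotient.out p.2)⁻¹ • ω)) ?_
  intro f
  obtain ⟨q, hq⟩ : ∃ q : Quotient (colS Γ (Γ ⧸ Λ) v), q = Quotient.mk (colS Γ (Γ ⧸ Λ) v) f :=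
    ⟨_, rfl⟩
  have h3 : (colS Γ (Γ ⧸ Λ) v).r (Quotient.out q) f := by
    have : Quotient.mk (colS Γ (Γ ⧸ Λ) v) (Quotient.out q) = Quotient.mk (colS Γ (Γ ⧸ Λ) v) f := by
      rw [Quotient.out_eq, hq]
    exact Quotient.exact this
  obtain ⟨g, hg⟩ := h3
  refine ⟨(q, (QuotientGroup.mk g : Γ ⧸ Λ.normalCore)), ?_⟩
  funext ω
  show (Quotient.out q) ((Quotient.out (QuotientGroup.mk g : Γ ⧸ Λ.normalCore))⁻¹ • ω) = f ω
  obtain ⟨k, hk⟩ := QuotientGroup.mk_out_eq_mul Λ.normalCore g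
  have hk2 : Quotient.out (QuotientGroup.mk g : Γ ⧸ Λ.normalCore) = g * (k : Γ) := hk
  rw [hk2, mul_inv_rev, mul_smul]
  have h4 : ((k : Γ)⁻¹) • (g⁻¹ • ω) = g⁻¹ • ω := by
    have h50 : ((k : Γ)⁻¹) ∈ Λ.normalCore := Λ.normalCore.inv_mem k.2
    obtain ⟨k', hk'⟩ : ∃ k' : Γ, k' = (k : Γ)⁻¹ := ⟨_, rfl⟩
    rw [← hk'] at h50 ⊢
    have h5 : k' ∈ (MulAction.toPermHom Γ (Γ ⧸ Λ)).ker := by
      rw [← Subgroup.normalCore_eq_ker]
      exact h50
    rw [MonoidHom.mem_ker] at h5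
    have h6 := congrArg (fun σ : Equiv.Perm (Γ ⧸ Λ) => σ (g⁻¹ • ω)) h5
    exact h6
  rw [h4]
  have h7 := hg (g⁻¹ • ω)
  rw [smul_inv_smul] at h7
  exact h7.symm

end SR32

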