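import Pool.Agent.SR32.DefsP

/-!
# SR32/POrbS92: colourings of `Γ / Δ` give colourings of `Γ / Λ` (helper92)
-/

set_option autoImplicit false

namespace SR32

namespace S92

universe u

/-- the map `Λ / Δ → Γ / Δ` -/
def inc {Γ : Type u} [Group Γ] (Δ Λ : Subgroup Γ) : Λ ⧸ Δ.subgroupOf Λ → Γ ⧸ Δ :=
  Quotient.map' (fun x : Λ => (x : Γ)) (by
    intro a b hab
    rw [QuotientGroup.leftRel_apply] at hab ⊢
    exact hab)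

theorem inc_mk {Γ : Type u} [Group Γ] (Δ Λ : Subgroup Γ) (x : Λ) :
    inc Δ Λ (x : Λ ⧸ Δ.subgroupOf Λ) = ((x : Γ) : Γ ⧸ Δ) := rfl

theorem inc_smul {Γ : Type u} [Group Γ] (Δ Λ : Subgroup Γ) (m : Λ)
    (q : Λ ⧸ Δ.subgroupOf Λ) : inc Δ Λ (m • q) = (m : Γ) • inc Δ Λ q := by
  refine QuotientGroup.induction_on q ?_
  intro x
  rfl

/-- the colouring of `Λ / Δ` given by a colouring of `Γ / Δ` and an element of `Γ` -/
def sec {Γ : Type u} [Group Γ] (Δ Λ : Subgroup Γ) (f : Γ ⧸ Δ → Fin 3) (x : Γ) :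
    Λ ⧸ Δ.subgroupOf Λ → Fin 3 := fun q => f (x • inc Δ Λ q)

/-- the class of `sec` -/
def cls {Γ : Type u} [Group Γ] (Δ Λ : Subgroup Γ) (f : Γ ⧸ Δ → Fin 3) (x : Γ) :
    Quotient (colS Λ (Λ ⧸ Δ.subgroupOf Λ) 3) := Quotient.mk _ (sec Δ Λ f x)

theorem cls_mul {Γ : Type u} [Group Γ] (Δ Λ : Subgroup Γ) (f : Γ ⧸ Δ → Fin 3) (x : Γ) (m : Λ) :
    cls Δ Λ f (x * m) = cls Δ Λ f x := by
  apply Quotient.sound
  refine ⟨m, fun q => ?_⟩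
  show f (x • inc Δ Λ (m • q)) = f ((x * m) • inc Δ Λ q)
  rw [inc_smul, mul_smul]

theorem cls_out {Γ : Type u} [Group Γ] (Δ Λ : Subgroup Γ) (f : Γ ⧸ Δ → Fin 3) (x : Γ) :
    cls Δ Λ f (Quotient.out (x : Γ ⧸ Λ)) = cls Δ Λ f x := by
  obtain ⟨m, hm⟩ := QuotientGroup.mk_out_eq_mul Λ x
  rw [hm, cls_mul]

theorem cls_equiv {Γ : Type u} [Group Γ] (Δ Λ : Subgroup Γ) {f f' : Γ ⧸ Δ → Fin 3} {g : Γ}
    (hg : ∀ ω, f' (g • ω) = f ω) (x : Γ) : cls Δ Λ f' (g * x) = cls Δ Λ f x := by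
  have h : sec Δ Λ f' (g * x) = sec Δ Λ f x := by
    funext q
    show f' ((g * x) • inc Δ Λ q) = f (x • inc Δ Λ q)
    rw [mul_smul, hg]
  unfold cls
  rw [h]

theorem exists_col {Γ : Type u} [Group Γ] (Δ Λ : Subgroup Γ) (h : Δ ≤ Λ)
    (F : Γ ⧸ Λ → Quotient (colS Λ (Λ ⧸ Δ.subgroupOf Λ) 3)) :
    ∃ f : Γ ⧸ Δ → Fin 3, ∀ c : Γ ⧸ Λ, cls Δ Λ f (Quotient.out c) = F c := by
  classical
  -- the element of `Λ` below a given element of `Γ`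
  have hmem : ∀ γ : Γ, (Quotient.out (γ : Γ ⧸ Λ))⁻¹ * γ ∈ Λ := by
    intro γ
    rw [← QuotientGroup.eq, QuotientGroup.out_eq']
  let H : Γ → Fin 3 := fun γ =>
    Quotient.out (F (γ : Γ ⧸ Λ)) (((⟨(Quotient.out (γ : Γ ⧸ Λ))⁻¹ * γ, hmem γ⟩ : Λ)) :
      Λ ⧸ Δ.subgroupOf Λ)
  have hH : ∀ (γ δ : Γ), δ ∈ Δ → H (γ * δ) = H γ := by
    intro γ δ hδ
    have h1 : ((γ * δ : Γ) : Γ ⧸ Λ) = (γ : Γ ⧸ Λ) := by
      rw [QuotientGroup.eq]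
      have : (γ * δ)⁻¹ * γ = δ⁻¹ := by group
      rw [this]
      exact Λ.inv_mem (h hδ)
    have h2 : ∀ (c : Γ ⧸ Λ) (hc : (Quotient.out c)⁻¹ * (γ * δ) ∈ Λ)
        (hc' : (Quotient.out c)⁻¹ * γ ∈ Λ),
        ((⟨(Quotient.out c)⁻¹ * (γ * δ), hc⟩ : Λ) : Λ ⧸ Δ.subgroupOf Λ) =
          ((⟨(Quotient.out c)⁻¹ * γ, hc'⟩ : Λ) : Λ ⧸ Δ.subgroupOf Λ) := by
      intro c hc hc'
      rw [QuotientGroup.eq, Subgroup.mem_subgroupOf]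
      have : (((⟨(Quotient.out c)⁻¹ * (γ * δ), hc⟩ : Λ)⁻¹ * ⟨(Quotient.out c)⁻¹ * γ, hc'⟩ : Λ) : Γ)
          = δ⁻¹ := by
        show ((Quotient.out c)⁻¹ * (γ * δ))⁻¹ * ((Quotient.out c)⁻¹ * γ) = δ⁻¹
        group
      rw [this]
      exact Δ.inv_mem hδ
    have h3 : ∀ (c : Γ ⧸ Λ), ((γ * δ : Γ) : Γ ⧸ Λ) = c → (γ : Γ ⧸ Λ) = c → H (γ * δ) = H γ := by
      intro c hc1 hc2
      subst hc2
      show Quotient.out (F ((γ * δ : Γ) : Γ ⧸ Λ))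
        (((⟨(Quotient.out ((γ * δ : Γ) : Γ ⧸ Λ))⁻¹ * (γ * δ), hmem (γ * δ)⟩ : Λ)) :
          Λ ⧸ Δ.subgroupOf Λ) = H γ
      have h4 : ∀ (c' : Γ ⧸ Λ) (hc' : (Quotient.out c')⁻¹ * (γ * δ) ∈ Λ), c' = (γ : Γ ⧸ Λ) →
          Quotient.out (F c') (((⟨(Quotient.out c')⁻¹ * (γ * δ), hc'⟩ : Λ)) :
            Λ ⧸ Δ.subgroupOf Λ) = H γ := by
        intro c' hc' hcc
        subst hcc
        rw [h2 _ hc' (hmem γ)]
      exact h4 _ _ hc1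
    exact h3 _ h1 rfl
  refine ⟨fun ω => H (Quotient.out ω), ?_⟩
  have hf : ∀ γ : Γ, H (Quotient.out (γ : Γ ⧸ Δ)) = H γ := by
    intro γ
    obtain ⟨δ, hδ⟩ := QuotientGroup.mk_out_eq_mul Δ γ
    rw [hδ]
    exact hH γ δ δ.2
  intro c
  have h5 : sec Δ Λ (fun ω => H (Quotient.out ω)) (Quotient.out c) = Quotient.out (F c) := by
    funext q
    refine QuotientGroup.induction_on q ?_
    intro l
    show H (Quotient.out ((Quotient.out c) • inc Δ Λ (l : Λ ⧸ Δ.subgroupOf Λ))) = _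
    have h6 : (Quotient.out c) • inc Δ Λ (l : Λ ⧸ Δ.subgroupOf Λ) =
        ((Quotient.out c * (l : Γ) : Γ) : Γ ⧸ Δ) := rfl
    rw [h6, hf]
    have h7 : ((Quotient.out c * (l : Γ) : Γ) : Γ ⧸ Λ) = c := by
      rw [QuotientGroup.mk_mul_of_mem _ l.2]
      exact QuotientGroup.out_eq' c
    have h8 : ∀ (c' : Γ ⧸ Λ) (hc' : (Quotient.out c')⁻¹ * (Quotient.out c * (l : Γ)) ∈ Λ),
        c' = c → Quotient.out (F c') (((⟨(Quotient.out c')⁻¹ * (Quotient.out c * (l : Γ)), hc'⟩ :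
          Λ)) : Λ ⧸ Δ.subgroupOf Λ) = Quotient.out (F c) (l : Λ ⧸ Δ.subgroupOf Λ) := by
      intro c' hc' hcc
      subst hcc
      have h9 : (⟨(Quotient.out c')⁻¹ * (Quotient.out c' * (l : Γ)), hc'⟩ : Λ) = l := by
        apply Subtype.ext
        show (Quotient.out c')⁻¹ * (Quotient.out c' * (l : Γ)) = (l : Γ)
        group
      rw [h9]
    exact h8 _ _ h7
  unfold cls
  rw [h5]
  exact Quotient.out_eq _

theorem orbC_tower {Γ : Type u} [Group Γ] [Finite Γ] (Δ Λ : Subgroup Γ) (h : Δ ≤ Λ) :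
    orbC Γ (Γ ⧸ Λ) (orbC Λ (Λ ⧸ Δ.subgroupOf Λ) 3) ≤ orbC Γ (Γ ⧸ Δ) 3 := by
  classical
  have hfin : Finite (Quotient (colS Λ (Λ ⧸ Δ.subgroupOf Λ) 3)) := Quotient.finite _
  have hfin2 : Finite (Quotient (colS Γ (Γ ⧸ Δ) 3)) := Quotient.finite _
  let ε : Quotient (colS Λ (Λ ⧸ Δ.subgroupOf Λ) 3) ≃
    Fin (orbC Λ (Λ ⧸ Δ.subgroupOf Λ) 3) := Finite.equivFin _
  let Φ : Quotient (colS Γ (Γ ⧸ Δ) 3) →
      Quotient (colS Γ (Γ ⧸ Λ) (orbC Λ (Λ ⧸ Δ.subgroupOf Λ) 3)) :=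
    Quotient.map (fun f c => ε (cls Δ Λ f (Quotient.out c))) (by
      rintro f f' ⟨g, hg⟩
      refine ⟨g, fun c => ?_⟩
      refine QuotientGroup.induction_on c ?_
      intro x
      show ε (cls Δ Λ f' (Quotient.out ((g * x : Γ) : Γ ⧸ Λ))) =
        ε (cls Δ Λ f (Quotient.out (x : Γ ⧸ Λ)))
      rw [cls_out, cls_out, cls_equiv Δ Λ hg])
  refine Nat.card_le_card_of_surjective Φ ?_
  intro q
  refine Quotient.inductionOn q ?_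
  intro F
  obtain ⟨f, hf⟩ := exists_col Δ Λ h (fun c => ε.symm (F c))
  refine ⟨Quotient.mk _ f, ?_⟩
  show Quotient.mk _ (fun c => ε (cls Δ Λ f (Quotient.out c))) = Quotient.mk _ F
  congr 1
  funext c
  rw [hf, Equiv.apply_symm_apply]

end S92

end SR32
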