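import Pool.Agent.SR32.DefsP

/-!
# SR32/PSplitS97: colourings of a set with several orbits (helper97)
-/

set_option autoImplicit false

namespace SR32.S97

universe u

open MulAction SR32

/-- a finite `Γ`-set: representatives `ω i` of the orbits, with stabilizers `D i` -/
theorem orbC_split {Γ Ω : Type u} [Group Γ] [Finite Γ] [Finite Ω] [MulAction Γ Ω] :
    ∃ (a : ℕ) (ω : Fin a → Ω), (∀ x : Ω, ∃ i, ∃ g : Γ, g • ω i = x) ∧
      ∏ i, orbC Γ (Γ ⧸ MulAction.stabilizer Γ (ω i)) 3 ≤ orbC Γ Ω 3 := by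
  classical
  have hfin : Finite (orbitRel.Quotient Γ Ω) := Quotient.finite _
  obtain ⟨a, ⟨ε⟩⟩ := Finite.exists_equiv_fin (orbitRel.Quotient Γ Ω)
  let ω : Fin a → Ω := fun i => Quotient.out (ε.symm i)
  have hout : ∀ i, (Quotient.mk'' (ω i) : orbitRel.Quotient Γ Ω) = ε.symm i := fun i =>
    Quotient.out_eq' (ε.symm i)
  have hω : ∀ x : Ω, ∃ g : Γ, g • ω (ε (Quotient.mk'' x)) = x := by
    intro x
    have h1 : (Quotient.mk'' (ω (ε (Quotient.mk'' x))) : orbitRel.Quotient Γ Ω) =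
        Quotient.mk'' x := by
      rw [hout, Equiv.symm_apply_apply]
    have h2 : (orbitRel Γ Ω) x (ω (ε (Quotient.mk'' x))) := Quotient.exact' h1.symm
    rw [orbitRel_apply] at h2
    exact h2
  have hcl : ∀ i (g : Γ), ε (Quotient.mk'' (g • ω i) : orbitRel.Quotient Γ Ω) = i := by
    intro i g
    have h1 : (Quotient.mk'' (g • ω i) : orbitRel.Quotient Γ Ω) = Quotient.mk'' (ω i) := by
      refine Quotient.sound' ?_
      exact ⟨g, rfl⟩
    rw [h1, hout, Equiv.apply_symm_apply]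
  choose g hg using hω
  refine ⟨a, ω, fun x => ⟨_, _, hg x⟩, ?_⟩
  unfold orbC
  rw [← Nat.card_pi]
  have hfinite : Finite (Quotient (colS Γ Ω 3)) := Quotient.finite _
  let Φ : ∀ i, Quotient (colS Γ Ω 3) → Quotient (colS Γ (Γ ⧸ stabilizer Γ (ω i)) 3) := fun i =>
    Quotient.map (fun (f : Ω → Fin 3) (c : Γ ⧸ stabilizer Γ (ω i)) =>
      f (ofQuotientStabilizer Γ (ω i) c)) (by
        rintro f f' ⟨g0, hg0⟩
        refine ⟨g0, fun c => ?_⟩
        show f' (ofQuotientStabilizer Γ (ω i) (g0 • c)) = f (ofQuotientStabilizer Γ (ω i) c)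
        rw [ofQuotientStabilizer_smul, hg0])
  refine Nat.card_le_card_of_surjective (fun q i => Φ i q) ?_
  intro c
  let f : ∀ i, (Γ ⧸ stabilizer Γ (ω i)) → Fin 3 := fun i => Quotient.out (c i)
  let F : Ω → Fin 3 := fun x => f (ε (Quotient.mk'' x)) (QuotientGroup.mk (g x))
  refine ⟨Quotient.mk _ F, ?_⟩
  funext i
  show Quotient.mk _ (fun q : Γ ⧸ stabilizer Γ (ω i) => F (ofQuotientStabilizer Γ (ω i) q)) = c i
  have h1 : (fun q : Γ ⧸ stabilizer Γ (ω i) => F (ofQuotientStabilizer Γ (ω i) q)) = f i := by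
    funext q
    induction q using QuotientGroup.induction_on with
    | H h =>
      rw [ofQuotientStabilizer_mk]
      have key : ∀ (j : Fin a) (g' : Γ), j = i → g' • ω j = h • ω i →
          f j (QuotientGroup.mk g') = f i (QuotientGroup.mk h) := by
        rintro j g' rfl hgh
        congr 1
        rw [QuotientGroup.eq, mem_stabilizer_iff, mul_smul, ← hgh, inv_smul_smul]
      exact key _ _ (hcl i h) (hg (h • ω i))
  rw [h1]
  exact Quotient.out_eq (c i)

end SR32.S97
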