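import Pool.Agent.SR32.DefsP
import Pool.Agent.SR32.POrbS58
import Pool.Agent.SR32.POrbS92
import Pool.Agent.SR32.PSplitS97

/-!
# SR32/POrb: numbers of colourings up to a group
-/

namespace SR32

universe u

/-- the number of points of each colour is an invariant -/
theorem orbC_multi (Γ Ω : Type u) [Group Γ] [Finite Γ] [Finite Ω] [MulAction Γ Ω] (v : ℕ) :
    Nat.multichoose v (Nat.card Ω) ≤ orbC Γ Ω v :=
  orbC_multi58 Γ Ω v

/-- each class has at most as many members as the permutation group has elements -/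
theorem orbC_core {Γ : Type u} [Group Γ] [Finite Γ] (Λ : Subgroup Γ) (v : ℕ) :
    v ^ Λ.index ≤ orbC Γ (Γ ⧸ Λ) v * Λ.normalCore.index :=
  orbC_core58 Λ v

/-- the coset `x Λ` gets the class of the colouring `λ ↦ f (x λ)` of `Λ / Δ` -/
theorem orbC_tower {Γ : Type u} [Group Γ] [Finite Γ] (Δ Λ : Subgroup Γ) (h : Δ ≤ Λ) :
    orbC Γ (Γ ⧸ Λ) (orbC Λ (Λ ⧸ Δ.subgroupOf Λ) 3) ≤ orbC Γ (Γ ⧸ Δ) 3 :=
  S92.orbC_tower Δ Λ h

/-- a finite `Γ`-set: representatives `ω i` of the orbits, with stabilizers `D i` -/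
theorem orbC_split {Γ Ω : Type u} [Group Γ] [Finite Γ] [Finite Ω] [MulAction Γ Ω] :
    ∃ (a : ℕ) (ω : Fin a → Ω), (∀ x : Ω, ∃ i, ∃ g : Γ, g • ω i = x) ∧
      ∏ i, orbC Γ (Γ ⧸ MulAction.stabilizer Γ (ω i)) 3 ≤ orbC Γ Ω 3 :=
  S97.orbC_split

end SR32
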