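import Pool.Agent.SR32.DefsP
import Pool.Agent.SR32.POrb

/-!
# SR32/PFacS5: the number of 3-colourings of the simple factors is at most `om H` (helper5)
-/

namespace SR32

universe u

/-- the action of the automorphisms on the simple factors -/
@[reducible] def facAct5 {H : Type u} [Group H]
    (hmap : ∀ (φ : H ≃* H), ∀ S ∈ Fac H, S.map φ.toMonoidHom ∈ Fac H) :
    MulAction (MulAut H) {S : Subgroup H // S ∈ Fac H} where
  smul φ S := ⟨S.1.map (MulEquiv.toMonoidHom φ), hmap φ S.1 S.2⟩
  one_smul S := by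
    apply Subtype.ext
    show S.1.map (MulEquiv.toMonoidHom (1 : MulAut H)) = S.1
    ext x
    simp [Subgroup.mem_map]
  mul_smul φ ψ S := by
    apply Subtype.ext
    show S.1.map (MulEquiv.toMonoidHom (φ * ψ)) =
      (S.1.map (MulEquiv.toMonoidHom ψ)).map (MulEquiv.toMonoidHom φ)
    rw [Subgroup.map_map]
    rfl

open Classical in
/-- the colouring of the simple factors by an element -/
noncomputable def col5 {H : Type u} [Group H] (h : H) (S : {S : Subgroup H // S ∈ Fac H}) : Fin 3 :=
  if ∀ y ∈ S.1, h * y = y * h then 0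
  else if ∀ y ∈ S.1, h ^ (Nat.card S.1).minFac * y = y * h ^ (Nat.card S.1).minFac then 1
  else 2

theorem mem_two5 {T : Type*} [Group T] [Finite T] (hT : IsSimpleGroup T)
    (hna : ∃ x y : T, x * y ≠ y * x) : ∃ x : T, x ^ (Nat.card T).minFac ≠ 1 := by
  by_contra hno
  push Not at hno
  have : Nontrivial T := hT.toNontrivial
  have hp : Fact (Nat.Prime (Nat.card T).minFac) := ⟨Nat.minFac_prime (by
    have := Finite.one_lt_card (α := T)
    omega)⟩
  have hP : IsPGroup (Nat.card T).minFac T := fun g => ⟨1, by rw [pow_one]; exact hno g⟩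
  have hc := hP.center_nontrivial
  rcases hT.eq_bot_or_eq_top_of_normal (Subgroup.center T) inferInstance with h | h
  · rw [h] at hc
    exact not_nontrivial (⊥ : Subgroup T) hc
  · obtain ⟨x, y, hxy⟩ := hna
    have hx : y ∈ Subgroup.center T := by rw [h]; exact Subgroup.mem_top y
    exact hxy (Subgroup.mem_center_iff.1 hx x)

theorem center5 {T : Type*} [Group T] (hT : IsSimpleGroup T)
    (hna : ∃ x y : T, x * y ≠ y * x) {z : T} (hz : ∀ y, z * y = y * z) : z = 1 := by
  rcases hT.eq_bot_or_eq_top_of_normal (Subgroup.center T) inferInstance with h | h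
  · have hz' : z ∈ Subgroup.center T := Subgroup.mem_center_iff.2 fun g => (hz g).symm
    rw [h] at hz'
    exact Subgroup.mem_bot.1 hz'
  · obtain ⟨x, y, hxy⟩ := hna
    have hx : y ∈ Subgroup.center T := by rw [h]; exact Subgroup.mem_top y
    exact absurd (Subgroup.mem_center_iff.1 hx x) hxy

/-- an element of a simple factor with a given colour -/
theorem exists_el5 {T : Type*} [Group T] [Finite T] (hT : IsSimpleGroup T)
    (hna : ∃ x y : T, x * y ≠ y * x) (c : Fin 3) : ∃ z : T,
      ((c = 0 ∧ z = 1) ∨ (c = 1 ∧ z ≠ 1 ∧ z ^ (Nat.card T).minFac = 1) ∨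
        (c = 2 ∧ z ≠ 1 ∧ z ^ (Nat.card T).minFac ≠ 1)) := by
  have : Nontrivial T := hT.toNontrivial
  have hp : Fact (Nat.Prime (Nat.card T).minFac) := ⟨Nat.minFac_prime (by
    have := Finite.one_lt_card (α := T)
    omega)⟩
  fin_cases c
  · exact ⟨1, Or.inl ⟨rfl, rfl⟩⟩
  · obtain ⟨z, hz⟩ := exists_prime_orderOf_dvd_card' (G := T) (Nat.card T).minFac
      (Nat.minFac_dvd _)
    refine ⟨z, Or.inr (Or.inl ⟨rfl, ?_, ?_⟩)⟩
    · rintro rfl
      rw [orderOf_one] at hz
      exact hp.out.one_lt.ne hz
    · rw [← hz]; exact pow_orderOf_eq_one z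
  · obtain ⟨z, hz⟩ := mem_two5 hT hna
    refine ⟨z, Or.inr (Or.inr ⟨rfl, ?_, hz⟩)⟩
    rintro rfl
    exact hz (one_pow _)

theorem exists_D_core5 {H : Type u} [Group H] [Finite H]
    (h1 : ∀ S ∈ Fac H, IsSimpleGroup S ∧ (∃ x ∈ S, ∃ y ∈ S, x * y ≠ y * x) ∧ S ≤ KK H)
    (h2 : ∀ S ∈ Fac H, ∀ T ∈ Fac H, S ≠ T → ∀ x ∈ S, ∀ y ∈ T, x * y = y * x)
    (h3 : ∀ (φ : H ≃* H), ∀ S ∈ Fac H, S.map φ.toMonoidHom ∈ Fac H) :
    ∃ (a : ℕ) (D : Fin a → Subgroup (MulAut H)), UU D = KK H ∧
      ∏ i, orbC (MulAut H) (MulAut H ⧸ D i) 3 ≤ om H := by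
  classical
  let _ : MulAction (MulAut H) {S : Subgroup H // S ∈ Fac H} := facAct5 h3
  have hsm : ∀ (φ : MulAut H) (S : {S : Subgroup H // S ∈ Fac H}),
      (φ • S).1 = S.1.map (MulEquiv.toMonoidHom φ) := fun φ S => rfl
  have hfin : Finite (MulAut H) := inferInstance
  obtain ⟨a, ω, hω, hprod⟩ := orbC_split (Γ := MulAut H) (Ω := {S : Subgroup H // S ∈ Fac H})
  refine ⟨a, fun i => MulAction.stabilizer (MulAut H) (ω i), ?_, hprod.trans ?_⟩
  · -- the elements that normalize all factors
    have hst : ∀ (h : H) (S : {S : Subgroup H // S ∈ Fac H}),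
        MulAut.conj h • S = S ↔ h ∈ Subgroup.normalizer S.1 := by
      intro h S
      rw [Subtype.ext_iff, hsm, Subgroup.mem_normalizer_iff]
      constructor
      · intro hS x
        constructor
        · intro hx
          rw [← hS]
          exact ⟨x, hx, rfl⟩
        · intro hx
          rw [← hS] at hx
          obtain ⟨y, hy, hyx⟩ := hx
          have h5 : h * y * h⁻¹ = h * x * h⁻¹ := hyx
          have h6 : y = x := mul_left_cancel (mul_right_cancel h5)
          rw [← h6]; exact hy
      · intro hS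
        ext x
        constructor
        · rintro ⟨y, hy, rfl⟩
          exact (hS y).1 hy
        · intro hx
          refine ⟨h⁻¹ * x * h, ?_, ?_⟩
          · rw [SetLike.mem_coe, hS]
            have h5 : h * (h⁻¹ * x * h) * h⁻¹ = x := by group
            rwa [h5]
          · show h * (h⁻¹ * x * h) * h⁻¹ = x
            group
    ext h
    unfold UU KK
    rw [Subgroup.mem_comap, Subgroup.mem_iInf, Subgroup.mem_iInf]
    constructor
    · intro hh S
      rw [Subgroup.mem_iInf]
      intro hS
      obtain ⟨i, g, hg⟩ := hω ⟨S, hS⟩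
      have h5 := hh i g⁻¹
      rw [MulAction.mem_stabilizer_iff, inv_inv, mul_smul, mul_smul, hg] at h5
      have h6 : MulAut.conj h • (⟨S, hS⟩ : {S : Subgroup H // S ∈ Fac H}) = ⟨S, hS⟩ := by
        rw [inv_smul_eq_iff] at h5
        rw [h5, hg]
      exact (hst h ⟨S, hS⟩).1 h6
    · intro hh i g
      rw [MulAction.mem_stabilizer_iff, mul_smul, mul_smul]
      have h5 := hh (g⁻¹ • ω i).1
      rw [Subgroup.mem_iInf] at h5
      have h6 := (hst h (g⁻¹ • ω i)).2 (h5 (g⁻¹ • ω i).2)
      rw [h6, smul_inv_smul]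
  · -- the colouring is equivariant
    have heq : ∀ (φ : MulAut H) (h : H) (S : {S : Subgroup H // S ∈ Fac H}),
        col5 (φ h) (φ • S) = col5 h S := by
      intro φ h S
      have hcard : Nat.card (φ • S).1 = Nat.card S.1 := by
        rw [hsm]
        exact (Nat.card_congr (S.1.equivMapOfInjective (MulEquiv.toMonoidHom φ)
          φ.injective).toEquiv).symm
      have hc : ∀ g : H, (∀ y ∈ (φ • S).1, φ g * y = y * φ g) ↔ ∀ y ∈ S.1, g * y = y * g := by
        intro g
        rw [hsm]
        constructor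
        · intro hg y hy
          have h5 := hg (φ y) ⟨y, hy, rfl⟩
          rw [← map_mul, ← map_mul] at h5
          exact φ.injective h5
        · rintro hg _ ⟨y, hy, rfl⟩
          show φ g * φ y = φ y * φ g
          rw [← map_mul, hg y hy, map_mul]
      unfold col5
      rw [hcard, ← map_pow]
      simp only [hc]
    -- every colouring occurs
    have hsurj : ∀ f : {S : Subgroup H // S ∈ Fac H} → Fin 3, ∃ h : H, ∀ S, col5 h S = f S := by
      intro f
      have hna : ∀ S : {S : Subgroup H // S ∈ Fac H}, ∃ x y : S.1, x * y ≠ y * x := by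
        intro S
        obtain ⟨x, hx, y, hy, hxy⟩ := (h1 S.1 S.2).2.1
        exact ⟨⟨x, hx⟩, ⟨y, hy⟩, fun h5 => hxy (congrArg Subtype.val h5)⟩
      choose z hz using fun S : {S : Subgroup H // S ∈ Fac H} =>
        exists_el5 (h1 S.1 S.2).1 (hna S) (f S)
      have hF : Finite {S : Subgroup H // S ∈ Fac H} := inferInstance
      let _ := Fintype.ofFinite {S : Subgroup H // S ∈ Fac H}
      have hcomm : ∀ S T : {S : Subgroup H // S ∈ Fac H}, S ≠ T → ∀ x ∈ S.1, ∀ y ∈ T.1,
          Commute x y := fun S T hST x hx y hy =>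
        h2 S.1 S.2 T.1 T.2 (fun h5 => hST (Subtype.ext h5)) x hx y hy
      have hpw : (↑(Finset.univ : Finset {S : Subgroup H // S ∈ Fac H}) :
          Set {S : Subgroup H // S ∈ Fac H}).Pairwise
          (Function.onFun Commute fun S => ((z S : S.1) : H)) := by
        intro S _ T _ hST
        exact hcomm S T hST _ (z S).2 _ (z T).2
      refine ⟨Finset.univ.noncommProd (fun S => ((z S : S.1) : H)) hpw, fun T => ?_⟩
      set h := Finset.univ.noncommProd (fun S => ((z S : S.1) : H)) hpw with hh
      obtain ⟨r, hr, hrT⟩ : ∃ r : H, h = (z T : H) * r ∧ ∀ y ∈ T.1, Commute y r := by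
        refine ⟨_, (Finset.mul_noncommProd_erase Finset.univ (Finset.mem_univ T)
          (fun S => ((z S : S.1) : H)) hpw).symm, fun y hy => ?_⟩
        refine Finset.noncommProd_commute _ _ _ _ fun S hS => ?_
        exact hcomm T S (Finset.ne_of_mem_erase hS).symm y hy _ (z S).2
      have hcen : ∀ k : ℕ, (∀ y ∈ T.1, h ^ k * y = y * h ^ k) ↔ z T ^ k = 1 := by
        intro k
        have hk : h ^ k = (z T : H) ^ k * r ^ k := by
          rw [hr]; exact (hrT _ (z T).2).mul_pow k
        have hrk : ∀ y ∈ T.1, r ^ k * y = y * r ^ k := fun y hy => ((hrT y hy).pow_right k).symm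
        constructor
        · intro hy
          refine center5 (h1 T.1 T.2).1 (hna T) fun y => ?_
          have h5 := hy y.1 y.2
          rw [hk, mul_assoc, hrk y.1 y.2, ← mul_assoc, ← mul_assoc] at h5
          apply Subtype.ext
          have h6 := mul_right_cancel h5
          simpa using h6
        · intro h5 y hy
          have h6 : (z T : H) ^ k = 1 := by
            have := congrArg Subtype.val h5
            simpa using this
          rw [hk, h6, one_mul]
          exact hrk y hy
      have c1 := hcen 1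
      rw [pow_one, pow_one] at c1
      unfold col5
      simp only [c1, hcen]
      rcases hz T with ⟨e1, e2⟩ | ⟨e1, e2, e3⟩ | ⟨e1, e2, e3⟩
      · rw [if_pos e2, e1]
      · rw [if_neg e2, if_pos e3, e1]
      · rw [if_neg e2, if_neg e3, e1]
    unfold om orbC
    have hQ : Finite (MulAction.orbitRel.Quotient (MulAut H) H) := Quotient.finite _
    refine Nat.card_le_card_of_surjective
      (Quotient.map' (s₁ := MulAction.orbitRel (MulAut H) H)
        (s₂ := colS (MulAut H) {S : Subgroup H // S ∈ Fac H} 3) (fun h => col5 h) ?_) ?_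
    · intro x y hxy
      obtain ⟨φ, hφ⟩ := hxy
      refine ⟨φ⁻¹, fun S => ?_⟩
      have h5 : φ y = x := hφ
      have h6 : y = φ⁻¹ x := by
        rw [← h5]
        exact (MulEquiv.symm_apply_apply φ y).symm
      rw [h6]
      exact heq φ⁻¹ x S
    · intro q
      induction q using Quotient.inductionOn' with
      | h f =>
        obtain ⟨h, hh⟩ := hsurj f
        refine ⟨Quotient.mk'' h, ?_⟩
        rw [Quotient.map'_mk'']
        congr 1
        funext S
        exact hh S

end SR32
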