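import Pool.Agent.SR32.DefsP
import Pool.Agent.SR32.UCenter
import Pool.Agent.SR32.WEnum

/-!
# SR32/PFacS90: the simple factors of the minimal normal subgroups
-/

set_option autoImplicit false

namespace SR32.PFacS90

open SR32

universe u

/-- the centre of a nonabelian simple group is trivial -/
theorem center_bot {S : Type*} [Group S] (hs : IsSimpleGroup S)
    (hna : ∃ x y : S, x * y ≠ y * x) : Subgroup.center S = ⊥ := by
  rcases hs.eq_bot_or_eq_top_of_normal (Subgroup.center S) inferInstance with h | h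
  · exact h
  · exfalso
    obtain ⟨x, y, hxy⟩ := hna
    have h1 : y ∈ Subgroup.center S := by
      rw [h]
      exact Subgroup.mem_top y
    exact hxy (Subgroup.mem_center_iff.1 h1 x)

/-- different minimal normal subgroups commute -/
theorem min_comm {G : Type*} [Group G] {M N : Subgroup G} (hM : IsMinNormal M)
    (hN : IsMinNormal N) (hne : M ≠ N) : ∀ x ∈ M, ∀ y ∈ N, x * y = y * x := by
  have hn : (M ⊓ N).Normal := by
    have := hM.1
    have := hN.1
    infer_instance
  have hd : M ⊓ N = ⊥ := by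
    rcases hM.2.2 _ hn inf_le_left with h | h
    · exact h
    · rcases hN.2.2 M hM.1 (by rw [← h]; exact inf_le_right) with h' | h'
      · exact absurd h' hM.2.1
      · exact absurd h' hne
  intro x hx y hy
  exact Subgroup.commute_of_normal_of_disjoint M N hM.1 hN.1 (disjoint_iff.2 hd) x y hx hy

/-- the minimal normal subgroups of a direct power of a nonabelian simple group -/
theorem min_pi {s : ℕ} {S : Type*} [Group S] [IsSimpleGroup S] (hc : Subgroup.center S = ⊥)
    (K : Subgroup (Fin s → S)) (hK : IsMinNormal K) :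
    ∃ i, K = (MonoidHom.mulSingle (fun _ : Fin s => S) i).range := by
  obtain ⟨x, hx, hx1⟩ : ∃ x ∈ K, x ≠ 1 := by
    by_contra h
    push Not at h
    exact hK.2.1 ((Subgroup.eq_bot_iff_forall K).2 h)
  obtain ⟨i, hi⟩ : ∃ i, x i ≠ 1 := by
    by_contra h
    push Not at h
    exact hx1 (funext h)
  obtain ⟨u, hu⟩ : ∃ u : S, u * x i ≠ x i * u := by
    by_contra h
    push Not at h
    have h1 : x i ∈ Subgroup.center S := Subgroup.mem_center_iff.2 h
    rw [hc, Subgroup.mem_bot] at h1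
    exact hi h1
  refine ⟨i, ?_⟩
  have hR := minNormal_single (S := S) i
  obtain ⟨R, hRd⟩ : ∃ R : Subgroup (Fin s → S),
      R = (MonoidHom.mulSingle (fun _ : Fin s => S) i).range := ⟨_, rfl⟩
  rw [← hRd] at hR ⊢
  have hn : (K ⊓ R).Normal := by
    have := hK.1
    have := hR.1
    infer_instance
  have hy : Pi.mulSingle i u ∈ R := by
    rw [hRd]
    exact ⟨u, rfl⟩
  have h1 : x * Pi.mulSingle i u * x⁻¹ * (Pi.mulSingle i u)⁻¹ ∈ R :=
    R.mul_mem (hR.1.conj_mem _ hy x) (R.inv_mem hy)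
  have h2 : x * Pi.mulSingle i u * x⁻¹ * (Pi.mulSingle i u)⁻¹ ∈ K := by
    have h3 := K.mul_mem hx (hK.1.conj_mem _ (K.inv_mem hx) (Pi.mulSingle i u))
    have h4 : x * (Pi.mulSingle i u * x⁻¹ * (Pi.mulSingle i u)⁻¹) =
        x * Pi.mulSingle i u * x⁻¹ * (Pi.mulSingle i u)⁻¹ := by group
    rwa [h4] at h3
  have hle : K ≤ R := by
    rcases hK.2.2 _ hn inf_le_left with h | h
    · exfalso
      have h5 : x * Pi.mulSingle i u * x⁻¹ * (Pi.mulSingle i u)⁻¹ ∈ K ⊓ R := ⟨h2, h1⟩
      rw [h, Subgroup.mem_bot] at h5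
      have h6 := congrFun h5 i
      simp only [Pi.mul_apply, Pi.inv_apply, Pi.mulSingle_eq_same, Pi.one_apply] at h6
      apply hu
      calc u * x i = (x i * u * (x i)⁻¹ * u⁻¹)⁻¹ * (x i * u) := by group
        _ = x i * u := by rw [h6, inv_one, one_mul]
    · rw [← h]
      exact inf_le_right
  rcases hR.2.2 K hK.1 hle with h | h
  · exact absurd h hK.2.1
  · exact h

theorem fac_map {H : Type u} [Group H] (φ : H ≃* H) {S : Subgroup H} (hS : S ∈ Fac H) :
    S.map φ.toMonoidHom ∈ Fac H := by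
  obtain ⟨M, hM, hle, hmin⟩ := hS
  refine ⟨M.map φ.toMonoidHom, st_map_min φ hM, Subgroup.map_mono hle, ?_⟩
  have key : (S.map φ.toMonoidHom).subgroupOf (M.map φ.toMonoidHom) =
      (S.subgroupOf M).comap (φ.subgroupMap M).symm.toMonoidHom := by
    ext x
    obtain ⟨m, hm⟩ := (φ.subgroupMap M).surjective x
    have h1 : (x : H) = φ (m : H) := by
      rw [← hm]
      rfl
    have h2 : (φ.subgroupMap M).symm x = m := by
      rw [← hm]
      exact (φ.subgroupMap M).symm_apply_apply m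
    have h3 : x ∈ (S.subgroupOf M).comap (φ.subgroupMap M).symm.toMonoidHom ↔
      (((φ.subgroupMap M).symm x : M) : H) ∈ S := Iff.rfl
    rw [Subgroup.mem_subgroupOf]
    refine Iff.trans ?_ h3.symm
    rw [h2, h1]
    constructor
    · rintro ⟨y, hy, hyx⟩
      have h3 : y = m := φ.injective hyx
      rw [← h3]
      exact hy
    · intro h
      exact ⟨m, h, rfl⟩
  rw [key]
  exact minNormal_comap (φ.subgroupMap M).symm hmin

theorem fac_iso {H : Type u} [Group H] [Finite H] {M : Subgroup H} (_hM : IsMinNormal M)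
    {S : Subgroup M} {s : ℕ} (hS : IsSimpleGroup S) (hna : ∃ x y : S, x * y ≠ y * x)
    (e : M ≃* (Fin s → S)) {T : Subgroup H} (hT : T ≤ M) (hT' : IsMinNormal (T.subgroupOf M)) :
    Nonempty (T ≃* S) := by
  have hc : Subgroup.center S = ⊥ := center_bot hS hna
  obtain ⟨i, hi⟩ := min_pi hc ((T.subgroupOf M).comap e.symm.toMonoidHom)
    (minNormal_comap e.symm hT')
  have h1 : (T.subgroupOf M).map e.toMonoidHom =
      (MonoidHom.mulSingle (fun _ : Fin s => S) i).range := by
    rw [← hi]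
    exact Subgroup.map_equiv_eq_comap_symm' e _
  have hinj : Function.Injective (MonoidHom.mulSingle (fun _ : Fin s => S) i) :=
    fun x y h => Pi.mulSingle_injective (M := fun _ : Fin s => S) i h
  exact ⟨(Subgroup.subgroupOfEquivOfLe hT).symm.trans ((e.subgroupMap _).trans
    ((MulEquiv.subgroupCongr h1).trans (MonoidHom.ofInjective hinj).symm))⟩

/-- a direct power of a simple group with an element outside the centre -/
theorem nonab_of_pow {H : Type u} [Group H] {M : Subgroup H}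
    (hna : ∃ x ∈ M, ∃ y ∈ M, x * y ≠ y * x) {S : Type*} [Group S] {s : ℕ}
    (e : M ≃* (Fin s → S)) : ∃ x y : S, x * y ≠ y * x := by
  by_contra h
  push Not at h
  obtain ⟨x, hx, y, hy, hxy⟩ := hna
  apply hxy
  have h1 : (⟨x, hx⟩ : M) * ⟨y, hy⟩ = ⟨y, hy⟩ * ⟨x, hx⟩ := by
    apply e.injective
    rw [map_mul, map_mul]
    funext i
    exact h _ _
  exact congrArg Subtype.val h1

/-- the factor with number `i` -/
theorem fac_single {H : Type u} [Group H] {M : Subgroup H} (hM : IsMinNormal M) {S : Type*}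
    [Group S] [IsSimpleGroup S] {s : ℕ} (e : M ≃* (Fin s → S)) (i : Fin s) :
    ∃ T ∈ Fac H, ∀ u : S, ((e.symm (Pi.mulSingle i u) : M) : H) ∈ T := by
  obtain ⟨R, hR⟩ : ∃ R : Subgroup M, R =
    (MonoidHom.mulSingle (fun _ : Fin s => S) i).range.comap e.toMonoidHom := ⟨_, rfl⟩
  have hRmin : IsMinNormal R := by
    rw [hR]
    exact minNormal_comap e (minNormal_single i)
  have hSR : (R.map M.subtype).subgroupOf M = R :=
    Subgroup.comap_map_eq_self_of_injective M.subtype_injective R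
  refine ⟨R.map M.subtype, ⟨M, hM, Subgroup.map_subtype_le R, by rw [hSR]; exact hRmin⟩,
    fun u => ⟨e.symm (Pi.mulSingle i u), ?_, rfl⟩⟩
  rw [hR]
  exact ⟨u, (e.apply_symm_apply _).symm⟩

theorem fac_comm {H : Type u} [Group H] {S T : Subgroup H} (hS : S ∈ Fac H) (hT : T ∈ Fac H)
    (hne : S ≠ T) : ∀ x ∈ S, ∀ y ∈ T, x * y = y * x := by
  intro x hx y hy
  obtain ⟨M, hM, hSM, hSmin⟩ := hS
  obtain ⟨N, hN, hTN, hTmin⟩ := hT
  by_cases h : M = N
  · subst h
    have hne' : S.subgroupOf M ≠ T.subgroupOf M := by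
      intro h1
      apply hne
      have h2 := congrArg (Subgroup.map M.subtype) h1
      rwa [Subgroup.map_subgroupOf_eq_of_le hSM, Subgroup.map_subgroupOf_eq_of_le hTN] at h2
    have h3 := min_comm hSmin hTmin hne' ⟨x, hSM hx⟩ hx ⟨y, hTN hy⟩ hy
    exact congrArg Subtype.val h3
  · exact min_comm hM hN h x (hSM hx) y (hTN hy)

theorem fac_le_KK {H : Type u} [Group H] {S : Subgroup H} (hS : S ∈ Fac H) : S ≤ KK H := by
  intro x hx
  unfold KK
  rw [Subgroup.mem_iInf]
  intro T
  rw [Subgroup.mem_iInf]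
  intro hT
  by_cases h : S = T
  · subst h
    exact Subgroup.le_normalizer hx
  · rw [Subgroup.mem_normalizer_iff]
    have hc := fac_comm hS hT h x hx
    intro y
    constructor
    · intro hy
      rw [hc y hy, mul_inv_cancel_right]
      exact hy
    · intro hy
      have h1 : x * (x * y * x⁻¹) = x * y * x⁻¹ * x := hc _ hy
      have h2 : y = x * y * x⁻¹ := by
        have h3 : x * (x * y * x⁻¹) = x * y := by rw [h1, inv_mul_cancel_right]
        exact (mul_left_cancel h3).symm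
      rw [h2]
      exact hy

theorem fac_simple {H : Type u} [Group H] [Finite H]
    (hna : ∀ M : Subgroup H, IsMinNormal M → ∃ x ∈ M, ∃ y ∈ M, x * y ≠ y * x)
    (hp : ∀ M : Subgroup H, IsMinNormal M →
      ∃ (S : Subgroup M) (s : ℕ), IsSimpleGroup S ∧ Nonempty (M ≃* (Fin s → S))) :
    (∀ S ∈ Fac H, IsSimpleGroup S ∧ (∃ x ∈ S, ∃ y ∈ S, x * y ≠ y * x) ∧ S ≤ KK H) ∧
    (∀ S ∈ Fac H, ∀ T ∈ Fac H, S ≠ T → ∀ x ∈ S, ∀ y ∈ T, x * y = y * x) ∧
    (∀ (φ : H ≃* H), ∀ S ∈ Fac H, S.map φ.toMonoidHom ∈ Fac H) ∧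
    (∀ z : H, (∀ S ∈ Fac H, ∀ y ∈ S, z * y = y * z) → z = 1) := by
  classical
  refine ⟨fun T hT => ?_, fun S hS T hT hne => fac_comm hS hT hne, fun φ S hS => fac_map φ hS,
    fun z hz => ?_⟩
  · refine ⟨?_, ?_, fac_le_KK hT⟩
    · obtain ⟨M, hM, hTM, hmin⟩ := hT
      obtain ⟨S, s, hS, ⟨e⟩⟩ := hp M hM
      obtain ⟨f⟩ := fac_iso hM hS (nonab_of_pow (hna M hM) e) e hTM hmin
      have := hS
      exact f.isSimpleGroup
    · obtain ⟨M, hM, hTM, hmin⟩ := hT
      obtain ⟨S, s, hS, ⟨e⟩⟩ := hp M hM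
      obtain ⟨f⟩ := fac_iso hM hS (nonab_of_pow (hna M hM) e) e hTM hmin
      obtain ⟨x, y, hxy⟩ := nonab_of_pow (hna M hM) e
      refine ⟨(f.symm x : H), (f.symm x).2, (f.symm y : H), (f.symm y).2, fun h => hxy ?_⟩
      have h1 : f.symm x * f.symm y = f.symm y * f.symm x := Subtype.ext h
      rw [← map_mul, ← map_mul] at h1
      exact f.symm.injective h1
  · refine eq_one_of_centralize hna z fun M hM y hy => ?_
    obtain ⟨S, s, hS, ⟨e⟩⟩ := hp M hM
    obtain ⟨C, hC⟩ : ∃ C : Subgroup (Fin s → S), C =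
      ((Subgroup.centralizer {z}).subgroupOf M).comap e.symm.toMonoidHom := ⟨_, rfl⟩
    have hmem : ∀ w : Fin s → S, w ∈ C ↔ z * (e.symm w : H) = (e.symm w : H) * z := by
      intro w
      rw [hC, Subgroup.mem_comap, Subgroup.mem_subgroupOf, Subgroup.mem_centralizer_iff]
      constructor
      · intro h
        exact h z rfl
      · intro h w' hw'
        rw [Set.mem_singleton_iff] at hw'
        rw [hw']
        exact h
    have h1 : e ⟨y, hy⟩ ∈ C := by
      refine Subgroup.pi_mem_of_mulSingle_mem _ fun i => ?_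
      rw [hmem]
      obtain ⟨T, hT, hTm⟩ := fac_single hM e i
      exact hz T hT _ (hTm _)
    rw [hmem, MulEquiv.symm_apply_apply] at h1
    exact h1

theorem KK_char {H : Type u} [Group H] [Finite H] : (KK H).Characteristic := by
  rw [Subgroup.characteristic_iff_map_le]
  rintro φ _ ⟨h, hh, rfl⟩
  unfold KK at hh ⊢
  rw [Subgroup.mem_iInf]
  intro S
  rw [Subgroup.mem_iInf]
  intro hS
  have hS' : S.map φ.symm.toMonoidHom ∈ Fac H := fac_map φ.symm hS
  have h0 : h ∈ KK H := hh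
  unfold KK at h0
  rw [Subgroup.mem_iInf] at h0
  have h1 := h0 (S.map φ.symm.toMonoidHom)
  rw [Subgroup.mem_iInf] at h1
  have h2 := h1 hS'
  rw [Subgroup.mem_normalizer_iff] at h2 ⊢
  intro y
  have hm : ∀ w : H, w ∈ S ↔ φ.symm w ∈ S.map φ.symm.toMonoidHom := by
    intro w
    constructor
    · intro hw
      exact ⟨w, hw, rfl⟩
    · rintro ⟨w', hw', h3⟩
      have h4 : w' = w := φ.symm.injective h3
      rw [← h4]
      exact hw'
  show y ∈ S ↔ φ h * y * (φ h)⁻¹ ∈ S
  rw [hm y, hm (φ h * y * (φ h)⁻¹), h2 (φ.symm y)]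
  have h5 : φ.symm (φ h * y * (φ h)⁻¹) = h * φ.symm y * h⁻¹ := by
    rw [map_mul, map_mul, map_inv, MulEquiv.symm_apply_apply]
  rw [h5]

end SR32.PFacS90
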