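import Pool.Agent.SR32.DefsP
import Pool.Agent.SR32.UCenter
import Pool.Agent.SR32.PFacS90
import Pool.Agent.SR32.PFacS46
import Pool.Agent.SR32.PFacS5

/-!
# SR32/PFac (STUB): the simple factors
-/

namespace SR32

universe u

/-- hypotheses: `hna`: nonabelian; `hp`: powers of simple groups -/
theorem fac_simple {H : Type u} [Group H] [Finite H]
    (hna : ∀ M : Subgroup H, IsMinNormal M → ∃ x ∈ M, ∃ y ∈ M, x * y ≠ y * x)
    (hp : ∀ M : Subgroup H, IsMinNormal M →
      ∃ (S : Subgroup M) (s : ℕ), IsSimpleGroup S ∧ Nonempty (M ≃* (Fin s → S))) :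
    (∀ S ∈ Fac H, IsSimpleGroup S ∧ (∃ x ∈ S, ∃ y ∈ S, x * y ≠ y * x) ∧ S ≤ KK H) ∧
    (∀ S ∈ Fac H, ∀ T ∈ Fac H, S ≠ T → ∀ x ∈ S, ∀ y ∈ T, x * y = y * x) ∧
    (∀ (φ : H ≃* H), ∀ S ∈ Fac H, S.map φ.toMonoidHom ∈ Fac H) ∧
    (∀ z : H, (∀ S ∈ Fac H, ∀ y ∈ S, z * y = y * z) → z = 1) :=
  PFacS90.fac_simple hna hp

/-- every simple factor is isomorphic to the `S` of its minimal normal subgroup -/
theorem fac_iso {H : Type u} [Group H] [Finite H] {M : Subgroup H} (hM : IsMinNormal M)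
    {S : Subgroup M} {s : ℕ} (hS : IsSimpleGroup S) (hna : ∃ x y : S, x * y ≠ y * x)
    (e : M ≃* (Fin s → S)) {T : Subgroup H} (hT : T ≤ M) (hT' : IsMinNormal (T.subgroupOf M)) :
    Nonempty (T ≃* S) :=
  PFacS90.fac_iso hM hS hna e hT hT'

theorem KK_char {H : Type u} [Group H] [Finite H] : (KK H).Characteristic :=
  PFacS90.KK_char

/-- the minimal normal subgroups of `KK H` are the simple factors -/
theorem KK_tame {H : Type u} [Group H] [Finite H] {η : ℕ → ℕ} {t : ℕ} (ht : 1 ≤ t)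
    (hna : ∀ M : Subgroup H, IsMinNormal M → ∃ x ∈ M, ∃ y ∈ M, x * y ≠ y * x)
    (hp : MinPowX η t H) : TameX η t (KK H) := by
  obtain ⟨h1, -, -, h4⟩ := fac_simple hna fun M hM => by
    obtain ⟨S, s, hk, he⟩ := hp M hM
    exact ⟨S, s, hk.1, he⟩
  exact p46_KK_tame ht hp h1 h4 fun M hM S s hS hne e T hT hT' => fac_iso hM hS hne e hT hT'

/-- PROOF. `MulAut H` acts on `Fac H`. Colour of a simple factor `S` under `h ∈ KK H`: `0` if `h` centralizes `S`, `1` if the
automorphism of `S` induced by `h` has order the least prime divisor of `card S`, `2` otherwise. The colouring of `φ h` is the image of that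
of `h`; every colouring occurs (products of elements of the factors; a nonabelian simple group has elements of two prime orders).
Then `orbC_split`; `D i` = stabilizers of the representatives. -/
theorem exists_D {H : Type u} [Group H] [Finite H]
    (hna : ∀ M : Subgroup H, IsMinNormal M → ∃ x ∈ M, ∃ y ∈ M, x * y ≠ y * x)
    (hp : ∀ M : Subgroup H, IsMinNormal M →
      ∃ (S : Subgroup M) (s : ℕ), IsSimpleGroup S ∧ Nonempty (M ≃* (Fin s → S))) :
    ∃ (a : ℕ) (D : Fin a → Subgroup (MulAut H)), UU D = KK H ∧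
      ∏ i, orbC (MulAut H) (MulAut H ⧸ D i) 3 ≤ om H :=
  exists_D_core5 (fac_simple hna hp).1 (fac_simple hna hp).2.1 (fac_simple hna hp).2.2.1

end SR32
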