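import Pool.Agent.SR32.Defs

/-!
# SR32/PAltS40: proof of `alt_of_normal`
-/

namespace SR32

universe u

/-- a nontrivial subgroup of `Sym b` normalized by `Alt b` contains `Alt b` -/
theorem alt_le_of_normalized40 {b : ℕ} (hb : 5 ≤ b) (Z : Subgroup (Equiv.Perm (Fin b)))
    (hZ : Z ≠ ⊥) (hn : ∀ a ∈ alternatingGroup (Fin b), ∀ z ∈ Z, a * z * a⁻¹ ∈ Z) :
    alternatingGroup (Fin b) ≤ Z := by
  classical
  have hcard : 5 ≤ Nat.card (Fin b) := by rw [Nat.card_fin]; exact hb
  have hsimple : IsSimpleGroup (alternatingGroup (Fin b)) := alternatingGroup.isSimpleGroup hcard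
  -- the centralizer of `Alt b` is trivial
  have hcent : ∀ z : Equiv.Perm (Fin b), (∀ a ∈ alternatingGroup (Fin b), z * a = a * z) → z = 1 := by
    intro z hz
    by_contra hne
    have hmem : z ∈ Subgroup.centralizer ((alternatingGroup (Fin b) : Subgroup (Equiv.Perm (Fin b))) :
        Set (Equiv.Perm (Fin b))) := by
      rw [Subgroup.mem_centralizer_iff]
      intro a ha
      exact (hz a ha).symm
    have hnt : Nontrivial (Subgroup.centralizer ((alternatingGroup (Fin b) :
        Subgroup (Equiv.Perm (Fin b))) : Set (Equiv.Perm (Fin b)))) :=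
      ⟨⟨z, hmem⟩, 1, fun h => hne (congrArg Subtype.val h)⟩
    have hle := Equiv.Perm.alternatingGroup_le_of_normal (α := Fin b) hcard
      (N := Subgroup.centralizer ((alternatingGroup (Fin b) :
        Subgroup (Equiv.Perm (Fin b))) : Set (Equiv.Perm (Fin b)))) hnt
    have hc : Subgroup.center (alternatingGroup (Fin b)) = ⊥ :=
      alternatingGroup.center_eq_bot (by omega)
    have hall : ∀ x : alternatingGroup (Fin b), x ∈ Subgroup.center (alternatingGroup (Fin b)) := by
      intro x
      rw [Subgroup.mem_center_iff]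
      intro y
      have h1 := hle x.2
      rw [Subgroup.mem_centralizer_iff] at h1
      exact Subtype.ext (h1 y.1 y.2)
    obtain ⟨x, y, hxy⟩ := hsimple.toNontrivial.exists_pair_ne
    have hx := hall x
    have hy := hall y
    rw [hc, Subgroup.mem_bot] at hx hy
    exact hxy (hx.trans hy.symm)
  have hN : (Z.subgroupOf (alternatingGroup (Fin b))).Normal := by
    refine ⟨fun z hz a => ?_⟩
    rw [Subgroup.mem_subgroupOf] at hz ⊢
    exact hn a.1 a.2 z.1 hz
  rcases hN.eq_bot_or_eq_top with h | h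
  · exfalso
    apply hZ
    rw [Subgroup.eq_bot_iff_forall]
    intro z hz
    apply hcent
    intro a ha
    have h1 : z * a * z⁻¹ * a⁻¹ ∈ Z := by
      have h2 : a * z⁻¹ * a⁻¹ ∈ Z := hn a ha _ (Z.inv_mem hz)
      have h3 := Z.mul_mem hz h2
      have e : z * a * z⁻¹ * a⁻¹ = z * (a * z⁻¹ * a⁻¹) := by group
      rw [e]
      exact h3
    have h4 : z * a * z⁻¹ * a⁻¹ ∈ alternatingGroup (Fin b) := by
      have h5 : (alternatingGroup (Fin b)).Normal := inferInstance
      exact (alternatingGroup (Fin b)).mul_mem (h5.conj_mem a ha z)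
        ((alternatingGroup (Fin b)).inv_mem ha)
    have h6 : (⟨z * a * z⁻¹ * a⁻¹, h4⟩ : alternatingGroup (Fin b)) ∈
        Z.subgroupOf (alternatingGroup (Fin b)) := by
      rw [Subgroup.mem_subgroupOf]
      exact h1
    rw [h, Subgroup.mem_bot] at h6
    have h7 : z * a * z⁻¹ * a⁻¹ = 1 := congrArg Subtype.val h6
    have h8 : z * a * z⁻¹ = a := by
      have := mul_inv_eq_one.1 h7
      exact this
    exact mul_inv_eq_iff_eq_mul.1 h8
  · exact Subgroup.subgroupOf_eq_top.1 h

theorem alt_of_normal40 {X : Type u} [Group X] [Finite X] (M : Subgroup X) (hM : IsMinNormal M)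
    {b : ℕ} (hb : 5 ≤ b) (θ : X →* Equiv.Perm (Fin b)) (hθ : ∃ m ∈ M, θ m ≠ 1)
    (R : Subgroup (Equiv.Perm (Fin b))) (hR : b.factorial ≤ 2 * Nat.card R)
    (hn : ∀ r ∈ R, ∀ x : X, ∃ y : X, r * θ x * r⁻¹ = θ y) : Nonempty (M ≃* A b) := by
  classical
  obtain ⟨hMn, hMb, hMmin⟩ := hM
  -- `R` contains `Alt b`
  have hRA : alternatingGroup (Fin b) ≤ R := by
    apply Equiv.Perm.alternatingGroup_le_of_index_le_two
    have h1 : Nat.card R * R.index = b.factorial := by
      rw [Subgroup.card_mul_index, Nat.card_perm, Nat.card_fin]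
    have h2 : 0 < Nat.card R := Nat.card_pos
    by_contra h3
    push Not at h3
    have h4 : Nat.card R * 3 ≤ b.factorial := by
      rw [← h1]
      exact Nat.mul_le_mul_left _ h3
    omega
  -- the image of `X`
  have hZ : alternatingGroup (Fin b) ≤ θ.range := by
    apply alt_le_of_normalized40 hb
    · intro h
      obtain ⟨m, -, hm⟩ := hθ
      apply hm
      have : θ m ∈ θ.range := ⟨m, rfl⟩
      rw [h, Subgroup.mem_bot] at this
      exact this
    · rintro a ha z ⟨x, rfl⟩
      obtain ⟨y, hy⟩ := hn a (hRA ha) x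
      exact ⟨y, hy.symm⟩
  -- the image of `M`
  have hMA : alternatingGroup (Fin b) ≤ M.map θ := by
    apply alt_le_of_normalized40 hb
    · intro h
      obtain ⟨m, hm, hm'⟩ := hθ
      apply hm'
      have : θ m ∈ M.map θ := Subgroup.mem_map_of_mem θ hm
      rw [h, Subgroup.mem_bot] at this
      exact this
    · rintro a ha z ⟨m, hm, rfl⟩
      obtain ⟨x, rfl⟩ := hZ ha
      refine ⟨x * m * x⁻¹, hMn.conj_mem m hm x, ?_⟩
      rw [map_mul, map_mul, map_inv]
  -- the kernel on `M` is trivial
  have hker : θ.ker ⊓ M = ⊥ := by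
    have hnorm : (θ.ker ⊓ M).Normal := by
      have := hMn
      exact Subgroup.normal_inf_normal θ.ker M
    rcases hMmin _ hnorm inf_le_right with h | h
    · exact h
    · exfalso
      obtain ⟨m, hm, hm'⟩ := hθ
      rw [← h] at hm
      exact hm' hm.1
  -- `M` is mapped into `Alt b`
  have hin : M.map θ ≤ alternatingGroup (Fin b) := by
    have hnorm : ((alternatingGroup (Fin b)).comap θ ⊓ M).Normal := by
      have := hMn
      have : ((alternatingGroup (Fin b)).comap θ).Normal := inferInstance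
      exact Subgroup.normal_inf_normal _ M
    rcases hMmin _ hnorm inf_le_right with h | h
    · exfalso
      have hsimple : IsSimpleGroup (alternatingGroup (Fin b)) :=
        alternatingGroup.isSimpleGroup (by rw [Nat.card_fin]; exact hb)
      obtain ⟨x, hx⟩ := exists_ne (1 : alternatingGroup (Fin b))
      obtain ⟨m, hm, hmx⟩ := hMA x.2
      have h1 : m ∈ (alternatingGroup (Fin b)).comap θ ⊓ M := by
        refine ⟨?_, hm⟩
        show θ m ∈ alternatingGroup (Fin b)
        rw [hmx]
        exact x.2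
      rw [h, Subgroup.mem_bot] at h1
      apply hx
      apply Subtype.ext
      rw [← hmx, h1, map_one]
      rfl
    · rintro z ⟨m, hm, rfl⟩
      rw [SetLike.mem_coe, ← h] at hm
      exact hm.1
  have heq : M.map θ = alternatingGroup (Fin b) := le_antisymm hin hMA
  let φ : M →* alternatingGroup (Fin b) :=
    (θ.comp M.subtype).codRestrict (alternatingGroup (Fin b)) fun m => hin ⟨m.1, m.2, rfl⟩
  refine ⟨MulEquiv.ofBijective φ ⟨?_, ?_⟩⟩
  · rw [injective_iff_map_eq_one]
    intro m hm
    have h1 : θ m.1 = 1 := congrArg Subtype.val hm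
    have h2 : m.1 ∈ θ.ker ⊓ M := ⟨h1, m.2⟩
    rw [hker, Subgroup.mem_bot] at h2
    exact Subtype.ext h2
  · intro x
    obtain ⟨m, hm, hmx⟩ := hMA x.2
    exact ⟨⟨m, hm⟩, Subtype.ext hmx⟩

end SR32
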