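import Pool.Agent.SR32.DefsP

/-!
# SR32/PSecS34: the section between `UU I` and `UU O`
-/

namespace SR32

universe u

theorem conj_map34 {H : Type u} [Group H] (φ : MulAut H) (h : H) :
    MulAut.conj (φ h) = φ * MulAut.conj h * φ⁻¹ := by
  ext y
  simp [MulAut.conj_apply, MulAut.mul_apply]

theorem mem_UU34 {H : Type u} [Group H] {a : ℕ} {D : Fin a → Subgroup (MulAut H)} {h : H} :
    h ∈ UU D ↔ ∀ i, ∀ x : MulAut H, x⁻¹ * MulAut.conj h * x ∈ D i := by
  unfold UU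
  rw [Subgroup.mem_comap, Subgroup.mem_iInf]
  refine forall_congr' fun i => ?_
  constructor
  · intro h1 x
    have h2 := h1 x⁻¹
    rw [inv_inv] at h2
    exact h2
  · intro h1 x
    have h2 := h1 x⁻¹
    rw [inv_inv] at h2
    exact h2

theorem UU_map34 {H : Type u} [Group H] {a : ℕ} (D : Fin a → Subgroup (MulAut H)) (φ : MulAut H)
    {h : H} (hh : h ∈ UU D) : φ h ∈ UU D := by
  rw [mem_UU34] at hh ⊢
  intro i x
  have h1 := hh i (φ⁻¹ * x)
  have h2 : x⁻¹ * MulAut.conj (φ h) * x = (φ⁻¹ * x)⁻¹ * MulAut.conj h * (φ⁻¹ * x) := by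
    rw [conj_map34]
    group
  rw [h2]
  exact h1

theorem UU_char34 {H : Type u} [Group H] {a : ℕ} (D : Fin a → Subgroup (MulAut H)) :
    (UU D).Characteristic := by
  rw [Subgroup.characteristic_iff_le_comap]
  intro φ h hh
  exact UU_map34 D φ hh

theorem UU_mono34 {H : Type u} [Group H] {a : ℕ} {D D' : Fin a → Subgroup (MulAut H)}
    (h : ∀ i, D i ≤ D' i) : UU D ≤ UU D' := by
  intro g hg
  rw [mem_UU34] at hg ⊢
  exact fun i x => h i (hg i x)

theorem sect_alt34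
    (halt : ∀ {X : Type u} [Group X] [Finite X] (M : Subgroup X), IsMinNormal M → ∀ {b : ℕ},
      5 ≤ b → ∀ (θ : X →* Equiv.Perm (Fin b)), (∃ m ∈ M, θ m ≠ 1) →
      ∀ (R : Subgroup (Equiv.Perm (Fin b))), b.factorial ≤ 2 * Nat.card R →
      (∀ r ∈ R, ∀ x : X, ∃ y : X, r * θ x * r⁻¹ = θ y) → Nonempty (M ≃* A b))
    {H : Type u} [Group H] [Finite H] {a : ℕ} (I O : Fin a → Subgroup (MulAut H))
    (hIO : ∀ i, I i ≤ O i) (hA : ∀ i, AltLayer (I i) (O i))
    (N : Subgroup (UU O)) [N.Normal] (hN : N = (UU I).subgroupOf (UU O))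
    (M : Subgroup (UU O ⧸ N)) (hM : IsMinNormal M) : ∃ d : ℕ, 5 ≤ d ∧ Nonempty (M ≃* A d) := by
  obtain ⟨m, hm1⟩ := (Subgroup.ne_bot_iff_exists_ne_one).1 hM.2.1
  obtain ⟨h, hh⟩ := QuotientGroup.mk_surjective m.val
  have hhN : h ∉ N := by
    intro h1
    apply hm1
    apply Subtype.ext
    rw [← hh]
    exact (QuotientGroup.eq_one_iff h).2 h1
  have hhI : h.val ∉ UU I := by
    intro h1
    apply hhN
    rw [hN, Subgroup.mem_subgroupOf]
    exact h1
  rw [mem_UU34] at hhI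
  push Not at hhI
  obtain ⟨i, x, hx⟩ := hhI
  have hOx : ∀ g : UU O, x⁻¹ * MulAut.conj g.val * x ∈ O i := fun g => mem_UU34.1 g.2 i x
  obtain ⟨ψ, hψ⟩ : ∃ ψ : UU O →* O i, ∀ g : UU O, (ψ g).val = x⁻¹ * MulAut.conj g.val * x := by
    refine ⟨{ toFun := fun g => ⟨x⁻¹ * MulAut.conj g.val * x, hOx g⟩, map_one' := ?_,
              map_mul' := ?_ }, fun g => rfl⟩
    · apply Subtype.ext
      show x⁻¹ * MulAut.conj ((1 : UU O) : H) * x = 1
      rw [Subgroup.coe_one, map_one]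
      group
    · intro g g'
      apply Subtype.ext
      show x⁻¹ * MulAut.conj ((g * g' : UU O) : H) * x =
        (x⁻¹ * MulAut.conj g.val * x) * (x⁻¹ * MulAut.conj g'.val * x)
      rw [Subgroup.coe_mul, map_mul]
      group
  have hne : ¬ I i = O i := by
    intro h1
    apply hx
    rw [h1]
    exact hOx h
  obtain ⟨hb5, hfac⟩ := (hA i).resolve_left hne
  obtain ⟨J, hJ⟩ : ∃ J, J = (I i).subgroupOf (O i) := ⟨_, rfl⟩
  rw [← hJ] at hb5 hfac
  have hfin : Finite (MulAut H) := inferInstance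
  have hfinO : Finite (O i) := inferInstance
  have hfinQ : Finite (O i ⧸ J) := inferInstance
  have e : (O i ⧸ J) ≃ Fin J.index := Finite.equivFin (O i ⧸ J)
  obtain ⟨θ0, hθ0⟩ : ∃ θ0 : O i →* Equiv.Perm (O i ⧸ J), θ0 = MulAction.toPermHom (O i) (O i ⧸ J) :=
    ⟨_, rfl⟩
  have hker0 : θ0.ker = J.normalCore := by rw [hθ0, Subgroup.normalCore_eq_ker]
  obtain ⟨θ1, hθ1⟩ : ∃ θ1 : O i →* Equiv.Perm (Fin J.index),
      θ1 = (e.permCongrHom.toMonoidHom).comp θ0 := ⟨_, rfl⟩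
  have hker1 : θ1.ker = J.normalCore := by
    rw [← hker0]
    ext o
    rw [MonoidHom.mem_ker, MonoidHom.mem_ker, hθ1]
    show e.permCongrHom (θ0 o) = 1 ↔ θ0 o = 1
    exact map_eq_one_iff _ e.permCongrHom.injective
  have hmemJ : ∀ o : O i, o ∈ J ↔ o.val ∈ I i := by
    intro o
    rw [hJ, Subgroup.mem_subgroupOf]
  have hkN : ∀ g ∈ N, (θ1.comp ψ) g = 1 := by
    intro g hg
    have hgI : g.val ∈ UU I := by
      rw [hN, Subgroup.mem_subgroupOf] at hg
      exact hg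
    have h1 : ψ g ∈ J.normalCore := by
      intro o
      rw [hmemJ]
      have h2 := mem_UU34.1 hgI i (x * o.val⁻¹)
      have h3 : (o * ψ g * o⁻¹).val = (x * o.val⁻¹)⁻¹ * MulAut.conj g.val * (x * o.val⁻¹) := by
        rw [Subgroup.coe_mul, Subgroup.coe_mul, Subgroup.coe_inv, hψ]
        group
      rw [h3]
      exact h2
    rw [← hker1] at h1
    exact h1
  refine ⟨J.index, hb5, halt M hM hb5 (QuotientGroup.lift N (θ1.comp ψ) hkN) ?_ θ1.range ?_ ?_⟩
  · refine ⟨m.val, m.2, ?_⟩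
    rw [← hh]
    intro h1
    have h2 : θ1 (ψ h) = 1 := h1
    have h3 : ψ h ∈ J.normalCore := by
      rw [← hker1]
      exact h2
    have h4 := Subgroup.normalCore_le J h3
    rw [hmemJ, hψ] at h4
    exact hx h4
  · rw [← Subgroup.index_ker, hker1]
    exact hfac
  · rintro r ⟨o, rfl⟩ q
    obtain ⟨g, rfl⟩ := QuotientGroup.mk_surjective q
    refine ⟨QuotientGroup.mk (s := N) ⟨(x * o.val * x⁻¹) g.val, UU_map34 O _ g.2⟩, ?_⟩
    show θ1 o * θ1 (ψ g) * (θ1 o)⁻¹ = θ1 (ψ ⟨(x * o.val * x⁻¹) g.val, UU_map34 O _ g.2⟩)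
    rw [← map_inv, ← map_mul, ← map_mul]
    congr 1
    apply Subtype.ext
    rw [Subgroup.coe_mul, Subgroup.coe_mul, Subgroup.coe_inv, hψ, hψ]
    show o.val * (x⁻¹ * MulAut.conj g.val * x) * o.val⁻¹ =
      x⁻¹ * MulAut.conj ((x * o.val * x⁻¹) g.val) * x
    rw [conj_map34]
    group

end SR32
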