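import Pool.Agent.SR32.DefsP
import Pool.Agent.SR32.PSecS34
import Pool.Agent.SR32.PAltS40

/-!
# SR32/PSec (STUB): the section between `UU I` and `UU O`
-/

namespace SR32

universe u

theorem UU_char {H : Type u} [Group H] {a : ℕ} (D : Fin a → Subgroup (MulAut H)) :
    (UU D).Characteristic := by
  exact UU_char34 D

theorem UU_mono {H : Type u} [Group H] {a : ℕ} {D D' : Fin a → Subgroup (MulAut H)}
    (h : ∀ i, D i ≤ D' i) : UU D ≤ UU D' := by
  exact UU_mono34 h

theorem mem_UU {H : Type u} [Group H] {a : ℕ} {D : Fin a → Subgroup (MulAut H)} {h : H} :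
    h ∈ UU D ↔ ∀ i, ∀ x : MulAut H, x⁻¹ * MulAut.conj h * x ∈ D i := by
  exact mem_UU34

/-- a subgroup `Z` of `Sym b` normalized by a group of order at least `b!/2` is trivial or has order at least `b!/2`; a group `M` that is
minimal normal in `X`, embedded in `Sym b` with normal image in such a `Z ≠ 1`, is isomorphic to `A b` -/
theorem alt_of_normal {X : Type u} [Group X] [Finite X] (M : Subgroup X) (hM : IsMinNormal M)
    {b : ℕ} (hb : 5 ≤ b) (θ : X →* Equiv.Perm (Fin b)) (hθ : ∃ m ∈ M, θ m ≠ 1)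
    (R : Subgroup (Equiv.Perm (Fin b))) (hR : b.factorial ≤ 2 * Nat.card R)
    (hn : ∀ r ∈ R, ∀ x : X, ∃ y : X, r * θ x * r⁻¹ = θ y) : Nonempty (M ≃* A b) :=
  alt_of_normal40 M hM hb θ hθ R hR hn

/-- PROOF. For `i` and `x : MulAut H` the group `UU O` acts on the cosets of `I i` in `O i` by `h ↦ x⁻¹ conj(h) x ∈ O i`; the image is normalized
by the image of `O i` (conjugation by `o` is the automorphism `x o x⁻¹` of `H`); the common kernel is `UU I`. `alt_of_normal`. -/
theorem sect_alt {H : Type u} [Group H] [Finite H] {a : ℕ} (I O : Fin a → Subgroup (MulAut H))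
    (hIO : ∀ i, I i ≤ O i) (hA : ∀ i, AltLayer (I i) (O i))
    (N : Subgroup (UU O)) [N.Normal] (hN : N = (UU I).subgroupOf (UU O))
    (M : Subgroup (UU O ⧸ N)) (hM : IsMinNormal M) : ∃ d : ℕ, 5 ≤ d ∧ Nonempty (M ≃* A d) := by
  exact sect_alt34 (fun M hM _ hb θ hθ R hR hn => alt_of_normal M hM hb θ hθ R hR hn)
    I O hIO hA N hN M hM

end SR32
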