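import Pool.Agent.SR32.PTower
import Pool.Agent.SR32.PSec
import Pool.Agent.SR32.PFac
import Pool.Agent.SR32.SFinal

/-!
# SR32/PMain: no condition on the permutation of the simple factors
-/

set_option autoImplicit false

namespace SR32

universe u

open Filter

theorem primSmall_mono {t t' : ℕ} (h : t ≤ t') {Γ : Type u} [Group Γ] (hp : PrimSmall t Γ) :
    PrimSmall t' Γ := fun M Λ hΛ hi => hp M Λ hΛ (lt_of_le_of_lt h hi)

theorem kind_mono {η : ℕ → ℕ} {t t' : ℕ} (h : t ≤ t') {S : Type u} [Group S]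
    (hk : Kind η t S) : Kind η t' S := by
  obtain ⟨h1, h2, h3⟩ := hk
  refine ⟨h1, h2, ?_⟩
  rcases h3 with h3 | h3 | h3
  · exact Or.inl (h3.trans h)
  · exact Or.inr (Or.inl h3)
  · exact Or.inr (Or.inr h3)

theorem minPowX_mono {η : ℕ → ℕ} {t t' : ℕ} (h : t ≤ t') {H : Type u} [Group H]
    (hk : MinPowX η t H) : MinPowX η t' H := by
  intro M hM
  obtain ⟨S, s, h1, h2⟩ := hk M hM
  exact ⟨S, s, kind_mono h h1, h2⟩

theorem kind_top {η : ℕ → ℕ} {t : ℕ} {X : Type u} [Group X] [Finite X] {d : ℕ} (hd : 5 ≤ d)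
    (e : X ≃* A d) : Kind η t (⊤ : Subgroup X) := by
  have e' : (⊤ : Subgroup X) ≃* A d := Subgroup.topEquiv.trans e
  have hsimple : IsSimpleGroup (A d) := alternatingGroup.isSimpleGroup (by
    rw [Nat.card_eq_fintype_card, Fintype.card_fin]; exact hd)
  have hs : IsSimpleGroup (⊤ : Subgroup X) := by
    have hnt : Nontrivial (⊤ : Subgroup X) := e'.toEquiv.nontrivial
    exact IsSimpleGroup.isSimpleGroup_of_surjective e'.symm.toMonoidHom e'.symm.surjective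
  refine ⟨hs, ?_, Or.inr (Or.inr ⟨d, hd, ⟨e'⟩⟩)⟩
  by_contra hcon
  push Not at hcon
  have hc : Subgroup.center (A d) = ⊥ := alternatingGroup.center_eq_bot (by
    rw [Nat.card_eq_fintype_card, Fintype.card_fin]
    omega)
  obtain ⟨x, hx⟩ := exists_ne (1 : A d)
  apply hx
  have hmem : x ∈ Subgroup.center (A d) := by
    rw [Subgroup.mem_center_iff]
    intro g
    have := congrArg e' (hcon (e'.symm g) (e'.symm x))
    rwa [map_mul, map_mul, MulEquiv.apply_symm_apply, MulEquiv.apply_symm_apply] at this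
  rw [hc, Subgroup.mem_bot] at hmem
  exact hmem

theorem tameX_of_alt {η : ℕ → ℕ} {t : ℕ} (ht : 1 ≤ t) {X : Type u} [Group X] [Finite X]
    (h : ∀ M : Subgroup X, IsMinNormal M → ∃ d : ℕ, 5 ≤ d ∧ Nonempty (M ≃* A d)) :
    TameX η t X := by
  right
  intro M hM
  obtain ⟨d, hd, ⟨e⟩⟩ := h M hM
  refine ⟨⊤, 1, kind_top hd e, ⟨?_⟩, Or.inl ?_⟩
  · exact (Subgroup.topEquiv (G := M)).symm.trans (MulEquiv.funUnique (Fin 1) (⊤ : Subgroup M)).symm
  · have h1 : 1 ≤ om (⊤ : Subgroup M) := om_pos _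
    exact Nat.one_le_iff_ne_zero.2 (Nat.mul_ne_zero (by omega) (pow_ne_zero _ (by omega)))

theorem lowerP (t L : ℕ) (η : ℕ → ℕ) (hη : Tendsto η atTop atTop) : ∃ c : ℝ, 0 < c ∧
    ∀ (H : Type u) [Group H] [Finite H],
      (∀ M : Subgroup H, IsMinNormal M → ∃ x ∈ M, ∃ y ∈ M, x * y ≠ y * x) →
      MinPowX η t H → PrimSmall t (MulAut H) → c * (oo H : ℝ) ^ L ≤ (om H : ℝ) := by
  classical
  set T := max t 4 with hT
  have hT4 : 4 ≤ T := le_max_right _ _
  have htT : t ≤ T := le_max_left _ _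
  obtain ⟨c1, hc1, hlow⟩ := tameX_lower.{u} T (4 * (L + 1)) η hη
  have hε : (0 : ℝ) < 1 / (8 * ((L : ℝ) + 1)) := by positivity
  obtain ⟨C, hC1, hfam⟩ := family.{u} T hT4 (1 / (8 * ((L : ℝ) + 1))) hε
  set c2 := min c1 1 with hc2
  have hc2pos : 0 < c2 := lt_min hc1 one_pos
  have hc2le : c2 ≤ 1 := min_le_right _ _
  set D := C ^ (8 * (L + 1)) / c2 ^ 2 with hD
  have hDpos : 0 < D := by positivity
  have hD1 : 1 ≤ D := by
    rw [hD, le_div_iff₀ (by positivity), one_mul]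
    exact (pow_le_one₀ hc2pos.le hc2le).trans (one_le_pow₀ hC1)
  refine ⟨1 / D, by positivity, ?_⟩
  intro H _ _ hna hmin hprim
  have hmin' : MinPowX η T H := minPowX_mono htT hmin
  have hprim' : PrimSmall T (MulAut H) := primSmall_mono htT hprim
  have hp : ∀ M : Subgroup H, IsMinNormal M →
      ∃ (S : Subgroup M) (s : ℕ), IsSimpleGroup S ∧ Nonempty (M ≃* (Fin s → S)) := by
    intro M hM
    obtain ⟨S, s, ⟨h1, _, _⟩, h2⟩ := hmin M hM
    exact ⟨S, s, h1, h2⟩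
  obtain ⟨a, Dd, hUD, hprod⟩ := exists_D hna hp
  have hfinAut : Finite (MulAut H) := Finite.of_injective (fun φ : MulAut H => (φ : H → H))
    DFunLike.coe_injective
  obtain ⟨E, I, O, hE, hDI, hIO, hEO, hEI, hdiv, hAlt⟩ := hfam (MulAut H) a Dd hprim'
  have hcharO : (UU O).Characteristic := UU_char O
  have hcharI : (UU I).Characteristic := UU_char I
  have hcharK : (KK H).Characteristic := KK_char
  have hKI : KK H ≤ UU I := by
    rw [← hUD]
    exact UU_mono hDI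
  have hIOU : UU I ≤ UU O := UU_mono hIO
  set w : ℝ := (om H : ℝ) with hw
  have hw1 : 1 ≤ w := by
    rw [hw]
    exact_mod_cast om_pos H
  -- the number of divisors of `E`
  set dE : ℝ := (E.divisors.card : ℝ) with hdE
  have hdE0 : 0 ≤ dE := Nat.cast_nonneg _
  have hdEw : dE ^ (8 * (L + 1)) ≤ C ^ (8 * (L + 1)) * w := by
    have h1 : dE ≤ C * w ^ (1 / (8 * ((L : ℝ) + 1))) := by
      refine hdiv.trans ?_
      apply mul_le_mul_of_nonneg_left _ (by linarith)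
      apply Real.rpow_le_rpow
      · exact Finset.prod_nonneg (fun i _ => Nat.cast_nonneg _)
      · rw [hw]
        exact_mod_cast hprod
      · exact hε.le
    calc dE ^ (8 * (L + 1)) ≤ (C * w ^ (1 / (8 * ((L : ℝ) + 1)))) ^ (8 * (L + 1)) :=
          pow_le_pow_left₀ hdE0 h1 _
      _ = C ^ (8 * (L + 1)) * w := by
          rw [mul_pow]
          congr 1
          rw [← Real.rpow_natCast, ← Real.rpow_mul (by linarith)]
          have : 1 / (8 * ((L : ℝ) + 1)) * ((8 * (L + 1) : ℕ) : ℝ) = 1 := by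
            push_cast
            field_simp
          rw [this, Real.rpow_one]
  -- the four factors
  have h1 : (oo (H ⧸ UU O) : ℝ) ≤ dE := by
    have : oo (H ⧸ UU O) ≤ E.divisors.card := by
      apply oo_le_div E hE
      intro g
      obtain ⟨h, rfl⟩ := QuotientGroup.mk_surjective g
      rw [← QuotientGroup.mk_pow, QuotientGroup.eq_one_iff, mem_UU]
      intro i x
      rw [map_pow]
      exact hEO i (MulAut.conj h) x
    rw [hdE]
    exact_mod_cast this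
  have h3 : (oo (UU I ⧸ (KK H).subgroupOf (UU I)) : ℝ) ≤ dE := by
    have : oo (UU I ⧸ (KK H).subgroupOf (UU I)) ≤ E.divisors.card := by
      apply oo_le_div E hE
      intro g
      obtain ⟨h, rfl⟩ := QuotientGroup.mk_surjective g
      rw [← QuotientGroup.mk_pow, QuotientGroup.eq_one_iff, Subgroup.mem_subgroupOf, ← hUD,
        mem_UU]
      intro i x
      rw [Subgroup.coe_pow, map_pow]
      exact hEI i (MulAut.conj (h : H)) (fun y => (mem_UU.1 h.2) i y) x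
    rw [hdE]
    exact_mod_cast this
  have hX : TameX η T (UU O ⧸ (UU I).subgroupOf (UU O)) := by
    apply tameX_of_alt (by omega)
    intro M hM
    exact sect_alt I O hIO hAlt ((UU I).subgroupOf (UU O)) rfl M hM
  have h2 : c2 * (oo (UU O ⧸ (UU I).subgroupOf (UU O)) : ℝ) ^ (4 * (L + 1)) ≤ w := by
    refine (mul_le_mul_of_nonneg_right (min_le_left _ _) (by positivity)).trans
      ((hlow _ hX).trans ?_)
    rw [hw]
    exact_mod_cast us_sect_le (UU I) (UU O)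
  have hK : TameX η T (KK H) := KK_tame (by omega) hna hmin'
  have h4 : c2 * (oo (KK H) : ℝ) ^ (4 * (L + 1)) ≤ w := by
    refine (mul_le_mul_of_nonneg_right (min_le_left _ _) (by positivity)).trans
      ((hlow _ hK).trans ?_)
    rw [hw]
    exact_mod_cast om_char_le (KK H)
  have h5 : (oo H : ℝ) ≤ dE * (oo (UU O ⧸ (UU I).subgroupOf (UU O)) : ℝ) * dE *
      (oo (KK H) : ℝ) := by
    have e1 : oo H ≤ oo (H ⧸ UU O) * oo (UU O) := oo_le_mul _
    have e2 : oo (UU O) ≤ oo (UU O ⧸ (UU I).subgroupOf (UU O)) * oo (UU I) := by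
      rw [← oo_congr (Subgroup.subgroupOfEquivOfLe hIOU)]
      exact oo_le_mul _
    have e3 : oo (UU I) ≤ oo (UU I ⧸ (KK H).subgroupOf (UU I)) * oo (KK H) := by
      rw [← oo_congr (Subgroup.subgroupOfEquivOfLe hKI)]
      exact oo_le_mul _
    have e4 : oo H ≤ oo (H ⧸ UU O) * (oo (UU O ⧸ (UU I).subgroupOf (UU O)) *
        (oo (UU I ⧸ (KK H).subgroupOf (UU I)) * oo (KK H))) :=
      e1.trans (Nat.mul_le_mul_left _ (e2.trans (Nat.mul_le_mul_left _ e3)))
    have e5 : (oo H : ℝ) ≤ (oo (H ⧸ UU O) : ℝ) * ((oo (UU O ⧸ (UU I).subgroupOf (UU O)) : ℝ) *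
        ((oo (UU I ⧸ (KK H).subgroupOf (UU I)) : ℝ) * (oo (KK H) : ℝ))) := by
      exact_mod_cast e4
    refine e5.trans ?_
    calc (oo (H ⧸ UU O) : ℝ) * ((oo (UU O ⧸ (UU I).subgroupOf (UU O)) : ℝ) *
        ((oo (UU I ⧸ (KK H).subgroupOf (UU I)) : ℝ) * (oo (KK H) : ℝ)))
        ≤ dE * ((oo (UU O ⧸ (UU I).subgroupOf (UU O)) : ℝ) * (dE * (oo (KK H) : ℝ))) := by
          gcongr
      _ = _ := by ring
  set x : ℝ := (oo (UU O ⧸ (UU I).subgroupOf (UU O)) : ℝ) with hx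
  set k : ℝ := (oo (KK H) : ℝ) with hk
  have hx0 : 0 ≤ x := Nat.cast_nonneg _
  have hk0 : 0 ≤ k := Nat.cast_nonneg _
  have hoo0 : (0 : ℝ) ≤ (oo H : ℝ) := Nat.cast_nonneg _
  have h6 : ((oo H : ℝ) ^ (L + 1)) ^ 4 ≤ D * w ^ 4 := by
    have h7 : x ^ (4 * (L + 1)) ≤ w / c2 := by
      rw [le_div_iff₀ hc2pos, mul_comm]
      exact h2
    have h8 : k ^ (4 * (L + 1)) ≤ w / c2 := by
      rw [le_div_iff₀ hc2pos, mul_comm]
      exact h4
    calc ((oo H : ℝ) ^ (L + 1)) ^ 4 = (oo H : ℝ) ^ (4 * (L + 1)) := by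
          rw [← pow_mul, mul_comm]
      _ ≤ (dE * x * dE * k) ^ (4 * (L + 1)) := pow_le_pow_left₀ hoo0 h5 _
      _ = dE ^ (8 * (L + 1)) * (x ^ (4 * (L + 1)) * k ^ (4 * (L + 1))) := by
          rw [mul_pow, mul_pow, mul_pow]
          have : dE ^ (8 * (L + 1)) = dE ^ (4 * (L + 1)) * dE ^ (4 * (L + 1)) := by
            rw [← pow_add]
            congr 1
            ring
          rw [this]
          ring
      _ ≤ (C ^ (8 * (L + 1)) * w) * ((w / c2) * (w / c2)) := by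
          apply mul_le_mul hdEw _ (by positivity) (by positivity)
          exact mul_le_mul h7 h8 (by positivity) (by positivity)
      _ = D * w ^ 3 := by
          rw [hD]
          field_simp
      _ ≤ D * w ^ 4 := by
          apply mul_le_mul_of_nonneg_left _ hDpos.le
          exact pow_le_pow_right₀ hw1 (by norm_num)
  have h9 : (oo H : ℝ) ^ (L + 1) ≤ D * w := by
    have h10 : ((oo H : ℝ) ^ (L + 1)) ^ 4 ≤ (D * w) ^ 4 := by
      refine h6.trans ?_
      rw [mul_pow]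
      apply mul_le_mul_of_nonneg_right _ (by positivity)
      exact le_self_pow₀ hD1 (by norm_num)
    exact le_of_pow_le_pow_left₀ (by norm_num) (by positivity) h10
  have hoo1 : (1 : ℝ) ≤ (oo H : ℝ) := by exact_mod_cast oo_pos H
  calc 1 / D * (oo H : ℝ) ^ L ≤ 1 / D * (oo H : ℝ) ^ (L + 1) := by
        apply mul_le_mul_of_nonneg_left _ (by positivity)
        exact pow_le_pow_right₀ hoo1 (Nat.le_succ _)
    _ ≤ 1 / D * (D * w) := mul_le_mul_of_nonneg_left h9 (by positivity)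
    _ = w := by
        field_simp

theorem main_boundP (t : ℕ) (η : ℕ → ℕ) (hη : Tendsto η atTop atTop) : ∃ B : ℕ → ℕ → ℕ,
    ∀ (G : Type u) [Group G] [Finite G] [Nontrivial G],
    MinPowX η t (G ⧸ Rad G) → PrimSmall t (MulAut (G ⧸ Rad G)) →
    ∀ L m : ℕ, ll G ≤ L → oo (Rad G) ≤ m → Nat.card (G ⧸ Rad G) ≤ B L m := by
  classical
  choose c hc0 hc using fun L => lowerP.{u} t L η hη
  choose B hB using fun Ω => ybound_of_om.{u} η Ω t
  refine ⟨fun L m => B ((m * ⌈(m : ℝ) ^ L / c (L + 1)⌉₊) ^ L), ?_⟩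
  intro G _ _ _ hmin hprim L m hL hm
  have hna : ∀ M : Subgroup (G ⧸ Rad G), IsMinNormal M → ∃ x ∈ M, ∃ y ∈ M, x * y ≠ y * x :=
    fun M hM => minNormal_nonab M hM
  apply hB _ (G ⧸ Rad G) hna (minPowY_of_X hmin)
  set H := G ⧸ Rad G with hH
  have h1 : om H ≤ (m * oo H) ^ L := by
    calc om H ≤ om G := om_quot_le _
      _ ≤ oo G ^ L := om_le_pow L hL
      _ ≤ (oo (G ⧸ Rad G) * oo (Rad G)) ^ L := Nat.pow_le_pow_left (oo_le_mul _) L
      _ ≤ (m * oo H) ^ L := by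
        apply Nat.pow_le_pow_left
        rw [mul_comm m]
        exact Nat.mul_le_mul_left _ hm
  have h2 := hc (L + 1) H hna hmin hprim
  have hooH : (0 : ℝ) < (oo H : ℝ) := by exact_mod_cast oo_pos H
  have hcp : (0 : ℝ) < c (L + 1) := hc0 _
  have h3 : (om H : ℝ) ≤ ((m : ℝ) * oo H) ^ L := by exact_mod_cast h1
  have h4 : c (L + 1) * (oo H : ℝ) ≤ (m : ℝ) ^ L := by
    have h5 : c (L + 1) * (oo H : ℝ) ^ (L + 1) ≤ (m : ℝ) ^ L * (oo H : ℝ) ^ L := by
      rw [← mul_pow]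
      exact h2.trans h3
    rw [pow_succ, ← mul_assoc, mul_right_comm] at h5
    exact le_of_mul_le_mul_right h5 (pow_pos hooH _)
  have h5 : oo H ≤ ⌈(m : ℝ) ^ L / c (L + 1)⌉₊ := by
    have h6 : (oo H : ℝ) ≤ (m : ℝ) ^ L / c (L + 1) := by
      rw [le_div_iff₀ hcp, mul_comm]
      exact h4
    exact_mod_cast h6.trans (Nat.le_ceil _)
  exact h1.trans (Nat.pow_le_pow_left (Nat.mul_le_mul_left m h5) L)

theorem finalP (t : ℕ) (η : ℕ → ℕ) (hη : Tendsto η atTop atTop) : ∃ f : ℝ → ℝ → ℝ,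
    (∀ x y, 1 ≤ x → 1 ≤ y → 1 ≤ f x y) ∧ (∀ y, StrictMono (fun x => f x y)) ∧
    (∀ x, StrictMono (fun y => f x y)) ∧
    ∀ (G : Type u) [Group G] [Finite G] [Nontrivial G],
      MinPowX η t (G ⧸ Rad G) → PrimSmall t (MulAut (G ⧸ Rad G)) →
      ((Rad G).index : ℝ) ≤ f (ll G) (oo (Rad G)) := by
  obtain ⟨B, hB⟩ := main_boundP.{u} t η hη
  obtain ⟨f, h1, h2, h3, h4⟩ := exists_mono B
  refine ⟨f, h1, h2, h3, ?_⟩
  intro G _ _ _ hmin hprim
  have h5 := hB G hmin hprim ⌈ll G⌉₊ ⌈((oo (Rad G) : ℕ) : ℝ)⌉₊ (Nat.le_ceil _) (by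
    rw [Nat.ceil_natCast])
  have h6 := h4 (ll G) (oo (Rad G)) (ll_nonneg G) (Nat.cast_nonneg _)
  have h7 : ((Rad G).index : ℝ) ≤ (B ⌈ll G⌉₊ ⌈((oo (Rad G) : ℕ) : ℝ)⌉₊ : ℝ) := by
    exact_mod_cast h5
  exact h7.trans h6

end SR32
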