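import Pool.Agent.SR32.DefsFF
import Pool.Agent.SR32.UCenter
import Pool.Agent.SR32.USupp
import Pool.Agent.SR32.WEnum

/-!
# SR32/FFMinS14: nonabelian minimal normal subgroups are powers of simple groups (helper14)
-/

set_option autoImplicit false

namespace SR32

universe u

theorem ff14_min_pow {X : Type u} [Group X] [Finite X] (M : Subgroup X) (hM : IsMinNormal M)
    (hna : ∃ x ∈ M, ∃ y ∈ M, x * y ≠ y * x) :
    ∃ (S : Subgroup M) (s : ℕ), IsSimpleGroup S ∧ (∃ x y : S, x * y ≠ y * x) ∧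
      Nonempty (M ≃* (Fin s → S)) := by
  classical
  have hMn : M.Normal := hM.1
  have hMnt : (⊤ : Subgroup M) ≠ ⊥ := by
    intro h
    apply hM.2.1
    rw [Subgroup.eq_bot_iff_forall]
    intro x hx
    have h1 : (⟨x, hx⟩ : M) ∈ (⊤ : Subgroup M) := Subgroup.mem_top _
    rw [h, Subgroup.mem_bot] at h1
    exact congrArg Subtype.val h1
  obtain ⟨S, -, hS⟩ := exists_minNormal_le (⊤ : Subgroup M) inferInstance hMnt
  let cj : X → (M ≃* M) := fun x => (MulAut.conjNormal x : MulAut M)
  have hcj : ∀ (x : X) (m : M), ((cj x m : M) : X) = x * m * x⁻¹ := fun x m =>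
    MulAut.conjNormal_apply x m
  let C : Set (Subgroup M) := {K | ∃ x : X, K = S.map (cj x).toMonoidHom}
  have hCmin : ∀ K ∈ C, IsMinNormal K := by
    rintro K ⟨x, rfl⟩
    exact st_map_min _ hS
  have hSC : S ∈ C := by
    refine ⟨1, ?_⟩
    ext m
    constructor
    · intro hm
      refine ⟨m, hm, ?_⟩
      apply Subtype.ext
      show ((cj 1 m : M) : X) = m
      rw [hcj]
      group
    · rintro ⟨n, hn, rfl⟩
      have h1 : (cj 1).toMonoidHom n = n := by
        apply Subtype.ext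
        show ((cj 1 n : M) : X) = n
        rw [hcj]
        group
      rw [h1]
      exact hn
  have hCmap : ∀ K ∈ C, ∀ x : X, K.map (cj x).toMonoidHom ∈ C := by
    rintro K ⟨y, rfl⟩ x
    refine ⟨x * y, ?_⟩
    rw [Subgroup.map_map]
    congr 1
    ext m
    show ((cj x (cj y m) : M) : X) = ((cj (x * y) m : M) : X)
    rw [hcj, hcj, hcj]
    group
  have hcomm : ∀ K ∈ C, ∀ L ∈ C, K ≠ L → ∀ x ∈ K, ∀ y ∈ L, x * y = y * x :=
    fun K hK L hL hne x hx y hy => usupp_commute (hCmin K hK) (hCmin L hL) hne hx hy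
  -- the conjugates generate `M`
  have htop : (⨆ K : C, K.1) = (⊤ : Subgroup M) := by
    have hinv : ∀ x : X, (⨆ K : C, K.1).map (cj x).toMonoidHom ≤ (⨆ K : C, K.1) := by
      intro x
      rw [Subgroup.map_iSup]
      apply iSup_le
      intro K
      exact le_iSup (fun K : C => K.1) ⟨_, hCmap K.1 K.2 x⟩
    have hWn : ((⨆ K : C, K.1).map M.subtype).Normal := by
      constructor
      rintro _ ⟨m, hm, rfl⟩ x
      refine ⟨cj x m, hinv x ⟨m, hm, rfl⟩, ?_⟩
      exact hcj x m
    rcases hM.2.2 _ hWn (Subgroup.map_subtype_le _) with h | h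
    · exfalso
      apply hS.2.1
      rw [Subgroup.map_eq_bot_iff_of_injective _ M.subtype_injective] at h
      rw [eq_bot_iff, ← h]
      exact le_iSup (fun K : C => K.1) ⟨S, hSC⟩
    · rw [eq_top_iff]
      intro m _
      have h1 : (m : X) ∈ (⨆ K : C, K.1).map M.subtype := by rw [h]; exact m.2
      obtain ⟨n, hn, hnm⟩ := h1
      have h2 : n = m := Subtype.ext hnm
      rw [← h2]
      exact hn
  -- `S` is not abelian
  have hSna : ∃ x ∈ S, ∃ y ∈ S, x * y ≠ y * x := by
    by_contra hcon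
    push Not at hcon
    apply hS.2.1
    rw [Subgroup.eq_bot_iff_forall]
    intro z hz
    have h1 : (⨆ K : C, K.1) ≤ Subgroup.centralizer {z} := by
      apply iSup_le
      intro K y hy
      rw [Subgroup.mem_centralizer_singleton_iff]
      by_cases h : K.1 = S
      · rw [h] at hy
        exact hcon y hy z hz
      · exact hcomm K.1 K.2 S hSC h y hy z hz
    rw [htop] at h1
    have h2 := center_of_minNormal M hM hna z z.2 fun y hy => by
      have h3 := h1 (Subgroup.mem_top (⟨y, hy⟩ : M))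
      rw [Subgroup.mem_centralizer_singleton_iff] at h3
      exact (congrArg Subtype.val h3).symm
    exact Subtype.ext h2
  have hCna : ∀ K ∈ C, ∃ x ∈ K, ∃ y ∈ K, x * y ≠ y * x := by
    rintro K ⟨g, rfl⟩
    obtain ⟨x, hx, y, hy, hxy⟩ := hSna
    refine ⟨cj g x, ⟨x, hx, rfl⟩, cj g y, ⟨y, hy, rfl⟩, fun h => hxy ?_⟩
    rw [← map_mul, ← map_mul] at h
    exact (cj g).injective h
  -- `S` is simple
  have hsimple : IsSimpleGroup S := by
    have hnt : Nontrivial S := by
      obtain ⟨x, hx, y, hy, hxy⟩ := hSna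
      refine ⟨⟨x, hx⟩, ⟨y, hy⟩, fun h => hxy ?_⟩
      have h1 : x = y := congrArg Subtype.val h
      rw [h1]
    refine ⟨fun N hN => ?_⟩
    have key : ∀ K ∈ C, ∀ y ∈ K, ∀ h ∈ N.map S.subtype, y * h * y⁻¹ ∈ N.map S.subtype := by
      rintro K hK y hy _ ⟨n, hn, rfl⟩
      by_cases h : K = S
      · rw [h] at hy
        exact ⟨⟨y, hy⟩ * n * ⟨y, hy⟩⁻¹, hN.conj_mem n hn ⟨y, hy⟩, rfl⟩
      · have h1 : y * S.subtype n = S.subtype n * y := hcomm K hK S hSC h y hy _ n.2
        rw [h1, mul_inv_cancel_right]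
        exact ⟨n, hn, rfl⟩
    have hN' : (N.map S.subtype).Normal := by
      rw [← Subgroup.normalizer_eq_top_iff, eq_top_iff, ← htop]
      apply iSup_le
      intro K y hy
      rw [Subgroup.mem_normalizer_iff]
      intro h
      refine ⟨key K.1 K.2 y hy h, fun h1 => ?_⟩
      have h2 := key K.1 K.2 y⁻¹ (K.1.inv_mem hy) _ h1
      have h3 : y⁻¹ * (y * h * y⁻¹) * y⁻¹⁻¹ = h := by group
      rwa [h3] at h2
    rcases hS.2.2 _ hN' (Subgroup.map_subtype_le N) with h | h
    · left
      rwa [Subgroup.map_eq_bot_iff_of_injective _ S.subtype_injective] at h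
    · right
      rw [eq_top_iff]
      intro m _
      have h1 : (m : M) ∈ N.map S.subtype := by rw [h]; exact m.2
      obtain ⟨n, hn, hnm⟩ := h1
      have h2 : n = m := Subtype.ext hnm
      rw [← h2]
      exact hn
  -- the isomorphism
  have hcomm' : Pairwise fun i j : C => ∀ x y : M, x ∈ i.1 → y ∈ j.1 → Commute x y := by
    intro i j hij x y hx hy
    exact hcomm i.1 i.2 j.1 j.2 (fun h => hij (Subtype.ext h)) x hx y hy
  let hft : Fintype C := Fintype.ofFinite C
  let f : (∀ K : C, K.1) →* M := Subgroup.noncommPiCoprod hcomm'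
  have hf : ∀ (j : C) (y : j.1), f (Pi.mulSingle j y) = (y : M) := fun j y =>
    Subgroup.noncommPiCoprod_mulSingle j y
  have hinj : Function.Injective f := by
    rw [injective_iff_map_eq_one]
    intro x hx
    funext j
    apply Subtype.ext
    apply center_of_minNormal j.1 (hCmin j.1 j.2) (hCna j.1 j.2) (x j) (x j).2
    intro y hy
    have h1 : f (x * Pi.mulSingle j ⟨y, hy⟩ * x⁻¹) = y := by
      rw [map_mul, map_mul, map_inv, hx, hf]
      group
    rw [perm_conj_single, hf] at h1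
    have h2 : (x j : M) * y * (x j : M)⁻¹ = y := h1
    calc (x j : M) * y = (x j : M) * y * (x j : M)⁻¹ * x j := by group
      _ = y * x j := by rw [h2]
  have hsurj : Function.Surjective f := by
    rw [← MonoidHom.range_eq_top]
    exact (Subgroup.noncommPiCoprod_range).trans htop
  have hiso : ∀ K : C, Nonempty (K.1 ≃* S) := by
    rintro ⟨K, g, rfl⟩
    exact ⟨((cj g).subgroupMap S).symm⟩
  let e1 : (∀ K : C, K.1) ≃* M := MulEquiv.ofBijective f ⟨hinj, hsurj⟩
  let e2 : (∀ K : C, K.1) ≃* (C → S) := MulEquiv.piCongrRight fun K => (hiso K).some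
  obtain ⟨n, ⟨ν⟩⟩ := Finite.exists_equiv_fin C
  let e3 : (C → S) ≃* (Fin n → S) := MulEquiv.arrowCongr ν (MulEquiv.refl S)
  obtain ⟨x, hx, y, hy, hxy⟩ := hSna
  exact ⟨S, n, hsimple, ⟨⟨x, hx⟩, ⟨y, hy⟩, fun h => hxy (congrArg Subtype.val h)⟩,
    ⟨(e1.symm.trans e2).trans e3⟩⟩

end SR32
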