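import Pool.Agent.SR32.DefsFF
import Pool.Agent.SR32.UCenter
import Pool.Agent.SR32.Quot
import Pool.Agent.SR32.FFMinS14

/-!
# SR32/FFMinB: sections of `Aut H`
-/

namespace SR32

universe u

theorem powSec_of_kindSec_of
    (hmin : ∀ {X : Type u} [Group X] [Finite X] (M : Subgroup X), IsMinNormal M →
      (∃ x ∈ M, ∃ y ∈ M, x * y ≠ y * x) →
      ∃ (S : Subgroup M) (s : ℕ), IsSimpleGroup S ∧ (∃ x y : S, x * y ≠ y * x) ∧
        Nonempty (M ≃* (Fin s → S)))
    (hcongr : ∀ {η : ℕ → ℕ} {t : ℕ} {S S' : Type u} [Group S] [Group S'] (_ : S ≃* S'),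
      Kind η t S → Kind η t S')
    {η : ℕ → ℕ} {t : ℕ} {Γ : Type u} [Group Γ] [Finite Γ]
    (h : KindSec η t Γ) : PowSec η t Γ := by
  intro X _ K f hf M hM hna
  have hX : Finite X := Finite.of_surjective f hf
  obtain ⟨S, s, hS, ⟨x, y, hxy⟩, he⟩ := hmin M hM hna
  refine ⟨S, s, ?_, he⟩
  -- `S` as a subgroup of `X`, its preimage in `K`, and the preimage as a subgroup of `Γ`
  let S' : Subgroup X := S.map M.subtype
  let e2 : S ≃* S' := S.equivMapOfInjective M.subtype M.subtype_injective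
  let K' : Subgroup K := S'.comap f
  let K'' : Subgroup Γ := K'.map K.subtype
  let e1 : K' ≃* K'' := K'.equivMapOfInjective K.subtype K.subtype_injective
  let g0 : K' →* S' := f.subgroupComap S'
  have hg0 : Function.Surjective g0 := f.subgroupComap_surjective_of_surjective S' hf
  let g : K'' →* S := (e2.symm.toMonoidHom.comp g0).comp e1.symm.toMonoidHom
  have hg : Function.Surjective g :=
    (e2.symm.surjective.comp hg0).comp e1.symm.surjective
  let q : K'' ⧸ g.ker ≃* S := QuotientGroup.quotientKerEquivOfSurjective g hg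
  apply hcongr q
  apply h K'' g.ker
  · have : Nontrivial (K'' ⧸ g.ker) := q.toEquiv.nontrivial
    exact IsSimpleGroup.isSimpleGroup_of_surjective q.symm.toMonoidHom q.symm.surjective
  · refine ⟨q.symm x, q.symm y, ?_⟩
    intro hcon
    apply hxy
    rw [← map_mul, ← map_mul] at hcon
    exact q.symm.injective hcon

theorem kind_congr60 {η : ℕ → ℕ} {t : ℕ} {S S' : Type u} [Group S] [Group S'] (e : S ≃* S')
    (h : Kind η t S) : Kind η t S' := by
  have hs : IsSimpleGroup S → IsSimpleGroup S' := by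
    intro h1
    have : Nontrivial S' := e.symm.toEquiv.nontrivial
    exact IsSimpleGroup.isSimpleGroup_of_surjective e.toMonoidHom e.surjective
  have hna : (∃ x y : S, x * y ≠ y * x) → ∃ x y : S', x * y ≠ y * x := by
    rintro ⟨x, y, hxy⟩
    refine ⟨e x, e y, fun h => hxy ?_⟩
    apply e.injective
    rw [map_mul, map_mul, h]
  obtain ⟨h1, h2, h3⟩ := h
  refine ⟨hs h1, hna h2, ?_⟩
  rcases h3 with h3 | ⟨-, -, h3, h4⟩ | ⟨d, hd, ⟨e'⟩⟩
  · left
    rwa [← Nat.card_congr e.toEquiv]
  · refine Or.inr (Or.inl ⟨hs h1, hna h2, ?_, ?_⟩)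
    · rw [← oo_congr (MulAut.congr e), ← om_congr e]
      exact h3
    · rw [← Nat.card_congr (MulAut.congr e).toEquiv, ← om_congr e]
      exact h4
  · exact Or.inr (Or.inr ⟨d, hd, ⟨e.symm.trans e'⟩⟩)

theorem powSec_of_kindSec {η : ℕ → ℕ} {t : ℕ} {Γ : Type u} [Group Γ] [Finite Γ]
    (h : KindSec η t Γ) : PowSec η t Γ :=
  powSec_of_kindSec_of (fun M hM hna => ff14_min_pow M hM hna) (fun e h => kind_congr60 e h) h

/-- `H` embeds in its automorphism group -/
theorem minPowX_of_powSec {η : ℕ → ℕ} {t : ℕ} {H : Type u} [Group H] [Finite H]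
    (hna : ∀ M : Subgroup H, IsMinNormal M → ∃ x ∈ M, ∃ y ∈ M, x * y ≠ y * x)
    (h : PowSec η t (MulAut H)) : MinPowX η t H := by
  intro M hM
  have hinj : Function.Injective (MulAut.conj : H →* MulAut H) := by
    rw [injective_iff_map_eq_one]
    intro z hz
    apply eq_one_of_centralize hna
    intro K _ y _
    have h1 : (MulAut.conj z) y = y := by rw [hz]; rfl
    rw [MulAut.conj_apply] at h1
    calc z * y = z * y * z⁻¹ * z := by group
      _ = y * z := by rw [h1]
  let e : H ≃* (MulAut.conj : H →* MulAut H).range := MonoidHom.ofInjective hinj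
  exact h H (MulAut.conj : H →* MulAut H).range e.symm.toMonoidHom e.symm.surjective M hM
    (hna M hM)

end SR32
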