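import Pool.Agent.SR32.FFMinS14
import Pool.Agent.SR32.FFMinB
import Pool.Agent.SR32.FFKind

/-!
# SR32/FFMin: nonabelian minimal normal subgroups are powers of simple groups
-/

set_option autoImplicit false

namespace SR32

universe u

/-- nonabelian minimal normal subgroups are powers of simple groups -/
theorem min_pow {X : Type u} [Group X] [Finite X] (M : Subgroup X) (hM : IsMinNormal M)
    (hna : ∃ x ∈ M, ∃ y ∈ M, x * y ≠ y * x) :
    ∃ (S : Subgroup M) (s : ℕ), IsSimpleGroup S ∧ (∃ x y : S, x * y ≠ y * x) ∧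
      Nonempty (M ≃* (Fin s → S)) :=
  ff14_min_pow M hM hna

theorem powSec_of_kindSec {η : ℕ → ℕ} {t : ℕ} {Γ : Type u} [Group Γ] [Finite Γ]
    (h : KindSec η t Γ) : PowSec η t Γ :=
  powSec_of_kindSec_of min_pow kind_congr h

end SR32
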