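import Pool.Agent.SR32.DefsP
import Pool.Agent.SR32.ExcCore

/-!
# SR32/PGrowS3: growth of the number of colourings in one step
-/

namespace SR32.PGrowS3

open SR32

theorem mc_self (n : ℕ) : 2 ^ n ≤ Nat.multichoose (n + 1) (n + 1) := by
  induction n with
  | zero => simp
  | succ n ih =>
    rw [Nat.multichoose_succ_succ, pow_succ]
    have h1 : Nat.multichoose (n + 1) (n + 1) ≤ Nat.multichoose (n + 1) (n + 1 + 1) :=
      exc_W_mono_right (by omega) (by omega)
    have h2 : Nat.multichoose (n + 1) (n + 1) ≤ Nat.multichoose (n + 1 + 1) (n + 1) :=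
      exc_W_mono_left (by omega) (n + 1)
    omega

theorem mc_self' {n : ℕ} (hn : 1 ≤ n) : 2 ^ (n - 1) ≤ Nat.multichoose n n := by
  have h := mc_self (n - 1)
  rwa [show n - 1 + 1 = n by omega] at h

theorem grow {t b v v' k : ℕ} (hb : 2 ≤ b) (hv' : 3 ≤ v') (h1 : Nat.multichoose v' b ≤ v)
    (h2 : v' ^ b ≤ v * k) (h3 : t < b → k ≤ 2 ^ b ∨ b.factorial ≤ 2 * k) :
    3 / 2 * Real.log v' ≤ Real.log v ∧
      ((b : ℝ) / 3 ≤ Real.log v ∨ b ≤ t ∨
        (t < b ∧ b.factorial ≤ 2 * k ∧ ((v' : ℝ) - 1) * Real.log 2 ≤ Real.log v)) := by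
  have hv'r : (3 : ℝ) ≤ v' := by exact_mod_cast hv'
  have hv'0 : (0 : ℝ) < v' := by linarith
  have hl := Real.log_two_gt_d9
  have hmc : 1 ≤ Nat.multichoose v' b := by
    have := exc_W_mono_right (w := v') (by omega) (Nat.zero_le b)
    rwa [Nat.multichoose_zero_right] at this
  have hv1 : 1 ≤ v := hmc.trans h1
  have hv0 : (0 : ℝ) < v := by exact_mod_cast hv1
  have hb2r : (2 : ℝ) ≤ b := by exact_mod_cast hb
  refine ⟨?_, ?_⟩
  · -- `v' ^ (3/2) ≤ v' (v' + 1) / 2 ≤ v`
    have h4 : Nat.multichoose v' 2 ≤ v := (exc_W_mono_right (by omega) hb).trans h1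
    have h5 : v' * (v' + 1) ≤ 2 * v := by
      have e1 : Nat.multichoose v' 2 = (v' + 1).choose 2 := by
        rw [Nat.multichoose_eq]
        rfl
      have e2 := Nat.choose_two_right (v' + 1)
      have e3 : (v' + 1) * (v' + 1 - 1) / 2 * 2 = (v' + 1) * (v' + 1 - 1) :=
        Nat.div_mul_cancel (Nat.even_mul_pred_self (v' + 1)).two_dvd
      rw [← e2, ← e1, Nat.add_sub_cancel] at e3
      nlinarith
    have h6 : (v' : ℝ) * (v' + 1) ≤ 2 * v := by exact_mod_cast h5
    have h7 : (v' : ℝ) ^ 3 ≤ (v : ℝ) ^ 2 := by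
      have h8 : 4 * (v' : ℝ) ≤ (v' + 1) ^ 2 := by nlinarith [sq_nonneg ((v' : ℝ) - 1)]
      have h9 : ((v' : ℝ) * (v' + 1)) ^ 2 ≤ (2 * v) ^ 2 :=
        pow_le_pow_left₀ (by positivity) h6 2
      nlinarith
    have h10 := Real.log_le_log (by positivity) h7
    rw [Real.log_pow, Real.log_pow] at h10
    push_cast at h10
    linarith
  · rcases Nat.lt_or_ge t b with htb | htb
    · rcases h3 htb with h4 | h4
      · -- small order
        left
        have h5 : (v' : ℝ) ^ b ≤ v * 2 ^ b := by
          have : v' ^ b ≤ v * 2 ^ b := h2.trans (Nat.mul_le_mul_left _ h4)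
          exact_mod_cast this
        have h6 := Real.log_le_log (by positivity) h5
        rw [Real.log_mul hv0.ne' (by positivity), Real.log_pow, Real.log_pow] at h6
        have h7 : Real.log 3 ≤ Real.log v' := Real.log_le_log (by norm_num) hv'r
        have h8 : Real.log 2 + 1 / 3 ≤ Real.log 3 := by
          have h9 : Real.log 3 = Real.log 2 + Real.log (3 / 2) := by
            rw [← Real.log_mul (by norm_num) (by norm_num)]
            norm_num
          have h10 : (1 : ℝ) / 3 ≤ Real.log (3 / 2) := by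
            have := Real.one_sub_inv_le_log_of_pos (show (0 : ℝ) < 3 / 2 by norm_num)
            norm_num at this
            linarith
          linarith
        have h11 : (b : ℝ) * (Real.log 2 + 1 / 3) ≤ b * Real.log v' :=
          mul_le_mul_of_nonneg_left (h8.trans h7) (by linarith)
        linarith
      · rcases Nat.lt_or_ge v' b with hvb | hvb
        · right; right
          refine ⟨htb, h4, ?_⟩
          have h5 : 2 ^ (v' - 1) ≤ v :=
            ((mc_self' (by omega)).trans (exc_W_mono_right (by omega) hvb.le)).trans h1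
          have h6 : (2 : ℝ) ^ (v' - 1) ≤ v := by exact_mod_cast h5
          have h7 := Real.log_le_log (by positivity) h6
          rw [Real.log_pow, Nat.cast_sub (by omega)] at h7
          simpa using h7
        · left
          have h5 : 2 ^ (b - 1) ≤ v :=
            ((mc_self' (by omega)).trans (exc_W_mono_left hvb b)).trans h1
          have h6 : (2 : ℝ) ^ (b - 1) ≤ v := by exact_mod_cast h5
          have h7 := Real.log_le_log (by positivity) h6
          rw [Real.log_pow, Nat.cast_sub (by omega)] at h7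
          have h8 : ((b : ℝ) - 1) * Real.log 2 ≤ Real.log v := by simpa using h7
          nlinarith
    · right; left
      exact htb

end SR32.PGrowS3
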