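import Pool.Agent.SR32.DefsFF
import Pool.Agent.SR32.PGrowS3

/-!
# SR32/FFNum: numerical lemmas
-/

set_option autoImplicit false

namespace SR32

universe u

/-- `grow` (PGrowS3) with `2 ^ b < k` in place of `b! ≤ 2 k` -/
theorem growF {b v v' k : ℕ} (hb : 2 ≤ b) (hv' : 3 ≤ v') (h1 : Nat.multichoose v' b ≤ v)
    (h2 : v' ^ b ≤ v * k) :
    3 / 2 * Real.log v' ≤ Real.log v ∧
      ((b : ℝ) / 3 ≤ Real.log v ∨
        (2 ^ b < k ∧ ((v' : ℝ) - 1) * Real.log 2 ≤ Real.log v)) := by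
  have hv'r : (3 : ℝ) ≤ v' := by exact_mod_cast hv'
  have hl := Real.log_two_gt_d9
  have hmc : 1 ≤ Nat.multichoose v' b := by
    have := exc_W_mono_right (w := v') (by omega) (Nat.zero_le b)
    rwa [Nat.multichoose_zero_right] at this
  have hv1 : 1 ≤ v := hmc.trans h1
  have hv0 : (0 : ℝ) < v := by exact_mod_cast hv1
  have hb2r : (2 : ℝ) ≤ b := by exact_mod_cast hb
  refine ⟨?_, ?_⟩
  · exact (PGrowS3.grow (t := b) hb hv' h1 h2 (fun h => absurd h (lt_irrefl _))).1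
  · rcases Nat.lt_or_ge (2 ^ b) k with h4 | h4
    · rcases Nat.lt_or_ge v' b with hvb | hvb
      · right
        refine ⟨h4, ?_⟩
        have h5 : 2 ^ (v' - 1) ≤ v :=
          ((PGrowS3.mc_self' (by omega)).trans (exc_W_mono_right (by omega) hvb.le)).trans h1
        have h6 : (2 : ℝ) ^ (v' - 1) ≤ v := by exact_mod_cast h5
        have h7 := Real.log_le_log (by positivity) h6
        rw [Real.log_pow, Nat.cast_sub (by omega)] at h7
        simpa using h7
      · left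
        have h5 : 2 ^ (b - 1) ≤ v :=
          ((PGrowS3.mc_self' (by omega)).trans (exc_W_mono_left hvb b)).trans h1
        have h6 : (2 : ℝ) ^ (b - 1) ≤ v := by exact_mod_cast h5
        have h7 := Real.log_le_log (by positivity) h6
        rw [Real.log_pow, Nat.cast_sub (by omega)] at h7
        have h8 : ((b : ℝ) - 1) * Real.log 2 ≤ Real.log v := by simpa using h7
        nlinarith
    · left
      have h5 : (v' : ℝ) ^ b ≤ v * 2 ^ b := by
        have : v' ^ b ≤ v * 2 ^ b := h2.trans (Nat.mul_le_mul_left _ h4)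
        exact_mod_cast this
      have hv'0 : (0 : ℝ) < v' := by linarith
      have h6 := Real.log_le_log (by positivity) h5
      rw [Real.log_mul hv0.ne' (by positivity), Real.log_pow, Real.log_pow] at h6
      have h7 : Real.log 3 ≤ Real.log v' := Real.log_le_log (by norm_num) hv'r
      have h8 : Real.log 2 + 1 / 3 ≤ Real.log 3 := by
        have h9 : Real.log 3 = Real.log 2 + Real.log (3 / 2) := by
          rw [← Real.log_mul (by norm_num) (by norm_num)]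
          norm_num
        have h10 : (1 : ℝ) / 3 ≤ Real.log (3 / 2) := by
          have := Real.one_sub_inv_le_log_of_pos (show (0 : ℝ) < 3 / 2 by norm_num)
          norm_num at this
          linarith
        linarith
      have h11 : (b : ℝ) * (Real.log 2 + 1 / 3) ≤ b * Real.log v' :=
        mul_le_mul_of_nonneg_left (h8.trans h7) (by linarith)
      linarith

theorem num_cube {m : ℕ} (hm : 20 ≤ m) : 30 * m ^ 3 ≤ 2 ^ m := by
  induction m, hm using Nat.le_induction with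
  | base => norm_num
  | succ m hm ih =>
    rw [pow_succ 2 m]
    have h1 : (m + 1) ^ 3 ≤ 2 * m ^ 3 := by
      have h2 : 20 * m ^ 2 ≤ m ^ 3 := by
        rw [pow_succ m 2, mul_comm (m ^ 2)]
        exact Nat.mul_le_mul_right _ hm
      nlinarith
    omega

/-- as `num_big`, with the weaker condition `2 ^ n ≤ b ^ 2` -/
theorem num_big2 (K1 : ℕ) : ∃ t1 : ℕ, ∀ b n w c : ℕ, t1 < b → 2 ^ n ≤ b ^ 2 →
    c < 2 ^ (K1 + w ^ 4) → 2 ^ b < b * (c ^ n * n.factorial) → n ≤ w ^ 2 := by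
  refine ⟨2 ^ (K1 + 20), fun b n w c hb hn hc hlt => ?_⟩
  by_contra hcon
  push Not at hcon
  set l := Nat.log 2 b with hl
  have hb0 : b ≠ 0 := Nat.ne_of_gt (lt_of_le_of_lt (Nat.zero_le _) hb)
  have hl1 : K1 + 20 ≤ l := (Nat.le_log_iff_pow_le (by norm_num) hb0).2 hb.le
  have hl2 : 2 ^ l ≤ b := Nat.pow_log_le_self 2 hb0
  have hl3 : b < 2 ^ (l + 1) := Nat.lt_pow_succ_log_self (by norm_num) b
  -- `n ≤ 2 (l + 1)`
  have hn1 : n ≤ 2 * (l + 1) := by
    have h1 : 2 ^ n ≤ 2 ^ (2 * (l + 1)) := by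
      calc 2 ^ n ≤ b ^ 2 := hn
        _ ≤ (2 ^ (l + 1)) ^ 2 := Nat.pow_le_pow_left hl3.le 2
        _ = 2 ^ (2 * (l + 1)) := by rw [← pow_mul, mul_comm]
    exact (Nat.pow_le_pow_iff_right (by norm_num)).1 h1
  have hw : w ^ 4 ≤ n ^ 2 := by
    calc w ^ 4 = (w ^ 2) ^ 2 := by ring
      _ ≤ n ^ 2 := Nat.pow_le_pow_left hcon.le 2
  have hc1 : c ≤ 2 ^ (K1 + n ^ 2) :=
    hc.le.trans (Nat.pow_le_pow_right (by norm_num) (by omega))
  have hfac : n.factorial ≤ 2 ^ (n * n) := by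
    calc n.factorial ≤ n ^ n := Nat.factorial_le_pow n
      _ ≤ (2 ^ n) ^ n := Nat.pow_le_pow_left Nat.lt_two_pow_self.le n
      _ = 2 ^ (n * n) := by rw [← pow_mul]
  have h1 : b * (c ^ n * n.factorial) ≤ 2 ^ ((l + 1) + ((K1 + n ^ 2) * n + n * n)) := by
    calc b * (c ^ n * n.factorial)
        ≤ 2 ^ (l + 1) * ((2 ^ (K1 + n ^ 2)) ^ n * 2 ^ (n * n)) :=
          Nat.mul_le_mul hl3.le (Nat.mul_le_mul (Nat.pow_le_pow_left hc1 n) hfac)
      _ = 2 ^ ((l + 1) + ((K1 + n ^ 2) * n + n * n)) := by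
          rw [← pow_mul, ← pow_add, ← pow_add]
  have h2 : (l + 1) + ((K1 + n ^ 2) * n + n * n) ≤ b := by
    set m := l + 1 with hm
    have hm20 : 20 ≤ m := by omega
    have hK : K1 ≤ m := by omega
    have h3 := num_cube hm20
    have h4 : 2 ^ m = 2 * 2 ^ l := by rw [hm, pow_succ, mul_comm]
    have h5 : (K1 + n ^ 2) * n + n * n ≤ (m + (2 * m) ^ 2) * (2 * m) + (2 * m) * (2 * m) := by
      gcongr
    have h6 : m + ((m + (2 * m) ^ 2) * (2 * m) + (2 * m) * (2 * m)) ≤ 15 * m ^ 3 := by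
      have h7 : 20 * m ^ 2 ≤ m ^ 3 := by
        rw [pow_succ m 2, mul_comm (m ^ 2)]
        exact Nat.mul_le_mul_right _ hm20
      have h8 : m ≤ m ^ 2 := Nat.le_self_pow (by norm_num) m
      nlinarith
    omega
  exact absurd (hlt.trans_le (h1.trans (Nat.pow_le_pow_right (by norm_num) h2))) (lt_irrefl _)

/-- if `w ^ 2 < n` then `c < 2 ^ (K1 + n ^ 2)`, `n ≤ log₂ b`, so the right hand side is
`2 ^ (polynomial in log b)` -/
theorem num_big (K1 : ℕ) : ∃ t1 : ℕ, ∀ b n w c : ℕ, t1 < b → 2 ^ n ≤ b → c < 2 ^ (K1 + w ^ 4) →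
    2 ^ b < b * (c ^ n * n.factorial) → n ≤ w ^ 2 := by
  obtain ⟨t1, h⟩ := num_big2 K1
  exact ⟨t1, fun b n w c hb hn => h b n w c hb (hn.trans (Nat.le_self_pow (by norm_num) b))⟩

theorem num_abel : ∃ t1 : ℕ, ∀ b : ℕ, t1 < b → b * b ^ Nat.log 2 b ≤ 2 ^ b := by
  refine ⟨2 ^ 20, fun b hb => ?_⟩
  set l := Nat.log 2 b with hl
  have hb0 : b ≠ 0 := Nat.ne_of_gt (lt_of_le_of_lt (Nat.zero_le _) hb)
  have hl1 : 20 ≤ l := (Nat.le_log_iff_pow_le (by norm_num) hb0).2 hb.le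
  have hl2 : 2 ^ l ≤ b := Nat.pow_log_le_self 2 hb0
  have hl3 : b < 2 ^ (l + 1) := Nat.lt_pow_succ_log_self (by norm_num) b
  have h1 : b * b ^ l ≤ 2 ^ ((l + 1) * (l + 1)) := by
    calc b * b ^ l = b ^ (l + 1) := by rw [pow_succ, mul_comm]
      _ ≤ (2 ^ (l + 1)) ^ (l + 1) := Nat.pow_le_pow_left hl3.le _
      _ = 2 ^ ((l + 1) * (l + 1)) := by rw [← pow_mul]
  refine h1.trans (Nat.pow_le_pow_right (by norm_num) ?_)
  have h2 := num_cube (m := l + 1) (by omega)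
  have h3 : 2 ^ (l + 1) = 2 * 2 ^ l := by rw [pow_succ, mul_comm]
  have h4 : (l + 1) * (l + 1) ≤ (l + 1) ^ 3 := by
    calc (l + 1) * (l + 1) ≤ (l + 1) * (l + 1) * (l + 1) := Nat.le_mul_of_pos_right _ (by omega)
      _ = (l + 1) ^ 3 := by ring
  omega

end SR32
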