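import Mathlib

/-!
# SR32/FFNumS41: numerical facts (helper41)
-/

set_option autoImplicit false

namespace SR32.S41

open Filter

theorem evt_poly (K1 : ℕ) : ∃ L0 : ℕ, ∀ l : ℕ, L0 ≤ l → 1 + l + (K1 * l + l ^ 3 + l ^ 2) < 2 ^ l := by
  have h3 := tendsto_pow_const_div_const_pow_of_one_lt 3 (show (1:ℝ) < 2 by norm_num)
  have hpos : (0:ℝ) < 1 / ((K1:ℝ) + 5) := by positivity
  have h4 := (h3.eventually (gt_mem_nhds hpos))
  obtain ⟨L0, hL⟩ := eventually_atTop.1 h4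
  refine ⟨max L0 1, fun l hl => ?_⟩
  have h5 := hL l (le_of_max_le_left hl)
  have hl1 : 1 ≤ l := le_of_max_le_right hl
  have h2 : (0:ℝ) < 2 ^ l := by positivity
  rw [div_lt_div_iff₀ h2 (by positivity), one_mul] at h5
  have h6 : l ^ 3 * (K1 + 5) < 2 ^ l := by exact_mod_cast h5
  have e1 : l ≤ l ^ 3 := Nat.le_self_pow (by norm_num) l
  have e2 : l ^ 2 ≤ l ^ 3 := Nat.pow_le_pow_right hl1 (by norm_num)
  have e3 : 1 ≤ l ^ 3 := Nat.one_le_pow _ _ hl1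
  have e4 : K1 * l ≤ K1 * l ^ 3 := Nat.mul_le_mul_left _ e1
  nlinarith

theorem num_big (K1 : ℕ) : ∃ t1 : ℕ, ∀ b n w c : ℕ, t1 < b → 2 ^ n ≤ b → c < 2 ^ (K1 + w ^ 4) →
    2 ^ b < b * (c ^ n * n.factorial) → n ≤ w ^ 2 := by
  obtain ⟨L0, hL⟩ := evt_poly K1
  refine ⟨2 ^ L0, fun b n w c hb hn hc h => ?_⟩
  by_contra hw
  push Not at hw
  have hb0 : b ≠ 0 := by
    have : 0 < 2 ^ L0 := by positivity
    omega
  set l := Nat.log 2 b with hl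
  have hl0 : L0 ≤ l := by
    rw [hl]
    exact (Nat.le_log_iff_pow_le (by norm_num) hb0).2 hb.le
  have hnl : n ≤ l := (Nat.le_log_iff_pow_le (by norm_num) hb0).2 hn
  have hbl : b < 2 ^ (l + 1) := Nat.lt_pow_succ_log_self (by norm_num) b
  have hlb : 2 ^ l ≤ b := Nat.pow_log_le_self 2 hb0
  have hw4 : w ^ 4 ≤ n ^ 2 := by
    have : w ^ 4 = (w ^ 2) ^ 2 := by ring
    rw [this]
    exact Nat.pow_le_pow_left hw.le 2
  have h1 : c ^ n ≤ 2 ^ ((K1 + n ^ 2) * n) := by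
    rw [pow_mul]
    exact Nat.pow_le_pow_left (hc.le.trans (Nat.pow_le_pow_right (by norm_num) (by omega))) n
  have h2 : n.factorial ≤ 2 ^ (n * n) := by
    have h3 : n ≤ 2 ^ n := Nat.lt_two_pow_self.le
    calc n.factorial ≤ n ^ n := Nat.factorial_le_pow n
      _ ≤ (2 ^ n) ^ n := Nat.pow_le_pow_left h3 n
      _ = 2 ^ (n * n) := by rw [pow_mul]
  have h3 : b * (c ^ n * n.factorial) ≤ 2 ^ (l + 1) * (2 ^ ((K1 + n ^ 2) * n) * 2 ^ (n * n)) :=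
    Nat.mul_le_mul hbl.le (Nat.mul_le_mul h1 h2)
  rw [← pow_add, ← pow_add] at h3
  have h4 := (Nat.pow_lt_pow_iff_right (by norm_num : 1 < 2)).1 (h.trans_le h3)
  have h5 : (K1 + n ^ 2) * n + n * n ≤ K1 * l + l ^ 3 + l ^ 2 := by
    have e1 : (K1 + n ^ 2) * n + n * n = K1 * n + n ^ 3 + n ^ 2 := by ring
    rw [e1]
    exact Nat.add_le_add (Nat.add_le_add (Nat.mul_le_mul_left _ hnl) (Nat.pow_le_pow_left hnl 3))
      (Nat.pow_le_pow_left hnl 2)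
  have h6 := hL l hl0
  omega

theorem num_abel : ∃ t1 : ℕ, ∀ b : ℕ, t1 < b → b * b ^ Nat.log 2 b ≤ 2 ^ b := by
  obtain ⟨L0, hL⟩ := evt_poly 5
  refine ⟨2 ^ (L0 + 1), fun b hb => ?_⟩
  have hb0 : b ≠ 0 := by
    have : 0 < 2 ^ (L0 + 1) := by positivity
    omega
  set l := Nat.log 2 b with hl
  have hl0 : L0 + 1 ≤ l := by
    rw [hl]
    exact (Nat.le_log_iff_pow_le (by norm_num) hb0).2 hb.le
  have hbl : b < 2 ^ (l + 1) := Nat.lt_pow_succ_log_self (by norm_num) b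
  have hlb : 2 ^ l ≤ b := Nat.pow_log_le_self 2 hb0
  have h1 : b * b ^ l ≤ 2 ^ ((l + 1) * (l + 1)) := by
    calc b * b ^ l = b ^ (l + 1) := by rw [pow_succ, mul_comm]
      _ ≤ (2 ^ (l + 1)) ^ (l + 1) := Nat.pow_le_pow_left hbl.le _
      _ = _ := by rw [pow_mul]
  refine h1.trans (Nat.pow_le_pow_right (by norm_num) ?_)
  have h6 := hL l (by omega)
  have h7 : l ^ 2 ≤ l ^ 3 := Nat.pow_le_pow_right (by omega) (by norm_num)
  nlinarith

end SR32.S41
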