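import Mathlib
set_option autoImplicit false
namespace SR32

theorem exists_log48 (K : ℕ) : ∃ t1 : ℕ, ∀ b : ℕ, t1 < b →
    Nat.log 2 b ^ 3 + Nat.log 2 b ^ 2 + (K + 1) * Nat.log 2 b + 1 ≤ b := by
  -- `l ^ 3 + l ^ 2 + (K + 1) l + 1 ≤ (K + 3) (l + 1) ^ 3 ≤ 2 ^ l` for large `l`
  have h1 : ∃ l0 : ℕ, ∀ l : ℕ, l0 ≤ l → (K + 3) * (l + 1) ^ 3 ≤ 2 ^ l := by
    have h := tendsto_pow_const_div_const_pow_of_one_lt 3 (r := (2 : ℝ)) (by norm_num)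
    have h2 : ∀ᶠ l : ℕ in Filter.atTop, (l : ℝ) ^ 3 / 2 ^ l < 1 / (2 * (K + 3)) :=
      h.eventually (gt_mem_nhds (by positivity))
    obtain ⟨l0, hl0⟩ := Filter.eventually_atTop.1 h2
    refine ⟨l0, fun l hl => ?_⟩
    have h3 := hl0 (l + 1) (by omega)
    rw [div_lt_div_iff₀ (by positivity) (by positivity)] at h3
    have h4 : ((K + 3 : ℕ) : ℝ) * ((l + 1 : ℕ) : ℝ) ^ 3 ≤ 2 ^ l := by
      rw [pow_succ (2 : ℝ) l] at h3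
      push_cast at h3 ⊢
      nlinarith
    exact_mod_cast h4
  obtain ⟨l0, hl0⟩ := h1
  refine ⟨2 ^ l0, fun b hb => ?_⟩
  have hb0 : b ≠ 0 := Nat.ne_of_gt (lt_of_le_of_lt (Nat.zero_le _) hb)
  have hl : l0 ≤ Nat.log 2 b := (Nat.le_log_iff_pow_le (by norm_num) hb0).2 hb.le
  have h5 := hl0 _ hl
  have h6 : 2 ^ Nat.log 2 b ≤ b := Nat.pow_log_le_self 2 hb0
  generalize Nat.log 2 b = l at *
  have h7 : l ^ 3 + l ^ 2 + (K + 1) * l + 1 ≤ (K + 3) * (l + 1) ^ 3 := by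
    nlinarith [Nat.zero_le (l ^ 3), Nat.zero_le (l ^ 2), Nat.zero_le (K * l ^ 3), Nat.zero_le (K * l ^ 2), Nat.zero_le (K * l), Nat.zero_le K]
  omega

theorem num_bigS48 (K1 : ℕ) : ∃ t1 : ℕ, ∀ b n w c : ℕ, t1 < b → 2 ^ n ≤ b → c < 2 ^ (K1 + w ^ 4) →
    2 ^ b < b * (c ^ n * n.factorial) → n ≤ w ^ 2 := by
  obtain ⟨t1, ht1⟩ := exists_log48 K1
  refine ⟨t1, fun b n w c hb hn hc hlt => ?_⟩
  by_contra hw
  push Not at hw
  have hb0 : b ≠ 0 := by omega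
  obtain ⟨l, hl⟩ : ∃ l, l = Nat.log 2 b := ⟨_, rfl⟩
  have hln : n ≤ l := by
    rw [hl]
    exact (Nat.le_log_iff_pow_le (by norm_num) hb0).2 hn
  have h1 := ht1 b hb
  rw [← hl] at h1
  have h2 : b < 2 ^ (l + 1) := by
    rw [hl]
    exact Nat.lt_pow_succ_log_self (by norm_num) b
  have hw4 : w ^ 4 ≤ n ^ 2 := by
    calc w ^ 4 = (w ^ 2) ^ 2 := by ring
      _ ≤ n ^ 2 := Nat.pow_le_pow_left hw.le 2
  have h3 : c ^ n ≤ 2 ^ ((K1 + n ^ 2) * n) := by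
    rw [pow_mul]
    exact Nat.pow_le_pow_left (hc.le.trans (Nat.pow_le_pow_right (by norm_num) (by omega))) n
  have h4 : n.factorial ≤ 2 ^ (n * n) := by
    calc n.factorial ≤ n ^ n := Nat.factorial_le_pow n
      _ ≤ (2 ^ n) ^ n := Nat.pow_le_pow_left Nat.lt_two_pow_self.le n
      _ = 2 ^ (n * n) := by rw [pow_mul]
  have h5 : b * (c ^ n * n.factorial) ≤ 2 ^ (l + 1) * (2 ^ ((K1 + n ^ 2) * n) * 2 ^ (n * n)) :=
    Nat.mul_le_mul h2.le (Nat.mul_le_mul h3 h4)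
  rw [← pow_add, ← pow_add] at h5
  have h6 := hlt.trans_le h5
  have h7 := (Nat.pow_lt_pow_iff_right (by norm_num : 1 < 2)).1 h6
  have h8 : (K1 + n ^ 2) * n + n * n ≤ K1 * l + l ^ 3 + l ^ 2 := by
    have a1 : n ^ 3 ≤ l ^ 3 := Nat.pow_le_pow_left hln 3
    have a2 : n ^ 2 ≤ l ^ 2 := Nat.pow_le_pow_left hln 2
    have a3 : K1 * n ≤ K1 * l := Nat.mul_le_mul_left _ hln
    nlinarith
  nlinarith

theorem num_abelS48 : ∃ t1 : ℕ, ∀ b : ℕ, t1 < b → b * b ^ Nat.log 2 b ≤ 2 ^ b := by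
  obtain ⟨t1, ht1⟩ := exists_log48 2
  refine ⟨t1, fun b hb => ?_⟩
  have h1 := ht1 b hb
  have hb0 : b ≠ 0 := by omega
  have h2 : b ≤ 2 ^ (Nat.log 2 b + 1) := (Nat.lt_pow_succ_log_self (by norm_num) b).le
  generalize Nat.log 2 b = l at *
  calc b * b ^ l = b ^ (l + 1) := by ring
    _ ≤ (2 ^ (l + 1)) ^ (l + 1) := Nat.pow_le_pow_left h2 _
    _ = 2 ^ ((l + 1) * (l + 1)) := by rw [pow_mul]
    _ ≤ 2 ^ b := Nat.pow_le_pow_right (by norm_num) (by nlinarith [Nat.zero_le (l ^ 3)])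

end SR32
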