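import Pool.Agent.SR32.Perm

/-!
# SR32/FFPow: the number of automorphisms of a power of a simple group (helper58)
-/

namespace SR32

universe u

/-- from `aut_pi` (Perm.lean) -/
theorem card_aut_pow {T : Type u} [Group T] [Finite T] (hT : IsSimpleGroup T)
    (hc : Subgroup.center T = ⊥) (n : ℕ) :
    Nat.card (MulAut (Fin n → T)) ≤ Nat.card (MulAut T) ^ n * n.factorial := by
  have h : ∀ φ : MulAut (Fin n → T), ∃ p : (Fin n → MulAut T) × Equiv.Perm (Fin n),
      ∀ (x : Fin n → T) (i : Fin n), φ x (p.2 i) = p.1 i (x i) := by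
    intro φ
    obtain ⟨σ, ψ, hψ⟩ := aut_pi (fun _ : Fin n => T) (fun _ => hc) φ
    exact ⟨(ψ, σ), hψ⟩
  choose F hF using h
  have hinj : Function.Injective F := by
    intro φ φ' hφ
    apply MulEquiv.ext
    intro x
    funext j
    obtain ⟨i, rfl⟩ := (F φ).2.surjective j
    rw [hF φ x i]
    have h2 := hF φ' x i
    rw [← hφ] at h2
    exact h2.symm
  have hle := Nat.card_le_card_of_injective F hinj
  rw [Nat.card_prod, Nat.card_fun, Nat.card_perm, Nat.card_fin] at hle
  exact hle

end SR32
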