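import Pool.Agent.SR32.DefsFF

/-!
# SR32/FFPrimS90: primitive permutation groups, through a maximal subgroup with trivial core
-/

set_option autoImplicit false

namespace SR32.FFPrimS90

open SR32

universe u

/-- a nontrivial normal subgroup and a maximal subgroup with trivial core generate the group -/
theorem prim_sup {P : Type*} [Group P] (Λ : Subgroup P) (hΛ : IsCoatom Λ)
    (hc : Λ.normalCore = ⊥) (N : Subgroup P) [N.Normal] (hN : N ≠ ⊥) (p : P) :
    ∃ l ∈ Λ, ∃ n ∈ N, l * n = p := by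
  have h1 : ¬ N ≤ Λ := by
    intro h
    apply hN
    rw [eq_bot_iff, ← hc]
    exact Subgroup.normal_le_normalCore.2 h
  have h2 : Λ < Λ ⊔ N := by
    refine lt_of_le_of_ne le_sup_left fun h => h1 ?_
    rw [h]
    exact le_sup_right
  have h3 : Λ ⊔ N = ⊤ := hΛ.2 _ h2
  have h4 : p ∈ Λ ⊔ N := by
    rw [h3]
    exact Subgroup.mem_top p
  rw [Subgroup.mem_sup_of_normal_right] at h4
  exact h4

theorem prim_stab {P : Type u} [Group P] [Finite P] (Λ : Subgroup P) (hΛ : IsCoatom Λ)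
    (hc : Λ.normalCore = ⊥) (N : Subgroup P) [N.Normal] (hN : N ≠ ⊥) :
    (Λ.subgroupOf N).index = Λ.index ∧ (Λ.subgroupOf N).normalCore = ⊥ := by
  have hp := prim_sup Λ hΛ hc N hN
  constructor
  · -- the cosets of the intersection in `N` are the cosets of `Λ`
    unfold Subgroup.index
    refine Nat.card_congr (Equiv.ofBijective
      (Quotient.map' (s₁ := QuotientGroup.leftRel (Λ.subgroupOf N))
        (s₂ := QuotientGroup.leftRel Λ) (fun n : N => (n : P)) ?_) ⟨?_, ?_⟩)
    · intro x y hxy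
      rw [QuotientGroup.leftRel_apply] at hxy ⊢
      exact hxy
    · intro x y
      refine Quotient.inductionOn₂' x y fun x y hxy => ?_
      have h1 := Quotient.exact' hxy
      apply Quotient.sound'
      rw [QuotientGroup.leftRel_apply] at h1 ⊢
      exact h1
    · intro y
      refine Quotient.inductionOn' y fun y => ?_
      obtain ⟨l, hl, n, hn, hln⟩ := hp y⁻¹
      refine ⟨Quotient.mk'' ⟨n⁻¹, N.inv_mem hn⟩, ?_⟩
      apply Quotient.sound'
      rw [QuotientGroup.leftRel_apply]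
      have h1 : ((⟨n⁻¹, N.inv_mem hn⟩ : N) : P)⁻¹ * y = l⁻¹ := by
        have h2 : y = n⁻¹ * l⁻¹ := by
          rw [← mul_inv_rev, hln, inv_inv]
        rw [h2]
        show (n⁻¹)⁻¹ * (n⁻¹ * l⁻¹) = l⁻¹
        rw [inv_inv, mul_inv_cancel_left]
      rw [h1]
      exact Λ.inv_mem hl
  · rw [Subgroup.eq_bot_iff_forall]
    intro x hx
    have h1 : (x : P) ∈ Λ.normalCore := by
      intro p
      obtain ⟨l, hl, n, hn, hln⟩ := hp p
      have h2 : (n * (x : P) * n⁻¹) ∈ Λ := hx ⟨n, hn⟩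
      have h3 : p * (x : P) * p⁻¹ = l * (n * x * n⁻¹) * l⁻¹ := by
        rw [← hln]
        group
      rw [h3]
      exact Λ.mul_mem (Λ.mul_mem hl h2) (Λ.inv_mem hl)
    rw [hc, Subgroup.mem_bot] at h1
    exact Subtype.ext h1

theorem prim_cent {P : Type u} [Group P] [Finite P] (Λ : Subgroup P) (hΛ : IsCoatom Λ)
    (hc : Λ.normalCore = ⊥) (N : Subgroup P) [N.Normal] (hN : N ≠ ⊥) :
    Nat.card P ≤ Λ.index * Nat.card (MulAut N) := by
  have hp := prim_sup Λ hΛ hc N hN
  have hfin : Finite (MulAut N) := Finite.of_injective (fun φ : MulAut N => (φ : N → N))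
    DFunLike.coe_injective
  obtain ⟨f, hf⟩ : ∃ f : P →* MulAut N, ∀ (p : P) (n : N), ((f p n : N) : P) = p * n * p⁻¹ :=
    ⟨MulAut.conjNormal, fun p n => MulAut.conjNormal_apply p n⟩
  have hker : ∀ x ∈ f.ker, ∀ n ∈ N, n * x * n⁻¹ = x := by
    intro x hx n hn
    have h1 : ((f x ⟨n, hn⟩ : N) : P) = n := by
      rw [MonoidHom.mem_ker.1 hx]
      rfl
    rw [hf] at h1
    have h2 : x * n * x⁻¹ = n := h1
    have h3 : x * n = n * x := by
      calc x * n = x * n * x⁻¹ * x := by group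
        _ = n * x := by rw [h2]
    rw [← h3, mul_inv_cancel_right]
  have h1 : Nat.card f.ker ≤ Λ.index := by
    unfold Subgroup.index
    refine Nat.card_le_card_of_injective (fun x : f.ker => (QuotientGroup.mk (x : P) : P ⧸ Λ)) ?_
    intro x y hxy
    have h2 : (x : P)⁻¹ * y ∈ Λ := QuotientGroup.eq.1 hxy
    have h3 : (x : P)⁻¹ * y ∈ f.ker := f.ker.mul_mem (f.ker.inv_mem x.2) y.2
    have h4 : (x : P)⁻¹ * y ∈ Λ.normalCore := by
      intro p
      obtain ⟨l, hl, n, hn, hln⟩ := hp p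
      have h5 : p * ((x : P)⁻¹ * y) * p⁻¹ = l * (n * ((x : P)⁻¹ * y) * n⁻¹) * l⁻¹ := by
        rw [← hln]
        group
      rw [h5, hker _ h3 n hn]
      exact Λ.mul_mem (Λ.mul_mem hl h2) (Λ.inv_mem hl)
    rw [hc, Subgroup.mem_bot] at h4
    exact Subtype.ext (inv_mul_eq_one.1 h4)
  have h2 : f.ker.index ≤ Nat.card (MulAut N) := by
    rw [Subgroup.index_ker]
    exact Nat.card_le_card_of_injective (fun x : f.range => (x : MulAut N))
      Subtype.coe_injective
  calc Nat.card P = Nat.card f.ker * f.ker.index := f.ker.card_mul_index.symm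
    _ ≤ Λ.index * Nat.card (MulAut N) := Nat.mul_le_mul h1 h2

theorem prim_abel
    (hcard : ∀ (G : Type u) [Group G] [Finite G],
      Nat.card (MulAut G) ≤ Nat.card G ^ Nat.log 2 (Nat.card G))
    {P : Type u} [Group P] [Finite P] (Λ : Subgroup P) (hΛ : IsCoatom Λ)
    (hc : Λ.normalCore = ⊥) (N : Subgroup P) [N.Normal] (hN : N ≠ ⊥)
    (hab : ∀ x ∈ N, ∀ y ∈ N, x * y = y * x) :
    Nat.card P ≤ Λ.index * Λ.index ^ Nat.log 2 Λ.index := by
  obtain ⟨h1, h2⟩ := prim_stab Λ hΛ hc N hN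
  have h3 : (Λ.subgroupOf N).Normal := by
    refine ⟨fun x hx g => ?_⟩
    have h4 : g * x * g⁻¹ = x := by
      apply Subtype.ext
      show (g : P) * x * (g : P)⁻¹ = x
      rw [hab g g.2 x x.2, mul_inv_cancel_right]
    rw [h4]
    exact hx
  rw [Subgroup.normalCore_eq_self] at h2
  have h4 : Nat.card N = Λ.index := by
    rw [← h1, h2, Subgroup.index_bot]
  have h5 := hcard N
  rw [h4] at h5
  exact (prim_cent Λ hΛ hc N hN).trans (Nat.mul_le_mul_left _ h5)

end SR32.FFPrimS90
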