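import Pool.Agent.SR32.FFKind
import Pool.Agent.SR32.FFPrimS90

/-!
# SR32/FFPrim: primitive permutation groups, through a maximal subgroup with trivial core
-/

namespace SR32

universe u

/-- nontrivial normal subgroups are transitive, with core-free point stabilizer -/
theorem prim_stab {P : Type u} [Group P] [Finite P] (Λ : Subgroup P) (hΛ : IsCoatom Λ)
    (hc : Λ.normalCore = ⊥) (N : Subgroup P) [N.Normal] (hN : N ≠ ⊥) :
    (Λ.subgroupOf N).index = Λ.index ∧ (Λ.subgroupOf N).normalCore = ⊥ :=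
  FFPrimS90.prim_stab Λ hΛ hc N hN

/-- the centralizer of `N` meets `Λ` trivially, so has order at most `Λ.index` -/
theorem prim_cent {P : Type u} [Group P] [Finite P] (Λ : Subgroup P) (hΛ : IsCoatom Λ)
    (hc : Λ.normalCore = ⊥) (N : Subgroup P) [N.Normal] (hN : N ≠ ⊥) :
    Nat.card P ≤ Λ.index * Nat.card (MulAut N) :=
  FFPrimS90.prim_cent Λ hΛ hc N hN

/-- an abelian normal subgroup `N ≠ 1` is regular of order `Λ.index` -/
theorem prim_abel {P : Type u} [Group P] [Finite P] (Λ : Subgroup P) (hΛ : IsCoatom Λ)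
    (hc : Λ.normalCore = ⊥) (N : Subgroup P) [N.Normal] (hN : N ≠ ⊥)
    (hab : ∀ x ∈ N, ∀ y ∈ N, x * y = y * x) :
    Nat.card P ≤ Λ.index * Λ.index ^ Nat.log 2 Λ.index :=
  FFPrimS90.prim_abel (fun G _ _ => card_mulAut_le G) Λ hΛ hc N hN hab

end SR32
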