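import Pool.Agent.SR32.DefsFF

/-!
# SR32/FFPrimTameS97: the minimal normal subgroups of a large primitive group (helper97)
-/

set_option autoImplicit false

namespace SR32

universe u

open Filter

theorem center_bot97 {S : Type u} [Group S] (hs : IsSimpleGroup S)
    (hna : ∃ x y : S, x * y ≠ y * x) : Subgroup.center S = ⊥ := by
  rcases hs.eq_bot_or_eq_top_of_normal (Subgroup.center S) inferInstance with h | h
  · exact h
  · exfalso
    obtain ⟨x, y, hxy⟩ := hna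
    apply hxy
    have h1 : x ∈ Subgroup.center S := by
      rw [h]
      exact Subgroup.mem_top _
    exact ((Subgroup.mem_center_iff.1 h1) y).symm

theorem kind_mono97 {η : ℕ → ℕ} {t t1 : ℕ} (h : t ≤ t1) {S : Type u} [Group S]
    (hK : Kind η t S) : Kind η t1 S := by
  obtain ⟨h1, h2, h3⟩ := hK
  refine ⟨h1, h2, ?_⟩
  rcases h3 with h3 | h3
  · exact Or.inl (h3.trans h)
  · exact Or.inr h3

/-- the minimal normal subgroups of a large primitive group -/
theorem prim_tame97 (η : ℕ → ℕ) (t : ℕ)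
    (num_big : ∀ K1 : ℕ, ∃ t1 : ℕ, ∀ b n w c : ℕ, t1 < b → 2 ^ n ≤ b → c < 2 ^ (K1 + w ^ 4) →
      2 ^ b < b * (c ^ n * n.factorial) → n ≤ w ^ 2)
    (num_abel : ∃ t1 : ℕ, ∀ b : ℕ, t1 < b → b * b ^ Nat.log 2 b ≤ 2 ^ b)
    (kind_aut : ∃ K1 : ℕ, ∀ (S : Type u) [Group S] [Finite S],
      Kind η t S → Nat.card (MulAut S) < 2 ^ (K1 + om S ^ 4))
    (prim_stab : ∀ {P : Type u} [Group P] [Finite P] (Λ : Subgroup P), IsCoatom Λ →
      Λ.normalCore = ⊥ → ∀ (N : Subgroup P) [N.Normal], N ≠ ⊥ →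
      (Λ.subgroupOf N).index = Λ.index ∧ (Λ.subgroupOf N).normalCore = ⊥)
    (prim_cent : ∀ {P : Type u} [Group P] [Finite P] (Λ : Subgroup P), IsCoatom Λ →
      Λ.normalCore = ⊥ → ∀ (N : Subgroup P) [N.Normal], N ≠ ⊥ →
      Nat.card P ≤ Λ.index * Nat.card (MulAut N))
    (prim_abel : ∀ {P : Type u} [Group P] [Finite P] (Λ : Subgroup P), IsCoatom Λ →
      Λ.normalCore = ⊥ → ∀ (N : Subgroup P) [N.Normal], N ≠ ⊥ →
      (∀ x ∈ N, ∀ y ∈ N, x * y = y * x) → Nat.card P ≤ Λ.index * Λ.index ^ Nat.log 2 Λ.index)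
    (idx_pow : ∀ {T : Type u} [Group T] [Finite T], IsSimpleGroup T →
      (∃ x y : T, x * y ≠ y * x) → ∀ {n : ℕ} (K : Subgroup (Fin n → T)),
      K.normalCore = ⊥ → 2 ^ n ≤ K.index)
    (card_aut_pow : ∀ {T : Type u} [Group T] [Finite T], IsSimpleGroup T →
      Subgroup.center T = ⊥ → ∀ (n : ℕ),
      Nat.card (MulAut (Fin n → T)) ≤ Nat.card (MulAut T) ^ n * n.factorial) :
    ∃ t1 : ℕ, 4 ≤ t1 ∧ t ≤ t1 ∧
    ∀ (P : Type u) [Group P] [Finite P] (Λ : Subgroup P), IsCoatom Λ → Λ.normalCore = ⊥ →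
    t1 < Λ.index → 2 ^ Λ.index < Nat.card P →
    (∀ N : Subgroup P, IsMinNormal N → (∃ x ∈ N, ∃ y ∈ N, x * y ≠ y * x) →
      ∃ (S : Subgroup N) (s : ℕ), Kind η t S ∧ Nonempty (N ≃* (Fin s → S))) →
    ∀ N : Subgroup P, IsMinNormal N → (∃ x ∈ N, ∃ y ∈ N, x * y ≠ y * x) ∧
      ∃ (S : Subgroup N) (s : ℕ), Kind η t1 S ∧ s ≤ t1 * om S ^ 2 ∧ Nonempty (N ≃* (Fin s → S)) := by
  obtain ⟨K1, hK1⟩ := kind_aut
  obtain ⟨tb, htb⟩ := num_big K1
  obtain ⟨ta, hta⟩ := num_abel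
  refine ⟨4 + t + tb + ta, by omega, by omega, ?_⟩
  intro P _ _ Λ hΛ hc hidx hbig hpow N hN
  have hNn : N.Normal := hN.1
  have hna : ∃ x ∈ N, ∃ y ∈ N, x * y ≠ y * x := by
    by_contra hcon
    push Not at hcon
    have h1 := prim_abel Λ hΛ hc N hN.2.1 hcon
    have h2 := hta Λ.index (by omega)
    omega
  refine ⟨hna, ?_⟩
  obtain ⟨S, s, hK, ⟨e⟩⟩ := hpow N hN hna
  have hS : IsSimpleGroup S := hK.1
  have hSna : ∃ x y : S, x * y ≠ y * x := hK.2.1
  obtain ⟨h1, h2⟩ := prim_stab Λ hΛ hc N hN.2.1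
  have h3 := prim_cent Λ hΛ hc N hN.2.1
  have hle : 2 ^ s ≤ Λ.index := by
    have hcore : ((Λ.subgroupOf N).map e.toMonoidHom).normalCore = ⊥ := by
      rw [Subgroup.eq_bot_iff_forall]
      intro w hw
      have h4 : e.symm w ∈ (Λ.subgroupOf N).normalCore := by
        intro b
        have h5 := hw (e b)
        rw [Subgroup.mem_map] at h5
        obtain ⟨z, hz, hzw⟩ := h5
        have h6 : z = b * e.symm w * b⁻¹ := by
          apply e.injective
          rw [map_mul, map_mul, map_inv, e.apply_symm_apply]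
          exact hzw
        rw [← h6]
        exact hz
      rw [h2, Subgroup.mem_bot] at h4
      have h7 := congrArg e h4
      rwa [e.apply_symm_apply, map_one] at h7
    have h8 := idx_pow hS hSna _ hcore
    have h9 : ((Λ.subgroupOf N).map e.toMonoidHom).index = Λ.index := by
      rw [← h1]
      exact Subgroup.index_map_equiv _ e
    rwa [h9] at h8
  have hcard : Nat.card P ≤ Λ.index * (Nat.card (MulAut S) ^ s * s.factorial) := by
    have h4 : Nat.card (MulAut N) = Nat.card (MulAut (Fin s → S)) :=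
      Nat.card_congr (MulAut.congr e).toEquiv
    rw [h4] at h3
    exact h3.trans (Nat.mul_le_mul_left _ (card_aut_pow hS (center_bot97 hS hSna) s))
  have hs := htb Λ.index s (om S) (Nat.card (MulAut S)) (by omega) hle (hK1 S hK)
    (lt_of_lt_of_le hbig hcard)
  refine ⟨S, s, kind_mono97 (by omega) hK, ?_, ⟨e⟩⟩
  exact hs.trans (Nat.le_mul_of_pos_left _ (by omega))

end SR32
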