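import Pool.Agent.SR32.DefsFF

/-!
# SR32/FFTameS48: the minimal normal subgroups of a large primitive group

The other FF modules enter as hypotheses.
-/

set_option autoImplicit false

namespace SR32

universe u

/-- a nonabelian simple group has trivial centre -/
theorem center_simple48 {T : Type u} [Group T] (hT : IsSimpleGroup T) (hna : ∃ x y : T, x * y ≠ y * x) :
    Subgroup.center T = ⊥ := by
  rcases hT.eq_bot_or_eq_top_of_normal (Subgroup.center T) inferInstance with h | h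
  · exact h
  · exfalso
    obtain ⟨x, y, hxy⟩ := hna
    have hx : x ∈ Subgroup.center T := by rw [h]; exact Subgroup.mem_top x
    exact hxy ((Subgroup.mem_center_iff.1 hx) y).symm

theorem kind_mono48 {η : ℕ → ℕ} {t t1 : ℕ} (h : t ≤ t1) {S : Type u} [Group S] (hk : Kind η t S) :
    Kind η t1 S := by
  obtain ⟨h1, h2, h3⟩ := hk
  refine ⟨h1, h2, ?_⟩
  rcases h3 with h3 | h3
  · exact Or.inl (h3.trans h)
  · exact Or.inr h3

theorem card_mulAut_congr48 {G G' : Type u} [Group G] [Group G'] (e : G ≃* G') :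
    Nat.card (MulAut G) = Nat.card (MulAut G') :=
  Nat.card_congr (MulAut.congr e).toEquiv

/-- the minimal normal subgroups of a large primitive group -/
theorem prim_tameS48 (η : ℕ → ℕ) (t : ℕ)
    (kind_aut : ∃ K1 : ℕ, ∀ (S : Type u) [Group S] [Finite S],
      Kind η t S → Nat.card (MulAut S) < 2 ^ (K1 + om S ^ 4))
    (num_big : ∀ K1 : ℕ, ∃ t1 : ℕ, ∀ b n w c : ℕ, t1 < b → 2 ^ n ≤ b → c < 2 ^ (K1 + w ^ 4) →
      2 ^ b < b * (c ^ n * n.factorial) → n ≤ w ^ 2)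
    (num_abel : ∃ t1 : ℕ, ∀ b : ℕ, t1 < b → b * b ^ Nat.log 2 b ≤ 2 ^ b)
    (prim_stab : ∀ {P : Type u} [Group P] [Finite P] (Λ : Subgroup P), IsCoatom Λ →
      Λ.normalCore = ⊥ → ∀ (N : Subgroup P) [N.Normal], N ≠ ⊥ →
        (Λ.subgroupOf N).index = Λ.index ∧ (Λ.subgroupOf N).normalCore = ⊥)
    (prim_cent : ∀ {P : Type u} [Group P] [Finite P] (Λ : Subgroup P), IsCoatom Λ →
      Λ.normalCore = ⊥ → ∀ (N : Subgroup P) [N.Normal], N ≠ ⊥ →
        Nat.card P ≤ Λ.index * Nat.card (MulAut N))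
    (prim_abel : ∀ {P : Type u} [Group P] [Finite P] (Λ : Subgroup P), IsCoatom Λ →
      Λ.normalCore = ⊥ → ∀ (N : Subgroup P) [N.Normal], N ≠ ⊥ →
        (∀ x ∈ N, ∀ y ∈ N, x * y = y * x) → Nat.card P ≤ Λ.index * Λ.index ^ Nat.log 2 Λ.index)
    (idx_pow : ∀ {T : Type u} [Group T] [Finite T], IsSimpleGroup T → (∃ x y : T, x * y ≠ y * x) →
      ∀ {n : ℕ} (K : Subgroup (Fin n → T)), K.normalCore = ⊥ → 2 ^ n ≤ K.index)
    (card_aut_pow : ∀ {T : Type u} [Group T] [Finite T], IsSimpleGroup T →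
      Subgroup.center T = ⊥ → ∀ n : ℕ,
        Nat.card (MulAut (Fin n → T)) ≤ Nat.card (MulAut T) ^ n * n.factorial) :
    ∃ t1 : ℕ, 4 ≤ t1 ∧ t ≤ t1 ∧
    ∀ (P : Type u) [Group P] [Finite P] (Λ : Subgroup P), IsCoatom Λ → Λ.normalCore = ⊥ →
    t1 < Λ.index → 2 ^ Λ.index < Nat.card P →
    (∀ N : Subgroup P, IsMinNormal N → (∃ x ∈ N, ∃ y ∈ N, x * y ≠ y * x) →
      ∃ (S : Subgroup N) (s : ℕ), Kind η t S ∧ Nonempty (N ≃* (Fin s → S))) →
    ∀ N : Subgroup P, IsMinNormal N → (∃ x ∈ N, ∃ y ∈ N, x * y ≠ y * x) ∧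
      ∃ (S : Subgroup N) (s : ℕ), Kind η t1 S ∧ s ≤ t1 * om S ^ 2 ∧ Nonempty (N ≃* (Fin s → S)) := by
  obtain ⟨K1, hK1⟩ := kind_aut
  obtain ⟨ta, hta⟩ := num_big K1
  obtain ⟨tb, htb⟩ := num_abel
  obtain ⟨t1, ht1⟩ : ∃ t1 : ℕ, t1 = max (max 4 t) (max ta tb) := ⟨_, rfl⟩
  have e1 : 4 ≤ t1 := by rw [ht1]; exact (le_max_left _ _).trans (le_max_left _ _)
  have e2 : t ≤ t1 := by rw [ht1]; exact (le_max_right _ _).trans (le_max_left _ _)
  have e3 : ta ≤ t1 := by rw [ht1]; exact (le_max_left _ _).trans (le_max_right _ _)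
  have e4 : tb ≤ t1 := by rw [ht1]; exact (le_max_right _ _).trans (le_max_right _ _)
  refine ⟨t1, e1, e2, fun P _ _ Λ hΛ hc hb hP hmin N hN => ?_⟩
  have := hN.1
  have hna : ∃ x ∈ N, ∃ y ∈ N, x * y ≠ y * x := by
    by_contra hno
    push Not at hno
    have h1 := prim_abel Λ hΛ hc N hN.2.1 hno
    have h2 := htb Λ.index (e4.trans_lt hb)
    omega
  refine ⟨hna, ?_⟩
  obtain ⟨S, s, hk, ⟨e⟩⟩ := hmin N hN hna
  refine ⟨S, s, kind_mono48 e2 hk, ?_, ⟨e⟩⟩
  have hS : IsSimpleGroup S := hk.1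
  have hSna : ∃ x y : S, x * y ≠ y * x := hk.2.1
  have hcS := center_simple48 hS hSna
  -- the index of the point stabilizer in `N`
  obtain ⟨i1, i2⟩ := prim_stab Λ hΛ hc N hN.2.1
  obtain ⟨K, hK⟩ : ∃ K : Subgroup (Fin s → S), K = (Λ.subgroupOf N).map e.toMonoidHom := ⟨_, rfl⟩
  have hKi : K.index = Λ.index := by
    rw [hK, ← i1]
    exact Subgroup.index_map_equiv _ e
  have hKc : K.normalCore = ⊥ := by
    rw [eq_bot_iff]
    intro k hk'
    have h1 : e.symm k ∈ (Λ.subgroupOf N).normalCore := by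
      intro g
      have h2 := hk' (e g)
      rw [hK] at h2
      obtain ⟨z, hz, hz'⟩ := h2
      have h3 : z = g * e.symm k * g⁻¹ := by
        apply e.injective
        rw [map_mul, map_mul, map_inv, MulEquiv.apply_symm_apply]
        exact hz'
      rw [← h3]
      exact hz
    rw [i2, Subgroup.mem_bot] at h1
    rw [Subgroup.mem_bot, ← e.apply_symm_apply k, h1, map_one]
  have hidx : 2 ^ s ≤ Λ.index := by
    rw [← hKi]
    exact idx_pow hS hSna K hKc
  have hcard : Nat.card P ≤ Λ.index * (Nat.card (MulAut S) ^ s * s.factorial) := by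
    refine (prim_cent Λ hΛ hc N hN.2.1).trans (Nat.mul_le_mul_left _ ?_)
    rw [card_mulAut_congr48 e]
    exact card_aut_pow hS hcS s
  have hfin := hta Λ.index s (om S) (Nat.card (MulAut S)) (e3.trans_lt hb) hidx (hK1 S hk)
    (hP.trans_le hcard)
  calc s ≤ om S ^ 2 := hfin
    _ ≤ t1 * om S ^ 2 := Nat.le_mul_of_pos_left _ (by omega)

end SR32
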