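import Pool.Agent.SR32.FFFamS64
import Pool.Agent.SR32.PGrowS3

/-!
# The tower lemma with large layers, for a subgroup and for a family of subgroups
-/

namespace SR32

universe u

theorem growF64 {b v v' k : ℕ} (hb : 2 ≤ b) (hv' : 3 ≤ v') (h1 : Nat.multichoose v' b ≤ v)
    (h2 : v' ^ b ≤ v * k) :
    3 / 2 * Real.log v' ≤ Real.log v ∧
      ((b : ℝ) / 3 ≤ Real.log v ∨
        (2 ^ b < k ∧ ((v' : ℝ) - 1) * Real.log 2 ≤ Real.log v)) := by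
  rcases Nat.lt_or_ge (2 ^ b) k with hk | hk
  · have h3 : v' ^ b ≤ v * (k + b.factorial) := h2.trans (Nat.mul_le_mul_left _ (Nat.le_add_right _ _))
    obtain ⟨h4, h5⟩ := PGrowS3.grow (t := 0) hb hv' h1 h3 (fun _ => Or.inr (by omega))
    refine ⟨h4, ?_⟩
    rcases h5 with h5 | h5 | ⟨-, -, h5⟩
    · exact Or.inl h5
    · omega
    · exact Or.inr ⟨hk, h5⟩
  · obtain ⟨h4, h5⟩ := PGrowS3.grow (t := 0) hb hv' h1 h2 (fun _ => Or.inl hk)
    refine ⟨h4, Or.inl ?_⟩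
    rcases h5 with h5 | h5 | ⟨-, -, -⟩
    · exact h5
    · omega
    · have hv'r : (3 : ℝ) ≤ v' := by exact_mod_cast hv'
      have hmc : 1 ≤ Nat.multichoose v' b := by
        have := exc_W_mono_right (w := v') (by omega) (Nat.zero_le b)
        rwa [Nat.multichoose_zero_right] at this
      have hv1 : 1 ≤ v := hmc.trans h1
      have hv0 : (0 : ℝ) < v := by exact_mod_cast hv1
      have h5 : (v' : ℝ) ^ b ≤ v * 2 ^ b := by
        have : v' ^ b ≤ v * 2 ^ b := h2.trans (Nat.mul_le_mul_left _ hk)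
        exact_mod_cast this
      have h6 := Real.log_le_log (by positivity) h5
      rw [Real.log_mul hv0.ne' (by positivity), Real.log_pow, Real.log_pow] at h6
      have h7 : Real.log 3 ≤ Real.log v' := Real.log_le_log (by norm_num) hv'r
      have h8 : Real.log 2 + 1 / 3 ≤ Real.log 3 := by
        have h9 : Real.log 3 = Real.log 2 + Real.log (3 / 2) := by
          rw [← Real.log_mul (by norm_num) (by norm_num)]
          norm_num
        have h10 : (1 : ℝ) / 3 ≤ Real.log (3 / 2) := by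
          have := Real.one_sub_inv_le_log_of_pos (show (0 : ℝ) < 3 / 2 by norm_num)
          norm_num at this
          linarith
        linarith
      have h11 : (b : ℝ) * (Real.log 2 + 1 / 3) ≤ b * Real.log v' :=
        mul_le_mul_of_nonneg_left (h8.trans h7) (Nat.cast_nonneg _)
      linarith

theorem towerF (t : ℕ) (_ht : 4 ≤ t) (ε : ℝ) (hε : 0 < ε) : ∃ C : ℝ, 1 ≤ C ∧
    ∀ (Γ : Type u) [Group Γ] [Finite Γ] (Δ : Subgroup Γ),
    ∃ (E : ℕ) (I O : Subgroup Γ), 0 < E ∧ Δ ≤ I ∧ I ≤ O ∧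
      (∀ g x : Γ, x⁻¹ * g ^ E * x ∈ O) ∧
      (∀ g : Γ, (∀ x : Γ, x⁻¹ * g * x ∈ I) → ∀ x : Γ, x⁻¹ * g ^ E * x ∈ Δ) ∧
      (E.divisors.card : ℝ) ≤ C * (orbC Γ (Γ ⧸ Δ) 3 : ℝ) ^ ε ∧ BigLayer t I O :=
  towerF_of growF64 t ε hε

theorem familyF (t : ℕ) (_ht : 4 ≤ t) (ε : ℝ) (hε : 0 < ε) : ∃ C : ℝ, 1 ≤ C ∧
    ∀ (Γ : Type u) [Group Γ] [Finite Γ] (a : ℕ) (D : Fin a → Subgroup Γ),
    ∃ (E : ℕ) (I O : Fin a → Subgroup Γ), 0 < E ∧ (∀ i, D i ≤ I i) ∧ (∀ i, I i ≤ O i) ∧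
      (∀ i, ∀ g x : Γ, x⁻¹ * g ^ E * x ∈ O i) ∧
      (∀ i, ∀ g : Γ, (∀ x : Γ, x⁻¹ * g * x ∈ I i) → ∀ x : Γ, x⁻¹ * g ^ E * x ∈ D i) ∧
      (E.divisors.card : ℝ) ≤ C * (∏ i, (orbC Γ (Γ ⧸ D i) 3 : ℝ)) ^ ε ∧
      ∀ i, BigLayer t (I i) (O i) :=
  familyF_of growF64 t ε hε

end SR32
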