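import Pool.Agent.SR32.DefsFF
import Pool.Agent.SR32.UCenter
import Pool.Agent.SR32.PFacS46
import Pool.Agent.SR32.YPow
import Pool.Agent.SR32.FFNorm

/-!
# SR32/FGAbs: minimal normal subgroups that act nontrivially in a section (helper46)
-/

set_option autoImplicit false

namespace SR32

universe u

theorem a46_center {T : Type u} [Group T] (hT : IsSimpleGroup T)
    (hna : ∃ x y : T, x * y ≠ y * x) : Subgroup.center T = ⊥ := by
  rcases (inferInstance : (Subgroup.center T).Normal).eq_bot_or_eq_top with h | h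
  · exact h
  · exfalso
    obtain ⟨a, b, hab⟩ := hna
    have hb : b ∈ Subgroup.center T := by rw [h]; exact Subgroup.mem_top _
    exact hab (Subgroup.mem_center_iff.1 hb a)

theorem a46_kind_mono {η : ℕ → ℕ} {t t1 : ℕ} (htt : t ≤ t1) {S : Type u} [Group S]
    (h : Kind η t S) : Kind η t1 S :=
  ⟨h.1, h.2.1, h.2.2.imp_left fun h' => h'.trans htt⟩

/-- as `sec_abs`: at the end `M = T' ^ m` with `T'` the group `S` of `N'`, `m ≤ n`; `hX` gives
`M = S0 ^ s0` with `S0` of kind `(η, t)`; `powS_iso` (YPow): `s0 = m`, `S0 ≃* T'`; so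
`Kind η t T'`, `s0 ≤ n ≤ t1 * om T' ^ 2 = t1 * om S0 ^ 2`; `GoodX η t1 M` with `S0`, `s0` -/
theorem sec_absG {η : ℕ → ℕ} {t t1 : ℕ} (htt : t ≤ t1) {X P : Type u} [Group X] [Finite X]
    [Group P] [Finite P]
    (hP : ∀ N : Subgroup P, IsMinNormal N → (∃ x ∈ N, ∃ y ∈ N, x * y ≠ y * x) ∧
      ∃ (S : Subgroup N) (s : ℕ), IsSimpleGroup S ∧ (∃ x y : S, x * y ≠ y * x) ∧
        (Kind η t S → s ≤ t1 * om S ^ 2) ∧ Nonempty (N ≃* (Fin s → S)))
    (θ : X →* P) (hn : ∀ (p : P) (x : X), ∃ y : X, p * θ x * p⁻¹ = θ y)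
    (M : Subgroup X) (hM : IsMinNormal M) (hθ : ∃ m ∈ M, θ m ≠ 1)
    (hX : (∃ x ∈ M, ∃ y ∈ M, x * y ≠ y * x) →
      ∃ (S : Subgroup M) (s : ℕ), Kind η t S ∧ Nonempty (M ≃* (Fin s → S))) : GoodX η t1 M := by
  obtain ⟨m0, hm0, hm1⟩ := hθ
  have hMn : M.Normal := hM.1
  -- `θ` is injective on `M`
  have hker : M ⊓ θ.ker = ⊥ := by
    rcases hM.2.2 (M ⊓ θ.ker) inferInstance inf_le_left with h | h
    · exact h
    · exfalso
      have h1 : m0 ∈ M ⊓ θ.ker := by rw [h]; exact hm0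
      exact hm1 (Subgroup.mem_inf.1 h1).2
  have hinj : ∀ x ∈ M, θ x = 1 → x = 1 := by
    intro x hx hx1
    have h1 : x ∈ M ⊓ θ.ker := Subgroup.mem_inf.2 ⟨hx, hx1⟩
    rw [hker, Subgroup.mem_bot] at h1
    exact h1
  -- the range is normal
  have hZ : θ.range.Normal := by
    refine ⟨?_⟩
    rintro _ ⟨x, rfl⟩ p
    obtain ⟨y, hy⟩ := hn p x
    exact ⟨y, hy.symm⟩
  let N0 : Subgroup P := Subgroup.normalClosure (M.map θ : Set P)
  have hN0Z : N0 ≤ θ.range := by
    refine Subgroup.normalClosure_le_normal ?_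
    rintro _ ⟨x, -, rfl⟩
    exact ⟨x, rfl⟩
  have hMN0 : ∀ x ∈ M, θ x ∈ N0 := fun x hx =>
    Subgroup.subset_normalClosure (Subgroup.mem_map_of_mem θ hx)
  have hN0 : N0 ≠ ⊥ := by
    intro h
    have h1 := hMN0 m0 hm0
    rw [h, Subgroup.mem_bot] at h1
    exact hm1 h1
  obtain ⟨N', hN'0, hN'⟩ := exists_minNormal_le N0 Subgroup.normalClosure_normal hN0
  have hN'n : N'.Normal := hN'.1
  obtain ⟨hna, S, s, hSs, hSn, hs, ⟨e⟩⟩ := hP N' hN'
  have hle : ∀ x ∈ M, θ x ∈ N' := by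
    rcases hM.2.2 (M ⊓ N'.comap θ) inferInstance inf_le_left with h | h
    · exfalso
      have hcomm : ∀ x ∈ M, ∀ y ∈ N', θ x * y = y * θ x := by
        intro x hx y hy
        obtain ⟨z, rfl⟩ := hN0Z (hN'0 hy)
        have h1 : x * z * x⁻¹ * z⁻¹ ∈ M ⊓ N'.comap θ := by
          refine Subgroup.mem_inf.2 ⟨?_, ?_⟩
          · have h2 := hMn.conj_mem x⁻¹ (M.inv_mem hx) z
            have h3 : x * z * x⁻¹ * z⁻¹ = x * (z * x⁻¹ * z⁻¹) := by group
            rw [h3]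
            exact M.mul_mem hx h2
          · rw [Subgroup.mem_comap, map_mul, map_mul, map_mul, map_inv, map_inv]
            exact N'.mul_mem (hN'n.conj_mem _ hy _) (N'.inv_mem hy)
        rw [h, Subgroup.mem_bot] at h1
        have h4 : x * z = z * x := by
          calc x * z = (x * z * x⁻¹ * z⁻¹) * (z * x) := by group
            _ = z * x := by rw [h1, one_mul]
        rw [← map_mul, ← map_mul, h4]
      have hC : N0 ≤ Subgroup.centralizer (N' : Set P) := by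
        refine Subgroup.normalClosure_le_normal ?_
        rintro _ ⟨x, hx, rfl⟩
        exact Subgroup.mem_centralizer_iff.2 fun y hy => (hcomm x hx y hy).symm
      obtain ⟨x, hx, y, hy, hxy⟩ := hna
      exact hxy (Subgroup.mem_centralizer_iff.1 (hC (hN'0 hy)) x hx)
    · intro x hx
      have h1 : x ∈ M ⊓ N'.comap θ := by rw [h]; exact hx
      exact (Subgroup.mem_inf.1 h1).2
  -- the map from `M` to `S ^ s`
  let φ : M →* N' := (θ.comp M.subtype).codRestrict N' fun x => hle x x.2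
  have hφ : Function.Injective φ := by
    rw [injective_iff_map_eq_one]
    intro x hx
    have h1 : θ (x : X) = 1 := congrArg Subtype.val hx
    exact Subtype.ext (hinj x x.2 h1)
  let ψ : M →* (Fin s → S) := e.toMonoidHom.comp φ
  have hψ : Function.Injective ψ := e.injective.comp hφ
  have hKn : ψ.range.Normal := by
    refine ⟨?_⟩
    rintro _ ⟨x, rfl⟩ g
    obtain ⟨y, rfl⟩ := e.surjective g
    obtain ⟨z, hz⟩ := hN0Z (hN'0 y.2)
    refine ⟨⟨z * x * z⁻¹, hMn.conj_mem _ x.2 _⟩, ?_⟩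
    change e (φ _) = e y * e (φ x) * (e y)⁻¹
    rw [← map_mul, ← map_inv, ← map_mul]
    congr 1
    apply Subtype.ext
    change θ (z * x * z⁻¹) = (y : P) * θ x * (y : P)⁻¹
    rw [map_mul, map_mul, map_inv, hz]
  obtain ⟨m, hms, ⟨f⟩⟩ := norm_pow hSs hSn ψ.range
  let g : M ≃* (Fin m → S) := (MonoidHom.ofInjective hψ).trans f
  have hm : m ≠ 0 := by
    rintro rfl
    apply hm1
    have h1 : (⟨m0, hm0⟩ : M) = 1 := g.injective (Subsingleton.elim _ _)
    have h2 : m0 = 1 := congrArg Subtype.val h1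
    rw [h2, map_one]
  have hm1' : 1 ≤ m := Nat.one_le_iff_ne_zero.2 hm
  have hMna : ∃ x ∈ M, ∃ y ∈ M, x * y ≠ y * x := by
    obtain ⟨x, y, hxy⟩ := hSn
    refine ⟨g.symm fun _ => x, (g.symm fun _ => x).2, g.symm fun _ => y, (g.symm fun _ => y).2, ?_⟩
    intro h
    have h1 : (g.symm fun _ => x) * (g.symm fun _ => y) = (g.symm fun _ => y) * g.symm fun _ => x :=
      Subtype.ext h
    rw [← map_mul, ← map_mul] at h1
    exact hxy (congrFun (g.symm.injective h1) ⟨0, hm1'⟩)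
  obtain ⟨S0, s0, hk0, ⟨e0⟩⟩ := hX hMna
  have hS0 := hk0.1
  obtain ⟨hms0, ⟨ι⟩⟩ := powS_iso (a46_center hSs hSn) (a46_center hk0.1 hk0.2.1)
    (g.symm.trans e0) hm1'
  subst hms0
  refine ⟨S0, m, a46_kind_mono htt hk0, ⟨e0⟩, Or.inl ?_⟩
  rw [← om_congr ι]
  exact hms.trans (hs (p46_kind_congr ι.symm hk0))

end SR32
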