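import Pool.Agent.SR32.FGQuotS81

/-!
# Composition factors of quotients
-/

namespace SR32

universe u

/-- The composition factors of a quotient are composition factors of the group. -/
theorem kindCF_quot {η : ℕ → ℕ} {t : ℕ} {G : Type u} [Group G] (R : Subgroup G) [R.Normal]
    (h : KindCF η t G) : KindCF η t (G ⧸ R) :=
  kindCF_quot81 R h

end SR32
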