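import Pool.Agent.SR32.DefsFG
import Pool.Agent.SR32.FFMinS14
import Pool.Agent.SR32.FFMinB

/-!
# SR32/FGSect: minimal normal subgroups of sections by normal subgroups
-/

namespace SR32

universe u

/-- nonabelian minimal normal subgroups of images `X` of normal subgroups `U` of `H`: `M = S ^ s`, and
`S` is a quotient of `M`, so of the preimage of `M` in `H`, which is subnormal -/
theorem kindCF_sect {η : ℕ → ℕ} {t : ℕ} {H : Type u} [Group H] [Finite H] (h : KindCF η t H)
    (U : Subgroup H) (hU : U.Normal) {X : Type u} [Group X] (π : U →* X)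
    (hπ : Function.Surjective π) (M : Subgroup X) (hM : IsMinNormal M)
    (hna : ∃ x ∈ M, ∃ y ∈ M, x * y ≠ y * x) :
    ∃ (S : Subgroup M) (s : ℕ), Kind η t S ∧ Nonempty (M ≃* (Fin s → S)) := by
  have hX : Finite X := Finite.of_surjective π hπ
  obtain ⟨S, s, hS, ⟨x, y, hxy⟩, ⟨e⟩⟩ := ff14_min_pow M hM hna
  refine ⟨S, s, ?_, ⟨e⟩⟩
  have hMn : M.Normal := hM.1
  -- `s ≥ 1`
  have hs : 0 < s := by
    rcases Nat.eq_zero_or_pos s with h0 | h0
    · exfalso
      subst h0
      obtain ⟨a, ha, b, hb, hab⟩ := hna
      have h1 : (⟨a, ha⟩ : M) = ⟨b, hb⟩ := e.injective (Subsingleton.elim _ _)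
      have h2 : a = b := congrArg Subtype.val h1
      rw [h2] at hab
      exact hab rfl
    · exact h0
  -- the preimage of `M` in `U` and in `H`
  let K' : Subgroup U := M.comap π
  have hK'n : K'.Normal := hMn.comap π
  let K : Subgroup H := K'.map U.subtype
  have hK : K.IsSubnormal := hK'n.isSubnormal.trans' hU.isSubnormal
  let e1 : K' ≃* K := K'.equivMapOfInjective U.subtype U.subtype_injective
  let g0 : K' →* M := π.subgroupComap M
  have hg0 : Function.Surjective g0 := π.subgroupComap_surjective_of_surjective M hπ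
  let ev : (Fin s → S) →* S := Pi.evalMonoidHom (fun _ => S) ⟨0, hs⟩
  have hev : Function.Surjective ev := fun z => ⟨fun _ => z, rfl⟩
  let g : K →* S := (ev.comp e.toMonoidHom).comp (g0.comp e1.symm.toMonoidHom)
  have hg : Function.Surjective g :=
    (hev.comp e.surjective).comp (hg0.comp e1.symm.surjective)
  let q : K ⧸ g.ker ≃* S := QuotientGroup.quotientKerEquivOfSurjective g hg
  apply kind_congr60 q
  apply h K hK g.ker
  · have : Nontrivial (K ⧸ g.ker) := q.toEquiv.nontrivial
    exact IsSimpleGroup.isSimpleGroup_of_surjective q.symm.toMonoidHom q.symm.surjective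
  · refine ⟨q.symm x, q.symm y, ?_⟩
    intro hcon
    apply hxy
    rw [← map_mul, ← map_mul] at hcon
    exact q.symm.injective hcon

end SR32
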