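import Pool.Agent.SR32.PNum
import Pool.Agent.SR32.POrb

/-!
# The tower lemma
-/

namespace SR32

universe u

theorem s64_core_comap {G G' : Type*} [Group G] [Group G'] (f : G →* G')
    (hf : Function.Surjective f) (Λ : Subgroup G') :
    (Λ.comap f).normalCore = Λ.normalCore.comap f := by
  ext x
  rw [Subgroup.mem_comap]
  constructor
  · intro h c
    obtain ⟨b, rfl⟩ := hf c
    have := h b
    rw [Subgroup.mem_comap, map_mul, map_mul, map_inv] at this
    exact this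
  · intro h b
    rw [Subgroup.mem_comap, map_mul, map_mul, map_inv]
    exact h (f b)

theorem s64_core_index {G G' : Type*} [Group G] [Group G'] (f : G →* G')
    (hf : Function.Surjective f) (Λ : Subgroup G') :
    (Λ.comap f).normalCore.index = Λ.normalCore.index := by
  rw [s64_core_comap f hf, Subgroup.index_comap_of_surjective _ hf]

theorem s64_prim_of_inj {t : ℕ} {Γ : Type u} [Group Γ] (h : PrimSmall t Γ) {G : Type u} [Group G]
    (f : G →* Γ) (hf : Function.Injective f) (Λ : Subgroup G) (hΛ : IsCoatom Λ)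
    (ht : t < Λ.index) :
    Λ.normalCore.index ≤ 2 ^ Λ.index ∨ Λ.index.factorial ≤ 2 * Λ.normalCore.index := by
  let e : G ≃* f.range := MonoidHom.ofInjective hf
  have hs : Function.Surjective e.symm.toMonoidHom := e.symm.surjective
  have hi : (Λ.comap e.symm.toMonoidHom).index = Λ.index :=
    Subgroup.index_comap_of_surjective _ hs
  have hk : (Λ.comap e.symm.toMonoidHom).normalCore.index = Λ.normalCore.index :=
    s64_core_index _ hs Λ
  have hc : IsCoatom (Λ.comap e.symm.toMonoidHom) := by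
    have := (OrderIso.isCoatom_iff (MulEquiv.comapSubgroup e.symm) Λ).mpr hΛ
    exact this
  have := h f.range (Λ.comap e.symm.toMonoidHom) hc (by rw [hi]; exact ht)
  rw [hi, hk] at this
  exact this

theorem s64_prim_sub {t : ℕ} {Γ : Type u} [Group Γ] (h : PrimSmall t Γ) (Λ : Subgroup Γ) :
    PrimSmall t Λ := by
  intro M N hN ht
  exact s64_prim_of_inj h (Λ.subtype.comp M.subtype)
    (fun a b hab => Subtype.ext (Subtype.ext hab)) N hN ht

theorem s64_alt_map {Γ : Type u} [Group Γ] (Λ : Subgroup Γ) (I O : Subgroup Λ)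
    (h : AltLayer I O) : AltLayer (I.map Λ.subtype) (O.map Λ.subtype) := by
  rcases h with h | ⟨h5, hf⟩
  · left
    rw [h]
  · right
    let e : O ≃* O.map Λ.subtype := O.equivMapOfInjective Λ.subtype Subtype.coe_injective
    have hs : Function.Surjective e.toMonoidHom := e.surjective
    have he : ((I.map Λ.subtype).subgroupOf (O.map Λ.subtype)).comap e.toMonoidHom =
        I.subgroupOf O := by
      ext x
      rw [Subgroup.mem_comap, Subgroup.mem_subgroupOf, Subgroup.mem_subgroupOf]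
      constructor
      · rintro ⟨y, hy, hyx⟩
        have : y = (x : Λ) := Subtype.ext hyx
        rw [← this]
        exact hy
      · intro hx
        exact ⟨x, hx, rfl⟩
    have hi : ((I.map Λ.subtype).subgroupOf (O.map Λ.subtype)).index =
        (I.subgroupOf O).index := by
      rw [← he, Subgroup.index_comap_of_surjective _ hs]
    have hk : ((I.map Λ.subtype).subgroupOf (O.map Λ.subtype)).normalCore.index =
        (I.subgroupOf O).normalCore.index := by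
      rw [← he, s64_core_index _ hs]
    rw [hi, hk]
    exact ⟨h5, hf⟩

theorem s64_conj_pow {Γ : Type*} [Group Γ] (g x : Γ) (n : ℕ) :
    x⁻¹ * g ^ n * x = (x⁻¹ * g * x) ^ n := by
  have := conj_pow (a := x⁻¹) (b := g) (i := n)
  rw [inv_inv] at this
  exact this.symm

/-- the conclusion of the tower lemma -/
def S64Tow (C ε : ℝ) {Γ : Type u} [Group Γ] (Δ : Subgroup Γ) : Prop :=
  ∃ (E : ℕ) (I O : Subgroup Γ), 0 < E ∧ Δ ≤ I ∧ I ≤ O ∧
      (∀ g x : Γ, x⁻¹ * g ^ E * x ∈ O) ∧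
      (∀ g : Γ, (∀ x : Γ, x⁻¹ * g * x ∈ I) → ∀ x : Γ, x⁻¹ * g ^ E * x ∈ Δ) ∧
      (E.divisors.card : ℝ) ≤ C * (orbC Γ (Γ ⧸ Δ) 3 : ℝ) ^ ε ∧ AltLayer I O

theorem s64_multi (n : ℕ) : n + 1 ≤ Nat.multichoose 3 n := by
  rw [Nat.multichoose_eq]
  have h : (3 + n - 1).choose n = (n + 2).choose 2 := by
    have : 3 + n - 1 = n + 2 := by omega
    rw [this, Nat.choose_symm_of_eq_add (by rfl : n + 2 = n + 2)]
  rw [h, Nat.choose_two_right]
  have h2 : n + 2 - 1 = n + 1 := by omega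
  rw [h2, Nat.le_div_iff_mul_le (by norm_num)]
  nlinarith

theorem s64_multi3 (n : ℕ) (hn : 1 ≤ n) : 3 ≤ Nat.multichoose 3 n := by
  rcases Nat.lt_or_ge n 2 with h | h
  · have : n = 1 := by omega
    subst this
    simp [Nat.multichoose_eq]
  · exact le_trans (by omega) (s64_multi n)

/-- case 1: few colourings -/
theorem s64_small {C ε : ℝ} (hε : 0 < ε) {V : ℕ} (hC : (2 : ℝ) ^ V ≤ C) (hPP : ∀ n, (PP n).card ≤ n)
    {Γ : Type u} [Group Γ] [Finite Γ] (Δ : Subgroup Γ) (hv : orbC Γ (Γ ⧸ Δ) 3 < V) :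
    S64Tow C ε Δ := by
  have h1 := orbC_multi Γ (Γ ⧸ Δ) 3
  have h2 := s64_multi (Nat.card (Γ ⧸ Δ))
  have hn : Δ.index < orbC Γ (Γ ⧸ Δ) 3 := by
    have : Δ.index = Nat.card (Γ ⧸ Δ) := rfl
    omega
  refine ⟨LL Δ.index, Δ, Δ, LL_pos _, le_rfl, le_rfl, fun g x => pow_LL_mem Δ g x,
    fun g _ x => pow_LL_mem Δ g x, ?_, Or.inl rfl⟩
  have h3 : ((LL Δ.index).divisors.card : ℝ) ≤ (2 : ℝ) ^ V := by
    have h4 := card_div_LL Δ.index
    have h5 : 2 ^ (PP Δ.index).card ≤ 2 ^ V :=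
      Nat.pow_le_pow_right (by norm_num) ((hPP _).trans (by omega))
    exact_mod_cast h4.trans h5
  have h6 : (1 : ℝ) ≤ (orbC Γ (Γ ⧸ Δ) 3 : ℝ) ^ ε := by
    apply Real.one_le_rpow _ hε.le
    have : 1 ≤ orbC Γ (Γ ⧸ Δ) 3 := by omega
    exact_mod_cast this
  have hC0 : (0 : ℝ) ≤ C := le_trans (by positivity) hC
  calc ((LL Δ.index).divisors.card : ℝ) ≤ (2 : ℝ) ^ V := h3
    _ ≤ C := hC
    _ = C * 1 := (mul_one C).symm
    _ ≤ C * (orbC Γ (Γ ⧸ Δ) 3 : ℝ) ^ ε := mul_le_mul_of_nonneg_left h6 hC0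

/-- case 3: the exceptional layer -/
theorem s64_exc {C ε : ℝ} {t : ℕ} (ht : 4 ≤ t) {Γ : Type u} [Group Γ] [Finite Γ]
    (Δ Λ : Subgroup Γ) (hΔ : Δ ≤ Λ) (hb : t < Λ.index)
    (hk : Λ.index.factorial ≤ 2 * Λ.normalCore.index)
    (hd : ((LL (Δ.subgroupOf Λ).index).divisors.card : ℝ) ≤ C * (orbC Γ (Γ ⧸ Δ) 3 : ℝ) ^ ε) :
    S64Tow C ε Δ := by
  refine ⟨LL (Δ.subgroupOf Λ).index, Λ, ⊤, LL_pos _, hΔ, le_top,
    fun g x => Subgroup.mem_top _, ?_, hd, ?_⟩
  · intro g hg x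
    have h := pow_LL_mem (Δ.subgroupOf Λ) ⟨x⁻¹ * g * x, hg x⟩ 1
    rw [inv_one, one_mul, mul_one, Subgroup.mem_subgroupOf] at h
    rw [s64_conj_pow]
    exact h
  · right
    have hs : Function.Surjective (⊤ : Subgroup Γ).subtype := fun x =>
      ⟨⟨x, Subgroup.mem_top x⟩, rfl⟩
    have h1 : (Λ.subgroupOf ⊤).index = Λ.index := Subgroup.index_comap_of_surjective _ hs
    have h2 : (Λ.subgroupOf ⊤).normalCore.index = Λ.normalCore.index := s64_core_index _ hs Λ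
    rw [h1, h2]
    exact ⟨by omega, hk⟩

/-- case 2: the induction step -/
theorem s64_step {C C' ε : ℝ} {Γ : Type u} [Group Γ] [Finite Γ]
    (Δ Λ : Subgroup Γ) (hΔ : Δ ≤ Λ) (ih : S64Tow C ε (Δ.subgroupOf Λ))
    (hd : ((LL Λ.index).divisors.card : ℝ) *
      (C * (orbC Λ (Λ ⧸ Δ.subgroupOf Λ) 3 : ℝ) ^ ε) ≤ C' * (orbC Γ (Γ ⧸ Δ) 3 : ℝ) ^ ε) :
    S64Tow C' ε Δ := by
  obtain ⟨E, I, O, hE, hI, hO, ha, hb, hc, hA⟩ := ih
  refine ⟨LL Λ.index * E, I.map Λ.subtype, O.map Λ.subtype, Nat.mul_pos (LL_pos _) hE, ?_,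
    Subgroup.map_mono hO, ?_, ?_, ?_, s64_alt_map Λ I O hA⟩
  · intro d hd'
    exact ⟨⟨d, hΔ hd'⟩, hI (by rw [Subgroup.mem_subgroupOf]; exact hd'), rfl⟩
  · intro g x
    have h := ha ⟨_, pow_LL_mem Λ g x⟩ 1
    rw [inv_one, one_mul, mul_one] at h
    refine ⟨_, h, ?_⟩
    show (x⁻¹ * g ^ LL Λ.index * x) ^ E = _
    rw [← s64_conj_pow, pow_mul]
  · intro g hg x
    have h := hb ⟨_, pow_LL_mem Λ g x⟩ ?_ 1
    · rw [inv_one, one_mul, mul_one, Subgroup.mem_subgroupOf] at h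
      have h' : (x⁻¹ * g ^ LL Λ.index * x) ^ E ∈ Δ := h
      rw [← s64_conj_pow, ← pow_mul] at h'
      exact h'
    · intro z
      have h1 : ((x * z)⁻¹ * g * (x * z)) ^ LL Λ.index ∈ I.map Λ.subtype :=
        Subgroup.pow_mem _ (hg (x * z)) _
      rw [← s64_conj_pow] at h1
      obtain ⟨y, hy, hyx⟩ := h1
      have : y = z⁻¹ * ⟨_, pow_LL_mem Λ g x⟩ * z := by
        apply Subtype.ext
        rw [← Subgroup.coe_subtype, hyx]
        show _ = (z : Γ)⁻¹ * (x⁻¹ * g ^ LL Λ.index * x) * z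
        group
      rw [← this]
      exact hy
  · have h1 : ((LL Λ.index * E).divisors.card : ℝ) ≤
        ((LL Λ.index).divisors.card : ℝ) * (E.divisors.card : ℝ) := by
      exact_mod_cast card_div_mul _ _
    exact h1.trans ((mul_le_mul_of_nonneg_left hc (Nat.cast_nonneg _)).trans hd)

theorem s64_numA {ε δ A : ℝ} (hε : 0 < ε) (hδ : δ = ε / 18) {b t : ℕ} {v v' : ℝ} {d : ℝ}
    (hv : 1 ≤ v) (hv' : 1 ≤ v') (hd : d ≤ Real.exp (A + δ * b))
    (hg : 3 / 2 * Real.log v' ≤ Real.log v) (hA : 6 * A / ε ≤ Real.log v)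
    (hB : 3 * (A + δ * t) / ε ≤ Real.log v) (h : (b : ℝ) / 3 ≤ Real.log v ∨ b ≤ t) :
    d * v' ^ ε ≤ v ^ ε := by
  have h1 : v' ^ ε = Real.exp (ε * Real.log v') := by
    rw [Real.rpow_def_of_pos (by linarith), mul_comm]
  have h2 : v ^ ε = Real.exp (ε * Real.log v) := by
    rw [Real.rpow_def_of_pos (by linarith), mul_comm]
  rw [h1, h2]
  calc d * Real.exp (ε * Real.log v') ≤ Real.exp (A + δ * b) * Real.exp (ε * Real.log v') :=
        mul_le_mul_of_nonneg_right hd (Real.exp_pos _).le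
    _ = Real.exp (A + δ * b + ε * Real.log v') := (Real.exp_add _ _).symm
    _ ≤ Real.exp (ε * Real.log v) := by
        apply Real.exp_le_exp.mpr
        rw [div_le_iff₀ hε] at hA hB
        have h3 : ε * Real.log v' ≤ 2 / 3 * (ε * Real.log v) := by nlinarith
        rcases h with h | h
        · have h4 : δ * b ≤ ε / 6 * Real.log v := by
            rw [hδ]
            nlinarith
          linarith
        · have h4 : δ * b ≤ δ * t := by
            have : (b : ℝ) ≤ t := by exact_mod_cast h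
            have hδ0 : 0 ≤ δ := by rw [hδ]; positivity
            exact mul_le_mul_of_nonneg_left this hδ0
          linarith

theorem s64_numB {ε δ A C : ℝ} (hε : 0 < ε) (hδ : δ = ε / 18) (hC : 1 ≤ C) {m v' : ℕ} {v d : ℝ}
    (hv : 1 ≤ v) (hm : m < v') (hd : d ≤ Real.exp (A + δ * m))
    (hg : ((v' : ℝ) - 1) * Real.log 2 ≤ Real.log v) (hA : 6 * A / ε ≤ Real.log v) :
    d ≤ C * v ^ ε := by
  have h2 : v ^ ε = Real.exp (ε * Real.log v) := by
    rw [Real.rpow_def_of_pos (by linarith), mul_comm]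
  have h3 : d ≤ Real.exp (ε * Real.log v) := by
    refine hd.trans (Real.exp_le_exp.mpr ?_)
    rw [div_le_iff₀ hε] at hA
    have h4 : (m : ℝ) ≤ (v' : ℝ) - 1 := by
      have : m + 1 ≤ v' := hm
      have : ((m + 1 : ℕ) : ℝ) ≤ v' := by exact_mod_cast this
      push_cast at this
      linarith
    have h5 : (1 : ℝ) / 2 < Real.log 2 := by
      have := Real.log_two_gt_d9
      linarith
    have hm0 : (0 : ℝ) ≤ m := Nat.cast_nonneg m
    have h6 : (m : ℝ) * (1 / 2) ≤ Real.log v := by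
      have h7 : (m : ℝ) * Real.log 2 ≤ ((v' : ℝ) - 1) * Real.log 2 :=
        mul_le_mul_of_nonneg_right h4 (by linarith)
      have h8 : (m : ℝ) * (1 / 2) ≤ (m : ℝ) * Real.log 2 :=
        mul_le_mul_of_nonneg_left h5.le hm0
      linarith
    have h9 : δ * m ≤ ε / 9 * Real.log v := by
      rw [hδ]
      nlinarith
    have h10 : 0 ≤ Real.log v := Real.log_nonneg hv
    nlinarith
  rw [h2]
  have h4 : (0 : ℝ) < Real.exp (ε * Real.log v) := Real.exp_pos _
  nlinarith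

/-- the tower lemma, with the growth in one step as a hypothesis -/
theorem s64_tower
    (grow : ∀ {t b v v' k : ℕ}, 2 ≤ b → 3 ≤ v' → Nat.multichoose v' b ≤ v →
      v' ^ b ≤ v * k → (t < b → k ≤ 2 ^ b ∨ b.factorial ≤ 2 * k) →
      3 / 2 * Real.log v' ≤ Real.log v ∧
        ((b : ℝ) / 3 ≤ Real.log v ∨ b ≤ t ∨
          (t < b ∧ b.factorial ≤ 2 * k ∧ ((v' : ℝ) - 1) * Real.log 2 ≤ Real.log v)))
    (hPP : ∀ n, (PP n).card ≤ n)
    (t : ℕ) (ht : 4 ≤ t) (ε : ℝ) (hε : 0 < ε) : ∃ C : ℝ, 1 ≤ C ∧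
    ∀ (Γ : Type u) [Group Γ] [Finite Γ] (Δ : Subgroup Γ), PrimSmall t Γ → S64Tow C ε Δ := by
  obtain ⟨A, hA0, hA⟩ := card_div_LL_exp (ε / 18) (by positivity)
  obtain ⟨V, hV⟩ : ∃ V : ℕ, ∀ v : ℕ, V ≤ v → 1 ≤ v ∧ 6 * A / ε ≤ Real.log v ∧
      3 * (A + ε / 18 * t) / ε ≤ Real.log v := by
    refine ⟨⌈Real.exp (max (6 * A / ε) (3 * (A + ε / 18 * t) / ε))⌉₊, fun v hv => ?_⟩
    have h1 : Real.exp (max (6 * A / ε) (3 * (A + ε / 18 * t) / ε)) ≤ v :=
      (Nat.le_ceil _).trans (by exact_mod_cast hv)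
    have h2 : (0 : ℝ) < v := lt_of_lt_of_le (Real.exp_pos _) h1
    have h3 := (Real.le_log_iff_exp_le h2).mpr h1
    refine ⟨by exact_mod_cast h2, (le_max_left _ _).trans h3, (le_max_right _ _).trans h3⟩
  have hC1 : (1 : ℝ) ≤ 2 ^ V := one_le_pow₀ (by norm_num)
  refine ⟨2 ^ V, hC1, ?_⟩
  have main : ∀ n : ℕ, ∀ (Γ : Type u) [Group Γ] [Finite Γ] (Δ : Subgroup Γ), Δ.index = n →
      PrimSmall t Γ → S64Tow (2 ^ V) ε Δ := by
    intro n
    induction n using Nat.strong_induction_on with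
    | _ n ih =>
      intro Γ _ _ Δ hn hP
      rcases Nat.lt_or_ge (orbC Γ (Γ ⧸ Δ) 3) V with hlt | hge
      · exact s64_small hε le_rfl hPP Δ hlt
      obtain ⟨hv1, hvA, hvB⟩ := hV _ hge
      have hv1' : (1 : ℝ) ≤ (orbC Γ (Γ ⧸ Δ) 3 : ℝ) := by exact_mod_cast hv1
      rcases eq_top_or_exists_le_coatom Δ with htop | ⟨Λ, hΛ, hΔ⟩
      · refine ⟨1, Δ, Δ, Nat.one_pos, le_rfl, le_rfl, ?_, ?_, ?_, Or.inl rfl⟩
        · intro g x
          rw [htop]
          exact Subgroup.mem_top _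
        · intro g _ x
          rw [htop]
          exact Subgroup.mem_top _
        · have h6 : (1 : ℝ) ≤ (orbC Γ (Γ ⧸ Δ) 3 : ℝ) ^ ε := Real.one_le_rpow hv1' hε.le
          rw [Nat.divisors_one, Finset.card_singleton, Nat.cast_one]
          nlinarith
      · have hb0 : Λ.index ≠ 0 := Subgroup.index_ne_zero_of_finite
        have hb1 : Λ.index ≠ 1 := fun h => hΛ.1 (Subgroup.index_eq_one.mp h)
        have hb : 2 ≤ Λ.index := by omega
        have hm0 : (Δ.subgroupOf Λ).index ≠ 0 := Subgroup.index_ne_zero_of_finite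
        have hv' : 3 ≤ orbC Λ (Λ ⧸ Δ.subgroupOf Λ) 3 := by
          refine le_trans (s64_multi3 _ ?_) (orbC_multi Λ (Λ ⧸ Δ.subgroupOf Λ) 3)
          have : Nat.card (Λ ⧸ Δ.subgroupOf Λ) = (Δ.subgroupOf Λ).index := rfl
          omega
        have hm : (Δ.subgroupOf Λ).index < orbC Λ (Λ ⧸ Δ.subgroupOf Λ) 3 := by
          have h1 := orbC_multi Λ (Λ ⧸ Δ.subgroupOf Λ) 3
          have h2 := s64_multi (Nat.card (Λ ⧸ Δ.subgroupOf Λ))
          have : Nat.card (Λ ⧸ Δ.subgroupOf Λ) = (Δ.subgroupOf Λ).index := rfl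
          omega
        have hT := orbC_tower Δ Λ hΔ
        have h1 : Nat.multichoose (orbC Λ (Λ ⧸ Δ.subgroupOf Λ) 3) Λ.index ≤
            orbC Γ (Γ ⧸ Δ) 3 := (orbC_multi Γ (Γ ⧸ Λ) _).trans hT
        have h2 : (orbC Λ (Λ ⧸ Δ.subgroupOf Λ) 3) ^ Λ.index ≤
            orbC Γ (Γ ⧸ Δ) 3 * Λ.normalCore.index :=
          (orbC_core Λ _).trans (Nat.mul_le_mul_right _ hT)
        have h3 : t < Λ.index → Λ.normalCore.index ≤ 2 ^ Λ.index ∨
            Λ.index.factorial ≤ 2 * Λ.normalCore.index := fun h =>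
          s64_prim_of_inj hP (MonoidHom.id Γ) (fun a b hab => hab) Λ hΛ h
        obtain ⟨hg, hcase⟩ := grow hb hv' h1 h2 h3
        have hidx : (Δ.subgroupOf Λ).index < n := by
          have h4 : Δ.relIndex Λ * Λ.index = Δ.index := Subgroup.relIndex_mul_index hΔ
          have h5 : Δ.relIndex Λ = (Δ.subgroupOf Λ).index := rfl
          rw [h5, hn] at h4
          rw [← h4]
          have : 0 < (Δ.subgroupOf Λ).index := Nat.pos_of_ne_zero hm0
          nlinarith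
        have hv'1 : (1 : ℝ) ≤ (orbC Λ (Λ ⧸ Δ.subgroupOf Λ) 3 : ℝ) := by
          have : 1 ≤ orbC Λ (Λ ⧸ Δ.subgroupOf Λ) 3 := by omega
          exact_mod_cast this
        have hstep : ((Λ.index : ℝ) / 3 ≤ Real.log (orbC Γ (Γ ⧸ Δ) 3 : ℝ) ∨ Λ.index ≤ t) →
            S64Tow (2 ^ V) ε Δ := by
          intro hc
          refine s64_step Δ Λ hΔ (ih _ hidx Λ (Δ.subgroupOf Λ) rfl (s64_prim_sub hP Λ)) ?_
          have h7 := s64_numA hε rfl hv1' hv'1 (hA Λ.index) hg hvA hvB hc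
          have h8 : (0 : ℝ) ≤ 2 ^ V := by positivity
          calc ((LL Λ.index).divisors.card : ℝ) *
                (2 ^ V * (orbC Λ (Λ ⧸ Δ.subgroupOf Λ) 3 : ℝ) ^ ε)
              = 2 ^ V * (((LL Λ.index).divisors.card : ℝ) *
                (orbC Λ (Λ ⧸ Δ.subgroupOf Λ) 3 : ℝ) ^ ε) := by ring
            _ ≤ 2 ^ V * (orbC Γ (Γ ⧸ Δ) 3 : ℝ) ^ ε := mul_le_mul_of_nonneg_left h7 h8
        rcases hcase with hc | hc | ⟨hc1, hc2, hc3⟩
        · exact hstep (Or.inl hc)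
        · exact hstep (Or.inr hc)
        · exact s64_exc ht Δ Λ hΔ hc1 hc2
            (s64_numB hε rfl hC1 hv1' hm (hA _) hc3 hvA)
  intro Γ _ _ Δ hP
  exact main _ Γ Δ rfl hP

end SR32
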