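import Pool.Agent.SR32.DefsFG
import Pool.Agent.SR32.FFNum
import Pool.Agent.SR32.FFKind
import Pool.Agent.SR32.FFPrim
import Pool.Agent.SR32.FFIdx
import Pool.Agent.SR32.FFPow
import Pool.Agent.SR32.FFMinS14
import Pool.Agent.SR32.FGAbs
import Pool.Agent.SR32.FGSect
import Pool.Agent.SR32.PTowerS64
import Pool.Agent.SR32.PMainS81

/-!
# The exceptional layer: the section between `UU I` and `UU O` is tame
-/

set_option autoImplicit false

namespace SR32

universe u

open Filter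

theorem fg_center {S : Type u} [Group S] (hS : IsSimpleGroup S)
    (hna : ∃ x y : S, x * y ≠ y * x) : Subgroup.center S = ⊥ := by
  obtain ⟨x, y, hxy⟩ := hna
  rcases hS.eq_bot_or_eq_top_of_normal (Subgroup.center S) inferInstance with h | h
  · exact h
  · exfalso
    apply hxy
    have h2 : x ∈ Subgroup.center S := by rw [h]; exact Subgroup.mem_top _
    exact (Subgroup.mem_center_iff.1 h2 y).symm

theorem fg_conj_aut {H : Type u} [Group H] (ψ : MulAut H) (h : H) :
    ψ * MulAut.conj h * ψ⁻¹ = MulAut.conj (ψ h) := by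
  ext x
  rw [MulAut.mul_apply, MulAut.mul_apply, MulAut.conj_apply, MulAut.conj_apply, map_mul, map_mul,
    map_inv, ← MulAut.mul_apply, mul_inv_cancel, MulAut.one_apply]

theorem fg_core_map {G G' : Type u} [Group G] [Group G'] (e : G ≃* G') (K : Subgroup G)
    (hK : K.normalCore = ⊥) : (K.map e.toMonoidHom).normalCore = ⊥ := by
  rw [Subgroup.eq_bot_iff_forall]
  intro y hy
  have h1 : e.symm y ∈ K.normalCore := by
    intro h
    have h2 := hy (e h)
    obtain ⟨k, hk, hk2⟩ := h2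
    have h3 : e k = e h * y * (e h)⁻¹ := hk2
    have h4 : k = h * e.symm y * h⁻¹ := by
      apply e.injective
      rw [h3, map_mul, map_mul, map_inv, MulEquiv.apply_symm_apply]
    rw [← h4]
    exact hk
  rw [hK, Subgroup.mem_bot] at h1
  rw [← e.apply_symm_apply y, h1, map_one]

theorem fg_quot {G G' : Type u} [Group G] [Group G'] (π : G →* G')
    (hπs : Function.Surjective π) (L : Subgroup G) (hπk : π.ker = L.normalCore)
    (hmax : IsCoatom L) :
    IsCoatom (L.map π) ∧ (L.map π).index = L.index ∧ (L.map π).normalCore = ⊥ := by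
  have hkerL : π.ker ≤ L := by rw [hπk]; exact Subgroup.normalCore_le L
  have hcm : (L.map π).comap π = L := Subgroup.comap_map_eq_self hkerL
  refine ⟨⟨?_, ?_⟩, Subgroup.index_map_eq L hπs hkerL, ?_⟩
  · intro h
    apply hmax.1
    rw [← hcm, h, Subgroup.comap_top]
  · intro U hU
    have h0 : L ≤ U.comap π := by
      intro x hx
      exact hU.le (Subgroup.mem_map_of_mem π hx)
    have h1 : L < U.comap π := by
      refine lt_of_le_of_ne h0 ?_
      intro h
      apply hU.ne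
      have h2 : (U.comap π).map π = U := Subgroup.map_comap_eq_self_of_surjective hπs U
      rw [← h] at h2
      exact h2
    have h2 := hmax.2 _ h1
    have h3 : (U.comap π).map π = U := Subgroup.map_comap_eq_self_of_surjective hπs U
    rw [h2, Subgroup.map_top_of_surjective π hπs] at h3
    exact h3.symm
  · have h1 := s64_core_comap π hπs (L.map π)
    rw [hcm, ← hπk] at h1
    have h2 : ((L.map π).normalCore.comap π).map π = (L.map π).normalCore :=
      Subgroup.map_comap_eq_self_of_surjective hπs _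
    rw [← h1] at h2
    rw [← h2, Subgroup.map_eq_bot_iff]

/-- The minimal normal subgroups of a large primitive group. -/
theorem prim_tameG (η : ℕ → ℕ) (t : ℕ) : ∃ t1 : ℕ, 4 ≤ t1 ∧ t ≤ t1 ∧
    ∀ (P : Type u) [Group P] [Finite P] (Λ : Subgroup P), IsCoatom Λ → Λ.normalCore = ⊥ →
    t1 < Λ.index → 2 ^ Λ.index < Nat.card P →
    ∀ N : Subgroup P, IsMinNormal N → (∃ x ∈ N, ∃ y ∈ N, x * y ≠ y * x) ∧
      ∃ (S : Subgroup N) (s : ℕ), IsSimpleGroup S ∧ (∃ x y : S, x * y ≠ y * x) ∧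
        (Kind η t S → s ≤ t1 * om S ^ 2) ∧ Nonempty (N ≃* (Fin s → S)) := by
  classical
  obtain ⟨K1, hK1⟩ := kind_aut.{u} η t
  obtain ⟨t2, ht2⟩ := num_big K1
  obtain ⟨t3, ht3⟩ := num_abel
  refine ⟨max (max 4 t) (max t2 t3), (le_max_left _ _).trans (le_max_left _ _),
    (le_max_right _ _).trans (le_max_left _ _), ?_⟩
  intro P _ _ Λ hΛ hcore hb hbig N hN
  have hb2 : t2 < Λ.index := lt_of_le_of_lt ((le_max_left _ _).trans (le_max_right _ _)) hb
  have hb3 : t3 < Λ.index := lt_of_le_of_lt ((le_max_right _ _).trans (le_max_right _ _)) hb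
  have hNn : N.Normal := hN.1
  have hna : ∃ x ∈ N, ∃ y ∈ N, x * y ≠ y * x := by
    by_contra h
    push Not at h
    have h1 := prim_abel Λ hΛ hcore N hN.2.1 h
    have h2 := ht3 _ hb3
    omega
  refine ⟨hna, ?_⟩
  obtain ⟨S, s, hsim, hnaS, ⟨e⟩⟩ := ff14_min_pow N hN hna
  have hcen : Subgroup.center S = ⊥ := fg_center hsim hnaS
  refine ⟨S, s, hsim, hnaS, fun hk => ?_, ⟨e⟩⟩
  have h1 : Nat.card P ≤ Λ.index * (Nat.card (MulAut S) ^ s * s.factorial) := by
    refine (prim_cent Λ hΛ hcore N hN.2.1).trans (Nat.mul_le_mul_left _ ?_)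
    rw [Nat.card_congr (MulAut.congr e).toEquiv]
    exact card_aut_pow hk.1 hcen s
  obtain ⟨h2, h3⟩ := prim_stab Λ hΛ hcore N hN.2.1
  have h4 : 2 ^ s ≤ Λ.index := by
    have h5 := idx_pow hk.1 hk.2.1 ((Λ.subgroupOf N).map e.toMonoidHom) (fg_core_map e _ h3)
    have h6 : ((Λ.subgroupOf N).map e.toMonoidHom).index = (Λ.subgroupOf N).index :=
      Subgroup.index_map_equiv (Λ.subgroupOf N) e
    rw [h6, h2] at h5
    exact h5
  have h5 : s ≤ om S ^ 2 :=
    ht2 Λ.index s (om S) (Nat.card (MulAut S)) hb2 h4 (hK1 S hk) (lt_of_lt_of_le hbig h1)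
  have h6 : 1 ≤ max (max 4 t) (max t2 t3) := by
    have : 4 ≤ max (max 4 t) (max t2 t3) := (le_max_left _ _).trans (le_max_left _ _)
    omega
  calc s ≤ 1 * om S ^ 2 := by rw [one_mul]; exact h5
    _ ≤ _ := Nat.mul_le_mul_right _ h6

theorem sect_bigG (η : ℕ → ℕ) (t : ℕ) : ∃ t1 : ℕ, 4 ≤ t1 ∧ t ≤ t1 ∧
    ∀ (H : Type u) [Group H] [Finite H] (a : ℕ) (I O : Fin a → Subgroup (MulAut H)),
    KindCF η t H → (∀ i, BigLayer t1 (I i) (O i)) →
    ∀ (N : Subgroup (UU O)) [N.Normal], N = (UU I).subgroupOf (UU O) → TameX η t1 (UU O ⧸ N) := by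
  classical
  obtain ⟨t1, ht4, htt, hprim⟩ := prim_tameG.{u} η t
  refine ⟨t1, ht4, htt, ?_⟩
  intro H _ _ a I O hCF hB N _ hN
  right
  intro M hM
  obtain ⟨m, hm, hm1⟩ : ∃ m ∈ M, m ≠ 1 := by
    by_contra h
    push Not at h
    exact hM.2.1 ((Subgroup.eq_bot_iff_forall M).2 h)
  obtain ⟨h0, rfl⟩ := QuotientGroup.mk_surjective m
  have h0N : h0 ∉ N := fun h => hm1 ((QuotientGroup.eq_one_iff h0).2 h)
  have h0I : ¬ ∀ i, ∀ x : MulAut H, x⁻¹ * MulAut.conj (h0 : H) * x ∈ I i := by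
    intro h
    apply h0N
    rw [hN, Subgroup.mem_subgroupOf]
    exact mem_UU.2 h
  push Not at h0I
  obtain ⟨i, x, hix⟩ := h0I
  have hO : ∀ h : UU O, x⁻¹ * MulAut.conj (h : H) * x ∈ O i := fun h => mem_UU.1 h.2 i x
  have hB' := hB i
  unfold BigLayer at hB'
  rcases hB' with hB' | ⟨hmax, hb, hbig⟩
  · exact absurd (hO h0) (by rw [← hB']; exact hix)
  have hfinA : Finite (MulAut H) := inferInstance
  obtain ⟨L, hL⟩ : ∃ L : Subgroup (O i), L = (I i).subgroupOf (O i) := ⟨_, rfl⟩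
  rw [← hL] at hmax hb hbig
  obtain ⟨π, hπ⟩ : ∃ π : O i →* (O i ⧸ L.normalCore), π = QuotientGroup.mk' L.normalCore :=
    ⟨_, rfl⟩
  have hπs : Function.Surjective π := by rw [hπ]; exact QuotientGroup.mk'_surjective _
  have hπk : π.ker = L.normalCore := by rw [hπ]; exact QuotientGroup.ker_mk' _
  have hkerL : π.ker ≤ L := by rw [hπk]; exact Subgroup.normalCore_le L
  obtain ⟨hΛ, hidx, hcore⟩ := fg_quot π hπs L hπk hmax
  have hfinP : Finite (O i ⧸ L.normalCore) := inferInstance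
  have hP := hprim (O i ⧸ L.normalCore) (L.map π) hΛ hcore (by rw [hidx]; exact hb)
    (by rw [hidx]; exact hbig)
  let α : UU O →* O i := MonoidHom.mk' (fun h => ⟨x⁻¹ * MulAut.conj (h : H) * x, hO h⟩) (by
    intro g h
    apply Subtype.ext
    show x⁻¹ * MulAut.conj ((g : H) * (h : H)) * x =
      (x⁻¹ * MulAut.conj (g : H) * x) * (x⁻¹ * MulAut.conj (h : H) * x)
    rw [map_mul]
    group)
  have hα : ∀ h : UU O, ((α h : O i) : MulAut H) = x⁻¹ * MulAut.conj (h : H) * x := fun h => rfl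
  have hNker : ∀ h ∈ N, (π.comp α) h = 1 := by
    intro h hh
    rw [hN, Subgroup.mem_subgroupOf] at hh
    have h1 : α h ∈ π.ker := by
      rw [hπk]
      intro o
      rw [hL, Subgroup.mem_subgroupOf]
      have h2 := mem_UU.1 hh i (x * (o : MulAut H)⁻¹)
      have h3 : ((o * α h * o⁻¹ : O i) : MulAut H) =
          (x * (o : MulAut H)⁻¹)⁻¹ * MulAut.conj (h : H) * (x * (o : MulAut H)⁻¹) := by
        rw [Subgroup.coe_mul, Subgroup.coe_mul, Subgroup.coe_inv, hα]
        group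
      rw [h3]
      exact h2
    exact h1
  have hUn : (UU O).Normal := by
    have := UU_char O
    infer_instance
  refine sec_absG htt (P := O i ⧸ L.normalCore) hP (QuotientGroup.lift N (π.comp α) hNker) ?_ M hM
    ⟨_, hm, ?_⟩ (fun hna => kindCF_sect hCF (UU O) hUn (QuotientGroup.mk' N)
      (QuotientGroup.mk'_surjective N) M hM hna)
  · intro p q
    obtain ⟨o, rfl⟩ := hπs p
    obtain ⟨h, rfl⟩ := QuotientGroup.mk_surjective q
    have hchar := UU_char O
    have hmem : (x * (o : MulAut H) * x⁻¹) (h : H) ∈ UU O := by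
      have h1 := Subgroup.characteristic_iff_map_le.1 hchar (x * (o : MulAut H) * x⁻¹)
      exact h1 ⟨h, h.2, rfl⟩
    refine ⟨QuotientGroup.mk ⟨_, hmem⟩, ?_⟩
    show π o * π (α h) * (π o)⁻¹ = π (α ⟨_, hmem⟩)
    rw [← map_mul, ← map_inv, ← map_mul]
    congr 1
    apply Subtype.ext
    rw [Subgroup.coe_mul, Subgroup.coe_mul, Subgroup.coe_inv, hα, hα]
    show (o : MulAut H) * (x⁻¹ * MulAut.conj (h : H) * x) * (o : MulAut H)⁻¹ =
      x⁻¹ * MulAut.conj ((x * (o : MulAut H) * x⁻¹) (h : H)) * x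
    rw [← fg_conj_aut]
    group
  · intro h1
    have h2 : α h0 ∈ π.ker := h1
    have h3 := hkerL h2
    rw [hL, Subgroup.mem_subgroupOf] at h3
    exact hix h3

end SR32
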