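import Pool.Agent.SR32.FFTower
import Pool.Agent.SR32.FGSec
import Pool.Agent.SR32.FGSect
import Pool.Agent.SR32.FGQuot
import Pool.Agent.SR32.PFac
import Pool.Agent.SR32.PMainS81
import Pool.Agent.SR32.SFinal

/-!
# No condition on the permutation of the simple factors; a condition on the composition factors only
-/

set_option autoImplicit false

namespace SR32

universe u

open Filter

theorem minPowX_of_CF {η : ℕ → ℕ} {t : ℕ} {H : Type u} [Group H] [Finite H]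
    (hna : ∀ M : Subgroup H, IsMinNormal M → ∃ x ∈ M, ∃ y ∈ M, x * y ≠ y * x)
    (h : KindCF η t H) : MinPowX η t H := fun M hM =>
  kindCF_sect h ⊤ inferInstance (Subgroup.topEquiv (G := H)).toMonoidHom
    (Subgroup.topEquiv (G := H)).surjective M hM (hna M hM)

theorem lowerG (t L : ℕ) (η : ℕ → ℕ) (hη : Tendsto η atTop atTop) : ∃ c : ℝ, 0 < c ∧
    ∀ (H : Type u) [Group H] [Finite H],
      (∀ M : Subgroup H, IsMinNormal M → ∃ x ∈ M, ∃ y ∈ M, x * y ≠ y * x) →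
      KindCF η t H → c * (oo H : ℝ) ^ L ≤ (om H : ℝ) := by
  classical
  obtain ⟨t1, ht4, htt, hsect⟩ := sect_bigG.{u} η t
  obtain ⟨Λ, hΛ⟩ : ∃ Λ : ℕ, Λ = 4 * (L + 1) := ⟨_, rfl⟩
  have hΛ0 : 0 < Λ := by omega
  have hΛr : (0 : ℝ) < (Λ : ℝ) := by exact_mod_cast hΛ0
  obtain ⟨C, hC1, hC⟩ := familyF.{u} t1 ht4 (1 / (Λ : ℝ)) (by positivity)
  obtain ⟨c1, hc1, hlow⟩ := tameX_lower.{u} t1 Λ η hη
  have hCpos : (0 : ℝ) < C := by linarith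
  obtain ⟨c0, hc0⟩ : ∃ c0 : ℝ, c0 = min 1 (c1 * c1 / (C ^ Λ * C ^ Λ)) := ⟨_, rfl⟩
  have hc0pos : 0 < c0 := by
    rw [hc0]
    exact lt_min one_pos (by positivity)
  refine ⟨c0, hc0pos, ?_⟩
  intro H _ _ hna hPS
  have hp := minPowX_of_CF hna hPS
  have hp1 := PMainS81.minPow_mono htt hp
  obtain ⟨a, D, hUU, hprod⟩ := exists_D hna (fun M hM => by
    obtain ⟨S, s, h1, h2⟩ := hp M hM
    exact ⟨S, s, h1.1, h2⟩)
  obtain ⟨E, I, O, hE, hDI, hIO, hO, hI, hEd, hA⟩ := hC (MulAut H) a D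
  have hcO : (UU O).Characteristic := UU_char O
  have hcI : (UU I).Characteristic := UU_char I
  have hcK : (KK H).Characteristic := KK_char
  have hKI : KK H ≤ UU I := by rw [← hUU]; exact UU_mono hDI
  have hIO' : UU I ≤ UU O := UU_mono hIO
  have hom0 : (0 : ℝ) ≤ (om H : ℝ) := Nat.cast_nonneg _
  -- the number of divisors of `E`
  have hdE : (E.divisors.card : ℝ) ^ Λ ≤ C ^ Λ * (om H : ℝ) := by
    have hP0 : (0 : ℝ) ≤ ∏ i, (orbC (MulAut H) (MulAut H ⧸ D i) 3 : ℝ) :=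
      Finset.prod_nonneg fun _ _ => Nat.cast_nonneg _
    have hP1 : ∏ i, (orbC (MulAut H) (MulAut H ⧸ D i) 3 : ℝ) ≤ (om H : ℝ) := by
      exact_mod_cast hprod
    calc (E.divisors.card : ℝ) ^ Λ
        ≤ (C * (∏ i, (orbC (MulAut H) (MulAut H ⧸ D i) 3 : ℝ)) ^ (1 / (Λ : ℝ))) ^ Λ :=
          pow_le_pow_left₀ (Nat.cast_nonneg _) hEd Λ
      _ = C ^ Λ * ∏ i, (orbC (MulAut H) (MulAut H ⧸ D i) 3 : ℝ) := by
          rw [mul_pow, ← Real.rpow_natCast (_ ^ (1 / (Λ : ℝ))) Λ, ← Real.rpow_mul hP0,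
            one_div, inv_mul_cancel₀ hΛr.ne', Real.rpow_one]
      _ ≤ C ^ Λ * (om H : ℝ) := mul_le_mul_of_nonneg_left hP1 (by positivity)
  -- the four factors
  have h1 : oo (H ⧸ UU O) ≤ E.divisors.card := by
    refine oo_le_div E hE ?_
    intro q
    obtain ⟨h, rfl⟩ := QuotientGroup.mk_surjective q
    rw [← QuotientGroup.mk_pow, QuotientGroup.eq_one_iff, mem_UU]
    intro i x
    rw [map_pow]
    exact hO i (MulAut.conj h) x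
  have h3 : oo (UU I ⧸ (KK H).subgroupOf (UU I)) ≤ E.divisors.card := by
    refine oo_le_div E hE ?_
    intro q
    obtain ⟨h, rfl⟩ := QuotientGroup.mk_surjective q
    rw [← QuotientGroup.mk_pow, QuotientGroup.eq_one_iff, Subgroup.mem_subgroupOf, ← hUU, mem_UU]
    intro i x
    rw [Subgroup.coe_pow, map_pow]
    exact hI i (MulAut.conj (h : H)) (fun x => mem_UU.1 h.2 i x) x
  have h2 : c1 * (oo (UU O ⧸ (UU I).subgroupOf (UU O)) : ℝ) ^ Λ ≤ (om H : ℝ) := by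
    have h5 := hlow (UU O ⧸ (UU I).subgroupOf (UU O)) (hsect H a I O hPS hA
      ((UU I).subgroupOf (UU O)) rfl)
    refine h5.trans ?_
    exact_mod_cast us_sect_le (UU I) (UU O)
  have h4 : c1 * (oo (KK H) : ℝ) ^ Λ ≤ (om H : ℝ) := by
    have h5 := hlow (KK H) (KK_tame (by omega) hna hp1)
    refine h5.trans ?_
    exact_mod_cast om_char_le (KK H)
  have hoo : oo H ≤ oo (H ⧸ UU O) * (oo (UU O ⧸ (UU I).subgroupOf (UU O)) *
      (oo (UU I ⧸ (KK H).subgroupOf (UU I)) * oo (KK H))) := by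
    refine (oo_le_mul (UU O)).trans (Nat.mul_le_mul_left _ ?_)
    refine (oo_le_mul ((UU I).subgroupOf (UU O))).trans (Nat.mul_le_mul_left _ ?_)
    rw [oo_congr (Subgroup.subgroupOfEquivOfLe hIO')]
    refine (oo_le_mul ((KK H).subgroupOf (UU I))).trans (Nat.mul_le_mul_left _ ?_)
    rw [oo_congr (Subgroup.subgroupOfEquivOfLe hKI)]
  obtain ⟨a1, ha1⟩ : ∃ r : ℝ, r = (oo (H ⧸ UU O) : ℝ) := ⟨_, rfl⟩
  obtain ⟨a2, ha2⟩ : ∃ r : ℝ, r = (oo (UU O ⧸ (UU I).subgroupOf (UU O)) : ℝ) := ⟨_, rfl⟩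
  obtain ⟨a3, ha3⟩ : ∃ r : ℝ, r = (oo (UU I ⧸ (KK H).subgroupOf (UU I)) : ℝ) := ⟨_, rfl⟩
  obtain ⟨a4, ha4⟩ : ∃ r : ℝ, r = (oo (KK H) : ℝ) := ⟨_, rfl⟩
  have ha10 : 0 ≤ a1 := by rw [ha1]; exact Nat.cast_nonneg _
  have ha20 : 0 ≤ a2 := by rw [ha2]; exact Nat.cast_nonneg _
  have ha30 : 0 ≤ a3 := by rw [ha3]; exact Nat.cast_nonneg _
  have ha40 : 0 ≤ a4 := by rw [ha4]; exact Nat.cast_nonneg _
  have e1 : a1 ^ Λ ≤ C ^ Λ * (om H : ℝ) := by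
    refine le_trans (pow_le_pow_left₀ ha10 ?_ Λ) hdE
    rw [ha1]
    exact_mod_cast h1
  have e3 : a3 ^ Λ ≤ C ^ Λ * (om H : ℝ) := by
    refine le_trans (pow_le_pow_left₀ ha30 ?_ Λ) hdE
    rw [ha3]
    exact_mod_cast h3
  rw [← ha2] at h2
  rw [← ha4] at h4
  have e0 : (oo H : ℝ) ≤ a1 * (a2 * (a3 * a4)) := by
    rw [ha1, ha2, ha3, ha4]
    exact_mod_cast hoo
  have hoo0 : (0 : ℝ) ≤ (oo H : ℝ) := Nat.cast_nonneg _
  have hoo1 : (1 : ℝ) ≤ (oo H : ℝ) := by exact_mod_cast oo_pos H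
  have hCC : (0 : ℝ) < C ^ Λ * C ^ Λ := by positivity
  have key : c1 * c1 / (C ^ Λ * C ^ Λ) * (oo H : ℝ) ^ Λ ≤ (om H : ℝ) ^ 4 := by
    rw [div_mul_eq_mul_div, div_le_iff₀ hCC]
    calc c1 * c1 * (oo H : ℝ) ^ Λ ≤ c1 * c1 * (a1 * (a2 * (a3 * a4))) ^ Λ :=
          mul_le_mul_of_nonneg_left (pow_le_pow_left₀ hoo0 e0 Λ) (by positivity)
      _ = (a1 ^ Λ * a3 ^ Λ) * ((c1 * a2 ^ Λ) * (c1 * a4 ^ Λ)) := by
          rw [mul_pow, mul_pow, mul_pow]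
          ring
      _ ≤ ((C ^ Λ * (om H : ℝ)) * (C ^ Λ * (om H : ℝ))) * ((om H : ℝ) * (om H : ℝ)) :=
          mul_le_mul (mul_le_mul e1 e3 (by positivity) (by positivity))
            (mul_le_mul h2 h4 (by positivity) hom0) (by positivity) (by positivity)
      _ = (om H : ℝ) ^ 4 * (C ^ Λ * C ^ Λ) := by ring
  have h6 : (c0 * (oo H : ℝ) ^ (L + 1)) ^ 4 ≤ (om H : ℝ) ^ 4 := by
    have h7 : c0 ^ 4 ≤ c0 := by
      have h8 : c0 ≤ 1 := by rw [hc0]; exact min_le_left _ _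
      calc c0 ^ 4 ≤ c0 ^ 1 := pow_le_pow_of_le_one hc0pos.le h8 (by norm_num)
        _ = c0 := pow_one _
    calc (c0 * (oo H : ℝ) ^ (L + 1)) ^ 4 = c0 ^ 4 * (oo H : ℝ) ^ Λ := by
          rw [mul_pow, ← pow_mul, hΛ, mul_comm (L + 1) 4]
      _ ≤ c0 * (oo H : ℝ) ^ Λ := mul_le_mul_of_nonneg_right h7 (by positivity)
      _ ≤ c1 * c1 / (C ^ Λ * C ^ Λ) * (oo H : ℝ) ^ Λ :=
          mul_le_mul_of_nonneg_right (by rw [hc0]; exact min_le_right _ _) (by positivity)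
      _ ≤ (om H : ℝ) ^ 4 := key
  have h7 : c0 * (oo H : ℝ) ^ (L + 1) ≤ (om H : ℝ) :=
    (pow_le_pow_iff_left₀ (by positivity) hom0 (by norm_num)).1 h6
  refine le_trans ?_ h7
  exact mul_le_mul_of_nonneg_left (pow_le_pow_right₀ hoo1 (Nat.le_succ L)) hc0pos.le

theorem main_boundG (t : ℕ) (η : ℕ → ℕ) (hη : Tendsto η atTop atTop) : ∃ B : ℕ → ℕ → ℕ,
    ∀ (G : Type u) [Group G] [Finite G] [Nontrivial G],
    KindCF η t G →
    ∀ L m : ℕ, ll G ≤ L → oo (Rad G) ≤ m → Nat.card (G ⧸ Rad G) ≤ B L m := by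
  classical
  choose c hc0 hc using fun L => lowerG.{u} t L η hη
  choose B hB using fun Ω => ybound_of_om.{u} η Ω t
  refine ⟨fun L m => B ((m * ⌈(m : ℝ) ^ L / c (L + 1)⌉₊) ^ L), ?_⟩
  intro G _ _ _ hkind L m hL hm
  have hna : ∀ M : Subgroup (G ⧸ Rad G), IsMinNormal M → ∃ x ∈ M, ∃ y ∈ M, x * y ≠ y * x :=
    fun M hM => minNormal_nonab M hM
  have hsec : KindCF η t (G ⧸ Rad G) := kindCF_quot (Rad G) hkind
  apply hB _ (G ⧸ Rad G) hna (minPowY_of_X (minPowX_of_CF hna hsec))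
  have h2 := hc (L + 1) (G ⧸ Rad G) hna hsec
  set H := G ⧸ Rad G with hH
  have h1 : om H ≤ (m * oo H) ^ L := by
    calc om H ≤ om G := om_quot_le _
      _ ≤ oo G ^ L := om_le_pow L hL
      _ ≤ (oo (G ⧸ Rad G) * oo (Rad G)) ^ L := Nat.pow_le_pow_left (oo_le_mul _) L
      _ ≤ (m * oo H) ^ L := by
        apply Nat.pow_le_pow_left
        rw [mul_comm m]
        exact Nat.mul_le_mul_left _ hm
  have hooH : (0 : ℝ) < (oo H : ℝ) := by exact_mod_cast oo_pos H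
  have hcp : (0 : ℝ) < c (L + 1) := hc0 _
  have h3 : (om H : ℝ) ≤ ((m : ℝ) * oo H) ^ L := by exact_mod_cast h1
  have h4 : c (L + 1) * (oo H : ℝ) ≤ (m : ℝ) ^ L := by
    have h5 : c (L + 1) * (oo H : ℝ) ^ (L + 1) ≤ (m : ℝ) ^ L * (oo H : ℝ) ^ L := by
      rw [← mul_pow]
      exact h2.trans h3
    rw [pow_succ, ← mul_assoc, mul_right_comm] at h5
    exact le_of_mul_le_mul_right h5 (pow_pos hooH _)
  have h5 : oo H ≤ ⌈(m : ℝ) ^ L / c (L + 1)⌉₊ := by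
    have h6 : (oo H : ℝ) ≤ (m : ℝ) ^ L / c (L + 1) := by
      rw [le_div_iff₀ hcp, mul_comm]
      exact h4
    exact_mod_cast h6.trans (Nat.le_ceil _)
  exact h1.trans (Nat.pow_le_pow_left (Nat.mul_le_mul_left m h5) L)

theorem finalG (t : ℕ) (η : ℕ → ℕ) (hη : Tendsto η atTop atTop) : ∃ f : ℝ → ℝ → ℝ,
    (∀ x y, 1 ≤ x → 1 ≤ y → 1 ≤ f x y) ∧ (∀ y, StrictMono (fun x => f x y)) ∧
    (∀ x, StrictMono (fun y => f x y)) ∧
    ∀ (G : Type u) [Group G] [Finite G] [Nontrivial G], KindCF η t G →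
      ((Rad G).index : ℝ) ≤ f (ll G) (oo (Rad G)) := by
  obtain ⟨B, hB⟩ := main_boundG.{u} t η hη
  obtain ⟨f, h1, h2, h3, h4⟩ := exists_mono B
  refine ⟨f, h1, h2, h3, ?_⟩
  intro G _ _ _ hkind
  have h5 := hB G hkind ⌈ll G⌉₊ ⌈((oo (Rad G) : ℕ) : ℝ)⌉₊ (Nat.le_ceil _) (by
    rw [Nat.ceil_natCast])
  have h6 := h4 (ll G) (oo (Rad G)) (ll_nonneg G) (Nat.cast_nonneg _)
  have h7 : ((Rad G).index : ℝ) ≤ (B ⌈ll G⌉₊ ⌈((oo (Rad G) : ℕ) : ℝ)⌉₊ : ℝ) := by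
    exact_mod_cast h5
  exact h7.trans h6

end SR32
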