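import Pool.Agent.SR32.DefsFG
import Pool.Agent.SR32.FFKind

/-!
# Composition factors of quotients
-/

set_option autoImplicit false

namespace SR32

universe u

theorem subnormal_comap81 {G G' : Type u} [Group G] [Group G'] (f : G →* G') {K : Subgroup G'}
    (h : K.IsSubnormal) : (K.comap f).IsSubnormal := by
  induction h with
  | top => rw [Subgroup.comap_top]; exact Subgroup.IsSubnormal.top
  | step A B hle _ hN ih =>
    refine Subgroup.IsSubnormal.step _ _ (Subgroup.comap_mono hle) ih ⟨?_⟩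
    rintro ⟨a, ha⟩ haA ⟨b, hb⟩
    have h1 := hN.conj_mem ⟨f a, ha⟩ haA ⟨f b, hb⟩
    rw [Subgroup.mem_subgroupOf] at h1 ⊢
    show f (b * a * b⁻¹) ∈ A
    rw [map_mul, map_mul, map_inv]
    exact h1

theorem kindCF_quot81 {η : ℕ → ℕ} {t : ℕ} {G : Type u} [Group G] (R : Subgroup G) [R.Normal]
    (h : KindCF η t G) : KindCF η t (G ⧸ R) := by
  intro K hK N _ hs hna
  let π : G →* G ⧸ R := QuotientGroup.mk' R
  let f : K.comap π →* K ⧸ N := (QuotientGroup.mk' N).comp (π.subgroupComap K)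
  have hf : Function.Surjective f := by
    intro q
    obtain ⟨⟨k, hk⟩, rfl⟩ := QuotientGroup.mk_surjective q
    obtain ⟨g, rfl⟩ := QuotientGroup.mk'_surjective R k
    exact ⟨⟨g, hk⟩, rfl⟩
  have e : (K.comap π) ⧸ f.ker ≃* K ⧸ N := QuotientGroup.quotientKerEquivOfSurjective f hf
  obtain ⟨x, y, hxy⟩ := hna
  refine kind_congr e (h (K.comap π) (subnormal_comap81 π hK) f.ker
    ((MulEquiv.isSimpleGroup_congr e).2 hs) ⟨e.symm x, e.symm y, fun h1 => hxy ?_⟩)
  apply e.symm.injective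
  rw [map_mul, map_mul, h1]

end SR32
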