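import Mathlib

/-!
# SR32/FIdxS60: a subgroup of `T ^ n` without nontrivial normal subgroups of `T ^ n` has index at
least `2 ^ (n / 2)`

`R Q` = the tuples that are trivial outside `Q`, `K Q = R Q ⊔ U`. For a minimal `P` with `K P = ⊤`
the indices of `U` in `K Q`, `Q ⊆ P`, double in each step, so `2 ^ |P| ≤ (T ^ n : U)`; and
`R (Pᶜ)` meets `U` trivially, so `2 ^ (n - |P|) ≤ (T ^ n : U)`.
-/

namespace SR32.S60

section Idx

variable {n : ℕ} {T : Type*} [Group T]

/-- the tuples that are trivial outside `Q` -/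
def RQ (T : Type*) [Group T] (Q : Finset (Fin n)) : Subgroup (Fin n → T) where
  carrier := {x | ∀ i, i ∉ Q → x i = 1}
  one_mem' := fun _ _ => rfl
  mul_mem' := by
    intro x y hx hy i hi
    rw [Pi.mul_apply, hx i hi, hy i hi, one_mul]
  inv_mem' := by
    intro x hx i hi
    rw [Pi.inv_apply, hx i hi, inv_one]

theorem mem_RQ {Q : Finset (Fin n)} {x : Fin n → T} : x ∈ RQ T Q ↔ ∀ i, i ∉ Q → x i = 1 :=
  Iff.rfl

instance RQ_normal (Q : Finset (Fin n)) : (RQ T Q).Normal := by
  constructor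
  intro x hx g i hi
  rw [Pi.mul_apply, Pi.mul_apply, Pi.inv_apply, hx i hi, mul_one, mul_inv_cancel]

theorem RQ_mono {Q Q' : Finset (Fin n)} (h : Q ⊆ Q') : RQ T Q ≤ RQ T Q' :=
  fun _ hx i hi => hx i fun hi' => hi (h hi')

theorem RQ_univ : RQ T (Finset.univ : Finset (Fin n)) = ⊤ := by
  rw [eq_top_iff]
  intro x _ i hi
  exact absurd (Finset.mem_univ i) hi

theorem RQ_erase (P : Finset (Fin n)) (i : Fin n) :
    RQ T P ≤ RQ T (P.erase i) ⊔ RQ T {i} := by
  classical
  intro x hx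
  have h1 : x = (Function.update x i 1) * (Pi.mulSingle i (x i)) := by
    funext j
    by_cases hj : j = i
    · subst hj
      simp
    · simp [Function.update_of_ne hj, Pi.mulSingle_eq_of_ne hj]
  rw [h1]
  refine Subgroup.mul_mem_sup ?_ ?_
  · intro j hj
    by_cases hji : j = i
    · subst hji
      simp
    · rw [Function.update_of_ne hji]
      apply hx
      intro hjP
      exact hj (Finset.mem_erase.2 ⟨hji, hjP⟩)
  · intro j hj
    have hji : j ≠ i := fun h => hj (Finset.mem_singleton.2 h)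
    rw [Pi.mulSingle_eq_of_ne hji]

theorem RQ_comm {P : Finset (Fin n)} {x y : Fin n → T} (hx : x ∈ RQ T P) (hy : y ∈ RQ T Pᶜ) :
    x * y = y * x := by
  funext i
  by_cases hi : i ∈ P
  · have h1 : y i = 1 := hy i (by simpa using hi)
    rw [Pi.mul_apply, Pi.mul_apply, h1, one_mul, mul_one]
  · rw [Pi.mul_apply, Pi.mul_apply, hx i hi, one_mul, mul_one]

theorem card_RQ_ge [Finite T] [Nontrivial T] (Q : Finset (Fin n)) :
    2 ^ Q.card ≤ Nat.card (RQ T Q) := by
  classical
  obtain ⟨t, ht⟩ := exists_ne (1 : T)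
  let f : {S : Finset (Fin n) // S ∈ Q.powerset} → RQ T Q := fun S =>
    ⟨fun i => if i ∈ S.1 then t else 1, fun i hi =>
      if_neg fun h => hi (Finset.mem_powerset.1 S.2 h)⟩
  have hf : Function.Injective f := by
    intro S S' h
    apply Subtype.ext
    ext i
    have h1 := congrFun (congrArg Subtype.val h) i
    have h2 : (if i ∈ S.1 then t else 1) = (if i ∈ S'.1 then t else 1) := h1
    by_cases h3 : i ∈ S.1 <;> by_cases h4 : i ∈ S'.1
    · exact iff_of_true h3 h4
    · rw [if_pos h3, if_neg h4] at h2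
      exact absurd h2 ht
    · rw [if_neg h3, if_pos h4] at h2
      exact absurd h2.symm ht
    · exact iff_of_false h3 h4
  have h1 := Nat.card_le_card_of_injective f hf
  have h2 : Nat.card {S : Finset (Fin n) // S ∈ Q.powerset} = 2 ^ Q.card := by
    rw [Nat.card_eq_fintype_card, Fintype.card_coe, Finset.card_powerset]
  rwa [h2] at h1

theorem relIndex_ne {G : Type*} [Group G] [Finite G] (U K : Subgroup G) : U.relIndex K ≠ 0 := by
  unfold Subgroup.relIndex
  exact Subgroup.index_ne_zero_of_finite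

theorem relIndex_ge [Finite T] (U : Subgroup (Fin n → T)) (P : Finset (Fin n))
    (hmin : ∀ i ∈ P, RQ T (P.erase i) ⊔ U ≠ ⊤) (hP : RQ T P ⊔ U = ⊤) (Q : Finset (Fin n)) :
    Q ⊆ P → 2 ^ Q.card ≤ U.relIndex (RQ T Q ⊔ U) := by
  classical
  induction Q using Finset.induction_on with
  | empty =>
    intro _
    rw [Finset.card_empty, pow_zero]
    exact Nat.one_le_iff_ne_zero.2 (relIndex_ne U _)
  | insert i Q hi ih =>
    intro hQ
    have hQP : Q ⊆ P := (Finset.subset_insert i Q).trans hQ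
    have hiP : i ∈ P := hQ (Finset.mem_insert_self i Q)
    have h1 := ih hQP
    have hle : RQ T Q ⊔ U ≤ RQ T (insert i Q) ⊔ U :=
      sup_le_sup_right (RQ_mono (Finset.subset_insert i Q)) U
    have hne : ¬ RQ T (insert i Q) ⊔ U ≤ RQ T Q ⊔ U := by
      intro h
      apply hmin i hiP
      have h2 : RQ T Q ⊔ U ≤ RQ T (P.erase i) ⊔ U :=
        sup_le_sup_right (RQ_mono fun j hj => Finset.mem_erase.2
          ⟨fun hji : j = i => hi (hji ▸ hj), hQP hj⟩) U
      have h3 : RQ T {i} ≤ RQ T (P.erase i) ⊔ U :=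
        ((RQ_mono (Finset.singleton_subset_iff.2 (Finset.mem_insert_self i Q))).trans
          le_sup_left).trans (h.trans h2)
      have h4 : RQ T P ≤ RQ T (P.erase i) ⊔ U :=
        (RQ_erase P i).trans (sup_le le_sup_left h3)
      rw [eq_top_iff, ← hP]
      exact sup_le h4 le_sup_right
    have h2 := Subgroup.relIndex_mul_relIndex U (RQ T Q ⊔ U) (RQ T (insert i Q) ⊔ U)
      le_sup_right hle
    have h3 : 2 ≤ (RQ T Q ⊔ U).relIndex (RQ T (insert i Q) ⊔ U) := by
      have h4 : (RQ T Q ⊔ U).relIndex (RQ T (insert i Q) ⊔ U) ≠ 0 := relIndex_ne _ _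
      have h5 : (RQ T Q ⊔ U).relIndex (RQ T (insert i Q) ⊔ U) ≠ 1 := by
        intro h
        exact hne (Subgroup.relIndex_eq_one.1 h)
      omega
    rw [Finset.card_insert_of_notMem hi, pow_succ, ← h2]
    exact Nat.mul_le_mul h1 h3

theorem two_pow_le_index_sq [Finite T] [Nontrivial T] (U : Subgroup (Fin n → T))
    (hU : U.normalCore = ⊥) : 2 ^ n ≤ U.index ^ 2 := by
  classical
  -- a minimal `P`
  obtain ⟨P, hP, hmin⟩ := Finset.exists_min_image
    ((Finset.univ : Finset (Finset (Fin n))).filter fun P => RQ T P ⊔ U = ⊤) Finset.card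
    ⟨Finset.univ, by simp [RQ_univ]⟩
  have hPtop : RQ T P ⊔ U = ⊤ := (Finset.mem_filter.1 hP).2
  have h1 : ∀ i ∈ P, RQ T (P.erase i) ⊔ U ≠ ⊤ := by
    intro i hi h
    have h2 := hmin (P.erase i) (Finset.mem_filter.2 ⟨Finset.mem_univ _, h⟩)
    have h3 := Finset.card_erase_lt_of_mem hi
    omega
  have h2 : 2 ^ P.card ≤ U.index := by
    have h3 := relIndex_ge U P h1 hPtop P (Finset.Subset.refl P)
    rwa [hPtop, Subgroup.relIndex_top_right] at h3
  -- the complementary factor meets `U` trivially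
  have h3 : 2 ^ (Pᶜ).card ≤ U.index := by
    have hdisj : ∀ x ∈ RQ T Pᶜ, x ∈ U → x = 1 := by
      intro x hx hxU
      have hcore : x ∈ U.normalCore := by
        intro g
        have hg : g ∈ RQ T P ⊔ U := by rw [hPtop]; exact Subgroup.mem_top g
        rw [Subgroup.mem_sup_of_normal_left] at hg
        obtain ⟨r, hr, u, hu, rfl⟩ := hg
        have e1 : r * u * x * (r * u)⁻¹ = r * (u * x * u⁻¹) * r⁻¹ := by group
        have hux : u * x * u⁻¹ ∈ RQ T Pᶜ := (RQ_normal Pᶜ).conj_mem x hx u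
        have e2 : r * (u * x * u⁻¹) * r⁻¹ = u * x * u⁻¹ := by
          rw [RQ_comm hr hux, mul_assoc, mul_inv_cancel, mul_one]
        rw [e1, e2]
        exact U.mul_mem (U.mul_mem hu hxU) (U.inv_mem hu)
      rw [hU, Subgroup.mem_bot] at hcore
      exact hcore
    refine (card_RQ_ge (T := T) Pᶜ).trans ?_
    rw [Subgroup.index]
    refine Nat.card_le_card_of_injective
      (fun x : RQ T Pᶜ => (QuotientGroup.mk (x : Fin n → T) : (Fin n → T) ⧸ U)) ?_
    intro x y hxy
    have h4 : (x : Fin n → T)⁻¹ * y ∈ U := QuotientGroup.eq.1 hxy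
    have h5 := hdisj _ ((RQ T Pᶜ).mul_mem ((RQ T Pᶜ).inv_mem x.2) y.2) h4
    exact Subtype.ext (inv_mul_eq_one.1 h5)
  have h4 : P.card + (Pᶜ).card = n := by
    rw [Finset.card_add_card_compl, Fintype.card_fin]
  calc 2 ^ n = 2 ^ P.card * 2 ^ (Pᶜ).card := by rw [← pow_add, h4]
    _ ≤ U.index * U.index := Nat.mul_le_mul h2 h3
    _ = U.index ^ 2 := (sq _).symm

end Idx

end SR32.S60
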