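import Mathlib

/-!
# SR32/FIdxS92: subgroups of powers of a simple group that contain no factor (helper92)
-/

set_option autoImplicit false

namespace SR32

namespace S92

universe u

/-- the values at `i` of the elements of `U` that are trivial on `J` -/
def val {ι : Type} {T : Type u} [Group T] (U : Subgroup (ι → T)) (J : Finset ι) (i : ι) :
    Subgroup T where
  carrier := {x | ∃ u ∈ U, (∀ j ∈ J, u j = 1) ∧ u i = x}
  one_mem' := ⟨1, U.one_mem, fun _ _ => rfl, rfl⟩
  mul_mem' := by
    rintro a b ⟨u, hu, hu1, rfl⟩ ⟨v, hv, hv1, rfl⟩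
    exact ⟨u * v, U.mul_mem hu hv, fun j hj => by rw [Pi.mul_apply, hu1 j hj, hv1 j hj, one_mul],
      rfl⟩
  inv_mem' := by
    rintro a ⟨u, hu, hu1, rfl⟩
    exact ⟨u⁻¹, U.inv_mem hu, fun j hj => by rw [Pi.inv_apply, hu1 j hj, inv_one], rfl⟩

theorem val_normal {ι : Type} {T : Type u} [Group T] (U : Subgroup (ι → T)) {i : ι}
    (hfull : ∀ x : T, ∃ u ∈ U, u i = x) (J : Finset ι) : (val U J i).Normal := by
  constructor
  rintro _ ⟨u, hu, hu1, rfl⟩ g
  obtain ⟨v, hv, rfl⟩ := hfull g
  exact ⟨v * u * v⁻¹, U.mul_mem (U.mul_mem hv hu) (U.inv_mem hv), fun j hj => by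
    rw [Pi.mul_apply, Pi.mul_apply, Pi.inv_apply, hu1 j hj, mul_one, mul_inv_cancel], rfl⟩

theorem exists_dep {ι : Type} [Fintype ι] [DecidableEq ι] {T : Type u} [Group T]
    [IsSimpleGroup T] (hna : ∃ x y : T, x * y ≠ y * x) (U : Subgroup (ι → T))
    (hfull : ∀ (i : ι) (x : T), ∃ u ∈ U, u i = x)
    (hU : ∀ i, ∃ x : T, Pi.mulSingle i x ∉ U) (i : ι) :
    ∃ j, j ≠ i ∧ ∀ u ∈ U, u j = 1 → u i = 1 := by
  by_contra hcon
  push Not at hcon
  have key : ∀ J : Finset ι, i ∉ J → val U J i = ⊤ := by
    intro J
    induction J using Finset.induction_on with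
    | empty =>
      intro _
      rw [Subgroup.eq_top_iff']
      intro x
      obtain ⟨u, hu, hux⟩ := hfull i x
      exact ⟨u, hu, fun j hj => absurd hj (Finset.notMem_empty j), hux⟩
    | insert j J hj ih =>
      intro hi
      have hij : j ≠ i := fun h => hi (h ▸ Finset.mem_insert_self j J)
      have hiJ : i ∉ J := fun h => hi (Finset.mem_insert_of_mem h)
      have ih' := ih hiJ
      have hK : val U {j} i = ⊤ := by
        rcases (val_normal U (hfull i) {j}).eq_bot_or_eq_top with h | h
        · exfalso
          obtain ⟨u, hu, hu1, hu2⟩ := hcon j hij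
          apply hu2
          have : u i ∈ val U {j} i := ⟨u, hu, fun k hk => by
            rw [Finset.mem_singleton] at hk
            rw [hk]
            exact hu1, rfl⟩
          rw [h, Subgroup.mem_bot] at this
          exact this
        · exact h
      rcases (val_normal U (hfull i) (insert j J)).eq_bot_or_eq_top with h | h
      · exfalso
        obtain ⟨a, b, hab⟩ := hna
        have ha : a ∈ val U J i := by rw [ih']; exact Subgroup.mem_top _
        have hb : b ∈ val U {j} i := by rw [hK]; exact Subgroup.mem_top _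
        obtain ⟨u, hu, hu1, hu2⟩ := ha
        obtain ⟨w, hw, hw1, hw2⟩ := hb
        have hwj : w j = 1 := hw1 j (Finset.mem_singleton_self j)
        have hc : a * b * a⁻¹ * b⁻¹ ∈ val U (insert j J) i := by
          refine ⟨u * w * u⁻¹ * w⁻¹, U.mul_mem (U.mul_mem (U.mul_mem hu hw) (U.inv_mem hu))
            (U.inv_mem hw), ?_, ?_⟩
          · intro k hk
            rw [Pi.mul_apply, Pi.mul_apply, Pi.mul_apply, Pi.inv_apply, Pi.inv_apply]
            rcases Finset.mem_insert.1 hk with rfl | hk
            · rw [hwj]
              group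
            · rw [hu1 k hk]
              group
          · rw [Pi.mul_apply, Pi.mul_apply, Pi.mul_apply, Pi.inv_apply, Pi.inv_apply, hu2, hw2]
        rw [h, Subgroup.mem_bot] at hc
        apply hab
        have h1 : a * b * a⁻¹ = b := by
          rw [mul_inv_eq_one] at hc
          exact hc
        calc a * b = a * b * a⁻¹ * a := by group
          _ = b * a := by rw [h1]
      · exact h
  obtain ⟨x, hx⟩ := hU i
  apply hx
  have h1 : x ∈ val U (Finset.univ.erase i) i := by
    rw [key _ (Finset.notMem_erase i _)]
    exact Subgroup.mem_top _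
  obtain ⟨u, hu, hu1, hu2⟩ := h1
  have h2 : u = Pi.mulSingle i x := by
    funext k
    by_cases hk : k = i
    · subst hk
      rw [Pi.mulSingle_eq_same, hu2]
    · rw [Pi.mulSingle_eq_of_ne hk]
      exact hu1 k (Finset.mem_erase.2 ⟨hk, Finset.mem_univ k⟩)
  rw [← h2]
  exact hu

theorem four_le_card {T : Type u} [Group T] [Finite T] (hna : ∃ x y : T, x * y ≠ y * x) :
    4 ≤ Nat.card T := by
  classical
  obtain ⟨x, y, hxy⟩ := hna
  have := Fintype.ofFinite T
  rw [Nat.card_eq_fintype_card]
  have hx : x ≠ 1 := by
    rintro rfl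
    simp at hxy
  have hy : y ≠ 1 := by
    rintro rfl
    simp at hxy
  have hne : x ≠ y := by
    rintro rfl
    exact hxy rfl
  have h1 : x * y ≠ 1 := by
    intro h
    apply hxy
    rw [h]
    have : y = x⁻¹ := eq_inv_of_mul_eq_one_right h
    rw [this, inv_mul_cancel]
  have h2 : x * y ≠ x := by
    intro h
    exact hy (mul_eq_left.1 h)
  have h3 : x * y ≠ y := by
    intro h
    exact hx (mul_eq_right.1 h)
  have hc : ({1, x, y, x * y} : Finset T).card = 4 := by
    rw [Finset.card_insert_of_notMem, Finset.card_insert_of_notMem, Finset.card_insert_of_notMem,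
      Finset.card_singleton]
    · rw [Finset.mem_singleton]
      exact h3.symm
    · rw [Finset.mem_insert, Finset.mem_singleton]
      rintro (h | h)
      · exact hne h
      · exact h2 h.symm
    · rw [Finset.mem_insert, Finset.mem_insert, Finset.mem_singleton]
      rintro (h | h | h)
      · exact hx h.symm
      · exact hy h.symm
      · exact h1 h.symm
  rw [← hc]
  exact Finset.card_le_univ _

/-- subdirect subgroups without factors -/
theorem card_full {ι : Type} [Fintype ι] [DecidableEq ι] {T : Type u} [Group T] [Finite T]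
    [IsSimpleGroup T] (hna : ∃ x y : T, x * y ≠ y * x) (U : Subgroup (ι → T))
    (hfull : ∀ (i : ι) (x : T), ∃ u ∈ U, u i = x)
    (hU : ∀ i, ∃ x : T, Pi.mulSingle i x ∉ U) :
    2 ^ Fintype.card ι * Nat.card U ≤ Nat.card T ^ Fintype.card ι := by
  classical
  have hdep := exists_dep hna U hfull hU
  choose J hJ1 hJ2 using hdep
  have hJ3 : ∀ i, ∀ u ∈ U, u i = 1 → u (J i) = 1 := by
    intro i u hu hui
    rcases (val_normal U (hfull (J i)) {i}).eq_bot_or_eq_top with h | h
    · have : u (J i) ∈ val U {i} (J i) := ⟨u, hu, fun k hk => by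
        rw [Finset.mem_singleton] at hk
        rw [hk]
        exact hui, rfl⟩
      rw [h, Subgroup.mem_bot] at this
      exact this
    · exfalso
      obtain ⟨a, b, hab⟩ := hna
      have hall : ∀ y : T, y = 1 := by
        intro y
        obtain ⟨v, hv, hvy⟩ := hfull i y
        have hm : v (J i) ∈ val U {i} (J i) := by rw [h]; exact Subgroup.mem_top _
        obtain ⟨w, hw, hw1, hw2⟩ := hm
        have hwi : w i = 1 := hw1 i (Finset.mem_singleton_self i)
        have h1 := hJ2 i (v * w⁻¹) (U.mul_mem hv (U.inv_mem hw)) (by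
          rw [Pi.mul_apply, Pi.inv_apply, hw2, mul_inv_cancel])
        rw [Pi.mul_apply, Pi.inv_apply, hwi, inv_one, mul_one, hvy] at h1
        exact h1
      apply hab
      rw [hall a, hall b]
  let r : Setoid ι :=
    { r := fun i j => ∀ u ∈ U, u i = 1 ↔ u j = 1
      iseqv := ⟨fun i u _ => Iff.rfl, fun h u hu => (h u hu).symm,
        fun h h' u hu => (h u hu).trans (h' u hu)⟩ }
  have hfq : Finite (Quotient r) := Quotient.finite _
  have hrJ : ∀ i, r.r i (J i) := fun i u hu => ⟨hJ3 i u hu, hJ2 i u hu⟩
  -- the number of classes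
  have h2q : 2 * Nat.card (Quotient r) ≤ Fintype.card ι := by
    have h1 : Nat.card (Bool × Quotient r) = 2 * Nat.card (Quotient r) := by
      rw [Nat.card_prod, Nat.card_eq_fintype_card (α := Bool), Fintype.card_bool]
    rw [← h1, ← Nat.card_eq_fintype_card (α := ι)]
    refine Nat.card_le_card_of_injective
      (fun p : Bool × Quotient r => if p.1 = true then Quotient.out p.2 else J (Quotient.out p.2)) ?_
    rintro ⟨b, q⟩ ⟨b', q'⟩ h
    have hcl : ∀ (b : Bool) (q : Quotient r),
        (Quotient.mk r (if b = true then Quotient.out q else J (Quotient.out q))) = q := by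
      intro b q
      cases b
      · rw [if_neg Bool.false_ne_true]
        have : Quotient.mk r (J (Quotient.out q)) = Quotient.mk r (Quotient.out q) :=
          Quotient.sound (r.symm (hrJ (Quotient.out q)))
        rw [this, Quotient.out_eq]
      · rw [if_pos rfl, Quotient.out_eq]
    have hqq : q = q' := by
      have := congrArg (Quotient.mk r) h
      simp only [] at this
      rw [hcl b q, hcl b' q'] at this
      exact this
    subst hqq
    have hbb : b = b' := by
      cases b <;> cases b'
      · rfl
      · exfalso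
        simp only [Bool.false_eq_true, if_false, if_true] at h
        exact hJ1 _ h
      · exfalso
        simp only [Bool.false_eq_true, if_false, if_true] at h
        exact hJ1 _ h.symm
      · rfl
    rw [hbb]
  -- the order of `U`
  have hcU : Nat.card U ≤ Nat.card T ^ Nat.card (Quotient r) := by
    have hft : Fintype (Quotient r) := Fintype.ofFinite _
    have h1 : Nat.card (Quotient r → T) = Nat.card T ^ Nat.card (Quotient r) := by
      rw [Nat.card_fun]
    rw [← h1]
    refine Nat.card_le_card_of_injective (fun (u : U) (q : Quotient r) =>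
      (u : ι → T) (Quotient.out q)) ?_
    intro u v huv
    apply Subtype.ext
    funext i
    have h2 : ((u : ι → T) * (v : ι → T)⁻¹) (Quotient.out (Quotient.mk r i)) = 1 := by
      have := congrFun huv (Quotient.mk r i)
      simp only [] at this
      rw [Pi.mul_apply, Pi.inv_apply, this, mul_inv_cancel]
    have h3 : r.r (Quotient.out (Quotient.mk r i)) i := Quotient.exact (Quotient.out_eq _)
    have h4 := (h3 _ (U.mul_mem u.2 (U.inv_mem v.2))).1 h2
    rw [Pi.mul_apply, Pi.inv_apply, mul_inv_eq_one] at h4
    exact h4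
  have hT := four_le_card hna
  set q := Nat.card (Quotient r) with hq
  set n := Fintype.card ι with hn
  have hTn : Nat.card T ^ n = Nat.card T ^ (n - q) * Nat.card T ^ q := by
    rw [← pow_add]
    congr 1
    omega
  rw [hTn]
  apply Nat.mul_le_mul _ hcU
  calc 2 ^ n ≤ 2 ^ (2 * (n - q)) := Nat.pow_le_pow_right (by norm_num) (by omega)
    _ = 4 ^ (n - q) := by rw [pow_mul]; norm_num
    _ ≤ Nat.card T ^ (n - q) := Nat.pow_le_pow_left hT _

theorem card_pow_le {T : Type u} [Group T] [Finite T]
    [IsSimpleGroup T] (hna : ∃ x y : T, x * y ≠ y * x) (n : ℕ) :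
    ∀ (ι : Type) [Fintype ι] [DecidableEq ι] (_ : Fintype.card ι = n) (U : Subgroup (ι → T))
      (_ : ∀ i, ∃ x : T, Pi.mulSingle i x ∉ U), 2 ^ n * Nat.card U ≤ Nat.card T ^ n := by
  classical
  induction n with
  | zero =>
    intro ι _ _ hι U hU
    have h1 : IsEmpty ι := Fintype.card_eq_zero_iff.1 hι
    have h2 : Subsingleton (ι → T) := inferInstance
    have h3 : Nat.card U ≤ 1 := Finite.card_le_one_iff_subsingleton.2 inferInstance
    simpa using h3
  | succ n ih =>
    intro ι _ _ hι U hU
    by_cases hfull : ∀ (i : ι) (x : T), ∃ u ∈ U, u i = x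
    · rw [← hι]
      exact card_full hna U hfull hU
    · push Not at hfull
      obtain ⟨i, x, hix⟩ := hfull
      -- the values at `i`
      let f : U →* T := (Pi.evalMonoidHom (fun _ : ι => T) i).comp U.subtype
      have hfr : f.range ≠ ⊤ := by
        intro h
        have : x ∈ f.range := by rw [h]; exact Subgroup.mem_top _
        obtain ⟨u, hu⟩ := this
        exact hix u u.2 hu
      have hr2 : 2 * Nat.card f.range ≤ Nat.card T := by
        have h1 := Subgroup.card_mul_index f.range
        have h2 : f.range.index ≠ 1 := fun h => hfr (Subgroup.index_eq_one.1 h)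
        have h3 : f.range.index ≠ 0 := Subgroup.index_ne_zero_of_finite
        rw [← h1, mul_comm]
        exact Nat.mul_le_mul_left _ (by omega)
      have hcard : Nat.card U = Nat.card f.ker * Nat.card f.range := by
        rw [← Subgroup.index_ker, Subgroup.card_mul_index]
      -- the restriction
      let ρ : (ι → T) →* ({j : ι // j ≠ i} → T) :=
        { toFun := fun u j => u j
          map_one' := rfl
          map_mul' := fun _ _ => rfl }
      let V : Subgroup ({j : ι // j ≠ i} → T) :=
        (f.ker.map U.subtype).map ρ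
      have hker : Nat.card f.ker ≤ Nat.card V := by
        refine Nat.card_le_card_of_injective (fun u : f.ker =>
          (⟨ρ ((u : U) : ι → T), ⟨((u : U) : ι → T), ⟨(u : U), u.2, rfl⟩, rfl⟩⟩ : V)) ?_
        intro u v huv
        apply Subtype.ext
        apply Subtype.ext
        funext k
        by_cases hk : k = i
        · have h1 : ((u : U) : ι → T) i = 1 := u.2
          have h2 : ((v : U) : ι → T) i = 1 := v.2
          rw [hk, h1, h2]
        · have h1 := congrArg Subtype.val huv
          exact congrFun h1 ⟨k, hk⟩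
      have hι' : Fintype.card {j : ι // j ≠ i} = n := by
        rw [Fintype.card_subtype_compl, Fintype.card_subtype_eq, hι]
        omega
      have hV : ∀ j : {j : ι // j ≠ i}, ∃ x : T, Pi.mulSingle j x ∉ V := by
        intro j
        obtain ⟨y, hy⟩ := hU j
        refine ⟨y, ?_⟩
        rintro ⟨_, ⟨u, hu, rfl⟩, hu2⟩
        apply hy
        have hui : (u : ι → T) i = 1 := hu
        have h1 : (u : ι → T) = Pi.mulSingle (j : ι) y := by
          funext k
          by_cases hk : k = i
          · rw [hk, hui, Pi.mulSingle_eq_of_ne j.2.symm]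
          · have h2 := congrFun hu2 ⟨k, hk⟩
            have h3 : (u : ι → T) k = (Pi.mulSingle j y : {j : ι // j ≠ i} → T) ⟨k, hk⟩ := h2
            rw [h3]
            by_cases hkj : k = j
            · have h4 : (⟨k, hk⟩ : {j : ι // j ≠ i}) = j := Subtype.ext hkj
              rw [h4, Pi.mulSingle_eq_same, hkj, Pi.mulSingle_eq_same]
            · have h4 : (⟨k, hk⟩ : {j : ι // j ≠ i}) ≠ j := fun h => hkj (congrArg Subtype.val h)
              rw [Pi.mulSingle_eq_of_ne h4, Pi.mulSingle_eq_of_ne hkj]
        rw [← h1]
        exact u.2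
      have hIH := ih {j : ι // j ≠ i} hι' V hV
      calc 2 ^ (n + 1) * Nat.card U
          = (2 ^ n * Nat.card f.ker) * (2 * Nat.card f.range) := by rw [hcard]; ring
        _ ≤ (2 ^ n * Nat.card V) * Nat.card T :=
            Nat.mul_le_mul (Nat.mul_le_mul_left _ hker) hr2
        _ ≤ Nat.card T ^ n * Nat.card T := Nat.mul_le_mul_right _ hIH
        _ = Nat.card T ^ (n + 1) := by ring

/-- a subgroup of a power of a nonabelian simple group that contains no factor has large index -/
theorem two_pow_le_index {ι : Type} [Fintype ι] [DecidableEq ι] {T : Type u} [Group T]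
    [Finite T] [IsSimpleGroup T] (hna : ∃ x y : T, x * y ≠ y * x) (U : Subgroup (ι → T))
    (hU : ∀ i, ∃ x : T, Pi.mulSingle i x ∉ U) : 2 ^ Fintype.card ι ≤ U.index := by
  have h1 := card_pow_le hna (Fintype.card ι) ι rfl U hU
  have h2 := Subgroup.card_mul_index U
  have h3 : Nat.card (ι → T) = Nat.card T ^ Fintype.card ι := by
    rw [Nat.card_fun, Nat.card_eq_fintype_card (α := ι)]
  rw [h3] at h2
  rw [← h2] at h1
  have h4 : 0 < Nat.card U := Nat.card_pos
  rw [mul_comm] at h1
  exact Nat.le_of_mul_le_mul_left h1 h4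

end S92

end SR32
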