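import Pool.Agent.SR32.DefsP

/-!
# The index of a core-free subgroup of a direct power
-/

namespace SR32

universe u

/-- elements supported on `S` -/
def s64K (T : Type u) [Group T] {n : ℕ} (S : Finset (Fin n)) : Subgroup (Fin n → T) where
  carrier := {f | ∀ i, i ∉ S → f i = 1}
  mul_mem' := by
    intro a b ha hb i hi
    rw [Pi.mul_apply, ha i hi, hb i hi, mul_one]
  one_mem' := fun i _ => rfl
  inv_mem' := by
    intro a ha i hi
    rw [Pi.inv_apply, ha i hi, inv_one]

theorem s64K_normal (T : Type u) [Group T] {n : ℕ} (S : Finset (Fin n)) : (s64K T S).Normal := by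
  refine ⟨fun f hf g i hi => ?_⟩
  have : f i = 1 := hf i hi
  rw [Pi.mul_apply, Pi.mul_apply, this, Pi.inv_apply, mul_one, mul_inv_cancel]

theorem s64K_mono (T : Type u) [Group T] {n : ℕ} {S S' : Finset (Fin n)} (h : S ⊆ S') :
    s64K T S ≤ s64K T S' := fun _ hf i hi => hf i (fun hi' => hi (h hi'))

theorem s64K_univ (T : Type u) [Group T] {n : ℕ} : s64K T (Finset.univ : Finset (Fin n)) = ⊤ := by
  rw [eq_top_iff]
  intro f _ i hi
  exact absurd (Finset.mem_univ i) hi

theorem s64K_card (T : Type u) [Group T] [Finite T] {n : ℕ} (S : Finset (Fin n)) :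
    Nat.card (s64K T S) = Nat.card T ^ S.card := by
  classical
  have e : (s64K T S) ≃ (S → T) :=
    { toFun := fun f i => f.1 i
      invFun := fun g => ⟨fun i => if h : i ∈ S then g ⟨i, h⟩ else 1, fun i hi => by
        simp [hi]⟩
      left_inv := by
        intro f
        apply Subtype.ext
        funext i
        by_cases h : i ∈ S
        · simp [h]
        · simp [h, f.2 i h]
      right_inv := by
        intro g
        funext i
        simp }
  rw [Nat.card_congr e, Nat.card_fun, Nat.card_eq_fintype_card (α := S), Fintype.card_coe]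

theorem s64K_split (T : Type u) [Group T] {n : ℕ} {S : Finset (Fin n)} {j : Fin n} (hj : j ∈ S) :
    s64K T S ≤ s64K T (S.erase j) ⊔ s64K T {j} := by
  classical
  intro f hf
  have h1 : f = (fun i => if i = j then 1 else f i) * (fun i => if i = j then f i else 1) := by
    funext i
    by_cases h : i = j <;> simp [h]
  rw [h1]
  refine Subgroup.mul_mem_sup ?_ ?_
  · intro i hi
    by_cases h : i = j
    · simp [h]
    · simp only [h, if_false]
      exact hf i (fun hi' => hi (Finset.mem_erase.mpr ⟨h, hi'⟩))
  · intro i hi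
    have : i ≠ j := fun h => hi (by rw [h]; exact Finset.mem_singleton_self j)
    simp [this]

theorem pow_two_le_pi (T : Type u) [Group T] [Finite T] [Nontrivial T] {n : ℕ}
    (B : Subgroup (Fin n → T)) (hB : B.normalCore = ⊥) : 2 ^ n ≤ B.index ^ 2 := by
  classical
  -- a minimal set of coordinates with `B K_S = G`
  obtain ⟨S, hS, hmin⟩ : ∃ S : Finset (Fin n), B ⊔ s64K T S = ⊤ ∧
      ∀ j ∈ S, B ⊔ s64K T (S.erase j) ≠ ⊤ := by
    obtain ⟨m, hm⟩ : ∃ m : ℕ, ∃ S : Finset (Fin n), S.card = m ∧ B ⊔ s64K T S = ⊤ :=
      ⟨_, Finset.univ, rfl, by rw [s64K_univ, sup_top_eq]⟩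
    have hex : ∃ m : ℕ, ∃ S : Finset (Fin n), S.card = m ∧ B ⊔ s64K T S = ⊤ := ⟨m, hm⟩
    obtain ⟨S, hc, hS⟩ := Nat.find_spec hex
    refine ⟨S, hS, fun j hj h => ?_⟩
    have h1 := Nat.find_min' hex ⟨S.erase j, rfl, h⟩
    rw [Finset.card_erase_of_mem hj] at h1
    have h2 : 0 < S.card := Finset.card_pos.mpr ⟨j, hj⟩
    omega
  have hgrow : ∀ S' : Finset (Fin n), S' ⊆ S → 2 ^ S'.card ≤ B.relIndex (B ⊔ s64K T S') := by
    intro S'
    induction S' using Finset.induction_on with
    | empty =>
      intro _
      rw [Finset.card_empty, pow_zero]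
      exact Nat.one_le_iff_ne_zero.mpr Subgroup.index_ne_zero_of_finite
    | insert j S' hj ih =>
      intro hsub
      have hS'S : S' ⊆ S := (Finset.subset_insert j S').trans hsub
      have hjS : j ∈ S := hsub (Finset.mem_insert_self j S')
      have h1 := ih hS'S
      have hle : B ⊔ s64K T S' ≤ B ⊔ s64K T (insert j S') :=
        sup_le_sup_left (s64K_mono T (Finset.subset_insert j S')) _
      have h2 := Subgroup.relIndex_mul_relIndex B _ _ le_sup_left hle
      have h3 : 2 ≤ (B ⊔ s64K T S').relIndex (B ⊔ s64K T (insert j S')) := by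
        have h0 : (B ⊔ s64K T S').relIndex (B ⊔ s64K T (insert j S')) ≠ 0 :=
          Subgroup.index_ne_zero_of_finite
        have hne : (B ⊔ s64K T S').relIndex (B ⊔ s64K T (insert j S')) ≠ 1 := by
          intro h
          rw [Subgroup.relIndex_eq_one] at h
          have h4 : s64K T {j} ≤ B ⊔ s64K T (S.erase j) := by
            have h5 : s64K T {j} ≤ B ⊔ s64K T (insert j S') :=
              (s64K_mono T (by
                intro x hx
                rw [Finset.mem_singleton] at hx
                rw [hx]
                exact Finset.mem_insert_self j S')).trans le_sup_right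
            refine h5.trans (h.trans (sup_le_sup_left (s64K_mono T ?_) _))
            intro x hx
            exact Finset.mem_erase.mpr ⟨fun hxj => hj (hxj ▸ hx), hS'S hx⟩
          apply hmin j hjS
          rw [eq_top_iff, ← hS]
          refine sup_le le_sup_left ((s64K_split T hjS).trans (sup_le le_sup_right h4))
        omega
      rw [Finset.card_insert_of_notMem hj, pow_succ, ← h2]
      exact Nat.mul_le_mul h1 h3
  have h1 := hgrow S (Finset.Subset.refl S)
  rw [hS, Subgroup.relIndex_top_right] at h1
  -- the complement acts semiregularly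
  have hcap : s64K T Sᶜ ⊓ B = ⊥ := by
    rw [eq_bot_iff]
    intro x hx
    rw [← hB]
    intro g
    have hg : g ∈ B ⊔ s64K T S := by
      rw [hS]
      exact Subgroup.mem_top g
    haveI := s64K_normal T S
    rw [← SetLike.mem_coe, Subgroup.mul_normal] at hg
    obtain ⟨b, hb, k, hk, rfl⟩ := hg
    have hkx : k * x = x * k := by
      funext i
      rw [Pi.mul_apply, Pi.mul_apply]
      by_cases hi : i ∈ S
      · have : x i = 1 := hx.1 i (by simpa using hi)
        rw [this, mul_one, one_mul]
      · have : k i = 1 := hk i hi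
        rw [this, mul_one, one_mul]
    have : b * k * x * (b * k)⁻¹ = b * x * b⁻¹ := by
      rw [mul_inv_rev, mul_assoc b k x, hkx]
      group
    show b * k * x * (b * k)⁻¹ ∈ B
    rw [this]
    exact B.mul_mem (B.mul_mem hb hx.2) (B.inv_mem hb)
  have h2 : Nat.card T ^ Sᶜ.card ≤ B.index := by
    rw [← s64K_card T Sᶜ]
    have h3 : B.relIndex (s64K T Sᶜ) = Nat.card (s64K T Sᶜ) := by
      rw [← Subgroup.inf_relIndex_left, hcap, Subgroup.relIndex_bot_left]
    rw [← h3]
    have h4 := Subgroup.relIndex_le_of_le_right (H := B) (K := s64K T Sᶜ) (L := ⊤) le_top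
      (by rw [Subgroup.relIndex_top_right]; exact Subgroup.index_ne_zero_of_finite)
    rwa [Subgroup.relIndex_top_right] at h4
  have hT : 2 ≤ Nat.card T := Finite.one_lt_card
  have h3 : 2 ^ Sᶜ.card ≤ B.index := (Nat.pow_le_pow_left hT _).trans h2
  have h4 : S.card + Sᶜ.card = n := by
    rw [Finset.card_add_card_compl, Fintype.card_fin]
  calc 2 ^ n = 2 ^ S.card * 2 ^ Sᶜ.card := by rw [← pow_add, h4]
    _ ≤ B.index * B.index := Nat.mul_le_mul h1 h3
    _ = B.index ^ 2 := by ring

/-- a core-free subgroup of a direct power of `n` copies of a nontrivial group has index at least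
`2 ^ (n / 2)` -/
theorem pow_two_le {T : Type u} [Group T] [Finite T] [Nontrivial T] {n : ℕ} {G : Type u} [Group G]
    (e : G ≃* (Fin n → T)) (B : Subgroup G) (hB : B.normalCore = ⊥) : 2 ^ n ≤ B.index ^ 2 := by
  have hs : Function.Surjective e.symm.toMonoidHom := e.symm.surjective
  have hi : (B.comap e.symm.toMonoidHom).index = B.index :=
    Subgroup.index_comap_of_surjective _ hs
  rw [← hi]
  apply pow_two_le_pi
  rw [eq_bot_iff]
  intro x hx
  rw [Subgroup.mem_bot]
  have h1 : e.symm x ∈ B.normalCore := by
    intro g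
    have := hx (e g)
    rw [Subgroup.mem_comap] at this
    simpa using this
  rw [hB, Subgroup.mem_bot] at h1
  have := congrArg e h1
  simpa using this

end SR32
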