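import Mathlib

/-!
# SR32/FPowS58: a subgroup that contains none of `n` commuting simple factors has index at least `2 ^ n`
-/

namespace SR32.S58F

theorem card_four {G : Type*} [Group G] [Finite G] (K : Subgroup G)
    (h : ∃ x ∈ K, ∃ y ∈ K, x * y ≠ y * x) : 4 ≤ Nat.card K := by
  classical
  obtain ⟨x, hx, y, hy, hxy⟩ := h
  have h1 : (1 : G) ≠ x := by
    rintro rfl
    exact hxy (by rw [one_mul, mul_one])
  have h2 : (1 : G) ≠ y := by
    rintro rfl
    exact hxy (by rw [one_mul, mul_one])
  have h3 : x ≠ y := by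
    rintro rfl
    exact hxy rfl
  have h4 : (1 : G) ≠ x * y := by
    intro h
    have : y = x⁻¹ := by
      rw [eq_comm, inv_eq_iff_mul_eq_one, ← h]
    apply hxy
    rw [this, mul_inv_cancel, inv_mul_cancel]
  have h5 : x ≠ x * y := by
    intro h
    exact h2 (by
      have := mul_left_cancel (show x * 1 = x * y by rw [mul_one]; exact h)
      exact this)
  have h6 : y ≠ x * y := by
    intro h
    exact h1 (mul_right_cancel (show 1 * y = x * y by rw [one_mul]; exact h))
  have h7 : (({1, x, y, x * y} : Finset G) : Set G) ⊆ (K : Set G) := by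
    intro z hz
    simp only [Finset.coe_insert, Finset.coe_singleton, Set.mem_insert_iff,
      Set.mem_singleton_iff] at hz
    rcases hz with rfl | rfl | rfl | rfl
    · exact K.one_mem
    · exact hx
    · exact hy
    · exact K.mul_mem hx hy
  have h8 : ({1, x, y, x * y} : Finset G).card = 4 := by
    rw [Finset.card_insert_of_notMem, Finset.card_insert_of_notMem,
      Finset.card_insert_of_notMem, Finset.card_singleton]
    · simpa using h6
    · simp only [Finset.mem_insert, Finset.mem_singleton, not_or]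
      exact ⟨h3, h5⟩
    · simp only [Finset.mem_insert, Finset.mem_singleton, not_or]
      exact ⟨h1, h2, h4⟩
  have h9 := Set.ncard_le_ncard h7 (Set.toFinite _)
  rw [Set.ncard_coe_finset, h8] at h9
  exact h9

/-- two factors `A`, `B` of the same order, `A ≤ X B`, not in `X` -/
theorem diag {G : Type*} [Group G] [Finite G] {A B X : Subgroup G} (hB : B.Normal)
    (hs : ∀ Z : Subgroup G, Z ≤ A → (∀ f ∈ A, ∀ z ∈ Z, f * z * f⁻¹ ∈ Z) → Z = ⊥ ∨ Z = A)
    (hc : ∀ x ∈ A, ∀ y ∈ B, x * y = y * x) (hcard : Nat.card A = Nat.card B)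
    (hX : ¬ A ≤ X) (hle : A ≤ X ⊔ B) :
    X ⊓ B = ⊥ ∧ ∀ s ∈ B, ∃ f ∈ A, f * s ∈ X := by
  have h1 : ∀ f ∈ A, ∃ z ∈ B, f * z ∈ X := by
    intro f hf
    have h2 : f ∈ ((X ⊔ B : Subgroup G) : Set G) := hle hf
    rw [Subgroup.mul_normal] at h2
    obtain ⟨y, hy, z, hz, rfl⟩ := h2
    exact ⟨z⁻¹, B.inv_mem hz, by simpa using hy⟩
  have h2 : X ⊓ A = ⊥ := by
    rcases hs (X ⊓ A) inf_le_right (by
      rintro f hf z ⟨hz1, hz2⟩
      refine ⟨?_, A.mul_mem (A.mul_mem hf hz2) (A.inv_mem hf)⟩
      obtain ⟨w, hw, hfw⟩ := h1 f hf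
      have h3 : f * z * f⁻¹ = (f * w) * z * (f * w)⁻¹ := by
        have h4 := hc z hz2 w hw
        calc f * z * f⁻¹ = f * (z * w) * w⁻¹ * f⁻¹ := by group
          _ = f * (w * z) * w⁻¹ * f⁻¹ := by rw [h4]
          _ = (f * w) * z * (f * w)⁻¹ := by group
      rw [h3]
      exact X.mul_mem (X.mul_mem hfw hz1) (X.inv_mem hfw)) with h | h
    · exact h
    · exact absurd (inf_eq_right.1 h) hX
  choose! c hcB hcX using h1
  have hinj : Function.Injective (fun p : A × (X ⊓ B : Subgroup G) =>
      (⟨c p.1 * p.2, B.mul_mem (hcB _ p.1.2) p.2.2.2⟩ : B)) := by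
    rintro ⟨⟨f, hf⟩, ⟨y, hy⟩⟩ ⟨⟨f', hf'⟩, ⟨y', hy'⟩⟩ h
    have h3 : c f * y = c f' * y' := congrArg Subtype.val h
    have h4 : (f * (c f * y)) * (f' * (c f' * y'))⁻¹ ∈ X := by
      refine X.mul_mem ?_ (X.inv_mem ?_)
      · rw [← mul_assoc]
        exact X.mul_mem (hcX f hf) hy.1
      · rw [← mul_assoc]
        exact X.mul_mem (hcX f' hf') hy'.1
    have h5 : (f * (c f * y)) * (f' * (c f' * y'))⁻¹ = f * f'⁻¹ := by
      rw [h3]
      group
    rw [h5] at h4
    have h6 : f * f'⁻¹ ∈ X ⊓ A := ⟨h4, A.mul_mem hf (A.inv_mem hf')⟩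
    rw [h2, Subgroup.mem_bot, mul_inv_eq_one] at h6
    subst h6
    have h7 : y = y' := mul_left_cancel h3
    subst h7
    rfl
  have h3 := Nat.card_le_card_of_injective _ hinj
  rw [Nat.card_prod, hcard] at h3
  have hpos : 0 < Nat.card B := Nat.card_pos
  have h4 : Nat.card (X ⊓ B : Subgroup G) ≤ 1 := by
    by_contra h
    have : Nat.card B * 2 ≤ Nat.card B * Nat.card (X ⊓ B : Subgroup G) :=
      Nat.mul_le_mul_left _ (by omega)
    omega
  refine ⟨Subgroup.eq_bot_of_card_le _ h4, ?_⟩
  intro s hs'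
  have hinj2 : Function.Injective (fun f : A => (⟨c f, hcB _ f.2⟩ : B)) := by
    rintro ⟨f, hf⟩ ⟨f', hf'⟩ h
    have h5 : (fun p : A × (X ⊓ B : Subgroup G) =>
      (⟨c p.1 * p.2, B.mul_mem (hcB _ p.1.2) p.2.2.2⟩ : B)) (⟨f, hf⟩, 1) =
      (fun p : A × (X ⊓ B : Subgroup G) =>
      (⟨c p.1 * p.2, B.mul_mem (hcB _ p.1.2) p.2.2.2⟩ : B)) (⟨f', hf'⟩, 1) := by
      apply Subtype.ext
      have : c f = c f' := congrArg Subtype.val h
      change c f * ((1 : (X ⊓ B : Subgroup G)) : G) = c f' * ((1 : (X ⊓ B : Subgroup G)) : G)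
      rw [this]
    exact (Prod.mk.inj (hinj h5)).1
  have hbij : Function.Bijective (fun f : A => (⟨c f, hcB _ f.2⟩ : B)) :=
    (Nat.bijective_iff_injective_and_card _).2 ⟨hinj2, hcard⟩
  obtain ⟨⟨f, hf⟩, hfs⟩ := hbij.2 ⟨s, hs'⟩
  refine ⟨f, hf, ?_⟩
  have : c f = s := congrArg Subtype.val hfs
  rw [← this]
  exact hcX f hf

theorem two_pow_le_index {G : Type*} [Group G] [Finite G] {ι : Type*} (F : ι → Subgroup G)
    (hn : ∀ i, (F i).Normal)
    (hs : ∀ i, ∀ Z : Subgroup G, Z ≤ F i → (∀ f ∈ F i, ∀ z ∈ Z, f * z * f⁻¹ ∈ Z) →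
      Z = ⊥ ∨ Z = F i)
    (hc : ∀ i j, i ≠ j → ∀ x ∈ F i, ∀ y ∈ F j, x * y = y * x)
    (hna : ∀ i, ∃ x ∈ F i, ∃ y ∈ F i, x * y ≠ y * x)
    (hcard : ∀ i j, Nat.card (F i) = Nat.card (F j)) (I : Finset ι) :
    ∀ X : Subgroup G, (∀ i ∈ I, ¬ F i ≤ X) → 2 ^ I.card ≤ X.index := by
  classical
  induction I using Finset.strongInduction with
  | H I ih =>
  intro X hX
  rcases I.eq_empty_or_nonempty with rfl | ⟨k, hk⟩
  · rw [Finset.card_empty, pow_zero]
    exact Nat.one_le_iff_ne_zero.2 X.index_ne_zero_of_finite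
  · have hXle : X ≤ X ⊔ F k := le_sup_left
    have hmul : X.relIndex (X ⊔ F k) * (X ⊔ F k).index = X.index :=
      Subgroup.relIndex_mul_index hXle
    have hcI : (I.erase k).card + 1 = I.card := Finset.card_erase_add_one hk
    by_cases hA : ∀ i ∈ I.erase k, ¬ F i ≤ X ⊔ F k
    · have h1 := ih (I.erase k) (Finset.erase_ssubset hk) (X ⊔ F k) hA
      have h2 : X.relIndex (X ⊔ F k) ≠ 1 := by
        intro h
        rw [Subgroup.relIndex_eq_one] at h
        exact hX k hk (le_sup_right.trans h)
      have h3 : X.relIndex (X ⊔ F k) ≠ 0 := Subgroup.index_ne_zero_of_finite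
      have h4 : 2 ≤ X.relIndex (X ⊔ F k) := by omega
      rw [← hmul, ← hcI, pow_succ, mul_comm]
      exact Nat.mul_le_mul h4 h1
    · push Not at hA
      obtain ⟨i, hi, hiX⟩ := hA
      have hik : i ≠ k := (Finset.mem_erase.1 hi).1
      obtain ⟨h1, h2⟩ := diag (hn k) (hs i) (hc i k hik) (hcard i k)
        (hX i (Finset.mem_erase.1 hi).2) hiX
      have h3 : ∀ j ∈ (I.erase k).erase i, ¬ F j ≤ X ⊔ F k := by
        intro j hj hjX
        have hji : j ≠ i := (Finset.mem_erase.1 hj).1
        have hj2 := (Finset.mem_erase.1 hj).2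
        have hjk : j ≠ k := (Finset.mem_erase.1 hj2).1
        obtain ⟨_, h4⟩ := diag (hn k) (hs j) (hc j k hjk) (hcard j k)
          (hX j (Finset.mem_erase.1 hj2).2) hjX
        obtain ⟨x, hx, y, hy, hxy⟩ := hna k
        obtain ⟨f, hf, hfx⟩ := h2 x hx
        obtain ⟨g, hg, hgy⟩ := h4 y hy
        apply hxy
        have h5 : x * y * x⁻¹ * y⁻¹ ∈ X ⊓ F k := by
          refine ⟨?_, (F k).mul_mem ((F k).mul_mem ((F k).mul_mem hx hy) ((F k).inv_mem hx))
            ((F k).inv_mem hy)⟩
          have h6 : x * y * x⁻¹ * y⁻¹ = (f * x) * (g * y) * (f * x)⁻¹ * (g * y)⁻¹ := by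
            have e1 : f * x = x * f := hc i k hik f hf x hx
            have e2 : f * y = y * f := hc i k hik f hf y hy
            have e3 : g * x = x * g := hc j k hjk g hg x hx
            have e4 : g * y = y * g := hc j k hjk g hg y hy
            have e5 : f * g = g * f := hc i j hji.symm f hf g hg
            have e6 : (f * x) * (g * y) = (x * y) * (f * g) := by
              calc (f * x) * (g * y) = f * (x * g) * y := by group
                _ = f * (g * x) * y := by rw [e3]
                _ = (f * g) * (x * y) := by group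
                _ = (g * f) * (x * y) := by rw [e5]
                _ = g * (f * x) * y := by group
                _ = g * (x * f) * y := by rw [e1]
                _ = (g * x) * (f * y) := by group
                _ = (x * g) * (y * f) := by rw [e3, e2]
                _ = x * (g * y) * f := by group
                _ = x * (y * g) * f := by rw [e4]
                _ = (x * y) * (g * f) := by group
                _ = (x * y) * (f * g) := by rw [e5]
            have e7 : (g * y) * (f * x) = (y * x) * (f * g) := by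
              calc (g * y) * (f * x) = g * (y * f) * x := by group
                _ = g * (f * y) * x := by rw [e2]
                _ = (g * f) * (y * x) := by group
                _ = (f * g) * (y * x) := by rw [e5]
                _ = f * (g * y) * x := by group
                _ = f * (y * g) * x := by rw [e4]
                _ = (f * y) * (g * x) := by group
                _ = (y * f) * (x * g) := by rw [e2, e3]
                _ = y * (f * x) * g := by group
                _ = y * (x * f) * g := by rw [e1]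
                _ = (y * x) * (f * g) := by group
            calc x * y * x⁻¹ * y⁻¹ = ((x * y) * (f * g)) * ((y * x) * (f * g))⁻¹ := by group
              _ = ((f * x) * (g * y)) * ((g * y) * (f * x))⁻¹ := by rw [e6, e7]
              _ = (f * x) * (g * y) * (f * x)⁻¹ * (g * y)⁻¹ := by group
          rw [h6]
          exact X.mul_mem (X.mul_mem (X.mul_mem hfx hgy) (X.inv_mem hfx)) (X.inv_mem hgy)
        rw [h1, Subgroup.mem_bot] at h5
        calc x * y = (x * y * x⁻¹ * y⁻¹) * (y * x) := by group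
          _ = y * x := by rw [h5, one_mul]
      have hcI2 : ((I.erase k).erase i).card + 1 = (I.erase k).card :=
        Finset.card_erase_add_one hi
      have h4 := ih ((I.erase k).erase i)
        ((Finset.erase_ssubset hi).trans (Finset.erase_ssubset hk)) (X ⊔ F k) h3
      have h5 : X.relIndex (X ⊔ F k) = Nat.card (F k) := by
        have := hn k
        have e1 := Subgroup.relIndex_mul_relIndex ⊥ X (X ⊔ F k) bot_le le_sup_left
        have e2 := Subgroup.relIndex_mul_relIndex ⊥ (F k) (X ⊔ F k) bot_le le_sup_right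
        have e3 : (F k).relIndex (X ⊔ F k) = (F k).relIndex X := Subgroup.relIndex_sup_right X (F k)
        have e4 : (F k).relIndex X = (F k ⊓ X).relIndex X :=
          (Subgroup.inf_relIndex_right (F k) X).symm
        rw [inf_comm, h1] at e4
        rw [e3, e4, Subgroup.relIndex_bot_left, Subgroup.relIndex_bot_left] at e2
        rw [← e2, Subgroup.relIndex_bot_left, mul_comm] at e1
        exact Nat.eq_of_mul_eq_mul_right Nat.card_pos e1
      have h6 := card_four (F k) (hna k)
      rw [← hmul, ← hcI, ← hcI2, pow_succ, pow_succ, h5]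
      calc 2 ^ ((I.erase k).erase i).card * 2 * 2 = 4 * 2 ^ ((I.erase k).erase i).card := by ring
        _ ≤ Nat.card (F k) * (X ⊔ F k).index := Nat.mul_le_mul h6 h4

end SR32.S58F
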