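import Pool.Agent.SR32.YMin
import Pool.Agent.SR32.YPow
import Pool.Agent.SR32.ZFinal

/-!
# Few automorphism classes bound the order
-/

set_option autoImplicit false

namespace SR32

universe u

open Filter

theorem n64_center {S : Type u} [Group S] (hS : IsSimpleGroup S) (hna : ∃ x y : S, x * y ≠ y * x) :
    Subgroup.center S = ⊥ := by
  obtain ⟨x, y, hxy⟩ := hna
  rcases hS.eq_bot_or_eq_top_of_normal (Subgroup.center S) inferInstance with h | h
  · exact h
  · exfalso
    apply hxy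
    have h2 : x ∈ Subgroup.center S := by rw [h]; exact Subgroup.mem_top _
    exact (Subgroup.mem_center_iff.1 h2 y).symm

/-- Few automorphism classes bound the order, for direct powers of simple groups that are
alternating or have `oo (Aut S) ^ η |S| ≤ om S` -/
theorem nbound_of_om (η : ℕ → ℕ) (hη : Tendsto η atTop atTop) (Ω : ℕ) : ∃ B : ℕ,
    ∀ (H : Type u) [Group H] [Finite H],
    (∀ M : Subgroup H, IsMinNormal M → ∃ x ∈ M, ∃ y ∈ M, x * y ≠ y * x) →
    (∀ M : Subgroup H, IsMinNormal M →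
      ∃ (S : Subgroup M) (s : ℕ), IsSimpleGroup S ∧ (∃ x y : S, x * y ≠ y * x) ∧
        (oo (MulAut S) ^ η (Nat.card S) ≤ om S ∨ ∃ d : ℕ, 5 ≤ d ∧ Nonempty (S ≃* A d)) ∧
        Nonempty (M ≃* (Fin s → S))) →
    om H ≤ Ω → Nat.card H ≤ B := by
  obtain ⟨T, hT⟩ := (tendsto_atTop_atTop.mp hη) (Ω + 1)
  obtain ⟨B, hB⟩ := zbound_of_om'.{u} Ω T
  refine ⟨B, ?_⟩
  intro H _ _ hna hmin hom
  apply hB H hna _ hom
  intro M hM
  obtain ⟨S, s, hS, hSna, h | ⟨d, hd, ⟨e'⟩⟩, ⟨e⟩⟩ := hmin M hM
  · left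
    refine ⟨S, s, hS, ?_, ⟨e⟩⟩
    have hs : 1 ≤ s := by
      rcases Nat.eq_zero_or_pos s with h0 | h0
      · exfalso
        subst h0
        apply hM.2.1
        rw [Subgroup.eq_bot_iff_forall]
        intro x hx
        have : (⟨x, hx⟩ : M) = 1 := e.injective (Subsingleton.elim _ _)
        exact congrArg Subtype.val this
      · exact h0
    have h1 : om S ≤ om H := by
      calc om S = Nat.multichoose (om S) 1 := (Nat.multichoose_one_right _).symm
        _ ≤ Nat.multichoose (om S) s := exc_W_mono_right (om_pos S) hs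
        _ ≤ om (Fin s → S) := om_powS_ge (n64_center hS hSna) s
        _ = om M := (om_congr e).symm
        _ ≤ om H := om_min_le M hM
    by_contra hlt
    have h2 := hT (Nat.card S) (by omega)
    obtain ⟨x, y, hxy⟩ := hSna
    haveI : Nontrivial (MulAut S) := by
      refine ⟨⟨MulAut.conj x, 1, fun hc => hxy ?_⟩⟩
      have := congrArg (fun f : MulAut S => f y) hc
      simp only [MulAut.conj_apply, MulAut.one_apply] at this
      exact mul_inv_eq_iff_eq_mul.mp this
    have h3 : 2 ≤ oo (MulAut S) := two_le_oo (MulAut S)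
    have h4 : 2 ^ (Ω + 1) ≤ om S := by
      calc 2 ^ (Ω + 1) ≤ oo (MulAut S) ^ (Ω + 1) := Nat.pow_le_pow_left h3 _
        _ ≤ oo (MulAut S) ^ η (Nat.card S) := Nat.pow_le_pow_right (by omega) h2
        _ ≤ om S := h
    have h5 : Ω + 1 < 2 ^ (Ω + 1) := Nat.lt_two_pow_self
    omega
  · right
    refine ⟨d, s, hd, ⟨e.trans (MulEquiv.piCongrRight fun _ => e')⟩⟩

end SR32
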