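import Pool.Agent.SR32.NLMain
import Pool.Agent.PL3.Main

/-!
# The index of the soluble radical: the final form
-/

namespace SR32

open Filter

universe u

theorem finalL (η : ℕ → ℕ) (hη : Tendsto η atTop atTop) : ∃ f : ℝ → ℝ → ℝ,
    (∀ x y, 1 ≤ x → 1 ≤ y → 1 ≤ f x y) ∧ (∀ y, StrictMono (fun x => f x y)) ∧
    (∀ x, StrictMono (fun y => f x y)) ∧
    ∀ (G : Type u) [Group G] [Finite G] [Nontrivial G],
      FacL η (G ⧸ Rad G) →
      ((Rad G).index : ℝ) ≤ f (ll G) (oo (Rad G)) :=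
  finalL_of.{u} (fun L => PL3.psl_main.{0} L) η hη

end SR32
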