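import Pool.Agent.SR32.NNMain
import Pool.Agent.SR32.NLDefs
import Mathlib.LinearAlgebra.Matrix.ProjectiveSpecialLinearGroup

/-!
# Two-dimensional projective special linear groups as simple factors
-/

namespace SR32

open Filter

universe u

theorem nl_eta (P : ℕ → ℕ → Prop) (h0 : ∀ n, P 0 n) (h : ∀ L, ∃ N, ∀ n, N ≤ n → P L n) :
    ∃ η₀ : ℕ → ℕ, Tendsto η₀ atTop atTop ∧ ∀ n, P (η₀ n) n := by
  classical
  refine ⟨fun n => Nat.findGreatest (fun L => P L n) n, ?_, ?_⟩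
  · rw [tendsto_atTop_atTop]
    intro L
    obtain ⟨N, hN⟩ := h L
    refine ⟨max N L, fun n hn => ?_⟩
    exact Nat.le_findGreatest (le_trans (le_max_right _ _) hn) (hN n (le_trans (le_max_left _ _) hn))
  · intro n
    exact Nat.findGreatest_spec (P := fun L => P L n) (Nat.zero_le n) (h0 n)

theorem nl_card (F : Type) [Field F] [Finite F] :
    Nat.card (Matrix.ProjectiveSpecialLinearGroup (Fin 2) F) ≤ Nat.card F ^ 4 := by
  have h1 : Nat.card (Matrix.ProjectiveSpecialLinearGroup (Fin 2) F) ≤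
      Nat.card (Matrix.SpecialLinearGroup (Fin 2) F) :=
    Nat.card_le_card_of_surjective _ (QuotientGroup.mk'_surjective _)
  have h2 : Nat.card (Matrix.SpecialLinearGroup (Fin 2) F) ≤ Nat.card (Matrix (Fin 2) (Fin 2) F) :=
    Nat.card_le_card_of_injective (fun A => (A : Matrix (Fin 2) (Fin 2) F)) Subtype.val_injective
  refine (h1.trans h2).trans (le_of_eq ?_)
  have : Fintype F := Fintype.ofFinite F
  rw [Nat.card_eq_fintype_card, Nat.card_eq_fintype_card]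
  have : Fintype.card (Matrix (Fin 2) (Fin 2) F) = Fintype.card (Fin 2 → Fin 2 → F) := rfl
  rw [this]
  simp only [Fintype.card_pi, Finset.prod_const, Finset.card_univ, Fintype.card_fin]
  rw [← pow_mul]

theorem nl_psl (hpsl : ∀ L : ℕ, ∃ q₀ : ℕ, ∀ (F : Type) [Field F] [Finite F], q₀ ≤ Nat.card F →
      oo (MulAut (Matrix.ProjectiveSpecialLinearGroup (Fin 2) F)) ^ L ≤
        om (Matrix.ProjectiveSpecialLinearGroup (Fin 2) F)) :
    ∃ η₀ : ℕ → ℕ, Tendsto η₀ atTop atTop ∧ ∀ (F : Type) [Field F] [Finite F],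
      oo (MulAut (Matrix.ProjectiveSpecialLinearGroup (Fin 2) F)) ^
        η₀ (Nat.card (Matrix.ProjectiveSpecialLinearGroup (Fin 2) F)) ≤
          om (Matrix.ProjectiveSpecialLinearGroup (Fin 2) F) := by
  obtain ⟨η₀, h1, h2⟩ := nl_eta (fun L n => ∀ (F : Type) [Field F] [Finite F],
      Nat.card (Matrix.ProjectiveSpecialLinearGroup (Fin 2) F) = n →
      oo (MulAut (Matrix.ProjectiveSpecialLinearGroup (Fin 2) F)) ^ L ≤
        om (Matrix.ProjectiveSpecialLinearGroup (Fin 2) F)) (by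
      intro n F _ _ _
      rw [pow_zero]
      exact om_pos _) (by
      intro L
      obtain ⟨q₀, hq⟩ := hpsl L
      refine ⟨q₀ ^ 4 + 1, fun n hn F _ _ hF => hq F ?_⟩
      by_contra hlt
      have h3 := nl_card F
      have h4 : Nat.card F ^ 4 ≤ q₀ ^ 4 := Nat.pow_le_pow_left (by omega) 4
      omega)
  exact ⟨η₀, h1, fun F _ _ => h2 _ F rfl⟩

theorem finalL_of (hpsl : ∀ L : ℕ, ∃ q₀ : ℕ, ∀ (F : Type) [Field F] [Finite F], q₀ ≤ Nat.card F →
      oo (MulAut (Matrix.ProjectiveSpecialLinearGroup (Fin 2) F)) ^ L ≤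
        om (Matrix.ProjectiveSpecialLinearGroup (Fin 2) F))
    (η : ℕ → ℕ) (hη : Tendsto η atTop atTop) : ∃ f : ℝ → ℝ → ℝ,
    (∀ x y, 1 ≤ x → 1 ≤ y → 1 ≤ f x y) ∧ (∀ y, StrictMono (fun x => f x y)) ∧
    (∀ x, StrictMono (fun y => f x y)) ∧
    ∀ (G : Type u) [Group G] [Finite G] [Nontrivial G],
      FacL η (G ⧸ Rad G) →
      ((Rad G).index : ℝ) ≤ f (ll G) (oo (Rad G)) := by
  obtain ⟨η₀, h1, h2⟩ := nl_psl hpsl
  obtain ⟨f, hf1, hf2, hf3, hf4⟩ := finalN.{u} (fun n => min (η n) (η₀ n))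
    (tendsto_atTop.2 fun b => ((tendsto_atTop.1 hη b).and (tendsto_atTop.1 h1 b)).mono
      fun n hn => le_min hn.1 hn.2)
  refine ⟨f, hf1, hf2, hf3, fun G _ _ _ hG => hf4 G ?_⟩
  intro S hS
  rcases hG S hS with h | h | ⟨F, hF1, hF2, ⟨e⟩⟩
  · exact Or.inl ((Nat.pow_le_pow_right (oo_pos _) (min_le_left _ _)).trans h)
  · exact Or.inr h
  · refine Or.inl ((Nat.pow_le_pow_right (oo_pos _) (min_le_right _ _)).trans ?_)
    rw [oo_congr (MulAut.congr e), om_congr e, Nat.card_congr e.toEquiv]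
    exact h2 F

end SR32
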