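import Pool.Agent.SR32.ExcCore

/-!
# SR32/NNum: a numerical lemma for rich factors without a bound on the order
-/

set_option autoImplicit false

namespace SR32

theorem nn_choose_mul (m n i j : ℕ) : m.choose i * n.choose j ≤ (m + n).choose (i + j) := by
  rw [Nat.add_choose_eq]
  exact Finset.single_le_sum (f := fun ij : ℕ × ℕ => m.choose ij.1 * n.choose ij.2)
    (fun _ _ => Nat.zero_le _) (a := (i, j)) (by simp)

theorem nn_pow_le_choose (q k : ℕ) : q ^ k ≤ (q * k).choose k := by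
  induction k with
  | zero => simp
  | succ k ih =>
    calc q ^ (k + 1) = q ^ k * q := pow_succ q k
      _ ≤ (q * k).choose k * q.choose 1 := by
          rw [Nat.choose_one_right]
          exact Nat.mul_le_mul_right _ ih
      _ ≤ (q * k + q).choose (k + 1) := nn_choose_mul _ _ _ _
      _ = (q * (k + 1)).choose (k + 1) := by rw [Nat.mul_succ]

theorem nn_pow_le {q k w : ℕ} (hk : 1 ≤ k) (h : q * k ≤ w) : q ^ k ≤ Nat.multichoose w k := by
  calc q ^ k ≤ (q * k).choose k := nn_pow_le_choose q k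
    _ ≤ (w + k - 1).choose k := Nat.choose_le_choose k (by omega)
    _ = Nat.multichoose w k := (Nat.multichoose_eq w k).symm

theorem nnum_one (L : ℕ) {w o k : ℕ} (hk : 1 ≤ k) (ho : 2 ≤ o) (h : o ^ (L + 2) ≤ w) :
    (min (o ^ k) (2 ^ o)) ^ L ≤ Nat.multichoose w k := by
  have ho2 : 1 ≤ o ^ 2 := Nat.one_le_pow _ _ (by omega)
  have hw : o ^ L * o ^ 2 ≤ w := by rwa [← pow_add]
  rcases Nat.lt_or_ge (o ^ 2) k with hlt | hle
  · have h1 : (o ^ L) ^ (o ^ 2) ≤ Nat.multichoose w (o ^ 2) := nn_pow_le ho2 hw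
    have hw1 : 1 ≤ w := le_trans (Nat.one_le_pow _ _ (by omega)) h
    calc (min (o ^ k) (2 ^ o)) ^ L ≤ (2 ^ o) ^ L := Nat.pow_le_pow_left (min_le_right _ _) L
      _ ≤ (o ^ (o ^ 2)) ^ L := by
          apply Nat.pow_le_pow_left
          calc 2 ^ o ≤ o ^ o := Nat.pow_le_pow_left ho o
            _ ≤ o ^ (o ^ 2) := Nat.pow_le_pow_right (by omega) (Nat.le_self_pow (by norm_num) o)
      _ = (o ^ L) ^ (o ^ 2) := by rw [← pow_mul, ← pow_mul, mul_comm]
      _ ≤ Nat.multichoose w (o ^ 2) := h1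
      _ ≤ Nat.multichoose w k := exc_W_mono_right hw1 hlt.le
  · have h1 : o ^ L * k ≤ w := (Nat.mul_le_mul_left _ hle).trans hw
    calc (min (o ^ k) (2 ^ o)) ^ L ≤ (o ^ k) ^ L := Nat.pow_le_pow_left (min_le_left _ _) L
      _ = (o ^ L) ^ k := by rw [← pow_mul, ← pow_mul, mul_comm]
      _ ≤ Nat.multichoose w k := nn_pow_le hk h1

end SR32
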