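import Pool.Agent.SR32.YOrd

/-!
# Orders of elements of products of automorphism groups: least common multiples of subsets
-/

namespace SR32

universe u

theorem no_le {G : Type u} [Group G] [Finite G] {ι : Type*} [Fintype ι] (R : Finset ℕ)
    (r : ι → G → ℕ) (h : ∀ (x : G) (n : ℕ), x ^ n = 1 ↔ ∀ i, r i x ∣ n)
    (hR : ∀ i x, r i x ∈ R) : oo G ≤ 2 ^ R.card := by
  classical
  have h1 : ∀ x : G, orderOf x = ((Finset.univ.image (fun i => r i x))).lcm id := by
    intro x
    rw [Finset.lcm_image]
    apply Nat.dvd_antisymm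
    · rw [orderOf_dvd_iff_pow_eq_one, h]
      intro i
      exact Finset.dvd_lcm (Finset.mem_univ i)
    · refine Finset.lcm_dvd fun i _ => ?_
      exact (h x (orderOf x)).1 (pow_orderOf_eq_one x) i
  unfold oo
  have h2 : Set.range (fun g : G => orderOf g) ⊆
      ((R.powerset.image (fun T => T.lcm id) : Finset ℕ) : Set ℕ) := by
    rintro _ ⟨x, rfl⟩
    refine Finset.mem_coe.2 (Finset.mem_image.2 ⟨Finset.univ.image (fun i => r i x), ?_, (h1 x).symm⟩)
    rw [Finset.mem_powerset]
    intro m hm
    obtain ⟨i, _, rfl⟩ := Finset.mem_image.1 hm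
    exact hR i x
  calc (Set.range (fun g : G => orderOf g)).ncard ≤
        ((R.powerset.image (fun T => T.lcm id) : Finset ℕ) : Set ℕ).ncard :=
        Set.ncard_le_ncard h2 (Finset.finite_toSet _)
    _ = (R.powerset.image (fun T => T.lcm id)).card := Set.ncard_coe_finset _
    _ ≤ R.powerset.card := Finset.card_image_le
    _ = 2 ^ R.card := Finset.card_powerset R

theorem oo_aut_groupedN {a : ℕ} (S : Fin a → Type u) [∀ j, Group (S j)] [∀ j, Finite (S j)]
    (s c : Fin a → ℕ) (o : ℕ × ℕ → ℕ) (hc : ∀ i j, c i = c j → Nonempty (S i ≃* S j))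
    (ho : ∀ j, o (c j, s j) = oo (MulAut (S j))) :
    oo (∀ j, (Fin (s j) → MulAut (S j))) ≤
      ∏ p ∈ Finset.univ.image (fun j => (c j, s j)),
        min (o p ^ (p.2 * (Finset.univ.filter (fun j => (c j, s j) = p)).card)) (2 ^ o p) := by
  classical
  have hfin : ∀ j, Finite (MulAut (S j)) := fun j => yo_aut_finite (S j)
  refine (yo_grouped (fun j => (c j, s j)) (fun j => (Fin (s j) → MulAut (S j)))).trans ?_
  refine Finset.prod_le_prod (fun _ _ => Nat.zero_le _) fun p hp => ?_
  have hs : ∀ j : {j : Fin a // (c j, s j) = p}, s j = p.2 := fun j => congrArg Prod.snd j.2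
  have ho' : ∀ j : {j : Fin a // (c j, s j) = p}, oo (MulAut (S j)) = o p := fun j => by
    rw [← ho, j.2]
  refine le_min ?_ ?_
  · have h1 : oo (∀ j : {j : Fin a // (c j, s j) = p}, (Fin (s j) → MulAut (S j))) ≤
        ∏ j : {j : Fin a // (c j, s j) = p}, oo (Fin (s j) → MulAut (S j)) :=
      oo_pi_le (fun j : {j : Fin a // (c j, s j) = p} => (Fin (s j) → MulAut (S j)))
    refine h1.trans ?_
    have h2 : ∀ j : {j : Fin a // (c j, s j) = p},
        oo (Fin (s j) → MulAut (S j)) ≤ o p ^ p.2 := by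
      intro j
      have h3 : oo (Fin (s j) → MulAut (S j)) ≤ ∏ _i : Fin (s j), oo (MulAut (S j)) :=
        oo_pi_le (fun _i : Fin (s j) => MulAut (S j))
      refine h3.trans (le_of_eq ?_)
      rw [Finset.prod_const, Finset.card_univ, Fintype.card_fin, ho' j, hs j]
    refine (Finset.prod_le_prod (fun _ _ => Nat.zero_le _) fun j _ => h2 j).trans (le_of_eq ?_)
    rw [Finset.prod_const, Finset.card_univ, Fintype.card_subtype, pow_mul]
  · obtain ⟨j0, -, hj0⟩ := Finset.mem_image.1 hp
    have hR0 : (Set.range (fun φ : MulAut (S j0) => orderOf φ)).Finite := Set.finite_range _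
    have hRc : hR0.toFinset.card = o p := by
      rw [← ho' ⟨j0, hj0⟩]
      unfold oo
      rw [Set.ncard_eq_toFinset_card _ hR0]
    rw [← hRc]
    refine no_le (ι := Σ j : {j : Fin a // (c j, s j) = p}, Fin (s j)) hR0.toFinset
      (fun q x => orderOf (x q.1 q.2)) ?_ ?_
    · intro x n
      constructor
      · intro hx q
        rw [orderOf_dvd_iff_pow_eq_one]
        have := congrFun (congrFun hx q.1) q.2
        exact this
      · intro hq
        funext j i
        exact orderOf_dvd_iff_pow_eq_one.1 (hq ⟨j, i⟩)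
    · intro q x
      rw [Set.Finite.mem_toFinset]
      obtain ⟨e⟩ := hc q.1.1 j0 (congrArg Prod.fst (q.1.2.trans hj0.symm))
      refine ⟨MulAut.congr e (x q.1 q.2), ?_⟩
      exact MulEquiv.orderOf_eq (MulAut.congr e) (x q.1 q.2)

end SR32
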