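import Pool.Agent.SR32.DefsP

/-!
# Definitions for the version with one condition on the simple factors
-/

namespace SR32

universe u

/-- Every simple factor `S` of every minimal normal subgroup of `H` is alternating of degree at least
`5`, or the number of its automorphism classes is at least the `η |S|`-th power of the number of
orders of automorphisms of `S`. -/
def FacN (η : ℕ → ℕ) (H : Type u) [Group H] : Prop :=
  ∀ S ∈ Fac H, oo (MulAut S) ^ η (Nat.card S) ≤ om S ∨ ∃ d : ℕ, 5 ≤ d ∧ Nonempty (S ≃* A d)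

/-- `M` is a direct power `S ^ s` of a nonabelian simple group `S` with `o(Aut S) ^ E ≤ om S` and
`s ≤ t * om S ^ 2`. -/
def GoodN (E t : ℕ) {Q : Type u} [Group Q] (M : Subgroup Q) : Prop :=
  ∃ (S : Subgroup M) (s : ℕ), (IsSimpleGroup S ∧ (∃ x y : S, x * y ≠ y * x) ∧
    oo (MulAut S) ^ E ≤ om S) ∧ s ≤ t * om S ^ 2 ∧ Nonempty (M ≃* (Fin s → S))

end SR32
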