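import Pool.Agent.SR32.NNDefs
import Pool.Agent.SR32.NNum
import Pool.Agent.SR32.NOrd
import Pool.Agent.SR32.YNum
import Pool.Agent.SR32.YPow
import Pool.Agent.SR32.VTypes
import Pool.Agent.SR32.VOrd

/-!
# The lower bound for minimal normal subgroups with simple factors with many automorphism classes
-/

set_option autoImplicit false

namespace SR32

open Finset Filter

universe u

theorem nn_center {S : Type u} [Group S] (hS : IsSimpleGroup S)
    (hna : ∃ x y : S, x * y ≠ y * x) : Subgroup.center S = ⊥ := by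
  obtain ⟨x, y, hxy⟩ := hna
  rcases hS.eq_bot_or_eq_top_of_normal (Subgroup.center S) inferInstance with h | h
  · exact h
  · exfalso
    apply hxy
    have h2 : x ∈ Subgroup.center S := by rw [h]; exact Subgroup.mem_top _
    exact (Subgroup.mem_center_iff.1 h2 y).symm

theorem nn_two_le {S : Type u} [Group S] [Finite S] (hna : ∃ x y : S, x * y ≠ y * x) :
    2 ≤ oo (MulAut S) := by
  obtain ⟨x, y, hxy⟩ := hna
  have : Nontrivial (MulAut S) := by
    refine ⟨MulAut.conj x, 1, fun h => hxy ?_⟩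
    have h1 := DFunLike.congr_fun h y
    rw [MulAut.conj_apply, MulAut.one_apply] at h1
    calc x * y = x * y * x⁻¹ * x := by group
      _ = y * x := by rw [h1]
  exact two_le_oo _

/-- from two upper bounds with exponent `2 L` to one with exponent `L` -/
theorem nn_half {x y V L : ℕ} (h1 : x ^ (2 * L) ≤ V) (h2 : y ^ (2 * L) ≤ V) :
    (x * y) ^ L ≤ V := by
  have h3 : ((x * y) ^ L) ^ 2 ≤ V ^ 2 := by
    calc ((x * y) ^ L) ^ 2 = x ^ (2 * L) * y ^ (2 * L) := by
          rw [← pow_mul, mul_comm L 2, mul_pow]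
      _ ≤ V * V := Nat.mul_le_mul h1 h2
      _ = V ^ 2 := (sq V).symm
  exact (Nat.pow_le_pow_iff_left two_ne_zero).1 h3

theorem lowerN (L t : ℕ) : ∃ E : ℕ,
    ∀ (H : Type u) [Group H] [Finite H] (a : ℕ) (M : Fin a → Subgroup H) (S : Fin a → Type u)
      [∀ j, Group (S j)] [∀ j, Finite (S j)] (s : Fin a → ℕ),
      Function.Injective M → (∀ j, IsMinNormal (M j)) →
      (∀ (φ : H ≃* H) (j : Fin a), ∃ k, (M j).map φ.toMonoidHom = M k) →
      (∀ j, IsSimpleGroup (S j) ∧ (∃ x y : S j, x * y ≠ y * x) ∧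
        oo (MulAut (S j)) ^ E ≤ om (S j)) → (∀ j, s j ≤ t * om (S j) ^ 2) →
      (∀ j, Nonempty (M j ≃* (Fin (s j) → S j))) →
      (oo (∀ j, Equiv.Perm (Fin (s j))) * oo (∀ j, (Fin (s j) → MulAut (S j)))) ^ L ≤ om H := by
  classical
  obtain ⟨W2, hW2⟩ := ynum_two (2 * L) t
  refine ⟨2 * L + 2 + W2, fun H _ _ a M S _ _ s hMi hM haut hR hst hiM => ?_⟩
  have ho2 : ∀ j, 2 ≤ oo (MulAut (S j)) := fun j => nn_two_le (hR j).2.1
  have hoE : ∀ j, oo (MulAut (S j)) ^ (2 * L + 2) ≤ om (S j) := fun j =>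
    (Nat.pow_le_pow_right (by have := ho2 j; omega) (by omega)).trans (hR j).2.2
  have hW : ∀ j, W2 ≤ om (S j) := by
    intro j
    calc W2 ≤ 2 ^ W2 := Nat.lt_two_pow_self.le
      _ ≤ 2 ^ (2 * L + 2 + W2) := Nat.pow_le_pow_right (by norm_num) (by omega)
      _ ≤ oo (MulAut (S j)) ^ (2 * L + 2 + W2) := Nat.pow_le_pow_left (ho2 j) _
      _ ≤ om (S j) := (hR j).2.2
  have hsim : ∀ j, IsSimpleGroup (S j) := fun j => (hR j).1
  have hcen : ∀ j, Subgroup.center (S j) = ⊥ := fun j => nn_center (hR j).1 (hR j).2.1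
  have hs1 : ∀ j, 1 ≤ s j := by
    intro j
    by_contra h0
    have h0' : s j = 0 := by omega
    obtain ⟨e⟩ := hiM j
    apply (hM j).2.1
    rw [eq_bot_iff]
    intro x hx
    haveI : Subsingleton (Fin (s j) → S j) := by
      rw [h0']
      infer_instance
    have h1 := e.injective (Subsingleton.elim (e ⟨x, hx⟩) (e 1))
    exact Subgroup.mem_bot.2 (congrArg Subtype.val h1)
  have hna : ∀ j, ∃ x ∈ M j, ∃ y ∈ M j, x * y ≠ y * x := by
    intro j
    obtain ⟨e⟩ := hiM j
    obtain ⟨x, y, hxy⟩ := (hR j).2.1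
    refine ⟨(e.symm (fun _ => x)).1, (e.symm _).2, (e.symm (fun _ => y)).1, (e.symm _).2,
      fun h => hxy ?_⟩
    have h1 : e.symm (fun _ => x) * e.symm (fun _ => y) =
        e.symm (fun _ => y) * e.symm (fun _ => x) := Subtype.ext h
    rw [← map_mul, ← map_mul] at h1
    exact congrFun (e.symm.injective h1) ⟨0, hs1 j⟩
  -- a colour for each isomorphism type of the simple factors
  obtain ⟨c, hcl, hcr⟩ : ∃ c : Fin a → ℕ, (∀ i j, c i = c j → Nonempty (S i ≃* S j)) ∧
      (∀ i j, Nonempty (S i ≃* S j) → c i = c j) := by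
    let st : Setoid (Fin a) :=
      { r := fun i j => Nonempty (S i ≃* S j)
        iseqv := ⟨fun i => ⟨MulEquiv.refl _⟩, fun ⟨e⟩ => ⟨e.symm⟩,
          fun ⟨e⟩ ⟨f⟩ => ⟨e.trans f⟩⟩ }
    refine ⟨fun j => ((Quotient.mk st j).out : Fin a).val, fun i j h => ?_, fun i j h => ?_⟩
    · have h1 : (Quotient.mk st i).out = (Quotient.mk st j).out := Fin.ext h
      have h2 : Quotient.mk st i = Quotient.mk st j := by
        rw [← Quotient.out_eq (Quotient.mk st i), ← Quotient.out_eq (Quotient.mk st j), h1]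
      exact Quotient.exact h2
    · have h2 : Quotient.mk st i = Quotient.mk st j := Quotient.sound h
      show ((Quotient.mk st i).out : Fin a).val = ((Quotient.mk st j).out : Fin a).val
      rw [h2]
  have hcc : ∀ i j, Nonempty (M i ≃* M j) ↔ (c i, s i) = (c j, s j) := by
    intro i j
    obtain ⟨ei⟩ := hiM i
    obtain ⟨ej⟩ := hiM j
    haveI := hsim i
    haveI := hsim j
    constructor
    · rintro ⟨f⟩
      obtain ⟨h1, h2⟩ := powS_iso (hcen i) (hcen j) ((ei.symm.trans f).trans ej) (hs1 i)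
      rw [hcr i j h2, h1]
    · intro h
      have h1 : c i = c j := congrArg Prod.fst h
      have h2 : s i = s j := congrArg Prod.snd h
      obtain ⟨f⟩ := hcl i j h1
      have g : (Fin (s i) → S i) ≃* (Fin (s j) → S j) := by
        rw [h2]
        exact MulEquiv.piCongrRight (fun _ => f)
      exact ⟨(ei.trans g).trans ej.symm⟩
  -- the numbers of a type
  have hext : ∀ g : Fin a → ℕ, (∀ i j, c i = c j → g i = g j) →
      ∃ G : ℕ × ℕ → ℕ, ∀ j, G (c j, s j) = g j := by
    intro g hg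
    have h1 : g.FactorsThrough (fun j => (c j, s j)) := by
      intro i j h
      exact hg i j (congrArg Prod.fst h)
    exact ⟨Function.extend (fun j => (c j, s j)) g 0, fun j => h1.extend_apply 0 j⟩
  obtain ⟨W, hWd⟩ := hext (fun j => om (S j)) (fun i j h => by
    obtain ⟨f⟩ := hcl i j h
    exact om_congr f)
  obtain ⟨o, ho⟩ := hext (fun j => oo (MulAut (S j))) (fun i j h => by
    obtain ⟨f⟩ := hcl i j h
    exact oo_congr (MulAut.congr f))
  have key := om_types_ge a M hMi hM hna haut (fun j => (c j, s j)) hcc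
    (fun p => Nat.multichoose (W p) p.2) (fun j => by
      obtain ⟨e⟩ := hiM j
      haveI := hsim j
      rw [om_congr e]
      show Nat.multichoose (W (c j, s j)) (s j) ≤ _
      rw [hWd j]
      exact om_powS_ge (hcen j) (s j))
  have k1 := oo_perm_grouped s c
  have k2 := oo_aut_groupedN S s c o hcl ho
  obtain ⟨P, hP⟩ : ∃ P : Finset (ℕ × ℕ), P = Finset.univ.image (fun j => (c j, s j)) := ⟨_, rfl⟩
  obtain ⟨k, hk⟩ : ∃ k : ℕ × ℕ → ℕ, k = fun p =>
    (Finset.univ.filter (fun j => (c j, s j) = p)).card := ⟨_, rfl⟩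
  have hkp : ∀ p, (Finset.univ.filter (fun j => (c j, s j) = p)).card = k p := fun p => by rw [hk]
  simp only [hkp] at key k1 k2
  rw [← hP] at key k1 k2
  calc (oo (∀ j, Equiv.Perm (Fin (s j))) * oo (∀ j, (Fin (s j) → MulAut (S j)))) ^ L
      ≤ ((∏ p ∈ P, (QQ p.2 (p.2 * k p)).card) * ∏ p ∈ P, min (o p ^ (p.2 * k p)) (2 ^ o p)) ^ L :=
        Nat.pow_le_pow_left (Nat.mul_le_mul k1 k2) L
    _ = ∏ p ∈ P, ((QQ p.2 (p.2 * k p)).card * min (o p ^ (p.2 * k p)) (2 ^ o p)) ^ L := by
        rw [← prod_mul_distrib, prod_pow]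
    _ ≤ ∏ p ∈ P, Nat.multichoose (Nat.multichoose (W p) p.2) (k p) := by
        refine prod_le_prod (fun _ _ => Nat.zero_le _) fun p hp => ?_
        have hk1 : 1 ≤ k p := by
          rw [hP, mem_image] at hp
          obtain ⟨j, -, hj⟩ := hp
          rw [hk]
          exact card_pos.2 ⟨j, mem_filter.2 ⟨mem_univ _, hj⟩⟩
        rw [hP, mem_image] at hp
        obtain ⟨j, -, hj⟩ := hp
        rw [← hj] at hk1 ⊢
        rw [hWd j, ho j]
        show ((QQ (s j) (s j * k (c j, s j))).card *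
          min (oo (MulAut (S j)) ^ (s j * k (c j, s j))) (2 ^ oo (MulAut (S j)))) ^ L ≤
          Nat.multichoose (Nat.multichoose (om (S j)) (s j)) (k (c j, s j))
        refine nn_half ?_ ?_
        · exact hW2 (om (S j)) (s j) (k (c j, s j)) (hW j) (hs1 j) (hst j) hk1
        · exact (nnum_one (2 * L) (Nat.mul_pos (hs1 j) hk1) (ho2 j) (hoE j)).trans
            (wexc_mc_mc _ _ _)
    _ ≤ om H := key

end SR32
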