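import Pool.Agent.SR32.YMin
import Pool.Agent.SR32.YAct
import Pool.Agent.SR32.NNLower
import Pool.Agent.SR32.Quot

/-!
# Element orders modulo the centralizer of the minimal normal subgroups of the kind `GoodN`
-/

set_option autoImplicit false

namespace SR32

universe u

open Filter

theorem goodN_map {E t : ℕ} {Q : Type u} [Group Q] (φ : Q ≃* Q) {K : Subgroup Q}
    (h : GoodN E t K) : GoodN E t (K.map φ.toMonoidHom) := by
  obtain ⟨S, s, ⟨h1, ⟨x, y, hxy⟩, h2⟩, h3, ⟨e⟩⟩ := h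
  let ψ : K ≃* K.map φ.toMonoidHom := φ.subgroupMap K
  let χ : S ≃* S.map ψ.toMonoidHom := ψ.subgroupMap S
  refine ⟨S.map ψ.toMonoidHom, s, ⟨(MulEquiv.isSimpleGroup_congr χ).1 h1, ⟨χ x, χ y, ?_⟩, ?_⟩,
    ?_, ⟨?_⟩⟩
  · intro h
    apply hxy
    apply χ.injective
    rw [map_mul, map_mul, h]
  · rw [← oo_congr (MulAut.congr χ), ← om_congr χ]; exact h2
  · rw [← om_congr χ]; exact h3
  · exact ψ.symm.trans (e.trans (MulEquiv.piCongrRight fun _ => χ))

theorem kindN (L t : ℕ) : ∃ E : ℕ,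
    ∀ (Q : Type u) [Group Q] [Finite Q] (C : Subgroup Q) [C.Normal],
      (∀ z : Q, z ∈ C ↔ ∀ M : Subgroup Q, IsMinNormal M → GoodN E t M →
        ∀ y ∈ M, z * y = y * z) →
      oo (Q ⧸ C) ^ L ≤ om Q := by
  classical
  obtain ⟨E, hW0⟩ := lowerN.{u} L t
  refine ⟨E, ?_⟩
  intro Q _ _ C _ hC
  obtain ⟨a, ⟨ν⟩⟩ := Finite.exists_equiv_fin {K : Subgroup Q // IsMinNormal K ∧ GoodN E t K}
  let M : Fin a → Subgroup Q := fun j => (ν.symm j).1
  have hM : ∀ j, IsMinNormal (M j) := fun j => (ν.symm j).2.1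
  have hG : ∀ j, GoodN E t (M j) := fun j => (ν.symm j).2.2
  have hall : ∀ K : Subgroup Q, IsMinNormal K → GoodN E t K → ∃ j, M j = K := by
    intro K hK hK'
    refine ⟨ν ⟨K, hK, hK'⟩, ?_⟩
    show (ν.symm (ν ⟨K, hK, hK'⟩)).1 = K
    rw [Equiv.symm_apply_apply]
  have hMinj : Function.Injective M := fun i j hij => ν.symm.injective (Subtype.ext hij)
  have haut : ∀ (φ : Q ≃* Q) (j : Fin a), ∃ k, (M j).map φ.toMonoidHom = M k := by
    intro φ j
    obtain ⟨k, hk⟩ := hall ((M j).map φ.toMonoidHom) (st_map_min φ (hM j)) (goodN_map φ (hG j))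
    exact ⟨k, hk.symm⟩
  choose S s hrich hs he using hG
  have h1 := hW0 Q a M (fun j => (S j : Type u)) s hMinj hM haut hrich hs he
  have h2 := oo_quot_act a M (fun j => (hM j).1) (fun j => (S j : Type u))
    (fun j => (hrich j).1) (fun j => nn_center (hrich j).1 (hrich j).2.1) s (fun j => (he j).some) C (by
      intro z
      rw [hC]
      constructor
      · intro h j y hy
        exact h (M j) (hM j) ⟨S j, s j, hrich j, hs j, he j⟩ y hy
      · intro h K hK hK' y hy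
        obtain ⟨j, rfl⟩ := hall K hK hK'
        exact h j y hy)
  exact (Nat.pow_le_pow_left h2 L).trans h1

end SR32
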