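import Pool.Agent.SR32.YTwo
import Pool.Agent.SR32.YKindAB
import Pool.Agent.SR32.NNKind

/-!
# Groups whose minimal normal subgroups are small, alternating, or of the kind `GoodN`
-/

set_option autoImplicit false

namespace SR32

universe u

open Filter

theorem tameN_lower (L : ℕ) : ∃ E : ℕ, ∀ t : ℕ, ∃ c : ℝ, 0 < c ∧
    ∀ (Q : Type u) [Group Q] [Finite Q],
      (∀ M : Subgroup Q, IsMinNormal M → GoodN E 1 M ∨ GoodAB t M) →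
      c * (oo Q : ℝ) ^ L ≤ (om Q : ℝ) := by
  classical
  obtain ⟨E, hW⟩ := kindN.{u} (2 * L) 1
  refine ⟨E, fun t => ?_⟩
  obtain ⟨c0, hc0, hAB'⟩ := kindAB.{u} t (2 * L)
  refine ⟨Real.sqrt c0, by positivity, ?_⟩
  intro Q _ _ hkind
  have hoo0 : (0 : ℝ) ≤ (oo Q : ℝ) := Nat.cast_nonneg _
  have hna : ∀ M : Subgroup Q, IsMinNormal M → ∃ x ∈ M, ∃ y ∈ M, x * y ≠ y * x := by
    intro M hM
    rcases hkind M hM with h | h
    · obtain ⟨S, s, hR, _, ⟨e⟩⟩ := h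
      exact yg_nonab hM hR.2.1 e
    · exact yg_AB_nonab hM h
  obtain ⟨C, hCn, hC⟩ := exists_cent (fun M : Subgroup Q => IsMinNormal M ∧ GoodN E 1 M)
    (fun M hM => hM.1.1)
  obtain ⟨D, hDn, hD⟩ := exists_cent (fun M : Subgroup Q => IsMinNormal M ∧ GoodAB t M)
    (fun M hM => hM.1.1)
  have hCD : C ⊓ D = ⊥ := by
    rw [Subgroup.eq_bot_iff_forall]
    intro z hz
    obtain ⟨hzC, hzD⟩ := Subgroup.mem_inf.1 hz
    apply eq_one_of_centralize hna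
    intro M hM y hy
    rcases hkind M hM with h | h
    · exact (hC z).1 hzC M ⟨hM, h⟩ y hy
    · exact (hD z).1 hzD M ⟨hM, h⟩ y hy
  have h1 : oo (Q ⧸ C) ^ (2 * L) ≤ om Q := hW Q C fun z => by
    rw [hC z]
    exact ⟨fun h M hM hg => h M ⟨hM, hg⟩, fun h M hM => h M hM.1 hM.2⟩
  have h2 : c0 * (oo (Q ⧸ D) : ℝ) ^ (2 * L) ≤ (om Q : ℝ) := hAB' Q D fun z => by
    rw [hD z]
    exact ⟨fun h M hM hg => h M ⟨hM, hg⟩, fun h M hM => h M hM.1 hM.2⟩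
  have h3 := oo_le_two C D hCD
  have h1' : (oo (Q ⧸ C) : ℝ) ^ (2 * L) ≤ (om Q : ℝ) := by exact_mod_cast h1
  have h3' : (oo Q : ℝ) ≤ (oo (Q ⧸ C) : ℝ) * (oo (Q ⧸ D) : ℝ) := by exact_mod_cast h3
  have hom : (0 : ℝ) ≤ (om Q : ℝ) := Nat.cast_nonneg _
  have h4 : c0 * (oo Q : ℝ) ^ (2 * L) ≤ (om Q : ℝ) * (om Q : ℝ) := by
    calc c0 * (oo Q : ℝ) ^ (2 * L)
        ≤ c0 * ((oo (Q ⧸ C) : ℝ) * (oo (Q ⧸ D) : ℝ)) ^ (2 * L) := by
          apply mul_le_mul_of_nonneg_left _ hc0.le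
          exact pow_le_pow_left₀ hoo0 h3' _
      _ = (oo (Q ⧸ C) : ℝ) ^ (2 * L) * (c0 * (oo (Q ⧸ D) : ℝ) ^ (2 * L)) := by
          rw [mul_pow]; ring
      _ ≤ (om Q : ℝ) * (om Q : ℝ) := by
          apply mul_le_mul h1' h2 (by positivity) hom
  have h5 : (Real.sqrt c0 * (oo Q : ℝ) ^ L) ^ 2 ≤ (om Q : ℝ) ^ 2 := by
    rw [mul_pow, Real.sq_sqrt hc0.le, ← pow_mul, mul_comm L 2, sq (om Q : ℝ)]
    exact h4
  have h6 : Real.sqrt c0 * (oo Q : ℝ) ^ L ≤ (om Q : ℝ) := le_of_sq_le_sq h5 hom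
  exact h6

end SR32
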