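import Pool.Agent.SR32.PMain
import Pool.Agent.SR32.PFacS90
import Pool.Agent.SR32.PKKS3

/-!
# SR32/PMinS3: nonabelian minimal normal subgroups are direct powers of simple groups
-/

set_option autoImplicit false

namespace SR32

universe u

open Filter

/-- A nonabelian minimal normal subgroup of a finite group is a direct power of a nonabelian simple
group. -/
theorem min_pow {H : Type u} [Group H] [Finite H] {M : Subgroup H} (hM : IsMinNormal M)
    (hna : ∃ x ∈ M, ∃ y ∈ M, x * y ≠ y * x) :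
    ∃ (S : Subgroup M) (s : ℕ), IsMinNormal S ∧ IsSimpleGroup S ∧ (∃ x y : S, x * y ≠ y * x) ∧
      Nonempty (M ≃* (Fin s → S)) := by
  classical
  have hMn : M.Normal := hM.1
  -- the centre of `M` is trivial
  have hZ : Subgroup.center M = ⊥ := by
    have h1 : ((Subgroup.center M).map M.subtype).Normal := by
      refine ⟨?_⟩
      rintro _ ⟨z, hz, rfl⟩ g
      refine ⟨MulAut.conjNormal g z, ?_, MulAut.conjNormal_apply g z⟩
      rw [SetLike.mem_coe, Subgroup.mem_center_iff] at hz ⊢
      intro y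
      obtain ⟨y', rfl⟩ := (MulAut.conjNormal g : MulAut M).surjective y
      rw [← map_mul, hz, map_mul]
    rcases hM.2.2 _ h1 (Subgroup.map_subtype_le _) with h | h
    · exact (Subgroup.map_eq_bot_iff_of_injective _ M.subtype_injective).1 h
    · exfalso
      obtain ⟨x, hx, y, hy, hxy⟩ := hna
      rw [← h] at hx
      obtain ⟨z, hz, rfl⟩ := hx
      rw [SetLike.mem_coe, Subgroup.mem_center_iff] at hz
      exact hxy (congrArg Subtype.val (hz ⟨y, hy⟩)).symm
  -- a minimal normal subgroup of `M`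
  have hMnt : (⊤ : Subgroup M) ≠ ⊥ := by
    intro h
    apply hM.2.1
    rw [Subgroup.eq_bot_iff_forall]
    intro x hx
    have h1 : (⟨x, hx⟩ : M) ∈ (⊥ : Subgroup M) := by
      rw [← h]
      exact Subgroup.mem_top _
    exact congrArg Subtype.val (Subgroup.mem_bot.1 h1)
  obtain ⟨N, -, hN⟩ := exists_minNormal_le (⊤ : Subgroup M) inferInstance hMnt
  set J : Set (Subgroup M) :=
    Set.range (fun h : H => N.map (MulAut.conjNormal h : MulAut M).toMonoidHom) with hJ
  have hJmin : ∀ K ∈ J, IsMinNormal K := by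
    rintro _ ⟨h, rfl⟩
    exact st_map_min (MulAut.conjNormal h : MulAut M) hN
  have hNJ : N ∈ J := by
    refine ⟨1, ?_⟩
    change N.map (MulAut.conjNormal (1 : H) : MulAut M).toMonoidHom = N
    rw [map_one]
    exact Subgroup.map_id N
  have hmap : ∀ (g : H), ∀ K ∈ J, K.map (MulAut.conjNormal g : MulAut M).toMonoidHom ∈ J := by
    rintro g _ ⟨h, rfl⟩
    refine ⟨g * h, ?_⟩
    change N.map (MulAut.conjNormal (g * h) : MulAut M).toMonoidHom =
      (N.map (MulAut.conjNormal h : MulAut M).toMonoidHom).map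
        (MulAut.conjNormal g : MulAut M).toMonoidHom
    rw [Subgroup.map_map, map_mul]
    rfl
  have hJtop : sSup J = ⊤ := by
    have h1 : ((sSup J).map M.subtype).Normal := by
      refine ⟨?_⟩
      rintro _ ⟨z, hz, rfl⟩ g
      refine ⟨MulAut.conjNormal g z, ?_, MulAut.conjNormal_apply g z⟩
      have h2 : (sSup J).map (MulAut.conjNormal g : MulAut M).toMonoidHom ≤ sSup J := by
        rw [sSup_eq_iSup, Subgroup.map_iSup]
        refine iSup_le fun K => ?_
        rw [Subgroup.map_iSup]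
        exact iSup_le fun hK => (le_iSup₂_of_le _ (hmap g K hK) le_rfl)
      exact h2 ⟨z, hz, rfl⟩
    rcases hM.2.2 _ h1 (Subgroup.map_subtype_le _) with h | h
    · exfalso
      have h3 := (Subgroup.map_eq_bot_iff_of_injective _ M.subtype_injective).1 h
      exact hN.2.1 (le_bot_iff.1 ((le_sSup hNJ).trans h3.le))
    · rw [eq_top_iff]
      rintro ⟨x, hx⟩ -
      have h4 : x ∈ (sSup J).map M.subtype := by
        rw [h]
        exact hx
      obtain ⟨z, hz, hzx⟩ := h4
      have h5 : z = ⟨x, hx⟩ := Subtype.ext hzx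
      rw [← h5]
      exact hz
  -- elements commuting with all members of `J` are trivial
  have hcen : ∀ z : M, (∀ K ∈ J, ∀ y ∈ K, z * y = y * z) → z = 1 := by
    intro z hz
    have h1 : sSup J ≤ Subgroup.centralizer {z} := by
      refine sSup_le fun K hK y hy => ?_
      rw [Subgroup.mem_centralizer_singleton_iff]
      exact (hz K hK y hy).symm
    rw [hJtop] at h1
    have h2 : z ∈ Subgroup.center M := by
      rw [Subgroup.mem_center_iff]
      intro y
      exact Subgroup.mem_centralizer_singleton_iff.1 (h1 (Subgroup.mem_top y))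
    rw [hZ] at h2
    exact Subgroup.mem_bot.1 h2
  have hcomm : ∀ K ∈ J, ∀ K' ∈ J, K ≠ K' → ∀ x ∈ K, ∀ y ∈ K', x * y = y * x := fun K hK K' hK' h =>
    PFacS90.min_comm (hJmin K hK) (hJmin K' hK') h
  -- `N` is not abelian
  have hNna : ∃ x y : N, x * y ≠ y * x := by
    by_contra hcon
    push Not at hcon
    apply hN.2.1
    rw [Subgroup.eq_bot_iff_forall]
    intro z hz
    apply hcen z
    intro K hK y hy
    by_cases h : N = K
    · subst h
      exact congrArg Subtype.val (hcon ⟨z, hz⟩ ⟨y, hy⟩)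
    · exact hcomm N hNJ K hK h z hz y hy
  -- `N` is simple
  have hNs : IsSimpleGroup N := by
    have hnt : Nontrivial N := by
      obtain ⟨x, y, hxy⟩ := hNna
      exact ⟨⟨x * y, y * x, hxy⟩⟩
    refine ⟨fun L hL => ?_⟩
    have h1 : (L.map N.subtype).Normal := by
      rw [← Subgroup.normalizer_eq_top_iff, eq_top_iff, ← hJtop]
      refine sSup_le fun K hK y hy => ?_
      by_cases h : K = N
      · subst h
        rw [Subgroup.mem_normalizer_iff]
        intro x
        constructor
        · rintro ⟨l, hl, rfl⟩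
          exact ⟨⟨y, hy⟩ * l * ⟨y, hy⟩⁻¹, hL.conj_mem l hl ⟨y, hy⟩, rfl⟩
        · rintro ⟨l, hl, hlx⟩
          refine ⟨⟨y, hy⟩⁻¹ * l * ⟨y, hy⟩, ?_, ?_⟩
          · have := hL.conj_mem l hl (⟨y, hy⟩⁻¹)
            rwa [inv_inv] at this
          · change y⁻¹ * (l : M) * y = x
            change (l : M) = y * x * y⁻¹ at hlx
            rw [hlx]
            group
      · rw [Subgroup.mem_normalizer_iff]
        intro x
        constructor
        · intro hx
          obtain ⟨l, hl, rfl⟩ := hx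
          have h2 := hcomm K hK N hNJ h y hy l l.2
          change y * (l : M) * y⁻¹ ∈ L.map N.subtype
          rw [h2, mul_inv_cancel_right]
          exact ⟨l, hl, rfl⟩
        · rintro ⟨l, hl, hlx⟩
          refine ⟨l, hl, ?_⟩
          have h2 := hcomm K hK N hNJ h y hy l l.2
          change (l : M) = x
          change (l : M) = y * x * y⁻¹ at hlx
          have h3 : y * x = (l : M) * y := by
            rw [hlx]
            group
          rw [← h2] at h3
          exact (mul_left_cancel h3).symm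
    rcases hN.2.2 _ h1 (Subgroup.map_subtype_le _) with h | h
    · left
      exact (Subgroup.map_eq_bot_iff_of_injective _ N.subtype_injective).1 h
    · right
      rw [eq_top_iff]
      rintro ⟨x, hx⟩ -
      have h4 : x ∈ L.map N.subtype := by
        rw [h]
        exact hx
      obtain ⟨l, hl, hlx⟩ := h4
      have h5 : l = ⟨x, hx⟩ := Subtype.ext hlx
      rw [← h5]
      exact hl
  -- the product
  have hfin : Finite J := inferInstance
  have hft : Fintype J := Fintype.ofFinite J
  have hpw : Pairwise fun i j : J => ∀ x y : M, x ∈ (i : Subgroup M) → y ∈ (j : Subgroup M) →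
      Commute x y := by
    intro i j hij x y hx hy
    exact hcomm i i.2 j j.2 (fun h => hij (Subtype.ext h)) x hx y hy
  have hind : iSupIndep (fun i : J => (i : Subgroup M)) := by
    intro i
    rw [disjoint_iff, Subgroup.eq_bot_iff_forall]
    intro x hx
    obtain ⟨hx1, hx2⟩ := Subgroup.mem_inf.1 hx
    apply hcen x
    intro K hK y hy
    by_cases h : (i : Subgroup M) = K
    · have h3 : (⨆ (j : J) (_ : j ≠ i), (j : Subgroup M)) ≤ Subgroup.centralizer {y} := by
        refine iSup₂_le fun j hj z hz => ?_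
        rw [Subgroup.mem_centralizer_singleton_iff]
        exact hpw hj z y hz (by rw [h]; exact hy)
      exact Subgroup.mem_centralizer_singleton_iff.1 (h3 hx2)
    · exact hcomm i i.2 K hK h x hx1 y hy
  have hinj := Subgroup.injective_noncommPiCoprod_of_iSupIndep (hcomm := hpw) hind
  have hsurj : Function.Surjective (Subgroup.noncommPiCoprod hpw) := by
    rw [← MonoidHom.range_eq_top, Subgroup.noncommPiCoprod_range, ← sSup_eq_iSup']
    exact hJtop
  have e1 : (∀ i : J, (i : Subgroup M)) ≃* M := MulEquiv.ofBijective _ ⟨hinj, hsurj⟩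
  have e2 : ∀ i : J, Nonempty ((i : Subgroup M) ≃* N) := by
    rintro ⟨_, ⟨h, rfl⟩⟩
    exact ⟨((MulAut.conjNormal h : MulAut M).subgroupMap N).symm⟩
  have e3 : (∀ i : J, (i : Subgroup M)) ≃* (J → N) :=
    MulEquiv.piCongrRight fun i => (e2 i).some
  have e4 : (J → N) ≃* (Fin (Nat.card J) → N) :=
    MulEquiv.arrowCongr (Finite.equivFin J) (MulEquiv.refl N)
  exact ⟨N, Nat.card J, hN, hNs, hNna, ⟨e1.symm.trans (e3.trans e4)⟩⟩

/-- Every simple factor of every minimal normal subgroup has order at most `t`, or is rich, or is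
alternating of degree at least `5`. -/
def FacX (η : ℕ → ℕ) (t : ℕ) (H : Type u) [Group H] : Prop :=
  ∀ S ∈ Fac H, Nat.card S ≤ t ∨ Rich η S ∨ ∃ d : ℕ, 5 ≤ d ∧ Nonempty (S ≃* A d)

theorem minPowX_of_fac {η : ℕ → ℕ} {t : ℕ} {H : Type u} [Group H] [Finite H]
    (hna : ∀ M : Subgroup H, IsMinNormal M → ∃ x ∈ M, ∃ y ∈ M, x * y ≠ y * x)
    (hf : FacX η t H) : MinPowX η t H := by
  intro M hM
  obtain ⟨S, s, hSmin, hSs, ⟨x, y, hxy⟩, ⟨e⟩⟩ := min_pow hM (hna M hM)
  have hSub : (S.map M.subtype).subgroupOf M = S :=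
    Subgroup.comap_map_eq_self_of_injective M.subtype_injective S
  have hFac : S.map M.subtype ∈ Fac H :=
    ⟨M, hM, Subgroup.map_subtype_le S, by rw [hSub]; exact hSmin⟩
  have e' : S ≃* S.map M.subtype := S.equivMapOfInjective M.subtype M.subtype_injective
  have hK : Kind η t (S.map M.subtype) := by
    refine ⟨(MulEquiv.isSimpleGroup_congr e').1 hSs, ⟨e' x, e' y, ?_⟩, hf _ hFac⟩
    intro h
    apply hxy
    apply e'.injective
    rw [map_mul, map_mul, h]
  exact ⟨S, s, PKKS3.kind_congr e'.symm hK, ⟨e⟩⟩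

/-- Theorem P with the conditions on the simple factors only. -/
theorem finalP' (t : ℕ) (η : ℕ → ℕ) (hη : Tendsto η atTop atTop) : ∃ f : ℝ → ℝ → ℝ,
    (∀ x y, 1 ≤ x → 1 ≤ y → 1 ≤ f x y) ∧ (∀ y, StrictMono (fun x => f x y)) ∧
    (∀ x, StrictMono (fun y => f x y)) ∧
    ∀ (G : Type u) [Group G] [Finite G] [Nontrivial G],
      FacX η t (G ⧸ Rad G) → PrimSmall t (MulAut (G ⧸ Rad G)) →
      ((Rad G).index : ℝ) ≤ f (ll G) (oo (Rad G)) := by
  obtain ⟨f, h1, h2, h3, h4⟩ := finalP.{u} t η hη
  exact ⟨f, h1, h2, h3, fun G _ _ _ hf hp =>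
    h4 G (minPowX_of_fac (fun M hM => minNormal_nonab M hM) hf) hp⟩

/-- If all nonabelian finite simple groups but alternating groups, groups of order at most `t`, and
rich groups are excluded, and if all finite groups satisfy the condition on primitive groups, then
the bound holds for all nontrivial finite groups. -/
theorem finalAll (t : ℕ) (η : ℕ → ℕ) (hη : Tendsto η atTop atTop)
    (hS : ∀ (S : Type u) [Group S] [Finite S], IsSimpleGroup S → (∃ x y : S, x * y ≠ y * x) →
      Nat.card S ≤ t ∨ Rich η S ∨ ∃ d : ℕ, 5 ≤ d ∧ Nonempty (S ≃* A d))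
    (hP : ∀ (Γ : Type u) [Group Γ] [Finite Γ], PrimSmall t Γ) : ∃ f : ℝ → ℝ → ℝ,
    (∀ x y, 1 ≤ x → 1 ≤ y → 1 ≤ f x y) ∧ (∀ y, StrictMono (fun x => f x y)) ∧
    (∀ x, StrictMono (fun y => f x y)) ∧
    ∀ (G : Type u) [Group G] [Finite G] [Nontrivial G],
      ((Rad G).index : ℝ) ≤ f (ll G) (oo (Rad G)) := by
  obtain ⟨f, h1, h2, h3, h4⟩ := finalP'.{u} t η hη
  refine ⟨f, h1, h2, h3, fun G _ _ _ => h4 G ?_ ?_⟩
  · intro S hSF
    have hna : ∀ M : Subgroup (G ⧸ Rad G), IsMinNormal M → ∃ x ∈ M, ∃ y ∈ M, x * y ≠ y * x :=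
      fun M hM => minNormal_nonab M hM
    have hp : ∀ M : Subgroup (G ⧸ Rad G), IsMinNormal M →
        ∃ (S : Subgroup M) (s : ℕ), IsSimpleGroup S ∧ Nonempty (M ≃* (Fin s → S)) := by
      intro M hM
      obtain ⟨S, s, -, h1, -, h2⟩ := min_pow hM (hna M hM)
      exact ⟨S, s, h1, h2⟩
    obtain ⟨hs1, ⟨x, hx, y, hy, hxy⟩, -⟩ := (PFacS90.fac_simple hna hp).1 S hSF
    exact hS S hs1 ⟨⟨x, hx⟩, ⟨y, hy⟩, fun h => hxy (congrArg Subtype.val h)⟩
  · have hfin : Finite (MulAut (G ⧸ Rad G)) :=
      Finite.of_injective (fun φ : MulAut (G ⧸ Rad G) => (φ : G ⧸ Rad G → G ⧸ Rad G))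
        DFunLike.coe_injective
    exact hP _

end SR32
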