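import Pool.Agent.SR32.PNum
import Pool.Agent.SR32.POrb

/-!
# SR32/PFamilyS38: `family` from `tower` (helper38)
-/

set_option autoImplicit false

namespace SR32

universe u

theorem le_multichoose_three38 (k : ℕ) : k ≤ Nat.multichoose 3 k := by
  cases k with
  | zero => exact Nat.zero_le _
  | succ k =>
    rw [Nat.multichoose_succ_succ, Nat.multichoose_two]
    omega

theorem index_le_orbC38 {Γ : Type u} [Group Γ] [Finite Γ] (D : Subgroup Γ) :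
    D.index ≤ orbC Γ (Γ ⧸ D) 3 :=
  (le_multichoose_three38 _).trans (orbC_multi Γ (Γ ⧸ D) 3)

theorem conj_pow38 {Γ : Type u} [Group Γ] (g x : Γ) (n : ℕ) :
    x⁻¹ * g ^ n * x = (x⁻¹ * g * x) ^ n := by
  induction n with
  | zero => simp
  | succ n ih =>
    rw [pow_succ, pow_succ, ← ih]
    group

theorem card_div_prod38 {ι : Type*} (s : Finset ι) (E : ι → ℕ) :
    (∏ i ∈ s, E i).divisors.card ≤ ∏ i ∈ s, (E i).divisors.card := by
  classical
  induction s using Finset.induction_on with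
  | empty => simp
  | insert i s hi ih =>
    rw [Finset.prod_insert hi, Finset.prod_insert hi]
    exact (card_div_mul _ _).trans (Nat.mul_le_mul_left _ ih)

theorem family38 (t : ℕ)
    (htower : ∀ ε : ℝ, 0 < ε → ∃ C : ℝ, 1 ≤ C ∧
      ∀ (Γ : Type u) [Group Γ] [Finite Γ] (Δ : Subgroup Γ), PrimSmall t Γ →
      ∃ (E : ℕ) (I O : Subgroup Γ), 0 < E ∧ Δ ≤ I ∧ I ≤ O ∧
        (∀ g x : Γ, x⁻¹ * g ^ E * x ∈ O) ∧
        (∀ g : Γ, (∀ x : Γ, x⁻¹ * g * x ∈ I) → ∀ x : Γ, x⁻¹ * g ^ E * x ∈ Δ) ∧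
        (E.divisors.card : ℝ) ≤ C * (orbC Γ (Γ ⧸ Δ) 3 : ℝ) ^ ε ∧ AltLayer I O)
    (ε : ℝ) (hε : 0 < ε) : ∃ C : ℝ, 1 ≤ C ∧
    ∀ (Γ : Type u) [Group Γ] [Finite Γ] (a : ℕ) (D : Fin a → Subgroup Γ), PrimSmall t Γ →
    ∃ (E : ℕ) (I O : Fin a → Subgroup Γ), 0 < E ∧ (∀ i, D i ≤ I i) ∧ (∀ i, I i ≤ O i) ∧
      (∀ i, ∀ g x : Γ, x⁻¹ * g ^ E * x ∈ O i) ∧
      (∀ i, ∀ g : Γ, (∀ x : Γ, x⁻¹ * g * x ∈ I i) → ∀ x : Γ, x⁻¹ * g ^ E * x ∈ D i) ∧
      (E.divisors.card : ℝ) ≤ C * (∏ i, (orbC Γ (Γ ⧸ D i) 3 : ℝ)) ^ ε ∧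
      ∀ i, AltLayer (I i) (O i) := by
  classical
  obtain ⟨C, hC1, hC⟩ := htower (ε / 2) (by positivity)
  have hC0 : 0 < C := by linarith
  -- the threshold
  obtain ⟨V2, hV2⟩ : ∃ V2 : ℕ, ∀ v : ℕ, V2 ≤ v → C ≤ (v : ℝ) ^ (ε / 2) := by
    have h1 : Filter.Tendsto (fun v : ℕ => (v : ℝ) ^ (ε / 2)) Filter.atTop Filter.atTop :=
      (tendsto_rpow_atTop (by positivity)).comp tendsto_natCast_atTop_atTop
    obtain ⟨V2, h2⟩ := Filter.eventually_atTop.1 (h1.eventually (Filter.eventually_ge_atTop C))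
    exact ⟨V2, h2⟩
  have hd1 : (1 : ℝ) ≤ ((LL V2).divisors.card : ℝ) := by
    have : 0 < (LL V2).divisors.card := Finset.card_pos.2 ⟨1, Nat.one_mem_divisors.2 (LL_pos V2).ne'⟩
    exact_mod_cast this
  refine ⟨((LL V2).divisors.card : ℝ), hd1, ?_⟩
  intro Γ _ _ a D hP
  -- data of all members
  have hdata : ∀ i : Fin a, ∃ (E : ℕ) (I O : Subgroup Γ), 0 < E ∧ D i ≤ I ∧ I ≤ O ∧
      (∀ g x : Γ, x⁻¹ * g ^ E * x ∈ O) ∧
      (∀ g : Γ, (∀ x : Γ, x⁻¹ * g * x ∈ I) → ∀ x : Γ, x⁻¹ * g ^ E * x ∈ D i) ∧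
      (E.divisors.card : ℝ) ≤ C * (orbC Γ (Γ ⧸ D i) 3 : ℝ) ^ (ε / 2) ∧ AltLayer I O :=
    fun i => hC Γ (D i) hP
  choose E I O hE hDI hIO hO hI hd hA using hdata
  have hone : ∀ i, (1 : ℝ) ≤ (orbC Γ (Γ ⧸ D i) 3 : ℝ) := by
    intro i
    have h1 : 0 < (D i).index := Nat.pos_of_ne_zero (D i).index_ne_zero_of_finite
    have h2 := index_le_orbC38 (D i)
    exact_mod_cast h1.trans_le h2
  let B : Finset (Fin a) := Finset.univ.filter fun i => V2 ≤ orbC Γ (Γ ⧸ D i) 3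
  let EE : ℕ := LL V2 * ∏ i ∈ B, E i
  have hEE : 0 < EE := Nat.mul_pos (LL_pos V2) (Finset.prod_pos fun i _ => hE i)
  have hdvd1 : ∀ i ∈ B, E i ∣ EE := fun i hi =>
    (Finset.dvd_prod_of_mem E hi).trans (Nat.dvd_mul_left _ _)
  have hdvd2 : ∀ i, i ∉ B → LL (D i).index ∣ EE := by
    intro i hi
    have h1 : orbC Γ (Γ ⧸ D i) 3 < V2 := by
      by_contra h
      exact hi (Finset.mem_filter.2 ⟨Finset.mem_univ _, not_lt.1 h⟩)
    exact (LL_dvd ((index_le_orbC38 (D i)).trans h1.le)).trans (Nat.dvd_mul_right _ _)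
  have hlow : ∀ i, i ∉ B → ∀ g x : Γ, x⁻¹ * g ^ EE * x ∈ D i := by
    intro i hi g x
    obtain ⟨m, hm⟩ := hdvd2 i hi
    rw [hm, mul_comm, pow_mul]
    exact pow_LL_mem (D i) (g ^ m) x
  refine ⟨EE, fun i => if i ∈ B then I i else D i, fun i => if i ∈ B then O i else D i, hEE,
    ?_, ?_, ?_, ?_, ?_, ?_⟩
  · intro i
    by_cases hi : i ∈ B
    · simp only [if_pos hi]
      exact hDI i
    · simp only [if_neg hi]
      exact le_rfl
  · intro i
    by_cases hi : i ∈ B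
    · simp only [if_pos hi]
      exact hIO i
    · simp only [if_neg hi]
      exact le_rfl
  · intro i g x
    by_cases hi : i ∈ B
    · simp only [if_pos hi]
      obtain ⟨m, hm⟩ := hdvd1 i hi
      rw [hm, mul_comm, pow_mul]
      exact hO i (g ^ m) x
    · simp only [if_neg hi]
      exact hlow i hi g x
  · intro i g hg x
    by_cases hi : i ∈ B
    · simp only [if_pos hi] at hg
      obtain ⟨m, hm⟩ := hdvd1 i hi
      rw [hm, mul_comm, pow_mul]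
      refine hI i (g ^ m) (fun y => ?_) x
      rw [conj_pow38]
      exact (I i).pow_mem (hg y) m
    · exact hlow i hi g x
  · -- divisors
    have h1 : (EE.divisors.card : ℝ) ≤
        ((LL V2).divisors.card : ℝ) * ∏ i ∈ B, ((E i).divisors.card : ℝ) := by
      have h2 : EE.divisors.card ≤ (LL V2).divisors.card * ∏ i ∈ B, (E i).divisors.card :=
        (card_div_mul _ _).trans (Nat.mul_le_mul_left _ (card_div_prod38 _ _))
      exact_mod_cast h2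
    refine h1.trans (mul_le_mul_of_nonneg_left ?_ (by linarith))
    calc ∏ i ∈ B, ((E i).divisors.card : ℝ)
        ≤ ∏ i ∈ B, (orbC Γ (Γ ⧸ D i) 3 : ℝ) ^ ε := by
          refine Finset.prod_le_prod (fun i _ => Nat.cast_nonneg _) fun i hi => ?_
          have h3 : V2 ≤ orbC Γ (Γ ⧸ D i) 3 := (Finset.mem_filter.1 hi).2
          have h4 := hV2 _ h3
          have h5 : (0 : ℝ) < (orbC Γ (Γ ⧸ D i) 3 : ℝ) := lt_of_lt_of_le one_pos (hone i)
          calc ((E i).divisors.card : ℝ) ≤ C * (orbC Γ (Γ ⧸ D i) 3 : ℝ) ^ (ε / 2) := hd i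
            _ ≤ (orbC Γ (Γ ⧸ D i) 3 : ℝ) ^ (ε / 2) * (orbC Γ (Γ ⧸ D i) 3 : ℝ) ^ (ε / 2) :=
              mul_le_mul_of_nonneg_right h4 (Real.rpow_nonneg h5.le _)
            _ = (orbC Γ (Γ ⧸ D i) 3 : ℝ) ^ ε := by
              rw [← Real.rpow_add h5]
              congr 1
              ring
      _ ≤ ∏ i, (orbC Γ (Γ ⧸ D i) 3 : ℝ) ^ ε := by
          refine Finset.prod_le_prod_of_subset_of_one_le (Finset.subset_univ B)
            (fun i _ => Real.rpow_nonneg (by linarith [hone i]) _) fun i _ _ => ?_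
          exact Real.one_le_rpow (hone i) hε.le
      _ = (∏ i, (orbC Γ (Γ ⧸ D i) 3 : ℝ)) ^ ε :=
          Real.finsetProd_rpow _ _ (fun i _ => by linarith [hone i]) _
  · intro i
    by_cases hi : i ∈ B
    · simp only [if_pos hi]
      exact hA i
    · simp only [if_neg hi]
      exact Or.inl rfl

end SR32
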