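import Pool.Agent.SR32.PNum
import Pool.Agent.SR32.POrb
import Pool.Agent.SR32.PGrowS3
import Pool.Agent.SR32.PFamilyS38
import Pool.Agent.SR32.PTowerS64

/-!
# SR32/PTower (STUB): the tower lemma
-/

namespace SR32

universe u

/-- growth in one step, `v = orbC` above, `v'` below, `b` the degree, `k` the order of the primitive group:
`log v ≥ (3/2) log v'`, and `log v ≥ b/3` or `b ≤ t` or (`v' < b` and `b! ≤ 2 k`);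
in the last case `log v ≥ (v' - 1) log 2`. -/
theorem grow {t b v v' k : ℕ} (hb : 2 ≤ b) (hv' : 3 ≤ v') (h1 : Nat.multichoose v' b ≤ v)
    (h2 : v' ^ b ≤ v * k) (h3 : t < b → k ≤ 2 ^ b ∨ b.factorial ≤ 2 * k) :
    3 / 2 * Real.log v' ≤ Real.log v ∧
      ((b : ℝ) / 3 ≤ Real.log v ∨ b ≤ t ∨
        (t < b ∧ b.factorial ≤ 2 * k ∧ ((v' : ℝ) - 1) * Real.log 2 ≤ Real.log v)) :=
  PGrowS3.grow hb hv' h1 h2 h3

/-- PROOF. Strong induction on the index `n` of `Δ`; `V1` large, `C = 2 ^ V1`. If `v := orbC < V1`: `n < v` (`orbC_multi`), `E = LL n`,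
`I = O = Δ`. Otherwise take `Λ ≥ Δ` maximal in `Γ`, `v' = orbC Λ (Λ ⧸ Δ) 3 ≥ 3`, `b = Λ.index`. If `t < b`, `b! ≤ 2 core index` and not
`b/3 ≤ log v`: `O = ⊤`, `I = Λ`, `E = LL (Λ : Δ)`. Else induction for `Λ`, `Δ.subgroupOf Λ`: `E', I', O'`; `E = LL b * E'`, `I, O` the images. -/
theorem tower (t : ℕ) (ht : 4 ≤ t) (ε : ℝ) (hε : 0 < ε) : ∃ C : ℝ, 1 ≤ C ∧
    ∀ (Γ : Type u) [Group Γ] [Finite Γ] (Δ : Subgroup Γ), PrimSmall t Γ →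
    ∃ (E : ℕ) (I O : Subgroup Γ), 0 < E ∧ Δ ≤ I ∧ I ≤ O ∧
      (∀ g x : Γ, x⁻¹ * g ^ E * x ∈ O) ∧
      (∀ g : Γ, (∀ x : Γ, x⁻¹ * g * x ∈ I) → ∀ x : Γ, x⁻¹ * g ^ E * x ∈ Δ) ∧
      (E.divisors.card : ℝ) ≤ C * (orbC Γ (Γ ⧸ Δ) 3 : ℝ) ^ ε ∧ AltLayer I O := by
  refine s64_tower grow (fun n => ?_) t ht ε hε
  have h1 : PP n ⊆ Finset.Icc 1 n := by
    intro q hq
    rw [mem_PP] at hq
    rw [Finset.mem_Icc]
    exact ⟨hq.2.pos, hq.1⟩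
  simpa using Finset.card_le_card h1

/-- PROOF. `tower` with `ε/2`, constant `C`; `V2 ≥ C^(2/ε)`. For the `i` with `orbC < V2` take `E i = LL` (index) `∣ LL V2`, `I = O = D i`;
for the others `C ≤ orbC^(ε/2)`. `E = LL V2 * ∏ E i` over the others. -/
theorem family (t : ℕ) (ht : 4 ≤ t) (ε : ℝ) (hε : 0 < ε) : ∃ C : ℝ, 1 ≤ C ∧
    ∀ (Γ : Type u) [Group Γ] [Finite Γ] (a : ℕ) (D : Fin a → Subgroup Γ), PrimSmall t Γ →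
    ∃ (E : ℕ) (I O : Fin a → Subgroup Γ), 0 < E ∧ (∀ i, D i ≤ I i) ∧ (∀ i, I i ≤ O i) ∧
      (∀ i, ∀ g x : Γ, x⁻¹ * g ^ E * x ∈ O i) ∧
      (∀ i, ∀ g : Γ, (∀ x : Γ, x⁻¹ * g * x ∈ I i) → ∀ x : Γ, x⁻¹ * g ^ E * x ∈ D i) ∧
      (E.divisors.card : ℝ) ≤ C * (∏ i, (orbC Γ (Γ ⧸ D i) 3 : ℝ)) ^ ε ∧
      ∀ i, AltLayer (I i) (O i) :=
  family38 t (fun ε hε => tower t ht ε hε) ε hε

end SR32
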