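import Pool.Agent.SR32.NNGood
import Pool.Agent.SR32.PFac
import Pool.Agent.SR32.PTower
import Pool.Agent.SR32.PSec
import Pool.Agent.SR32.PMainS81
import Pool.Agent.SR32.PMinS3
import Pool.Agent.PR12.Main

/-!
# One condition on the simple factors
-/

set_option autoImplicit false

namespace SR32

universe u

open Filter

/-- The minimal normal subgroups of `KK H` are the simple factors. -/
theorem nn_KK_min {H : Type u} [Group H] [Finite H]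
    (h1 : ∀ S ∈ Fac H, IsSimpleGroup S ∧ (∃ x ∈ S, ∃ y ∈ S, x * y ≠ y * x) ∧ S ≤ KK H)
    (h4 : ∀ z : H, (∀ S ∈ Fac H, ∀ y ∈ S, z * y = y * z) → z = 1) (M : Subgroup (KK H))
    (hM : IsMinNormal M) : ∃ S ∈ Fac H, S ≤ KK H ∧ S.subgroupOf (KK H) = M := by
  obtain ⟨m, hmM, hm1⟩ : ∃ m ∈ M, m ≠ 1 := by
    by_contra hno
    push Not at hno
    exact hM.2.1 ((Subgroup.eq_bot_iff_forall M).2 hno)
  have hz1 : (m : H) ≠ 1 := fun h => hm1 (Subtype.ext h)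
  obtain ⟨S, hS, y, hy, hzy⟩ : ∃ S ∈ Fac H, ∃ y ∈ S, (m : H) * y ≠ y * m := by
    by_contra hno
    push Not at hno
    exact hz1 (h4 m hno)
  obtain ⟨hSs, -, hSK⟩ := h1 S hS
  have hn : (S.subgroupOf (KK H)).Normal := by
    refine ⟨fun n hn g => ?_⟩
    rw [Subgroup.mem_subgroupOf] at hn ⊢
    exact p46_KK_normalizes hS g.2 hn
  have := hM.1
  have hN : (M.comap (Subgroup.inclusion hSK)).Normal := inferInstance
  have hSM : S.subgroupOf (KK H) ≤ M := by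
    have hNt : M.comap (Subgroup.inclusion hSK) = ⊤ := by
      rcases IsSimpleGroup.eq_bot_or_eq_top_of_normal (M.comap (Subgroup.inclusion hSK)) hN with
        hb | hb
      · exfalso
        have hcS : (m : H) * y * (m : H)⁻¹ * y⁻¹ ∈ S :=
          S.mul_mem (p46_KK_normalizes hS m.2 hy) (S.inv_mem hy)
        have hcM : Subgroup.inclusion hSK ⟨_, hcS⟩ ∈ M := by
          have e1 : Subgroup.inclusion hSK ⟨_, hcS⟩ =
              m * (⟨y, hSK hy⟩ * m⁻¹ * (⟨y, hSK hy⟩ : KK H)⁻¹) := by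
            apply Subtype.ext
            simp only [Subgroup.coe_inclusion, Subgroup.coe_mul, Subgroup.coe_inv]
            group
          rw [e1]
          exact M.mul_mem hmM (hM.1.conj_mem _ (M.inv_mem hmM) _)
        have h5 : (⟨_, hcS⟩ : S) ∈ M.comap (Subgroup.inclusion hSK) := hcM
        rw [hb, Subgroup.mem_bot] at h5
        have h6 : (m : H) * y * (m : H)⁻¹ * y⁻¹ = 1 := congrArg Subtype.val h5
        apply hzy
        calc (m : H) * y = ((m : H) * y * (m : H)⁻¹ * y⁻¹) * (y * m) := by group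
          _ = y * m := by rw [h6, one_mul]
      · exact hb
    intro x hx
    rw [Subgroup.mem_subgroupOf] at hx
    have h5 : (⟨(x : H), hx⟩ : S) ∈ M.comap (Subgroup.inclusion hSK) := by
      rw [hNt]
      exact Subgroup.mem_top _
    have h6 : Subgroup.inclusion hSK ⟨(x : H), hx⟩ ∈ M := h5
    have h7 : Subgroup.inclusion hSK ⟨(x : H), hx⟩ = x := Subtype.ext rfl
    rwa [h7] at h6
  have hMS : S.subgroupOf (KK H) = M := by
    rcases hM.2.2 _ hn hSM with h | h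
    · exfalso
      have h5 : (⟨y, hSK hy⟩ : KK H) ∈ S.subgroupOf (KK H) := Subgroup.mem_subgroupOf.2 hy
      rw [h, Subgroup.mem_bot] at h5
      have h6 : y = 1 := congrArg Subtype.val h5
      apply hzy
      rw [h6, mul_one, one_mul]
    · exact h
  exact ⟨S, hS, hSK, hMS⟩

/-- the minimal normal subgroups of `KK H` -/
theorem nn_KK_good {η : ℕ → ℕ} {E T : ℕ} (hT : ∀ n, T ≤ n → E ≤ η n) (hT1 : 1 ≤ T) {H : Type u}
    [Group H] [Finite H]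
    (h1 : ∀ S ∈ Fac H, IsSimpleGroup S ∧ (∃ x ∈ S, ∃ y ∈ S, x * y ≠ y * x) ∧ S ≤ KK H)
    (h4 : ∀ z : H, (∀ S ∈ Fac H, ∀ y ∈ S, z * y = y * z) → z = 1) (hf : FacN η H)
    (M : Subgroup (KK H)) (hM : IsMinNormal M) : GoodN E 1 M ∨ GoodAB T M := by
  obtain ⟨S, hS, hSK, rfl⟩ := nn_KK_min h1 h4 M hM
  obtain ⟨hSs, ⟨x, hx, y, hy, hxy⟩, -⟩ := h1 S hS
  let e₂ : S.subgroupOf (KK H) ≃* S := Subgroup.subgroupOfEquivOfLe hSK
  rcases hf S hS with h | ⟨d, hd, ⟨f⟩⟩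
  · rcases Nat.lt_or_ge (Nat.card S) T with hlt | hge
    · right
      left
      refine ⟨⟨⟨x, hSK hx⟩, Subgroup.mem_subgroupOf.2 hx, ⟨y, hSK hy⟩, Subgroup.mem_subgroupOf.2 hy,
        fun h => hxy (congrArg Subtype.val h)⟩, ?_⟩
      rw [Nat.card_congr e₂.toEquiv]
      exact hlt.le
    · left
      have e₃ : (⊤ : Subgroup (S.subgroupOf (KK H))) ≃* S := Subgroup.topEquiv.trans e₂
      refine ⟨⊤, 1, ⟨(MulEquiv.isSimpleGroup_congr e₃).2 hSs,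
        ⟨e₃.symm ⟨x, hx⟩, e₃.symm ⟨y, hy⟩, ?_⟩, ?_⟩, ?_,
        ⟨Subgroup.topEquiv.symm.trans (MulEquiv.funUnique (Fin 1) _).symm⟩⟩
      · intro h
        apply hxy
        rw [← map_mul, ← map_mul] at h
        exact congrArg Subtype.val (e₃.symm.injective h)
      · rw [oo_congr (MulAut.congr e₃), om_congr e₃]
        refine le_trans (Nat.pow_le_pow_right ?_ (hT _ hge)) h
        have := nn_two_le (S := S) ⟨⟨x, hx⟩, ⟨y, hy⟩, fun h => hxy (congrArg Subtype.val h)⟩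
        omega
      · have h8 := om_pos (⊤ : Subgroup (S.subgroupOf (KK H)))
        exact Nat.mul_pos Nat.one_pos (Nat.pow_pos h8)
  · right
    right
    refine ⟨d, 1, hd, Or.inl ?_, ⟨(e₂.trans f).trans (MulEquiv.funUnique (Fin 1) _).symm⟩⟩
    exact Nat.mul_pos hT1 (Nat.pow_pos (om_pos _))

theorem lowerNN (L : ℕ) (η : ℕ → ℕ) (hη : Tendsto η atTop atTop) : ∃ c : ℝ, 0 < c ∧
    ∀ (H : Type u) [Group H] [Finite H],
      (∀ M : Subgroup H, IsMinNormal M → ∃ x ∈ M, ∃ y ∈ M, x * y ≠ y * x) →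
      FacN η H → c * (oo H : ℝ) ^ L ≤ (om H : ℝ) := by
  classical
  obtain ⟨t0, ht0⟩ := PR12.primSmall_all.{u}
  obtain ⟨t1, ht1⟩ : ∃ t1 : ℕ, t1 = max t0 4 := ⟨_, rfl⟩
  have htt : t0 ≤ t1 := by rw [ht1]; exact le_max_left _ _
  have ht4 : 4 ≤ t1 := by rw [ht1]; exact le_max_right _ _
  obtain ⟨Λ, hΛ⟩ : ∃ Λ : ℕ, Λ = 4 * (L + 1) := ⟨_, rfl⟩
  have hΛ0 : 0 < Λ := by omega
  have hΛr : (0 : ℝ) < (Λ : ℝ) := by exact_mod_cast hΛ0
  obtain ⟨C, hC1, hC⟩ := family.{u} t1 ht4 (1 / (Λ : ℝ)) (by positivity)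
  obtain ⟨E0, hE0⟩ := tameN_lower.{u} Λ
  obtain ⟨T0, hT0⟩ := (tendsto_atTop_atTop.1 hη) E0
  obtain ⟨c1, hc1, hlow⟩ := hE0 (max T0 1)
  have hCpos : (0 : ℝ) < C := by linarith
  obtain ⟨c0, hc0⟩ : ∃ c0 : ℝ, c0 = min 1 (c1 * c1 / (C ^ Λ * C ^ Λ)) := ⟨_, rfl⟩
  have hc0pos : 0 < c0 := by
    rw [hc0]
    exact lt_min one_pos (by positivity)
  refine ⟨c0, hc0pos, ?_⟩
  intro H _ _ hna hf
  have hp : ∀ M : Subgroup H, IsMinNormal M →
      ∃ (S : Subgroup M) (s : ℕ), IsSimpleGroup S ∧ Nonempty (M ≃* (Fin s → S)) := by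
    intro M hM
    obtain ⟨S, s, -, h1, -, h2⟩ := min_pow hM (hna M hM)
    exact ⟨S, s, h1, h2⟩
  obtain ⟨hs1, -, -, hs4⟩ := PFacS90.fac_simple hna hp
  have hPS : PrimSmall t0 (MulAut H) := by
    have hfin : Finite (MulAut H) := inferInstance
    exact ht0 (MulAut H)
  obtain ⟨a, D, hUU, hprod⟩ := exists_D hna hp
  obtain ⟨E, I, O, hE, hDI, hIO, hO, hI, hEd, hA⟩ := hC (MulAut H) a D (PMainS81.prim_mono htt hPS)
  have hcO : (UU O).Characteristic := UU_char O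
  have hcI : (UU I).Characteristic := UU_char I
  have hcK : (KK H).Characteristic := KK_char
  have hKI : KK H ≤ UU I := by rw [← hUU]; exact UU_mono hDI
  have hIO' : UU I ≤ UU O := UU_mono hIO
  have hom0 : (0 : ℝ) ≤ (om H : ℝ) := Nat.cast_nonneg _
  -- the number of divisors of `E`
  have hdE : (E.divisors.card : ℝ) ^ Λ ≤ C ^ Λ * (om H : ℝ) := by
    have hP0 : (0 : ℝ) ≤ ∏ i, (orbC (MulAut H) (MulAut H ⧸ D i) 3 : ℝ) :=
      Finset.prod_nonneg fun _ _ => Nat.cast_nonneg _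
    have hP1 : ∏ i, (orbC (MulAut H) (MulAut H ⧸ D i) 3 : ℝ) ≤ (om H : ℝ) := by
      exact_mod_cast hprod
    calc (E.divisors.card : ℝ) ^ Λ
        ≤ (C * (∏ i, (orbC (MulAut H) (MulAut H ⧸ D i) 3 : ℝ)) ^ (1 / (Λ : ℝ))) ^ Λ :=
          pow_le_pow_left₀ (Nat.cast_nonneg _) hEd Λ
      _ = C ^ Λ * ∏ i, (orbC (MulAut H) (MulAut H ⧸ D i) 3 : ℝ) := by
          rw [mul_pow, ← Real.rpow_natCast (_ ^ (1 / (Λ : ℝ))) Λ, ← Real.rpow_mul hP0,
            one_div, inv_mul_cancel₀ hΛr.ne', Real.rpow_one]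
      _ ≤ C ^ Λ * (om H : ℝ) := mul_le_mul_of_nonneg_left hP1 (by positivity)
  -- the four factors
  have h1 : oo (H ⧸ UU O) ≤ E.divisors.card := by
    refine oo_le_div E hE ?_
    intro q
    obtain ⟨h, rfl⟩ := QuotientGroup.mk_surjective q
    rw [← QuotientGroup.mk_pow, QuotientGroup.eq_one_iff, mem_UU]
    intro i x
    rw [map_pow]
    exact hO i (MulAut.conj h) x
  have h3 : oo (UU I ⧸ (KK H).subgroupOf (UU I)) ≤ E.divisors.card := by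
    refine oo_le_div E hE ?_
    intro q
    obtain ⟨h, rfl⟩ := QuotientGroup.mk_surjective q
    rw [← QuotientGroup.mk_pow, QuotientGroup.eq_one_iff, Subgroup.mem_subgroupOf, ← hUU, mem_UU]
    intro i x
    rw [Subgroup.coe_pow, map_pow]
    exact hI i (MulAut.conj (h : H)) (fun x => mem_UU.1 h.2 i x) x
  have h2 : c1 * (oo (UU O ⧸ (UU I).subgroupOf (UU O)) : ℝ) ^ Λ ≤ (om H : ℝ) := by
    have h5 := hlow (UU O ⧸ (UU I).subgroupOf (UU O)) (fun M hM => by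
      obtain ⟨d, hd, ⟨e⟩⟩ := sect_alt I O hIO hA ((UU I).subgroupOf (UU O)) rfl M hM
      exact Or.inr (Or.inr ⟨d, 1, hd, Or.inl (Nat.mul_pos (by omega) (Nat.pow_pos (om_pos _))),
        ⟨e.trans (MulEquiv.funUnique (Fin 1) _).symm⟩⟩))
    refine h5.trans ?_
    exact_mod_cast us_sect_le (UU I) (UU O)
  have h4 : c1 * (oo (KK H) : ℝ) ^ Λ ≤ (om H : ℝ) := by
    have h5 := hlow (KK H) (fun M hM =>
      nn_KK_good (fun n hn => hT0 n ((le_max_left _ _).trans hn)) (le_max_right _ _) hs1 hs4 hf M hM)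
    refine h5.trans ?_
    exact_mod_cast om_char_le (KK H)
  have hoo : oo H ≤ oo (H ⧸ UU O) * (oo (UU O ⧸ (UU I).subgroupOf (UU O)) *
      (oo (UU I ⧸ (KK H).subgroupOf (UU I)) * oo (KK H))) := by
    refine (oo_le_mul (UU O)).trans (Nat.mul_le_mul_left _ ?_)
    refine (oo_le_mul ((UU I).subgroupOf (UU O))).trans (Nat.mul_le_mul_left _ ?_)
    rw [oo_congr (Subgroup.subgroupOfEquivOfLe hIO')]
    refine (oo_le_mul ((KK H).subgroupOf (UU I))).trans (Nat.mul_le_mul_left _ ?_)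
    rw [oo_congr (Subgroup.subgroupOfEquivOfLe hKI)]
  obtain ⟨a1, ha1⟩ : ∃ r : ℝ, r = (oo (H ⧸ UU O) : ℝ) := ⟨_, rfl⟩
  obtain ⟨a2, ha2⟩ : ∃ r : ℝ, r = (oo (UU O ⧸ (UU I).subgroupOf (UU O)) : ℝ) := ⟨_, rfl⟩
  obtain ⟨a3, ha3⟩ : ∃ r : ℝ, r = (oo (UU I ⧸ (KK H).subgroupOf (UU I)) : ℝ) := ⟨_, rfl⟩
  obtain ⟨a4, ha4⟩ : ∃ r : ℝ, r = (oo (KK H) : ℝ) := ⟨_, rfl⟩
  have ha10 : 0 ≤ a1 := by rw [ha1]; exact Nat.cast_nonneg _
  have ha20 : 0 ≤ a2 := by rw [ha2]; exact Nat.cast_nonneg _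
  have ha30 : 0 ≤ a3 := by rw [ha3]; exact Nat.cast_nonneg _
  have ha40 : 0 ≤ a4 := by rw [ha4]; exact Nat.cast_nonneg _
  have e1 : a1 ^ Λ ≤ C ^ Λ * (om H : ℝ) := by
    refine le_trans (pow_le_pow_left₀ ha10 ?_ Λ) hdE
    rw [ha1]
    exact_mod_cast h1
  have e3 : a3 ^ Λ ≤ C ^ Λ * (om H : ℝ) := by
    refine le_trans (pow_le_pow_left₀ ha30 ?_ Λ) hdE
    rw [ha3]
    exact_mod_cast h3
  rw [← ha2] at h2
  rw [← ha4] at h4
  have e0 : (oo H : ℝ) ≤ a1 * (a2 * (a3 * a4)) := by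
    rw [ha1, ha2, ha3, ha4]
    exact_mod_cast hoo
  have hoo0 : (0 : ℝ) ≤ (oo H : ℝ) := Nat.cast_nonneg _
  have hoo1 : (1 : ℝ) ≤ (oo H : ℝ) := by exact_mod_cast oo_pos H
  have hCC : (0 : ℝ) < C ^ Λ * C ^ Λ := by positivity
  have key : c1 * c1 / (C ^ Λ * C ^ Λ) * (oo H : ℝ) ^ Λ ≤ (om H : ℝ) ^ 4 := by
    rw [div_mul_eq_mul_div, div_le_iff₀ hCC]
    calc c1 * c1 * (oo H : ℝ) ^ Λ ≤ c1 * c1 * (a1 * (a2 * (a3 * a4))) ^ Λ :=
          mul_le_mul_of_nonneg_left (pow_le_pow_left₀ hoo0 e0 Λ) (by positivity)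
      _ = (a1 ^ Λ * a3 ^ Λ) * ((c1 * a2 ^ Λ) * (c1 * a4 ^ Λ)) := by
          rw [mul_pow, mul_pow, mul_pow]
          ring
      _ ≤ ((C ^ Λ * (om H : ℝ)) * (C ^ Λ * (om H : ℝ))) * ((om H : ℝ) * (om H : ℝ)) :=
          mul_le_mul (mul_le_mul e1 e3 (by positivity) (by positivity))
            (mul_le_mul h2 h4 (by positivity) hom0) (by positivity) (by positivity)
      _ = (om H : ℝ) ^ 4 * (C ^ Λ * C ^ Λ) := by ring
  have h6 : (c0 * (oo H : ℝ) ^ (L + 1)) ^ 4 ≤ (om H : ℝ) ^ 4 := by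
    have h7 : c0 ^ 4 ≤ c0 := by
      have h8 : c0 ≤ 1 := by rw [hc0]; exact min_le_left _ _
      calc c0 ^ 4 ≤ c0 ^ 1 := pow_le_pow_of_le_one hc0pos.le h8 (by norm_num)
        _ = c0 := pow_one _
    calc (c0 * (oo H : ℝ) ^ (L + 1)) ^ 4 = c0 ^ 4 * (oo H : ℝ) ^ Λ := by
          rw [mul_pow, ← pow_mul, hΛ, mul_comm (L + 1) 4]
      _ ≤ c0 * (oo H : ℝ) ^ Λ := mul_le_mul_of_nonneg_right h7 (by positivity)
      _ ≤ c1 * c1 / (C ^ Λ * C ^ Λ) * (oo H : ℝ) ^ Λ :=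
          mul_le_mul_of_nonneg_right (by rw [hc0]; exact min_le_right _ _) (by positivity)
      _ ≤ (om H : ℝ) ^ 4 := key
  have h7 : c0 * (oo H : ℝ) ^ (L + 1) ≤ (om H : ℝ) :=
    (pow_le_pow_iff_left₀ (by positivity) hom0 (by norm_num)).1 h6
  refine le_trans ?_ h7
  exact mul_le_mul_of_nonneg_left (pow_le_pow_right₀ hoo1 (Nat.le_succ L)) hc0pos.le

/-- few automorphism classes bound the order -/
theorem nn_bound (η : ℕ → ℕ) (hη : Tendsto η atTop atTop) (Ω : ℕ) : ∃ B : ℕ,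
    ∀ (H : Type u) [Group H] [Finite H],
    (∀ M : Subgroup H, IsMinNormal M → ∃ x ∈ M, ∃ y ∈ M, x * y ≠ y * x) →
    FacN η H → om H ≤ Ω → Nat.card H ≤ B := by
  obtain ⟨T, hT⟩ := (tendsto_atTop_atTop.1 hη) (Ω + 1)
  obtain ⟨B, hB⟩ := ybound_of_om.{u} η Ω T
  refine ⟨B, ?_⟩
  intro H _ _ hna hf hom
  refine hB H hna ?_ hom
  intro M hM
  obtain ⟨S, s, hSmin, hSs, ⟨x, y, hxy⟩, ⟨e⟩⟩ := min_pow hM (hna M hM)
  have hSub : (S.map M.subtype).subgroupOf M = S :=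
    Subgroup.comap_map_eq_self_of_injective M.subtype_injective S
  have hFac : S.map M.subtype ∈ Fac H :=
    ⟨M, hM, Subgroup.map_subtype_le S, by rw [hSub]; exact hSmin⟩
  have e' : S ≃* S.map M.subtype := S.equivMapOfInjective M.subtype M.subtype_injective
  rcases hf _ hFac with h | ⟨d, hd, ⟨f⟩⟩
  · left
    refine ⟨S, s, hSs, Or.inl ?_, ⟨e⟩⟩
    by_contra hlt
    have hge : T ≤ Nat.card S := by omega
    rw [← oo_congr (MulAut.congr e'), ← om_congr e', ← Nat.card_congr e'.toEquiv] at h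
    have hs : 1 ≤ s := by
      rcases Nat.eq_zero_or_pos s with h0 | h0
      · exfalso
        subst h0
        apply hM.2.1
        rw [Subgroup.eq_bot_iff_forall]
        intro x hx
        have : (⟨x, hx⟩ : M) = 1 := e.injective (Subsingleton.elim _ _)
        exact congrArg Subtype.val this
      · exact h0
    have h1 : om S ≤ om H := by
      calc om S = Nat.multichoose (om S) 1 := (Nat.multichoose_one_right _).symm
        _ ≤ Nat.multichoose (om S) s := exc_W_mono_right (om_pos S) hs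
        _ ≤ om (Fin s → S) := om_powS_ge (nn_center hSs ⟨x, y, hxy⟩) s
        _ = om M := (om_congr e).symm
        _ ≤ om H := om_min_le M hM
    have h2 : 2 ^ (Ω + 1) ≤ om S := by
      calc 2 ^ (Ω + 1) ≤ 2 ^ η (Nat.card S) := Nat.pow_le_pow_right (by norm_num) (hT _ hge)
        _ ≤ oo (MulAut S) ^ η (Nat.card S) := Nat.pow_le_pow_left (nn_two_le ⟨x, y, hxy⟩) _
        _ ≤ om S := h
    have h3 : Ω + 1 < 2 ^ (Ω + 1) := Nat.lt_two_pow_self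
    omega
  · exact Or.inr ⟨d, s, hd, ⟨e.trans (MulEquiv.piCongrRight (fun _ => e'.trans f))⟩⟩

theorem main_boundN (η : ℕ → ℕ) (hη : Tendsto η atTop atTop) : ∃ B : ℕ → ℕ → ℕ,
    ∀ (G : Type u) [Group G] [Finite G] [Nontrivial G],
    FacN η (G ⧸ Rad G) →
    ∀ L m : ℕ, ll G ≤ L → oo (Rad G) ≤ m → Nat.card (G ⧸ Rad G) ≤ B L m := by
  classical
  choose c hc0 hc using fun L => lowerNN.{u} L η hη
  choose B hB using fun Ω => nn_bound.{u} η hη Ω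
  refine ⟨fun L m => B ((m * ⌈(m : ℝ) ^ L / c (L + 1)⌉₊) ^ L), ?_⟩
  intro G _ _ _ hf L m hL hm
  have hna : ∀ M : Subgroup (G ⧸ Rad G), IsMinNormal M → ∃ x ∈ M, ∃ y ∈ M, x * y ≠ y * x :=
    fun M hM => minNormal_nonab M hM
  apply hB _ (G ⧸ Rad G) hna hf
  have h2 := hc (L + 1) (G ⧸ Rad G) hna hf
  set H := G ⧸ Rad G with hH
  have h1 : om H ≤ (m * oo H) ^ L := by
    calc om H ≤ om G := om_quot_le _
      _ ≤ oo G ^ L := om_le_pow L hL
      _ ≤ (oo (G ⧸ Rad G) * oo (Rad G)) ^ L := Nat.pow_le_pow_left (oo_le_mul _) L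
      _ ≤ (m * oo H) ^ L := by
        apply Nat.pow_le_pow_left
        rw [mul_comm m]
        exact Nat.mul_le_mul_left _ hm
  have hooH : (0 : ℝ) < (oo H : ℝ) := by exact_mod_cast oo_pos H
  have hcp : (0 : ℝ) < c (L + 1) := hc0 _
  have h3 : (om H : ℝ) ≤ ((m : ℝ) * oo H) ^ L := by exact_mod_cast h1
  have h4 : c (L + 1) * (oo H : ℝ) ≤ (m : ℝ) ^ L := by
    have h5 : c (L + 1) * (oo H : ℝ) ^ (L + 1) ≤ (m : ℝ) ^ L * (oo H : ℝ) ^ L := by
      rw [← mul_pow]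
      exact h2.trans h3
    rw [pow_succ, ← mul_assoc, mul_right_comm] at h5
    exact le_of_mul_le_mul_right h5 (pow_pos hooH _)
  have h5 : oo H ≤ ⌈(m : ℝ) ^ L / c (L + 1)⌉₊ := by
    have h6 : (oo H : ℝ) ≤ (m : ℝ) ^ L / c (L + 1) := by
      rw [le_div_iff₀ hcp, mul_comm]
      exact h4
    exact_mod_cast h6.trans (Nat.le_ceil _)
  exact h1.trans (Nat.pow_le_pow_left (Nat.mul_le_mul_left m h5) L)

theorem finalN (η : ℕ → ℕ) (hη : Tendsto η atTop atTop) : ∃ f : ℝ → ℝ → ℝ,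
    (∀ x y, 1 ≤ x → 1 ≤ y → 1 ≤ f x y) ∧ (∀ y, StrictMono (fun x => f x y)) ∧
    (∀ x, StrictMono (fun y => f x y)) ∧
    ∀ (G : Type u) [Group G] [Finite G] [Nontrivial G],
      FacN η (G ⧸ Rad G) →
      ((Rad G).index : ℝ) ≤ f (ll G) (oo (Rad G)) := by
  obtain ⟨B, hB⟩ := main_boundN.{u} η hη
  obtain ⟨f, h1, h2, h3, h4⟩ := exists_mono B
  refine ⟨f, h1, h2, h3, ?_⟩
  intro G _ _ _ hf
  have h5 := hB G hf ⌈ll G⌉₊ ⌈((oo (Rad G) : ℕ) : ℝ)⌉₊ (Nat.le_ceil _) (by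
    rw [Nat.ceil_natCast])
  have h6 := h4 (ll G) (oo (Rad G)) (ll_nonneg G) (Nat.cast_nonneg _)
  have h7 : ((Rad G).index : ℝ) ≤ (B ⌈ll G⌉₊ ⌈((oo (Rad G) : ℕ) : ℝ)⌉₊ : ℝ) := by
    exact_mod_cast h5
  exact h7.trans h6

end SR32
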