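import Pool.Agent.SR32.DefsFac
import Mathlib.LinearAlgebra.Matrix.ProjectiveSpecialLinearGroup

/-!
# The condition on the simple factors, with projective special linear groups of arbitrary degree
-/

namespace SR32

universe u

/-- Every simple factor `S` of every minimal normal subgroup of `H` has at least `o(Aut S) ^ η |S|`
automorphism classes, or is alternating of degree at least `5`, or isomorphic to `PSL(n, F)` with
`F` a finite field. -/
def FacPL (η : ℕ → ℕ) (H : Type u) [Group H] : Prop :=
  ∀ S ∈ Fac H, oo (MulAut S) ^ η (Nat.card S) ≤ om S ∨ (∃ d : ℕ, 5 ≤ d ∧ Nonempty (S ≃* A d)) ∨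
    ∃ (n : ℕ) (F : Type) (_ : Field F) (_ : Finite F),
      Nonempty (S ≃* Matrix.ProjectiveSpecialLinearGroup (Fin n) F)

end SR32
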