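import Pool.Agent.SR32.NLMain
import Pool.Agent.SR32.NPDefs

/-!
# Projective special linear groups of arbitrary degree as simple factors
-/

namespace SR32

open Filter

universe u

theorem np_psl (hpsl : ∀ L : ℕ, ∃ N : ℕ, ∀ (n : ℕ) (F : Type) [Field F] [Finite F],
      N ≤ Nat.card (Matrix.ProjectiveSpecialLinearGroup (Fin n) F) →
      oo (MulAut (Matrix.ProjectiveSpecialLinearGroup (Fin n) F)) ^ L ≤
        om (Matrix.ProjectiveSpecialLinearGroup (Fin n) F)) :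
    ∃ η₀ : ℕ → ℕ, Tendsto η₀ atTop atTop ∧ ∀ (n : ℕ) (F : Type) [Field F] [Finite F],
      oo (MulAut (Matrix.ProjectiveSpecialLinearGroup (Fin n) F)) ^
        η₀ (Nat.card (Matrix.ProjectiveSpecialLinearGroup (Fin n) F)) ≤
          om (Matrix.ProjectiveSpecialLinearGroup (Fin n) F) := by
  obtain ⟨η₀, h1, h2⟩ := nl_eta (fun L m => ∀ (n : ℕ) (F : Type) [Field F] [Finite F],
      Nat.card (Matrix.ProjectiveSpecialLinearGroup (Fin n) F) = m →
      oo (MulAut (Matrix.ProjectiveSpecialLinearGroup (Fin n) F)) ^ L ≤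
        om (Matrix.ProjectiveSpecialLinearGroup (Fin n) F)) (by
      intro m n F _ _ _
      rw [pow_zero]
      exact om_pos _) (by
      intro L
      obtain ⟨N, hN⟩ := hpsl L
      exact ⟨N, fun m hm n F _ _ hF => hN n F (hF ▸ hm)⟩)
  exact ⟨η₀, h1, fun n F _ _ => h2 _ n F rfl⟩

theorem finalPL_of (hpsl : ∀ L : ℕ, ∃ N : ℕ, ∀ (n : ℕ) (F : Type) [Field F] [Finite F],
      N ≤ Nat.card (Matrix.ProjectiveSpecialLinearGroup (Fin n) F) →
      oo (MulAut (Matrix.ProjectiveSpecialLinearGroup (Fin n) F)) ^ L ≤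
        om (Matrix.ProjectiveSpecialLinearGroup (Fin n) F))
    (η : ℕ → ℕ) (hη : Tendsto η atTop atTop) : ∃ f : ℝ → ℝ → ℝ,
    (∀ x y, 1 ≤ x → 1 ≤ y → 1 ≤ f x y) ∧ (∀ y, StrictMono (fun x => f x y)) ∧
    (∀ x, StrictMono (fun y => f x y)) ∧
    ∀ (G : Type u) [Group G] [Finite G] [Nontrivial G],
      FacPL η (G ⧸ Rad G) →
      ((Rad G).index : ℝ) ≤ f (ll G) (oo (Rad G)) := by
  obtain ⟨η₀, h1, h2⟩ := np_psl hpsl
  obtain ⟨f, hf1, hf2, hf3, hf4⟩ := finalN.{u} (fun n => min (η n) (η₀ n))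
    (tendsto_atTop.2 fun b => ((tendsto_atTop.1 hη b).and (tendsto_atTop.1 h1 b)).mono
      fun n hn => le_min hn.1 hn.2)
  refine ⟨f, hf1, hf2, hf3, fun G _ _ _ hG => hf4 G ?_⟩
  intro S hS
  rcases hG S hS with h | h | ⟨n, F, hF1, hF2, ⟨e⟩⟩
  · exact Or.inl ((Nat.pow_le_pow_right (oo_pos _) (min_le_left _ _)).trans h)
  · exact Or.inr h
  · refine Or.inl ((Nat.pow_le_pow_right (oo_pos _) (min_le_right _ _)).trans ?_)
    rw [oo_congr (MulAut.congr e), om_congr e, Nat.card_congr e.toEquiv]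
    exact h2 n F

end SR32
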