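import Pool.Agent.SR32.DefsT

/-!
# SR32/OuterTS90: orders in an extension (`oo_le_outerT`) and in subgroups (`oo_subgroup_le`)
-/

namespace SR32.OuterTS90

open SR32

/-- If the `c`-th powers of the elements of the kernel of `τ` lie in `N`, the number of orders is at most `c` times
the product of the numbers of orders of the target and of `N`. -/
theorem oo_le_outerT {H : Type*} [Group H] [Finite H] (N : Subgroup H) [N.Normal]
    {Γ : Type*} [Group Γ] [Finite Γ] (τ : H →* Γ) (c : ℕ) (hc : 1 ≤ c)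
    (hN : ∀ h : H, τ h = 1 → h ^ c ∈ N) : oo H ≤ oo Γ * (c * oo N) := by
  classical
  unfold oo
  have hfin : (Set.range (fun g : Γ => orderOf g) ×ˢ (((Finset.Icc 1 c : Finset ℕ) : Set ℕ) ×ˢ
      Set.range (fun g : N => orderOf g))).Finite :=
    (Set.finite_range _).prod ((Finset.finite_toSet _).prod (Set.finite_range _))
  have hsub : Set.range (fun g : H => orderOf g) ⊆
      (fun p : ℕ × (ℕ × ℕ) => p.1 * (p.2.1 * p.2.2)) ''
        (Set.range (fun g : Γ => orderOf g) ×ˢ (((Finset.Icc 1 c : Finset ℕ) : Set ℕ) ×ˢ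
          Set.range (fun g : N => orderOf g))) := by
    rintro _ ⟨h, rfl⟩
    have h1 : τ (h ^ orderOf (τ h)) = 1 := by rw [map_pow, pow_orderOf_eq_one]
    have hd : orderOf (τ h) ∣ orderOf h := orderOf_map_dvd τ h
    have hm : orderOf (τ h) ≠ 0 := (orderOf_pos _).ne'
    refine ⟨(orderOf (τ h), (Nat.gcd (orderOf (h ^ orderOf (τ h))) c,
      orderOf ((h ^ orderOf (τ h)) ^ c))), ⟨⟨τ h, rfl⟩, ?_, ⟨⟨(h ^ orderOf (τ h)) ^ c, hN _ h1⟩, ?_⟩⟩,
      ?_⟩
    · rw [Finset.mem_coe, Finset.mem_Icc]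
      exact ⟨Nat.gcd_pos_of_pos_right _ (by omega), Nat.gcd_le_right _ (by omega)⟩
    · exact (Subgroup.orderOf_coe _).symm
    · show orderOf (τ h) * (Nat.gcd (orderOf (h ^ orderOf (τ h))) c *
        orderOf ((h ^ orderOf (τ h)) ^ c)) = orderOf h
      rw [orderOf_pow' (h ^ orderOf (τ h)) (by omega : c ≠ 0),
        Nat.mul_div_cancel' (Nat.gcd_dvd_left _ _), orderOf_pow_of_dvd hm hd,
        Nat.mul_div_cancel' hd]
  refine (Set.ncard_le_ncard hsub (hfin.image _)).trans ((Set.ncard_image_le hfin).trans ?_)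
  rw [Set.ncard_prod, Set.ncard_prod, Set.ncard_coe_finset, Nat.card_Icc, Nat.add_sub_cancel]

theorem oo_subgroup_le {G : Type*} [Group G] [Finite G] (K : Subgroup G) : oo K ≤ oo G := by
  unfold oo
  refine Set.ncard_le_ncard ?_ (Set.finite_range _)
  rintro _ ⟨g, rfl⟩
  exact ⟨(g : G), Subgroup.orderOf_coe g⟩

end SR32.OuterTS90
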