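import Pool.Agent.SR32.Outer
import Pool.Agent.SR32.Perm
import Pool.Agent.SR32.DefsT

/-!
# Outer part with permuted simple factors

Conjugation by an element permutes the simple factors of every block, which gives a homomorphism to the
product of the symmetric groups; an element of its kernel normalizes all simple factors, so a fixed power
of it acts as an inner automorphism on the socle.
-/

set_option autoImplicit false

namespace SR32

/-- the permutation of the factors is unique -/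
theorem ot_unique {ι S : Type*} [Group S] [Nontrivial S] (φ : (ι → S) → (ι → S))
    (σ σ' : Equiv.Perm ι) (ψ ψ' : ι → (S ≃* S)) (h : ∀ x i, φ x (σ i) = ψ i (x i))
    (h' : ∀ x i, φ x (σ' i) = ψ' i (x i)) : σ = σ' := by
  classical
  apply Equiv.ext
  intro i
  by_contra hne
  obtain ⟨t, ht⟩ := exists_ne (1 : S)
  have h1 := h (Pi.mulSingle i t) i
  rw [Pi.mulSingle_eq_same] at h1
  have h2 := h' (Pi.mulSingle i t) (σ'.symm (σ i))
  rw [Equiv.apply_symm_apply, h1] at h2
  have h3 : σ'.symm (σ i) ≠ i := by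
    intro h4
    apply hne
    rw [Equiv.symm_apply_eq] at h4
    exact h4
  rw [Pi.mulSingle_eq_of_ne h3, map_one] at h2
  exact ht ((MulEquiv.map_eq_one_iff (ψ i)).1 h2)

/-- the permutation of the factors as a homomorphism -/
theorem ot_hom {ι S : Type*} [Finite ι] [Group S] [IsSimpleGroup S]
    (hc : Subgroup.center S = ⊥) :
    ∃ τ : MulAut (ι → S) →* Equiv.Perm ι, ∀ φ : MulAut (ι → S), ∃ ψ : ι → MulAut S,
      ∀ x i, φ x (τ φ i) = ψ i (x i) := by
  have key : ∀ φ : MulAut (ι → S), ∃ σ : Equiv.Perm ι, ∃ ψ : ι → (S ≃* S),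
      ∀ x i, φ x (σ i) = ψ i (x i) := fun φ => aut_pi (fun _ : ι => S) (fun _ => hc) φ
  choose σ ψ hσ using key
  refine ⟨MonoidHom.mk' σ ?_, fun φ => ⟨ψ φ, hσ φ⟩⟩
  intro φ₁ φ₂
  refine ot_unique (φ₁ * φ₂ : MulAut (ι → S)) _ _ (ψ (φ₁ * φ₂))
    (fun i => (ψ φ₂ i).trans (ψ φ₁ (σ φ₂ i))) (hσ _) ?_
  intro x i
  rw [MulAut.mul_apply, Equiv.Perm.mul_apply, hσ, hσ]
  rfl

/-- conjugation as a homomorphism to the automorphisms of the blocks -/
theorem ot_act {H : Type*} [Group H] {J : Type*} [DecidableEq J] (B : J → Type*)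
    [∀ j, Group (B j)] [∀ j, Finite (B j)] (N : Subgroup H) (e : (∀ j, B j) ≃* N)
    (hn : ∀ (h : H) (j : J) (x : B j), ∃ y : B j,
      h * (e (Pi.mulSingle j x) : H) * h⁻¹ = (e (Pi.mulSingle j y) : H)) :
    ∃ α : H →* (∀ j, MulAut (B j)), ∀ (h : H) (j : J) (x : B j),
      h * (e (Pi.mulSingle j x) : H) * h⁻¹ = (e (Pi.mulSingle j (α h j x)) : H) := by
  have hinj : ∀ (j : J) (x y : B j),
      (e (Pi.mulSingle j x) : H) = (e (Pi.mulSingle j y) : H) → x = y := by
    intro j x y hxy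
    exact Pi.mulSingle_injective j (e.injective (Subtype.ext hxy))
  have hα : ∀ (h : H) (j : J), ∃ α : MulAut (B j), ∀ x : B j,
      h * (e (Pi.mulSingle j x) : H) * h⁻¹ = (e (Pi.mulSingle j (α x)) : H) := by
    intro h j
    choose f hf using hn h j
    have hmul : ∀ x y, f (x * y) = f x * f y := by
      intro x y
      apply hinj
      rw [← hf, Pi.mulSingle_mul, map_mul, Pi.mulSingle_mul, map_mul, Subgroup.coe_mul,
        Subgroup.coe_mul, ← hf, ← hf]
      group
    have hfi : Function.Injective f := by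
      intro x y hxy
      apply hinj
      have h1 := hf x
      rw [hxy, ← hf y] at h1
      exact mul_left_cancel (mul_right_cancel h1)
    exact ⟨MulEquiv.ofBijective (MonoidHom.mk' f hmul) (Finite.injective_iff_bijective.1 hfi),
      fun x => hf x⟩
  choose α hα using hα
  refine ⟨MonoidHom.mk' α ?_, fun h j x => hα h j x⟩
  intro g h
  funext j
  apply MulEquiv.ext
  intro x
  apply hinj
  rw [← hα, Pi.mul_apply, MulAut.mul_apply, ← hα, ← hα]
  group

/-- an element that acts on the socle as an element of the socle lies in the socle -/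
theorem ot_mem {H : Type*} [Group H] {J : Type*} [Finite J] [DecidableEq J] (B : J → Type*)
    [∀ j, Group (B j)] (N : Subgroup H) (hc : Subgroup.centralizer (N : Set H) = ⊥)
    (e : (∀ j, B j) ≃* N) (g : H) (z : ∀ j, B j)
    (hz : ∀ (j : J) (x : B j), g * (e (Pi.mulSingle j x) : H) * g⁻¹ =
      (e (Pi.mulSingle j (z j * x * (z j)⁻¹)) : H)) : g ∈ N := by
  have hagree : (MulAut.conj g).toMonoidHom.comp (N.subtype.comp e.toMonoidHom) =
      (MulAut.conj ((e z : N) : H)).toMonoidHom.comp (N.subtype.comp e.toMonoidHom) := by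
    apply MonoidHom.pi_ext
    intro i x
    show g * (e (Pi.mulSingle i x) : H) * g⁻¹ =
      ((e z : N) : H) * (e (Pi.mulSingle i x) : H) * ((e z : N) : H)⁻¹
    rw [hz, ← Subgroup.coe_mul, ← Subgroup.coe_inv, ← Subgroup.coe_mul, ← map_mul,
      ← map_inv, ← map_mul, perm_conj_single]
  have hcent : ((e z : N) : H)⁻¹ * g ∈ Subgroup.centralizer (N : Set H) := by
    rw [Subgroup.mem_centralizer_iff]
    intro x hx
    obtain ⟨y, hy⟩ := e.surjective ⟨x, hx⟩
    have h1 := DFunLike.congr_fun hagree y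
    have h2 : g * x * g⁻¹ = ((e z : N) : H) * x * ((e z : N) : H)⁻¹ := by
      have h3 : (e y : H) = x := by rw [hy]
      rw [← h3]
      exact h1
    calc x * (((e z : N) : H)⁻¹ * g)
        = ((e z : N) : H)⁻¹ * (((e z : N) : H) * x * ((e z : N) : H)⁻¹) * g := by group
      _ = ((e z : N) : H)⁻¹ * (g * x * g⁻¹) * g := by rw [h2]
      _ = ((e z : N) : H)⁻¹ * g * x := by group
  rw [hc, Subgroup.mem_bot, inv_mul_eq_one] at hcent
  rw [← hcent]
  exact (e z).2

theorem outerT_s92 {H : Type*} [Group H] [Finite H] (N : Subgroup H) [N.Normal]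
    (hc : Subgroup.centralizer (N : Set H) = ⊥)
    (a : ℕ) (d s : Fin a → ℕ) (e : (∀ j, (Fin (s j) → A (d j))) ≃* N) (h5 : ∀ j, 5 ≤ d j)
    (hn : ∀ (h : H) (j : Fin a) (x : Fin (s j) → A (d j)), ∃ y : Fin (s j) → A (d j),
          h * (e (Pi.mulSingle j x) : H) * h⁻¹ = (e (Pi.mulSingle j y) : H)) :
    ∃ τ : H →* (∀ j, Equiv.Perm (Fin (s j))),
      ∀ h : H, τ h = 1 → h ^ (2 * Nat.card (MulAut (A 6))) ∈ N := by
  classical
  have hsim : ∀ j, IsSimpleGroup (A (d j)) := fun j =>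
    alternatingGroup.isSimpleGroup (by rw [Nat.card_eq_fintype_card, Fintype.card_fin]; exact h5 j)
  have hcen : ∀ j, Subgroup.center (A (d j)) = ⊥ := fun j =>
    alternatingGroup.center_eq_bot (by
      rw [Nat.card_eq_fintype_card, Fintype.card_fin]
      have := h5 j
      omega)
  obtain ⟨α, hα⟩ := ot_act (fun j => (Fin (s j) → A (d j))) N e hn
  choose τ hτ using fun j => ot_hom (ι := Fin (s j)) (S := A (d j)) (hcen j)
  refine ⟨MonoidHom.mk' (fun h j => τ j (α h j)) ?_, ?_⟩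
  · intro g h
    funext j
    rw [map_mul, Pi.mul_apply, map_mul, Pi.mul_apply]
  · intro h hh
    have hh' : ∀ j, τ j (α h j) = 1 := fun j => congrFun hh j
    choose ψ hψ using fun j => hτ j (α h j)
    obtain ⟨c, hcdef⟩ : ∃ c : ℕ, c = 2 * Nat.card (MulAut (A 6)) := ⟨_, rfl⟩
    choose z hz using fun j i => outer_pow (d j) (h5 j) (ψ j i)
    rw [← hcdef] at hz ⊢
    have hpw : ∀ (k : ℕ) (j : Fin a) (x : Fin (s j) → A (d j)) (i : Fin (s j)),
        ((α h j) ^ k) x i = (ψ j i ^ k) (x i) := by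
      intro k j
      induction k with
      | zero => intro x i; simp
      | succ k ih =>
        intro x i
        rw [pow_succ, MulAut.mul_apply, ih, pow_succ, MulAut.mul_apply]
        congr 1
        have h1 := hψ j x i
        rw [hh' j] at h1
        exact h1
    refine ot_mem (fun j => (Fin (s j) → A (d j))) N hc e (h ^ c) z ?_
    intro j x
    rw [hα (h ^ c) j x, map_pow, Pi.pow_apply]
    congr 3
    funext i
    rw [hpw, hz]
    rfl

theorem oo_le_outerT_s92 {H : Type*} [Group H] [Finite H] (N : Subgroup H) [N.Normal]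
    {Γ : Type*} [Group Γ] [Finite Γ] (τ : H →* Γ) (c : ℕ) (hc : 1 ≤ c)
    (hN : ∀ h : H, τ h = 1 → h ^ c ∈ N) : oo H ≤ oo Γ * (c * oo N) := by
  classical
  unfold oo
  have hfin : (Set.range (fun g : Γ => orderOf g) ×ˢ (((Finset.Icc 1 c : Finset ℕ) : Set ℕ) ×ˢ
      Set.range (fun g : N => orderOf g))).Finite :=
    (Set.finite_range _).prod ((Finset.finite_toSet _).prod (Set.finite_range _))
  have hsub : Set.range (fun g : H => orderOf g) ⊆
      (fun p : ℕ × (ℕ × ℕ) => p.1 * (p.2.1 * p.2.2)) '' (Set.range (fun g : Γ => orderOf g) ×ˢ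
        (((Finset.Icc 1 c : Finset ℕ) : Set ℕ) ×ˢ Set.range (fun g : N => orderOf g))) := by
    rintro _ ⟨h, rfl⟩
    obtain ⟨k, hk⟩ : ∃ k, k = orderOf (τ h) := ⟨_, rfl⟩
    have hkd : k ∣ orderOf h := by rw [hk]; exact orderOf_map_dvd τ h
    have hk0 : k ≠ 0 := by rw [hk]; exact (orderOf_pos _).ne'
    have hker : τ (h ^ k) = 1 := by rw [map_pow, hk, pow_orderOf_eq_one]
    refine ⟨(k, (Nat.gcd (orderOf (h ^ k)) c, orderOf ((h ^ k) ^ c))),
      ⟨⟨τ h, hk.symm⟩, ⟨?_, ⟨⟨(h ^ k) ^ c, hN _ hker⟩, ?_⟩⟩⟩, ?_⟩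
    · rw [Finset.mem_coe, Finset.mem_Icc]
      exact ⟨Nat.gcd_pos_of_pos_right _ (by omega), Nat.gcd_le_right _ (by omega)⟩
    · exact (Subgroup.orderOf_coe _).symm
    · show k * (Nat.gcd (orderOf (h ^ k)) c * orderOf ((h ^ k) ^ c)) = orderOf h
      rw [orderOf_pow' (h ^ k) (by omega : c ≠ 0), Nat.mul_div_cancel' (Nat.gcd_dvd_left _ _),
        orderOf_pow' h hk0, Nat.gcd_eq_right hkd, Nat.mul_div_cancel' hkd]
  refine (Set.ncard_le_ncard hsub (hfin.image _)).trans ((Set.ncard_image_le hfin).trans ?_)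
  rw [Set.ncard_prod, Set.ncard_prod, Set.ncard_coe_finset, Nat.card_Icc, Nat.add_sub_cancel]

end SR32
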