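import Pool.Agent.SR32.POrb

/-!
# SR32/PDS52: colourings of the simple factors by automorphism orbits
-/

set_option autoImplicit false

namespace SR32

universe u

section

variable {H : Type u} [Group H]

/-- the automorphisms act on the simple factors -/
@[reducible] def facAct52 (hm : ∀ (φ : H ≃* H), ∀ S ∈ Fac H, S.map φ.toMonoidHom ∈ Fac H) :
    MulAction (MulAut H) (Fac H) where
  smul φ S := ⟨S.1.map (MulEquiv.toMonoidHom φ), hm φ S.1 S.2⟩
  one_smul S := by
    apply Subtype.ext
    show S.1.map (MulEquiv.toMonoidHom (1 : MulAut H)) = S.1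
    ext x
    simp
  mul_smul φ ψ S := by
    apply Subtype.ext
    show S.1.map (MulEquiv.toMonoidHom (φ * ψ)) =
      (S.1.map (MulEquiv.toMonoidHom ψ)).map (MulEquiv.toMonoidHom φ)
    rw [Subgroup.map_map]
    rfl

open Classical in
/-- the colour of `S` under `h` -/
noncomputable def colr52 (h : H) (S : Subgroup H) : Fin 3 :=
  if ∀ y ∈ S, h * y = y * h then 0
  else if ∀ y ∈ S, h ^ (Nat.card S).minFac * y = y * h ^ (Nat.card S).minFac then 1 else 2

theorem cent_map52 (φ : MulAut H) (h : H) (S : Subgroup H) :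
    (∀ y ∈ S.map (MulEquiv.toMonoidHom φ), φ h * y = y * φ h) ↔ ∀ y ∈ S, h * y = y * h := by
  constructor
  · intro hh y hy
    have h1 := hh (φ y) ⟨y, hy, rfl⟩
    rw [← map_mul, ← map_mul] at h1
    exact φ.injective h1
  · rintro hh _ ⟨y, hy, rfl⟩
    show φ h * φ y = φ y * φ h
    rw [← map_mul, ← map_mul, hh y hy]

theorem colr_map52 (φ : MulAut H) (h : H) (S : Subgroup H) :
    colr52 (φ h) (S.map (MulEquiv.toMonoidHom φ)) = colr52 h S := by
  have h1 : Nat.card (S.map (MulEquiv.toMonoidHom φ)) = Nat.card S :=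
    (Nat.card_congr (S.equivMapOfInjective (MulEquiv.toMonoidHom φ) φ.injective).toEquiv).symm
  unfold colr52
  rw [h1]
  have h2 := cent_map52 φ h S
  have h3 := cent_map52 φ (h ^ (Nat.card S).minFac) S
  rw [map_pow] at h3
  by_cases c1 : ∀ y ∈ S, h * y = y * h
  · rw [if_pos (h2.2 c1), if_pos c1]
  · rw [if_neg (fun c => c1 (h2.1 c)), if_neg c1]
    by_cases c2 : ∀ y ∈ S, h ^ (Nat.card S).minFac * y = y * h ^ (Nat.card S).minFac
    · rw [if_pos (h3.2 c2), if_pos c2]
    · rw [if_neg (fun c => c2 (h3.1 c)), if_neg c2]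

/-- an element acting as prescribed on finitely many factors -/
theorem exists_act52
    (hc : ∀ S ∈ Fac H, ∀ T ∈ Fac H, S ≠ T → ∀ x ∈ S, ∀ y ∈ T, x * y = y * x)
    (x : Fac H → H) (hx : ∀ S : Fac H, x S ∈ S.1) (s : Finset (Fac H)) :
    ∃ h : H, (∀ S ∈ s, ∀ y ∈ S.1, h * y * h⁻¹ = x S * y * (x S)⁻¹) ∧
      ∀ S ∉ s, ∀ y ∈ S.1, h * y * h⁻¹ = y := by
  classical
  induction s using Finset.induction_on with
  | empty =>
    refine ⟨1, by simp, fun S _ y _ => by simp⟩
  | insert T s hT ih =>
    obtain ⟨h, h1, h2⟩ := ih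
    have key : ∀ S : Fac H, S ≠ T → ∀ y ∈ S.1, x T * y * (x T)⁻¹ = y := by
      intro S hS y hy
      have h3 := hc T.1 T.2 S.1 S.2 (fun h => hS (Subtype.ext h.symm)) (x T) (hx T) y hy
      rw [h3, mul_assoc, mul_inv_cancel, mul_one]
    refine ⟨h * x T, ?_, ?_⟩
    · intro S hS y hy
      rw [Finset.mem_insert] at hS
      have e : h * x T * y * (h * x T)⁻¹ = h * (x T * y * (x T)⁻¹) * h⁻¹ := by group
      rw [e]
      by_cases hST : S = T
      · subst hST
        have h4 : x S * y * (x S)⁻¹ ∈ S.1 :=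
          S.1.mul_mem (S.1.mul_mem (hx S) hy) (S.1.inv_mem (hx S))
        exact h2 S hT _ h4
      · rw [key S hST y hy]
        exact h1 S (hS.resolve_left hST) y hy
    · intro S hS y hy
      rw [Finset.mem_insert, not_or] at hS
      have e : h * x T * y * (h * x T)⁻¹ = h * (x T * y * (x T)⁻¹) * h⁻¹ := by group
      rw [e, key S hS.1 y hy]
      exact h2 S hS.2 y hy

/-- elements of a nonabelian simple group realising the three colours -/
theorem exists_elt52 {S : Subgroup H} [Finite S] (hS : IsSimpleGroup S)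
    (hna : ∃ x ∈ S, ∃ y ∈ S, x * y ≠ y * x) (i : Fin 3) :
    ∃ x ∈ S, ((∀ y ∈ S, x * y = y * x) ↔ i = 0) ∧
      (i ≠ 0 → ((∀ y ∈ S, x ^ (Nat.card S).minFac * y = y * x ^ (Nat.card S).minFac) ↔ i = 1)) := by
  classical
  -- trivial centre
  have hcen : Subgroup.center S = ⊥ := by
    rcases hS.eq_bot_or_eq_top_of_normal (Subgroup.center S) inferInstance with h | h
    · exact h
    · exfalso
      obtain ⟨x, hx, y, hy, hxy⟩ := hna
      have h1 : (⟨x, hx⟩ : S) ∈ Subgroup.center S := by rw [h]; trivial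
      have h2 := Subgroup.mem_center_iff.1 h1 ⟨y, hy⟩
      exact hxy (congrArg Subtype.val h2).symm
  have hone : ∀ x ∈ S, (∀ y ∈ S, x * y = y * x) → x = 1 := by
    intro x hx h
    have h1 : (⟨x, hx⟩ : S) ∈ Subgroup.center S := by
      rw [Subgroup.mem_center_iff]
      intro y
      exact Subtype.ext (h y.1 y.2).symm
    rw [hcen, Subgroup.mem_bot] at h1
    exact congrArg Subtype.val h1
  have hcard : Nat.card S ≠ 1 := by
    intro h
    have := hS.toNontrivial
    rw [Nat.card_eq_one_iff_unique] at h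
    exact not_subsingleton S h.1
  have hp : (Nat.card S).minFac.Prime := Nat.minFac_prime hcard
  haveI := Fact.mk hp
  fin_cases i
  · refine ⟨1, S.one_mem, ?_, ?_⟩
    · simp
    · intro h
      exact absurd rfl h
  · obtain ⟨x, hx⟩ := exists_prime_orderOf_dvd_card' (G := S) (Nat.card S).minFac
      (Nat.minFac_dvd _)
    refine ⟨x.1, x.2, ?_, ?_⟩
    · constructor
      · intro h
        exfalso
        have h1 : x = 1 := Subtype.ext (hone x.1 x.2 h)
        rw [h1, orderOf_one] at hx
        exact hp.one_lt.ne hx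
      · intro h
        exact absurd h (by decide)
    · intro _
      constructor
      · intro _
        rfl
      · intro _ y hy
        have h1 : x ^ (Nat.card S).minFac = 1 := by
          rw [← hx]
          exact pow_orderOf_eq_one x
        have h2 : (x : H) ^ (Nat.card S).minFac = 1 := by
          have := congrArg Subtype.val h1
          simpa using this
        rw [h2, one_mul, mul_one]
  · -- another prime
    have hnot : ¬ IsPGroup (Nat.card S).minFac S := by
      intro hpg
      haveI := hS.toNontrivial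
      haveI := hpg.center_nontrivial
      rw [hcen] at this
      exact (not_nontrivial (⊥ : Subgroup S)) this
    obtain ⟨q, hq, hqd, hqp⟩ : ∃ q, q.Prime ∧ q ∣ Nat.card S ∧ q ≠ (Nat.card S).minFac := by
      by_contra hcon
      push Not at hcon
      apply hnot
      rw [IsPGroup.iff_card]
      have h0 : Nat.card S ≠ 0 := Nat.card_pos.ne'
      exact ⟨_, Nat.eq_prime_pow_of_unique_prime_dvd h0 (fun {d} hd hdv => hcon d hd hdv)⟩
    haveI := Fact.mk hq
    obtain ⟨x, hx⟩ := exists_prime_orderOf_dvd_card' (G := S) q hqd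
    have hx1 : x ≠ 1 := by
      rintro rfl
      rw [orderOf_one] at hx
      exact hq.one_lt.ne hx
    refine ⟨x.1, x.2, ?_, ?_⟩
    · constructor
      · intro h
        exact absurd (Subtype.ext (hone x.1 x.2 h)) hx1
      · intro h
        exact absurd h (by decide)
    · intro _
      constructor
      · intro h
        exfalso
        have h1 : (x : H) ^ (Nat.card S).minFac = 1 := hone _ (S.pow_mem x.2 _) h
        have h2 : x ^ (Nat.card S).minFac = 1 := by
          apply Subtype.ext
          simpa using h1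
        have h3 := orderOf_dvd_of_pow_eq_one h2
        rw [hx] at h3
        exact hqp ((Nat.prime_dvd_prime_iff_eq hq hp).1 h3)
      · intro h
        exact absurd h (by decide)

theorem conj_cent52 {h x y : H} (e : h * y * h⁻¹ = x * y * x⁻¹) : h * y = y * h ↔ x * y = y * x := by
  constructor
  · intro h1
    have h2 : x * y * x⁻¹ = y := by rw [← e, h1, mul_assoc, mul_inv_cancel, mul_one]
    exact mul_inv_eq_iff_eq_mul.1 h2
  · intro h1
    have h2 : h * y * h⁻¹ = y := by rw [e, h1, mul_assoc, mul_inv_cancel, mul_one]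
    exact mul_inv_eq_iff_eq_mul.1 h2

theorem conj_pow52 {S : Subgroup H} {h x : H} (hx : x ∈ S)
    (e : ∀ y ∈ S, h * y * h⁻¹ = x * y * x⁻¹) (n : ℕ) :
    ∀ y ∈ S, h ^ n * y * (h ^ n)⁻¹ = x ^ n * y * (x ^ n)⁻¹ := by
  induction n with
  | zero => intro y _; simp
  | succ n ih =>
    intro y hy
    have h1 : h ^ (n + 1) * y * (h ^ (n + 1))⁻¹ = h * (h ^ n * y * (h ^ n)⁻¹) * h⁻¹ := by
      rw [pow_succ']; group
    have h2 : x ^ (n + 1) * y * (x ^ (n + 1))⁻¹ = x * (x ^ n * y * (x ^ n)⁻¹) * x⁻¹ := by
      rw [pow_succ']; group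
    rw [h1, h2, ih y hy]
    exact e _ (S.mul_mem (S.mul_mem (S.pow_mem hx n) hy) (S.inv_mem (S.pow_mem hx n)))

/-- all colourings occur -/
theorem colr_surj52 [Finite H] (hs : ∀ S ∈ Fac H, IsSimpleGroup S ∧ (∃ x ∈ S, ∃ y ∈ S, x * y ≠ y * x))
    (hc : ∀ S ∈ Fac H, ∀ T ∈ Fac H, S ≠ T → ∀ x ∈ S, ∀ y ∈ T, x * y = y * x)
    (f : Fac H → Fin 3) : ∃ h : H, ∀ S : Fac H, colr52 h S.1 = f S := by
  classical
  choose x hx h1 h2 using fun S : Fac H => exists_elt52 (hs S.1 S.2).1 (hs S.1 S.2).2 (f S)
  haveI : Fintype (Fac H) := Fintype.ofFinite _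
  obtain ⟨h, h3, -⟩ := exists_act52 hc x hx Finset.univ
  refine ⟨h, fun S => ?_⟩
  have e := h3 S (Finset.mem_univ _)
  have e0 : (∀ y ∈ S.1, h * y = y * h) ↔ f S = 0 := by
    rw [← h1 S]
    exact forall₂_congr fun y hy => conj_cent52 (e y hy)
  have e1 : f S ≠ 0 → ((∀ y ∈ S.1, h ^ (Nat.card S.1).minFac * y = y * h ^ (Nat.card S.1).minFac) ↔
      f S = 1) := by
    intro h0
    rw [← h2 S h0]
    exact forall₂_congr fun y hy => conj_cent52 (conj_pow52 (hx S) e _ y hy)
  unfold colr52
  by_cases h0 : f S = 0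
  · rw [if_pos (e0.2 h0), h0]
  · rw [if_neg (fun h => h0 (e0.1 h))]
    by_cases h4 : f S = 1
    · rw [if_pos ((e1 h0).2 h4), h4]
    · rw [if_neg (fun h => h4 ((e1 h0).1 h))]
      generalize f S = i at h0 h4
      fin_cases i
      · exact absurd rfl h0
      · exact absurd rfl h4
      · rfl

theorem exists_D52 [Finite H]
    (hs : ∀ S ∈ Fac H, IsSimpleGroup S ∧ (∃ x ∈ S, ∃ y ∈ S, x * y ≠ y * x))
    (hc : ∀ S ∈ Fac H, ∀ T ∈ Fac H, S ≠ T → ∀ x ∈ S, ∀ y ∈ T, x * y = y * x)
    (hm : ∀ (φ : H ≃* H), ∀ S ∈ Fac H, S.map φ.toMonoidHom ∈ Fac H) :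
    ∃ (a : ℕ) (D : Fin a → Subgroup (MulAut H)), UU D = KK H ∧
      ∏ i, orbC (MulAut H) (MulAut H ⧸ D i) 3 ≤ om H := by
  classical
  letI := facAct52 hm
  obtain ⟨a, ω, hω, hprod⟩ := orbC_split (Γ := MulAut H) (Ω := Fac H)
  refine ⟨a, fun i => MulAction.stabilizer (MulAut H) (ω i), ?_, hprod.trans ?_⟩
  · ext h
    have e1 : h ∈ UU (fun i => MulAction.stabilizer (MulAut H) (ω i)) ↔
        ∀ i, ∀ x : MulAut H, x⁻¹ * MulAut.conj h * x ∈ MulAction.stabilizer (MulAut H) (ω i) := by
      unfold UU
      rw [Subgroup.mem_comap, Subgroup.mem_iInf]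
      refine forall_congr' fun i => ?_
      constructor
      · intro h1 x
        have h2 := h1 x⁻¹
        rwa [inv_inv] at h2
      · intro h1 x
        have h2 := h1 x⁻¹
        rwa [inv_inv] at h2
    rw [e1]
    have e2 : ∀ S : Fac H, (MulAut.conj h • S = S ↔ h ∈ Subgroup.normalizer (S.1 : Set H)) := by
      intro S
      rw [Subtype.ext_iff]
      show S.1.map (MulEquiv.toMonoidHom (MulAut.conj h)) = S.1 ↔ _
      rw [Subgroup.mem_normalizer_iff]
      constructor
      · intro h1 y
        constructor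
        · intro hy
          rw [← h1]
          exact ⟨y, hy, rfl⟩
        · intro hy
          rw [← h1] at hy
          obtain ⟨z, hz, hzy⟩ := hy
          have : h * z * h⁻¹ = h * y * h⁻¹ := hzy
          have h2 : z = y := by
            simpa using this
          exact h2 ▸ hz
      · intro h1
        ext y
        constructor
        · rintro ⟨z, hz, rfl⟩
          exact (h1 z).1 hz
        · intro hy
          refine ⟨h⁻¹ * y * h, ?_, ?_⟩
          · have h2 := (h1 (h⁻¹ * y * h)).2
            apply h2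
            have : h * (h⁻¹ * y * h) * h⁻¹ = y := by group
            rw [this]
            exact hy
          · show h * (h⁻¹ * y * h) * h⁻¹ = y
            group
    unfold KK
    simp only [Subgroup.mem_iInf]
    constructor
    · intro h1 S hS
      obtain ⟨i, g, hg⟩ := hω ⟨S, hS⟩
      have h2 := h1 i g
      rw [MulAction.mem_stabilizer_iff, mul_smul, mul_smul, hg, inv_smul_eq_iff, hg] at h2
      exact (e2 ⟨S, hS⟩).1 h2
    · intro h1 i x
      rw [MulAction.mem_stabilizer_iff, mul_smul, mul_smul, inv_smul_eq_iff]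
      exact (e2 (x • ω i)).2 (h1 _ (x • ω i).2)
  · -- the map from orbits to classes of colourings
    unfold orbC om
    let F : MulAction.orbitRel.Quotient (MulAut H) H → Quotient (colS (MulAut H) (Fac H) 3) :=
      Quotient.lift (fun h : H => (Quotient.mk _ fun S : Fac H => colr52 h S.1)) (by
        rintro h h' hh
        obtain ⟨g, hg⟩ := hh
        have hg' : g h' = h := hg
        refine Quotient.sound ?_
        refine ⟨g⁻¹, fun S => ?_⟩
        have h3 := colr_map52 g⁻¹ h S.1
        have h4 : (g⁻¹ : MulAut H) h = h' := by rw [← hg']; simp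
        rw [h4] at h3
        exact h3)
    have hF : Function.Surjective F := by
      intro q
      induction q using Quotient.inductionOn with
      | h f =>
        obtain ⟨h, hh⟩ := colr_surj52 hs hc f
        refine ⟨Quotient.mk'' h, ?_⟩
        show (Quotient.mk _ fun S : Fac H => colr52 h S.1) = Quotient.mk _ f
        congr 1
        funext S
        exact hh S
    have : Finite (MulAction.orbitRel.Quotient (MulAut H) H) := Quotient.finite _
    exact Nat.card_le_card_of_surjective F hF

end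

end SR32
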