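import Pool.Agent.SR32.PMinS3
import Pool.Agent.PR12.Main

/-!
# SR32/PMFinal: the bound with a condition on the simple factors only
-/

set_option autoImplicit false

namespace SR32

universe u

open Filter

theorem facX_mono {η : ℕ → ℕ} {t t' : ℕ} (h : t ≤ t') {H : Type u} [Group H]
    (hf : FacX η t H) : FacX η t' H := by
  intro S hS
  rcases hf S hS with h1 | h1 | h1
  · exact Or.inl (h1.trans h)
  · exact Or.inr (Or.inl h1)
  · exact Or.inr (Or.inr h1)

theorem finalM (t : ℕ) (η : ℕ → ℕ) (hη : Tendsto η atTop atTop) : ∃ f : ℝ → ℝ → ℝ,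
    (∀ x y, 1 ≤ x → 1 ≤ y → 1 ≤ f x y) ∧ (∀ y, StrictMono (fun x => f x y)) ∧
    (∀ x, StrictMono (fun y => f x y)) ∧
    ∀ (G : Type u) [Group G] [Finite G] [Nontrivial G],
      FacX η t (G ⧸ Rad G) → ((Rad G).index : ℝ) ≤ f (ll G) (oo (Rad G)) := by
  obtain ⟨t0, ht0⟩ := PR12.primSmall_all.{u}
  obtain ⟨f, h1, h2, h3, h4⟩ := finalP'.{u} (max t t0) η hη
  refine ⟨f, h1, h2, h3, fun G _ _ _ hf => h4 G (facX_mono (le_max_left _ _) hf) ?_⟩
  have hfin : Finite (MulAut (G ⧸ Rad G)) :=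
    Finite.of_injective (fun φ : MulAut (G ⧸ Rad G) => (φ : G ⧸ Rad G → G ⧸ Rad G))
      DFunLike.coe_injective
  exact primSmall_mono (le_max_right _ _) (ht0 (MulAut (G ⧸ Rad G)))

end SR32
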