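import Pool.Agent.SR32.PNumS89

/-!
# SR32/PNum: exponents and divisors
-/

namespace SR32

universe u

/-- orders of permutations of `n` points divide `LL n`; `g` acts on the `Λ.index` cosets of `Λ` -/
theorem pow_LL_mem {Γ : Type u} [Group Γ] [Finite Γ] (Λ : Subgroup Γ) (g x : Γ) :
    x⁻¹ * g ^ LL Λ.index * x ∈ Λ :=
  PNumS89.pow_LL_mem Λ g x

theorem LL_pos (n : ℕ) : 0 < LL n :=
  PNumS89.LL_pos n

theorem LL_dvd {m n : ℕ} (h : m ≤ n) : LL m ∣ LL n :=
  PNumS89.LL_dvd h

/-- a divisor of `LL n` is determined by its exact prime power divisors (`ordS`, Orders.lean), which are at most `n` -/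
theorem card_div_LL (n : ℕ) : (LL n).divisors.card ≤ 2 ^ (PP n).card :=
  PNumS89.card_div_LL n

/-- from `card_div_LL`, `pp_density` -/
theorem card_div_LL_exp (δ : ℝ) (hδ : 0 < δ) : ∃ C : ℝ, 0 ≤ C ∧ ∀ n : ℕ,
    ((LL n).divisors.card : ℝ) ≤ Real.exp (C + δ * n) :=
  PNumS89.card_div_LL_exp δ hδ

/-- `Nat.divisors_mul` -/
theorem card_div_mul (m n : ℕ) : (m * n).divisors.card ≤ m.divisors.card * n.divisors.card :=
  PNumS89.card_div_mul m n

/-- if the `E`-th power of every element is trivial, the number of orders is at most the number of divisors of `E` -/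
theorem oo_le_div {G : Type u} [Group G] [Finite G] (E : ℕ) (hE : 0 < E) (h : ∀ g : G, g ^ E = 1) :
    oo G ≤ E.divisors.card :=
  PNumS89.oo_le_div E hE h

end SR32
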