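import Pool.Agent.SR32.DefsP
import Pool.Agent.SR32.Density

/-!
# SR32/PNum: exponents and divisors (helper89)
-/

namespace SR32.PNumS89

universe u

theorem period_le {Γ X : Type*} [Group Γ] [MulAction Γ X] [Finite X] (g : Γ) (x : X) :
    0 < MulAction.period g x ∧ MulAction.period g x ≤ Nat.card X := by
  have hfin : Finite (MulAction.orbit (Subgroup.zpowers g) x) := inferInstance
  have h1 : MulAction.period g x = Nat.card (MulAction.orbit (Subgroup.zpowers g) x) := by
    cases nonempty_fintype (MulAction.orbit (Subgroup.zpowers g) x)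
    rw [Nat.card_eq_fintype_card]
    exact MulAction.minimalPeriod_eq_card (a := g) (b := x)
  have hne : Nonempty (MulAction.orbit (Subgroup.zpowers g) x) :=
    ⟨⟨x, MulAction.mem_orbit_self x⟩⟩
  rw [h1]
  exact ⟨Nat.card_pos, Finite.card_subtype_le _⟩

theorem LL_zero : LL 0 = 1 := by
  simp [LL]

theorem LL_succ (n : ℕ) : LL (n + 1) = Nat.lcm (n + 1) (LL n) := by
  unfold LL
  have h : Finset.Icc 1 (n + 1) = insert (n + 1) (Finset.Icc 1 n) := by
    ext x
    simp only [Finset.mem_Icc, Finset.mem_insert]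
    omega
  rw [h, Finset.lcm_insert]
  rfl

theorem LL_pos (n : ℕ) : 0 < LL n := by
  induction n with
  | zero => rw [LL_zero]; exact one_pos
  | succ n ih =>
    rw [LL_succ]
    exact Nat.lcm_pos (Nat.succ_pos n) ih

theorem LL_dvd {m n : ℕ} (h : m ≤ n) : LL m ∣ LL n := by
  induction n, h using Nat.le_induction with
  | base => exact dvd_rfl
  | succ n _ ih =>
    rw [LL_succ]
    exact ih.trans (Nat.dvd_lcm_right _ _)

theorem dvd_LL {m n : ℕ} (h0 : 1 ≤ m) (h : m ≤ n) : m ∣ LL n :=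
  Finset.dvd_lcm (f := id) (Finset.mem_Icc.2 ⟨h0, h⟩)

theorem pow_LL_mem {Γ : Type u} [Group Γ] [Finite Γ] (Λ : Subgroup Γ) (g x : Γ) :
    x⁻¹ * g ^ LL Λ.index * x ∈ Λ := by
  obtain ⟨h0, h1⟩ := period_le g (x : Γ ⧸ Λ)
  have h2 : MulAction.period g (x : Γ ⧸ Λ) ∣ LL Λ.index := dvd_LL h0 h1
  have h3 : g ^ LL Λ.index • (x : Γ ⧸ Λ) = x := MulAction.pow_smul_eq_iff_period_dvd.2 h2
  have h4 : ((x : Γ) : Γ ⧸ Λ) = ((g ^ LL Λ.index * x : Γ) : Γ ⧸ Λ) := h3.symm
  rw [QuotientGroup.eq, ← mul_assoc] at h4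
  exact h4

theorem pp_le {n p k : ℕ} (hp : p.Prime) (h : p ^ k ∣ LL n) : p ^ k ≤ max n 1 := by
  induction n with
  | zero =>
    rw [LL_zero, Nat.dvd_one] at h
    rw [h]
    exact le_max_right _ _
  | succ n ih =>
    rw [LL_succ] at h
    have h1 : p ^ k ∣ n + 1 ∨ p ^ k ∣ LL n := by
      have hl := (Nat.lcm_pos (Nat.succ_pos n) (LL_pos n)).ne'
      rw [hp.pow_dvd_iff_le_factorization hl, Nat.factorization_lcm (Nat.succ_pos n).ne'
        (LL_pos n).ne', Finsupp.sup_apply, le_sup_iff] at h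
      rw [hp.pow_dvd_iff_le_factorization (Nat.succ_pos n).ne',
        hp.pow_dvd_iff_le_factorization (LL_pos n).ne']
      exact h
    rcases h1 with h1 | h1
    · exact (Nat.le_of_dvd (Nat.succ_pos n) h1).trans (le_max_left _ _)
    · exact (ih h1).trans (max_le_max_right 1 (Nat.le_succ n))

theorem card_div_LL (n : ℕ) : (LL n).divisors.card ≤ 2 ^ (PP n).card := by
  classical
  rw [← Finset.card_powerset]
  refine Finset.card_le_card_of_injOn (fun d => (PP n).filter (fun q => q ∣ d)) ?_ ?_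
  · intro d _
    exact Finset.mem_coe.2 (Finset.mem_powerset.2 (Finset.filter_subset _ _))
  · have key : ∀ d ∈ (LL n).divisors, ∀ d' ∈ (LL n).divisors,
        (PP n).filter (fun q => q ∣ d) = (PP n).filter (fun q => q ∣ d') → d ∣ d' := by
      intro d hd d' hd' h
      rw [Nat.dvd_iff_prime_pow_dvd_dvd]
      intro p k hp hk
      rcases Nat.eq_zero_or_pos k with hk0 | hk0
      · rw [hk0, pow_zero]
        exact one_dvd _
      have h1 : p ^ k ≤ n := by
        have h2 := pp_le hp (hk.trans (Nat.dvd_of_mem_divisors hd))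
        have h3 : 1 < p ^ k := Nat.one_lt_pow hk0.ne' hp.one_lt
        omega
      have h2 : p ^ k ∈ (PP n).filter (fun q => q ∣ d) :=
        Finset.mem_filter.2 ⟨mem_PP.2 ⟨h1, hp.isPrimePow.pow hk0.ne'⟩, hk⟩
      rw [h] at h2
      exact (Finset.mem_filter.1 h2).2
    intro d hd d' hd' h
    exact Nat.dvd_antisymm (key d (Finset.mem_coe.1 hd) d' (Finset.mem_coe.1 hd') h)
      (key d' (Finset.mem_coe.1 hd') d (Finset.mem_coe.1 hd) h.symm)

theorem card_div_LL_exp (δ : ℝ) (hδ : 0 < δ) : ∃ C : ℝ, 0 ≤ C ∧ ∀ n : ℕ,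
    ((LL n).divisors.card : ℝ) ≤ Real.exp (C + δ * n) := by
  have hl : 0 < Real.log 2 := Real.log_pos (by norm_num)
  obtain ⟨C, hC⟩ := pp_density (δ / Real.log 2) (by positivity)
  refine ⟨max (Real.log 2 * C) 0, le_max_right _ _, fun n => ?_⟩
  have h1 : ((LL n).divisors.card : ℝ) ≤ (2 : ℝ) ^ (PP n).card := by
    exact_mod_cast card_div_LL n
  refine h1.trans ?_
  have h2 : (2 : ℝ) ^ (PP n).card = Real.exp (Real.log 2 * (PP n).card) := by
    rw [mul_comm, Real.exp_nat_mul, Real.exp_log (by norm_num)]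
  rw [h2]
  refine Real.exp_le_exp.2 ?_
  have h3 := mul_le_mul_of_nonneg_left (hC n) hl.le
  have h4 : Real.log 2 * (C + δ / Real.log 2 * n) = Real.log 2 * C + δ * n := by
    field_simp
  rw [h4] at h3
  have h5 := le_max_left (Real.log 2 * C) 0
  linarith

theorem card_div_mul (m n : ℕ) : (m * n).divisors.card ≤ m.divisors.card * n.divisors.card := by
  rw [Nat.divisors_mul]
  exact Finset.card_mul_le

theorem oo_le_div {G : Type u} [Group G] [Finite G] (E : ℕ) (hE : 0 < E)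
    (h : ∀ g : G, g ^ E = 1) : oo G ≤ E.divisors.card := by
  unfold oo
  rw [← Set.ncard_coe_finset]
  refine Set.ncard_le_ncard ?_ (Finset.finite_toSet _)
  rintro _ ⟨x, rfl⟩
  rw [Finset.mem_coe, Nat.mem_divisors]
  exact ⟨orderOf_dvd_of_pow_eq_one (h x), hE.ne'⟩

end SR32.PNumS89
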