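import Pool.Agent.SR32.DefsP

/-!
# SR32/PSecS52: the section between `UU I` and `UU O`
-/

set_option autoImplicit false

namespace SR32

universe u

theorem mem_UU52 {H : Type u} [Group H] {a : ℕ} {D : Fin a → Subgroup (MulAut H)} {h : H} :
    h ∈ UU D ↔ ∀ i, ∀ x : MulAut H, x⁻¹ * MulAut.conj h * x ∈ D i := by
  unfold UU
  rw [Subgroup.mem_comap, Subgroup.mem_iInf]
  refine forall_congr' fun i => ?_
  constructor
  · intro h1 x
    have h2 := h1 x⁻¹
    rwa [inv_inv] at h2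
  · intro h1 x
    have h2 := h1 x⁻¹
    rwa [inv_inv] at h2

theorem conj_app52 {H : Type u} [Group H] (φ : MulAut H) (h : H) :
    MulAut.conj (φ h) = φ * MulAut.conj h * φ⁻¹ := by
  ext y
  simp [MulAut.conj_apply, MulAut.mul_apply]

theorem UU_map52 {H : Type u} [Group H] {a : ℕ} {D : Fin a → Subgroup (MulAut H)} {h : H}
    (φ : MulAut H) (hh : h ∈ UU D) : φ h ∈ UU D := by
  rw [mem_UU52] at hh ⊢
  intro i x
  have h1 := hh i (φ⁻¹ * x)
  rw [conj_app52]
  have e : x⁻¹ * (φ * MulAut.conj h * φ⁻¹) * x = (φ⁻¹ * x)⁻¹ * MulAut.conj h * (φ⁻¹ * x) := by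
    group
  rw [e]
  exact h1

theorem sect_alt52 (halt : ∀ {X : Type u} [Group X] [Finite X] (M : Subgroup X), IsMinNormal M →
    ∀ {b : ℕ}, 5 ≤ b → ∀ (θ : X →* Equiv.Perm (Fin b)), (∃ m ∈ M, θ m ≠ 1) →
    ∀ (R : Subgroup (Equiv.Perm (Fin b))), b.factorial ≤ 2 * Nat.card R →
    (∀ r ∈ R, ∀ x : X, ∃ y : X, r * θ x * r⁻¹ = θ y) → Nonempty (M ≃* A b))
    {H : Type u} [Group H] [Finite H] {a : ℕ} (I O : Fin a → Subgroup (MulAut H))
    (hA : ∀ i, AltLayer (I i) (O i))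
    (N : Subgroup (UU O)) [N.Normal] (hN : N = (UU I).subgroupOf (UU O))
    (M : Subgroup (UU O ⧸ N)) (hM : IsMinNormal M) : ∃ d : ℕ, 5 ≤ d ∧ Nonempty (M ≃* A d) := by
  classical
  obtain ⟨m, hm, hm1⟩ : ∃ m ∈ M, m ≠ 1 := by
    by_contra hcon
    push Not at hcon
    exact hM.2.1 ((Subgroup.eq_bot_iff_forall _).2 hcon)
  obtain ⟨h, rfl⟩ := QuotientGroup.mk_surjective m
  have hn : h ∉ N := fun h1 => hm1 ((QuotientGroup.eq_one_iff h).2 h1)
  have hn2 : (h : H) ∉ UU I := by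
    intro h1
    apply hn
    rw [hN, Subgroup.mem_subgroupOf]
    exact h1
  rw [mem_UU52] at hn2
  push Not at hn2
  obtain ⟨i, x, hix⟩ := hn2
  have hmemO : ∀ k : UU O, x⁻¹ * MulAut.conj (k : H) * x ∈ O i := fun k => mem_UU52.1 k.2 i x
  -- the homomorphism to `O i`
  let ψ : UU O →* O i :=
    { toFun := fun k => ⟨x⁻¹ * MulAut.conj (k : H) * x, hmemO k⟩
      map_one' := by
        apply Subtype.ext
        simp
      map_mul' := fun k l => by
        apply Subtype.ext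
        show x⁻¹ * MulAut.conj ((k : H) * l) * x =
          (x⁻¹ * MulAut.conj (k : H) * x) * (x⁻¹ * MulAut.conj (l : H) * x)
        rw [map_mul]
        group }
  set J : Subgroup (O i) := (I i).subgroupOf (O i) with hJ
  rcases hA i with hIO | ⟨hb, hfac⟩
  · exact absurd (hIO ▸ hmemO h) hix
  obtain ⟨b, hbb⟩ : ∃ b, b = J.index := ⟨_, rfl⟩
  rw [← hJ] at hb hfac
  let e : (O i ⧸ J) ≃ Fin b := Finite.equivFinOfCardEq (by rw [hbb]; rfl)
  let pe : Equiv.Perm (O i ⧸ J) ≃* Equiv.Perm (Fin b) := e.permCongrHom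
  let τ : O i →* Equiv.Perm (Fin b) := pe.toMonoidHom.comp (MulAction.toPermHom (O i) (O i ⧸ J))
  have hτker : ∀ o : O i, τ o = 1 ↔ o ∈ J.normalCore := by
    intro o
    rw [Subgroup.normalCore_eq_ker, MonoidHom.mem_ker]
    show pe (MulAction.toPermHom (O i) (O i ⧸ J) o) = 1 ↔ _
    exact MulEquiv.map_eq_one_iff pe
  let θ₀ : UU O →* Equiv.Perm (Fin b) := τ.comp ψ
  have hker : N ≤ θ₀.ker := by
    intro k hk
    rw [MonoidHom.mem_ker]
    show τ (ψ k) = 1
    rw [hτker]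
    intro o
    rw [hJ, Subgroup.mem_subgroupOf]
    rw [hN, Subgroup.mem_subgroupOf, mem_UU52] at hk
    have h1 := hk i (x * (o : MulAut H)⁻¹)
    have e1 : (x * (o : MulAut H)⁻¹)⁻¹ * MulAut.conj ((k : UU O) : H) * (x * (o : MulAut H)⁻¹) =
        (o : MulAut H) * (x⁻¹ * MulAut.conj ((k : UU O) : H) * x) * (o : MulAut H)⁻¹ := by
      group
    rw [e1] at h1
    exact h1
  let θ : UU O ⧸ N →* Equiv.Perm (Fin b) := QuotientGroup.lift N θ₀ hker
  have hθ : ∀ k : UU O, θ (QuotientGroup.mk k) = τ (ψ k) := fun k => rfl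
  have hbig : (b.factorial) ≤ 2 * Nat.card τ.range := by
    have h1 : Nat.card τ.range = J.normalCore.index := by
      have h2 : τ.ker = J.normalCore := by
        ext o
        rw [MonoidHom.mem_ker]
        exact hτker o
      rw [← h2]
      exact (Subgroup.index_ker τ).symm
    rw [h1, hbb]
    exact hfac
  refine ⟨b, hbb ▸ hb, halt M hM (hbb ▸ hb) θ ⟨_, hm, ?_⟩ τ.range hbig ?_⟩
  · rw [hθ]
    intro h1
    rw [hτker] at h1
    have h2 := Subgroup.normalCore_le _ h1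
    rw [hJ, Subgroup.mem_subgroupOf] at h2
    exact hix h2
  · rintro _ ⟨o, rfl⟩ q
    obtain ⟨k, rfl⟩ := QuotientGroup.mk_surjective q
    refine ⟨QuotientGroup.mk ⟨(x * (o : MulAut H) * x⁻¹) (k : H), UU_map52 _ k.2⟩, ?_⟩
    rw [hθ, hθ, ← map_mul, ← map_inv, ← map_mul]
    congr 1
    apply Subtype.ext
    show (o : MulAut H) * (x⁻¹ * MulAut.conj (k : H) * x) * (o : MulAut H)⁻¹ =
      x⁻¹ * MulAut.conj ((x * (o : MulAut H) * x⁻¹) (k : H)) * x
    rw [conj_app52]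
    group

end SR32
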