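import Pool.Agent.SR32.Defs

/-!
# SR32/PSecS60: a minimal normal subgroup with nontrivial image in a group between `A b` and `Sym b`
-/

namespace SR32.S60

open SR32

universe u

/-- a nontrivial subgroup normalized by the alternating group contains it -/
theorem alt_le {b : ℕ} (hb : 5 ≤ b) (K : Subgroup (Equiv.Perm (Fin b)))
    (hn : ∀ a ∈ alternatingGroup (Fin b), ∀ k ∈ K, a * k * a⁻¹ ∈ K)
    (hK : ∃ k ∈ K, k ≠ 1) : alternatingGroup (Fin b) ≤ K := by
  have hcard : 5 ≤ Nat.card (Fin b) := by
    rw [Nat.card_eq_fintype_card, Fintype.card_fin]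
    exact hb
  have hnorm : (K.subgroupOf (alternatingGroup (Fin b))).Normal := by
    constructor
    intro x hx g
    rw [Subgroup.mem_subgroupOf] at hx ⊢
    exact hn g g.2 x hx
  rcases alternatingGroup.normal_subgroup_eq_bot_or_eq_top hcard
    (N := K.subgroupOf (alternatingGroup (Fin b))) with h | h
  · exfalso
    obtain ⟨k, hk, hk1⟩ := hK
    have hcen : ∀ a ∈ alternatingGroup (Fin b), a * k = k * a := by
      intro a ha
      have h1 : a * k * a⁻¹ * k⁻¹ ∈ K := K.mul_mem (hn a ha k hk) (K.inv_mem hk)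
      have h2 : a * k * a⁻¹ * k⁻¹ ∈ alternatingGroup (Fin b) := by
        have h3 : k * a⁻¹ * k⁻¹ ∈ alternatingGroup (Fin b) :=
          (inferInstance : (alternatingGroup (Fin b)).Normal).conj_mem _
            ((alternatingGroup (Fin b)).inv_mem ha) k
        have h4 := (alternatingGroup (Fin b)).mul_mem ha h3
        have h5 : a * (k * a⁻¹ * k⁻¹) = a * k * a⁻¹ * k⁻¹ := by group
        rwa [h5] at h4
      have h3 : (⟨_, h2⟩ : alternatingGroup (Fin b)) ∈
          K.subgroupOf (alternatingGroup (Fin b)) := by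
        rw [Subgroup.mem_subgroupOf]
        exact h1
      rw [h, Subgroup.mem_bot] at h3
      have h4 : a * k * a⁻¹ * k⁻¹ = 1 := congrArg Subtype.val h3
      have h5 : a * k = (a * k * a⁻¹ * k⁻¹) * k * a := by group
      rw [h5, h4, one_mul]
    have hCn : (Subgroup.centralizer
        (alternatingGroup (Fin b) : Set (Equiv.Perm (Fin b)))).Normal :=
      inferInstance
    have hkC : k ∈ Subgroup.centralizer
        (alternatingGroup (Fin b) : Set (Equiv.Perm (Fin b))) := by
      rw [Subgroup.mem_centralizer_iff]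
      exact hcen
    have hCnt : Nontrivial (Subgroup.centralizer
        (alternatingGroup (Fin b) : Set (Equiv.Perm (Fin b)))) :=
      ⟨⟨⟨k, hkC⟩, 1, fun h6 => hk1 (congrArg Subtype.val h6)⟩⟩
    have hle := Equiv.Perm.alternatingGroup_le_of_normal hcard hCnt
    have hcb : Subgroup.center (alternatingGroup (Fin b)) = ⊥ :=
      alternatingGroup.center_eq_bot (by omega)
    have hnt : Nontrivial (alternatingGroup (Fin b)) :=
      alternatingGroup.nontrivial_of_three_le_card (by omega)
    obtain ⟨x, hx⟩ := exists_ne (1 : alternatingGroup (Fin b))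
    have hxc : x ∈ Subgroup.center (alternatingGroup (Fin b)) := by
      rw [Subgroup.mem_center_iff]
      intro y
      have h6 := hle x.2
      rw [Subgroup.mem_centralizer_iff] at h6
      exact Subtype.ext (h6 y.1 y.2)
    rw [hcb, Subgroup.mem_bot] at hxc
    exact hx hxc
  · intro a ha
    have h1 : (⟨a, ha⟩ : alternatingGroup (Fin b)) ∈ K.subgroupOf (alternatingGroup (Fin b)) := by
      rw [h]
      exact Subgroup.mem_top _
    exact h1

theorem alt_of_normal {X : Type u} [Group X] [Finite X] (M : Subgroup X) (hM : IsMinNormal M)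
    {b : ℕ} (hb : 5 ≤ b) (θ : X →* Equiv.Perm (Fin b)) (hθ : ∃ m ∈ M, θ m ≠ 1)
    (R : Subgroup (Equiv.Perm (Fin b))) (hR : b.factorial ≤ 2 * Nat.card R)
    (hn : ∀ r ∈ R, ∀ x : X, ∃ y : X, r * θ x * r⁻¹ = θ y) : Nonempty (M ≃* A b) := by
  have hcard : 5 ≤ Nat.card (Fin b) := by
    rw [Nat.card_eq_fintype_card, Fintype.card_fin]
    exact hb
  have hMn : M.Normal := hM.1
  -- `R` contains the alternating group
  have hRA : alternatingGroup (Fin b) ≤ R := by
    apply Equiv.Perm.alternatingGroup_le_of_index_le_two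
    have h1 : Nat.card R * R.index = b.factorial := by
      rw [Subgroup.card_mul_index, Nat.card_eq_fintype_card, Fintype.card_perm, Fintype.card_fin]
    have h2 : 0 < Nat.card R := Nat.card_pos
    rw [← h1, mul_comm 2] at hR
    exact Nat.le_of_mul_le_mul_left hR h2
  obtain ⟨m0, hm0, hm01⟩ := hθ
  -- the range of `θ` contains the alternating group
  have hZ : alternatingGroup (Fin b) ≤ θ.range := by
    apply alt_le hb
    · rintro a ha _ ⟨x, rfl⟩
      obtain ⟨y, hy⟩ := hn a (hRA ha) x
      exact ⟨y, hy.symm⟩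
    · exact ⟨θ m0, ⟨m0, rfl⟩, hm01⟩
  -- the image of `M` contains the alternating group
  have hMA : alternatingGroup (Fin b) ≤ M.map θ := by
    apply alt_le hb
    · rintro a ha _ ⟨m, hm, rfl⟩
      obtain ⟨x, rfl⟩ := hZ ha
      refine ⟨x * m * x⁻¹, hMn.conj_mem m hm x, ?_⟩
      rw [map_mul, map_mul, map_inv]
    · exact ⟨θ m0, ⟨m0, hm0, rfl⟩, hm01⟩
  -- `θ M` lies in the alternating group
  have hin : ∀ m ∈ M, θ m ∈ alternatingGroup (Fin b) := by
    have hNn : (M ⊓ (alternatingGroup (Fin b)).comap θ).Normal := by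
      have h1 : ((alternatingGroup (Fin b)).comap θ).Normal :=
        (inferInstance : (alternatingGroup (Fin b)).Normal).comap θ
      exact Subgroup.normal_inf_normal _ _
    rcases hM.2.2 _ hNn inf_le_left with h | h
    · exfalso
      have hnt : Nontrivial (alternatingGroup (Fin b)) :=
        alternatingGroup.nontrivial_of_three_le_card (by omega)
      obtain ⟨a, ha⟩ := exists_ne (1 : alternatingGroup (Fin b))
      obtain ⟨m, hm, hma⟩ := hMA a.2
      have hm' : m ∈ M ⊓ (alternatingGroup (Fin b)).comap θ := by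
        refine ⟨hm, ?_⟩
        show θ m ∈ alternatingGroup (Fin b)
        rw [hma]
        exact a.2
      rw [h, Subgroup.mem_bot] at hm'
      rw [hm', map_one] at hma
      exact ha (Subtype.ext hma.symm)
    · intro m hm
      rw [← h] at hm
      exact hm.2
  -- `θ` is injective on `M`
  have hker : ∀ m ∈ M, θ m = 1 → m = 1 := by
    have hNn : (M ⊓ θ.ker).Normal := Subgroup.normal_inf_normal _ _
    rcases hM.2.2 _ hNn inf_le_left with h | h
    · intro m hm h1
      have hm' : m ∈ M ⊓ θ.ker := ⟨hm, h1⟩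
      rw [h, Subgroup.mem_bot] at hm'
      exact hm'
    · exfalso
      rw [← h] at hm0
      exact hm01 hm0.2
  let f : M →* A b := (θ.comp M.subtype).codRestrict (alternatingGroup (Fin b))
    (fun m => hin m m.2)
  have hf : ∀ m : M, ((f m : A b) : Equiv.Perm (Fin b)) = θ m := fun m => rfl
  refine ⟨MulEquiv.ofBijective f ⟨?_, ?_⟩⟩
  · rw [injective_iff_map_eq_one]
    intro m hm
    apply Subtype.ext
    apply hker m m.2
    rw [← hf m, hm]
    rfl
  · intro a
    obtain ⟨m, hm, hma⟩ := hMA a.2
    exact ⟨⟨m, hm⟩, Subtype.ext (by rw [hf]; exact hma)⟩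

end SR32.S60
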