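import Pool.Agent.SR32.PFac
import Pool.Agent.SR32.DefsQ

/-!
# SR32/QD: the subgroups of `exists_D` are stabilizers of simple factors (helper89)
-/

namespace SR32.QDS89

universe u

theorem exists_D_core {H : Type u} [Group H] [Finite H]
    (h1 : ∀ S ∈ Fac H, IsSimpleGroup S ∧ (∃ x ∈ S, ∃ y ∈ S, x * y ≠ y * x) ∧ S ≤ KK H)
    (h2 : ∀ S ∈ Fac H, ∀ T ∈ Fac H, S ≠ T → ∀ x ∈ S, ∀ y ∈ T, x * y = y * x)
    (h3 : ∀ (φ : H ≃* H), ∀ S ∈ Fac H, S.map φ.toMonoidHom ∈ Fac H) :
    ∃ (a : ℕ) (D : Fin a → Subgroup (MulAut H)), (∀ i, ∃ S ∈ Fac H, D i = Stab S) ∧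
      UU D = KK H ∧ ∏ i, orbC (MulAut H) (MulAut H ⧸ D i) 3 ≤ om H := by
  classical
  let _ : MulAction (MulAut H) {S : Subgroup H // S ∈ Fac H} := facAct5 h3
  have hsm : ∀ (φ : MulAut H) (S : {S : Subgroup H // S ∈ Fac H}),
      (φ • S).1 = S.1.map (MulEquiv.toMonoidHom φ) := fun φ S => rfl
  have hfin : Finite (MulAut H) := inferInstance
  obtain ⟨a, ω, hω, hprod⟩ := orbC_split (Γ := MulAut H) (Ω := {S : Subgroup H // S ∈ Fac H})
  refine ⟨a, fun i => MulAction.stabilizer (MulAut H) (ω i), fun i => ⟨(ω i).1, (ω i).2, ?_⟩,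
    ?_, hprod.trans ?_⟩
  · ext φ
    rw [MulAction.mem_stabilizer_iff, Subtype.ext_iff, hsm]
    rfl
  · -- the elements that normalize all factors
    have hst : ∀ (h : H) (S : {S : Subgroup H // S ∈ Fac H}),
        MulAut.conj h • S = S ↔ h ∈ Subgroup.normalizer S.1 := by
      intro h S
      rw [Subtype.ext_iff, hsm, Subgroup.mem_normalizer_iff]
      constructor
      · intro hS x
        constructor
        · intro hx
          rw [← hS]
          exact ⟨x, hx, rfl⟩
        · intro hx
          rw [← hS] at hx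
          obtain ⟨y, hy, hyx⟩ := hx
          have h5 : h * y * h⁻¹ = h * x * h⁻¹ := hyx
          have h6 : y = x := mul_left_cancel (mul_right_cancel h5)
          rw [← h6]; exact hy
      · intro hS
        ext x
        constructor
        · rintro ⟨y, hy, rfl⟩
          exact (hS y).1 hy
        · intro hx
          refine ⟨h⁻¹ * x * h, ?_, ?_⟩
          · rw [SetLike.mem_coe, hS]
            have h5 : h * (h⁻¹ * x * h) * h⁻¹ = x := by group
            rwa [h5]
          · show h * (h⁻¹ * x * h) * h⁻¹ = x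
            group
    ext h
    unfold UU KK
    rw [Subgroup.mem_comap, Subgroup.mem_iInf, Subgroup.mem_iInf]
    constructor
    · intro hh S
      rw [Subgroup.mem_iInf]
      intro hS
      obtain ⟨i, g, hg⟩ := hω ⟨S, hS⟩
      have h5 := hh i g⁻¹
      rw [MulAction.mem_stabilizer_iff, inv_inv, mul_smul, mul_smul, hg] at h5
      have h6 : MulAut.conj h • (⟨S, hS⟩ : {S : Subgroup H // S ∈ Fac H}) = ⟨S, hS⟩ := by
        rw [inv_smul_eq_iff] at h5
        rw [h5, hg]
      exact (hst h ⟨S, hS⟩).1 h6
    · intro hh i g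
      rw [MulAction.mem_stabilizer_iff, mul_smul, mul_smul]
      have h5 := hh (g⁻¹ • ω i).1
      rw [Subgroup.mem_iInf] at h5
      have h6 := (hst h (g⁻¹ • ω i)).2 (h5 (g⁻¹ • ω i).2)
      rw [h6, smul_inv_smul]
  · -- the colouring is equivariant
    have heq : ∀ (φ : MulAut H) (h : H) (S : {S : Subgroup H // S ∈ Fac H}),
        col5 (φ h) (φ • S) = col5 h S := by
      intro φ h S
      have hcard : Nat.card (φ • S).1 = Nat.card S.1 := by
        rw [hsm]
        exact (Nat.card_congr (S.1.equivMapOfInjective (MulEquiv.toMonoidHom φ)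
          φ.injective).toEquiv).symm
      have hc : ∀ g : H, (∀ y ∈ (φ • S).1, φ g * y = y * φ g) ↔ ∀ y ∈ S.1, g * y = y * g := by
        intro g
        rw [hsm]
        constructor
        · intro hg y hy
          have h5 := hg (φ y) ⟨y, hy, rfl⟩
          rw [← map_mul, ← map_mul] at h5
          exact φ.injective h5
        · rintro hg _ ⟨y, hy, rfl⟩
          show φ g * φ y = φ y * φ g
          rw [← map_mul, hg y hy, map_mul]
      unfold col5
      rw [hcard, ← map_pow]
      simp only [hc]
    -- every colouring occurs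
    have hsurj : ∀ f : {S : Subgroup H // S ∈ Fac H} → Fin 3, ∃ h : H, ∀ S, col5 h S = f S := by
      intro f
      have hna : ∀ S : {S : Subgroup H // S ∈ Fac H}, ∃ x y : S.1, x * y ≠ y * x := by
        intro S
        obtain ⟨x, hx, y, hy, hxy⟩ := (h1 S.1 S.2).2.1
        exact ⟨⟨x, hx⟩, ⟨y, hy⟩, fun h5 => hxy (congrArg Subtype.val h5)⟩
      choose z hz using fun S : {S : Subgroup H // S ∈ Fac H} =>
        exists_el5 (h1 S.1 S.2).1 (hna S) (f S)
      have hF : Finite {S : Subgroup H // S ∈ Fac H} := inferInstance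
      let _ := Fintype.ofFinite {S : Subgroup H // S ∈ Fac H}
      have hcomm : ∀ S T : {S : Subgroup H // S ∈ Fac H}, S ≠ T → ∀ x ∈ S.1, ∀ y ∈ T.1,
          Commute x y := fun S T hST x hx y hy =>
        h2 S.1 S.2 T.1 T.2 (fun h5 => hST (Subtype.ext h5)) x hx y hy
      have hpw : (↑(Finset.univ : Finset {S : Subgroup H // S ∈ Fac H}) :
          Set {S : Subgroup H // S ∈ Fac H}).Pairwise
          (Function.onFun Commute fun S => ((z S : S.1) : H)) := by
        intro S _ T _ hST
        exact hcomm S T hST _ (z S).2 _ (z T).2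
      refine ⟨Finset.univ.noncommProd (fun S => ((z S : S.1) : H)) hpw, fun T => ?_⟩
      set h := Finset.univ.noncommProd (fun S => ((z S : S.1) : H)) hpw with hh
      obtain ⟨r, hr, hrT⟩ : ∃ r : H, h = (z T : H) * r ∧ ∀ y ∈ T.1, Commute y r := by
        refine ⟨_, (Finset.mul_noncommProd_erase Finset.univ (Finset.mem_univ T)
          (fun S => ((z S : S.1) : H)) hpw).symm, fun y hy => ?_⟩
        refine Finset.noncommProd_commute _ _ _ _ fun S hS => ?_
        exact hcomm T S (Finset.ne_of_mem_erase hS).symm y hy _ (z S).2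
      have hcen : ∀ k : ℕ, (∀ y ∈ T.1, h ^ k * y = y * h ^ k) ↔ z T ^ k = 1 := by
        intro k
        have hk : h ^ k = (z T : H) ^ k * r ^ k := by
          rw [hr]; exact (hrT _ (z T).2).mul_pow k
        have hrk : ∀ y ∈ T.1, r ^ k * y = y * r ^ k := fun y hy => ((hrT y hy).pow_right k).symm
        constructor
        · intro hy
          refine center5 (h1 T.1 T.2).1 (hna T) fun y => ?_
          have h5 := hy y.1 y.2
          rw [hk, mul_assoc, hrk y.1 y.2, ← mul_assoc, ← mul_assoc] at h5
          apply Subtype.ext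
          have h6 := mul_right_cancel h5
          simpa using h6
        · intro h5 y hy
          have h6 : (z T : H) ^ k = 1 := by
            have := congrArg Subtype.val h5
            simpa using this
          rw [hk, h6, one_mul]
          exact hrk y hy
      have c1 := hcen 1
      rw [pow_one, pow_one] at c1
      unfold col5
      simp only [c1, hcen]
      rcases hz T with ⟨e1, e2⟩ | ⟨e1, e2, e3⟩ | ⟨e1, e2, e3⟩
      · rw [if_pos e2, e1]
      · rw [if_neg e2, if_pos e3, e1]
      · rw [if_neg e2, if_neg e3, e1]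
    unfold om orbC
    have hQ : Finite (MulAction.orbitRel.Quotient (MulAut H) H) := Quotient.finite _
    refine Nat.card_le_card_of_surjective
      (Quotient.map' (s₁ := MulAction.orbitRel (MulAut H) H)
        (s₂ := colS (MulAut H) {S : Subgroup H // S ∈ Fac H} 3) (fun h => col5 h) ?_) ?_
    · intro x y hxy
      obtain ⟨φ, hφ⟩ := hxy
      refine ⟨φ⁻¹, fun S => ?_⟩
      have h5 : φ y = x := hφ
      have h6 : y = φ⁻¹ x := by
        rw [← h5]
        exact (MulEquiv.symm_apply_apply φ y).symm
      rw [h6]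
      exact heq φ⁻¹ x S
    · intro q
      induction q using Quotient.inductionOn' with
      | h f =>
        obtain ⟨h, hh⟩ := hsurj f
        refine ⟨Quotient.mk'' h, ?_⟩
        rw [Quotient.map'_mk'']
        congr 1
        funext S
        exact hh S


end SR32.QDS89

namespace SR32

universe u

/-- `exists_D` with the information that the `D i` are the stabilizers of simple factors. -/
theorem exists_D' {H : Type u} [Group H] [Finite H]
    (hna : ∀ M : Subgroup H, IsMinNormal M → ∃ x ∈ M, ∃ y ∈ M, x * y ≠ y * x)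
    (hp : ∀ M : Subgroup H, IsMinNormal M →
      ∃ (S : Subgroup M) (s : ℕ), IsSimpleGroup S ∧ Nonempty (M ≃* (Fin s → S))) :
    ∃ (a : ℕ) (D : Fin a → Subgroup (MulAut H)), (∀ i, ∃ S ∈ Fac H, D i = Stab S) ∧
      UU D = KK H ∧ ∏ i, orbC (MulAut H) (MulAut H ⧸ D i) 3 ≤ om H :=
  QDS89.exists_D_core (fac_simple hna hp).1 (fac_simple hna hp).2.1 (fac_simple hna hp).2.2.1

end SR32
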