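import Pool.Agent.SR32.PNum
import Pool.Agent.SR32.POrb
import Pool.Agent.SR32.PGrowS3
import Pool.Agent.SR32.DefsQ

/-!
# SR32/QTowerS58: the tower lemma with the condition over `Δ` only
-/

namespace SR32.S58T

open SR32

universe u

theorem core_comap {X Y : Type*} [Group X] [Group Y] (f : X →* Y) (hf : Function.Surjective f)
    (L : Subgroup Y) : (L.comap f).normalCore = L.normalCore.comap f := by
  ext a
  constructor
  · intro h
    rw [Subgroup.mem_comap]
    intro y
    obtain ⟨x, rfl⟩ := hf y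
    have h1 : x * a * x⁻¹ ∈ L.comap f := h x
    rw [Subgroup.mem_comap] at h1
    simpa using h1
  · intro h x
    rw [Subgroup.mem_comap] at h
    have h1 : f x * f a * (f x)⁻¹ ∈ L := h (f x)
    rw [Subgroup.mem_comap]
    simpa using h1

theorem core_index {X Y : Type*} [Group X] [Group Y] (f : X →* Y) (hf : Function.Surjective f)
    (L : Subgroup Y) : (L.comap f).index = L.index ∧
      (L.comap f).normalCore.index = L.normalCore.index := by
  refine ⟨L.index_comap_of_surjective hf, ?_⟩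
  rw [core_comap f hf]
  exact L.normalCore.index_comap_of_surjective hf

theorem prim_equiv {t : ℕ} {Γ X : Type u} [Group Γ] [Group X] {Δ : Subgroup Γ}
    (h : PrimOver t Δ)
    (M : Subgroup Γ) (e : X ≃* M) (Λ : Subgroup X) (hΛ : IsCoatom Λ)
    (hΔ : ∀ y ∈ Δ, ∃ x ∈ Λ, (e x : Γ) = y) (ht : t < Λ.index) :
    Λ.normalCore.index ≤ 2 ^ Λ.index ∨ Λ.index.factorial ≤ 2 * Λ.normalCore.index := by
  obtain ⟨h1, h2⟩ := core_index e.symm.toMonoidHom e.symm.surjective Λ
  have h4 : Λ.comap e.symm.toMonoidHom = e.mapSubgroup Λ := by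
    ext y
    rw [Subgroup.mem_comap]
    constructor
    · intro hy
      exact ⟨e.symm y, hy, e.apply_symm_apply y⟩
    · rintro ⟨x, hx, rfl⟩
      have : e.symm.toMonoidHom ((e : X →* M) x) = x := e.symm_apply_apply x
      rw [this]
      exact hx
  have h3 : IsCoatom (Λ.comap e.symm.toMonoidHom) := by
    rw [h4]
    exact (OrderIso.isCoatom_iff e.mapSubgroup Λ).2 hΛ
  have h6 : Δ ≤ (Λ.comap e.symm.toMonoidHom).map M.subtype := by
    intro y hy
    obtain ⟨x, hx, hxy⟩ := hΔ y hy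
    refine ⟨e x, ?_, hxy⟩
    have : e.symm.toMonoidHom (e x) = x := e.symm_apply_apply x
    rw [SetLike.mem_coe, Subgroup.mem_comap, this]
    exact hx
  have h5 := h M (Λ.comap e.symm.toMonoidHom) h3 h6 (by rw [h1]; exact ht)
  rw [h1, h2] at h5
  exact h5

theorem prim_self {t : ℕ} {Γ : Type u} [Group Γ] {Δ : Subgroup Γ} (h : PrimOver t Δ)
    (Λ : Subgroup Γ) (hΛ : IsCoatom Λ) (hΔ : Δ ≤ Λ) (ht : t < Λ.index) :
    Λ.normalCore.index ≤ 2 ^ Λ.index ∨ Λ.index.factorial ≤ 2 * Λ.normalCore.index :=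
  prim_equiv h ⊤ Subgroup.topEquiv.symm Λ hΛ (fun y hy => ⟨y, hΔ hy, rfl⟩) ht

theorem prim_sub {t : ℕ} {Γ : Type u} [Group Γ] {Δ : Subgroup Γ} (h : PrimOver t Δ)
    (Λ : Subgroup Γ) (hΔ : Δ ≤ Λ) : PrimOver t (Δ.subgroupOf Λ) := by
  intro M Θ hΘ hΔΘ hi
  refine prim_equiv h (M.map Λ.subtype)
    (M.equivMapOfInjective Λ.subtype (Subgroup.subtype_injective Λ)) Θ hΘ ?_ hi
  intro y hy
  obtain ⟨x, hx, hxy⟩ := hΔΘ (show (⟨y, hΔ hy⟩ : Λ) ∈ Δ.subgroupOf Λ from
    Subgroup.mem_subgroupOf.2 hy)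
  refine ⟨x, hx, ?_⟩
  rw [Subgroup.coe_equivMapOfInjective_apply]
  have h2 : (M.subtype x : Λ) = ⟨y, hΔ hy⟩ := hxy
  rw [Subgroup.coe_subtype] at h2
  rw [h2]
  rfl

theorem alt_map {Γ : Type u} [Group Γ] (Λ : Subgroup Γ) (I O : Subgroup Λ) (h : AltLayer I O) :
    AltLayer (I.map Λ.subtype) (O.map Λ.subtype) := by
  rcases h with h | ⟨h1, h2⟩
  · left
    rw [h]
  · right
    have hs : Function.Surjective
        (O.equivMapOfInjective Λ.subtype (Subgroup.subtype_injective Λ)).toMonoidHom :=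
      (O.equivMapOfInjective Λ.subtype (Subgroup.subtype_injective Λ)).surjective
    obtain ⟨h3, h4⟩ := core_index _ hs ((I.map Λ.subtype).subgroupOf (O.map Λ.subtype))
    have h5 : ((I.map Λ.subtype).subgroupOf (O.map Λ.subtype)).comap
        (O.equivMapOfInjective Λ.subtype (Subgroup.subtype_injective Λ)).toMonoidHom =
        I.subgroupOf O := by
      ext x
      rw [Subgroup.mem_comap, Subgroup.mem_subgroupOf, Subgroup.mem_subgroupOf]
      constructor
      · rintro ⟨y, hy, hyx⟩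
        have : y = (x : Λ) := Subgroup.subtype_injective Λ hyx
        rw [← this]
        exact hy
      · intro hx
        exact ⟨(x : Λ), hx, rfl⟩
    rw [h5] at h3 h4
    rw [← h3, ← h4]
    exact ⟨h1, h2⟩

theorem multi_gt {Γ : Type u} [Group Γ] [Finite Γ] (Δ : Subgroup Γ) :
    Δ.index < orbC Γ (Γ ⧸ Δ) 3 ∧ 3 ≤ orbC Γ (Γ ⧸ Δ) 3 := by
  have h := orbC_multi Γ (Γ ⧸ Δ) 3
  have h0 : Nat.card (Γ ⧸ Δ) = Δ.index := rfl
  rw [h0] at h
  have h1 : Nat.multichoose 2 Δ.index ≤ Nat.multichoose 3 Δ.index :=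
    exc_W_mono_left (by omega) _
  rw [Nat.multichoose_two] at h1
  have h2 : Nat.multichoose 3 1 ≤ Nat.multichoose 3 Δ.index :=
    exc_W_mono_right (by omega) (Nat.one_le_iff_ne_zero.2 Δ.index_ne_zero_of_finite)
  rw [Nat.multichoose_one_right] at h2
  exact ⟨by omega, h2.trans h⟩

theorem tower_aux {t : ℕ} (ht : 4 ≤ t) {ε C₀ L : ℝ} (hε : 0 < ε) (hC₀ : 0 ≤ C₀)
    (hL1 : C₀ + ε / 18 * t ≤ ε / 6 * L)
    (hC : ∀ n : ℕ, ((LL n).divisors.card : ℝ) ≤ Real.exp (C₀ + ε / 18 * n)) (n : ℕ) :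
    ∀ (Γ : Type u) [Group Γ] [Finite Γ] (Δ : Subgroup Γ), Δ.index = n → PrimOver t Δ →
    ∃ (E : ℕ) (I O : Subgroup Γ), 0 < E ∧ Δ ≤ I ∧ I ≤ O ∧
      (∀ g x : Γ, x⁻¹ * g ^ E * x ∈ O) ∧
      (∀ g : Γ, (∀ x : Γ, x⁻¹ * g * x ∈ I) → ∀ x : Γ, x⁻¹ * g ^ E * x ∈ Δ) ∧
      (E.divisors.card : ℝ) ≤ Real.exp (C₀ + ε / 18 * (1 + Real.exp L)) *
        (orbC Γ (Γ ⧸ Δ) 3 : ℝ) ^ ε ∧ AltLayer I O := by
  induction n using Nat.strong_induction_on with
  | _ n ih =>
  intro Γ _ _ Δ hn hP
  obtain ⟨hv1, hv2⟩ := multi_gt Δ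
  set v : ℕ := orbC Γ (Γ ⧸ Δ) 3 with hv
  have hv3 : (3 : ℝ) ≤ v := by exact_mod_cast hv2
  have hv0 : (0 : ℝ) < v := by linarith
  have hlv : 0 ≤ Real.log v := Real.log_nonneg (by linarith)
  have hpow : ((v : ℝ)) ^ ε = Real.exp (Real.log v * ε) := Real.rpow_def_of_pos hv0 ε
  rcases lt_or_ge (Real.log v) L with hlt | hge
  · refine ⟨LL n, Δ, Δ, LL_pos n, le_refl _, le_refl _, ?_, ?_, ?_, Or.inl rfl⟩
    · intro g x
      rw [← hn]
      exact pow_LL_mem Δ g x
    · intro g _ x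
      rw [← hn]
      exact pow_LL_mem Δ g x
    · refine (hC n).trans ?_
      rw [hpow, ← Real.exp_add]
      apply Real.exp_le_exp.2
      have h1 : (v : ℝ) ≤ Real.exp L := by
        have := Real.exp_le_exp.2 hlt.le
        rwa [Real.exp_log hv0] at this
      have h2 : (n : ℝ) ≤ v := by
        rw [← hn]
        exact_mod_cast hv1.le
      have h3 : ε / 18 * n ≤ ε / 18 * (1 + Real.exp L) :=
        mul_le_mul_of_nonneg_left (by linarith) (by positivity)
      have h4 : 0 ≤ Real.log v * ε := by positivity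
      linarith
  · rcases eq_top_or_exists_le_coatom Δ with htop | ⟨Λ, hΛ, hΔΛ⟩
    · refine ⟨1, ⊤, ⊤, one_pos, le_top, le_refl _, fun _ _ => Subgroup.mem_top _, ?_, ?_,
        Or.inl rfl⟩
      · intro g _ x
        rw [htop]
        exact Subgroup.mem_top _
      · rw [hpow, ← Real.exp_add]
        have h1 : (1 : ℝ) ≤ Real.exp (C₀ + ε / 18 * (1 + Real.exp L) + Real.log v * ε) := by
          apply Real.one_le_exp
          positivity
        simpa using h1
    · have hb0 : Λ.index ≠ 0 := Λ.index_ne_zero_of_finite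
      have hb1 : Λ.index ≠ 1 := fun h => hΛ.1 (Subgroup.index_eq_one.1 h)
      have hb : 2 ≤ Λ.index := by omega
      obtain ⟨hw1, hw2⟩ := multi_gt (Δ.subgroupOf Λ)
      have hmul : (Δ.subgroupOf Λ).index * Λ.index = Δ.index :=
        Subgroup.relIndex_mul_index hΔΛ
      have htw := orbC_tower Δ Λ hΔΛ
      set v' : ℕ := orbC Λ (Λ ⧸ Δ.subgroupOf Λ) 3 with hv'
      have hA := orbC_multi Γ (Γ ⧸ Λ) v'
      have hB := orbC_core Λ v'
      have hA0 : Nat.card (Γ ⧸ Λ) = Λ.index := rfl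
      rw [hA0] at hA
      have hg1 : Nat.multichoose v' Λ.index ≤ v := hA.trans htw
      have hg2 : v' ^ Λ.index ≤ v * Λ.normalCore.index :=
        hB.trans (Nat.mul_le_mul_right _ htw)
      have hw3 : (3 : ℝ) ≤ v' := by exact_mod_cast hw2
      have hw0 : (0 : ℝ) < v' := by linarith
      obtain ⟨hG1, hG2⟩ := PGrowS3.grow (t := t) hb hw2 hg1 hg2
        (fun h => prim_self hP Λ hΛ hΔΛ h)
      have hind : (t < Λ.index ∧ Λ.index.factorial ≤ 2 * Λ.normalCore.index ∧
          ((v' : ℝ) - 1) * Real.log 2 ≤ Real.log v) ∨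
          ((Λ.index : ℝ) ≤ t + 3 * Real.log v) := by
        rcases hG2 with h | h | h
        · right
          have : (0 : ℝ) ≤ t := Nat.cast_nonneg t
          linarith
        · right
          have : (Λ.index : ℝ) ≤ t := by exact_mod_cast h
          linarith
        · left
          exact h
      rcases hind with ⟨h1, h2, h3⟩ | h1
      · refine ⟨LL (Δ.subgroupOf Λ).index, Λ, ⊤, LL_pos _, hΔΛ, le_top,
          fun _ _ => Subgroup.mem_top _, ?_, ?_, ?_⟩
        · intro g hg x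
          have h4 := pow_LL_mem (Δ.subgroupOf Λ) (⟨x⁻¹ * g * x, hg x⟩ : Λ) 1
          rw [inv_one, one_mul, mul_one, Subgroup.mem_subgroupOf] at h4
          have h5 : (((⟨x⁻¹ * g * x, hg x⟩ : Λ) ^ LL (Δ.subgroupOf Λ).index : Λ) : Γ) =
              x⁻¹ * g ^ LL (Δ.subgroupOf Λ).index * x := by
            rw [Subgroup.coe_pow]
            have := conj_pow (i := LL (Δ.subgroupOf Λ).index) (a := x⁻¹) (b := g)
            rwa [inv_inv] at this
          rwa [h5] at h4
        · refine (hC _).trans ?_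
          rw [hpow, ← Real.exp_add]
          apply Real.exp_le_exp.2
          have h4 : ((Δ.subgroupOf Λ).index : ℝ) ≤ v' := by exact_mod_cast hw1.le
          have h5 := Real.log_two_gt_d9
          have h6 : (v' : ℝ) - 1 ≤ 2 * Real.log v := by
            have : ((v' : ℝ) - 1) * (1 / 2) ≤ ((v' : ℝ) - 1) * Real.log 2 :=
              mul_le_mul_of_nonneg_left (by linarith) (by linarith)
            linarith
          have h7 : ε / 18 * ((Δ.subgroupOf Λ).index : ℝ) ≤ ε / 18 * (1 + 2 * Real.log v) :=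
            mul_le_mul_of_nonneg_left (by linarith) (by positivity)
          have h8 : 0 < Real.exp L := Real.exp_pos L
          have h9 : 0 ≤ ε / 18 * Real.exp L := by positivity
          have h10 : 0 ≤ ε * Real.log v := by positivity
          nlinarith
        · right
          obtain ⟨h4, h5⟩ := core_index (⊤ : Subgroup Γ).subtype
            (fun y => ⟨⟨y, Subgroup.mem_top y⟩, rfl⟩) Λ
          have h6 : Λ.subgroupOf ⊤ = Λ.comap (⊤ : Subgroup Γ).subtype := rfl
          rw [h6, h4, h5]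
          exact ⟨by omega, h2⟩
      · have hlt : (Δ.subgroupOf Λ).index < n := by
          have h2 : (Δ.subgroupOf Λ).index ≠ 0 := (Δ.subgroupOf Λ).index_ne_zero_of_finite
          rw [← hn, ← hmul]
          nlinarith [Nat.pos_of_ne_zero h2]
        obtain ⟨E', I', O', hE', hI', hO', ha, hb', hd, hAlt⟩ :=
          ih _ hlt Λ (Δ.subgroupOf Λ) rfl (prim_sub hP Λ hΔΛ)
        have hpw : ∀ g x : Γ, (x⁻¹ * g ^ LL Λ.index * x) ^ E' =
            x⁻¹ * g ^ (LL Λ.index * E') * x := by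
          intro g x
          have := conj_pow (i := E') (a := x⁻¹) (b := g ^ LL Λ.index)
          rw [inv_inv] at this
          rw [this, pow_mul]
        refine ⟨LL Λ.index * E', I'.map Λ.subtype, O'.map Λ.subtype,
          Nat.mul_pos (LL_pos _) hE', ?_, Subgroup.map_mono hO', ?_, ?_, ?_, alt_map Λ I' O' hAlt⟩
        · intro x hx
          exact ⟨⟨x, hΔΛ hx⟩, hI' (Subgroup.mem_subgroupOf.2 hx), rfl⟩
        · intro g x
          have h2 := ha ⟨x⁻¹ * g ^ LL Λ.index * x, pow_LL_mem Λ g x⟩ 1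
          rw [inv_one, one_mul, mul_one] at h2
          rw [← hpw]
          exact ⟨_, h2, by rw [Subgroup.coe_subtype, Subgroup.coe_pow]⟩
        · intro g hg x
          have h2 := hb' ⟨x⁻¹ * g ^ LL Λ.index * x, pow_LL_mem Λ g x⟩ (fun z => by
            have h3 : (x * (z : Γ))⁻¹ * g ^ LL Λ.index * (x * z) ∈ I'.map Λ.subtype := by
              have h4 := conj_pow (i := LL Λ.index) (a := (x * (z : Γ))⁻¹) (b := g)
              rw [inv_inv] at h4
              rw [← h4]
              exact Subgroup.pow_mem _ (hg _) _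
            obtain ⟨w, hw, hwe⟩ := h3
            have h5 : w = z⁻¹ * ⟨x⁻¹ * g ^ LL Λ.index * x, pow_LL_mem Λ g x⟩ * z := by
              apply Subtype.ext
              rw [Subgroup.coe_subtype] at hwe
              rw [hwe]
              push_cast
              group
            rwa [h5] at hw) 1
          rw [inv_one, one_mul, mul_one, Subgroup.mem_subgroupOf, Subgroup.coe_pow] at h2
          rw [← hpw]
          exact h2
        · have h2 : ((LL Λ.index * E').divisors.card : ℝ) ≤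
              (LL Λ.index).divisors.card * E'.divisors.card := by
            exact_mod_cast card_div_mul _ _
          have hpow' : ((v' : ℝ)) ^ ε = Real.exp (Real.log v' * ε) := Real.rpow_def_of_pos hw0 ε
          rw [hpow', ← Real.exp_add] at hd
          have h3 := hC Λ.index
          have h4 : ((LL Λ.index).divisors.card : ℝ) * E'.divisors.card ≤
              Real.exp (C₀ + ε / 18 * Λ.index) *
              Real.exp (C₀ + ε / 18 * (1 + Real.exp L) + Real.log v' * ε) :=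
            mul_le_mul h3 hd (Nat.cast_nonneg _) (Real.exp_pos _).le
          refine (h2.trans h4).trans ?_
          rw [hpow, ← Real.exp_add, ← Real.exp_add]
          apply Real.exp_le_exp.2
          have h5 : ε / 18 * (Λ.index : ℝ) ≤ ε / 18 * (t + 3 * Real.log v) :=
            mul_le_mul_of_nonneg_left h1 (by positivity)
          have h6 : ε * Real.log v' ≤ ε * (2 / 3 * Real.log v) :=
            mul_le_mul_of_nonneg_left (by linarith) hε.le
          have h7 : ε / 6 * L ≤ ε / 6 * Real.log v :=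
            mul_le_mul_of_nonneg_left hge (by positivity)
          nlinarith

theorem tower' (t : ℕ) (ht : 4 ≤ t) (ε : ℝ) (hε : 0 < ε) : ∃ C : ℝ, 1 ≤ C ∧
    ∀ (Γ : Type u) [Group Γ] [Finite Γ] (Δ : Subgroup Γ), PrimOver t Δ →
    ∃ (E : ℕ) (I O : Subgroup Γ), 0 < E ∧ Δ ≤ I ∧ I ≤ O ∧
      (∀ g x : Γ, x⁻¹ * g ^ E * x ∈ O) ∧
      (∀ g : Γ, (∀ x : Γ, x⁻¹ * g * x ∈ I) → ∀ x : Γ, x⁻¹ * g ^ E * x ∈ Δ) ∧
      (E.divisors.card : ℝ) ≤ C * (orbC Γ (Γ ⧸ Δ) 3 : ℝ) ^ ε ∧ AltLayer I O := by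
  obtain ⟨C₀, hC₀, hC⟩ := card_div_LL_exp (ε / 18) (by positivity)
  have ht0 : (0 : ℝ) ≤ t := Nat.cast_nonneg t
  refine ⟨Real.exp (C₀ + ε / 18 * (1 + Real.exp (6 * (C₀ + ε / 18 * t) / ε))),
    Real.one_le_exp (by positivity), ?_⟩
  intro Γ _ _ Δ hP
  refine tower_aux ht hε hC₀ (L := 6 * (C₀ + ε / 18 * t) / ε) ?_ hC Δ.index Γ Δ
    rfl hP
  apply le_of_eq
  field_simp

end SR32.S58T
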