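import Pool.Agent.SR32.PTower
import Pool.Agent.SR32.QTowerS58
import Pool.Agent.SR32.QFamS58
import Pool.Agent.SR32.DefsQ

/-!
# SR32/QTower: the tower lemma, with the condition on primitive groups above `Δ` only
-/

namespace SR32

universe u

/-- As `tower` (proof of `PTowerS64`): only subgroups above `Δ` occur. -/
theorem tower' (t : ℕ) (ht : 4 ≤ t) (ε : ℝ) (hε : 0 < ε) : ∃ C : ℝ, 1 ≤ C ∧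
    ∀ (Γ : Type u) [Group Γ] [Finite Γ] (Δ : Subgroup Γ), PrimOver t Δ →
    ∃ (E : ℕ) (I O : Subgroup Γ), 0 < E ∧ Δ ≤ I ∧ I ≤ O ∧
      (∀ g x : Γ, x⁻¹ * g ^ E * x ∈ O) ∧
      (∀ g : Γ, (∀ x : Γ, x⁻¹ * g * x ∈ I) → ∀ x : Γ, x⁻¹ * g ^ E * x ∈ Δ) ∧
      (E.divisors.card : ℝ) ≤ C * (orbC Γ (Γ ⧸ Δ) 3 : ℝ) ^ ε ∧ AltLayer I O :=
  S58T.tower' t ht ε hε

/-- As `family`. -/
theorem family' (t : ℕ) (ht : 4 ≤ t) (ε : ℝ) (hε : 0 < ε) : ∃ C : ℝ, 1 ≤ C ∧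
    ∀ (Γ : Type u) [Group Γ] [Finite Γ] (a : ℕ) (D : Fin a → Subgroup Γ),
    (∀ i, PrimOver t (D i)) →
    ∃ (E : ℕ) (I O : Fin a → Subgroup Γ), 0 < E ∧ (∀ i, D i ≤ I i) ∧ (∀ i, I i ≤ O i) ∧
      (∀ i, ∀ g x : Γ, x⁻¹ * g ^ E * x ∈ O i) ∧
      (∀ i, ∀ g : Γ, (∀ x : Γ, x⁻¹ * g * x ∈ I i) → ∀ x : Γ, x⁻¹ * g ^ E * x ∈ D i) ∧
      (E.divisors.card : ℝ) ≤ C * (∏ i, (orbC Γ (Γ ⧸ D i) 3 : ℝ)) ^ ε ∧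
      ∀ i, AltLayer (I i) (O i) :=
  family58 t (fun ε hε => S58T.tower' t ht ε hε) ε hε

end SR32
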