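import Pool.Agent.SR32.PMain
import Pool.Agent.SR32.QTower
import Pool.Agent.SR32.QDS89

/-!
# SR32/QMain: no condition on the permutation of the simple factors, primitive groups above the
stabilizers of the simple factors only
-/

set_option autoImplicit false

namespace SR32

universe u

open Filter

theorem lowerP' (t L : ℕ) (η : ℕ → ℕ) (hη : Tendsto η atTop atTop) : ∃ c : ℝ, 0 < c ∧
    ∀ (H : Type u) [Group H] [Finite H],
      (∀ M : Subgroup H, IsMinNormal M → ∃ x ∈ M, ∃ y ∈ M, x * y ≠ y * x) →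
      MinPowX η t H → (∀ S ∈ Fac H, PrimOver t (Stab S)) → c * (oo H : ℝ) ^ L ≤ (om H : ℝ) := by
  classical
  set T := max t 4 with hT
  have hT4 : 4 ≤ T := le_max_right _ _
  have htT : t ≤ T := le_max_left _ _
  obtain ⟨c1, hc1, hlow⟩ := tameX_lower.{u} T (4 * (L + 1)) η hη
  have hε : (0 : ℝ) < 1 / (8 * ((L : ℝ) + 1)) := by positivity
  obtain ⟨C, hC1, hfam⟩ := family'.{u} T hT4 (1 / (8 * ((L : ℝ) + 1))) hε
  set c2 := min c1 1 with hc2
  have hc2pos : 0 < c2 := lt_min hc1 one_pos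
  have hc2le : c2 ≤ 1 := min_le_right _ _
  set D := C ^ (8 * (L + 1)) / c2 ^ 2 with hD
  have hDpos : 0 < D := by positivity
  have hD1 : 1 ≤ D := by
    rw [hD, le_div_iff₀ (by positivity), one_mul]
    exact (pow_le_one₀ hc2pos.le hc2le).trans (one_le_pow₀ hC1)
  refine ⟨1 / D, by positivity, ?_⟩
  intro H _ _ hna hmin hprim
  have hmin' : MinPowX η T H := minPowX_mono htT hmin
  have hp : ∀ M : Subgroup H, IsMinNormal M →
      ∃ (S : Subgroup M) (s : ℕ), IsSimpleGroup S ∧ Nonempty (M ≃* (Fin s → S)) := by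
    intro M hM
    obtain ⟨S, s, ⟨h1, _, _⟩, h2⟩ := hmin M hM
    exact ⟨S, s, h1, h2⟩
  obtain ⟨a, Dd, hDS, hUD, hprod⟩ := exists_D' hna hp
  have hprim' : ∀ i, PrimOver T (Dd i) := by
    intro i
    obtain ⟨S, hS, hDi⟩ := hDS i
    rw [hDi]
    exact fun M Λ hΛ hD hi => hprim S hS M Λ hΛ hD (lt_of_le_of_lt htT hi)
  have hfinAut : Finite (MulAut H) := Finite.of_injective (fun φ : MulAut H => (φ : H → H))
    DFunLike.coe_injective
  obtain ⟨E, I, O, hE, hDI, hIO, hEO, hEI, hdiv, hAlt⟩ := hfam (MulAut H) a Dd hprim'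
  have hcharO : (UU O).Characteristic := UU_char O
  have hcharI : (UU I).Characteristic := UU_char I
  have hcharK : (KK H).Characteristic := KK_char
  have hKI : KK H ≤ UU I := by
    rw [← hUD]
    exact UU_mono hDI
  have hIOU : UU I ≤ UU O := UU_mono hIO
  set w : ℝ := (om H : ℝ) with hw
  have hw1 : 1 ≤ w := by
    rw [hw]
    exact_mod_cast om_pos H
  -- the number of divisors of `E`
  set dE : ℝ := (E.divisors.card : ℝ) with hdE
  have hdE0 : 0 ≤ dE := Nat.cast_nonneg _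
  have hdEw : dE ^ (8 * (L + 1)) ≤ C ^ (8 * (L + 1)) * w := by
    have h1 : dE ≤ C * w ^ (1 / (8 * ((L : ℝ) + 1))) := by
      refine hdiv.trans ?_
      apply mul_le_mul_of_nonneg_left _ (by linarith)
      apply Real.rpow_le_rpow
      · exact Finset.prod_nonneg (fun i _ => Nat.cast_nonneg _)
      · rw [hw]
        exact_mod_cast hprod
      · exact hε.le
    calc dE ^ (8 * (L + 1)) ≤ (C * w ^ (1 / (8 * ((L : ℝ) + 1)))) ^ (8 * (L + 1)) :=
          pow_le_pow_left₀ hdE0 h1 _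
      _ = C ^ (8 * (L + 1)) * w := by
          rw [mul_pow]
          congr 1
          rw [← Real.rpow_natCast, ← Real.rpow_mul (by linarith)]
          have : 1 / (8 * ((L : ℝ) + 1)) * ((8 * (L + 1) : ℕ) : ℝ) = 1 := by
            push_cast
            field_simp
          rw [this, Real.rpow_one]
  -- the four factors
  have h1 : (oo (H ⧸ UU O) : ℝ) ≤ dE := by
    have : oo (H ⧸ UU O) ≤ E.divisors.card := by
      apply oo_le_div E hE
      intro g
      obtain ⟨h, rfl⟩ := QuotientGroup.mk_surjective g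
      rw [← QuotientGroup.mk_pow, QuotientGroup.eq_one_iff, mem_UU]
      intro i x
      rw [map_pow]
      exact hEO i (MulAut.conj h) x
    rw [hdE]
    exact_mod_cast this
  have h3 : (oo (UU I ⧸ (KK H).subgroupOf (UU I)) : ℝ) ≤ dE := by
    have : oo (UU I ⧸ (KK H).subgroupOf (UU I)) ≤ E.divisors.card := by
      apply oo_le_div E hE
      intro g
      obtain ⟨h, rfl⟩ := QuotientGroup.mk_surjective g
      rw [← QuotientGroup.mk_pow, QuotientGroup.eq_one_iff, Subgroup.mem_subgroupOf, ← hUD,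
        mem_UU]
      intro i x
      rw [Subgroup.coe_pow, map_pow]
      exact hEI i (MulAut.conj (h : H)) (fun y => (mem_UU.1 h.2) i y) x
    rw [hdE]
    exact_mod_cast this
  have hX : TameX η T (UU O ⧸ (UU I).subgroupOf (UU O)) := by
    apply tameX_of_alt (by omega)
    intro M hM
    exact sect_alt I O hIO hAlt ((UU I).subgroupOf (UU O)) rfl M hM
  have h2 : c2 * (oo (UU O ⧸ (UU I).subgroupOf (UU O)) : ℝ) ^ (4 * (L + 1)) ≤ w := by
    refine (mul_le_mul_of_nonneg_right (min_le_left _ _) (by positivity)).trans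
      ((hlow _ hX).trans ?_)
    rw [hw]
    exact_mod_cast us_sect_le (UU I) (UU O)
  have hK : TameX η T (KK H) := KK_tame (by omega) hna hmin'
  have h4 : c2 * (oo (KK H) : ℝ) ^ (4 * (L + 1)) ≤ w := by
    refine (mul_le_mul_of_nonneg_right (min_le_left _ _) (by positivity)).trans
      ((hlow _ hK).trans ?_)
    rw [hw]
    exact_mod_cast om_char_le (KK H)
  have h5 : (oo H : ℝ) ≤ dE * (oo (UU O ⧸ (UU I).subgroupOf (UU O)) : ℝ) * dE *
      (oo (KK H) : ℝ) := by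
    have e1 : oo H ≤ oo (H ⧸ UU O) * oo (UU O) := oo_le_mul _
    have e2 : oo (UU O) ≤ oo (UU O ⧸ (UU I).subgroupOf (UU O)) * oo (UU I) := by
      rw [← oo_congr (Subgroup.subgroupOfEquivOfLe hIOU)]
      exact oo_le_mul _
    have e3 : oo (UU I) ≤ oo (UU I ⧸ (KK H).subgroupOf (UU I)) * oo (KK H) := by
      rw [← oo_congr (Subgroup.subgroupOfEquivOfLe hKI)]
      exact oo_le_mul _
    have e4 : oo H ≤ oo (H ⧸ UU O) * (oo (UU O ⧸ (UU I).subgroupOf (UU O)) *
        (oo (UU I ⧸ (KK H).subgroupOf (UU I)) * oo (KK H))) :=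
      e1.trans (Nat.mul_le_mul_left _ (e2.trans (Nat.mul_le_mul_left _ e3)))
    have e5 : (oo H : ℝ) ≤ (oo (H ⧸ UU O) : ℝ) * ((oo (UU O ⧸ (UU I).subgroupOf (UU O)) : ℝ) *
        ((oo (UU I ⧸ (KK H).subgroupOf (UU I)) : ℝ) * (oo (KK H) : ℝ))) := by
      exact_mod_cast e4
    refine e5.trans ?_
    calc (oo (H ⧸ UU O) : ℝ) * ((oo (UU O ⧸ (UU I).subgroupOf (UU O)) : ℝ) *
        ((oo (UU I ⧸ (KK H).subgroupOf (UU I)) : ℝ) * (oo (KK H) : ℝ)))
        ≤ dE * ((oo (UU O ⧸ (UU I).subgroupOf (UU O)) : ℝ) * (dE * (oo (KK H) : ℝ))) := by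
          gcongr
      _ = _ := by ring
  set x : ℝ := (oo (UU O ⧸ (UU I).subgroupOf (UU O)) : ℝ) with hx
  set k : ℝ := (oo (KK H) : ℝ) with hk
  have hx0 : 0 ≤ x := Nat.cast_nonneg _
  have hk0 : 0 ≤ k := Nat.cast_nonneg _
  have hoo0 : (0 : ℝ) ≤ (oo H : ℝ) := Nat.cast_nonneg _
  have h6 : ((oo H : ℝ) ^ (L + 1)) ^ 4 ≤ D * w ^ 4 := by
    have h7 : x ^ (4 * (L + 1)) ≤ w / c2 := by
      rw [le_div_iff₀ hc2pos, mul_comm]
      exact h2
    have h8 : k ^ (4 * (L + 1)) ≤ w / c2 := by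
      rw [le_div_iff₀ hc2pos, mul_comm]
      exact h4
    calc ((oo H : ℝ) ^ (L + 1)) ^ 4 = (oo H : ℝ) ^ (4 * (L + 1)) := by
          rw [← pow_mul, mul_comm]
      _ ≤ (dE * x * dE * k) ^ (4 * (L + 1)) := pow_le_pow_left₀ hoo0 h5 _
      _ = dE ^ (8 * (L + 1)) * (x ^ (4 * (L + 1)) * k ^ (4 * (L + 1))) := by
          rw [mul_pow, mul_pow, mul_pow]
          have : dE ^ (8 * (L + 1)) = dE ^ (4 * (L + 1)) * dE ^ (4 * (L + 1)) := by
            rw [← pow_add]
            congr 1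
            ring
          rw [this]
          ring
      _ ≤ (C ^ (8 * (L + 1)) * w) * ((w / c2) * (w / c2)) := by
          apply mul_le_mul hdEw _ (by positivity) (by positivity)
          exact mul_le_mul h7 h8 (by positivity) (by positivity)
      _ = D * w ^ 3 := by
          rw [hD]
          field_simp
      _ ≤ D * w ^ 4 := by
          apply mul_le_mul_of_nonneg_left _ hDpos.le
          exact pow_le_pow_right₀ hw1 (by norm_num)
  have h9 : (oo H : ℝ) ^ (L + 1) ≤ D * w := by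
    have h10 : ((oo H : ℝ) ^ (L + 1)) ^ 4 ≤ (D * w) ^ 4 := by
      refine h6.trans ?_
      rw [mul_pow]
      apply mul_le_mul_of_nonneg_right _ (by positivity)
      exact le_self_pow₀ hD1 (by norm_num)
    exact le_of_pow_le_pow_left₀ (by norm_num) (by positivity) h10
  have hoo1 : (1 : ℝ) ≤ (oo H : ℝ) := by exact_mod_cast oo_pos H
  calc 1 / D * (oo H : ℝ) ^ L ≤ 1 / D * (oo H : ℝ) ^ (L + 1) := by
        apply mul_le_mul_of_nonneg_left _ (by positivity)
        exact pow_le_pow_right₀ hoo1 (Nat.le_succ _)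
    _ ≤ 1 / D * (D * w) := mul_le_mul_of_nonneg_left h9 (by positivity)
    _ = w := by
        field_simp

theorem main_boundP' (t : ℕ) (η : ℕ → ℕ) (hη : Tendsto η atTop atTop) : ∃ B : ℕ → ℕ → ℕ,
    ∀ (G : Type u) [Group G] [Finite G] [Nontrivial G],
    MinPowX η t (G ⧸ Rad G) → (∀ S ∈ Fac (G ⧸ Rad G), PrimOver t (Stab S)) →
    ∀ L m : ℕ, ll G ≤ L → oo (Rad G) ≤ m → Nat.card (G ⧸ Rad G) ≤ B L m := by
  classical
  choose c hc0 hc using fun L => lowerP'.{u} t L η hη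
  choose B hB using fun Ω => ybound_of_om.{u} η Ω t
  refine ⟨fun L m => B ((m * ⌈(m : ℝ) ^ L / c (L + 1)⌉₊) ^ L), ?_⟩
  intro G _ _ _ hmin hprim L m hL hm
  have hna : ∀ M : Subgroup (G ⧸ Rad G), IsMinNormal M → ∃ x ∈ M, ∃ y ∈ M, x * y ≠ y * x :=
    fun M hM => minNormal_nonab M hM
  apply hB _ (G ⧸ Rad G) hna (minPowY_of_X hmin)
  set H := G ⧸ Rad G with hH
  have h1 : om H ≤ (m * oo H) ^ L := by
    calc om H ≤ om G := om_quot_le _
      _ ≤ oo G ^ L := om_le_pow L hL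
      _ ≤ (oo (G ⧸ Rad G) * oo (Rad G)) ^ L := Nat.pow_le_pow_left (oo_le_mul _) L
      _ ≤ (m * oo H) ^ L := by
        apply Nat.pow_le_pow_left
        rw [mul_comm m]
        exact Nat.mul_le_mul_left _ hm
  have h2 := hc (L + 1) H hna hmin hprim
  have hooH : (0 : ℝ) < (oo H : ℝ) := by exact_mod_cast oo_pos H
  have hcp : (0 : ℝ) < c (L + 1) := hc0 _
  have h3 : (om H : ℝ) ≤ ((m : ℝ) * oo H) ^ L := by exact_mod_cast h1
  have h4 : c (L + 1) * (oo H : ℝ) ≤ (m : ℝ) ^ L := by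
    have h5 : c (L + 1) * (oo H : ℝ) ^ (L + 1) ≤ (m : ℝ) ^ L * (oo H : ℝ) ^ L := by
      rw [← mul_pow]
      exact h2.trans h3
    rw [pow_succ, ← mul_assoc, mul_right_comm] at h5
    exact le_of_mul_le_mul_right h5 (pow_pos hooH _)
  have h5 : oo H ≤ ⌈(m : ℝ) ^ L / c (L + 1)⌉₊ := by
    have h6 : (oo H : ℝ) ≤ (m : ℝ) ^ L / c (L + 1) := by
      rw [le_div_iff₀ hcp, mul_comm]
      exact h4
    exact_mod_cast h6.trans (Nat.le_ceil _)
  exact h1.trans (Nat.pow_le_pow_left (Nat.mul_le_mul_left m h5) L)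

theorem finalP' (t : ℕ) (η : ℕ → ℕ) (hη : Tendsto η atTop atTop) : ∃ f : ℝ → ℝ → ℝ,
    (∀ x y, 1 ≤ x → 1 ≤ y → 1 ≤ f x y) ∧ (∀ y, StrictMono (fun x => f x y)) ∧
    (∀ x, StrictMono (fun y => f x y)) ∧
    ∀ (G : Type u) [Group G] [Finite G] [Nontrivial G],
      MinPowX η t (G ⧸ Rad G) → (∀ S ∈ Fac (G ⧸ Rad G), PrimOver t (Stab S)) →
      ((Rad G).index : ℝ) ≤ f (ll G) (oo (Rad G)) := by
  obtain ⟨B, hB⟩ := main_boundP'.{u} t η hη
  obtain ⟨f, h1, h2, h3, h4⟩ := exists_mono B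
  refine ⟨f, h1, h2, h3, ?_⟩
  intro G _ _ _ hmin hprim
  have h5 := hB G hmin hprim ⌈ll G⌉₊ ⌈((oo (Rad G) : ℕ) : ℝ)⌉₊ (Nat.le_ceil _) (by
    rw [Nat.ceil_natCast])
  have h6 := h4 (ll G) (oo (Rad G)) (ll_nonneg G) (Nat.cast_nonneg _)
  have h7 : ((Rad G).index : ℝ) ≤ (B ⌈ll G⌉₊ ⌈((oo (Rad G) : ℕ) : ℝ)⌉₊ : ℝ) := by
    exact_mod_cast h5
  exact h7.trans h6

end SR32
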