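import Pool.Agent.SR32.PTowerS64
import Pool.Agent.SR32.PTower
import Pool.Agent.SR32.DefsQ

/-!
# SR32/QTower: the tower lemma with the condition above the small subgroup only (helper89)
-/

namespace SR32.QTowerS89

universe u

theorem prim_of_inj {t : ℕ} {Γ : Type u} [Group Γ] {Δ : Subgroup Γ} (h : PrimOver t Δ)
    {G : Type u} [Group G] (f : G →* Γ) (hf : Function.Injective f) (Λ : Subgroup G)
    (hΛ : IsCoatom Λ) (hD : Δ ≤ Λ.map f) (ht : t < Λ.index) :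
    Λ.normalCore.index ≤ 2 ^ Λ.index ∨ Λ.index.factorial ≤ 2 * Λ.normalCore.index := by
  let e : G ≃* f.range := MonoidHom.ofInjective hf
  have hs : Function.Surjective e.symm.toMonoidHom := e.symm.surjective
  have hi : (Λ.comap e.symm.toMonoidHom).index = Λ.index :=
    Subgroup.index_comap_of_surjective _ hs
  have hk : (Λ.comap e.symm.toMonoidHom).normalCore.index = Λ.normalCore.index :=
    s64_core_index _ hs Λ
  have hc : IsCoatom (Λ.comap e.symm.toMonoidHom) := by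
    have := (OrderIso.isCoatom_iff (MulEquiv.comapSubgroup e.symm) Λ).mpr hΛ
    exact this
  have hD' : Δ ≤ (Λ.comap e.symm.toMonoidHom).map f.range.subtype := by
    intro d hd
    obtain ⟨l, hl, rfl⟩ := hD hd
    refine ⟨e l, ?_, rfl⟩
    show e.symm (e l) ∈ Λ
    rw [MulEquiv.symm_apply_apply]
    exact hl
  have := h f.range (Λ.comap e.symm.toMonoidHom) hc hD' (by rw [hi]; exact ht)
  rw [hi, hk] at this
  exact this

theorem prim_sub {t : ℕ} {Γ : Type u} [Group Γ] {Δ : Subgroup Γ} (h : PrimOver t Δ)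
    (Λ : Subgroup Γ) (hΔ : Δ ≤ Λ) : PrimOver t (Δ.subgroupOf Λ) := by
  intro M N hN hD ht
  refine prim_of_inj h (Λ.subtype.comp M.subtype)
    (fun a b hab => Subtype.ext (Subtype.ext hab)) N hN ?_ ht
  intro d hd
  obtain ⟨x, hx, hxd⟩ := hD (Subgroup.mem_subgroupOf.2 hd : (⟨d, hΔ hd⟩ : Λ) ∈ Δ.subgroupOf Λ)
  exact ⟨x, hx, congrArg Subtype.val hxd⟩

/-- the tower lemma, with the growth in one step as a hypothesis -/
theorem tower
    (grow : ∀ {t b v v' k : ℕ}, 2 ≤ b → 3 ≤ v' → Nat.multichoose v' b ≤ v →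
      v' ^ b ≤ v * k → (t < b → k ≤ 2 ^ b ∨ b.factorial ≤ 2 * k) →
      3 / 2 * Real.log v' ≤ Real.log v ∧
        ((b : ℝ) / 3 ≤ Real.log v ∨ b ≤ t ∨
          (t < b ∧ b.factorial ≤ 2 * k ∧ ((v' : ℝ) - 1) * Real.log 2 ≤ Real.log v)))
    (hPP : ∀ n, (PP n).card ≤ n)
    (t : ℕ) (ht : 4 ≤ t) (ε : ℝ) (hε : 0 < ε) : ∃ C : ℝ, 1 ≤ C ∧
    ∀ (Γ : Type u) [Group Γ] [Finite Γ] (Δ : Subgroup Γ), PrimOver t Δ → S64Tow C ε Δ := by
  obtain ⟨A, hA0, hA⟩ := card_div_LL_exp (ε / 18) (by positivity)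
  obtain ⟨V, hV⟩ : ∃ V : ℕ, ∀ v : ℕ, V ≤ v → 1 ≤ v ∧ 6 * A / ε ≤ Real.log v ∧
      3 * (A + ε / 18 * t) / ε ≤ Real.log v := by
    refine ⟨⌈Real.exp (max (6 * A / ε) (3 * (A + ε / 18 * t) / ε))⌉₊, fun v hv => ?_⟩
    have h1 : Real.exp (max (6 * A / ε) (3 * (A + ε / 18 * t) / ε)) ≤ v :=
      (Nat.le_ceil _).trans (by exact_mod_cast hv)
    have h2 : (0 : ℝ) < v := lt_of_lt_of_le (Real.exp_pos _) h1
    have h3 := (Real.le_log_iff_exp_le h2).mpr h1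
    refine ⟨by exact_mod_cast h2, (le_max_left _ _).trans h3, (le_max_right _ _).trans h3⟩
  have hC1 : (1 : ℝ) ≤ 2 ^ V := one_le_pow₀ (by norm_num)
  refine ⟨2 ^ V, hC1, ?_⟩
  have main : ∀ n : ℕ, ∀ (Γ : Type u) [Group Γ] [Finite Γ] (Δ : Subgroup Γ), Δ.index = n →
      PrimOver t Δ → S64Tow (2 ^ V) ε Δ := by
    intro n
    induction n using Nat.strong_induction_on with
    | _ n ih =>
      intro Γ _ _ Δ hn hP
      rcases Nat.lt_or_ge (orbC Γ (Γ ⧸ Δ) 3) V with hlt | hge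
      · exact s64_small hε le_rfl hPP Δ hlt
      obtain ⟨hv1, hvA, hvB⟩ := hV _ hge
      have hv1' : (1 : ℝ) ≤ (orbC Γ (Γ ⧸ Δ) 3 : ℝ) := by exact_mod_cast hv1
      rcases eq_top_or_exists_le_coatom Δ with htop | ⟨Λ, hΛ, hΔ⟩
      · refine ⟨1, Δ, Δ, Nat.one_pos, le_rfl, le_rfl, ?_, ?_, ?_, Or.inl rfl⟩
        · intro g x
          rw [htop]
          exact Subgroup.mem_top _
        · intro g _ x
          rw [htop]
          exact Subgroup.mem_top _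
        · have h6 : (1 : ℝ) ≤ (orbC Γ (Γ ⧸ Δ) 3 : ℝ) ^ ε := Real.one_le_rpow hv1' hε.le
          rw [Nat.divisors_one, Finset.card_singleton, Nat.cast_one]
          nlinarith
      · have hb0 : Λ.index ≠ 0 := Subgroup.index_ne_zero_of_finite
        have hb1 : Λ.index ≠ 1 := fun h => hΛ.1 (Subgroup.index_eq_one.mp h)
        have hb : 2 ≤ Λ.index := by omega
        have hm0 : (Δ.subgroupOf Λ).index ≠ 0 := Subgroup.index_ne_zero_of_finite
        have hv' : 3 ≤ orbC Λ (Λ ⧸ Δ.subgroupOf Λ) 3 := by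
          refine le_trans (s64_multi3 _ ?_) (orbC_multi Λ (Λ ⧸ Δ.subgroupOf Λ) 3)
          have : Nat.card (Λ ⧸ Δ.subgroupOf Λ) = (Δ.subgroupOf Λ).index := rfl
          omega
        have hm : (Δ.subgroupOf Λ).index < orbC Λ (Λ ⧸ Δ.subgroupOf Λ) 3 := by
          have h1 := orbC_multi Λ (Λ ⧸ Δ.subgroupOf Λ) 3
          have h2 := s64_multi (Nat.card (Λ ⧸ Δ.subgroupOf Λ))
          have : Nat.card (Λ ⧸ Δ.subgroupOf Λ) = (Δ.subgroupOf Λ).index := rfl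
          omega
        have hT := orbC_tower Δ Λ hΔ
        have h1 : Nat.multichoose (orbC Λ (Λ ⧸ Δ.subgroupOf Λ) 3) Λ.index ≤
            orbC Γ (Γ ⧸ Δ) 3 := (orbC_multi Γ (Γ ⧸ Λ) _).trans hT
        have h2 : (orbC Λ (Λ ⧸ Δ.subgroupOf Λ) 3) ^ Λ.index ≤
            orbC Γ (Γ ⧸ Δ) 3 * Λ.normalCore.index :=
          (orbC_core Λ _).trans (Nat.mul_le_mul_right _ hT)
        have h3 : t < Λ.index → Λ.normalCore.index ≤ 2 ^ Λ.index ∨
            Λ.index.factorial ≤ 2 * Λ.normalCore.index := fun h =>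
          prim_of_inj hP (MonoidHom.id Γ) (fun a b hab => hab) Λ hΛ (by rw [Subgroup.map_id]; exact hΔ) h
        obtain ⟨hg, hcase⟩ := grow hb hv' h1 h2 h3
        have hidx : (Δ.subgroupOf Λ).index < n := by
          have h4 : Δ.relIndex Λ * Λ.index = Δ.index := Subgroup.relIndex_mul_index hΔ
          have h5 : Δ.relIndex Λ = (Δ.subgroupOf Λ).index := rfl
          rw [h5, hn] at h4
          rw [← h4]
          have : 0 < (Δ.subgroupOf Λ).index := Nat.pos_of_ne_zero hm0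
          nlinarith
        have hv'1 : (1 : ℝ) ≤ (orbC Λ (Λ ⧸ Δ.subgroupOf Λ) 3 : ℝ) := by
          have : 1 ≤ orbC Λ (Λ ⧸ Δ.subgroupOf Λ) 3 := by omega
          exact_mod_cast this
        have hstep : ((Λ.index : ℝ) / 3 ≤ Real.log (orbC Γ (Γ ⧸ Δ) 3 : ℝ) ∨ Λ.index ≤ t) →
            S64Tow (2 ^ V) ε Δ := by
          intro hc
          refine s64_step Δ Λ hΔ (ih _ hidx Λ (Δ.subgroupOf Λ) rfl (prim_sub hP Λ hΔ)) ?_
          have h7 := s64_numA hε rfl hv1' hv'1 (hA Λ.index) hg hvA hvB hc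
          have h8 : (0 : ℝ) ≤ 2 ^ V := by positivity
          calc ((LL Λ.index).divisors.card : ℝ) *
                (2 ^ V * (orbC Λ (Λ ⧸ Δ.subgroupOf Λ) 3 : ℝ) ^ ε)
              = 2 ^ V * (((LL Λ.index).divisors.card : ℝ) *
                (orbC Λ (Λ ⧸ Δ.subgroupOf Λ) 3 : ℝ) ^ ε) := by ring
            _ ≤ 2 ^ V * (orbC Γ (Γ ⧸ Δ) 3 : ℝ) ^ ε := mul_le_mul_of_nonneg_left h7 h8
        rcases hcase with hc | hc | ⟨hc1, hc2, hc3⟩
        · exact hstep (Or.inl hc)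
        · exact hstep (Or.inr hc)
        · exact s64_exc ht Δ Λ hΔ hc1 hc2
            (s64_numB hε rfl hC1 hv1' hm (hA _) hc3 hvA)
  intro Γ _ _ Δ hP
  exact main _ Γ Δ rfl hP


theorem family (t : ℕ)
    (htower : ∀ ε : ℝ, 0 < ε → ∃ C : ℝ, 1 ≤ C ∧
      ∀ (Γ : Type u) [Group Γ] [Finite Γ] (Δ : Subgroup Γ), PrimOver t Δ →
      ∃ (E : ℕ) (I O : Subgroup Γ), 0 < E ∧ Δ ≤ I ∧ I ≤ O ∧
        (∀ g x : Γ, x⁻¹ * g ^ E * x ∈ O) ∧
        (∀ g : Γ, (∀ x : Γ, x⁻¹ * g * x ∈ I) → ∀ x : Γ, x⁻¹ * g ^ E * x ∈ Δ) ∧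
        (E.divisors.card : ℝ) ≤ C * (orbC Γ (Γ ⧸ Δ) 3 : ℝ) ^ ε ∧ AltLayer I O)
    (ε : ℝ) (hε : 0 < ε) : ∃ C : ℝ, 1 ≤ C ∧
    ∀ (Γ : Type u) [Group Γ] [Finite Γ] (a : ℕ) (D : Fin a → Subgroup Γ),
    (∀ i, PrimOver t (D i)) →
    ∃ (E : ℕ) (I O : Fin a → Subgroup Γ), 0 < E ∧ (∀ i, D i ≤ I i) ∧ (∀ i, I i ≤ O i) ∧
      (∀ i, ∀ g x : Γ, x⁻¹ * g ^ E * x ∈ O i) ∧
      (∀ i, ∀ g : Γ, (∀ x : Γ, x⁻¹ * g * x ∈ I i) → ∀ x : Γ, x⁻¹ * g ^ E * x ∈ D i) ∧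
      (E.divisors.card : ℝ) ≤ C * (∏ i, (orbC Γ (Γ ⧸ D i) 3 : ℝ)) ^ ε ∧
      ∀ i, AltLayer (I i) (O i) := by
  classical
  obtain ⟨C, hC1, hC⟩ := htower (ε / 2) (by positivity)
  have hC0 : 0 < C := by linarith
  -- the threshold
  obtain ⟨V2, hV2⟩ : ∃ V2 : ℕ, ∀ v : ℕ, V2 ≤ v → C ≤ (v : ℝ) ^ (ε / 2) := by
    have h1 : Filter.Tendsto (fun v : ℕ => (v : ℝ) ^ (ε / 2)) Filter.atTop Filter.atTop :=
      (tendsto_rpow_atTop (by positivity)).comp tendsto_natCast_atTop_atTop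
    obtain ⟨V2, h2⟩ := Filter.eventually_atTop.1 (h1.eventually (Filter.eventually_ge_atTop C))
    exact ⟨V2, h2⟩
  have hd1 : (1 : ℝ) ≤ ((LL V2).divisors.card : ℝ) := by
    have : 0 < (LL V2).divisors.card := Finset.card_pos.2 ⟨1, Nat.one_mem_divisors.2 (LL_pos V2).ne'⟩
    exact_mod_cast this
  refine ⟨((LL V2).divisors.card : ℝ), hd1, ?_⟩
  intro Γ _ _ a D hP
  -- data of all members
  have hdata : ∀ i : Fin a, ∃ (E : ℕ) (I O : Subgroup Γ), 0 < E ∧ D i ≤ I ∧ I ≤ O ∧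
      (∀ g x : Γ, x⁻¹ * g ^ E * x ∈ O) ∧
      (∀ g : Γ, (∀ x : Γ, x⁻¹ * g * x ∈ I) → ∀ x : Γ, x⁻¹ * g ^ E * x ∈ D i) ∧
      (E.divisors.card : ℝ) ≤ C * (orbC Γ (Γ ⧸ D i) 3 : ℝ) ^ (ε / 2) ∧ AltLayer I O :=
    fun i => hC Γ (D i) (hP i)
  choose E I O hE hDI hIO hO hI hd hA using hdata
  have hone : ∀ i, (1 : ℝ) ≤ (orbC Γ (Γ ⧸ D i) 3 : ℝ) := by
    intro i
    have h1 : 0 < (D i).index := Nat.pos_of_ne_zero (D i).index_ne_zero_of_finite
    have h2 := index_le_orbC38 (D i)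
    exact_mod_cast h1.trans_le h2
  let B : Finset (Fin a) := Finset.univ.filter fun i => V2 ≤ orbC Γ (Γ ⧸ D i) 3
  let EE : ℕ := LL V2 * ∏ i ∈ B, E i
  have hEE : 0 < EE := Nat.mul_pos (LL_pos V2) (Finset.prod_pos fun i _ => hE i)
  have hdvd1 : ∀ i ∈ B, E i ∣ EE := fun i hi =>
    (Finset.dvd_prod_of_mem E hi).trans (Nat.dvd_mul_left _ _)
  have hdvd2 : ∀ i, i ∉ B → LL (D i).index ∣ EE := by
    intro i hi
    have h1 : orbC Γ (Γ ⧸ D i) 3 < V2 := by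
      by_contra h
      exact hi (Finset.mem_filter.2 ⟨Finset.mem_univ _, not_lt.1 h⟩)
    exact (LL_dvd ((index_le_orbC38 (D i)).trans h1.le)).trans (Nat.dvd_mul_right _ _)
  have hlow : ∀ i, i ∉ B → ∀ g x : Γ, x⁻¹ * g ^ EE * x ∈ D i := by
    intro i hi g x
    obtain ⟨m, hm⟩ := hdvd2 i hi
    rw [hm, mul_comm, pow_mul]
    exact pow_LL_mem (D i) (g ^ m) x
  refine ⟨EE, fun i => if i ∈ B then I i else D i, fun i => if i ∈ B then O i else D i, hEE,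
    ?_, ?_, ?_, ?_, ?_, ?_⟩
  · intro i
    by_cases hi : i ∈ B
    · simp only [if_pos hi]
      exact hDI i
    · simp only [if_neg hi]
      exact le_rfl
  · intro i
    by_cases hi : i ∈ B
    · simp only [if_pos hi]
      exact hIO i
    · simp only [if_neg hi]
      exact le_rfl
  · intro i g x
    by_cases hi : i ∈ B
    · simp only [if_pos hi]
      obtain ⟨m, hm⟩ := hdvd1 i hi
      rw [hm, mul_comm, pow_mul]
      exact hO i (g ^ m) x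
    · simp only [if_neg hi]
      exact hlow i hi g x
  · intro i g hg x
    by_cases hi : i ∈ B
    · simp only [if_pos hi] at hg
      obtain ⟨m, hm⟩ := hdvd1 i hi
      rw [hm, mul_comm, pow_mul]
      refine hI i (g ^ m) (fun y => ?_) x
      rw [conj_pow38]
      exact (I i).pow_mem (hg y) m
    · exact hlow i hi g x
  · -- divisors
    have h1 : (EE.divisors.card : ℝ) ≤
        ((LL V2).divisors.card : ℝ) * ∏ i ∈ B, ((E i).divisors.card : ℝ) := by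
      have h2 : EE.divisors.card ≤ (LL V2).divisors.card * ∏ i ∈ B, (E i).divisors.card :=
        (card_div_mul _ _).trans (Nat.mul_le_mul_left _ (card_div_prod38 _ _))
      exact_mod_cast h2
    refine h1.trans (mul_le_mul_of_nonneg_left ?_ (by linarith))
    calc ∏ i ∈ B, ((E i).divisors.card : ℝ)
        ≤ ∏ i ∈ B, (orbC Γ (Γ ⧸ D i) 3 : ℝ) ^ ε := by
          refine Finset.prod_le_prod (fun i _ => Nat.cast_nonneg _) fun i hi => ?_
          have h3 : V2 ≤ orbC Γ (Γ ⧸ D i) 3 := (Finset.mem_filter.1 hi).2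
          have h4 := hV2 _ h3
          have h5 : (0 : ℝ) < (orbC Γ (Γ ⧸ D i) 3 : ℝ) := lt_of_lt_of_le one_pos (hone i)
          calc ((E i).divisors.card : ℝ) ≤ C * (orbC Γ (Γ ⧸ D i) 3 : ℝ) ^ (ε / 2) := hd i
            _ ≤ (orbC Γ (Γ ⧸ D i) 3 : ℝ) ^ (ε / 2) * (orbC Γ (Γ ⧸ D i) 3 : ℝ) ^ (ε / 2) :=
              mul_le_mul_of_nonneg_right h4 (Real.rpow_nonneg h5.le _)
            _ = (orbC Γ (Γ ⧸ D i) 3 : ℝ) ^ ε := by
              rw [← Real.rpow_add h5]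
              congr 1
              ring
      _ ≤ ∏ i, (orbC Γ (Γ ⧸ D i) 3 : ℝ) ^ ε := by
          refine Finset.prod_le_prod_of_subset_of_one_le (Finset.subset_univ B)
            (fun i _ => Real.rpow_nonneg (by linarith [hone i]) _) fun i _ _ => ?_
          exact Real.one_le_rpow (hone i) hε.le
      _ = (∏ i, (orbC Γ (Γ ⧸ D i) 3 : ℝ)) ^ ε :=
          Real.finsetProd_rpow _ _ (fun i _ => by linarith [hone i]) _
  · intro i
    by_cases hi : i ∈ B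
    · simp only [if_pos hi]
      exact hA i
    · simp only [if_neg hi]
      exact Or.inl rfl


end SR32.QTowerS89
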