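import Pool.Agent.SR32.Quot
import Pool.Agent.SR32.DefsU

/-!
# Characteristic series of a group: sections against the whole group

`SerC t H`: there are characteristic subgroups `1 = U_0 ≤ U_1 ≤ ... ≤ U_t = H` of `H` whose factors
`U_(i+1) / U_i` are `t`-good.
-/

namespace SR32

universe u

/-- There are characteristic subgroups `1 = U_0 ≤ U_1 ≤ ... ≤ U_t = H` of `H` whose factors
`U_(i+1) / U_i` are `t`-good. -/
def SerC (t : ℕ) (H : Type u) [Group H] : Prop :=
  ∃ (U : ℕ → Subgroup H) (_ : ∀ i, (U i).Characteristic), Monotone U ∧ U 0 = ⊥ ∧ U t = ⊤ ∧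
    ∀ i < t, Good t (U (i + 1) ⧸ (U i).subgroupOf (U (i + 1)))

/-- The number of automorphism orbits of a characteristic section is at most that of the group. -/
theorem om_section_le {H : Type*} [Group H] [Finite H] (N M : Subgroup H) [N.Characteristic]
    [M.Characteristic] : om (M ⧸ N.subgroupOf M) ≤ om H := by
  classical
  unfold om
  have hfin : Finite (MulAction.orbitRel.Quotient (MulAut H) H) := Quotient.finite _
  -- the induced automorphism of the section
  have key : ∀ φ : MulAut H, ∀ x y : H, ∀ hx : x ∈ M, ∀ hy : y ∈ M, φ y = x →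
      ∃ ψ : MulAut (M ⧸ N.subgroupOf M), ψ ((⟨y, hy⟩ : M) : M ⧸ N.subgroupOf M) =
        ((⟨x, hx⟩ : M) : M ⧸ N.subgroupOf M) := by
    intro φ x y hx hy hxy
    have hM : M.map (φ : H ≃* H).toMonoidHom = M :=
      Subgroup.characteristic_iff_map_eq.1 inferInstance φ
    have hN : N.map (φ : H ≃* H).toMonoidHom = N :=
      Subgroup.characteristic_iff_map_eq.1 inferInstance φ
    let e : M ≃* M := ((φ : H ≃* H).subgroupMap M).trans (MulEquiv.subgroupCongr hM)
    have he : ∀ z : M, ((e z : M) : H) = φ (z : H) := fun z => rfl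
    have hmap : (N.subgroupOf M).map e.toMonoidHom = N.subgroupOf M := by
      ext z
      rw [Subgroup.mem_map]
      constructor
      · rintro ⟨w, hw, rfl⟩
        rw [Subgroup.mem_subgroupOf] at hw ⊢
        have h1 : φ (w : H) ∈ N.map (φ : H ≃* H).toMonoidHom := ⟨_, hw, rfl⟩
        rw [hN] at h1
        exact h1
      · intro hz
        rw [Subgroup.mem_subgroupOf] at hz
        refine ⟨e.symm z, ?_, e.apply_symm_apply z⟩
        rw [Subgroup.mem_subgroupOf]
        have h1 : (z : H) ∈ N.map (φ : H ≃* H).toMonoidHom := by rw [hN]; exact hz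
        obtain ⟨w, hw, hwz⟩ := h1
        have h2 : φ ((e.symm z : M) : H) = (z : H) := by
          rw [← he, e.apply_symm_apply]
        have h3 : ((e.symm z : M) : H) = w := φ.injective (h2.trans hwz.symm)
        rw [h3]
        exact hw
    refine ⟨QuotientGroup.congr (N.subgroupOf M) (N.subgroupOf M) e hmap, ?_⟩
    change ((e ⟨y, hy⟩ : M) : M ⧸ N.subgroupOf M) = _
    have h4 : e ⟨y, hy⟩ = ⟨x, hx⟩ := Subtype.ext hxy
    rw [h4]
  let f : H → MulAction.orbitRel.Quotient (MulAut (M ⧸ N.subgroupOf M)) (M ⧸ N.subgroupOf M) :=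
    fun x => if hx : x ∈ M then Quotient.mk'' ((⟨x, hx⟩ : M) : M ⧸ N.subgroupOf M)
      else Quotient.mk'' 1
  have hf : ∀ a b : H, MulAction.orbitRel (MulAut H) H a b → f a = f b := by
    intro a b hab
    rw [MulAction.orbitRel_apply] at hab
    obtain ⟨φ, hφ⟩ := hab
    have hφ' : φ b = a := hφ
    have hM : ∀ z : H, z ∈ M → φ z ∈ M := by
      intro z hz
      have h1 : φ z ∈ M.map (φ : H ≃* H).toMonoidHom := ⟨z, hz, rfl⟩
      rwa [Subgroup.characteristic_iff_map_eq.1 inferInstance φ] at h1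
    have hM' : ∀ z : H, φ z ∈ M → z ∈ M := by
      intro z hz
      have h1 : φ z ∈ M.map (φ : H ≃* H).toMonoidHom := by
        rw [Subgroup.characteristic_iff_map_eq.1 inferInstance φ]; exact hz
      obtain ⟨w, hw, hwz⟩ := h1
      rwa [← φ.injective hwz]
    by_cases hb : b ∈ M
    · have ha : a ∈ M := by rw [← hφ']; exact hM b hb
      simp only [f, dif_pos ha, dif_pos hb]
      obtain ⟨ψ, hψ⟩ := key φ a b ha hb hφ'
      apply Quotient.sound'
      rw [MulAction.orbitRel_apply]
      exact ⟨ψ, hψ⟩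
    · have ha : a ∉ M := fun h => hb (hM' b (by rw [hφ']; exact h))
      simp only [f, dif_neg ha, dif_neg hb]
  apply Nat.card_le_card_of_surjective (Quotient.lift (s := MulAction.orbitRel (MulAut H) H) f hf)
  intro q
  induction q using Quotient.inductionOn' with
  | h y =>
    obtain ⟨x, rfl⟩ := QuotientGroup.mk_surjective y
    refine ⟨Quotient.mk'' (x : H), ?_⟩
    change f (x : H) = _
    simp only [f, dif_pos x.2]

/-- The orders of the elements of a group with a normal series. -/
theorem oo_le_prod {H : Type*} [Group H] [Finite H] (U : ℕ → Subgroup H)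
    (hU : ∀ i, (U i).Normal) (hm : Monotone U) (h0 : U 0 = ⊥) (t : ℕ) :
    oo (U t) ≤ ∏ i ∈ Finset.range t, oo (U (i + 1) ⧸ (U i).subgroupOf (U (i + 1))) := by
  induction t with
  | zero =>
    rw [Finset.prod_range_zero, h0]
    unfold oo
    have : Set.range (fun g : (⊥ : Subgroup H) => orderOf g) ⊆ {1} := by
      rintro _ ⟨g, rfl⟩
      rw [Set.mem_singleton_iff, Subsingleton.elim g 1]
      exact orderOf_one
    exact (Set.ncard_le_ncard this (Set.finite_singleton 1)).trans (Set.ncard_singleton 1).le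
  | succ t ih =>
    rw [Finset.prod_range_succ, mul_comm]
    refine (oo_le_mul ((U t).subgroupOf (U (t + 1)))).trans (Nat.mul_le_mul_left _ ?_)
    rw [oo_congr (Subgroup.subgroupOfEquivOfLe (hm (Nat.le_succ t)))]
    exact ih

/-- If `om Q ≥ c * oo Q ^ Λ` for all `t`-good groups `Q`, then `om H ^ t ≥ c ^ t * oo H ^ Λ` for all
groups with a characteristic series of length `t` with `t`-good factors. -/
theorem om_pow_ge_of_SerC {t Λ : ℕ} {c : ℝ} (hc : 0 ≤ c)
    (hg : ∀ (Q : Type u) [Group Q] [Finite Q], Good t Q → c * (oo Q : ℝ) ^ Λ ≤ (om Q : ℝ))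
    (H : Type u) [Group H] [Finite H] (hH : SerC t H) :
    c ^ t * (oo H : ℝ) ^ Λ ≤ (om H : ℝ) ^ t := by
  obtain ⟨U, hU, hm, h0, ht, hG⟩ := hH
  have h1 : (oo H : ℝ) ≤ ∏ i ∈ Finset.range t,
      (oo (U (i + 1) ⧸ (U i).subgroupOf (U (i + 1))) : ℝ) := by
    have h2 := oo_le_prod U (fun i => inferInstance) hm h0 t
    rw [ht, oo_congr (Subgroup.topEquiv (G := H))] at h2
    exact_mod_cast h2
  calc c ^ t * (oo H : ℝ) ^ Λ
      ≤ c ^ t * (∏ i ∈ Finset.range t,
          (oo (U (i + 1) ⧸ (U i).subgroupOf (U (i + 1))) : ℝ)) ^ Λ :=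
        mul_le_mul_of_nonneg_left (pow_le_pow_left₀ (Nat.cast_nonneg _) h1 Λ) (pow_nonneg hc t)
    _ = ∏ i ∈ Finset.range t,
          (c * (oo (U (i + 1) ⧸ (U i).subgroupOf (U (i + 1))) : ℝ) ^ Λ) := by
        rw [Finset.prod_mul_distrib, Finset.prod_const, Finset.card_range, Finset.prod_pow]
    _ ≤ ∏ i ∈ Finset.range t, (om H : ℝ) := by
        apply Finset.prod_le_prod
        · intro i _
          positivity
        · intro i hi
          refine (hg _ (hG i (Finset.mem_range.1 hi))).trans ?_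
          exact_mod_cast om_section_le (U i) (U (i + 1))
    _ = (om H : ℝ) ^ t := by rw [Finset.prod_const, Finset.card_range]

end SR32
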