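import Pool.Agent.SR32.Defs

/-!
# SR32/Struct: a finite group whose minimal normal subgroups are alternating groups

If every minimal normal subgroup of the finite group `H` is an alternating group of degree at least
five, then the socle of `H` is the direct product of the minimal normal subgroups, its centralizer
is trivial, and conjugation by an element of `H` fixes each of the factors.
-/

namespace SR32

/-- A nontrivial normal subgroup of a finite group contains a minimal normal subgroup. -/
private theorem struct_exists_le {H : Type*} [Group H] [Finite H] (K : Subgroup H)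
    (hK : K.Normal) (hne : K ≠ ⊥) : ∃ M : Subgroup H, IsMinNormal M ∧ M ≤ K := by
  have hfin : Set.Finite {M : Subgroup H | M.Normal ∧ M ≠ ⊥ ∧ M ≤ K} := Set.toFinite _
  obtain ⟨M, hM⟩ := hfin.exists_minimal ⟨K, hK, hne, le_rfl⟩
  refine ⟨M, ⟨hM.prop.1, hM.prop.2.1, ?_⟩, hM.prop.2.2⟩
  intro L hL hLM
  by_cases h : L = ⊥
  · exact Or.inl h
  · exact Or.inr (le_antisymm hLM (hM.le_of_le ⟨hL, h, hLM.trans hM.prop.2.2⟩ hLM))

/-- A subgroup isomorphic to an alternating group of degree at least five is not contained in its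
centralizer. -/
private theorem struct_not_le_centralizer {H : Type*} [Group H] (M : Subgroup H)
    (hM : ∃ d : ℕ, 5 ≤ d ∧ Nonempty (M ≃* A d)) : ¬ M ≤ Subgroup.centralizer (M : Set H) := by
  intro hle
  obtain ⟨d, hd, ⟨e⟩⟩ := hM
  have hc : Subgroup.center (A d) = ⊥ :=
    alternatingGroup.center_eq_bot (by rw [Nat.card_eq_fintype_card, Fintype.card_fin]; omega)
  have hall : ∀ x : A d, x = 1 := by
    intro x
    have hx : x ∈ Subgroup.center (A d) := by
      rw [Subgroup.mem_center_iff]
      intro y
      obtain ⟨u, rfl⟩ := e.surjective x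
      obtain ⟨v, rfl⟩ := e.surjective y
      rw [← map_mul, ← map_mul]
      congr 1
      apply Subtype.ext
      have h1 := hle u.2
      rw [Subgroup.mem_centralizer_iff] at h1
      exact h1 v.1 v.2
    rw [hc] at hx
    exact (Subgroup.mem_bot).1 hx
  have hnt : Nontrivial (A d) := by
    apply alternatingGroup.nontrivial_of_three_le_card
    rw [Nat.card_eq_fintype_card, Fintype.card_fin]
    omega
  obtain ⟨x, hx⟩ := exists_ne (1 : A d)
  exact hx (hall x)

private theorem struct_iSup_normal {H : Type*} [Group H] {ι : Sort*} (M : ι → Subgroup H)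
    (h : ∀ i, (M i).Normal) : (⨆ i, M i).Normal :=
  Subgroup.iSup_normal M

theorem structure_thm {H : Type*} [Group H] [Finite H]
    (hmin : ∀ M : Subgroup H, IsMinNormal M → ∃ d : ℕ, 5 ≤ d ∧ Nonempty (M ≃* A d)) :
    ∃ N : Subgroup H, N.Characteristic ∧ Subgroup.centralizer (N : Set H) = ⊥ ∧
      ∃ (r : ℕ) (n : Fin r → ℕ) (e : (∀ i, A (n i)) ≃* N), (∀ i, 5 ≤ n i) ∧
        ∀ (h : H) (i : Fin r) (x : A (n i)), ∃ y : A (n i),
          h * (e (Pi.mulSingle i x) : H) * h⁻¹ = (e (Pi.mulSingle i y) : H) := by
  classical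
  have hfin : Finite {M : Subgroup H // IsMinNormal M} := inferInstance
  obtain ⟨r, ⟨E⟩⟩ := Finite.exists_equiv_fin {M : Subgroup H // IsMinNormal M}
  set M : Fin r → Subgroup H := fun i => (E.symm i).1 with hMdef
  have hM : ∀ i, IsMinNormal (M i) := fun i => (E.symm i).2
  have hMinj : Function.Injective M := fun i j hij => E.symm.injective (Subtype.ext hij)
  have hMsurj : ∀ K : Subgroup H, IsMinNormal K → ∃ i, M i = K := fun K hK =>
    ⟨E ⟨K, hK⟩, by simp [hMdef]⟩
  have hnorm : ∀ i, (M i).Normal := fun i => (hM i).1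
  -- distinct factors meet trivially
  have hdisj : ∀ i j, i ≠ j → Disjoint (M i) (M j) := by
    intro i j hij
    rw [disjoint_iff]
    have hn : (M i ⊓ M j).Normal := Subgroup.normal_inf_normal _ _
    rcases (hM i).2.2 _ hn inf_le_left with h | h
    · exact h
    · exfalso
      have hle : M i ≤ M j := inf_eq_left.1 h
      rcases (hM j).2.2 _ (hnorm i) hle with h1 | h1
      · exact (hM i).2.1 h1
      · exact hij (hMinj h1)
  have hcomm : Pairwise fun i j : Fin r => ∀ x y : H, x ∈ M i → y ∈ M j → Commute x y := by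
    intro i j hij x y hx hy
    exact Subgroup.commute_of_normal_of_disjoint _ _ (hnorm i) (hnorm j) (hdisj i j hij) x y hx hy
  have hcent : ∀ i j, i ≠ j → M j ≤ Subgroup.centralizer (M i : Set H) := by
    intro i j hij y hy
    rw [Subgroup.mem_centralizer_iff]
    intro x hx
    exact hcomm hij x y hx hy
  have hind : iSupIndep M := by
    intro i
    rw [disjoint_iff]
    have hn2 : (⨆ j, ⨆ (_ : j ≠ i), M j).Normal := by
      exact struct_iSup_normal _ fun j => struct_iSup_normal _ fun _ => hnorm j
    have hn : (M i ⊓ ⨆ j, ⨆ (_ : j ≠ i), M j).Normal := Subgroup.normal_inf_normal _ _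
    rcases (hM i).2.2 _ hn inf_le_left with h | h
    · exact h
    · exfalso
      have hle : M i ≤ ⨆ j, ⨆ (_ : j ≠ i), M j := inf_eq_left.1 h
      have hle2 : (⨆ j, ⨆ (_ : j ≠ i), M j) ≤ Subgroup.centralizer (M i : Set H) :=
        iSup_le fun j => iSup_le fun hj => hcent i j (Ne.symm hj)
      exact struct_not_le_centralizer (M i) (hmin _ (hM i)) (hle.trans hle2)
  choose n hn5 hne using fun i => hmin (M i) (hM i)
  let ε : ∀ i, M i ≃* A (n i) := fun i => (hne i).some
  have hinj : Function.Injective (Subgroup.noncommPiCoprod hcomm) :=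
    Subgroup.injective_noncommPiCoprod_of_iSupIndep hind
  refine ⟨(Subgroup.noncommPiCoprod hcomm).range, ?_, ?_, r, n,
    (MulEquiv.piCongrRight fun i => (ε i).symm).trans (MonoidHom.ofInjective hinj), hn5, ?_⟩
  · rw [Subgroup.noncommPiCoprod_range, Subgroup.characteristic_iff_map_le]
    intro φ
    rw [Subgroup.map_iSup]
    refine iSup_le fun i => ?_
    have hmn : IsMinNormal ((M i).map φ.toMonoidHom) := by
      refine ⟨(hnorm i).map _ φ.surjective, ?_, ?_⟩
      · intro h
        exact (hM i).2.1 ((Subgroup.map_eq_bot_iff_of_injective _ φ.injective).1 h)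
      · intro K hK hle
        have h1 : (K.comap φ.toMonoidHom).Normal := hK.comap _
        have h2 : K.comap φ.toMonoidHom ≤ M i := by
          have := Subgroup.comap_mono (f := φ.toMonoidHom) hle
          rwa [Subgroup.comap_map_eq_self_of_injective φ.injective] at this
        have h3 : (K.comap φ.toMonoidHom).map φ.toMonoidHom = K :=
          Subgroup.map_comap_eq_self_of_surjective φ.surjective K
        rcases (hM i).2.2 _ h1 h2 with h | h
        · left
          rw [← h3, h, Subgroup.map_bot]
        · right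
          rw [← h3, h]
    obtain ⟨j, hj⟩ := hMsurj _ hmn
    rw [← hj]
    exact le_iSup M j
  · rw [Subgroup.noncommPiCoprod_range]
    by_contra hne1
    have hN : (⨆ i, M i).Normal := struct_iSup_normal _ hnorm
    obtain ⟨K, hK, hKle⟩ := struct_exists_le (Subgroup.centralizer ((⨆ i, M i : Subgroup H) : Set H))
      inferInstance hne1
    obtain ⟨i, rfl⟩ := hMsurj K hK
    refine struct_not_le_centralizer (M i) (hmin _ (hM i)) (hKle.trans ?_)
    exact Subgroup.centralizer_le (SetLike.coe_subset_coe.2 (le_iSup M i))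
  · intro h i x
    have hsingle : ∀ z : A (n i), ((((MulEquiv.piCongrRight fun i => (ε i).symm).trans
        (MonoidHom.ofInjective hinj)) (Pi.mulSingle i z) :
          (Subgroup.noncommPiCoprod hcomm).range) : H) = ((ε i).symm z : H) := by
      intro z
      have h1 : (MulEquiv.piCongrRight fun i => (ε i).symm) (Pi.mulSingle i z) =
          Pi.mulSingle i ((ε i).symm z) := by
        funext k
        by_cases hk : k = i
        · subst hk
          simp
        · simp [Pi.mulSingle_eq_of_ne hk]
      rw [MulEquiv.trans_apply, h1]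
      show Subgroup.noncommPiCoprod hcomm (Pi.mulSingle i ((ε i).symm z)) = _
      rw [Subgroup.noncommPiCoprod_mulSingle]
    have hmem : h * ((ε i).symm x : H) * h⁻¹ ∈ M i := (hnorm i).conj_mem _ ((ε i).symm x).2 h
    refine ⟨ε i ⟨_, hmem⟩, ?_⟩
    rw [hsingle, hsingle, MulEquiv.symm_apply_apply]

end SR32
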