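import Pool.Agent.SR32.UGood
import Pool.Agent.SR32.USupp
import Pool.Agent.SR32.URad
import Pool.Agent.SR32.UPow
import Pool.Agent.SR32.USerS92
import Pool.Agent.SR32.FinalT

/-!
# The bound for the index of the soluble radical, characteristic series
-/

set_option autoImplicit false

namespace SR32

universe u

/-- Few automorphism classes bound the order. -/
theorem bound_of_om (Ω t : ℕ) : ∃ B : ℕ, ∀ (H : Type u) [Group H] [Finite H],
    (∀ M : Subgroup H, IsMinNormal M → ∃ x ∈ M, ∃ y ∈ M, x * y ≠ y * x) →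
    (∀ M : Subgroup H, IsMinNormal M →
      Nat.card M ≤ t ∨ ∃ d s : ℕ, 5 ≤ d ∧ Nonempty (M ≃* (Fin s → A d))) →
    om H ≤ Ω → Nat.card H ≤ B := by
  classical
  obtain ⟨B, hB⟩ := card_boundT 1 Ω 0
  refine ⟨B ^ B * (t ^ t) ^ Ω, ?_⟩
  intro H _ _ hna hmin hom
  obtain ⟨a, M, d, s, hinj, hM, haut, h5, hR, hiso, hall⟩ := enum_min (H := H) (fun _ s => 1 ≤ s)
  obtain ⟨hchar, e, hn⟩ := structure_enum a M hinj hM haut d s h5 hiso
  have hnorm : (⨆ j, M j : Subgroup H).Normal := inferInstance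
  have h1 : om (⨆ j, M j : Subgroup H) ≤ Ω := (om_char_le _).trans hom
  rw [← om_congr e] at h1
  have h2 : Nat.card (⨆ j, M j : Subgroup H) ≤ B := by
    rw [← Nat.card_congr e.toEquiv]
    apply hB a d s h5 hR
    rw [pow_one, mul_assoc]
    refine h1.trans (Nat.le_mul_of_pos_right Ω ?_)
    apply Nat.mul_pos
    · exact oo_pos _
    · exact Finset.prod_pos (fun e _ => QQ_card_pos _ _)
  have hB1 : 1 ≤ B := le_trans Nat.card_pos h2
  set W : Set (Subgroup H) := {M | IsMinNormal M ∧ Nat.card M ≤ t} with hW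
  have h3 : W.ncard + 1 ≤ om H := by
    apply card_le_om W (fun M hM => hM.1) (fun M hM => hna M hM.1)
    intro φ M hM
    refine ⟨st_map_min φ hM.1, ?_⟩
    have hcard : Nat.card M = Nat.card (M.map φ.toMonoidHom) :=
      Nat.card_congr (φ.subgroupMap M).toEquiv
    rw [← hcard]
    exact hM.2
  have h4 : Nat.card H ≤ Nat.card (⨆ j, M j : Subgroup H) ^ Nat.card (⨆ j, M j : Subgroup H) *
      (t ^ t) ^ W.ncard := by
    apply card_le_embed (⨆ j, M j : Subgroup H) W (fun M hM => hM.1.1) t (fun M hM => hM.2)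
    intro z hz1 hz2
    apply eq_one_of_centralize hna
    intro K hK y hy
    rcases hmin K hK with h | ⟨d', s', hd', ⟨e'⟩⟩
    · exact hz2 K ⟨hK, h⟩ y hy
    · apply hz1
      obtain ⟨j, hj⟩ := hall K hK ⟨d', s', hd', by
        rcases Nat.eq_zero_or_pos s' with h0 | h0
        · exfalso
          subst h0
          apply hK.2.1
          rw [Subgroup.eq_bot_iff_forall]
          intro x hx
          have : (⟨x, hx⟩ : K) = 1 := e'.injective (Subsingleton.elim _ _)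
          exact congrArg Subtype.val this
        · exact h0, ⟨e'⟩⟩
      rw [← hj] at hy
      exact (le_iSup M j) hy
  refine h4.trans ?_
  have ht : 1 ≤ t ^ t := by
    rcases Nat.eq_zero_or_pos t with h0 | h0
    · rw [h0]; simp
    · exact Nat.one_le_pow _ _ h0
  apply Nat.mul_le_mul
  · exact (Nat.pow_le_pow_left h2 _).trans (Nat.pow_le_pow_right hB1 h2)
  · apply Nat.pow_le_pow_right ht
    omega

/-- Few automorphism classes bound the order, for direct powers of simple groups that are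
alternating or of order at most `t`. -/
theorem bound_of_om' (Ω t : ℕ) : ∃ B : ℕ, ∀ (H : Type u) [Group H] [Finite H],
    (∀ M : Subgroup H, IsMinNormal M → ∃ x ∈ M, ∃ y ∈ M, x * y ≠ y * x) →
    (∀ M : Subgroup H, IsMinNormal M →
      (∃ (S : Subgroup M) (s : ℕ), IsSimpleGroup S ∧ Nat.card S ≤ t ∧
        Nonempty (M ≃* (Fin s → S))) ∨
      ∃ d s : ℕ, 5 ≤ d ∧ Nonempty (M ≃* (Fin s → A d))) →
    om H ≤ Ω → Nat.card H ≤ B := by
  obtain ⟨B, hB⟩ := bound_of_om.{u} Ω (t ^ Ω)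
  refine ⟨B, ?_⟩
  intro H _ _ hna hmin hom
  apply hB H hna _ hom
  intro M hM
  rcases hmin M hM with ⟨S, s, hS, hSt, ⟨e⟩⟩ | h
  · left
    have h1 : s ≤ om H := pow_le_om M hM (hna M hM) S s hS e
    rw [Nat.card_congr e.toEquiv, Nat.card_fun, Nat.card_eq_fintype_card (α := Fin s),
      Fintype.card_fin]
    have h2 : 1 ≤ Nat.card S := Nat.card_pos
    exact (Nat.pow_le_pow_left hSt s).trans
      (Nat.pow_le_pow_right (h2.trans hSt) (h1.trans hom))
  · exact Or.inr h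

theorem main_boundU (h t : ℕ) : ∃ B : ℕ → ℕ → ℕ,
    ∀ (G : Type u) [Group G] [Finite G] [Nontrivial G],
    (∀ M : Subgroup (G ⧸ Rad G), IsMinNormal M →
      (∃ (S : Subgroup M) (s : ℕ), IsSimpleGroup S ∧ Nat.card S ≤ t ∧
        Nonempty (M ≃* (Fin s → S))) ∨
      ∃ d s : ℕ, 5 ≤ d ∧ Nonempty (M ≃* (Fin s → A d))) →
    SerC t h (G ⧸ Rad G) →
    ∀ L m : ℕ, ll G ≤ L → oo (Rad G) ≤ m → Nat.card (G ⧸ Rad G) ≤ B L m := by
  classical
  choose c hc0 hc using fun L => good_lower.{u} t L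
  choose B hB using fun Ω => bound_of_om'.{u} Ω t
  refine ⟨fun L m => B ((m * ⌈(m : ℝ) ^ (L * h) / c (L * h + 1) ^ h⌉₊) ^ L), ?_⟩
  intro G _ _ _ hmin hser L m hL hm
  have hna : ∀ M : Subgroup (G ⧸ Rad G), IsMinNormal M → ∃ x ∈ M, ∃ y ∈ M, x * y ≠ y * x :=
    fun M hM => minNormal_nonab M hM
  apply hB _ (G ⧸ Rad G) hna hmin
  set H := G ⧸ Rad G with hH
  have h1 : om H ≤ (m * oo H) ^ L := by
    calc om H ≤ om G := om_quot_le _
      _ ≤ oo G ^ L := om_le_pow L hL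
      _ ≤ (oo (G ⧸ Rad G) * oo (Rad G)) ^ L := Nat.pow_le_pow_left (oo_le_mul _) L
      _ ≤ (m * oo H) ^ L := by
        apply Nat.pow_le_pow_left
        rw [mul_comm m]
        exact Nat.mul_le_mul_left _ hm
  have h2 := us_main t (L * h + 1) (c (L * h + 1)) (hc0 _) (hc _) h hser
  have hooH : (0 : ℝ) < (oo H : ℝ) := by exact_mod_cast oo_pos H
  have hcp : (0 : ℝ) < c (L * h + 1) ^ h := pow_pos (hc0 _) h
  have h3 : (om H : ℝ) ^ h ≤ ((m : ℝ) * oo H) ^ (L * h) := by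
    rw [pow_mul]
    apply pow_le_pow_left₀ (Nat.cast_nonneg _)
    exact_mod_cast h1
  have h4 : c (L * h + 1) ^ h * (oo H : ℝ) ≤ (m : ℝ) ^ (L * h) := by
    have h5 : c (L * h + 1) ^ h * (oo H : ℝ) ^ (L * h + 1) ≤
        (m : ℝ) ^ (L * h) * (oo H : ℝ) ^ (L * h) := by
      rw [← mul_pow]
      exact h2.trans h3
    rw [pow_succ, ← mul_assoc, mul_right_comm] at h5
    exact le_of_mul_le_mul_right h5 (pow_pos hooH _)
  have h5 : oo H ≤ ⌈(m : ℝ) ^ (L * h) / c (L * h + 1) ^ h⌉₊ := by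
    have h6 : (oo H : ℝ) ≤ (m : ℝ) ^ (L * h) / c (L * h + 1) ^ h := by
      rw [le_div_iff₀ hcp, mul_comm]
      exact h4
    exact_mod_cast h6.trans (Nat.le_ceil _)
  exact h1.trans (Nat.pow_le_pow_left (Nat.mul_le_mul_left m h5) L)

theorem finalU (h t : ℕ) : ∃ f : ℝ → ℝ → ℝ,
    (∀ x y, 1 ≤ x → 1 ≤ y → 1 ≤ f x y) ∧ (∀ y, StrictMono (fun x => f x y)) ∧
    (∀ x, StrictMono (fun y => f x y)) ∧
    ∀ (G : Type u) [Group G] [Finite G] [Nontrivial G],
      (∀ M : Subgroup (G ⧸ Rad G), IsMinNormal M →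
        (∃ (S : Subgroup M) (s : ℕ), IsSimpleGroup S ∧ Nat.card S ≤ t ∧
          Nonempty (M ≃* (Fin s → S))) ∨
        ∃ d s : ℕ, 5 ≤ d ∧ Nonempty (M ≃* (Fin s → A d))) →
      SerC t h (G ⧸ Rad G) →
      ((Rad G).index : ℝ) ≤ f (ll G) (oo (Rad G)) := by
  obtain ⟨B, hB⟩ := main_boundU.{u} h t
  obtain ⟨f, h1, h2, h3, h4⟩ := exists_mono B
  refine ⟨f, h1, h2, h3, ?_⟩
  intro G _ _ _ hmin hser
  have h5 := hB G hmin hser ⌈ll G⌉₊ ⌈((oo (Rad G) : ℕ) : ℝ)⌉₊ (Nat.le_ceil _) (by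
    rw [Nat.ceil_natCast])
  have h6 := h4 (ll G) (oo (Rad G)) (ll_nonneg G) (Nat.cast_nonneg _)
  have h7 : ((Rad G).index : ℝ) ≤ (B ⌈ll G⌉₊ ⌈((oo (Rad G) : ℕ) : ℝ)⌉₊ : ℝ) := by
    exact_mod_cast h5
  exact h7.trans h6

end SR32
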