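import Pool.Agent.SR32.UEnum
import Pool.Agent.SR32.UOuter
import Pool.Agent.SR32.UCenter
import Pool.Agent.SR32.UEmbed
import Pool.Agent.SR32.OuterT
import Pool.Agent.SR32.Quot
import Pool.Agent.SR32.VLower

/-!
# Good groups have many automorphism classes compared to element orders
-/

set_option autoImplicit false

namespace SR32

universe u

theorem nonab_of_pow {H : Type*} [Group H] {M : Subgroup H} (hM : IsMinNormal M) {d s : ℕ}
    (h5 : 5 ≤ d) (e : M ≃* (Fin s → A d)) : ∃ x ∈ M, ∃ y ∈ M, x * y ≠ y * x := by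
  by_contra hcon
  push Not at hcon
  apply hM.2.1
  rw [Subgroup.eq_bot_iff_forall]
  intro x hx
  have h1 : (⟨x, hx⟩ : M) = 1 := by
    apply st_center h5 e
    intro y
    exact Subtype.ext (hcon x hx y y.2)
  exact congrArg Subtype.val h1

theorem pow_comm_of {H : Type*} [Group H] {x y : H} (h : x * y = y * x) (n : ℕ) :
    x ^ n * y = y * x ^ n := ((show Commute x y from h).pow_left n).eq

theorem good_lower (t L : ℕ) : ∃ c : ℝ, 0 < c ∧ ∀ (Q : Type u) [Group Q] [Finite Q],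
    Good t Q → c * (oo Q : ℝ) ^ L ≤ (om Q : ℝ) := by
  classical
  obtain ⟨c0, hc0, hlow⟩ := lowerV.{u} L t
  set E : ℕ := 2 * Nat.card (MulAut (A 6)) * Nat.factorial (t ^ t) with hE
  have hE1 : 1 ≤ E := by
    have h1 : 0 < Nat.card (MulAut (A 6)) := Nat.card_pos
    have h2 : 0 < Nat.factorial (t ^ t) := Nat.factorial_pos _
    exact Nat.mul_pos (by omega) h2
  have hEr : (0 : ℝ) < (E : ℝ) := by exact_mod_cast hE1
  refine ⟨min (1 / ((t : ℝ) + 1) ^ L) (c0 / (E : ℝ) ^ L), by positivity, ?_⟩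
  intro Q _ _ hQ
  have hoo0 : (0 : ℝ) ≤ (oo Q : ℝ) := Nat.cast_nonneg _
  rcases hQ with hQ | hQ
  · have h1 : (oo Q : ℝ) ^ L ≤ ((t : ℝ) + 1) ^ L := by
      apply pow_le_pow_left₀ hoo0
      have : (oo Q : ℝ) ≤ (t : ℝ) := by exact_mod_cast hQ
      linarith
    calc min (1 / ((t : ℝ) + 1) ^ L) (c0 / (E : ℝ) ^ L) * (oo Q : ℝ) ^ L
        ≤ (1 / ((t : ℝ) + 1) ^ L) * (oo Q : ℝ) ^ L :=
          mul_le_mul_of_nonneg_right (min_le_left _ _) (by positivity)
      _ ≤ (1 / ((t : ℝ) + 1) ^ L) * ((t : ℝ) + 1) ^ L :=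
          mul_le_mul_of_nonneg_left h1 (by positivity)
      _ = 1 := by
          rw [one_div, inv_mul_cancel₀]
          positivity
      _ ≤ (om Q : ℝ) := by exact_mod_cast om_pos Q
  · obtain ⟨a, M, d, s, hinj, hM, haut, h5, hR, hiso, hall⟩ :=
      enum_min (H := Q) (fun d s => s ≤ t * om (A d) ^ 2)
    obtain ⟨hchar, e, hn⟩ := structure_enum a M hinj hM haut d s h5 hiso
    have hnorm : (⨆ j, M j : Subgroup Q).Normal := inferInstance
    obtain ⟨τ, hτ⟩ := outerU (⨆ j, M j : Subgroup Q) a d s e h5 hn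
    have hna : ∀ K : Subgroup Q, IsMinNormal K → ∃ x ∈ K, ∃ y ∈ K, x * y ≠ y * x := by
      intro K hK
      rcases hQ K hK with ⟨h1, _⟩ | ⟨d, s, hd, _, ⟨e⟩⟩
      · exact h1
      · exact nonab_of_pow hK hd e
    have hpow : ∀ h : Q, τ h = 1 → h ^ E ∈ (⨆ j, M j : Subgroup Q) := by
      intro h hh
      obtain ⟨x, hx, hxy⟩ := hτ h hh
      set c := 2 * Nat.card (MulAut (A 6)) with hc
      set y := h ^ c * x⁻¹ with hy
      have hcomm : Commute y x := hxy x hx
      have h1 : h ^ c = y * x := by rw [hy]; group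
      have h2 : y ^ Nat.factorial (t ^ t) = 1 := by
        apply eq_one_of_centralize hna
        intro K hK z hz
        rcases hQ K hK with ⟨_, h3⟩ | h3
        · have := hK.1
          exact pow_centralize K t h3 y z hz
        · obtain ⟨j, hj⟩ := hall K hK h3
          apply pow_comm_of
          apply hxy
          rw [← hj] at hz
          exact (le_iSup M j) hz
      rw [hE, pow_mul, h1, hcomm.mul_pow, h2, one_mul]
      exact Subgroup.pow_mem _ hx _
    have h1 : oo Q ≤ oo (∀ j, Equiv.Perm (Fin (s j))) * (E * oo (⨆ j, M j : Subgroup Q)) :=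
      oo_le_outerT (⨆ j, M j : Subgroup Q) τ E hE1 hpow
    rw [← oo_congr e] at h1
    have h2 := hlow Q a M d s hinj hM haut h5 hR hiso
    have h3 : (oo Q : ℝ) ≤ (E : ℝ) * ((oo (∀ j, Fin (s j) → A (d j)) : ℝ) *
        (oo (∀ j, Equiv.Perm (Fin (s j))) : ℝ)) := by
      have : (oo Q : ℝ) ≤ ((oo (∀ j, Equiv.Perm (Fin (s j))) *
        (E * oo (∀ j, Fin (s j) → A (d j))) : ℕ) : ℝ) := by exact_mod_cast h1
      push_cast at this
      linarith
    have h4 : (oo Q : ℝ) ^ L ≤ (E : ℝ) ^ L * ((oo (∀ j, Fin (s j) → A (d j)) : ℝ) *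
        (oo (∀ j, Equiv.Perm (Fin (s j))) : ℝ)) ^ L := by
      rw [← mul_pow]
      exact pow_le_pow_left₀ hoo0 h3 L
    calc min (1 / ((t : ℝ) + 1) ^ L) (c0 / (E : ℝ) ^ L) * (oo Q : ℝ) ^ L
        ≤ (c0 / (E : ℝ) ^ L) * (oo Q : ℝ) ^ L :=
          mul_le_mul_of_nonneg_right (min_le_right _ _) (by positivity)
      _ ≤ (c0 / (E : ℝ) ^ L) * ((E : ℝ) ^ L * ((oo (∀ j, Fin (s j) → A (d j)) : ℝ) *
        (oo (∀ j, Equiv.Perm (Fin (s j))) : ℝ)) ^ L) :=
          mul_le_mul_of_nonneg_left h4 (by positivity)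
      _ = c0 * ((oo (∀ j, Fin (s j) → A (d j)) : ℝ) *
        (oo (∀ j, Equiv.Perm (Fin (s j))) : ℝ)) ^ L := by
          rw [← mul_assoc, div_mul_cancel₀]
          positivity
      _ ≤ (om Q : ℝ) := h2

end SR32
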