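import Pool.Agent.SR32.DefsU
import Pool.Agent.SR32.Quot

/-!
# Chains of characteristic subgroups of the whole group
-/

set_option autoImplicit false

namespace SR32

universe u

/-- A section given by characteristic subgroups has at most as many orbits. -/
theorem om_sect_le {H : Type u} [Group H] [Finite H] (K N : Subgroup H) [K.Characteristic]
    [N.Characteristic] : om (K ⧸ N.subgroupOf K) ≤ om H := by
  unfold om
  have : Finite (MulAction.orbitRel.Quotient (MulAut H) H) := Quotient.finite _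
  -- a representative in `K` for each orbit of the section
  have hrep : ∀ q : MulAction.orbitRel.Quotient (MulAut (K ⧸ N.subgroupOf K)) (K ⧸ N.subgroupOf K),
      ∃ x : K, (Quotient.mk'' (QuotientGroup.mk x : K ⧸ N.subgroupOf K) :
        MulAction.orbitRel.Quotient (MulAut (K ⧸ N.subgroupOf K)) (K ⧸ N.subgroupOf K)) = q := by
    intro q
    induction q using Quotient.inductionOn' with
    | h y =>
      obtain ⟨x, rfl⟩ := QuotientGroup.mk_surjective y
      exact ⟨x, rfl⟩
  choose rep hrep using hrep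
  refine Nat.card_le_card_of_injective
    (fun q => (Quotient.mk'' ((rep q : K) : H) : MulAction.orbitRel.Quotient (MulAut H) H)) ?_
  intro p q hpq
  have h1 : MulAction.orbitRel (MulAut H) H ((rep p : K) : H) ((rep q : K) : H) :=
    Quotient.exact hpq
  rw [MulAction.orbitRel_apply] at h1
  obtain ⟨φ, hφ⟩ := h1
  have hmapK : K.map φ.toMonoidHom = K := Subgroup.characteristic_iff_map_eq.1 inferInstance φ
  have hmapN : N.map φ.toMonoidHom = N := Subgroup.characteristic_iff_map_eq.1 inferInstance φ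
  obtain ⟨ψ, hψ⟩ : ∃ ψ : K ≃* K, ∀ x : K, ((ψ x : K) : H) = φ x :=
    ⟨(φ.subgroupMap K).trans (MulEquiv.subgroupCongr hmapK), fun x => rfl⟩
  have hψN : (N.subgroupOf K).map ψ.toMonoidHom = N.subgroupOf K := by
    ext x
    rw [Subgroup.mem_map]
    constructor
    · rintro ⟨y, hy, rfl⟩
      rw [Subgroup.mem_subgroupOf] at hy ⊢
      show ((ψ y : K) : H) ∈ N
      rw [hψ, ← hmapN]
      exact Subgroup.mem_map_of_mem _ hy
    · intro hx
      rw [Subgroup.mem_subgroupOf] at hx
      refine ⟨ψ.symm x, ?_, ψ.apply_symm_apply x⟩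
      rw [Subgroup.mem_subgroupOf]
      rw [← hmapN, Subgroup.mem_map] at hx
      obtain ⟨y, hy, hyx⟩ := hx
      have h2 : ((ψ.symm x : K) : H) = y := by
        apply φ.injective
        rw [← hψ, MulEquiv.apply_symm_apply]
        exact hyx.symm
      rw [h2]
      exact hy
  have h3 : MulAction.orbitRel (MulAut (K ⧸ N.subgroupOf K)) (K ⧸ N.subgroupOf K)
      (QuotientGroup.mk (rep p) : K ⧸ N.subgroupOf K)
      (QuotientGroup.mk (rep q) : K ⧸ N.subgroupOf K) := by
    rw [MulAction.orbitRel_apply]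
    refine ⟨QuotientGroup.congr (N.subgroupOf K) (N.subgroupOf K) ψ hψN, ?_⟩
    show (QuotientGroup.mk (ψ (rep q)) : K ⧸ N.subgroupOf K) = QuotientGroup.mk (rep p)
    congr 1
    apply Subtype.ext
    rw [hψ]
    exact hφ
  rw [← hrep p, ← hrep q]
  exact Quotient.sound h3

/-- A chain of characteristic subgroups of `H` with good factors. -/
theorem chain_bound (t Lam : ℕ) (c : ℝ) (hc : 0 < c)
    (hgood : ∀ (Q : Type u) [Group Q] [Finite Q], Good t Q → c * (oo Q : ℝ) ^ Lam ≤ om Q)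
    {H : Type u} [Group H] [Finite H] (U : ℕ → Subgroup H) [hU : ∀ i, (U i).Characteristic]
    (h0 : U 0 = ⊥) (hle : ∀ i, U i ≤ U (i + 1)) (n : ℕ)
    (hg : ∀ i < n, Good t (U (i + 1) ⧸ (U i).subgroupOf (U (i + 1)))) :
    c ^ n * (oo (U n) : ℝ) ^ Lam ≤ (om H : ℝ) ^ n := by
  induction n with
  | zero =>
    have h1 : oo (U 0) = 1 := by
      rw [h0]
      unfold oo
      have : (Set.range fun g : (⊥ : Subgroup H) => orderOf g) = {1} := by
        ext k
        rw [Set.mem_range, Set.mem_singleton_iff]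
        constructor
        · rintro ⟨g, rfl⟩
          rw [Subsingleton.elim g 1, orderOf_one]
        · rintro rfl
          exact ⟨1, orderOf_one⟩
      rw [this, Set.ncard_singleton]
    rw [h1]
    simp
  | succ n ih =>
    have ih' := ih fun i hi => hg i (by omega)
    have h1 : oo (U (n + 1)) ≤ oo (U (n + 1) ⧸ (U n).subgroupOf (U (n + 1))) * oo (U n) := by
      have h2 := oo_le_mul ((U n).subgroupOf (U (n + 1)))
      rwa [oo_congr (Subgroup.subgroupOfEquivOfLe (hle n))] at h2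
    have h3 := hgood _ (hg n (by omega))
    have h4 : (om (U (n + 1) ⧸ (U n).subgroupOf (U (n + 1))) : ℝ) ≤ (om H : ℝ) := by
      exact_mod_cast om_sect_le (U (n + 1)) (U n)
    have h5 : (oo (U (n + 1)) : ℝ) ^ Lam ≤
        (oo (U (n + 1) ⧸ (U n).subgroupOf (U (n + 1))) : ℝ) ^ Lam * (oo (U n) : ℝ) ^ Lam := by
      rw [← mul_pow]
      refine pow_le_pow_left₀ (Nat.cast_nonneg _) ?_ _
      exact_mod_cast h1
    calc c ^ (n + 1) * (oo (U (n + 1)) : ℝ) ^ Lam
        ≤ c ^ (n + 1) * ((oo (U (n + 1) ⧸ (U n).subgroupOf (U (n + 1))) : ℝ) ^ Lam *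
            (oo (U n) : ℝ) ^ Lam) := mul_le_mul_of_nonneg_left h5 (pow_pos hc _).le
      _ = (c * (oo (U (n + 1) ⧸ (U n).subgroupOf (U (n + 1))) : ℝ) ^ Lam) *
            (c ^ n * (oo (U n) : ℝ) ^ Lam) := by rw [pow_succ]; ring
      _ ≤ (om H : ℝ) * (om H : ℝ) ^ n :=
          mul_le_mul (h3.trans h4) ih' (by positivity) (Nat.cast_nonneg _)
      _ = (om H : ℝ) ^ (n + 1) := by rw [pow_succ]; ring

/-- A chain of `n` steps of characteristic subgroups of `H` with `t`-good factors. -/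
def ChainC (t n : ℕ) (H : Type u) [Group H] : Prop :=
  ∃ (U : ℕ → Subgroup H) (_ : ∀ i, (U i).Characteristic), U 0 = ⊥ ∧ U n = ⊤ ∧
    (∀ i, U i ≤ U (i + 1)) ∧ ∀ i < n, Good t (U (i + 1) ⧸ (U i).subgroupOf (U (i + 1)))

theorem chainC_bound (t Lam : ℕ) (c : ℝ) (hc : 0 < c)
    (hgood : ∀ (Q : Type u) [Group Q] [Finite Q], Good t Q → c * (oo Q : ℝ) ^ Lam ≤ om Q)
    {H : Type u} [Group H] [Finite H] (n : ℕ) (h : ChainC t n H) :
    c ^ n * (oo H : ℝ) ^ Lam ≤ (om H : ℝ) ^ n := by
  obtain ⟨U, hU, h0, hn, hle, hg⟩ := h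
  have h1 := chain_bound t Lam c hc hgood U h0 hle n hg
  rw [hn, oo_congr (Subgroup.topEquiv : (⊤ : Subgroup H) ≃* H)] at h1
  exact h1

end SR32
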