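import Pool.Agent.SR32.StructS92
import Pool.Agent.SR32.DefsU

/-!
# The join of an invariant set of minimal normal subgroups

The version of `structure_thmT` for a set `W` of minimal normal subgroups that is invariant under all
automorphisms.
-/

set_option autoImplicit false

namespace SR32

theorem structure_set {H : Type*} [Group H] [Finite H] (P : ℕ → ℕ → Prop)
    (W : Set (Subgroup H)) (hW : ∀ M ∈ W, IsMinNormal M)
    (hφ : ∀ (φ : H ≃* H), ∀ M ∈ W, M.map φ.toMonoidHom ∈ W)
    (hmin : ∀ M ∈ W, ∃ d s : ℕ, 5 ≤ d ∧ P d s ∧ Nonempty (M ≃* (Fin s → A d))) :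
    (sSup W : Subgroup H).Characteristic ∧
      ∃ (a : ℕ) (d s : Fin a → ℕ) (e : (∀ j, (Fin (s j) → A (d j))) ≃* (sSup W : Subgroup H)),
        (∀ j, 5 ≤ d j) ∧ (∀ j, P (d j) (s j)) ∧
        ∀ (h : H) (j : Fin a) (x : Fin (s j) → A (d j)), ∃ y : Fin (s j) → A (d j),
          h * (e (Pi.mulSingle j x) : H) * h⁻¹ = (e (Pi.mulSingle j y) : H) := by
  classical
  -- enumerate the members of `W`
  obtain ⟨a, ⟨ν⟩⟩ := Finite.exists_equiv_fin {M : Subgroup H // M ∈ W}
  let M : Fin a → Subgroup H := fun j => (ν.symm j).1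
  have hMW : ∀ j, M j ∈ W := fun j => (ν.symm j).2
  have hM : ∀ j, IsMinNormal (M j) := fun j => hW _ (hMW j)
  have hall : ∀ K : Subgroup H, K ∈ W → ∃ j, M j = K := by
    intro K hK
    refine ⟨ν ⟨K, hK⟩, ?_⟩
    show (ν.symm (ν ⟨K, hK⟩)).1 = K
    rw [Equiv.symm_apply_apply]
  have hMinj : Function.Injective M := fun i j hij => ν.symm.injective (Subtype.ext hij)
  choose d s h5 hP hψ using fun j => hmin (M j) (hMW j)
  have φ : ∀ j, (M j) ≃* (Fin (s j) → A (d j)) := fun j => (hψ j).some
  have hcomm : Pairwise fun i j : Fin a => ∀ x y : H, x ∈ M i → y ∈ M j → Commute x y := by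
    intro i j hij
    apply Subgroup.commute_of_normal_of_disjoint _ _ (hM i).1 (hM j).1
    rw [disjoint_iff]
    have hn : (M i ⊓ M j).Normal := by
      have := (hM i).1
      have := (hM j).1
      infer_instance
    rcases (hM i).2.2 _ hn inf_le_left with h | h
    · exact h
    · rcases (hM j).2.2 (M i) (hM i).1 (by rw [← h]; exact inf_le_right) with h' | h'
      · exact absurd h' (hM i).2.1
      · exact absurd (hMinj h') hij
  let f : (∀ j, M j) →* H := Subgroup.noncommPiCoprod hcomm
  have hf : ∀ (j : Fin a) (y : M j), f (Pi.mulSingle j y) = (y : H) := fun j y =>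
    Subgroup.noncommPiCoprod_mulSingle j y
  have hinj : Function.Injective f := by
    rw [injective_iff_map_eq_one]
    intro x hx
    funext j
    apply st_center (h5 j) (φ j)
    intro y
    have h1 : f (x * Pi.mulSingle j y * x⁻¹) = (y : H) := by
      rw [map_mul, map_mul, map_inv, hx, hf]
      group
    rw [perm_conj_single, hf] at h1
    have h2 : x j * y * (x j)⁻¹ = y := Subtype.ext h1
    calc x j * y = x j * y * (x j)⁻¹ * x j := by group
      _ = y * x j := by rw [h2]
  have hsup : (⨆ j, M j) = sSup W := by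
    apply le_antisymm
    · exact iSup_le fun j => le_sSup (hMW j)
    · apply sSup_le
      intro K hK
      obtain ⟨j, hj⟩ := hall K hK
      rw [← hj]
      exact le_iSup M j
  have hrange : f.range = sSup W := by
    rw [← hsup]
    exact Subgroup.noncommPiCoprod_range
  have hchar : (sSup W : Subgroup H).Characteristic := by
    rw [Subgroup.characteristic_iff_map_le]
    intro ψ
    rw [← hsup, Subgroup.map_iSup]
    apply iSup_le
    intro j
    obtain ⟨k, hk⟩ := hall _ (hφ ψ (M j) (hMW j))
    rw [← hk]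
    exact le_iSup M k
  let e : (∀ j, (Fin (s j) → A (d j))) ≃* (sSup W : Subgroup H) :=
    ((MulEquiv.piCongrRight (fun j => (φ j).symm)).trans (MonoidHom.ofInjective hinj)).trans
      (MulEquiv.subgroupCongr hrange)
  have he : ∀ (j : Fin a) (x : Fin (s j) → A (d j)),
      (e (Pi.mulSingle j x) : H) = ((φ j).symm x : H) := by
    intro j x
    show ((MonoidHom.ofInjective hinj)
      ((MulEquiv.piCongrRight (fun j => (φ j).symm)) (Pi.mulSingle j x)) : H) = _
    rw [MonoidHom.ofInjective_apply]
    have : (MulEquiv.piCongrRight (fun j => (φ j).symm)) (Pi.mulSingle j x) =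
        Pi.mulSingle j ((φ j).symm x) := by
      funext k
      rw [MulEquiv.piCongrRight_apply]
      by_cases h : k = j
      · subst h
        simp
      · simp [Pi.mulSingle_eq_of_ne h]
    rw [this, hf]
  refine ⟨hchar, a, d, s, e, h5, hP, ?_⟩
  intro h j x
  refine ⟨φ j ⟨h * ((φ j).symm x : H) * h⁻¹, (hM j).1.conj_mem _ ((φ j).symm x).2 h⟩, ?_⟩
  rw [he, he, MulEquiv.symm_apply_apply]

end SR32
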