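import Pool.Agent.SR32.ExcCore
import Pool.Agent.SR32.DefsV

/-!
# SR32/VExcCore: only finitely many triples `(d, s, a)` have few multisets against orders

With `w = om (A d)`, `V = multichoose w s` and a natural number `R` with `R * R ≤ V` one has
`VV d s a = multichoose V a ≥ R ^ min a R`. For `s ≤ w` take `R = u₂ ^ min s u`, `u = √w`, `u₂ = √u`;
for `s > w` take `R = 2 ^ (w / 2 / 2)`.
-/

namespace SR32

open Filter

theorem excV_QQ_pos (b k : ℕ) : 0 < (QQ b k).card := by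
  rw [Finset.card_pos]
  refine ⟨∅, ?_⟩
  rw [mem_QQ]
  simp

theorem excV_QQ_le_EE (b k : ℕ) : (QQ b k).card ≤ (EE k).card := by
  apply Finset.card_le_card
  intro S hS
  rw [mem_QQ] at hS
  rw [mem_EE]
  exact ⟨hS.1, hS.2.1⟩

theorem excV_QQ_le_PP (b k : ℕ) : (QQ b k).card ≤ 2 ^ (PP b).card := by
  rw [← Finset.card_powerset]
  apply Finset.card_le_card
  intro S hS
  rw [mem_QQ] at hS
  rw [Finset.mem_powerset]
  intro q hq
  rw [mem_PP]
  exact ⟨hS.2.2 q hq, (hS.1 q hq).2⟩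

theorem excV_V_two {d s : ℕ} (h5 : 5 ≤ d) (hs : 1 ≤ s) : 2 ≤ Nat.multichoose (om (A d)) s := by
  have := exc_W_two (two_le_om d h5) s
  omega

theorem rv_pos' (L : ℕ) {d s a : ℕ} (h1 : 5 ≤ d) : 0 < rv L (d, s, a) := by
  unfold rv VV
  simp only
  have hw := two_le_om d h1
  have hV : 1 ≤ Nat.multichoose (om (A d)) s := by
    have := exc_W_two hw s
    omega
  have hVV : 0 < Nat.multichoose (Nat.multichoose (om (A d)) s) a := by
    have h2 := exc_W_mono_left hV a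
    rw [Nat.multichoose_one] at h2
    omega
  have hO : 0 < oo (Fin (s * a) → A d) := oo_pos _
  have hQ := excV_QQ_pos s (s * a)
  positivity

theorem excV_VV_ge {V R a : ℕ} (hR : 1 ≤ R) (hV : R * R ≤ V) (ha : 1 ≤ a) :
    (R : ℝ) ^ (min a R) ≤ (Nat.multichoose V a : ℝ) := by
  have hb1 : 1 ≤ min a R := le_min ha hR
  have hb0 : (0 : ℝ) < ((min a R : ℕ) : ℝ) := by exact_mod_cast hb1
  have hV1 : 1 ≤ V := by nlinarith
  calc (R : ℝ) ^ (min a R) ≤ ((V : ℝ) / ((min a R : ℕ) : ℝ)) ^ (min a R) := by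
        apply pow_le_pow_left₀ (by positivity)
        rw [le_div_iff₀ hb0]
        have h1 : R * min a R ≤ V := (Nat.mul_le_mul_left _ (min_le_right _ _)).trans hV
        exact_mod_cast h1
    _ ≤ (Nat.multichoose V (min a R) : ℝ) := exc_W_ge _ _ hb1
    _ ≤ (Nat.multichoose V a : ℝ) := by
        exact_mod_cast exc_W_mono_right hV1 (min_le_left _ _)

theorem excV_V_one {w s u u2 : ℕ} (hs : 1 ≤ s) (hu : u * u ≤ w) (hu1 : 1 ≤ u)
    (hu2 : u2 * u2 ≤ u) : u2 ^ (min s u) * u2 ^ (min s u) ≤ Nat.multichoose w s := by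
  have hw1 : 1 ≤ w := by nlinarith
  have hj1 : 1 ≤ min s u := le_min hs hu1
  have hj0 : (0 : ℝ) < ((min s u : ℕ) : ℝ) := by exact_mod_cast hj1
  have h : (u : ℝ) ^ (min s u) ≤ (Nat.multichoose w s : ℝ) := by
    calc (u : ℝ) ^ (min s u) ≤ ((w : ℝ) / ((min s u : ℕ) : ℝ)) ^ (min s u) := by
          apply pow_le_pow_left₀ (by positivity)
          rw [le_div_iff₀ hj0]
          have h1 : u * min s u ≤ w := (Nat.mul_le_mul_left _ (min_le_right _ _)).trans hu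
          exact_mod_cast h1
      _ ≤ (Nat.multichoose w (min s u) : ℝ) := exc_W_ge _ _ hj1
      _ ≤ (Nat.multichoose w s : ℝ) := by
          exact_mod_cast exc_W_mono_right hw1 (min_le_left _ _)
  have h' : u ^ (min s u) ≤ Nat.multichoose w s := by exact_mod_cast h
  rw [← mul_pow]
  exact (Nat.pow_le_pow_left hu2 _).trans h'

theorem excV_V_two' {w s : ℕ} (hw : 2 ≤ w) (hs : w < s) :
    2 ^ (w / 2 / 2) * 2 ^ (w / 2 / 2) ≤ Nat.multichoose w s := by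
  have hh1 : 1 ≤ w / 2 := by omega
  have h1 : (0 : ℝ) < ((w / 2 : ℕ) : ℝ) := by exact_mod_cast hh1
  have h : (2 : ℝ) ^ (w / 2) ≤ (Nat.multichoose w s : ℝ) := by
    calc (2 : ℝ) ^ (w / 2) ≤ ((w : ℝ) / ((w / 2 : ℕ) : ℝ)) ^ (w / 2) := by
          apply pow_le_pow_left₀ (by norm_num)
          rw [le_div_iff₀ h1]
          have h2 : 2 * (w / 2) ≤ w := by omega
          exact_mod_cast h2
      _ ≤ (Nat.multichoose w (w / 2) : ℝ) := exc_W_ge _ _ hh1
      _ ≤ (Nat.multichoose w s : ℝ) := by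
          exact_mod_cast exc_W_mono_right (by omega) (by omega)
  have h' : 2 ^ (w / 2) ≤ Nat.multichoose w s := by exact_mod_cast h
  rw [← pow_add]
  exact (Nat.pow_le_pow_right (by norm_num) (by omega)).trans h'

theorem excV_two_pow_sq {m : ℕ} (hm : 4 ≤ m) : m * m ≤ 2 ^ m := by
  induction m, hm using Nat.le_induction with
  | base => norm_num
  | succ m hm ih => rw [pow_succ]; nlinarith

theorem excV_pow_eight {s : ℕ} (hs : 12 ≤ s) : 8 * ((s + 1) * (s + 1)) ≤ 2 ^ (s - 1) := by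
  induction s, hs using Nat.le_induction with
  | base => norm_num
  | succ s hs ih =>
    have h1 : s + 1 - 1 = (s - 1) + 1 := by omega
    have h2 : 2 ^ (s + 1 - 1) = 2 * 2 ^ (s - 1) := by rw [h1, pow_succ]; ring
    rw [h2]
    nlinarith

/-- a lower bound for the logarithm of the fourth root -/
theorem excV_log_u2 {σ u2 : ℕ} (h : 2 ^ ((σ - 1) / 2 / 2) ≤ u2) :
    0.69 * (((σ - 1) / 2 / 2 : ℕ) : ℝ) ≤ Real.log u2 := by
  have hl := Real.log_two_gt_d9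
  have hu' : ((2 : ℝ)) ^ ((σ - 1) / 2 / 2) ≤ u2 := by exact_mod_cast h
  have h3 : (((σ - 1) / 2 / 2 : ℕ) : ℝ) * Real.log 2 ≤ Real.log u2 := by
    rw [← Real.log_pow]
    exact Real.log_le_log (by positivity) hu'
  have h4 : (((σ - 1) / 2 / 2 : ℕ) : ℝ) * 0.69 ≤ (((σ - 1) / 2 / 2 : ℕ) : ℝ) * Real.log 2 :=
    mul_le_mul_of_nonneg_left (by linarith) (Nat.cast_nonneg _)
  linarith

/-- the two estimates for the range `s ≤ w` -/
theorem excV_ev_one (K : ℝ) :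
    ∀ᶠ σ : ℕ in atTop, ∀ u2 : ℕ, 2 ^ ((σ - 1) / 2 / 2) ≤ u2 →
      K + 1 / 16 * ((σ : ℝ) + 2) ≤ Real.log u2 ∧
      2 * K + 1 / 8 * ((σ : ℝ) + 1) ^ 2 ≤ (2 : ℝ) ^ ((σ - 1) / 2 / 2) * Real.log u2 ∧
      1 ≤ Real.log u2 := by
  filter_upwards [eventually_ge_atTop 100,
    tendsto_natCast_atTop_atTop.eventually_ge_atTop (10 * K + 10)] with σ h1 h2 u2 hu
  have h3 := excV_log_u2 hu
  set m := (σ - 1) / 2 / 2 with hm
  have hm1 : 24 ≤ m := by omega
  have hσm : σ ≤ 4 * m + 4 := by omega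
  have hσm' : (σ : ℝ) ≤ 4 * m + 4 := by exact_mod_cast hσm
  have hm1' : (24 : ℝ) ≤ m := by exact_mod_cast hm1
  have hp : (m : ℝ) * m ≤ (2 : ℝ) ^ m := by exact_mod_cast excV_two_pow_sq (m := m) (by omega)
  have hσ0 : (0 : ℝ) ≤ σ := Nat.cast_nonneg _
  refine ⟨by linarith, ?_, by linarith⟩
  have h4 : ((m : ℝ) * m) * (0.69 * m) ≤ (2 : ℝ) ^ m * Real.log u2 :=
    mul_le_mul hp h3 (by positivity) (by positivity)
  have h5 : ((σ : ℝ) + 1) ^ 2 ≤ (4 * m + 5) ^ 2 := by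
    apply pow_le_pow_left₀ (by linarith)
    linarith
  have h6 : 2 * K ≤ m * m := by nlinarith
  nlinarith [mul_nonneg (mul_nonneg (by linarith : (0 : ℝ) ≤ m) (by linarith : (0 : ℝ) ≤ m))
    (by linarith : (0 : ℝ) ≤ (m : ℝ) - 24)]

/-- the estimates for the range `s > w` -/
theorem excV_ev_two (K : ℝ) (t : ℕ) :
    ∀ᶠ σ : ℕ in atTop, ∀ w : ℕ, 2 ^ (σ - 1) ≤ w →
      2 * K + 1 / 8 * ((σ : ℝ) + 1) ^ 2 ≤ Real.log 2 * ((w / 2 / 2 : ℕ) : ℝ) ∧
      1 / 16 * (w : ℝ) ≤ Real.log 2 * ((w / 2 / 2 : ℕ) : ℝ) / 2 ∧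
      (t + 1) * w ≤ 2 ^ (w / 2 / 2) := by
  filter_upwards [eventually_ge_atTop 12, eventually_ge_atTop (16 * (t + 1) + 40),
    tendsto_natCast_atTop_atTop.eventually_ge_atTop (2 * K)] with σ h1 h1' h2 w hw
  have hl := Real.log_two_gt_d9
  have h3 : 8 * ((σ + 1) * (σ + 1)) ≤ w := (excV_pow_eight h1).trans hw
  have h3' : 8 * (((σ : ℝ) + 1) * ((σ : ℝ) + 1)) ≤ w := by exact_mod_cast h3
  have hσ12 : (12 : ℝ) ≤ σ := by exact_mod_cast h1
  have hσw : 16 * (t + 1) + 40 ≤ w := by nlinarith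
  set g := w / 2 / 2 with hg
  have hgw : w ≤ 4 * g + 3 := by omega
  have hgw' : (w : ℝ) ≤ 4 * g + 3 := by exact_mod_cast hgw
  have hg0 : (0 : ℝ) ≤ g := Nat.cast_nonneg _
  have h4 : 0.69 * (g : ℝ) ≤ Real.log 2 * g := mul_le_mul_of_nonneg_right (by linarith) hg0
  have hw40 : (40 : ℝ) ≤ w := by
    have : 40 ≤ w := by omega
    exact_mod_cast this
  refine ⟨?_, ?_, ?_⟩
  · nlinarith
  · linarith
  · have hg4 : 4 ≤ g := by omega
    have h5 := excV_two_pow_sq hg4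
    refine le_trans ?_ h5
    have h6 : 4 * (t + 1) + 9 ≤ g := by omega
    have h7 : (t + 1) * w ≤ (t + 1) * (4 * g + 3) := Nat.mul_le_mul_left _ hgw
    nlinarith

theorem excV_a1 {u u2 : ℕ} (h : 2 ≤ u2) (h' : u2 * u2 ≤ u) : 1 ≤ u := by nlinarith

theorem excV_a2 {s a : ℝ} (hs : 1 ≤ s) (ha : 1 ≤ a) : 1 ≤ s * a := by nlinarith

theorem excV_a3 {s : ℝ} (hs : 1 ≤ s) : Real.sqrt s ≤ s := by
  rw [Real.sqrt_le_left (by linarith)]
  nlinarith

theorem excV_a4 {s a : ℝ} (hs : 1 ≤ s) (ha : 1 ≤ a) : Real.sqrt (s * a) ≤ a * Real.sqrt s := by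
  rw [Real.sqrt_le_left (by positivity), mul_pow, Real.sq_sqrt (by linarith)]
  have h1 : a ≤ a ^ 2 := by nlinarith
  calc s * a ≤ s * a ^ 2 := mul_le_mul_of_nonneg_left h1 (by linarith)
    _ = a ^ 2 * s := by ring

theorem excV_a5 (t w : ℕ) : t * w ^ 2 ≤ ((t + 1) * w) * ((t + 1) * w) := by
  have h1 : t ≤ (t + 1) * (t + 1) := by nlinarith
  calc t * w ^ 2 ≤ ((t + 1) * (t + 1)) * w ^ 2 := Nat.mul_le_mul_right _ h1
    _ = ((t + 1) * w) * ((t + 1) * w) := by ring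

theorem excV_a6 {w s u R : ℕ} (hs : 1 ≤ s) (hsw : s ≤ w) (hw : w < (u + 1) * (u + 1))
    (h : min s u + 1 ≤ R) : s ≤ R * R := by
  rcases le_total s u with h' | h'
  · rw [min_eq_left h'] at h
    nlinarith
  · rw [min_eq_right h'] at h
    nlinarith

theorem excV_a7 {w s u : ℕ} (hs : 1 ≤ s) (hu : 1 ≤ u) (hsw : s ≤ w)
    (hw : w < (u + 1) * (u + 1)) : Real.sqrt s ≤ 2 * ((min s u : ℕ) : ℝ) := by
  rw [Real.sqrt_le_left (by positivity)]
  have h1 : s ≤ (2 * min s u) ^ 2 := by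
    rcases le_total s u with h | h
    · rw [min_eq_left h]
      nlinarith
    · rw [min_eq_right h]
      nlinarith
  exact_mod_cast h1

theorem excV_a8 {x y z : ℝ} (h : x ≤ y) (hy : 0 ≤ y) (hz : 1 ≤ z) : x ≤ z * y :=
  h.trans (le_mul_of_one_le_left hy hz)

theorem excV_a9 {x y z : ℝ} (h : x ≤ y) (hy : 0 ≤ y) (hz : 1 ≤ z) : x ≤ y * z :=
  h.trans (le_mul_of_one_le_right hy hz)

theorem excV_a10 {x j l : ℝ} (h : x ≤ 2 * j) (hj : 0 ≤ j) (hl : 1 ≤ l) :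
    1 / 16 * x ≤ j * l / 2 := by nlinarith

theorem excV_a11 {C ε S k q : ℝ} (h : C ≤ k * C) (h4 : ε * q ≤ ε * k) :
    k * (C + ε * (S + 1)) + (C + ε * q) ≤ k * (2 * C + ε * (S + 2)) := by nlinarith

/-- the main estimate -/
theorem excV_core {O Q M o q r VV' : ℝ} {L b : ℕ} {R : ℕ} (hO0 : 0 < O) (hQ0 : 0 < Q)
    (hO : O ≤ Real.exp o) (hQ : Q ≤ Real.exp q) (hM : 0 < M) (hR : 1 ≤ R)
    (hr : r = Real.log R) (hV : (R : ℝ) ^ b ≤ VV') (h : Real.log M + L * (o + q) ≤ b * r) :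
    M * (O * Q) ^ L ≤ VV' := by
  have h1 : O * Q ≤ Real.exp (o + q) := by
    rw [Real.exp_add]
    exact mul_le_mul hO hQ hQ0.le (Real.exp_pos _).le
  have hR0 : (0 : ℝ) < R := by exact_mod_cast hR
  calc M * (O * Q) ^ L ≤ M * (Real.exp (o + q)) ^ L :=
        mul_le_mul_of_nonneg_left (pow_le_pow_left₀ (by positivity) h1 L) hM.le
    _ = Real.exp (Real.log M + L * (o + q)) := by
        rw [Real.exp_add (Real.log M), Real.exp_log hM, Real.exp_nat_mul]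
    _ ≤ Real.exp (b * r) := Real.exp_le_exp.2 h
    _ = (R : ℝ) ^ b := by rw [hr, Real.exp_nat_mul, Real.exp_log hR0]
    _ ≤ VV' := hV

/-- the estimate outside the range where everything is small -/
theorem excV_comb {K Kε σ1 b r x : ℝ} (hb : 1 ≤ b) (hx : 0 ≤ x) (h1 : 2 * K + 1 / 8 * σ1 ≤ b * r)
    (h2 : 1 / 16 * x ≤ r / 2) (hε : Kε ≤ 1 / 16) (hσ : 0 ≤ σ1) :
    K + Kε * σ1 + Kε * (b * x) ≤ b * r := by
  have h3 : Kε * σ1 ≤ 1 / 16 * σ1 := mul_le_mul_of_nonneg_right hε hσ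
  have h4 : Kε * (b * x) ≤ 1 / 16 * (b * x) := mul_le_mul_of_nonneg_right hε (by positivity)
  have h5 : b * (1 / 16 * x) ≤ b * (r / 2) := mul_le_mul_of_nonneg_left h2 (by linarith)
  nlinarith

theorem excV_large (hpp : ∀ ε : ℝ, 0 < ε →
      ∃ C : ℝ, ∀ d : ℕ, ((PP d).card : ℝ) ≤ C + ε * d)
    (hpb : ∀ ε : ℝ, 0 < ε →
      ∃ C : ℝ, ∀ d : ℕ, ((EE d).card : ℝ) ≤ Real.exp (C + ε * Real.sqrt d))
    (L t : ℕ) (M : ℝ) (hM : 1 ≤ M) : ∃ D : ℕ, ∀ d : ℕ, D ≤ d → ∀ s a : ℕ, 1 ≤ s →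
    s ≤ t * om (A d) ^ 2 → 1 ≤ a → M ≤ rv L (d, s, a) := by
  set ε : ℝ := 1 / (16 * ((L : ℝ) + 1) * ((t : ℝ) + 1)) with hε
  have hε0 : 0 < ε := by positivity
  have hL0 : (0 : ℝ) ≤ L := Nat.cast_nonneg _
  have ht0 : (0 : ℝ) ≤ t := Nat.cast_nonneg _
  have hεL : (L : ℝ) * ε ≤ 1 / 16 := by
    rw [hε, mul_one_div, div_le_div_iff₀ (by positivity) (by norm_num)]
    nlinarith [mul_nonneg hL0 ht0]
  have hεt : ((L : ℝ) * ε) * (t + 1) ≤ 1 / 16 := by
    rw [hε, mul_one_div, div_mul_eq_mul_div, div_le_div_iff₀ (by positivity) (by norm_num)]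
    nlinarith [mul_nonneg hL0 ht0]
  obtain ⟨C1, hC1'⟩ := hpb ε hε0
  obtain ⟨C2, hC2'⟩ := hpp ε hε0
  set C : ℝ := max (max C1 C2) 0 with hCdef
  have hC0 : 0 ≤ C := le_max_right _ _
  have hC1 : ∀ d : ℕ, ((EE d).card : ℝ) ≤ Real.exp (C + ε * Real.sqrt d) := fun d =>
    (hC1' d).trans (Real.exp_le_exp.2 (by
      have : C1 ≤ C := (le_max_left _ _).trans (le_max_left _ _)
      linarith))
  have hC2 : ∀ d : ℕ, ((PP d).card : ℝ) ≤ C + ε * d := fun d =>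
    (hC2' d).trans (by
      have : C2 ≤ C := (le_max_right _ _).trans (le_max_left _ _)
      linarith)
  have hM0 : 0 < M := by linarith
  have hlM : 0 ≤ Real.log M := Real.log_nonneg hM
  set K : ℝ := Real.log M + L * (2 * C) with hK
  have hK0 : 0 ≤ K := by positivity
  obtain ⟨S, hS⟩ := Filter.eventually_atTop.1 ((excV_ev_one K).and (excV_ev_two K t))
  refine ⟨(S + 12) * (S + 12) + 7, fun d hd s a hs hst ha => ?_⟩
  set σ := Nat.sqrt d with hσ
  have hS8 : S + 12 ≤ σ := Nat.le_sqrt.2 (by omega)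
  obtain ⟨e1, e2⟩ := hS σ (by omega)
  have hdlt : d < (σ + 1) * (σ + 1) := Nat.lt_succ_sqrt d
  have hdr : (d : ℝ) ≤ ((σ : ℝ) + 1) ^ 2 := by
    rw [sq]
    exact_mod_cast hdlt.le
  have hsq : Real.sqrt d ≤ (σ : ℝ) + 1 := by
    rw [Real.sqrt_le_left (by positivity)]
    exact hdr
  have hw := om_alt_ge d (by omega) (by omega)
  rw [← hσ] at hw
  set w := om (A d) with hwdef
  have hw2 : 2 ≤ w := two_le_om d (by omega)
  set u := Nat.sqrt w with hu
  set u2 := Nat.sqrt u with hu2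
  have huw : u * u ≤ w := Nat.sqrt_le w
  have hu2u : u2 * u2 ≤ u := Nat.sqrt_le u
  have hul : 2 ^ ((σ - 1) / 2) ≤ u := by
    rw [hu, Nat.le_sqrt]
    calc 2 ^ ((σ - 1) / 2) * 2 ^ ((σ - 1) / 2) = 2 ^ ((σ - 1) / 2 + (σ - 1) / 2) := by
          rw [pow_add]
      _ ≤ 2 ^ (σ - 1) := Nat.pow_le_pow_right (by norm_num) (by omega)
      _ ≤ w := hw
  have hu2l : 2 ^ ((σ - 1) / 2 / 2) ≤ u2 := by
    rw [hu2, Nat.le_sqrt]
    calc 2 ^ ((σ - 1) / 2 / 2) * 2 ^ ((σ - 1) / 2 / 2)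
        = 2 ^ ((σ - 1) / 2 / 2 + (σ - 1) / 2 / 2) := by rw [pow_add]
      _ ≤ 2 ^ ((σ - 1) / 2) := Nat.pow_le_pow_right (by norm_num) (by omega)
      _ ≤ u := hul
  obtain ⟨f1, f2, f3⟩ := e1 u2 hu2l
  obtain ⟨g1, g2, g3⟩ := e2 w hw
  have hu22 : 2 ≤ u2 := by
    refine le_trans ?_ hu2l
    calc 2 = 2 ^ 1 := by norm_num
      _ ≤ 2 ^ ((σ - 1) / 2 / 2) := Nat.pow_le_pow_right (by norm_num) (by omega)
  have hu1 : 1 ≤ u := excV_a1 hu22 hu2u
  have hOpos : (0 : ℝ) < (oo (Fin (s * a) → A d) : ℝ) := by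
    exact_mod_cast (oo_pos (Fin (s * a) → A d))
  have hQpos : (0 : ℝ) < ((QQ s (s * a)).card : ℝ) := by
    exact_mod_cast (excV_QQ_pos s (s * a))
  have hl2 : Real.log 2 ≤ 1 := by linarith [Real.log_two_lt_d9]
  have hs1r : (1 : ℝ) ≤ s := by exact_mod_cast hs
  have ha1r : (1 : ℝ) ≤ a := by exact_mod_cast ha
  have hsa1 : (1 : ℝ) ≤ (s : ℝ) * a := excV_a2 hs1r ha1r
  have hsqs : Real.sqrt s ≤ s := excV_a3 hs1r
  have hsqs0 : 0 ≤ Real.sqrt s := Real.sqrt_nonneg _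
  -- bounds for the two factors
  have hO2 : (oo (Fin (s * a) → A d) : ℝ) ≤ Real.exp (C + ε * ((σ : ℝ) + 1) ^ 2) := by
    have h1 : (oo (Fin (s * a) → A d) : ℝ) ≤ 2 ^ (PP d).card := by
      exact_mod_cast oo_pow_le d (s * a)
    have h2 : ((2 : ℝ) ^ (PP d).card) = Real.exp (Real.log 2 * (PP d).card) := by
      rw [Real.exp_mul, Real.exp_log (by norm_num), Real.rpow_natCast]
    rw [h2] at h1
    refine h1.trans (Real.exp_le_exp.2 ?_)
    have h3 : ((PP d).card : ℝ) ≤ C + ε * ((σ : ℝ) + 1) ^ 2 :=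
      (hC2 d).trans (by
        have := mul_le_mul_of_nonneg_left hdr hε0.le
        linarith)
    calc Real.log 2 * ((PP d).card : ℝ) ≤ 1 * ((PP d).card : ℝ) :=
          mul_le_mul_of_nonneg_right hl2 (Nat.cast_nonneg _)
      _ ≤ _ := by linarith
  have hQ1 : ((QQ s (s * a)).card : ℝ) ≤ Real.exp (C + ε * (a * Real.sqrt s)) := by
    have h1 : ((QQ s (s * a)).card : ℝ) ≤ ((EE (s * a)).card : ℝ) := by
      exact_mod_cast excV_QQ_le_EE s (s * a)
    refine (h1.trans (hC1 _)).trans (Real.exp_le_exp.2 ?_)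
    have h2 : Real.sqrt ((s * a : ℕ) : ℝ) ≤ a * Real.sqrt s := by
      push_cast
      exact excV_a4 hs1r ha1r
    have := mul_le_mul_of_nonneg_left h2 hε0.le
    linarith
  have hQ2 : ((QQ s (s * a)).card : ℝ) ≤ Real.exp (C + ε * s) := by
    have h1 : ((QQ s (s * a)).card : ℝ) ≤ 2 ^ (PP s).card := by
      exact_mod_cast excV_QQ_le_PP s (s * a)
    have h2 : ((2 : ℝ) ^ (PP s).card) = Real.exp (Real.log 2 * (PP s).card) := by
      rw [Real.exp_mul, Real.exp_log (by norm_num), Real.rpow_natCast]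
    rw [h2] at h1
    refine h1.trans (Real.exp_le_exp.2 ?_)
    have h3 := hC2 s
    calc Real.log 2 * ((PP s).card : ℝ) ≤ 1 * ((PP s).card : ℝ) :=
          mul_le_mul_of_nonneg_right hl2 (Nat.cast_nonneg _)
      _ ≤ _ := by linarith
  -- the bound for the second factor in terms of `min a R`
  have hQR : ∀ R : ℕ, s ≤ R * R →
      ((QQ s (s * a)).card : ℝ) ≤ Real.exp (C + ε * (((min a R : ℕ) : ℝ) * Real.sqrt s)) := by
    intro R hR
    rcases le_total a R with h | h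
    · rw [min_eq_left h]
      exact hQ1
    · rw [min_eq_right h]
      refine hQ2.trans (Real.exp_le_exp.2 ?_)
      have h1 : Real.sqrt s ≤ R := by
        rw [Real.sqrt_le_left (Nat.cast_nonneg _), sq]
        exact_mod_cast hR
      have h2 : (s : ℝ) ≤ R * Real.sqrt s := by
        calc (s : ℝ) = Real.sqrt s * Real.sqrt s := (Real.mul_self_sqrt (by linarith)).symm
          _ ≤ R * Real.sqrt s := mul_le_mul_of_nonneg_right h1 hsqs0
      have := mul_le_mul_of_nonneg_left h2 hε0.le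
      linarith
  unfold rv VV
  simp only
  rw [← hwdef, le_div_iff₀ (by positivity)]
  rcases Nat.lt_or_ge w s with hsw | hsw
  · -- `s > w`
    have hR1 : 1 ≤ 2 ^ (w / 2 / 2) := Nat.one_le_two_pow
    have hb1 : 1 ≤ min a (2 ^ (w / 2 / 2)) := le_min ha hR1
    have hb1r : (1 : ℝ) ≤ ((min a (2 ^ (w / 2 / 2)) : ℕ) : ℝ) := by exact_mod_cast hb1
    have hsw2 : s ≤ ((t + 1) * w) * ((t + 1) * w) := by
      exact hst.trans (excV_a5 t w)
    have hsR : s ≤ 2 ^ (w / 2 / 2) * 2 ^ (w / 2 / 2) := hsw2.trans (Nat.mul_le_mul g3 g3)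
    refine excV_core hOpos hQpos hO2 (hQR _ hsR) hM0 hR1 rfl
      (excV_VV_ge hR1 (excV_V_two' hw2 hsw) ha) ?_
    have hr : Real.log ((2 ^ (w / 2 / 2) : ℕ) : ℝ) = Real.log 2 * ((w / 2 / 2 : ℕ) : ℝ) := by
      push_cast
      rw [Real.log_pow, mul_comm]
    rw [hr]
    have hsqw : Real.sqrt s ≤ (t + 1) * w := by
      rw [Real.sqrt_le_left (by positivity), sq]
      exact_mod_cast hsw2
    have hr0 : 0 ≤ Real.log 2 * ((w / 2 / 2 : ℕ) : ℝ) := by positivity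
    set b : ℝ := ((min a (2 ^ (w / 2 / 2)) : ℕ) : ℝ) with hb
    set r : ℝ := Real.log 2 * ((w / 2 / 2 : ℕ) : ℝ) with hrdef
    have h3 : ((L : ℝ) * ε) * ((σ : ℝ) + 1) ^ 2 ≤ 1 / 16 * ((σ : ℝ) + 1) ^ 2 :=
      mul_le_mul_of_nonneg_right hεL (by positivity)
    have h4 : ((L : ℝ) * ε) * (b * Real.sqrt s) ≤ b * (1 / 16 * w) := by
      calc ((L : ℝ) * ε) * (b * Real.sqrt s)
          ≤ ((L : ℝ) * ε) * (b * ((t + 1) * w)) := by
            apply mul_le_mul_of_nonneg_left _ (by positivity)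
            exact mul_le_mul_of_nonneg_left hsqw (by linarith)
        _ = b * ((((L : ℝ) * ε) * (t + 1)) * w) := by ring
        _ ≤ b * (1 / 16 * w) := by
            apply mul_le_mul_of_nonneg_left _ (by linarith)
            exact mul_le_mul_of_nonneg_right hεt (Nat.cast_nonneg _)
    have h5 : b * (1 / 16 * w) ≤ b * (r / 2) := mul_le_mul_of_nonneg_left g2 (by linarith)
    have h6 : r ≤ b * r := le_mul_of_one_le_left hr0 hb1r
    have h7 : Real.log M + L * (C + ε * ((σ : ℝ) + 1) ^ 2 + (C + ε * (b * Real.sqrt s))) =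
        K + ((L : ℝ) * ε) * ((σ : ℝ) + 1) ^ 2 + ((L : ℝ) * ε) * (b * Real.sqrt s) := by
      rw [hK]; ring
    rw [h7]
    linarith
  · -- `s ≤ w`
    set j := min s u with hj
    have hj1 : 1 ≤ j := le_min hs hu1
    have hj1r : (1 : ℝ) ≤ j := by exact_mod_cast hj1
    set R := u2 ^ j with hR
    have hR1 : 1 ≤ R := Nat.one_le_pow _ _ (by omega)
    have hV := excV_V_one (s := s) hs huw hu1 hu2u
    have hb1 : 1 ≤ min a R := le_min ha hR1
    have hb1r : (1 : ℝ) ≤ ((min a R : ℕ) : ℝ) := by exact_mod_cast hb1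
    have hjR : j + 1 ≤ R := by
      calc j + 1 ≤ 2 ^ j := Nat.lt_two_pow_self
        _ ≤ u2 ^ j := Nat.pow_le_pow_left hu22 j
    have hsR : s ≤ R * R := excV_a6 hs hsw (Nat.lt_succ_sqrt w) hjR
    have hr : Real.log ((R : ℕ) : ℝ) = j * Real.log u2 := by
      rw [hR]
      push_cast
      rw [Real.log_pow]
    have hlu0 : 0 ≤ Real.log u2 := by linarith
    by_cases hcase : s ≤ u ∧ a ≤ R
    · -- the small range
      have hjs : j = s := min_eq_left hcase.1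
      have hO : (oo (Fin (s * a) → A d) : ℝ) ≤
          Real.exp (((s : ℝ) * a) * (C + ε * ((σ : ℝ) + 1))) := by
        have h0 : (oo (A d) : ℝ) ≤ Real.exp (C + ε * ((σ : ℝ) + 1)) := by
          have h1 : (oo (A d) : ℝ) ≤ (EE d).card := by exact_mod_cast oo_alt_le d
          refine h1.trans ((hC1 d).trans (Real.exp_le_exp.2 ?_))
          have := mul_le_mul_of_nonneg_left hsq hε0.le
          linarith
        have h1 : (oo (Fin (s * a) → A d) : ℝ) ≤ (oo (A d) : ℝ) ^ (s * a) := by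
          exact_mod_cast oo_pow_le_pow d (s * a)
        have h2 : Real.exp (((s : ℝ) * a) * (C + ε * ((σ : ℝ) + 1))) =
            (Real.exp (C + ε * ((σ : ℝ) + 1))) ^ (s * a) := by
          rw [← Real.exp_nat_mul]
          push_cast
          rfl
        rw [h2]
        exact h1.trans (pow_le_pow_left₀ (Nat.cast_nonneg _) h0 _)
      refine excV_core hOpos hQpos hO hQ1 hM0 hR1 rfl (excV_VV_ge hR1 hV ha) ?_
      rw [hr, min_eq_left hcase.2, hjs]
      have h1 : (a : ℝ) * Real.sqrt s ≤ (s : ℝ) * a := by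
        rw [mul_comm (s : ℝ)]
        exact mul_le_mul_of_nonneg_left hsqs (by linarith)
      have h2 : Real.log M ≤ ((s : ℝ) * a) * Real.log M := le_mul_of_one_le_left hlM hsa1
      have h3 : C ≤ ((s : ℝ) * a) * C := le_mul_of_one_le_left hC0 hsa1
      have h4 : ε * ((a : ℝ) * Real.sqrt s) ≤ ε * ((s : ℝ) * a) :=
        mul_le_mul_of_nonneg_left h1 hε0.le
      have h5 : (L : ℝ) * (((s : ℝ) * a) * (C + ε * ((σ : ℝ) + 1)) +
          (C + ε * ((a : ℝ) * Real.sqrt s))) ≤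
          L * (((s : ℝ) * a) * (2 * C + ε * ((σ : ℝ) + 2))) := by
        apply mul_le_mul_of_nonneg_left _ hL0
        exact excV_a11 h3 h4
      have h6 : ((L : ℝ) * ε) * ((σ : ℝ) + 2) ≤ 1 / 16 * ((σ : ℝ) + 2) :=
        mul_le_mul_of_nonneg_right hεL (by positivity)
      have h7 : K + ((L : ℝ) * ε) * ((σ : ℝ) + 2) ≤ Real.log u2 := by linarith
      have h8 := mul_le_mul_of_nonneg_left h7 (by linarith : (0 : ℝ) ≤ (s : ℝ) * a)
      calc Real.log M + L * (((s : ℝ) * a) * (C + ε * ((σ : ℝ) + 1)) +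
            (C + ε * ((a : ℝ) * Real.sqrt s)))
          ≤ ((s : ℝ) * a) * Real.log M + L * (((s : ℝ) * a) * (2 * C + ε * ((σ : ℝ) + 2))) := by
            linarith
        _ = ((s : ℝ) * a) * (K + ((L : ℝ) * ε) * ((σ : ℝ) + 2)) := by rw [hK]; ring
        _ ≤ ((s : ℝ) * a) * Real.log u2 := h8
        _ = _ := by ring
    · -- the other ranges
      refine excV_core hOpos hQpos hO2 (hQR R hsR) hM0 hR1 rfl (excV_VV_ge hR1 hV ha) ?_
      rw [hr]
      set b : ℝ := ((min a R : ℕ) : ℝ) with hb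
      have h7 : Real.log M + L * (C + ε * ((σ : ℝ) + 1) ^ 2 + (C + ε * (b * Real.sqrt s))) =
          K + ((L : ℝ) * ε) * ((σ : ℝ) + 1) ^ 2 + ((L : ℝ) * ε) * (b * Real.sqrt s) := by
        rw [hK]; ring
      rw [h7]
      -- `√s ≤ 2 j`
      have hsqj : Real.sqrt s ≤ 2 * j := excV_a7 hs hu1 hsw (Nat.lt_succ_sqrt w)
      have hbj : (2 : ℝ) ^ ((σ - 1) / 2 / 2) ≤ b * j := by
        rcases not_and_or.1 hcase with h | h
        · -- `u < s`
          have hju : j = u := min_eq_right (by omega)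
          have h1 : (2 : ℝ) ^ ((σ - 1) / 2 / 2) ≤ u := by
            have h2 : 2 ^ ((σ - 1) / 2 / 2) ≤ u :=
              (Nat.pow_le_pow_right (by norm_num) (by omega)).trans hul
            exact_mod_cast h2
          rw [hju]
          exact excV_a8 h1 (Nat.cast_nonneg _) hb1r
        · -- `R < a`
          have h1 : b = R := by rw [hb, min_eq_right (by omega)]
          have h2 : (2 : ℝ) ^ ((σ - 1) / 2 / 2) ≤ R := by
            have h3 : 2 ^ ((σ - 1) / 2 / 2) ≤ R := by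
              calc 2 ^ ((σ - 1) / 2 / 2) ≤ u2 := hu2l
                _ = u2 ^ 1 := (pow_one _).symm
                _ ≤ u2 ^ j := Nat.pow_le_pow_right (by omega) hj1
            exact_mod_cast h3
          rw [h1]
          exact excV_a9 h2 (Nat.cast_nonneg _) hj1r
      refine excV_comb hb1r hsqs0 ?_ ?_ hεL (by positivity)
      · calc 2 * K + 1 / 8 * ((σ : ℝ) + 1) ^ 2 ≤ (2 : ℝ) ^ ((σ - 1) / 2 / 2) * Real.log u2 := f2
          _ ≤ (b * j) * Real.log u2 := mul_le_mul_of_nonneg_right hbj hlu0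
          _ = b * (j * Real.log u2) := by ring
      · exact excV_a10 hsqj (Nat.cast_nonneg _) f3

theorem excV_fixed (L : ℕ) (M : ℝ) (d s : ℕ) (hd : 5 ≤ d) (hs : 1 ≤ s) : ∃ N : ℕ,
    ∀ a : ℕ, N ≤ a → M ≤ rv L (d, s, a) := by
  refine ⟨⌈M * (((2 : ℝ) ^ (PP d).card) * ((2 : ℝ) ^ (PP s).card)) ^ L⌉₊,
    fun a hk => ?_⟩
  have hOpos : (0 : ℝ) < (oo (Fin (s * a) → A d) : ℝ) := by
    exact_mod_cast (oo_pos (Fin (s * a) → A d))
  have hQpos : (0 : ℝ) < ((QQ s (s * a)).card : ℝ) := by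
    exact_mod_cast (excV_QQ_pos s (s * a))
  unfold rv VV
  simp only
  rw [le_div_iff₀ (by positivity)]
  have h1 : (oo (Fin (s * a) → A d) : ℝ) ≤ 2 ^ (PP d).card := by
    exact_mod_cast oo_pow_le d (s * a)
  have h2 : ((QQ s (s * a)).card : ℝ) ≤ 2 ^ (PP s).card := by
    exact_mod_cast excV_QQ_le_PP s (s * a)
  have hW : (a : ℝ) ≤ (Nat.multichoose (Nat.multichoose (om (A d)) s) a : ℝ) := by
    have := exc_W_two (excV_V_two hd hs) a
    have h2 : a ≤ Nat.multichoose (Nat.multichoose (om (A d)) s) a := by omega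
    exact_mod_cast h2
  rcases le_or_gt M 0 with hM | hM
  · have : M * ((oo (Fin (s * a) → A d) : ℝ) * ((QQ s (s * a)).card : ℝ)) ^ L ≤ 0 :=
      mul_nonpos_of_nonpos_of_nonneg hM (by positivity)
    exact this.trans (Nat.cast_nonneg _)
  · calc M * ((oo (Fin (s * a) → A d) : ℝ) * ((QQ s (s * a)).card : ℝ)) ^ L
        ≤ M * (((2 : ℝ) ^ (PP d).card) * ((2 : ℝ) ^ (PP s).card)) ^ L :=
          mul_le_mul_of_nonneg_left (pow_le_pow_left₀ (by positivity)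
            (mul_le_mul h1 h2 hQpos.le (by positivity)) L) hM.le
      _ ≤ a := Nat.ceil_le.1 hk
      _ ≤ _ := hW

theorem finite_excV_of (hpp : ∀ ε : ℝ, 0 < ε →
      ∃ C : ℝ, ∀ d : ℕ, ((PP d).card : ℝ) ≤ C + ε * d)
    (hpb : ∀ ε : ℝ, 0 < ε →
      ∃ C : ℝ, ∀ d : ℕ, ((EE d).card : ℝ) ≤ Real.exp (C + ε * Real.sqrt d))
    (L t : ℕ) (C : ℝ) :
    {p : ℕ × ℕ × ℕ | 5 ≤ p.1 ∧ 1 ≤ p.2.1 ∧ p.2.1 ≤ t * om (A p.1) ^ 2 ∧ 1 ≤ p.2.2 ∧
      rv L p < C}.Finite := by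
  obtain ⟨D, hD⟩ := excV_large hpp hpb L t (max C 1) (le_max_right _ _)
  have hK : ∀ d s : ℕ, ∃ K : ℕ, 5 ≤ d → 1 ≤ s → ∀ a : ℕ, K ≤ a → max C 1 ≤ rv L (d, s, a) := by
    intro d s
    by_cases hd : 5 ≤ d
    · by_cases hs : 1 ≤ s
      · obtain ⟨K, hK⟩ := excV_fixed L (max C 1) d s hd hs
        exact ⟨K, fun _ _ => hK⟩
      · exact ⟨0, fun _ h => absurd h hs⟩
    · exact ⟨0, fun h => absurd h hd⟩
  choose K hK using hK
  refine Set.Finite.subset (Set.Finite.biUnion (Set.finite_Iio D) fun d _ =>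
    Set.Finite.biUnion (Set.finite_Iic (t * om (A d) ^ 2)) fun s _ =>
      (Set.finite_Iio (K d s)).image fun a => ((d, s, a) : ℕ × ℕ × ℕ)) ?_
  rintro ⟨d, s, a⟩ ⟨h1, h2, h3, h4, h5⟩
  simp only at h1 h2 h3 h4
  have h6 : rv L (d, s, a) < max C 1 := lt_of_lt_of_le h5 (le_max_left _ _)
  have hd : d < D := by
    by_contra hcon
    push Not at hcon
    exact absurd (hD d hcon s a h2 h3 h4) (not_le.2 h6)
  have ha : a < K d s := by
    by_contra hcon
    push Not at hcon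
    exact absurd (hK d s h1 h2 a hcon) (not_le.2 h6)
  rw [Set.mem_iUnion₂]
  refine ⟨d, hd, ?_⟩
  rw [Set.mem_iUnion₂]
  exact ⟨s, h3, a, ha, rfl⟩

end SR32
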