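import Pool.Agent.SR32.ExcTCore
import Pool.Agent.SR32.DefsV

/-!
# SR32/VExcMc: a lower bound for the number of multisets
-/

namespace SR32

open Filter

/-- lower bound for multisets -/
theorem vexc_mc_ge {V a' a : ℕ} {x : ℝ} (hx : Real.exp (2 * x) ≤ V) (h1 : 1 ≤ a')
    (h2 : a' * a' ≤ V) (h3 : a' ≤ a) :
    Real.exp (a' * x) ≤ (Nat.multichoose V a : ℝ) := by
  have ha : (0 : ℝ) < a' := by exact_mod_cast h1
  have hV : 1 ≤ V := le_trans (Nat.mul_le_mul h1 h1) h2
  have hbase : Real.exp x ≤ (V : ℝ) / a' := by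
    have h4 : Real.exp x ^ 2 ≤ ((V : ℝ) / a') ^ 2 := by
      rw [← Real.exp_nat_mul, div_pow, le_div_iff₀ (by positivity)]
      push_cast
      have h3 : (a' : ℝ) ^ 2 ≤ V := by
        rw [sq]
        exact_mod_cast h2
      calc Real.exp (2 * x) * (a' : ℝ) ^ 2 ≤ V * V :=
            mul_le_mul hx h3 (by positivity) (Nat.cast_nonneg _)
        _ = (V : ℝ) ^ 2 := by ring
    exact (pow_le_pow_iff_left₀ (Real.exp_pos _).le (by positivity) (by norm_num)).1 h4
  calc Real.exp (a' * x) = (Real.exp x) ^ a' := by rw [Real.exp_nat_mul]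
    _ ≤ ((V : ℝ) / a') ^ a' := pow_le_pow_left₀ (Real.exp_pos _).le hbase _
    _ ≤ (Nat.multichoose V a' : ℝ) := exc_W_ge _ _ h1
    _ ≤ (Nat.multichoose V a : ℝ) := by exact_mod_cast exc_W_mono_right hV h3

end SR32
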