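import Pool.Agent.SR32.ExcTCore
import Pool.Agent.SR32.DefsV
import Pool.Agent.SR32.Density
import Pool.Agent.SR32.Part

/-!
# SR32/VExcS3: Claim F for triples `(d, s, a)`
-/

namespace SR32

open Filter

/-- lower bound for multisets -/
theorem vexc_mc_ge {V a' a : ℕ} {x : ℝ} (hx : Real.exp (2 * x) ≤ V) (h1 : 1 ≤ a')
    (h2 : a' * a' ≤ V) (h3 : a' ≤ a) :
    Real.exp (a' * x) ≤ (Nat.multichoose V a : ℝ) := by
  have ha : (0 : ℝ) < a' := by exact_mod_cast h1
  have hV : 1 ≤ V := le_trans (Nat.mul_le_mul h1 h1) h2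
  have hbase : Real.exp x ≤ (V : ℝ) / a' := by
    have h4 : Real.exp x ^ 2 ≤ ((V : ℝ) / a') ^ 2 := by
      rw [← Real.exp_nat_mul, div_pow, le_div_iff₀ (by positivity)]
      push_cast
      have h3 : (a' : ℝ) ^ 2 ≤ V := by
        rw [sq]
        exact_mod_cast h2
      calc Real.exp (2 * x) * (a' : ℝ) ^ 2 ≤ V * V :=
            mul_le_mul hx h3 (by positivity) (Nat.cast_nonneg _)
        _ = (V : ℝ) ^ 2 := by ring
    exact (pow_le_pow_iff_left₀ (Real.exp_pos _).le (by positivity) (by norm_num)).1 h4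
  calc Real.exp (a' * x) = (Real.exp x) ^ a' := by rw [Real.exp_nat_mul]
    _ ≤ ((V : ℝ) / a') ^ a' := pow_le_pow_left₀ (Real.exp_pos _).le hbase _
    _ ≤ (Nat.multichoose V a' : ℝ) := exc_W_ge _ _ h1
    _ ≤ (Nat.multichoose V a : ℝ) := by exact_mod_cast exc_W_mono_right hV h3

theorem vexc_core (L : ℕ) {M O Q X Y R : ℝ} (hM : 0 < M) (hO0 : 0 ≤ O) (hQ0 : 0 ≤ Q)
    (hO : O ≤ Real.exp X) (hQ : Q ≤ Real.exp Y) (h : Real.log M + L * (X + Y) ≤ R) :
    M * (O * Q) ^ L ≤ Real.exp R := by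
  refine le_trans ?_ (Real.exp_le_exp.2 h)
  rw [Real.exp_add, Real.exp_log hM, Real.exp_nat_mul, Real.exp_add]
  exact mul_le_mul_of_nonneg_left (pow_le_pow_left₀ (by positivity)
    (mul_le_mul hO hQ hQ0 (Real.exp_pos _).le) L) hM.le

theorem vexc_pow4 {s : ℕ} (hs : 18 ≤ s) : (s + 1) ^ 4 ≤ 2 ^ (s - 1) := by
  induction s, hs using Nat.le_induction with
  | base => norm_num
  | succ n hn ih =>
    have h1 : n + 1 - 1 = (n - 1) + 1 := by omega
    have h2 : 2 ^ (n - 1 + 1) = 2 ^ (n - 1) * 2 := pow_succ 2 (n - 1)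
    rw [h1, h2]
    have h3 : (n + 1 + 1) ^ 4 ≤ (n + 1) ^ 4 * 2 := by
      have h5 : (n + 1 + 1) ^ 2 * 10 ≤ (n + 1) ^ 2 * 12 := by nlinarith
      have h6 : ((n + 1 + 1) ^ 2 * 10) ^ 2 ≤ ((n + 1) ^ 2 * 12) ^ 2 := Nat.pow_le_pow_left h5 2
      nlinarith
    omega

/-- numbers -/
theorem vexc_num {L : ℕ} {lM C2 D ε y z T : ℝ} (hε : 0 < ε) (hT : 0 ≤ T)
    (hLε : (L : ℝ) * ε * (T + 1) ≤ 1 / 100) (hy : 0 ≤ y) (hyz : y ≤ z)
    (hK : |lM| + L * (|C2| + |D|) ≤ y / 25) :
    lM + L * (Real.log 2 * (C2 + ε * y) + (D + ε * (T * z))) ≤ 0.05 * z := by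
  have hL : (0 : ℝ) ≤ L := Nat.cast_nonneg _
  have hl0 : 0 ≤ Real.log 2 := Real.log_nonneg (by norm_num)
  have hl1 : Real.log 2 ≤ 1 := by have := Real.log_two_lt_d9; linarith
  have h1 : Real.log 2 * (C2 + ε * y) ≤ |C2| + ε * z := by
    have h2 : Real.log 2 * C2 ≤ |C2| := by
      calc Real.log 2 * C2 ≤ Real.log 2 * |C2| := mul_le_mul_of_nonneg_left (le_abs_self _) hl0
        _ ≤ 1 * |C2| := mul_le_mul_of_nonneg_right hl1 (abs_nonneg _)
        _ = |C2| := one_mul _
    have h3 : Real.log 2 * (ε * y) ≤ ε * z := by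
      calc Real.log 2 * (ε * y) ≤ 1 * (ε * y) :=
            mul_le_mul_of_nonneg_right hl1 (by positivity)
        _ = ε * y := one_mul _
        _ ≤ ε * z := mul_le_mul_of_nonneg_left hyz hε.le
    rw [mul_add]
    linarith
  have h4 : D ≤ |D| := le_abs_self _
  have h5 : lM ≤ |lM| := le_abs_self _
  have h6 : (L : ℝ) * (Real.log 2 * (C2 + ε * y) + (D + ε * (T * z))) ≤
      L * (|C2| + |D|) + L * ε * (T + 1) * z := by
    calc (L : ℝ) * (Real.log 2 * (C2 + ε * y) + (D + ε * (T * z))) ≤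
          L * ((|C2| + ε * z) + (|D| + ε * (T * z))) :=
          mul_le_mul_of_nonneg_left (by linarith) hL
      _ = L * (|C2| + |D|) + L * ε * (T + 1) * z := by ring
  have h7 : L * ε * (T + 1) * z ≤ 1 / 100 * z :=
    mul_le_mul_of_nonneg_right hLε (hy.trans hyz)
  linarith

theorem vexc_large (L t : ℕ) (M : ℝ) (hM : 1 ≤ M) : ∃ N : ℕ, ∀ d : ℕ, N ≤ d →
    ∀ s a : ℕ, 1 ≤ s → s ≤ t * om (A d) ^ 2 → 1 ≤ a → M ≤ rv L (d, s, a) := by
  set ε : ℝ := 1 / (100 * (((L : ℝ) + 1) * ((t : ℝ) + 3))) with hε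
  have hL0 : (0 : ℝ) ≤ L := Nat.cast_nonneg _
  have ht0 : (0 : ℝ) ≤ t := Nat.cast_nonneg _
  have hε0 : 0 < ε := by positivity
  have hεt : (L : ℝ) * ε * ((t : ℝ) + 3) ≤ 1 / 100 := by
    have : (L : ℝ) * ε * ((t : ℝ) + 3) = (L * ((t : ℝ) + 3)) /
        (100 * (((L : ℝ) + 1) * ((t : ℝ) + 3))) := by
      rw [hε]; ring
    rw [this, div_le_div_iff₀ (by positivity) (by norm_num)]
    nlinarith
  have hLε0 : 0 ≤ (L : ℝ) * ε := by positivity
  have hεt1 : (L : ℝ) * ε * ((t : ℝ) + 1) ≤ 1 / 100 :=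
    (mul_le_mul_of_nonneg_left (by linarith) hLε0).trans hεt
  have hε2 : (L : ℝ) * ε * ((2 : ℝ) + 1) ≤ 1 / 100 :=
    (mul_le_mul_of_nonneg_left (by linarith) hLε0).trans hεt
  have hε1 : (L : ℝ) * ε ≤ 1 / 100 := by nlinarith
  obtain ⟨C1, hC1⟩ := part_bound ε hε0
  obtain ⟨C2, hC2⟩ := pp_density ε hε0
  have hM0 : 0 < M := by linarith
  have hlM : 0 ≤ Real.log M := Real.log_nonneg hM
  have hlog2 : 0 < Real.log 2 := Real.log_pos (by norm_num)
  have hl := Real.log_two_gt_d9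
  obtain ⟨S, hS⟩ := exists_nat_ge (25 * (|Real.log M| + L * (|C2| + |C1|)) +
    25 * (|Real.log M| + L * (|C2| + |Real.log 2 * C2|)) +
    100 * (Real.log M + 2 * L * |C1|) + 30)
  refine ⟨S * S + 7, fun d hd s a hs hst ha => ?_⟩
  set s0 := Nat.sqrt d with hs0d
  have hSs : S ≤ s0 := Nat.le_sqrt.2 (by omega)
  have hSr : (S : ℝ) ≤ s0 := by exact_mod_cast hSs
  have hA1 : 0 ≤ |Real.log M| + L * (|C2| + |C1|) := by positivity
  have hA2 : 0 ≤ |Real.log M| + L * (|C2| + |Real.log 2 * C2|) := by positivity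
  have hA3 : 0 ≤ Real.log M + 2 * L * |C1| := by positivity
  have hs30 : (30 : ℝ) ≤ s0 := by linarith
  have hs30' : 30 ≤ s0 := by exact_mod_cast hs30
  obtain ⟨y, hy⟩ : ∃ y : ℝ, y = ((s0 : ℝ) + 1) ^ 2 := ⟨_, rfl⟩
  have hys : (s0 : ℝ) ≤ y := by rw [hy]; nlinarith
  have hy0 : 0 ≤ y := by linarith
  have hK1 : |Real.log M| + L * (|C2| + |C1|) ≤ y / 25 := by linarith
  have hK2 : |Real.log M| + L * (|C2| + |Real.log 2 * C2|) ≤ y / 25 := by linarith
  have hdlt : d < (s0 + 1) * (s0 + 1) := Nat.lt_succ_sqrt d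
  have hdr : (d : ℝ) ≤ y := by
    rw [hy, sq]
    exact_mod_cast hdlt.le
  have hsq : Real.sqrt d ≤ (s0 : ℝ) + 1 := by
    rw [Real.sqrt_le_left (by positivity), ← hy]
    exact hdr
  have hw := om_alt_ge d (by omega) (by omega)
  rw [← hs0d] at hw
  set w := om (A d) with hwdef
  have hwr : (2 : ℝ) ^ (s0 - 1) ≤ (w : ℝ) := by exact_mod_cast hw
  have hw4 : (s0 + 1) ^ 4 ≤ w := (vexc_pow4 (by omega)).trans hw
  have hw1 : 1 ≤ w := om_pos _
  obtain ⟨w', hw'⟩ : ∃ w', w' = Nat.sqrt w := ⟨_, rfl⟩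
  have hw'1 : (s0 + 1) ^ 2 ≤ w' := by
    rw [hw', Nat.le_sqrt]
    calc (s0 + 1) ^ 2 * (s0 + 1) ^ 2 = (s0 + 1) ^ 4 := by ring
      _ ≤ w := hw4
  have hw'w : w' * w' ≤ w := by rw [hw']; exact Nat.sqrt_le w
  have hw'lt : w < (w' + 1) * (w' + 1) := by rw [hw']; exact Nat.lt_succ_sqrt w
  have hyw' : y ≤ (w' : ℝ) := by rw [hy]; exact_mod_cast hw'1
  have hs0w' : 900 ≤ w' := by nlinarith
  have hw'le : w' ≤ w := by nlinarith
  have hw900 : 900 ≤ w := hs0w'.trans hw'le
  have hw'r : (w' : ℝ) ≤ w := by exact_mod_cast hw'le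
  have hw900r : (900 : ℝ) ≤ w := by exact_mod_cast hw900
  have hw'900r : (900 : ℝ) ≤ w' := by exact_mod_cast hs0w'
  -- `x1`
  obtain ⟨x1, hx1⟩ : ∃ x1 : ℝ, x1 = ((s0 : ℝ) - 1) * Real.log 2 / 2 := ⟨_, rfl⟩
  have hx1w : Real.exp (2 * x1) ≤ (w : ℝ) := by
    have h2 : 2 * x1 = Real.log 2 * ((s0 - 1 : ℕ) : ℝ) := by
      rw [hx1]
      push_cast [Nat.cast_sub (show 1 ≤ s0 by omega)]
      ring
    rw [h2, Real.exp_mul, Real.exp_log (by norm_num), Real.rpow_natCast]
    exact hwr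
  have hx1b : 0.345 * ((s0 : ℝ) - 1) ≤ x1 := by
    rw [hx1]
    have : 0.69 * ((s0 : ℝ) - 1) ≤ ((s0 : ℝ) - 1) * Real.log 2 := by
      rw [mul_comm]
      exact mul_le_mul_of_nonneg_left (by linarith) (by linarith)
    linarith
  have hx1c : 1 ≤ x1 := by linarith
  -- `V`
  set V := Nat.multichoose w s with hV
  have hVw : w ≤ V := by
    have := exc_W_mono_right hw1 hs
    rwa [Nat.multichoose_one_right] at this
  have ha0 : (0 : ℝ) < a := by exact_mod_cast ha
  have ha1 : (1 : ℝ) ≤ a := by exact_mod_cast ha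
  have hs1r : (1 : ℝ) ≤ s := by exact_mod_cast hs
  -- the denominators
  have hOpos : (0 : ℝ) < (oo (Fin (s * a) → A d) : ℝ) := by
    exact_mod_cast (oo_pos (Fin (s * a) → A d))
  have hQpos : (0 : ℝ) < ((QQ s (s * a)).card : ℝ) := by
    exact_mod_cast (QQ_pos s (s * a))
  have htwo : ∀ n : ℕ, ((2 : ℝ) ^ n) = Real.exp (Real.log 2 * n) := fun n => by
    rw [Real.exp_mul, Real.exp_log (by norm_num), Real.rpow_natCast]
  have hOP : (oo (Fin (s * a) → A d) : ℝ) ≤ Real.exp (Real.log 2 * (C2 + ε * y)) := by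
    have h1 : (oo (Fin (s * a) → A d) : ℝ) ≤ 2 ^ (PP d).card := by
      exact_mod_cast oo_pow_le d (s * a)
    rw [htwo] at h1
    refine h1.trans (Real.exp_le_exp.2 (mul_le_mul_of_nonneg_left ?_ hlog2.le))
    refine (hC2 d).trans ?_
    have := mul_le_mul_of_nonneg_left hdr hε0.le
    linarith
  have hQE : ((QQ s (s * a)).card : ℝ) ≤ Real.exp (C1 + ε * Real.sqrt ((s * a : ℕ) : ℝ)) := by
    have h1 : ((QQ s (s * a)).card : ℝ) ≤ (EE (s * a)).card := by
      exact_mod_cast QQ_le_EE s (s * a)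
    exact h1.trans (hC1 _)
  have hQP : ∀ z : ℝ, (s : ℝ) ≤ z →
      ((QQ s (s * a)).card : ℝ) ≤ Real.exp (Real.log 2 * C2 + ε * z) := by
    intro z hz
    have h1 : ((QQ s (s * a)).card : ℝ) ≤ 2 ^ (PP s).card := by
      exact_mod_cast QQ_le_PP s (s * a)
    rw [htwo] at h1
    refine h1.trans (Real.exp_le_exp.2 ?_)
    have h2 := mul_le_mul_of_nonneg_left (hC2 s) hlog2.le
    have h3 : Real.log 2 * (ε * s) ≤ ε * z := by
      have hl1 : Real.log 2 ≤ 1 := by have := Real.log_two_lt_d9; linarith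
      calc Real.log 2 * (ε * s) ≤ 1 * (ε * s) :=
            mul_le_mul_of_nonneg_right hl1 (by positivity)
        _ = ε * s := one_mul _
        _ ≤ ε * z := mul_le_mul_of_nonneg_left hz hε0.le
    rw [mul_add] at h2
    linarith
  unfold rv VV
  simp only
  rw [← hwdef, ← hV, le_div_iff₀ (by positivity)]
  rcases Nat.lt_or_ge w' s with hsw | hsw
  · rcases Nat.lt_or_ge w s with hsw2 | hsw2
    · -- `w < s`
      have htr : (1 : ℝ) ≤ t := by
        have : t ≠ 0 := by
          intro h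
          rw [h] at hst
          omega
        exact_mod_cast Nat.one_le_iff_ne_zero.2 this
      have hstr : (s : ℝ) ≤ t * (w : ℝ) ^ 2 := by exact_mod_cast hst
      rcases Nat.lt_or_ge V (a * a) with hVa | hVa
      · -- `a` large
        have hV6 : w ^ 4 ≤ V := by
          have h1 := exc_W_ge w 8 (by norm_num)
          have h2 : Nat.multichoose w 8 ≤ V := exc_W_mono_right hw1 (by omega)
          have h3 : ((w : ℝ) ^ 4) ≤ ((w : ℝ) / (8 : ℕ)) ^ 8 := by
            rw [div_pow, le_div_iff₀ (by positivity)]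
            push_cast
            have h4 : (8 : ℝ) ^ 8 ≤ (w : ℝ) ^ 4 := by
              calc (8 : ℝ) ^ 8 ≤ (900 : ℝ) ^ 4 := by norm_num
                _ ≤ (w : ℝ) ^ 4 := pow_le_pow_left₀ (by norm_num) hw900r 4
            calc (w : ℝ) ^ 4 * 8 ^ 8 ≤ (w : ℝ) ^ 4 * (w : ℝ) ^ 4 :=
                  mul_le_mul_of_nonneg_left h4 (by positivity)
              _ = (w : ℝ) ^ 8 := by ring
          have h5 : ((w ^ 4 : ℕ) : ℝ) ≤ (V : ℝ) := by
            push_cast
            exact h3.trans (h1.trans (by exact_mod_cast h2))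
          exact_mod_cast h5
        have h7 : w ^ 2 * w ^ 2 ≤ V := by
          calc w ^ 2 * w ^ 2 = w ^ 4 := by ring
            _ ≤ V := hV6
        have h8 : w ^ 2 ≤ a := by
          by_contra hcon
          push Not at hcon
          have := Nat.mul_le_mul hcon.le hcon.le
          omega
        have h9 := vexc_mc_ge (V := V) (a' := w ^ 2) (a := a) (x := x1)
          (hx1w.trans (by exact_mod_cast hVw)) (Nat.one_le_pow _ _ (by omega)) h7 h8
        have hQ := hQP (t * (w : ℝ) ^ 2) hstr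
        have hz : y ≤ (w : ℝ) ^ 2 := by nlinarith
        have hn := vexc_num (L := L) (lM := Real.log M) (C2 := C2) (D := Real.log 2 * C2)
          (ε := ε) (y := y) (z := (w : ℝ) ^ 2) (T := t) hε0 ht0 hεt1 hy0 hz hK2
        refine (vexc_core L hM0 hOpos.le hQpos.le hOP hQ hn).trans (le_trans ?_ h9)
        apply Real.exp_le_exp.2
        push_cast
        nlinarith
      · -- `a` small
        have hV5 : Real.exp (2 * (Real.log 2 * (((w : ℝ) - 1) / 4))) ≤ (V : ℝ) := by
          have hh1 : 1 ≤ w / 2 := by omega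
          have h2 : ((w : ℝ) - 1) / 2 ≤ ((w / 2 : ℕ) : ℝ) := by
            have : w ≤ 2 * (w / 2) + 1 := by omega
            have h3 : (w : ℝ) ≤ 2 * ((w / 2 : ℕ) : ℝ) + 1 := by exact_mod_cast this
            linarith
          have hh0 : (0 : ℝ) < ((w / 2 : ℕ) : ℝ) := by exact_mod_cast hh1
          calc Real.exp (2 * (Real.log 2 * (((w : ℝ) - 1) / 4)))
              = Real.exp (Real.log 2 * (((w : ℝ) - 1) / 2)) := by congr 1; ring
            _ ≤ Real.exp (Real.log 2 * ((w / 2 : ℕ) : ℝ)) :=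
                Real.exp_le_exp.2 (mul_le_mul_of_nonneg_left h2 hlog2.le)
            _ = (2 : ℝ) ^ (w / 2) := (htwo _).symm
            _ ≤ ((w : ℝ) / ((w / 2 : ℕ) : ℝ)) ^ (w / 2) := by
                apply pow_le_pow_left₀ (by norm_num)
                rw [le_div_iff₀ hh0]
                have : 2 * (w / 2) ≤ w := by omega
                exact_mod_cast this
            _ ≤ (Nat.multichoose w (w / 2) : ℝ) := exc_W_ge _ _ hh1
            _ ≤ (V : ℝ) := by
                exact_mod_cast exc_W_mono_right hw1 (by omega)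
        have h9 := vexc_mc_ge (V := V) (a' := a) (a := a) hV5 ha hVa le_rfl
        have hsqa : Real.sqrt ((s * a : ℕ) : ℝ) ≤ t * (a * w) := by
          rw [Real.sqrt_le_left (by positivity)]
          push_cast
          calc (s : ℝ) * a ≤ (t * (w : ℝ) ^ 2) * a := mul_le_mul_of_nonneg_right hstr ha0.le
            _ ≤ (t * (w : ℝ) ^ 2) * (a * (t * a)) := by
                apply mul_le_mul_of_nonneg_left _ (by positivity)
                have : 1 ≤ (t : ℝ) * a := by nlinarith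
                nlinarith
            _ = (t * (a * w)) ^ 2 := by ring
        have hQ : ((QQ s (s * a)).card : ℝ) ≤ Real.exp (C1 + ε * (t * (a * w))) := by
          refine hQE.trans (Real.exp_le_exp.2 ?_)
          have := mul_le_mul_of_nonneg_left hsqa hε0.le
          linarith
        have hz : y ≤ (a : ℝ) * w := by nlinarith
        have hn := vexc_num (L := L) (lM := Real.log M) (C2 := C2) (D := C1)
          (ε := ε) (y := y) (z := (a : ℝ) * w) (T := t) hε0 ht0 hεt1 hy0 hz hK1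
        refine (vexc_core L hM0 hOpos.le hQpos.le hOP hQ hn).trans (le_trans ?_ h9)
        apply Real.exp_le_exp.2
        have h10 : 0.05 * (w : ℝ) ≤ Real.log 2 * (((w : ℝ) - 1) / 4) := by nlinarith
        have h11 := mul_le_mul_of_nonneg_left h10 ha0.le
        linarith
    · -- `w' < s ≤ w`
      have hswr : (s : ℝ) ≤ w := by exact_mod_cast hsw2
      rcases Nat.lt_or_ge V (a * a) with hVa | hVa
      · have hV4 : w * w ≤ V := by
          have h1 := exc_W_ge w 4 (by norm_num)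
          have h2 : Nat.multichoose w 4 ≤ V := exc_W_mono_right hw1 (by omega)
          have h3 : ((w : ℝ) * w) ≤ ((w : ℝ) / (4 : ℕ)) ^ 4 := by
            rw [div_pow, le_div_iff₀ (by positivity)]
            push_cast
            have h4 : (4 : ℝ) ^ 4 ≤ (w : ℝ) * w := by nlinarith
            calc (w : ℝ) * w * 4 ^ 4 ≤ ((w : ℝ) * w) * ((w : ℝ) * w) :=
                  mul_le_mul_of_nonneg_left h4 (by positivity)
              _ = (w : ℝ) ^ 4 := by ring
          have h5 : ((w * w : ℕ) : ℝ) ≤ (V : ℝ) := by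
            push_cast
            exact h3.trans (h1.trans (by exact_mod_cast h2))
          exact_mod_cast h5
        have h8 : w ≤ a := by
          by_contra hcon
          push Not at hcon
          have := Nat.mul_le_mul hcon.le hcon.le
          omega
        have h9 := vexc_mc_ge (V := V) (a' := w) (a := a) (x := x1)
          (hx1w.trans (by exact_mod_cast hVw)) hw1 hV4 h8
        have hQ := hQP w hswr
        have hz : y ≤ (w : ℝ) := hyw'.trans hw'r
        have hQ' : ((QQ s (s * a)).card : ℝ) ≤ Real.exp (Real.log 2 * C2 + ε * (2 * (w : ℝ))) := by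
          refine hQ.trans (Real.exp_le_exp.2 ?_)
          have : 0 ≤ ε * (w : ℝ) := by positivity
          linarith
        have hn := vexc_num (L := L) (lM := Real.log M) (C2 := C2) (D := Real.log 2 * C2)
          (ε := ε) (y := y) (z := (w : ℝ)) (T := 2) hε0 (by norm_num) hε2 hy0 hz hK2
        refine (vexc_core L hM0 hOpos.le hQpos.le hOP hQ' hn).trans (le_trans ?_ h9)
        apply Real.exp_le_exp.2
        nlinarith
      · have hV3 : Real.exp (2 * ((w' : ℝ) * x1 / 2)) ≤ (V : ℝ) := by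
          have := vexc_mc_ge (V := w) (a' := w') (a := s) (x := x1) hx1w (by omega) hw'w hsw.le
          rw [show 2 * ((w' : ℝ) * x1 / 2) = (w' : ℝ) * x1 by ring]
          exact this
        have h9 := vexc_mc_ge (V := V) (a' := a) (a := a) hV3 ha hVa le_rfl
        have hsqa : Real.sqrt ((s * a : ℕ) : ℝ) ≤ 2 * (a * w') := by
          rw [Real.sqrt_le_left (by positivity)]
          push_cast
          have h1 : (w : ℝ) ≤ ((w' : ℝ) + 1) * ((w' : ℝ) + 1) := by exact_mod_cast hw'lt.le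
          have h2 : ((w' : ℝ) + 1) * ((w' : ℝ) + 1) ≤ 4 * (w' * w') := by nlinarith
          calc (s : ℝ) * a ≤ (4 * ((w' : ℝ) * w')) * a :=
                mul_le_mul_of_nonneg_right (hswr.trans (h1.trans h2)) ha0.le
            _ ≤ (4 * ((w' : ℝ) * w')) * (a * a) := by
                apply mul_le_mul_of_nonneg_left _ (by positivity)
                nlinarith
            _ = (2 * (a * w')) ^ 2 := by ring
        have hQ : ((QQ s (s * a)).card : ℝ) ≤ Real.exp (C1 + ε * (2 * (a * w'))) := by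
          refine hQE.trans (Real.exp_le_exp.2 ?_)
          have := mul_le_mul_of_nonneg_left hsqa hε0.le
          linarith
        have hz : y ≤ (a : ℝ) * w' := by nlinarith
        have hn := vexc_num (L := L) (lM := Real.log M) (C2 := C2) (D := C1)
          (ε := ε) (y := y) (z := (a : ℝ) * w') (T := 2) hε0 (by norm_num) hε2 hy0 hz hK1
        refine (vexc_core L hM0 hOpos.le hQpos.le hOP hQ hn).trans (le_trans ?_ h9)
        apply Real.exp_le_exp.2
        have h10 : 0.05 * (w' : ℝ) ≤ (w' : ℝ) * x1 / 2 := by nlinarith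
        have h11 := mul_le_mul_of_nonneg_left h10 ha0.le
        linarith
  · -- `s ≤ w'`
    have hswr : (s : ℝ) ≤ w' := by exact_mod_cast hsw
    rcases Nat.lt_or_ge V (a * a) with hVa | hVa
    · have h8 : w' ≤ a := by
        by_contra hcon
        push Not at hcon
        have := Nat.mul_le_mul hcon.le hcon.le
        omega
      have h9 := vexc_mc_ge (V := V) (a' := w') (a := a) (x := x1)
        (hx1w.trans (by exact_mod_cast hVw)) (by omega) (hw'w.trans hVw) h8
      have hQ := hQP w' hswr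
      have hQ' : ((QQ s (s * a)).card : ℝ) ≤ Real.exp (Real.log 2 * C2 + ε * (2 * (w' : ℝ))) := by
        refine hQ.trans (Real.exp_le_exp.2 ?_)
        have : 0 ≤ ε * (w' : ℝ) := by positivity
        linarith
      have hn := vexc_num (L := L) (lM := Real.log M) (C2 := C2) (D := Real.log 2 * C2)
        (ε := ε) (y := y) (z := (w' : ℝ)) (T := 2) hε0 (by norm_num) hε2 hy0 hyw' hK2
      refine (vexc_core L hM0 hOpos.le hQpos.le hOP hQ' hn).trans (le_trans ?_ h9)
      apply Real.exp_le_exp.2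
      nlinarith
    · -- both small
      have hss : s * s ≤ w := by
        have := Nat.mul_le_mul hsw hsw
        omega
      have hV1 : Real.exp (2 * ((s : ℝ) * x1 / 2)) ≤ (V : ℝ) := by
        have := vexc_mc_ge (V := w) (a' := s) (a := s) (x := x1) hx1w hs hss le_rfl
        rw [show 2 * ((s : ℝ) * x1 / 2) = (s : ℝ) * x1 by ring]
        exact this
      have h9 := vexc_mc_ge (V := V) (a' := a) (a := a) hV1 ha hVa le_rfl
      obtain ⟨k, hk⟩ : ∃ k, k = s * a := ⟨_, rfl⟩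
      rw [← hk] at hQE hQpos hOpos ⊢
      have hk1 : 1 ≤ k := by rw [hk]; exact Nat.mul_pos hs ha
      have hk1r : (1 : ℝ) ≤ k := by exact_mod_cast hk1
      have hk0 : (0 : ℝ) < k := by linarith
      have hkr : (k : ℝ) = s * a := by rw [hk]; push_cast; ring
      have hO : (oo (Fin k → A d) : ℝ) ≤ Real.exp (k * (|C1| + ε * ((s0 : ℝ) + 1))) := by
        have h0 : (oo (A d) : ℝ) ≤ Real.exp (|C1| + ε * ((s0 : ℝ) + 1)) := by
          have h1 : (oo (A d) : ℝ) ≤ (EE d).card := by exact_mod_cast oo_alt_le d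
          refine h1.trans ((hC1 d).trans (Real.exp_le_exp.2 ?_))
          have := mul_le_mul_of_nonneg_left hsq hε0.le
          have := le_abs_self C1
          linarith
        have h1 : (oo (Fin k → A d) : ℝ) ≤ (oo (A d) : ℝ) ^ k := by
          exact_mod_cast oo_pow_le_pow d k
        rw [Real.exp_nat_mul]
        exact h1.trans (pow_le_pow_left₀ (Nat.cast_nonneg _) h0 k)
      have hQ : ((QQ s k).card : ℝ) ≤ Real.exp (k * (|C1| + ε * ((s0 : ℝ) + 1))) := by
        refine hQE.trans (Real.exp_le_exp.2 ?_)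
        have h1 : Real.sqrt k ≤ k := by
          rw [Real.sqrt_le_left hk0.le]
          nlinarith
        have h2 : C1 ≤ k * |C1| := by
          have h3 := le_abs_self C1
          have h4 := mul_le_mul_of_nonneg_right hk1r (abs_nonneg C1)
          linarith
        have h3 : Real.sqrt k ≤ k * ((s0 : ℝ) + 1) := by
          have : (k : ℝ) * 1 ≤ k * ((s0 : ℝ) + 1) :=
            mul_le_mul_of_nonneg_left (by linarith) hk0.le
          linarith
        have h4 := mul_le_mul_of_nonneg_left h3 hε0.le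
        calc C1 + ε * Real.sqrt k ≤ k * |C1| + ε * (k * ((s0 : ℝ) + 1)) := by linarith
          _ = k * (|C1| + ε * ((s0 : ℝ) + 1)) := by ring
      refine (vexc_core L hM0 hOpos.le hQpos.le hO hQ
        (R := (a : ℝ) * ((s : ℝ) * x1 / 2)) ?_).trans h9
      have h10 : (a : ℝ) * ((s : ℝ) * x1 / 2) = k * (x1 / 2) := by rw [hkr]; ring
      rw [h10]
      have h11 : Real.log M + 2 * L * |C1| + 2 * (L * ε) * ((s0 : ℝ) + 1) ≤ x1 / 2 := by
        have h12 : 2 * (L * ε) * ((s0 : ℝ) + 1) ≤ 2 * (1 / 100) * ((s0 : ℝ) + 1) :=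
          mul_le_mul_of_nonneg_right (by linarith) (by linarith)
        linarith
      have h12 := mul_le_mul_of_nonneg_left h11 hk0.le
      have h13 : Real.log M ≤ k * Real.log M := by
        have := mul_le_mul_of_nonneg_right hk1r hlM
        linarith
      calc Real.log M + L * (k * (|C1| + ε * ((s0 : ℝ) + 1)) + k * (|C1| + ε * ((s0 : ℝ) + 1)))
          ≤ k * Real.log M + L * (k * (|C1| + ε * ((s0 : ℝ) + 1)) +
              k * (|C1| + ε * ((s0 : ℝ) + 1))) := by linarith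
        _ = k * (Real.log M + 2 * L * |C1| + 2 * (L * ε) * ((s0 : ℝ) + 1)) := by ring
        _ ≤ k * (x1 / 2) := h12

theorem vexc_fixed (L : ℕ) (M : ℝ) (d s : ℕ) (hd : 5 ≤ d) (hs : 1 ≤ s) :
    ∃ K : ℕ, ∀ a : ℕ, K ≤ a → M ≤ rv L (d, s, a) := by
  refine ⟨⌈M * ((2 : ℝ) ^ (PP d).card * (2 : ℝ) ^ (PP s).card) ^ L⌉₊, fun a ha => ?_⟩
  have hOpos : (0 : ℝ) < (oo (Fin (s * a) → A d) : ℝ) := by
    exact_mod_cast (oo_pos (Fin (s * a) → A d))
  have hQpos : (0 : ℝ) < ((QQ s (s * a)).card : ℝ) := by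
    exact_mod_cast (QQ_pos s (s * a))
  unfold rv VV
  simp only
  rw [le_div_iff₀ (by positivity)]
  have h1 : (oo (Fin (s * a) → A d) : ℝ) ≤ 2 ^ (PP d).card := by
    exact_mod_cast oo_pow_le d (s * a)
  have h2 : ((QQ s (s * a)).card : ℝ) ≤ 2 ^ (PP s).card := by
    exact_mod_cast QQ_le_PP s (s * a)
  have hW : (a : ℝ) ≤ (Nat.multichoose (Nat.multichoose (om (A d)) s) a : ℝ) := by
    have h3 := exc_W_two (two_le_om d hd) s
    have h4 := exc_W_two (w := Nat.multichoose (om (A d)) s) (by omega) a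
    have h5 : a ≤ Nat.multichoose (Nat.multichoose (om (A d)) s) a := by omega
    exact_mod_cast h5
  rcases le_or_gt M 0 with hM | hM
  · have : M * ((oo (Fin (s * a) → A d) : ℝ) * ((QQ s (s * a)).card : ℝ)) ^ L ≤ 0 :=
      mul_nonpos_of_nonpos_of_nonneg hM (by positivity)
    exact this.trans (Nat.cast_nonneg _)
  · calc M * ((oo (Fin (s * a) → A d) : ℝ) * ((QQ s (s * a)).card : ℝ)) ^ L
        ≤ M * ((2 : ℝ) ^ (PP d).card * (2 : ℝ) ^ (PP s).card) ^ L :=
          mul_le_mul_of_nonneg_left (pow_le_pow_left₀ (by positivity)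
            (mul_le_mul h1 h2 hQpos.le (by positivity)) L) hM.le
      _ ≤ a := Nat.ceil_le.1 ha
      _ ≤ _ := hW

theorem vexc_rv_pos (L : ℕ) (p : ℕ × ℕ × ℕ) (h1 : 5 ≤ p.1) : 0 < rv L p := by
  unfold rv VV
  have hw := two_le_om p.1 h1
  have hW : 1 ≤ Nat.multichoose (om (A p.1)) p.2.1 := by
    have := exc_W_two hw p.2.1
    omega
  have hV : 0 < Nat.multichoose (Nat.multichoose (om (A p.1)) p.2.1) p.2.2 := by
    have h2 := exc_W_mono_right hW (Nat.zero_le p.2.2)
    rw [Nat.multichoose_zero_right] at h2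
    exact h2
  have hO : 0 < oo (Fin (p.2.1 * p.2.2) → A p.1) := oo_pos _
  have hQ : 0 < (QQ p.2.1 (p.2.1 * p.2.2)).card := QQ_pos _ _
  positivity

theorem vexc_finite (L t : ℕ) (C : ℝ) :
    {p : ℕ × ℕ × ℕ | 5 ≤ p.1 ∧ 1 ≤ p.2.1 ∧ p.2.1 ≤ t * om (A p.1) ^ 2 ∧ 1 ≤ p.2.2 ∧
      rv L p < C}.Finite := by
  obtain ⟨N, hN⟩ := vexc_large L t (max C 1) (le_max_right _ _)
  have hK : ∀ d s : ℕ, ∃ K : ℕ, 5 ≤ d → 1 ≤ s → ∀ a : ℕ, K ≤ a →
      max C 1 ≤ rv L (d, s, a) := by
    intro d s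
    by_cases hd : 5 ≤ d
    · by_cases hs : 1 ≤ s
      · obtain ⟨K, hK⟩ := vexc_fixed L (max C 1) d s hd hs
        exact ⟨K, fun _ _ => hK⟩
      · exact ⟨0, fun _ h => absurd h hs⟩
    · exact ⟨0, fun h => absurd h hd⟩
  choose K hK using hK
  refine Set.Finite.subset (Set.Finite.biUnion (Set.finite_lt_nat N) (fun d _ =>
    Set.Finite.biUnion (Set.finite_le_nat (t * om (A d) ^ 2)) (fun s _ =>
      (Set.finite_lt_nat (K d s)).image (fun a => (d, s, a))))) ?_
  rintro ⟨d, s, a⟩ ⟨h1, h2, h3, h4, h5⟩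
  simp only at h1 h2 h3 h4
  have h6 : rv L (d, s, a) < max C 1 := lt_of_lt_of_le h5 (le_max_left _ _)
  have hd : d < N := by
    by_contra hcon
    push Not at hcon
    exact absurd (hN d hcon s a h2 h3 h4) (not_le.2 h6)
  have hk : a < K d s := by
    by_contra hcon
    push Not at hcon
    exact absurd (hK d s h1 h2 a hcon) (not_le.2 h6)
  simp only [Set.mem_iUnion, Set.mem_image]
  exact ⟨d, hd, s, h3, a, hk, rfl⟩

end SR32
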