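import Pool.Agent.SR32.DefsV
import Pool.Agent.SR32.ExcTS58

/-!
# SR32/VExcS58: only finitely many triples with a small ratio (Claim F for `VV`)
-/

set_option autoImplicit false

namespace SR32

theorem rv_pos' (L : ℕ) (p : ℕ × ℕ × ℕ) : 0 < rv L p := by
  unfold rv VV
  have h1 : 0 < Nat.multichoose (Nat.multichoose (om (A p.1)) p.2.1) p.2.2 :=
    exc_mc_pos _ _ (exc_mc_pos _ _ (om_pos _))
  have h2 : 0 < oo (Fin (p.2.1 * p.2.2) → A p.1) := oo_pos _
  have h5 : 0 < (QQ p.2.1 (p.2.1 * p.2.2)).card := excT_QQ_pos _ _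
  have h3 : (0 : ℝ) < (Nat.multichoose (Nat.multichoose (om (A p.1)) p.2.1) p.2.2 : ℝ) := by
    exact_mod_cast h1
  have h4 : (0 : ℝ) < (oo (Fin (p.2.1 * p.2.2) → A p.1) : ℝ) := by exact_mod_cast h2
  have h6 : (0 : ℝ) < ((QQ p.2.1 (p.2.1 * p.2.2)).card : ℝ) := by exact_mod_cast h5
  exact div_pos h3 (pow_pos (mul_pos h4 h6) _)

theorem excV_half (x j : ℕ) (hj : 1 ≤ j) (hx : 2 * j ≤ x) :
    Real.exp ((j : ℝ) * Real.log 2) ≤ (Nat.multichoose x j : ℝ) := by
  have hj0 : (0 : ℝ) < j := by exact_mod_cast hj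
  have h1 := exc_mc_pow x j (by omega)
  have h4 : (Nat.factorial j : ℝ) ≤ (j : ℝ) ^ j := by exact_mod_cast Nat.factorial_le_pow j
  have h7 : (0 : ℝ) ≤ (Nat.multichoose x j : ℝ) := Nat.cast_nonneg _
  have h3 : Real.exp ((j : ℝ) * Real.log 2) = 2 ^ j := by
    rw [Real.exp_nat_mul, Real.exp_log (by norm_num)]
  rw [h3]
  have h8 : (2 : ℝ) ^ j * (j : ℝ) ^ j ≤ (Nat.multichoose x j : ℝ) * (j : ℝ) ^ j := by
    calc (2 : ℝ) ^ j * (j : ℝ) ^ j = (2 * (j : ℝ)) ^ j := by rw [mul_pow]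
      _ ≤ (x : ℝ) ^ j := by
          refine pow_le_pow_left₀ (by positivity) ?_ j
          exact_mod_cast hx
      _ ≤ (Nat.factorial j : ℝ) * (Nat.multichoose x j : ℝ) := h1
      _ ≤ (j : ℝ) ^ j * (Nat.multichoose x j : ℝ) := mul_le_mul_of_nonneg_right h4 h7
      _ = _ := mul_comm _ _
  exact le_of_mul_le_mul_right h8 (pow_pos hj0 j)

theorem excV_two_pow (n : ℕ) : (n + 21) ^ 4 ≤ 2 ^ (n + 19) := by
  induction n with
  | zero => norm_num
  | succ n ih =>
    have : 2 ^ (n + 1 + 19) = 2 * 2 ^ (n + 19) := by rw [← pow_succ']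
    rw [this]
    have h2 : (n + 1 + 21) ^ 4 ≤ 2 * (n + 21) ^ 4 := by
      have e1 : (n + 1 + 21) ^ 4 = n ^ 4 + 88 * n ^ 3 + 2904 * n ^ 2 + 42592 * n + 234256 := by
        ring
      have e2 : 2 * (n + 21) ^ 4 =
          2 * n ^ 4 + 168 * n ^ 3 + 5292 * n ^ 2 + 74088 * n + 388962 := by ring
      rw [e1, e2]
      have h3 : n ^ 4 ≤ 2 * n ^ 4 := by omega
      have h4 : 88 * n ^ 3 ≤ 168 * n ^ 3 := by omega
      have h5 : 2904 * n ^ 2 ≤ 5292 * n ^ 2 := by omega
      omega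
    exact h2.trans (Nat.mul_le_mul_left 2 ih)

theorem excV_log (x : ℝ) (hx : 0 < x) : Real.log x ≤ x / 16 + 2 := by
  have h1 : Real.log x = Real.log (x / 16) + Real.log 16 := by
    rw [← Real.log_mul (by positivity) (by norm_num)]
    congr 1; ring
  have h2 := Real.log_le_sub_one_of_pos (show 0 < x / 16 by positivity)
  have h3 : Real.log 16 ≤ 3 := by
    have : (16 : ℝ) = 2 ^ 4 := by norm_num
    rw [this, Real.log_pow]
    have := Real.log_two_lt_d9
    push_cast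
    linarith
  linarith

theorem finite_excV_of
    (h1 : ∀ d : ℕ, 5 ≤ d → d ≠ 6 → 2 ^ (Nat.sqrt d - 1) ≤ om (A d))
    (h2 : ∀ d : ℕ, 5 ≤ d → 2 ≤ om (A d))
    (h3 : ∀ d : ℕ, oo (A d) ≤ (EE d).card)
    (h4 : ∀ d k : ℕ, oo (Fin k → A d) ≤ 2 ^ (PP d).card)
    (h5 : ∀ d k : ℕ, oo (Fin k → A d) ≤ oo (A d) ^ k)
    (h6 : ∀ ε : ℝ, 0 < ε → ∃ C : ℝ, ∀ d : ℕ, ((PP d).card : ℝ) ≤ C + ε * d)
    (h7 : ∀ ε : ℝ, 0 < ε → ∃ C : ℝ, ∀ d : ℕ, ((EE d).card : ℝ) ≤ Real.exp (C + ε * Real.sqrt d))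
    (L t : ℕ) (C : ℝ) :
    {p : ℕ × ℕ × ℕ | 5 ≤ p.1 ∧ 1 ≤ p.2.1 ∧ p.2.1 ≤ t * om (A p.1) ^ 2 ∧ 1 ≤ p.2.2 ∧
      rv L p < C}.Finite := by
  -- fixed `d`, `s`
  have F : ∀ d s : ℕ, 5 ≤ d → 1 ≤ s → ∃ K0 : ℕ, ∀ a, K0 ≤ a → C ≤ rv L (d, s, a) := by
    intro d s hd hs
    refine ⟨⌈C * ((2 ^ (PP d).card : ℝ) * 2 ^ (PP s).card) ^ L⌉₊, fun k hk => ?_⟩
    unfold rv VV
    have a1 : (0 : ℝ) < (oo (Fin (s * k) → A d) : ℝ) := by
      exact_mod_cast oo_pos (Fin (s * k) → A d)
    have a2 : (oo (Fin (s * k) → A d) : ℝ) ≤ 2 ^ (PP d).card := by exact_mod_cast h4 d (s * k)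
    have q1 : (0 : ℝ) < ((QQ s (s * k)).card : ℝ) := by
      exact_mod_cast excT_QQ_pos s (s * k)
    have q2 : ((QQ s (s * k)).card : ℝ) ≤ 2 ^ (PP s).card := by
      exact_mod_cast excT_QQ_PP s (s * k)
    have hV : 2 ≤ Nat.multichoose (om (A d)) s :=
      le_trans (by omega) (exc_mc_two (om (A d)) s (h2 d hd))
    have a3 : (k : ℝ) + 1 ≤ (Nat.multichoose (Nat.multichoose (om (A d)) s) k : ℝ) := by
      exact_mod_cast exc_mc_two _ k hV
    have a4 : C * ((2 ^ (PP d).card : ℝ) * 2 ^ (PP s).card) ^ L ≤ k :=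
      (Nat.le_ceil _).trans (by exact_mod_cast hk)
    show C ≤ (Nat.multichoose (Nat.multichoose (om (A d)) s) k : ℝ) /
      ((oo (Fin (s * k) → A d) : ℝ) * ((QQ s (s * k)).card : ℝ)) ^ L
    rw [le_div_iff₀ (pow_pos (mul_pos a1 q1) _)]
    rcases le_or_gt C 0 with hC | hC
    · have : C * ((oo (Fin (s * k) → A d) : ℝ) * ((QQ s (s * k)).card : ℝ)) ^ L ≤ 0 :=
        mul_nonpos_of_nonpos_of_nonneg hC (pow_nonneg (mul_pos a1 q1).le _)
      linarith [Nat.cast_nonneg (α := ℝ) k]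
    · calc C * ((oo (Fin (s * k) → A d) : ℝ) * ((QQ s (s * k)).card : ℝ)) ^ L
          ≤ C * ((2 ^ (PP d).card : ℝ) * 2 ^ (PP s).card) ^ L := by
            refine mul_le_mul_of_nonneg_left (pow_le_pow_left₀ (mul_pos a1 q1).le ?_ L) hC.le
            exact mul_le_mul a2 q2 q1.le (by positivity)
        _ ≤ k := a4
        _ ≤ _ := by linarith
  -- large `d`
  have hL0 : (0 : ℝ) ≤ L := Nat.cast_nonneg _
  have ht0 : (0 : ℝ) ≤ t := Nat.cast_nonneg _
  obtain ⟨ε, hε⟩ : ∃ ε : ℝ, ε = 1 / (16 * ((L : ℝ) + 1) * ((t : ℝ) + 1)) := ⟨_, rfl⟩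
  have hε0 : 0 < ε := by rw [hε]; positivity
  have hε1 : ((L : ℝ) + 1) * ((t : ℝ) + 1) * ε = 1 / 16 := by
    rw [hε]; field_simp
  have hLt0 : 0 ≤ (L : ℝ) * t := mul_nonneg hL0 ht0
  have hLε0 : 0 ≤ (L : ℝ) * ε := mul_nonneg hL0 hε0.le
  have htε0 : 0 ≤ (t : ℝ) * ε := mul_nonneg ht0 hε0.le
  have hLtε0 : 0 ≤ (L : ℝ) * t * ε := mul_nonneg hLt0 hε0.le
  have hexp : ((L : ℝ) + 1) * ((t : ℝ) + 1) * ε = L * t * ε + L * ε + t * ε + ε := by ring
  have hLε : (L : ℝ) * ε ≤ 1 / 16 := by linarith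
  have hLtε : (L : ℝ) * t * ε ≤ 1 / 16 := by linarith
  obtain ⟨C1, hC1⟩ := h7 ε hε0
  obtain ⟨C2, hC2⟩ := h6 ε hε0
  have hl2 := Real.log_two_gt_d9
  obtain ⟨S0, hS0⟩ : ∃ S0 : ℕ, (|C| + 6 + 2 * (L * |C1|) + 2 * (L * |C2|)) / (1 / 10) + 20 ≤ S0 :=
    ⟨_, Nat.le_ceil _⟩
  have G : ∀ d : ℕ, 7 + S0 ^ 2 ≤ d → ∀ s a, 1 ≤ s → s ≤ t * om (A d) ^ 2 → 1 ≤ a →
      C ≤ rv L (d, s, a) := by
    intro d hd s a hs1 hst ha1
    obtain ⟨z, hz⟩ : ∃ z : ℕ, z = Nat.sqrt d := ⟨_, rfl⟩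
    have hzS : S0 ≤ z := by
      rw [hz, Nat.le_sqrt']; omega
    have hzd : (d : ℝ) ≤ ((z : ℝ) + 1) ^ 2 := by
      have := Nat.lt_succ_sqrt' d
      rw [← hz] at this
      have h' : d ≤ (z + 1) ^ 2 := this.le
      exact_mod_cast h'
    have hzq : Real.sqrt d ≤ (z : ℝ) + 1 := by
      rw [Real.sqrt_le_left (by positivity)]
      exact hzd
    have hzr : (|C| + 6 + 2 * (L * |C1|) + 2 * (L * |C2|)) / (1 / 10) + 20 ≤ (z : ℝ) :=
      hS0.trans (by exact_mod_cast hzS)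
    have hLC1 : 0 ≤ (L : ℝ) * |C1| := mul_nonneg hL0 (abs_nonneg _)
    have hLC2 : 0 ≤ (L : ℝ) * |C2| := mul_nonneg hL0 (abs_nonneg _)
    have hC0 : 0 ≤ |C| := abs_nonneg _
    have hb : |C| + 6 + 2 * (L * |C1|) + 2 * (L * |C2|) ≤ 1 / 10 * ((z : ℝ) - 20) := by
      have : (|C| + 6 + 2 * (L * |C1|) + 2 * (L * |C2|)) / (1 / 10) ≤ (z : ℝ) - 20 := by linarith
      rw [div_le_iff₀ (by norm_num)] at this
      linarith
    have hz20 : (20 : ℝ) ≤ z := by linarith
    have hz20' : 20 ≤ z := by exact_mod_cast hz20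
    obtain ⟨w, hwd⟩ : ∃ w : ℕ, w = om (A d) := ⟨_, rfl⟩
    have hw : 2 ^ (z - 1) ≤ w := by
      rw [hz, hwd]; exact h1 d (by omega) (by omega)
    have hzw : (z + 1) ^ 4 ≤ w := by
      have := excV_two_pow (z - 20)
      have e1 : z - 20 + 21 = z + 1 := by omega
      have e2 : z - 20 + 19 = z - 1 := by omega
      rw [e1, e2] at this
      exact this.trans hw
    obtain ⟨m, hm⟩ : ∃ m : ℕ, m = Nat.sqrt w := ⟨_, rfl⟩
    have hzm : (z + 1) ^ 2 ≤ m := by
      rw [hm, Nat.le_sqrt', ← pow_mul]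
      exact hzw
    have hmw2 : m ^ 2 ≤ w := by
      rw [← Nat.le_sqrt', ← hm]
    have hzm' : ((z : ℝ) + 1) ^ 2 ≤ m := by exact_mod_cast hzm
    have hm1 : 1 ≤ m := le_trans (Nat.one_le_pow _ _ (by omega)) hzm
    have hmw : m ≤ w := by
      rw [hm]; exact Nat.sqrt_le_self w
    have hmw' : (m : ℝ) ≤ w := by exact_mod_cast hmw
    have hzm2 : 21 * (z : ℝ) ≤ m := by nlinarith
    have hw1 : 1 ≤ w := le_trans Nat.one_le_two_pow hw
    have hw0 : (0 : ℝ) < w := by exact_mod_cast hw1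
    have hw400 : 420 ≤ (w : ℝ) := by linarith
    have hlogw : 0.69 * ((z : ℝ) - 1) ≤ Real.log w := by
      have e1 : ((z : ℝ) - 1) * Real.log 2 = Real.log ((2 : ℝ) ^ (z - 1)) := by
        rw [Real.log_pow, Nat.cast_sub (by omega), Nat.cast_one]
      have e2 : Real.log ((2 : ℝ) ^ (z - 1)) ≤ Real.log w :=
        Real.log_le_log (by positivity) (by exact_mod_cast hw)
      have : ((z : ℝ) - 1) * 0.69 ≤ ((z : ℝ) - 1) * Real.log 2 :=
        mul_le_mul_of_nonneg_left (by linarith) (by linarith)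
      linarith
    obtain ⟨V, hVd⟩ : ∃ V : ℕ, V = Nat.multichoose w s := ⟨_, rfl⟩
    have hwV : w ≤ V := by
      rw [hVd]
      calc w = Nat.multichoose w 1 := (Nat.multichoose_one_right w).symm
        _ ≤ _ := exc_mc_mono w hw1 hs1
    have hV1 : 1 ≤ V := hw1.trans hwV
    have hV0 : (0 : ℝ) < V := by exact_mod_cast hV1
    have a1 : (0 : ℝ) < (oo (Fin (s * a) → A d) : ℝ) := by
      exact_mod_cast oo_pos (Fin (s * a) → A d)
    have q1 : (0 : ℝ) < ((QQ s (s * a)).card : ℝ) := by exact_mod_cast excT_QQ_pos s (s * a)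
    show C ≤ ((VV d s a : ℕ) : ℝ) /
      ((oo (Fin (s * a) → A d) : ℝ) * ((QQ s (s * a)).card : ℝ)) ^ L
    unfold VV
    rw [← hwd, ← hVd]
    rw [← hwd] at hst
    have key : ∀ X Y Z : ℝ, Real.exp X ≤ (Nat.multichoose V a : ℝ) →
        (oo (Fin (s * a) → A d) : ℝ) ≤ Real.exp Y → ((QQ s (s * a)).card : ℝ) ≤ Real.exp Z →
        |C| ≤ X - (L * Y + L * Z) →
        C ≤ (Nat.multichoose V a : ℝ) /
          ((oo (Fin (s * a) → A d) : ℝ) * ((QQ s (s * a)).card : ℝ)) ^ L := by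
      intro X Y Z hX hY hZ hXY
      rw [le_div_iff₀ (pow_pos (mul_pos a1 q1) _)]
      have e1 : C ≤ Real.exp (X - (L * Y + L * Z)) := by
        have := Real.add_one_le_exp (X - (L * Y + L * Z))
        have := le_abs_self C
        linarith
      have e2 : ((oo (Fin (s * a) → A d) : ℝ) * ((QQ s (s * a)).card : ℝ)) ^ L ≤
          Real.exp (L * Y + L * Z) := by
        calc _ ≤ (Real.exp Y * Real.exp Z) ^ L :=
              pow_le_pow_left₀ (mul_pos a1 q1).le
                (mul_le_mul hY hZ q1.le (Real.exp_pos _).le) L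
          _ = _ := by
              rw [← Real.exp_add, ← Real.exp_nat_mul]
              congr 1; ring
      calc C * ((oo (Fin (s * a) → A d) : ℝ) * ((QQ s (s * a)).card : ℝ)) ^ L
          ≤ Real.exp (X - (L * Y + L * Z)) *
            ((oo (Fin (s * a) → A d) : ℝ) * ((QQ s (s * a)).card : ℝ)) ^ L :=
            mul_le_mul_of_nonneg_right e1 (pow_nonneg (mul_pos a1 q1).le _)
        _ ≤ Real.exp (X - (L * Y + L * Z)) * Real.exp (L * Y + L * Z) :=
            mul_le_mul_of_nonneg_left e2 (Real.exp_pos _).le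
        _ = Real.exp X := by rw [← Real.exp_add]; congr 1; ring
        _ ≤ _ := hX
    -- the inputs
    have O1 : (oo (Fin (s * a) → A d) : ℝ) ≤
        Real.exp (((s * a : ℕ) : ℝ) * (C1 + ε * Real.sqrt d)) := by
      calc (oo (Fin (s * a) → A d) : ℝ) ≤ (oo (A d) : ℝ) ^ (s * a) := by
            exact_mod_cast h5 d (s * a)
        _ ≤ Real.exp (C1 + ε * Real.sqrt d) ^ (s * a) := by
          refine pow_le_pow_left₀ (Nat.cast_nonneg _) ?_ _
          exact le_trans (by exact_mod_cast h3 d) (hC1 d)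
        _ = _ := by rw [← Real.exp_nat_mul]
    have PB : ∀ m b : ℕ, m ≤ 2 ^ (PP b).card → (m : ℝ) ≤ Real.exp (C2 + ε * b) := by
      intro m b hm
      calc (m : ℝ) ≤ (2 : ℝ) ^ (PP b).card := by exact_mod_cast hm
        _ ≤ Real.exp 1 ^ (PP b).card := by
          refine pow_le_pow_left₀ (by norm_num) ?_ _
          have := Real.add_one_le_exp (1 : ℝ)
          linarith
        _ = Real.exp ((PP b).card : ℝ) := by
          rw [← Real.exp_nat_mul, mul_one]
        _ ≤ _ := Real.exp_le_exp.2 (hC2 b)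
    have O2 : (oo (Fin (s * a) → A d) : ℝ) ≤ Real.exp (C2 + ε * d) := PB _ d (h4 d (s * a))
    have Q1 : ((QQ s (s * a)).card : ℝ) ≤ Real.exp (C1 + ε * Real.sqrt ((s * a : ℕ) : ℝ)) :=
      le_trans (by exact_mod_cast excT_QQ_EE s (s * a)) (hC1 (s * a))
    have Q2 : ((QQ s (s * a)).card : ℝ) ≤ Real.exp (C2 + ε * s) :=
      PB _ s (excT_QQ_PP s (s * a))
    have c1 : (L : ℝ) * C1 ≤ L * |C1| := mul_le_mul_of_nonneg_left (le_abs_self _) hL0
    have c2 : (L : ℝ) * C2 ≤ L * |C2| := mul_le_mul_of_nonneg_left (le_abs_self _) hL0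
    have hs1r : (1 : ℝ) ≤ s := by exact_mod_cast hs1
    have ha1r : (1 : ℝ) ≤ a := by exact_mod_cast ha1
    have hYd : (L : ℝ) * (C2 + ε * d) ≤ L * |C2| + (m : ℝ) / 16 := by
      have : (L : ℝ) * ε * d ≤ 1 / 16 * (m : ℝ) :=
        mul_le_mul hLε (hzd.trans hzm') (Nat.cast_nonneg _) (by norm_num)
      linarith
    have hZs : (L : ℝ) * (C2 + ε * s) ≤ L * |C2| + (s : ℝ) / 16 := by
      have : (L : ℝ) * ε * s ≤ 1 / 16 * (s : ℝ) :=
        mul_le_mul_of_nonneg_right hLε (by linarith)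
      linarith
    rcases le_or_gt s m with hsm | hsm
    · have hsm' : (s : ℝ) ≤ m := by exact_mod_cast hsm
      rcases le_or_gt (a ^ 2) V with haV | haV
      · -- case 1
        have hlV : (s : ℝ) / 2 * Real.log w ≤ Real.log V := by
          rw [Real.le_log_iff_exp_le hV0, hVd]
          exact excT_low w s hs1 (le_trans (Nat.pow_le_pow_left hsm 2) hmw2)
        obtain ⟨k, hk⟩ : ∃ k : ℝ, k = (s : ℝ) * a := ⟨_, rfl⟩
        have hkc : ((s * a : ℕ) : ℝ) = k := by rw [hk]; push_cast; ring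
        rw [hkc] at O1 Q1
        have hk1 : 1 ≤ k := by rw [hk]; nlinarith
        refine key ((a : ℝ) / 2 * Real.log V) _ _ (excT_low V a ha1 haV) O1 Q1 ?_
        have b0 : (a : ℝ) / 2 * ((s : ℝ) / 2 * Real.log w) ≤ (a : ℝ) / 2 * Real.log V :=
          mul_le_mul_of_nonneg_left hlV (by linarith)
        have b1 : k / 4 * (0.69 * ((z : ℝ) - 1)) ≤ k / 4 * Real.log w :=
          mul_le_mul_of_nonneg_left hlogw (by linarith)
        have b2 : (a : ℝ) / 2 * ((s : ℝ) / 2 * Real.log w) = k / 4 * Real.log w := by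
          rw [hk]; ring
        have hkk : Real.sqrt k ≤ k := by
          rw [Real.sqrt_le_left (by linarith)]
          nlinarith
        have b3 : (L : ℝ) * (C1 + ε * Real.sqrt d) ≤ L * |C1| + ((z : ℝ) + 1) / 16 := by
          have : (L : ℝ) * ε * Real.sqrt d ≤ 1 / 16 * ((z : ℝ) + 1) :=
            mul_le_mul hLε hzq (Real.sqrt_nonneg _) (by norm_num)
          linarith
        have b4 : (L : ℝ) * (C1 + ε * Real.sqrt k) ≤ L * |C1| + k / 16 := by
          have : (L : ℝ) * ε * Real.sqrt k ≤ 1 / 16 * k :=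
            mul_le_mul hLε hkk (Real.sqrt_nonneg _) (by norm_num)
          linarith
        have b5 : k * (L * (C1 + ε * Real.sqrt d)) ≤ k * (L * |C1| + ((z : ℝ) + 1) / 16) :=
          mul_le_mul_of_nonneg_left b3 (by linarith)
        have b6 : 1 * (L * |C1|) ≤ k * (L * |C1|) := mul_le_mul_of_nonneg_right hk1 hLC1
        have b7 : 1 * (0.1725 * ((z : ℝ) - 1) - 2 * (L * |C1|) - ((z : ℝ) + 1) / 16 - 1 / 16) ≤
            k * (0.1725 * ((z : ℝ) - 1) - 2 * (L * |C1|) - ((z : ℝ) + 1) / 16 - 1 / 16) :=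
          mul_le_mul_of_nonneg_right hk1 (by linarith)
        have b8 : (L : ℝ) * (k * (C1 + ε * Real.sqrt d)) = k * (L * (C1 + ε * Real.sqrt d)) := by
          ring
        rw [b8]
        linarith
      · -- case 2
        have hma : m ≤ a := by
          have : m ^ 2 < a ^ 2 := lt_of_le_of_lt (hmw2.trans hwV) haV
          exact (lt_of_pow_lt_pow_left₀ 2 (Nat.zero_le _) this).le
        refine key ((m : ℝ) / 2 * Real.log w) _ _ ?_ O2 Q2 ?_
        · have e1 := excT_low V m hm1 (hmw2.trans hwV)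
          have e2 : (m : ℝ) / 2 * Real.log w ≤ (m : ℝ) / 2 * Real.log V :=
            mul_le_mul_of_nonneg_left (Real.log_le_log hw0 (by exact_mod_cast hwV))
              (by positivity)
          refine (Real.exp_le_exp.2 e2).trans (e1.trans ?_)
          exact_mod_cast exc_mc_mono V hV1 hma
        · have b1 : (m : ℝ) / 2 * (0.69 * ((z : ℝ) - 1)) ≤ (m : ℝ) / 2 * Real.log w :=
            mul_le_mul_of_nonneg_left hlogw (by positivity)
          have b2 : (m : ℝ) * 19 ≤ (m : ℝ) * ((z : ℝ) - 1) :=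
            mul_le_mul_of_nonneg_left (by linarith) (Nat.cast_nonneg _)
          nlinarith
    · rcases le_or_gt s w with hsw | hsw
      · -- case 3
        have hsm' : (m : ℝ) ≤ s := by exact_mod_cast hsm.le
        obtain ⟨j, hj⟩ : ∃ j : ℕ, j = s / 2 := ⟨_, rfl⟩
        have hs2 : 2 ≤ s := by omega
        refine key ((j : ℝ) * Real.log 2) _ _ ?_ O2 Q2 ?_
        · refine (excV_half w j (by omega) (by omega)).trans ?_
          have e1 : Nat.multichoose w j ≤ V := by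
            rw [hVd]; exact exc_mc_mono w hw1 (by omega)
          have e2 : V ≤ Nat.multichoose V a := by
            calc V = Nat.multichoose V 1 := (Nat.multichoose_one_right V).symm
              _ ≤ _ := exc_mc_mono V hV1 ha1
          exact_mod_cast e1.trans e2
        · have b3 : ((s : ℝ) - 1) / 2 ≤ (j : ℝ) := by
            have : s ≤ 2 * j + 1 := by omega
            have h' : (s : ℝ) ≤ 2 * (j : ℝ) + 1 := by exact_mod_cast this
            linarith
          have b4 : (j : ℝ) * 0.69 ≤ (j : ℝ) * Real.log 2 :=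
            mul_le_mul_of_nonneg_left (by linarith) (Nat.cast_nonneg _)
          linarith
      · -- case 4
        obtain ⟨j, hj⟩ : ∃ j : ℕ, j = w / 2 := ⟨_, rfl⟩
        have hm21 : (21 : ℝ) ≤ m := by linarith
        have hw2 : 2 ≤ w := by
          have : (2 : ℝ) ≤ w := by linarith
          exact_mod_cast this
        have hjV : (j : ℝ) * Real.log 2 ≤ Real.log V := by
          rw [Real.le_log_iff_exp_le hV0]
          refine (excV_half w j (by omega) (by omega)).trans ?_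
          rw [hVd]
          exact_mod_cast exc_mc_mono w hw1 (show j ≤ s by omega)
        have b3 : ((w : ℝ) - 1) / 2 ≤ (j : ℝ) := by
          have : w ≤ 2 * j + 1 := by omega
          have h' : (w : ℝ) ≤ 2 * (j : ℝ) + 1 := by exact_mod_cast this
          linarith
        have b4 : (j : ℝ) * 0.69 ≤ (j : ℝ) * Real.log 2 :=
          mul_le_mul_of_nonneg_left (by linarith) (Nat.cast_nonneg _)
        have hlV : 0.345 * ((w : ℝ) - 1) ≤ Real.log V := by linarith
        have ht1 : (1 : ℝ) ≤ t := by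
          have : 1 ≤ t := by
            by_contra h
            have h0 : t = 0 := by omega
            rw [h0, zero_mul] at hst
            omega
          exact_mod_cast this
        have hstr : (s : ℝ) ≤ t * (w : ℝ) ^ 2 := by exact_mod_cast hst
        rcases le_or_gt (a ^ 2) V with haV | haV
        · -- case 4a
          refine key ((a : ℝ) / 2 * Real.log V) _ _ (excT_low V a ha1 haV) O2 Q1 ?_
          have hsq : Real.sqrt ((s * a : ℕ) : ℝ) ≤ t * w * a := by
            rw [Real.sqrt_le_left (by positivity)]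
            push_cast
            have e1 : (s : ℝ) * a ≤ t * (w : ℝ) ^ 2 * a :=
              mul_le_mul_of_nonneg_right hstr (by linarith)
            have e2 : (1 : ℝ) * 1 ≤ t * a := mul_le_mul ht1 ha1r zero_le_one (by linarith)
            have e3 : (t * (w : ℝ) ^ 2 * a) * (1 * 1) ≤ (t * (w : ℝ) ^ 2 * a) * (t * a) :=
              mul_le_mul_of_nonneg_left e2 (by positivity)
            calc (s : ℝ) * a ≤ t * (w : ℝ) ^ 2 * a := e1
              _ ≤ (t * (w : ℝ) ^ 2 * a) * (t * a) := by linarith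
              _ = (t * w * a) ^ 2 := by ring
          have b5 : (L : ℝ) * (C1 + ε * Real.sqrt ((s * a : ℕ) : ℝ)) ≤
              L * |C1| + (w : ℝ) * a / 16 := by
            have e1 : (L : ℝ) * ε * Real.sqrt ((s * a : ℕ) : ℝ) ≤ L * ε * (t * w * a) :=
              mul_le_mul_of_nonneg_left hsq hLε0
            have e2 : (L : ℝ) * t * ε * (w * a) ≤ 1 / 16 * (w * a) :=
              mul_le_mul_of_nonneg_right hLtε (by positivity)
            linarith
          have b6 : (a : ℝ) / 2 * (0.345 * ((w : ℝ) - 1)) ≤ (a : ℝ) / 2 * Real.log V :=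
            mul_le_mul_of_nonneg_left hlV (by linarith)
          have b7 : 1 * (0.04 * (w : ℝ)) ≤ a * (0.04 * (w : ℝ)) :=
            mul_le_mul_of_nonneg_right ha1r (by positivity)
          have b8 : (1 : ℝ) * (w : ℝ) ≤ a * (w : ℝ) := mul_le_mul_of_nonneg_right ha1r hw0.le
          nlinarith
        · -- case 4b
          have hwV2 : w ^ 2 ≤ V := by
            have e1 : 2 * Real.log w ≤ Real.log V := by
              have := excV_log w hw0
              linarith
            have e2 : ((w : ℝ) ^ 2) ≤ V := by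
              have e3 := Real.exp_le_exp.2 e1
              rw [Real.exp_log hV0] at e3
              have e4 : Real.exp (2 * Real.log w) = (w : ℝ) ^ 2 := by
                rw [two_mul, Real.exp_add, Real.exp_log hw0, sq]
              rwa [e4] at e3
            exact_mod_cast e2
          have hwa : w ≤ a := by
            have : w ^ 2 < a ^ 2 := lt_of_le_of_lt hwV2 haV
            exact (lt_of_pow_lt_pow_left₀ 2 (Nat.zero_le _) this).le
          refine key ((w : ℝ) / 2 * Real.log V) _ _ ?_ O2 Q2 ?_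
          · refine (excT_low V w hw1 hwV2).trans ?_
            exact_mod_cast exc_mc_mono V hV1 hwa
          · have b5 : (L : ℝ) * (C2 + ε * s) ≤ L * |C2| + (w : ℝ) ^ 2 / 16 := by
              have e1 : (L : ℝ) * ε * s ≤ L * ε * (t * (w : ℝ) ^ 2) :=
                mul_le_mul_of_nonneg_left hstr hLε0
              have e2 : (L : ℝ) * t * ε * (w : ℝ) ^ 2 ≤ 1 / 16 * (w : ℝ) ^ 2 :=
                mul_le_mul_of_nonneg_right hLtε (by positivity)
              linarith
            have b6 : (w : ℝ) / 2 * (0.345 * ((w : ℝ) - 1)) ≤ (w : ℝ) / 2 * Real.log V :=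
              mul_le_mul_of_nonneg_left hlV (by linarith)
            nlinarith
  -- the union
  choose! K0 hK0 using F
  refine Set.Finite.subset (Set.Finite.biUnion (Set.finite_lt_nat (7 + S0 ^ 2))
    (t := fun d => ⋃ s ∈ {s : ℕ | s < t * om (A d) ^ 2 + 1},
      (fun a => ((d, s, a) : ℕ × ℕ × ℕ)) '' {a | a < K0 d s})
    fun d _ => Set.Finite.biUnion (Set.finite_lt_nat _)
      fun s _ => (Set.finite_lt_nat (K0 d s)).image _) ?_
  rintro ⟨d, s, a⟩ ⟨hd, hs, hst, ha, hr⟩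
  have e1 : d < 7 + S0 ^ 2 := by
    by_contra h
    exact absurd (G d (not_lt.1 h) s a hs hst ha) (not_le.2 hr)
  have e2 : a < K0 d s := by
    by_contra h
    exact absurd (hK0 d s hd hs a (not_lt.1 h)) (not_le.2 hr)
  refine Set.mem_biUnion (show d ∈ {n | n < 7 + S0 ^ 2} from e1) ?_
  exact Set.mem_biUnion (show s ∈ {s : ℕ | s < t * om (A d) ^ 2 + 1} from
    Nat.lt_succ_of_le hst) ⟨a, e2, rfl⟩

end SR32

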