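import Pool.Agent.SR32.DefsW
import Pool.Agent.Pal.Divisor

/-!
# Few divisors
-/

set_option autoImplicit false

namespace SR32.WDivS81

theorem DD_bound (t : ℕ) (δ : ℝ) (hδ : 0 < δ) :
    ∃ C : ℝ, 0 < C ∧ ∀ s : ℕ, 1 ≤ s → (DD t s : ℝ) ≤ C * (s : ℝ) ^ δ := by
  obtain ⟨C, hC, h⟩ := Pool.Agent.Pal.card_divisors_le_rpow (η := δ / (t + 1)) (by positivity)
  refine ⟨C, by linarith, fun s hs => ?_⟩
  have hs1 : (1 : ℝ) ≤ s := by exact_mod_cast hs
  have h0 : (0 : ℝ) ≤ C * (s : ℝ) ^ δ := by positivity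
  have h1 : DD t s ≤ ⌊C * (s : ℝ) ^ δ⌋₊ := by
    unfold DD
    refine Finset.sup_le fun n hn => ?_
    rw [Finset.mem_Icc] at hn
    apply Nat.le_floor
    refine (h n hn.1).trans (mul_le_mul_of_nonneg_left ?_ (by linarith))
    have h2 : (n : ℝ) ≤ (s : ℝ) ^ (t : ℝ) := by
      rw [Real.rpow_natCast]
      exact_mod_cast hn.2
    refine (Real.rpow_le_rpow (Nat.cast_nonneg _) h2 (by positivity)).trans ?_
    rw [← Real.rpow_mul (Nat.cast_nonneg _)]
    refine Real.rpow_le_rpow_of_exponent_le hs1 ?_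
    rw [mul_div_assoc', div_le_iff₀ (by positivity)]
    nlinarith
  exact (Nat.cast_le.2 h1).trans (Nat.floor_le h0)

theorem oo_le_DD {P : Type*} [Group P] [Finite P] (t s : ℕ) (h : Nat.card P ≤ s ^ t) :
    oo P ≤ DD t s := by
  classical
  have h1 : oo P ≤ (Nat.card P).divisors.card := by
    unfold oo
    rw [← Set.ncard_coe_finset]
    refine Set.ncard_le_ncard ?_ (Finset.finite_toSet _)
    rintro _ ⟨g, rfl⟩
    rw [Finset.mem_coe, Nat.mem_divisors]
    exact ⟨orderOf_dvd_natCard g, Nat.card_pos.ne'⟩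
  refine h1.trans ?_
  unfold DD
  exact Finset.le_sup (f := fun n : ℕ => n.divisors.card)
    (Finset.mem_Icc.2 ⟨Nat.card_pos, h⟩)

end SR32.WDivS81
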