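import Pool.Agent.SR32.VExcMc
import Pool.Agent.SR32.Density
import Pool.Agent.SR32.Part
import Pool.Agent.SR32.DefsW
import Pool.Agent.SR32.Exc

/-!
# SR32/WExcS3: Claim X for triples `(d, s, a)`
-/

namespace SR32

theorem wexc_om_three (d : ℕ) (h5 : 5 ≤ d) : 3 ≤ om (A d) := by
  classical
  have hc : ∀ p : ℕ, p.Prime → p ≤ 5 → p ≠ 2 → ∃ x : A d, orderOf x = p := by
    intro p hp h1 h2
    have : Fact p.Prime := ⟨hp⟩
    have : Nontrivial (Fin d) := Fin.nontrivial_iff_two_le.2 (by omega)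
    have h3 : 2 * Fintype.card (A d) = Fintype.card (Equiv.Perm (Fin d)) :=
      two_mul_card_alternatingGroup
    have h4 : p ∣ Fintype.card (Equiv.Perm (Fin d)) := by
      rw [Fintype.card_perm, Fintype.card_fin]
      exact (Nat.Prime.dvd_factorial hp).2 (by omega)
    rw [← h3] at h4
    have h6 : p ∣ Fintype.card (A d) := by
      rcases (Nat.Prime.dvd_mul hp).1 h4 with h | h
      · exact absurd ((Nat.prime_dvd_prime_iff_eq hp Nat.prime_two).1 h) h2
      · exact h
    exact exists_prime_orderOf_dvd_card p h6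
  obtain ⟨x, hx⟩ := hc 3 (by norm_num) (by norm_num) (by norm_num)
  obtain ⟨y, hy⟩ := hc 5 (by norm_num) (by norm_num) (by norm_num)
  have hord : ∀ g h : A d, (Quotient.mk'' g : MulAction.orbitRel.Quotient (MulAut (A d)) (A d)) =
      Quotient.mk'' h → orderOf g = orderOf h := by
    intro g h hgh
    have h1 : MulAction.orbitRel (MulAut (A d)) (A d) g h := Quotient.exact hgh
    rw [MulAction.orbitRel_apply] at h1
    obtain ⟨φ, hφ⟩ := h1
    have h3 : φ h = g := hφ
    rw [← h3]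
    exact MulEquiv.orderOf_eq φ h
  unfold om
  have : Finite (MulAction.orbitRel.Quotient (MulAut (A d)) (A d)) := Quotient.finite _
  have hinj : Function.Injective (fun i : Fin 3 =>
      (Quotient.mk'' ((![1, x, y] : Fin 3 → A d) i) :
        MulAction.orbitRel.Quotient (MulAut (A d)) (A d))) := by
    intro i j hij
    have := hord _ _ hij
    fin_cases i <;> fin_cases j <;> simp_all
  have := Nat.card_le_card_of_injective _ hinj
  simpa using this

theorem wexc_sym {α : Type} (s : ℕ) (a : ℕ) : ∀ m : Multiset α, Multiset.card m = s * a →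
    ∃ M : Sym (Sym α s) a, (Multiset.map (fun x : Sym α s => x.1) M.1).sum = m := by
  induction a with
  | zero =>
    intro m hm
    refine ⟨Sym.nil, ?_⟩
    have : m = 0 := by simpa using hm
    simp [this]
  | succ a ih =>
    intro m hm
    induction m using Quotient.inductionOn with
    | h l =>
      have hl : l.length = s * (a + 1) := by simpa using hm
      have h1 : (l.take s).length = s := by
        rw [List.length_take, hl]
        exact Nat.min_eq_left (by nlinarith)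
      have h2 : (l.drop s).length = s * a := by
        rw [List.length_drop, hl, Nat.mul_succ]
        omega
      obtain ⟨M, hM⟩ := ih (l.drop s : Multiset α) (by simpa using h2)
      refine ⟨(⟨(l.take s : Multiset α), by simpa using h1⟩ : Sym α s) ::ₛ M, ?_⟩
      change (Multiset.map (fun x : Sym α s => x.1)
        ((⟨(l.take s : Multiset α), by simpa using h1⟩ : Sym α s) ::ₘ M.1)).sum = _
      rw [Multiset.map_cons, Multiset.sum_cons, hM]
      change ((l.take s : Multiset α)) + (l.drop s : Multiset α) = (l : Multiset α)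
      rw [Multiset.coe_add, List.take_append_drop]

theorem wexc_mc_mc (w s a : ℕ) :
    Nat.multichoose w (s * a) ≤ Nat.multichoose (Nat.multichoose w s) a := by
  classical
  have h1 : Fintype.card (Sym (Fin w) (s * a)) = Nat.multichoose w (s * a) := by
    rw [Sym.card_sym_eq_multichoose, Fintype.card_fin]
  have h2 : Fintype.card (Sym (Sym (Fin w) s) a) =
      Nat.multichoose (Nat.multichoose w s) a := by
    rw [Sym.card_sym_eq_multichoose, Sym.card_sym_eq_multichoose, Fintype.card_fin]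
  rw [← h1, ← h2]
  choose f hf using fun m : Sym (Fin w) (s * a) => wexc_sym s a m.1 m.2
  refine Fintype.card_le_of_injective f (fun x y h => ?_)
  apply Subtype.ext
  rw [← hf x, ← hf y, h]

theorem wexc_sq (w s : ℕ) (hw : 3 ≤ w) : s * s ≤ 2 * Nat.multichoose w s := by
  have h1 : Nat.multichoose 3 s ≤ Nat.multichoose w s := exc_W_mono_left hw s
  have h2 : Nat.multichoose 3 s = (s + 2).choose 2 := by
    rw [Nat.multichoose_eq, show 3 + s - 1 = s + 2 by omega, Nat.choose_symm_add]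
  have h3 := Nat.choose_two_right (s + 2)
  have h4 : (s + 2) * (s + 2 - 1) / 2 * 2 = (s + 2) * (s + 2 - 1) := by
    apply Nat.div_mul_cancel
    exact (Nat.even_mul_pred_self (s + 2)).two_dvd
  rw [← h3, ← h2] at h4
  have h5 : s + 2 - 1 = s + 1 := by omega
  rw [h5] at h4
  nlinarith

theorem wexc_PP_card (s : ℕ) : (PP s).card ≤ s := by
  have h1 : PP s ⊆ Finset.Icc 1 s := by
    intro q hq
    rw [mem_PP] at hq
    rw [Finset.mem_Icc]
    exact ⟨hq.2.pos, hq.1⟩
  simpa using Finset.card_le_card h1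

theorem wexc_big (L t : ℕ) (M : ℝ) (hM : 1 ≤ M)
    (hDD : ∀ δ : ℝ, 0 < δ → ∃ C : ℝ, 0 < C ∧ ∀ s : ℕ, 1 ≤ s →
      (DD t s : ℝ) ≤ C * (s : ℝ) ^ δ) :
    ∃ V0 : ℕ, ∀ w s a : ℕ, 3 ≤ w → 1 ≤ s → 1 ≤ a → V0 ≤ Nat.multichoose w s →
      M * ((min (DD t s ^ a) (2 ^ (PP s).card) : ℕ) : ℝ) ^ L ≤
        (Nat.multichoose (Nat.multichoose w s) a : ℝ) := by
  have hL0 : (0 : ℝ) ≤ L := Nat.cast_nonneg _
  obtain ⟨δ, hδ⟩ : ∃ δ : ℝ, δ = 1 / (4 * ((L : ℝ) + 1)) := ⟨_, rfl⟩
  have hδ0 : 0 < δ := by rw [hδ]; positivity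
  have hLδ : (L : ℝ) * δ ≤ 1 / 4 := by
    rw [hδ, mul_one_div, div_le_div_iff₀ (by positivity) (by norm_num)]
    linarith
  obtain ⟨C, hC0, hC⟩ := hDD δ hδ0
  have hM0 : 0 < M := by linarith
  have hlM : 0 ≤ Real.log M := Real.log_nonneg hM
  obtain ⟨V0, hV0⟩ := exists_nat_ge (Real.exp (4 * (Real.log M + L * |Real.log C|) +
    2 * (Real.log M + 3 * L)))
  refine ⟨V0 + 1, fun w s a hw hs ha hV => ?_⟩
  obtain ⟨V, hVd⟩ : ∃ V, V = Nat.multichoose w s := ⟨_, rfl⟩
  rw [← hVd] at hV ⊢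
  have hV1 : 1 ≤ V := by omega
  have hV0r : (0 : ℝ) < V := by exact_mod_cast hV1
  have hVr : (V0 : ℝ) ≤ V := by exact_mod_cast (by omega : V0 ≤ V)
  obtain ⟨v, hv⟩ : ∃ v, v = Real.log V := ⟨_, rfl⟩
  have hexpv : Real.exp v = V := by rw [hv, Real.exp_log hV0r]
  have hvb : 4 * (Real.log M + L * |Real.log C|) + 2 * (Real.log M + 3 * L) ≤ v := by
    rw [hv]
    exact (Real.le_log_iff_exp_le hV0r).2 (hV0.trans hVr)
  have hab : 0 ≤ (L : ℝ) * |Real.log C| := by positivity
  have hv0 : 0 ≤ v := by linarith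
  have hx : Real.exp (2 * (v / 2)) ≤ (V : ℝ) := by
    rw [show 2 * (v / 2) = v by ring, hexpv]
  have hsV : s ≤ V := by
    have := exc_W_two (show 2 ≤ w by omega) s
    omega
  have hs0r : (0 : ℝ) < s := by exact_mod_cast hs
  have hlogs : Real.log s ≤ v := by
    rw [hv]
    exact Real.log_le_log hs0r (by exact_mod_cast hsV)
  rcases Nat.lt_or_ge V (a * a) with hVa | hVa
  · -- `a` large
    obtain ⟨b, hb⟩ : ∃ b, b = Nat.sqrt V := ⟨_, rfl⟩
    have hb1 : 1 ≤ b := by
      rw [hb, Nat.le_sqrt]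
      omega
    have hbb : b * b ≤ V := by rw [hb]; exact Nat.sqrt_le V
    have hblt : V < (b + 1) * (b + 1) := by rw [hb]; exact Nat.lt_succ_sqrt V
    have hba : b ≤ a := by
      by_contra hcon
      push Not at hcon
      have := Nat.mul_le_mul hcon.le hcon.le
      omega
    have h9 := vexc_mc_ge (V := V) (a' := b) (a := a) hx hb1 hbb hba
    refine le_trans ?_ h9
    have hs3 : s ≤ 3 * b := by
      by_contra hcon
      push Not at hcon
      have h1 := wexc_sq w s hw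
      rw [← hVd] at h1
      have h2 : (3 * b + 1) * (3 * b + 1) ≤ s * s := Nat.mul_le_mul hcon hcon
      nlinarith
    have h1 : ((min (DD t s ^ a) (2 ^ (PP s).card) : ℕ) : ℝ) ≤ Real.exp (3 * b) := by
      have h2 : min (DD t s ^ a) (2 ^ (PP s).card) ≤ 2 ^ (3 * b) :=
        (min_le_right _ _).trans (Nat.pow_le_pow_right (by norm_num)
          ((wexc_PP_card s).trans hs3))
      have h3 : ((min (DD t s ^ a) (2 ^ (PP s).card) : ℕ) : ℝ) ≤ (2 : ℝ) ^ (3 * b) := by
        exact_mod_cast h2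
      refine h3.trans ?_
      have h4 : Real.exp (3 * (b : ℝ)) = Real.exp 1 ^ (3 * b) := by
        rw [← Real.exp_nat_mul]
        congr 1
        push_cast
        ring
      rw [h4]
      apply pow_le_pow_left₀ (by norm_num)
      have := Real.exp_one_gt_d9
      linarith
    have hb1r : (1 : ℝ) ≤ b := by exact_mod_cast hb1
    calc M * ((min (DD t s ^ a) (2 ^ (PP s).card) : ℕ) : ℝ) ^ L
        ≤ Real.exp (Real.log M) * (Real.exp (3 * b)) ^ L := by
          rw [Real.exp_log hM0]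
          exact mul_le_mul_of_nonneg_left (pow_le_pow_left₀ (Nat.cast_nonneg _) h1 L) hM0.le
      _ = Real.exp (Real.log M + L * (3 * b)) := by
          rw [Real.exp_add, Real.exp_nat_mul]
      _ ≤ Real.exp (b * (v / 2)) := by
          apply Real.exp_le_exp.2
          have h2 : Real.log M + 3 * L ≤ v / 2 := by linarith
          have h3 := mul_le_mul_of_nonneg_left h2 (show (0 : ℝ) ≤ b by linarith)
          have h4 : Real.log M ≤ b * Real.log M := by
            have := mul_le_mul_of_nonneg_right hb1r hlM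
            linarith
          calc Real.log M + L * (3 * b) ≤ b * Real.log M + L * (3 * b) := by linarith
            _ = b * (Real.log M + 3 * L) := by ring
            _ ≤ b * (v / 2) := h3
  · -- `a` small
    have h9 := vexc_mc_ge (V := V) (a' := a) (a := a) hx ha hVa le_rfl
    refine le_trans ?_ h9
    have ha1r : (1 : ℝ) ≤ a := by exact_mod_cast ha
    have h1 : (DD t s : ℝ) ≤ Real.exp (|Real.log C| + δ * v) := by
      refine (hC s hs).trans ?_
      rw [Real.exp_add, Real.rpow_def_of_pos hs0r]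
      apply mul_le_mul _ _ (Real.exp_pos _).le (Real.exp_pos _).le
      · calc C = Real.exp (Real.log C) := (Real.exp_log hC0).symm
          _ ≤ Real.exp |Real.log C| := Real.exp_le_exp.2 (le_abs_self _)
      · apply Real.exp_le_exp.2
        rw [mul_comm]
        exact mul_le_mul_of_nonneg_left hlogs hδ0.le
    have h2 : ((min (DD t s ^ a) (2 ^ (PP s).card) : ℕ) : ℝ) ≤
        Real.exp (a * (|Real.log C| + δ * v)) := by
      have h3 : ((min (DD t s ^ a) (2 ^ (PP s).card) : ℕ) : ℝ) ≤ (DD t s : ℝ) ^ a := by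
        exact_mod_cast min_le_left (DD t s ^ a) (2 ^ (PP s).card)
      rw [Real.exp_nat_mul]
      exact h3.trans (pow_le_pow_left₀ (Nat.cast_nonneg _) h1 a)
    calc M * ((min (DD t s ^ a) (2 ^ (PP s).card) : ℕ) : ℝ) ^ L
        ≤ Real.exp (Real.log M) * (Real.exp (a * (|Real.log C| + δ * v))) ^ L := by
          rw [Real.exp_log hM0]
          exact mul_le_mul_of_nonneg_left (pow_le_pow_left₀ (Nat.cast_nonneg _) h2 L) hM0.le
      _ = Real.exp (Real.log M + L * (a * (|Real.log C| + δ * v))) := by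
          rw [Real.exp_add, ← Real.exp_nat_mul]
      _ ≤ Real.exp (a * (v / 2)) := by
          apply Real.exp_le_exp.2
          have h4 : L * δ * v ≤ 1 / 4 * v := mul_le_mul_of_nonneg_right hLδ hv0
          have h5 : Real.log M + L * |Real.log C| + L * δ * v ≤ v / 2 := by
            linarith
          have h6 := mul_le_mul_of_nonneg_left h5 (show (0 : ℝ) ≤ a by linarith)
          have h7 : Real.log M ≤ a * Real.log M := by
            have := mul_le_mul_of_nonneg_right ha1r hlM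
            linarith
          calc Real.log M + L * (a * (|Real.log C| + δ * v))
              ≤ a * Real.log M + L * (a * (|Real.log C| + δ * v)) := by linarith
            _ = a * (Real.log M + L * |Real.log C| + L * δ * v) := by ring
            _ ≤ a * (v / 2) := h6

theorem wexc_fixed (L t : ℕ) (M : ℝ) (hM : 1 ≤ M) (w s : ℕ) (hw : 2 ≤ w) (hs : 1 ≤ s) :
    ∃ K : ℕ, ∀ a : ℕ, K ≤ a → M * ((min (DD t s ^ a) (2 ^ (PP s).card) : ℕ) : ℝ) ^ L ≤
        (Nat.multichoose (Nat.multichoose w s) a : ℝ) := by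
  refine ⟨⌈M * ((2 : ℝ) ^ (PP s).card) ^ L⌉₊, fun a ha => ?_⟩
  have h3 := exc_W_two hw s
  have h4 := exc_W_two (w := Nat.multichoose w s) (by omega) a
  have h5 : a ≤ Nat.multichoose (Nat.multichoose w s) a := by omega
  have h2 : ((min (DD t s ^ a) (2 ^ (PP s).card) : ℕ) : ℝ) ≤ (2 : ℝ) ^ (PP s).card := by
    exact_mod_cast min_le_right (DD t s ^ a) (2 ^ (PP s).card)
  calc M * ((min (DD t s ^ a) (2 ^ (PP s).card) : ℕ) : ℝ) ^ L
      ≤ M * ((2 : ℝ) ^ (PP s).card) ^ L :=
        mul_le_mul_of_nonneg_left (pow_le_pow_left₀ (Nat.cast_nonneg _) h2 L) (by linarith)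
    _ ≤ a := Nat.ceil_le.1 ha
    _ ≤ _ := by exact_mod_cast h5

theorem wexc_DD_pos (t s : ℕ) (hs : 1 ≤ s) : 1 ≤ DD t s := by
  unfold DD
  have h1 : (1 : ℕ) ∈ Finset.Icc 1 (s ^ t) := by
    rw [Finset.mem_Icc]
    exact ⟨le_rfl, Nat.one_le_pow _ _ hs⟩
  have h2 := Finset.le_sup (f := fun n => n.divisors.card) h1
  simpa using h2

theorem rx_pos (L t : ℕ) (p : ℕ × ℕ × ℕ) (h1 : 5 ≤ p.1) (h2 : 1 ≤ p.2.1) : 0 < rx L t p := by
  unfold rx VV
  have hw := two_le_om p.1 h1
  have hW : 1 ≤ Nat.multichoose (om (A p.1)) p.2.1 := by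
    have := exc_W_two hw p.2.1
    omega
  have hV : 0 < Nat.multichoose (Nat.multichoose (om (A p.1)) p.2.1) p.2.2 := by
    have h2 := exc_W_mono_right hW (Nat.zero_le p.2.2)
    rw [Nat.multichoose_zero_right] at h2
    exact h2
  have hO : 0 < oo (Fin (p.2.1 * p.2.2) → A p.1) := oo_pos _
  have hQ : 0 < min (DD t p.2.1 ^ p.2.2) (2 ^ (PP p.2.1).card) :=
    lt_min (pow_pos (wexc_DD_pos t _ h2) _) (by positivity)
  positivity

theorem wexc_finite (L t : ℕ) (C : ℝ)
    (hDD : ∀ δ : ℝ, 0 < δ → ∃ C : ℝ, 0 < C ∧ ∀ s : ℕ, 1 ≤ s →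
      (DD t s : ℝ) ≤ C * (s : ℝ) ^ δ) :
    {p : ℕ × ℕ × ℕ | 5 ≤ p.1 ∧ 1 ≤ p.2.1 ∧ 1 ≤ p.2.2 ∧ rx L t p < C}.Finite := by
  obtain ⟨M, hMd⟩ : ∃ M, M = max C 1 := ⟨_, rfl⟩
  have hM1 : 1 ≤ M := by rw [hMd]; exact le_max_right _ _
  have hM0 : 0 < M := by linarith
  obtain ⟨V0, hV0⟩ := wexc_big (2 * L) t M hM1 hDD
  have hK : ∀ d s : ℕ, ∃ K : ℕ, 5 ≤ d → 1 ≤ s → ∀ a : ℕ, K ≤ a →
      M * ((min (DD t s ^ a) (2 ^ (PP s).card) : ℕ) : ℝ) ^ (2 * L) ≤
        (Nat.multichoose (Nat.multichoose (om (A d)) s) a : ℝ) := by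
    intro d s
    by_cases hd : 5 ≤ d
    · by_cases hs : 1 ≤ s
      · obtain ⟨K, hK⟩ := wexc_fixed (2 * L) t M hM1 (om (A d)) s (two_le_om d hd) hs
        exact ⟨K, fun _ _ => hK⟩
      · exact ⟨0, fun _ h => absurd h hs⟩
    · exact ⟨0, fun h => absurd h hd⟩
  choose K hK using hK
  -- the first finite set
  have hF1 : {p : ℕ × ℕ × ℕ | 5 ≤ p.1 ∧ 1 ≤ p.2.1 ∧ 1 ≤ p.2.2 ∧
      rr (2 * L) (p.1, p.2.1 * p.2.2) < M}.Finite := by
    refine Set.Finite.subset (Set.Finite.biUnion (finite_exc (2 * L) M) (fun q _ =>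
      Set.Finite.biUnion (Set.finite_le_nat q.2) (fun s _ =>
        (Set.finite_le_nat q.2).image (fun a => (q.1, s, a))))) ?_
    rintro ⟨d, s, a⟩ ⟨h1, h2, h3, h4⟩
    simp only at h1 h2 h3 h4
    simp only [Set.mem_iUnion, Set.mem_image]
    refine ⟨(d, s * a), ⟨h1, Nat.mul_pos h2 h3, h4⟩, s, ?_, a, ?_, rfl⟩
    · exact Nat.le_mul_of_pos_right _ h3
    · exact Nat.le_mul_of_pos_left _ h2
  have hF2 : {p : ℕ × ℕ × ℕ | 5 ≤ p.1 ∧ 1 ≤ p.2.1 ∧ 1 ≤ p.2.2 ∧
      ¬ M * ((min (DD t p.2.1 ^ p.2.2) (2 ^ (PP p.2.1).card) : ℕ) : ℝ) ^ (2 * L) ≤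
        (Nat.multichoose (Nat.multichoose (om (A p.1)) p.2.1) p.2.2 : ℝ)}.Finite := by
    refine Set.Finite.subset (Set.Finite.biUnion (Set.finite_lt_nat ((V0 + 10) * (V0 + 10)))
      (fun d _ => Set.Finite.biUnion (Set.finite_lt_nat V0) (fun s _ =>
        (Set.finite_lt_nat (K d s)).image (fun a => (d, s, a))))) ?_
    rintro ⟨d, s, a⟩ ⟨h1, h2, h3, h4⟩
    simp only at h1 h2 h3 h4
    have hV : Nat.multichoose (om (A d)) s < V0 := by
      by_contra hcon
      push Not at hcon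
      exact h4 (hV0 (om (A d)) s a (wexc_om_three d h1) h2 h3 hcon)
    have hs : s < V0 := by
      have := exc_W_two (two_le_om d h1) s
      omega
    have hw : om (A d) < V0 := by
      have := exc_W_mono_right (w := om (A d)) (by have := two_le_om d h1; omega) h2
      rw [Nat.multichoose_one_right] at this
      omega
    have hd : d < (V0 + 10) * (V0 + 10) := by
      by_contra hcon
      push Not at hcon
      have h5 : V0 + 10 ≤ Nat.sqrt d := Nat.le_sqrt.2 hcon
      have h6 := om_alt_ge d (by nlinarith) (by nlinarith)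
      have h7 : 2 ^ V0 ≤ 2 ^ (Nat.sqrt d - 1) := Nat.pow_le_pow_right (by norm_num) (by omega)
      have h8 : V0 < 2 ^ V0 := Nat.lt_two_pow_self
      omega
    have ha : a < K d s := by
      by_contra hcon
      push Not at hcon
      exact h4 (hK d s h1 h2 a hcon)
    simp only [Set.mem_iUnion, Set.mem_image]
    exact ⟨d, hd, s, hs, a, ha, rfl⟩
  refine Set.Finite.subset (hF1.union hF2) ?_
  rintro ⟨d, s, a⟩ ⟨h1, h2, h3, h4⟩
  simp only at h1 h2 h3 h4
  by_contra hcon
  simp only [Set.mem_union, Set.mem_ofPred_eq, not_or, not_and, not_lt, not_not] at hcon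
  have h5 := hcon.1 h1 h2 h3
  have h6 := hcon.2 h1 h2 h3
  have hO : (0 : ℝ) < (oo (Fin (s * a) → A d) : ℝ) := by
    exact_mod_cast (oo_pos (Fin (s * a) → A d))
  have hDn : 0 < min (DD t s ^ a) (2 ^ (PP s).card) :=
    lt_min (pow_pos (wexc_DD_pos t _ h2) _) (by positivity)
  have hD : (0 : ℝ) < ((min (DD t s ^ a) (2 ^ (PP s).card) : ℕ) : ℝ) := by exact_mod_cast hDn
  unfold rr at h5
  simp only at h5
  rw [le_div_iff₀ (by positivity)] at h5
  have h7 : (Nat.multichoose (om (A d)) (s * a) : ℝ) ≤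
      (Nat.multichoose (Nat.multichoose (om (A d)) s) a : ℝ) := by
    exact_mod_cast wexc_mc_mc (om (A d)) s a
  have h8 := h5.trans h7
  have h9 : rx L t (d, s, a) < M := lt_of_lt_of_le h4 (by rw [hMd]; exact le_max_left _ _)
  unfold rx VV at h9
  simp only at h9
  rw [div_lt_iff₀ (by positivity)] at h9
  obtain ⟨O, hOd⟩ : ∃ O : ℝ, O = (oo (Fin (s * a) → A d) : ℝ) := ⟨_, rfl⟩
  obtain ⟨D, hDd⟩ : ∃ D : ℝ, D = ((min (DD t s ^ a) (2 ^ (PP s).card) : ℕ) : ℝ) := ⟨_, rfl⟩
  obtain ⟨W, hWd⟩ : ∃ W : ℝ, W =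
    (Nat.multichoose (Nat.multichoose (om (A d)) s) a : ℝ) := ⟨_, rfl⟩
  rw [← hOd] at h8 h9 hO
  rw [← hDd] at h6 h9 hD
  rw [← hWd] at h6 h8 h9
  have h10 : W * W < (M * (O * D) ^ L) * (M * (O * D) ^ L) :=
    mul_self_lt_mul_self (by rw [hWd]; positivity) h9
  have h11 : (M * O ^ (2 * L)) * (M * D ^ (2 * L)) ≤ W * W :=
    mul_le_mul h8 h6 (by positivity) (by rw [hWd]; positivity)
  have h12 : (M * (O * D) ^ L) * (M * (O * D) ^ L) = (M * O ^ (2 * L)) * (M * D ^ (2 * L)) := by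
    rw [mul_pow, pow_mul', pow_mul']
    ring
  linarith

end SR32
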