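import Pool.Agent.SR32.XGoodS92
import Pool.Agent.SR32.XKindD

/-!
# Tame groups have many automorphism classes compared to element orders, uniform version
-/

set_option autoImplicit false

namespace SR32

universe u

open Filter

theorem tameX_lower (t L : ℕ) (η : ℕ → ℕ) (hη : Tendsto η atTop atTop) : ∃ c : ℝ, 0 < c ∧
    ∀ (Q : Type u) [Group Q] [Finite Q], TameX η t Q → c * (oo Q : ℝ) ^ L ≤ (om Q : ℝ) :=
  tameX_lower_of kindD t L η hη

end SR32
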