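import Pool.Agent.SR32.YTwo
import Pool.Agent.SR32.DefsX
import Pool.Agent.SR32.Quot

/-!
# SR32/XGoodS97: `tameX_lower` with `kindC`, `kindAB`, `kindD` as hypotheses (helper97)
-/

set_option autoImplicit false

namespace SR32

universe u

open Filter

theorem oo_le_three {Q : Type u} [Group Q] [Finite Q] (C D F : Subgroup Q) [C.Normal] [D.Normal]
    [F.Normal] (h : C ⊓ D ⊓ F = ⊥) : oo Q ≤ oo (Q ⧸ C) * oo (Q ⧸ D) * oo (Q ⧸ F) := by
  classical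
  unfold oo
  have hsub : Set.range (fun g : Q => orderOf g) ⊆
      (fun p : (ℕ × ℕ) × ℕ => Nat.lcm (Nat.lcm p.1.1 p.1.2) p.2) ''
        ((Set.range (fun g : Q ⧸ C => orderOf g) ×ˢ Set.range (fun g : Q ⧸ D => orderOf g)) ×ˢ
          Set.range (fun g : Q ⧸ F => orderOf g)) := by
    rintro _ ⟨g, rfl⟩
    refine ⟨((orderOf (g : Q ⧸ C), orderOf (g : Q ⧸ D)), orderOf (g : Q ⧸ F)),
      ⟨⟨⟨_, rfl⟩, ⟨_, rfl⟩⟩, ⟨_, rfl⟩⟩, ?_⟩
    show Nat.lcm (Nat.lcm (orderOf (g : Q ⧸ C)) (orderOf (g : Q ⧸ D))) (orderOf (g : Q ⧸ F)) =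
      orderOf g
    apply Nat.dvd_antisymm
    · apply Nat.lcm_dvd
      · apply Nat.lcm_dvd
        · rw [orderOf_dvd_iff_pow_eq_one, ← QuotientGroup.mk_pow, pow_orderOf_eq_one]
          rfl
        · rw [orderOf_dvd_iff_pow_eq_one, ← QuotientGroup.mk_pow, pow_orderOf_eq_one]
          rfl
      · rw [orderOf_dvd_iff_pow_eq_one, ← QuotientGroup.mk_pow, pow_orderOf_eq_one]
        rfl
    · rw [orderOf_dvd_iff_pow_eq_one]
      obtain ⟨n, hn⟩ : ∃ n, n = Nat.lcm (Nat.lcm (orderOf (g : Q ⧸ C)) (orderOf (g : Q ⧸ D)))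
        (orderOf (g : Q ⧸ F)) := ⟨_, rfl⟩
      rw [← hn]
      have h1 : g ^ n ∈ C := by
        rw [← QuotientGroup.eq_one_iff, QuotientGroup.mk_pow]
        apply orderOf_dvd_iff_pow_eq_one.1
        rw [hn]
        exact (Nat.dvd_lcm_left _ _).trans (Nat.dvd_lcm_left _ _)
      have h2 : g ^ n ∈ D := by
        rw [← QuotientGroup.eq_one_iff, QuotientGroup.mk_pow]
        apply orderOf_dvd_iff_pow_eq_one.1
        rw [hn]
        exact (Nat.dvd_lcm_right _ _).trans (Nat.dvd_lcm_left _ _)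
      have h3 : g ^ n ∈ F := by
        rw [← QuotientGroup.eq_one_iff, QuotientGroup.mk_pow]
        apply orderOf_dvd_iff_pow_eq_one.1
        rw [hn]
        exact Nat.dvd_lcm_right _ _
      have h4 := Subgroup.mem_inf.2 ⟨Subgroup.mem_inf.2 ⟨h1, h2⟩, h3⟩
      rw [h, Subgroup.mem_bot] at h4
      exact h4
  refine (Set.ncard_le_ncard hsub (Set.toFinite _)).trans ?_
  refine (Set.ncard_image_le (Set.toFinite _)).trans ?_
  rw [Set.ncard_prod, Set.ncard_prod]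

theorem xg_om_le_card (S : Type u) [Group S] [Finite S] : om S ≤ Nat.card S := by
  unfold om
  exact Nat.card_le_card_of_surjective
    (fun x : S => (Quotient.mk'' x : MulAction.orbitRel.Quotient (MulAut S) S))
    (fun q => Quotient.inductionOn' q fun x => ⟨x, rfl⟩)

theorem xg_small {T1 t1 T2 : ℕ} (hT : T1 ^ (t1 * T1 ^ 2) ≤ T2) {Q : Type u} [Group Q] [Finite Q]
    {M : Subgroup Q} (hM : IsMinNormal M) {S : Type u} [Group S] [Finite S]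
    (hS : ∃ x y : S, x * y ≠ y * x) (hcard : Nat.card S ≤ T1) {s : ℕ} (hs : s ≤ t1 * om S ^ 2)
    (e : M ≃* (Fin s → S)) : GoodAB T2 M := by
  refine Or.inl ⟨yg_nonab hM hS e, le_trans ?_ hT⟩
  have h0 : om S ≤ T1 := (xg_om_le_card S).trans hcard
  have h1 : 1 ≤ T1 := (om_pos S).trans h0
  have h2 : s ≤ t1 * T1 ^ 2 := hs.trans (Nat.mul_le_mul_left t1 (Nat.pow_le_pow_left h0 2))
  have h3 : Nat.card M = Nat.card S ^ s := by
    rw [Nat.card_congr e.toEquiv, Nat.card_fun, Nat.card_fin]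
  rw [h3]
  exact (Nat.pow_le_pow_left hcard s).trans (Nat.pow_le_pow_right h1 h2)

theorem xg_split {η : ℕ → ℕ} {t s0 W0 W1 W t1 T1 T2 : ℕ} (hW0 : W0 ≤ W) (hW1 : W1 ≤ W)
    (ht1 : t ≤ t1) (hs1 : s0 ≤ t1) (hT1 : t ≤ T1) (hT1' : 2 ^ W ≤ T1) (hT2 : t ≤ T2)
    (hT : T1 ^ (t1 * T1 ^ 2) ≤ T2) {Q : Type u} [Group Q] [Finite Q] {M : Subgroup Q}
    (hM : IsMinNormal M) (h : GoodX η t M) :
    GoodAB T2 M ∨ GoodC η W0 t1 M ∨ GoodD η W1 s0 t T1 M := by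
  obtain ⟨S, s, ⟨hsim, hnab, hkind⟩, ⟨e⟩, hcond⟩ := h
  have hsmall : Nat.card S ≤ T1 → GoodAB T2 M ∨ GoodC η W0 t1 M ∨ GoodD η W1 s0 t T1 M := by
    intro hcard
    rcases Nat.lt_or_ge (t1 * om S ^ 2) s with hs | hs
    · right; right
      have hom : 1 ≤ om S ^ 2 := Nat.one_le_pow _ _ (om_pos S)
      refine ⟨S, s, hsim, hnab, Or.inl hcard, ?_, ?_, ⟨e⟩⟩
      · calc s0 ≤ t1 := hs1
          _ ≤ t1 * om S ^ 2 := Nat.le_mul_of_pos_right _ hom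
          _ ≤ s := hs.le
      · rcases hcond with h | h | h
        · exfalso
          have : t * om S ^ 2 ≤ t1 * om S ^ 2 := Nat.mul_le_mul_right _ ht1
          omega
        · exact Or.inl h
        · exact Or.inr h
    · exact Or.inl (xg_small hT hM hnab hcard hs e)
  rcases hkind with h | h | ⟨d, hd, ⟨f⟩⟩
  · exact hsmall (h.trans hT1)
  · rcases Nat.lt_or_ge (om S) W with hW | hW
    · exact hsmall ((rich_card h).trans
        ((Nat.pow_le_pow_right (by norm_num) hW.le).trans hT1'))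
    · right
      rcases Nat.lt_or_ge (t1 * om S ^ 2) s with hs | hs
      · right
        have hom : 1 ≤ om S ^ 2 := Nat.one_le_pow _ _ (om_pos S)
        refine ⟨S, s, hsim, hnab, Or.inr ⟨h, hW1.trans hW⟩, ?_, ?_, ⟨e⟩⟩
        · calc s0 ≤ t1 := hs1
            _ ≤ t1 * om S ^ 2 := Nat.le_mul_of_pos_right _ hom
            _ ≤ s := hs.le
        · rcases hcond with h | h | h
          · exfalso
            have : t * om S ^ 2 ≤ t1 * om S ^ 2 := Nat.mul_le_mul_right _ ht1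
            omega
          · exact Or.inl h
          · exact Or.inr h
      · exact Or.inl ⟨S, s, h, hW0.trans hW, hs, ⟨e⟩⟩
  · left
    apply yg_AB_mono hT2 hM
    refine Or.inr ⟨d, s, hd, ?_, ⟨e.trans (MulEquiv.piCongrRight fun _ => f)⟩⟩
    rw [← om_congr f]
    exact hcond

theorem tameX_lower_of (t L : ℕ) (η : ℕ → ℕ)
    (hC : ∀ t1 : ℕ, ∃ W0 : ℕ, ∀ (Q : Type u) [Group Q] [Finite Q] (C : Subgroup Q) [C.Normal],
      (∀ z : Q, z ∈ C ↔ ∀ M : Subgroup Q, IsMinNormal M → GoodC η W0 t1 M →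
        ∀ y ∈ M, z * y = y * z) →
      oo (Q ⧸ C) ^ (3 * L) ≤ om Q)
    (hAB : ∀ t' : ℕ, ∃ c : ℝ, 0 < c ∧
      ∀ (Q : Type u) [Group Q] [Finite Q] (C : Subgroup Q) [C.Normal],
        (∀ z : Q, z ∈ C ↔ ∀ M : Subgroup Q, IsMinNormal M → GoodAB t' M → ∀ y ∈ M,
          z * y = y * z) →
        c * (oo (Q ⧸ C) : ℝ) ^ (3 * L) ≤ (om Q : ℝ))
    (hD : ∃ s0 W0 : ℕ, ∀ T : ℕ, ∃ c : ℝ, 0 < c ∧
      ∀ (Q : Type u) [Group Q] [Finite Q] (C : Subgroup Q) [C.Normal],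
        (∀ z : Q, z ∈ C ↔ ∀ M : Subgroup Q, IsMinNormal M → GoodD η W0 s0 t T M → ∀ y ∈ M,
          z * y = y * z) →
        c * (oo (Q ⧸ C) : ℝ) ^ (3 * L) ≤ (om Q : ℝ)) :
    ∃ c : ℝ, 0 < c ∧
    ∀ (Q : Type u) [Group Q] [Finite Q], TameX η t Q → c * (oo Q : ℝ) ^ L ≤ (om Q : ℝ) := by
  classical
  obtain ⟨s0, W1, hD'⟩ := hD
  obtain ⟨t1, ht1e⟩ : ∃ t1 : ℕ, t1 = max t s0 := ⟨_, rfl⟩
  obtain ⟨W0, hC'⟩ := hC t1
  obtain ⟨W, hWe⟩ : ∃ W : ℕ, W = max W0 W1 := ⟨_, rfl⟩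
  obtain ⟨T1, hT1e⟩ : ∃ T1 : ℕ, T1 = max t (2 ^ W) := ⟨_, rfl⟩
  obtain ⟨T2, hT2e⟩ : ∃ T2 : ℕ, T2 = max t (T1 ^ (t1 * T1 ^ 2)) := ⟨_, rfl⟩
  obtain ⟨c1, hc1, hD''⟩ := hD' T1
  obtain ⟨c2, hc2, hAB'⟩ := hAB T2
  obtain ⟨c0, hc0e⟩ : ∃ c0 : ℝ, c0 = min 1 (min c1 c2) := ⟨_, rfl⟩
  have hc0 : 0 < c0 := by rw [hc0e]; positivity
  have hc01 : c0 ≤ 1 := by rw [hc0e]; exact min_le_left _ _
  have hc0c1 : c0 ≤ c1 := by rw [hc0e]; exact (min_le_right _ _).trans (min_le_left _ _)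
  have hc0c2 : c0 ≤ c2 := by rw [hc0e]; exact (min_le_right _ _).trans (min_le_right _ _)
  refine ⟨min (1 / ((t : ℝ) + 1) ^ L) c0, by positivity, ?_⟩
  intro Q _ _ hQ
  have hoo0 : (0 : ℝ) ≤ (oo Q : ℝ) := Nat.cast_nonneg _
  rcases hQ with hQ | hQ
  · have h1 : (oo Q : ℝ) ^ L ≤ ((t : ℝ) + 1) ^ L := by
      apply pow_le_pow_left₀ hoo0
      have : (oo Q : ℝ) ≤ (t : ℝ) := by exact_mod_cast hQ
      linarith
    calc min (1 / ((t : ℝ) + 1) ^ L) c0 * (oo Q : ℝ) ^ L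
        ≤ (1 / ((t : ℝ) + 1) ^ L) * (oo Q : ℝ) ^ L :=
          mul_le_mul_of_nonneg_right (min_le_left _ _) (by positivity)
      _ ≤ (1 / ((t : ℝ) + 1) ^ L) * ((t : ℝ) + 1) ^ L :=
          mul_le_mul_of_nonneg_left h1 (by positivity)
      _ = 1 := by
          rw [one_div, inv_mul_cancel₀]
          positivity
      _ ≤ (om Q : ℝ) := by exact_mod_cast om_pos Q
  · have hkind : ∀ M : Subgroup Q, IsMinNormal M →
        GoodAB T2 M ∨ GoodC η W0 t1 M ∨ GoodD η W1 s0 t T1 M := by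
      intro M hM
      refine xg_split (W := W) ?_ ?_ ?_ ?_ ?_ ?_ ?_ ?_ hM (hQ M hM)
      · rw [hWe]; exact le_max_left _ _
      · rw [hWe]; exact le_max_right _ _
      · rw [ht1e]; exact le_max_left _ _
      · rw [ht1e]; exact le_max_right _ _
      · rw [hT1e]; exact le_max_left _ _
      · rw [hT1e]; exact le_max_right _ _
      · rw [hT2e]; exact le_max_left _ _
      · rw [hT2e]; exact le_max_right _ _
    have hna : ∀ M : Subgroup Q, IsMinNormal M → ∃ x ∈ M, ∃ y ∈ M, x * y ≠ y * x := by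
      intro M hM
      obtain ⟨S, s, hk, ⟨e⟩, _⟩ := hQ M hM
      exact yg_nonab hM hk.2.1 e
    obtain ⟨C, hCn, hC⟩ := exists_cent (fun M : Subgroup Q => IsMinNormal M ∧ GoodC η W0 t1 M)
      (fun M hM => hM.1.1)
    obtain ⟨D, hDn, hD⟩ := exists_cent (fun M : Subgroup Q => IsMinNormal M ∧ GoodAB T2 M)
      (fun M hM => hM.1.1)
    obtain ⟨F, hFn, hF⟩ := exists_cent
      (fun M : Subgroup Q => IsMinNormal M ∧ GoodD η W1 s0 t T1 M) (fun M hM => hM.1.1)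
    have hCDF : C ⊓ D ⊓ F = ⊥ := by
      rw [Subgroup.eq_bot_iff_forall]
      intro z hz
      obtain ⟨hz1, hzF⟩ := Subgroup.mem_inf.1 hz
      obtain ⟨hzC, hzD⟩ := Subgroup.mem_inf.1 hz1
      apply eq_one_of_centralize hna
      intro M hM y hy
      rcases hkind M hM with h | h | h
      · exact (hD z).1 hzD M ⟨hM, h⟩ y hy
      · exact (hC z).1 hzC M ⟨hM, h⟩ y hy
      · exact (hF z).1 hzF M ⟨hM, h⟩ y hy
    have h1 : oo (Q ⧸ C) ^ (3 * L) ≤ om Q := hC' Q C fun z => by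
      rw [hC z]
      exact ⟨fun h M hM hg => h M ⟨hM, hg⟩, fun h M hM => h M hM.1 hM.2⟩
    have h2 : c2 * (oo (Q ⧸ D) : ℝ) ^ (3 * L) ≤ (om Q : ℝ) := hAB' Q D fun z => by
      rw [hD z]
      exact ⟨fun h M hM hg => h M ⟨hM, hg⟩, fun h M hM => h M hM.1 hM.2⟩
    have h3 : c1 * (oo (Q ⧸ F) : ℝ) ^ (3 * L) ≤ (om Q : ℝ) := hD'' Q F fun z => by
      rw [hF z]
      exact ⟨fun h M hM hg => h M ⟨hM, hg⟩, fun h M hM => h M hM.1 hM.2⟩
    have h4 := oo_le_three C D F hCDF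
    have h1' : (oo (Q ⧸ C) : ℝ) ^ (3 * L) ≤ (om Q : ℝ) := by exact_mod_cast h1
    have h4' : (oo Q : ℝ) ≤ (oo (Q ⧸ C) : ℝ) * (oo (Q ⧸ D) : ℝ) * (oo (Q ⧸ F) : ℝ) := by
      exact_mod_cast h4
    have hom : (0 : ℝ) ≤ (om Q : ℝ) := Nat.cast_nonneg _
    obtain ⟨x, hx⟩ : ∃ x : ℝ, x = (oo Q : ℝ) ^ L := ⟨_, rfl⟩
    have hx0 : 0 ≤ x := by rw [hx]; positivity
    have hc3 : c0 ^ 3 ≤ c2 * c1 := by
      calc c0 ^ 3 = c0 * c0 * c0 := by ring
        _ ≤ c0 * c0 * 1 := mul_le_mul_of_nonneg_left hc01 (by positivity)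
        _ = c0 * c0 := mul_one _
        _ ≤ c2 * c1 := mul_le_mul hc0c2 hc0c1 hc0.le hc2.le
    have h5 : (c0 * x) ^ 3 ≤ (om Q : ℝ) ^ 3 := by
      calc (c0 * x) ^ 3 = c0 ^ 3 * (oo Q : ℝ) ^ (3 * L) := by
            rw [mul_pow, hx, ← pow_mul, mul_comm L 3]
        _ ≤ c2 * c1 * ((oo (Q ⧸ C) : ℝ) * (oo (Q ⧸ D) : ℝ) * (oo (Q ⧸ F) : ℝ)) ^ (3 * L) := by
            apply mul_le_mul hc3 _ (by positivity) (by positivity)
            exact pow_le_pow_left₀ hoo0 h4' _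
        _ = (oo (Q ⧸ C) : ℝ) ^ (3 * L) * (c2 * (oo (Q ⧸ D) : ℝ) ^ (3 * L)) *
              (c1 * (oo (Q ⧸ F) : ℝ) ^ (3 * L)) := by
            rw [mul_pow, mul_pow]; ring
        _ ≤ (om Q : ℝ) * (om Q : ℝ) * (om Q : ℝ) := by
            apply mul_le_mul _ h3 (by positivity) (by positivity)
            exact mul_le_mul h1' h2 (by positivity) hom
        _ = (om Q : ℝ) ^ 3 := by ring
    have h6 : c0 * x ≤ (om Q : ℝ) := le_of_pow_le_pow_left₀ (by norm_num) hom h5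
    rw [hx] at h6
    exact (mul_le_mul_of_nonneg_right (min_le_right _ _) (by positivity)).trans h6

end SR32
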