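import Pool.Agent.SR32.YKindC
import Pool.Agent.SR32.XAct
import Pool.Agent.SR32.ZOrb
import Pool.Agent.SR32.DefsX

/-!
# SR32/XKindDS3: kindD from lowerX and oo_quot_image
-/

set_option autoImplicit false

namespace SR32.XKindDS3

open SR32

universe u

open Filter

theorem goodD_map {η : ℕ → ℕ} {W s0 t T : ℕ} {Q : Type u} [Group Q] [Finite Q] (φ : Q ≃* Q)
    {K : Subgroup Q} (h : GoodD η W s0 t T K) : GoodD η W s0 t T (K.map φ.toMonoidHom) := by
  obtain ⟨S, s, h1, ⟨x, y, hxy⟩, h3, h4, h5, ⟨e⟩⟩ := h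
  let ψ : K ≃* K.map φ.toMonoidHom := φ.subgroupMap K
  let χ : S ≃* S.map ψ.toMonoidHom := ψ.subgroupMap S
  refine ⟨S.map ψ.toMonoidHom, s, (MulEquiv.isSimpleGroup_congr χ).1 h1, ⟨χ x, χ y, ?_⟩, ?_, h4,
    ?_, ⟨?_⟩⟩
  · intro h
    apply hxy
    apply χ.injective
    rw [map_mul, map_mul, h]
  · rcases h3 with h3 | ⟨h3, h3'⟩
    · left
      rw [← Nat.card_congr χ.toEquiv]
      exact h3
    · right
      refine ⟨rich_congr χ h3, ?_⟩
      rw [← om_congr χ]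
      exact h3'
  · rw [← om_congr χ]
    rcases h5 with h5 | h5
    · exact Or.inl ((facNorm_map_index φ K).trans h5)
    · exact Or.inr ((Nat.mul_le_mul_left _ (autFac_map φ K)).trans h5)
  · exact ψ.symm.trans (e.trans (MulEquiv.piCongrRight fun _ => χ))

theorem kindD_of
    (hlow : ∀ (L t : ℕ) (η : ℕ → ℕ), Tendsto η atTop atTop → ∃ s0 W0 : ℕ, ∀ T : ℕ,
      ∃ c : ℝ, 0 < c ∧
      ∀ (H : Type u) [Group H] [Finite H] (a : ℕ) (M : Fin a → Subgroup H) (S : Fin a → Type u)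
        [∀ j, Group (S j)] [∀ j, Finite (S j)] (s : Fin a → ℕ),
        Function.Injective M → (∀ j, IsMinNormal (M j)) →
        (∀ (φ : H ≃* H) (j : Fin a), ∃ k, (M j).map φ.toMonoidHom = M k) →
        (∀ j, IsSimpleGroup (S j)) → (∀ j, ∃ x y : S j, x * y ≠ y * x) →
        (∀ j, Nat.card (S j) ≤ T ∨ (Rich η (S j) ∧ W0 ≤ om (S j))) → (∀ j, s0 ≤ s j) →
        (∀ j, Nonempty (M j ≃* (Fin (s j) → S j))) →
        ∀ I : Subgroup (∀ j, Equiv.Perm (Fin (s j))),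
        (∀ j, Nat.card (I.map (Pi.evalMonoidHom (fun j => Equiv.Perm (Fin (s j))) j)) ≤ s j ^ t ∨
          2 ^ s j * autFac (M j) ≤ om (S j) ^ s j) →
        c * ((oo I : ℝ) * (oo (∀ j, (Fin (s j) → MulAut (S j))) : ℝ)) ^ L ≤ (om H : ℝ))
    (L t : ℕ) (η : ℕ → ℕ) (hη : Tendsto η atTop atTop) : ∃ s0 W0 : ℕ, ∀ T : ℕ,
    ∃ c : ℝ, 0 < c ∧ ∀ (Q : Type u) [Group Q] [Finite Q] (C : Subgroup Q) [C.Normal],
      (∀ z : Q, z ∈ C ↔ ∀ M : Subgroup Q, IsMinNormal M → GoodD η W0 s0 t T M →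
        ∀ y ∈ M, z * y = y * z) →
      c * (oo (Q ⧸ C) : ℝ) ^ L ≤ (om Q : ℝ) := by
  classical
  obtain ⟨s0, W0, hT⟩ := hlow L t η hη
  refine ⟨s0, W0, fun T => ?_⟩
  obtain ⟨c, hc0, hc⟩ := hT T
  refine ⟨c, hc0, ?_⟩
  intro Q _ _ C _ hC
  obtain ⟨a, ⟨ν⟩⟩ := Finite.exists_equiv_fin
    {K : Subgroup Q // IsMinNormal K ∧ GoodD η W0 s0 t T K}
  let M : Fin a → Subgroup Q := fun j => (ν.symm j).1
  have hM : ∀ j, IsMinNormal (M j) := fun j => (ν.symm j).2.1
  have hG : ∀ j, GoodD η W0 s0 t T (M j) := fun j => (ν.symm j).2.2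
  have hall : ∀ K : Subgroup Q, IsMinNormal K → GoodD η W0 s0 t T K → ∃ j, M j = K := by
    intro K hK hK'
    refine ⟨ν ⟨K, hK, hK'⟩, ?_⟩
    show (ν.symm (ν ⟨K, hK, hK'⟩)).1 = K
    rw [Equiv.symm_apply_apply]
  have hMinj : Function.Injective M := fun i j hij => ν.symm.injective (Subtype.ext hij)
  have haut : ∀ (φ : Q ≃* Q) (j : Fin a), ∃ k, (M j).map φ.toMonoidHom = M k := by
    intro φ j
    obtain ⟨k, hk⟩ := hall ((M j).map φ.toMonoidHom) (st_map_min φ (hM j)) (goodD_map φ (hG j))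
    exact ⟨k, hk.symm⟩
  choose S s hsim hnab hkind hs halt he using hG
  have hcen : ∀ j, Subgroup.center (S j) = ⊥ := by
    intro j
    obtain ⟨x, y, hxy⟩ := hnab j
    rcases (hsim j).eq_bot_or_eq_top_of_normal (Subgroup.center (S j)) inferInstance with h | h
    · exact h
    · exfalso
      apply hxy
      have h2 : x ∈ Subgroup.center (S j) := by rw [h]; exact Subgroup.mem_top _
      exact (Subgroup.mem_center_iff.1 h2 y).symm
  obtain ⟨I, hI1, hI2⟩ := oo_quot_image a M (fun j => (hM j).1) (fun j => (S j : Type u))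
    hsim hcen s (fun j => (he j).some) C (by
      intro z
      rw [hC]
      constructor
      · intro h j y hy
        exact h (M j) (hM j) ⟨S j, s j, hsim j, hnab j, hkind j, hs j, halt j, he j⟩ y hy
      · intro h K hK hK' y hy
        obtain ⟨j, rfl⟩ := hall K hK hK'
        exact h j y hy)
  have h1 := hc Q a M (fun j => (S j : Type u)) s hMinj hM haut hsim hnab hkind hs he I
    (fun j => (halt j).imp (fun h => (hI1 j).trans h) id)
  refine le_trans ?_ h1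
  apply mul_le_mul_of_nonneg_left _ hc0.le
  apply pow_le_pow_left₀ (Nat.cast_nonneg _)
  exact_mod_cast hI2

end SR32.XKindDS3
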