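import Pool.Agent.SR32.ZExc
import Pool.Agent.SR32.WDiv

/-!
# SR32/XNum: numbers for powers `S ^ s` with `s` large
-/

namespace SR32

theorem xnum_one (L t : ℕ) : ∃ s0 : ℕ, ∀ w s a : ℕ, 3 ≤ w → s0 ≤ s → 1 ≤ a →
    (min (DD t s ^ a) (2 ^ (PP s).card)) ^ L ≤ Nat.multichoose (Nat.multichoose w s) a := by
  obtain ⟨V0, hV0⟩ := wexc_big L t 1 le_rfl (DD_bound t)
  refine ⟨V0 + 1, fun w s a hw hs ha => ?_⟩
  have h1 := exc_W_two (show 2 ≤ w by omega) s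
  have h2 := hV0 w s a hw (by omega) ha (by omega)
  rw [one_mul] at h2
  exact_mod_cast h2

theorem xnum_two (L : ℕ) : ∃ s0 : ℕ, ∀ s : ℕ, s0 ≤ s → (2 ^ (PP s).card) ^ L ≤ 2 ^ s := by
  obtain ⟨s0, hs0⟩ := zexc_num L 1 le_rfl
  refine ⟨s0, fun s hs => ?_⟩
  have h1 := hs0 s hs
  rw [one_mul] at h1
  have h2 : (2 ^ (PP s).card) ^ (2 * L) ≤ 2 ^ s := by exact_mod_cast h1
  exact (Nat.pow_le_pow_right (by positivity) (by omega)).trans h2

/-- A version with `(1 + 1 / t) ^ s` instead of `2 ^ s`. -/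
theorem xnum_three (L t : ℕ) (ht : 1 ≤ t) : ∃ s0 : ℕ, ∀ s : ℕ, s0 ≤ s →
    (2 ^ (PP s).card) ^ L * t ^ s ≤ (t + 1) ^ s := by
  have ht0 : (0 : ℝ) < t := by exact_mod_cast ht
  have hL0 : (0 : ℝ) ≤ L := Nat.cast_nonneg _
  have hlog2 : 0 < Real.log 2 := Real.log_pos (by norm_num)
  obtain ⟨β, hβ⟩ : ∃ β : ℝ, β = Real.log (1 + 1 / t) := ⟨_, rfl⟩
  have hβ0 : 0 < β := by
    rw [hβ]
    apply Real.log_pos
    have : 0 < 1 / (t : ℝ) := by positivity
    linarith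
  obtain ⟨ε, hε⟩ : ∃ ε : ℝ, ε = β / (2 * ((L : ℝ) + 1) * Real.log 2) := ⟨_, rfl⟩
  have hε0 : 0 < ε := by rw [hε]; positivity
  have hLε : Real.log 2 * (L * ε) ≤ β / 2 := by
    have h1 : Real.log 2 * (L * ε) = (L / (L + 1)) * (β / 2) := by
      rw [hε]
      field_simp
    rw [h1]
    have h2 : (L : ℝ) / (L + 1) ≤ 1 := by
      rw [div_le_one (by positivity)]
      linarith
    nlinarith
  obtain ⟨C, hC⟩ := pp_density ε hε0
  obtain ⟨s0, hs0⟩ := exists_nat_ge (2 * (Real.log 2 * (L * C)) / β)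
  refine ⟨s0, fun s hs => ?_⟩
  have hsr : (s0 : ℝ) ≤ s := by exact_mod_cast hs
  have hs1 : (0 : ℝ) ≤ s := Nat.cast_nonneg _
  have h1 : ((2 : ℝ) ^ (PP s).card) ^ L ≤ (1 + 1 / (t : ℝ)) ^ s := by
    have e1 : ((2 : ℝ) ^ (PP s).card) ^ L = Real.exp (Real.log 2 * (L * (PP s).card)) := by
      rw [← pow_mul, Real.exp_mul, Real.exp_log (by norm_num), ← Real.rpow_natCast]
      congr 1
      push_cast
      ring
    have e2 : (1 + 1 / (t : ℝ)) ^ s = Real.exp (β * s) := by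
      rw [hβ, Real.exp_mul, Real.exp_log (by positivity), Real.rpow_natCast]
    rw [e1, e2]
    apply Real.exp_le_exp.2
    have h2 := mul_le_mul_of_nonneg_left (mul_le_mul_of_nonneg_left (hC s) hL0) hlog2.le
    have h3 : Real.log 2 * (L * (C + ε * s)) =
        Real.log 2 * (L * C) + Real.log 2 * (L * ε) * s := by ring
    have h4 := mul_le_mul_of_nonneg_right hLε hs1
    have h5 : 2 * (Real.log 2 * (L * C)) ≤ β * s := by
      rw [div_le_iff₀ hβ0] at hs0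
      nlinarith
    linarith
  have h6 : (((2 ^ (PP s).card) ^ L * t ^ s : ℕ) : ℝ) ≤ (((t + 1) ^ s : ℕ) : ℝ) := by
    push_cast
    calc ((2 : ℝ) ^ (PP s).card) ^ L * (t : ℝ) ^ s ≤ (1 + 1 / (t : ℝ)) ^ s * (t : ℝ) ^ s :=
          mul_le_mul_of_nonneg_right h1 (by positivity)
      _ = ((t : ℝ) + 1) ^ s := by
          rw [← mul_pow]
          congr 1
          field_simp
  exact_mod_cast h6

end SR32
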