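import Pool.Agent.SR32.OuterT
import Pool.Agent.SR32.Quot
import Pool.Agent.SR32.QOrd

/-!
# SR32/YActS3: element orders of products of automorphism groups of direct powers
-/

set_option autoImplicit false

namespace SR32

theorem yact_prod {G H : Type*} [Group G] [Group H] [Finite G] [Finite H] :
    oo (G × H) ≤ oo G * oo H := by
  unfold oo
  rw [← Set.ncard_prod]
  have hfin : (Set.range (fun g : G => orderOf g) ×ˢ Set.range (fun g : H => orderOf g)).Finite :=
    (Set.finite_range _).prod (Set.finite_range _)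
  refine (Set.ncard_le_ncard (t := (fun p : ℕ × ℕ => Nat.lcm p.1 p.2) ''
    (Set.range (fun g : G => orderOf g) ×ˢ Set.range (fun g : H => orderOf g))) ?_
    (hfin.image _)).trans (Set.ncard_image_le hfin)
  rintro _ ⟨x, rfl⟩
  refine ⟨(orderOf x.1, orderOf x.2), ⟨⟨x.1, rfl⟩, ⟨x.2, rfl⟩⟩, ?_⟩
  exact (Prod.orderOf x).symm

theorem yact_pi {b : ℕ} {S : Fin b → Type*} [∀ j, Group (S j)] [∀ j, Finite (S j)]
    (hS : ∀ j, IsSimpleGroup (S j)) (hc : ∀ j, Subgroup.center (S j) = ⊥) (s : Fin b → ℕ) :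
    oo (∀ j, MulAut (Fin (s j) → S j)) ≤
      oo (∀ j, Equiv.Perm (Fin (s j))) * oo (∀ j, (Fin (s j) → MulAut (S j))) := by
  classical
  have hfinA : ∀ j, Finite (MulAut (Fin (s j) → S j)) := fun j =>
    Finite.of_injective (fun φ : MulAut (Fin (s j) → S j) => (φ : _ → _)) DFunLike.coe_injective
  have hfinB : ∀ j, Finite (MulAut (S j)) := fun j =>
    Finite.of_injective (fun φ : MulAut (S j) => (φ : _ → _)) DFunLike.coe_injective
  have hσ : ∀ (j : Fin b) (φ : MulAut (Fin (s j) → S j)),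
      ∃ σ : Equiv.Perm (Fin (s j)), PermOf φ σ := by
    intro j φ
    have := hS j
    obtain ⟨σ, ψ, hψ⟩ := aut_pi (fun _ : Fin (s j) => S j) (fun _ => hc j) φ
    exact ⟨σ, ψ, hψ⟩
  choose σ hσ using hσ
  have hσmul : ∀ (j : Fin b) (φ φ' : MulAut (Fin (s j) → S j)),
      σ j (φ * φ') = σ j φ * σ j φ' := by
    intro j φ φ'
    have := hS j
    have : Nontrivial (S j) := inferInstance
    exact (hσ j (φ * φ')).unique ((hσ j φ).mul (hσ j φ'))
  let τ : (∀ j, MulAut (Fin (s j) → S j)) →* (∀ j, Equiv.Perm (Fin (s j))) :=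
    MonoidHom.mk' (fun φ j => σ j (φ j)) (by
      intro φ φ'
      ext1 j
      exact hσmul j (φ j) (φ' j))
  have hker : oo τ.ker ≤ oo (∀ j, (Fin (s j) → MulAut (S j))) := by
    unfold oo
    refine Set.ncard_le_ncard ?_ (Set.finite_range _)
    rintro _ ⟨⟨φ, hφ⟩, rfl⟩
    have hone : ∀ j, σ j (φ j) = 1 := fun j => congrFun (MonoidHom.mem_ker.1 hφ) j
    have hψ : ∀ (j : Fin b) (i : Fin (s j)), ∃ ψ : MulAut (S j),
        ∀ x : Fin (s j) → S j, φ j x i = ψ (x i) := by
      intro j i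
      obtain ⟨ψ, hψ⟩ := hσ j (φ j)
      refine ⟨ψ i, fun x => ?_⟩
      have h1 := hψ x i
      rw [hone j] at h1
      exact h1
    choose ψ hψ using hψ
    have hpow : ∀ (k : ℕ) (j : Fin b) (i : Fin (s j)) (x : Fin (s j) → S j),
        (φ j ^ k) x i = (ψ j i ^ k) (x i) := by
      intro k
      induction k with
      | zero => intro j i x; simp
      | succ k ih =>
        intro j i x
        rw [pow_succ', MulAut.mul_apply, hψ, ih, pow_succ', MulAut.mul_apply]
    refine ⟨ψ, ?_⟩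
    show orderOf ψ = orderOf (⟨φ, hφ⟩ : τ.ker)
    rw [← Subgroup.orderOf_coe]
    show orderOf ψ = orderOf φ
    apply Nat.dvd_antisymm
    · rw [orderOf_dvd_iff_pow_eq_one]
      have h1 := pow_orderOf_eq_one φ
      funext j i
      ext x
      have h2 : (φ j ^ orderOf φ) = 1 := congrFun h1 j
      have h3 := hpow (orderOf φ) j i (fun _ => x)
      rw [h2] at h3
      exact h3.symm
    · rw [orderOf_dvd_iff_pow_eq_one]
      have h1 := pow_orderOf_eq_one ψ
      funext j
      ext x i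
      have h2 : (ψ j i ^ orderOf ψ) = 1 := congrFun (congrFun h1 j) i
      show (φ j ^ orderOf ψ) x i = x i
      rw [hpow, h2]
      rfl
  have h1 := oo_le_outerT τ.ker τ 1 le_rfl (fun h hh => by
    rw [pow_one]
    exact MonoidHom.mem_ker.2 hh)
  rw [one_mul] at h1
  exact h1.trans (Nat.mul_le_mul_left _ hker)

/-- Isomorphic factors. -/
theorem yact_sub {Q : Type*} [Group Q] [Finite Q] {b : ℕ} (M : Fin b → Subgroup Q)
    {S : Fin b → Type*} [∀ j, Group (S j)] [∀ j, Finite (S j)]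
    (hS : ∀ j, IsSimpleGroup (S j)) (hc : ∀ j, Subgroup.center (S j) = ⊥) (s : Fin b → ℕ)
    (e : ∀ j, M j ≃* (Fin (s j) → S j)) :
    oo (∀ j, MulAut (M j)) ≤
      oo (∀ j, Equiv.Perm (Fin (s j))) * oo (∀ j, (Fin (s j) → MulAut (S j))) := by
  rw [oo_congr (MulEquiv.piCongrRight (fun j => MulAut.congr (e j)))]
  exact yact_pi hS hc s

end SR32
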