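import Pool.Agent.SR32.YGood
import Pool.Agent.SR32.YMin
import Pool.Agent.SR32.YPow
import Pool.Agent.SR32.DefsG
import Pool.Agent.SR32.ZFinal

/-!
# The bound for the index of the soluble radical, arbitrary simple factors
-/

set_option autoImplicit false

namespace SR32

universe u

open Filter

theorem yt_main (η : ℕ → ℕ) (t Λ : ℕ) (c : ℝ) (hc : 0 < c)
    (hg : ∀ (Q : Type u) [Group Q] [Finite Q], TameY η t Q → c * (oo Q : ℝ) ^ Λ ≤ (om Q : ℝ))
    {X : Type u} [Group X] [Finite X] (h : ℕ) (hX : SerY η t h X) :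
    c ^ h * (oo X : ℝ) ^ Λ ≤ (om X : ℝ) ^ h := by
  obtain ⟨U, hU, h0, h1, hle, hgood⟩ := hX
  have e1 : oo X ≤ ∏ i ∈ Finset.range h, oo (U (i + 1) ⧸ (U i).subgroupOf (U (i + 1))) := by
    refine le_trans ?_ (us_oo_series U hU h0 hle h)
    rw [h1, oo_congr (Subgroup.topEquiv (G := X))]
  have e2 : (oo X : ℝ) ^ Λ ≤
      ∏ i ∈ Finset.range h, (oo (U (i + 1) ⧸ (U i).subgroupOf (U (i + 1))) : ℝ) ^ Λ := by
    rw [Finset.prod_pow]
    apply pow_le_pow_left₀ (Nat.cast_nonneg _)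
    exact_mod_cast e1
  calc c ^ h * (oo X : ℝ) ^ Λ
      ≤ c ^ h * ∏ i ∈ Finset.range h, (oo (U (i + 1) ⧸ (U i).subgroupOf (U (i + 1))) : ℝ) ^ Λ :=
        mul_le_mul_of_nonneg_left e2 (by positivity)
    _ = ∏ i ∈ Finset.range h, (c * (oo (U (i + 1) ⧸ (U i).subgroupOf (U (i + 1))) : ℝ) ^ Λ) := by
        rw [Finset.prod_mul_distrib, Finset.prod_const, Finset.card_range]
    _ ≤ ∏ _i ∈ Finset.range h, (om X : ℝ) := by
        apply Finset.prod_le_prod
        · intro i _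
          positivity
        · intro i hi
          refine (hg _ (hgood i (Finset.mem_range.1 hi))).trans ?_
          exact_mod_cast us_sect_le (U i) (U (i + 1))
    _ = (om X : ℝ) ^ h := by rw [Finset.prod_const, Finset.card_range]

/-- Few automorphism classes bound the order, for direct powers of simple groups that are
alternating, rich, or of order at most `t`. -/
theorem ybound_of_om (η : ℕ → ℕ) (Ω t : ℕ) : ∃ B : ℕ, ∀ (H : Type u) [Group H] [Finite H],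
    (∀ M : Subgroup H, IsMinNormal M → ∃ x ∈ M, ∃ y ∈ M, x * y ≠ y * x) →
    MinPowY η t H → om H ≤ Ω → Nat.card H ≤ B := by
  obtain ⟨B, hB⟩ := zbound_of_om'.{u} Ω (t + 2 ^ Ω)
  refine ⟨B, ?_⟩
  intro H _ _ hna hmin hom
  apply hB H hna _ hom
  intro M hM
  rcases hmin M hM with ⟨S, s, hS, hSt | hSr, ⟨e⟩⟩ | h
  · exact Or.inl ⟨S, s, hS, hSt.trans (Nat.le_add_right _ _), ⟨e⟩⟩
  · left
    refine ⟨S, s, hS, ?_, ⟨e⟩⟩
    have hs : 1 ≤ s := by
      rcases Nat.eq_zero_or_pos s with h0 | h0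
      · exfalso
        subst h0
        apply hM.2.1
        rw [Subgroup.eq_bot_iff_forall]
        intro x hx
        have : (⟨x, hx⟩ : M) = 1 := e.injective (Subsingleton.elim _ _)
        exact congrArg Subtype.val this
      · exact h0
    have h1 : om S ≤ om H := by
      calc om S = Nat.multichoose (om S) 1 := (Nat.multichoose_one_right _).symm
        _ ≤ Nat.multichoose (om S) s := exc_W_mono_right (om_pos S) hs
        _ ≤ om (Fin s → S) := om_powS_ge (rich_center hSr) s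
        _ = om M := (om_congr e).symm
        _ ≤ om H := om_min_le M hM
    calc Nat.card S ≤ 2 ^ om S := rich_card hSr
      _ ≤ 2 ^ Ω := Nat.pow_le_pow_right (by norm_num) (h1.trans hom)
      _ ≤ t + 2 ^ Ω := Nat.le_add_left _ _
  · exact Or.inr h

theorem main_boundY (h t : ℕ) (η : ℕ → ℕ) (hη : Tendsto η atTop atTop) : ∃ B : ℕ → ℕ → ℕ,
    ∀ (G : Type u) [Group G] [Finite G] [Nontrivial G],
    MinPowY η t (G ⧸ Rad G) → SerY η t h (G ⧸ Rad G) →
    ∀ L m : ℕ, ll G ≤ L → oo (Rad G) ≤ m → Nat.card (G ⧸ Rad G) ≤ B L m := by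
  classical
  choose c hc0 hc using fun L => tameY_lower.{u} t L η hη
  choose B hB using fun Ω => ybound_of_om.{u} η Ω t
  refine ⟨fun L m => B ((m * ⌈(m : ℝ) ^ (L * h) / c (L * h + 1) ^ h⌉₊) ^ L), ?_⟩
  intro G _ _ _ hmin hser L m hL hm
  have hna : ∀ M : Subgroup (G ⧸ Rad G), IsMinNormal M → ∃ x ∈ M, ∃ y ∈ M, x * y ≠ y * x :=
    fun M hM => minNormal_nonab M hM
  apply hB _ (G ⧸ Rad G) hna hmin
  set H := G ⧸ Rad G with hH
  have h1 : om H ≤ (m * oo H) ^ L := by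
    calc om H ≤ om G := om_quot_le _
      _ ≤ oo G ^ L := om_le_pow L hL
      _ ≤ (oo (G ⧸ Rad G) * oo (Rad G)) ^ L := Nat.pow_le_pow_left (oo_le_mul _) L
      _ ≤ (m * oo H) ^ L := by
        apply Nat.pow_le_pow_left
        rw [mul_comm m]
        exact Nat.mul_le_mul_left _ hm
  have h2 := yt_main η t (L * h + 1) (c (L * h + 1)) (hc0 _) (hc _) h hser
  have hooH : (0 : ℝ) < (oo H : ℝ) := by exact_mod_cast oo_pos H
  have hcp : (0 : ℝ) < c (L * h + 1) ^ h := pow_pos (hc0 _) h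
  have h3 : (om H : ℝ) ^ h ≤ ((m : ℝ) * oo H) ^ (L * h) := by
    rw [pow_mul]
    apply pow_le_pow_left₀ (Nat.cast_nonneg _)
    exact_mod_cast h1
  have h4 : c (L * h + 1) ^ h * (oo H : ℝ) ≤ (m : ℝ) ^ (L * h) := by
    have h5 : c (L * h + 1) ^ h * (oo H : ℝ) ^ (L * h + 1) ≤
        (m : ℝ) ^ (L * h) * (oo H : ℝ) ^ (L * h) := by
      rw [← mul_pow]
      exact h2.trans h3
    rw [pow_succ, ← mul_assoc, mul_right_comm] at h5
    exact le_of_mul_le_mul_right h5 (pow_pos hooH _)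
  have h5 : oo H ≤ ⌈(m : ℝ) ^ (L * h) / c (L * h + 1) ^ h⌉₊ := by
    have h6 : (oo H : ℝ) ≤ (m : ℝ) ^ (L * h) / c (L * h + 1) ^ h := by
      rw [le_div_iff₀ hcp, mul_comm]
      exact h4
    exact_mod_cast h6.trans (Nat.le_ceil _)
  exact h1.trans (Nat.pow_le_pow_left (Nat.mul_le_mul_left m h5) L)

theorem finalY (h t : ℕ) (η : ℕ → ℕ) (hη : Tendsto η atTop atTop) : ∃ f : ℝ → ℝ → ℝ,
    (∀ x y, 1 ≤ x → 1 ≤ y → 1 ≤ f x y) ∧ (∀ y, StrictMono (fun x => f x y)) ∧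
    (∀ x, StrictMono (fun y => f x y)) ∧
    ∀ (G : Type u) [Group G] [Finite G] [Nontrivial G],
      MinPowY η t (G ⧸ Rad G) → SerY η t h (G ⧸ Rad G) →
      ((Rad G).index : ℝ) ≤ f (ll G) (oo (Rad G)) := by
  obtain ⟨B, hB⟩ := main_boundY.{u} h t η hη
  obtain ⟨f, h1, h2, h3, h4⟩ := exists_mono B
  refine ⟨f, h1, h2, h3, ?_⟩
  intro G _ _ _ hmin hser
  have h5 := hB G hmin hser ⌈ll G⌉₊ ⌈((oo (Rad G) : ℕ) : ℝ)⌉₊ (Nat.le_ceil _) (by
    rw [Nat.ceil_natCast])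
  have h6 := h4 (ll G) (oo (Rad G)) (ll_nonneg G) (Nat.cast_nonneg _)
  have h7 : ((Rad G).index : ℝ) ≤ (B ⌈ll G⌉₊ ⌈((oo (Rad G) : ℕ) : ℝ)⌉₊ : ℝ) := by
    exact_mod_cast h5
  exact h7.trans h6

end SR32
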