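import Pool.Agent.SR32.YGoodS3
import Pool.Agent.SR32.YMin
import Pool.Agent.SR32.YLower

/-!
# Tame groups have many automorphism classes compared to element orders, arbitrary simple factors
-/

set_option autoImplicit false

namespace SR32

universe u

open Filter

theorem tameY_lower (t L : ℕ) (η : ℕ → ℕ) (hη : Tendsto η atTop atTop) : ∃ c : ℝ, 0 < c ∧
    ∀ (Q : Type u) [Group Q] [Finite Q], TameY η t Q → c * (oo Q : ℝ) ^ L ≤ (om Q : ℝ) :=
  tameY_lower_of_s3 (fun h => rich_card h) lowerY t L η hη

end SR32
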