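import Pool.Agent.SR32.YActS3
import Pool.Agent.SR32.WGood
import Pool.Agent.SR32.ZLower
import Pool.Agent.SR32.DefsY

/-!
# SR32/YGoodS3: tame groups (version Y) have many automorphism classes compared to element orders
-/

set_option autoImplicit false

namespace SR32

universe u

open Filter

theorem ygood_rich_congr {η : ℕ → ℕ} {S S' : Type u} [Group S] [Group S'] (e : S ≃* S')
    (h : Rich η S) : Rich η S' := by
  obtain ⟨h1, ⟨x, y, hxy⟩, h3, h4⟩ := h
  refine ⟨?_, ⟨e x, e y, ?_⟩, ?_, ?_⟩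
  · have : Nontrivial S' := e.symm.toEquiv.nontrivial
    exact IsSimpleGroup.isSimpleGroup_of_surjective e.toMonoidHom e.surjective
  · intro h
    apply hxy
    apply e.injective
    rw [map_mul, map_mul, h]
  · rw [← oo_congr (MulAut.congr e), ← om_congr e]
    exact h3
  · rw [← Nat.card_congr (MulAut.congr e).toEquiv, ← om_congr e]
    exact h4

theorem ygood_goodC_map {η : ℕ → ℕ} {W t : ℕ} {H : Type u} [Group H] (φ : H ≃* H)
    {K : Subgroup H} (h : GoodC η W t K) : GoodC η W t (K.map φ.toMonoidHom) := by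
  obtain ⟨S, s, h1, h2, h3, ⟨e⟩⟩ := h
  let ψ : K ≃* (K.map φ.toMonoidHom) := φ.subgroupMap K
  let θ : S ≃* (S.map ψ.toMonoidHom) := ψ.subgroupMap S
  refine ⟨S.map ψ.toMonoidHom, s, ygood_rich_congr θ h1, ?_, ?_, ⟨?_⟩⟩
  · rw [← om_congr θ]
    exact h2
  · rw [← om_congr θ]
    exact h3
  · exact (ψ.symm.trans e).trans (MulEquiv.piCongrRight (fun _ => θ))

theorem ygood_enum (η : ℕ → ℕ) (W t : ℕ) {H : Type u} [Group H] [Finite H] :
    ∃ (b : ℕ) (M : Fin b → Subgroup H) (S : ∀ j, Subgroup (M j)) (s : Fin b → ℕ),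
      Function.Injective M ∧ (∀ j, IsMinNormal (M j)) ∧
      (∀ (φ : H ≃* H) (j : Fin b), ∃ k, (M j).map φ.toMonoidHom = M k) ∧
      (∀ j, Rich η (S j)) ∧ (∀ j, W ≤ om (S j)) ∧ (∀ j, s j ≤ t * om (S j) ^ 2) ∧
      (∀ j, Nonempty (M j ≃* (Fin (s j) → S j))) ∧
      ∀ K : Subgroup H, IsMinNormal K → GoodC η W t K → ∃ j, M j = K := by
  classical
  obtain ⟨b, ⟨ν⟩⟩ := Finite.exists_equiv_fin {K : Subgroup H // IsMinNormal K ∧ GoodC η W t K}
  let M : Fin b → Subgroup H := fun j => (ν.symm j).1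
  have hM : ∀ j, IsMinNormal (M j) := fun j => (ν.symm j).2.1
  have hall : ∀ K : Subgroup H, IsMinNormal K → GoodC η W t K → ∃ j, M j = K := by
    intro K hK hK'
    refine ⟨ν ⟨K, hK, hK'⟩, ?_⟩
    show (ν.symm (ν ⟨K, hK, hK'⟩)).1 = K
    rw [Equiv.symm_apply_apply]
  have hMinj : Function.Injective M := fun i j hij => ν.symm.injective (Subtype.ext hij)
  have hG : ∀ j, GoodC η W t (M j) := fun j => (ν.symm j).2.2
  choose S s h1 h2 h3 h4 using hG
  refine ⟨b, M, S, s, hMinj, hM, ?_, h1, h2, h3, h4, hall⟩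
  intro φ j
  obtain ⟨k, hk⟩ := hall ((M j).map φ.toMonoidHom) (st_map_min φ (hM j))
    (ygood_goodC_map φ ⟨S j, s j, h1 j, h2 j, h3 j, h4 j⟩)
  exact ⟨k, hk.symm⟩

theorem ygood_center {η : ℕ → ℕ} {S : Type u} [Group S] (h : Rich η S) :
    Subgroup.center S = ⊥ := by
  obtain ⟨h1, ⟨x, y, hxy⟩, -, -⟩ := h
  have hn : (Subgroup.center S).Normal := inferInstance
  rcases hn.eq_bot_or_eq_top with h | h
  · exact h
  · exfalso
    apply hxy
    have hx : x ∈ Subgroup.center S := by rw [h]; exact Subgroup.mem_top _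
    exact ((Subgroup.mem_center_iff.1 hx) y).symm

theorem tameY_lower_of_s3
    (hrich : ∀ {η : ℕ → ℕ} {S : Type u} [Group S] [Finite S], Rich η S →
      Nat.card S ≤ 2 ^ om S)
    (hlowY : ∀ (L t : ℕ) (η : ℕ → ℕ), Tendsto η atTop atTop → ∃ W0 : ℕ,
      ∀ (H : Type u) [Group H] [Finite H] (a : ℕ) (M : Fin a → Subgroup H) (S : Fin a → Type u)
        [∀ j, Group (S j)] [∀ j, Finite (S j)] (s : Fin a → ℕ),
        Function.Injective M → (∀ j, IsMinNormal (M j)) →
        (∀ (φ : H ≃* H) (j : Fin a), ∃ k, (M j).map φ.toMonoidHom = M k) →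
        (∀ j, Rich η (S j)) → (∀ j, W0 ≤ om (S j)) → (∀ j, s j ≤ t * om (S j) ^ 2) →
        (∀ j, Nonempty (M j ≃* (Fin (s j) → S j))) →
        (oo (∀ j, Equiv.Perm (Fin (s j))) * oo (∀ j, (Fin (s j) → MulAut (S j)))) ^ L ≤ om H)
    (t L : ℕ) (η : ℕ → ℕ) (hη : Tendsto η atTop atTop) : ∃ c : ℝ, 0 < c ∧
    ∀ (Q : Type u) [Group Q] [Finite Q], TameY η t Q → c * (oo Q : ℝ) ^ L ≤ (om Q : ℝ) := by
  classical
  obtain ⟨W0, hW0⟩ := hlowY (2 * L) t η hη
  obtain ⟨c0, hc0, hlow⟩ := lowerZ.{u} (2 * L) t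
  obtain ⟨T, hT⟩ : ∃ T : ℕ, T = t + (2 ^ W0) ^ (t * W0 ^ 2) := ⟨_, rfl⟩
  obtain ⟨E, hE⟩ : ∃ E : ℕ, E = 2 * Nat.card (MulAut (A 6)) * Nat.factorial (T ^ T) := ⟨_, rfl⟩
  have hE1 : 1 ≤ E := by
    have h1 : 0 < Nat.card (MulAut (A 6)) := Nat.card_pos
    have h2 : 0 < Nat.factorial (T ^ T) := Nat.factorial_pos _
    rw [hE]
    exact Nat.mul_pos (by omega) h2
  have hEr : (0 : ℝ) < (E : ℝ) := by exact_mod_cast hE1
  have hsq0 : 0 < Real.sqrt c0 := Real.sqrt_pos.2 hc0
  refine ⟨min (1 / ((t : ℝ) + 1) ^ L) (Real.sqrt c0 / (E : ℝ) ^ L), by positivity, ?_⟩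
  intro Q _ _ hQ
  have hoo0 : (0 : ℝ) ≤ (oo Q : ℝ) := Nat.cast_nonneg _
  rcases hQ with hQ | hQ
  · have h1 : (oo Q : ℝ) ^ L ≤ ((t : ℝ) + 1) ^ L := by
      apply pow_le_pow_left₀ hoo0
      have : (oo Q : ℝ) ≤ (t : ℝ) := by exact_mod_cast hQ
      linarith
    calc min (1 / ((t : ℝ) + 1) ^ L) (Real.sqrt c0 / (E : ℝ) ^ L) * (oo Q : ℝ) ^ L
        ≤ (1 / ((t : ℝ) + 1) ^ L) * (oo Q : ℝ) ^ L :=
          mul_le_mul_of_nonneg_right (min_le_left _ _) (by positivity)
      _ ≤ (1 / ((t : ℝ) + 1) ^ L) * ((t : ℝ) + 1) ^ L :=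
          mul_le_mul_of_nonneg_left h1 (by positivity)
      _ = 1 := by
          rw [one_div, inv_mul_cancel₀]
          positivity
      _ ≤ (om Q : ℝ) := by exact_mod_cast om_pos Q
  · -- the alternating kind
    obtain ⟨a, M, d, s, hinj, hM, haut, h5, hR, hiso, hall⟩ :=
      enum_minW (H := Q) (fun K d s => s ≤ t * om (A d) ^ 2 ∨ (FacNorm K).index ≤ s ^ t ∨
        2 ^ s * autFac K ≤ om (A d) ^ s) (by
        intro φ K d s h
        rcases h with h | h | h
        · exact Or.inl h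
        · exact Or.inr (Or.inl ((facNorm_map_index φ K).trans h))
        · exact Or.inr (Or.inr ((Nat.mul_le_mul_left _ (autFac_map φ K)).trans h)))
    obtain ⟨hchar, e, hn, hfac⟩ := structure_enumW a M hinj hM haut d s h5 hiso
    have hnorm : (⨆ j, M j : Subgroup Q).Normal := inferInstance
    obtain ⟨τ, hτ, hτ1⟩ := outerW (⨆ j, M j : Subgroup Q) a d s e h5 hn
    -- the rich kind
    obtain ⟨b, M', S, s', hinj', hM', haut', hrichS, hWS, hsS, hiso', hall'⟩ :=
      ygood_enum (H := Q) η W0 t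
    have hnorm' : ∀ j, (M' j).Normal := fun j => (hM' j).1
    have hfinA : ∀ j, Finite (MulAut (M' j)) := fun j =>
      Finite.of_injective (fun φ : MulAut (M' j) => (φ : _ → _)) DFunLike.coe_injective
    let ρ : Q →* (∀ j, MulAut (M' j)) :=
      MonoidHom.mk' (fun h j => (MulAut.conjNormal h : MulAut (M' j))) (by
        intro g h
        funext j
        exact map_mul _ _ _)
    -- the kinds
    have hkind : ∀ K : Subgroup Q, IsMinNormal K →
        (∃ x ∈ K, ∃ y ∈ K, x * y ≠ y * x) ∧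
        (Nat.card K ≤ T ∨ (∃ j, M j = K) ∨ (∃ j, M' j = K)) := by
      intro K hK
      rcases hQ K hK with (⟨h1, h2⟩ | h1) | ⟨R, r, h1, -, h3, ⟨e'⟩⟩
      · exact ⟨h1, Or.inl (h2.trans (by rw [hT]; exact Nat.le_add_right _ _))⟩
      · have h2 := h1
        obtain ⟨d', s'', hd', -, ⟨e'⟩⟩ := h2
        exact ⟨wnonab_of_pow hK hd' e', Or.inr (Or.inl (hall K hK h1))⟩
      · have hnab : ∃ x ∈ K, ∃ y ∈ K, x * y ≠ y * x := by
          obtain ⟨x, y, hxy⟩ := h1.2.1
          refine ⟨((x : K) : Q), (x : K).2, ((y : K) : Q), (y : K).2, fun h => hxy ?_⟩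
          apply Subtype.ext
          apply Subtype.ext
          exact h
        refine ⟨hnab, ?_⟩
        rcases Nat.lt_or_ge (om R) W0 with hlt | hge
        · left
          have hc1 : Nat.card R ≤ 2 ^ W0 :=
            (hrich h1).trans (Nat.pow_le_pow_right (by norm_num) hlt.le)
          have hc2 : r ≤ t * W0 ^ 2 :=
            h3.trans (Nat.mul_le_mul_left _ (Nat.pow_le_pow_left hlt.le 2))
          have hc3 : Nat.card K = Nat.card R ^ r := by
            rw [Nat.card_congr e'.toEquiv, Nat.card_fun, Nat.card_eq_fintype_card (α := Fin r),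
              Fintype.card_fin]
          rw [hc3, hT]
          exact ((Nat.pow_le_pow_left hc1 r).trans
            (Nat.pow_le_pow_right (by positivity) hc2)).trans (Nat.le_add_left _ _)
        · exact Or.inr (Or.inr (hall' K hK ⟨R, r, h1, hge, h3, ⟨e'⟩⟩))
    have hna : ∀ K : Subgroup Q, IsMinNormal K → ∃ x ∈ K, ∃ y ∈ K, x * y ≠ y * x :=
      fun K hK => (hkind K hK).1
    have hpow : ∀ h : Q, (τ.rangeRestrict.prod ρ) h = 1 →
        h ^ E ∈ (⨆ j, M j : Subgroup Q) := by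
      intro h hh'
      have hh1 : τ.rangeRestrict h = 1 := congrArg Prod.fst hh'
      have hh : τ h = 1 := congrArg Subtype.val hh1
      have hh2 : ρ h = 1 := congrArg Prod.snd hh'
      have hcen : ∀ j, ∀ z ∈ M' j, h * z = z * h := by
        intro j z hz
        have h1 : (MulAut.conjNormal h : MulAut (M' j)) = 1 := congrFun hh2 j
        have h2 : ((MulAut.conjNormal h : MulAut (M' j)) ⟨z, hz⟩ : Q) = z := by
          rw [h1]
          rfl
        rw [MulAut.conjNormal_apply] at h2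
        exact mul_inv_eq_iff_eq_mul.1 h2
      obtain ⟨x, hx, hxy⟩ := hτ h hh
      obtain ⟨c, hc⟩ : ∃ c : ℕ, c = 2 * Nat.card (MulAut (A 6)) := ⟨_, rfl⟩
      rw [← hc] at hxy hE
      obtain ⟨y, hy⟩ : ∃ y : Q, y = h ^ c * x⁻¹ := ⟨_, rfl⟩
      rw [← hy] at hxy
      have hcomm : Commute y x := hxy x hx
      have h1 : h ^ c = y * x := by rw [hy]; group
      have h2 : y ^ Nat.factorial (T ^ T) = 1 := by
        apply eq_one_of_centralize hna
        intro K hK z hz
        rcases (hkind K hK).2 with h3 | ⟨j, hj⟩ | ⟨j, hj⟩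
        · have := hK.1
          exact pow_centralize K T h3 y z hz
        · apply wpow_comm_of
          apply hxy
          rw [← hj] at hz
          exact (le_iSup M j) hz
        · apply wpow_comm_of
          have hKn := hK.1
          have hn1 : (K ⊓ ⨆ j, M j : Subgroup Q).Normal := inferInstance
          rcases hK.2.2 _ hn1 inf_le_left with h4 | h4
          · have hcz : Commute z x := Subgroup.commute_of_normal_of_disjoint _ _ hKn hnorm
              (disjoint_iff.2 h4) z x hz hx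
            have hhz : Commute h z := hcen j z (by rw [hj]; exact hz)
            rw [hy]
            exact ((hhz.pow_left c).mul_left hcz.symm.inv_left).eq
          · apply hxy
            rw [← h4] at hz
            exact hz.2
      rw [hE, pow_mul, h1, hcomm.mul_pow, h2, one_mul]
      exact Subgroup.pow_mem _ hx _
    have h1 := oo_le_outerT (⨆ j, M j : Subgroup Q) (τ.rangeRestrict.prod ρ) E hE1 hpow
    rw [← oo_congr e] at h1
    have hI : ∀ j, s j ≤ t * om (A (d j)) ^ 2 ∨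
        Nat.card (τ.range.map (Pi.evalMonoidHom (fun j => Equiv.Perm (Fin (s j))) j)) ≤
          s j ^ t ∨ 2 ^ s j * autFac (M j) ≤ om (A (d j)) ^ s j := by
      intro j
      rcases hR j with h2 | h2 | h2
      · exact Or.inl h2
      · refine Or.inr (Or.inl (le_trans ?_ h2))
        set g : Q →* Equiv.Perm (Fin (s j)) :=
          (Pi.evalMonoidHom (fun j => Equiv.Perm (Fin (s j))) j).comp τ with hg
        have h3 : τ.range.map (Pi.evalMonoidHom (fun j => Equiv.Perm (Fin (s j))) j) =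
            g.range := by
          rw [hg, MonoidHom.range_comp]
        rw [h3, ← Subgroup.index_ker]
        have h4 : FacNorm (M j) ≤ g.ker := by
          intro h hh
          rw [MonoidHom.mem_ker]
          exact hτ1 h j (hfac j h hh)
        exact Nat.le_of_dvd (Nat.pos_of_ne_zero Subgroup.index_ne_zero_of_finite)
          (Subgroup.index_dvd_of_le h4)
      · exact Or.inr (Or.inr h2)
    have h2 := hlow Q a M d s hinj hM haut h5 hiso τ.range hI
    have h3 := hW0 Q b M' (fun j => S j) s' hinj' hM' haut' hrichS hWS hsS hiso'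
    have h4 : oo (∀ j, MulAut (M' j)) ≤
        oo (∀ j, Equiv.Perm (Fin (s' j))) * oo (∀ j, (Fin (s' j) → MulAut (S j))) :=
      yact_sub M' (fun j => (hrichS j).1) (fun j => ygood_center (hrichS j)) s'
        (fun j => (hiso' j).some)
    obtain ⟨B, hB⟩ : ∃ B : ℕ, B = oo (∀ j, Equiv.Perm (Fin (s' j))) *
      oo (∀ j, (Fin (s' j) → MulAut (S j))) := ⟨_, rfl⟩
    rw [← hB] at h3 h4
    obtain ⟨X, hX⟩ : ∃ X : ℝ, X = (oo (∀ j, Fin (s j) → A (d j)) : ℝ) *
        (oo τ.range : ℝ) := ⟨_, rfl⟩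
    have hX0 : 0 ≤ X := by rw [hX]; positivity
    rw [← hX] at h2
    have h5' : (oo Q : ℝ) ≤ (E : ℝ) * (X * (B : ℝ)) := by
      have h6 : oo Q ≤ (oo τ.range * B) * (E * oo (∀ j, Fin (s j) → A (d j))) :=
        h1.trans (Nat.mul_le_mul_right _ (yact_prod.trans (Nat.mul_le_mul_left _ h4)))
      have h7 : (oo Q : ℝ) ≤ (((oo τ.range * B) * (E * oo (∀ j, Fin (s j) → A (d j))) : ℕ) : ℝ) := by
        exact_mod_cast h6
      push_cast at h7
      rw [hX]
      linarith
    have h3' : (B : ℝ) ^ (2 * L) ≤ (om Q : ℝ) := by exact_mod_cast h3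
    have h8 : (Real.sqrt c0 / (E : ℝ) ^ L) * (oo Q : ℝ) ^ L ≤ (om Q : ℝ) := by
      have h9 : ((Real.sqrt c0 / (E : ℝ) ^ L) * (oo Q : ℝ) ^ L) ^ 2 ≤ ((om Q : ℝ)) ^ 2 := by
        calc ((Real.sqrt c0 / (E : ℝ) ^ L) * (oo Q : ℝ) ^ L) ^ 2
            = c0 / (E : ℝ) ^ (2 * L) * (oo Q : ℝ) ^ (2 * L) := by
              rw [mul_pow, div_pow, Real.sq_sqrt hc0.le, ← pow_mul, ← pow_mul, mul_comm L 2]
          _ ≤ c0 / (E : ℝ) ^ (2 * L) * ((E : ℝ) * (X * (B : ℝ))) ^ (2 * L) :=
              mul_le_mul_of_nonneg_left (pow_le_pow_left₀ hoo0 h5' _) (by positivity)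
          _ = (c0 * X ^ (2 * L)) * (B : ℝ) ^ (2 * L) := by
              rw [mul_pow, mul_pow]
              field_simp
          _ ≤ (om Q : ℝ) * (om Q : ℝ) :=
              mul_le_mul h2 h3' (by positivity) (Nat.cast_nonneg _)
          _ = (om Q : ℝ) ^ 2 := by ring
      exact (pow_le_pow_iff_left₀ (by positivity) (Nat.cast_nonneg _) (by norm_num)).1 h9
    exact (mul_le_mul_of_nonneg_right (min_le_right _ _) (by positivity)).trans h8

end SR32
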