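import Pool.Agent.SR32.WExcS3
import Pool.Agent.SR32.DefsZ

/-!
# SR32/ZExc: Claim Y for triples `(d, s, a)`
-/

namespace SR32

theorem ry_pos (L : ℕ) (p : ℕ × ℕ × ℕ) : 0 < ry L p := by
  unfold ry
  have hO : 0 < oo (Fin (p.2.1 * p.2.2) → A p.1) := oo_pos _
  have h1 : 0 < max (VV p.1 p.2.1 p.2.2) (2 ^ p.2.1) := lt_max_of_lt_right (by positivity)
  have hO' : (0 : ℝ) < (oo (Fin (p.2.1 * p.2.2) → A p.1) : ℝ) := by exact_mod_cast hO
  have h1' : (0 : ℝ) < ((max (VV p.1 p.2.1 p.2.2) (2 ^ p.2.1) : ℕ) : ℝ) := by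
    exact_mod_cast h1
  have h2' : (0 : ℝ) < ((2 ^ (PP p.2.1).card : ℕ) : ℝ) := by
    push_cast
    positivity
  exact div_pos h1' (pow_pos (mul_pos hO' h2') L)

theorem zexc_fin (L : ℕ) (M : ℝ) : {p : ℕ × ℕ × ℕ | 5 ≤ p.1 ∧ 1 ≤ p.2.1 ∧ 1 ≤ p.2.2 ∧
    rr L (p.1, p.2.1 * p.2.2) < M}.Finite := by
  refine Set.Finite.subset (Set.Finite.biUnion (finite_exc L M) (fun q _ =>
    Set.Finite.biUnion (Set.finite_le_nat q.2) (fun s _ =>
      (Set.finite_le_nat q.2).image (fun a => (q.1, s, a))))) ?_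
  rintro ⟨d, s, a⟩ ⟨h1, h2, h3, h4⟩
  simp only at h1 h2 h3 h4
  simp only [Set.mem_iUnion, Set.mem_image]
  refine ⟨(d, s * a), ⟨h1, Nat.mul_pos h2 h3, h4⟩, s, ?_, a, ?_, rfl⟩
  · exact Nat.le_mul_of_pos_right _ h3
  · exact Nat.le_mul_of_pos_left _ h2

theorem zexc_num (L : ℕ) (M : ℝ) (hM : 1 ≤ M) : ∃ s0 : ℕ, ∀ s : ℕ, s0 ≤ s →
    M * ((2 ^ (PP s).card : ℕ) : ℝ) ^ (2 * L) ≤ (2 : ℝ) ^ s := by
  have hL0 : (0 : ℝ) ≤ L := Nat.cast_nonneg _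
  obtain ⟨ε, hε⟩ : ∃ ε : ℝ, ε = 1 / (4 * ((L : ℝ) + 1)) := ⟨_, rfl⟩
  have hε0 : 0 < ε := by rw [hε]; positivity
  have hLε : (L : ℝ) * ε ≤ 1 / 4 := by
    rw [hε, mul_one_div, div_le_div_iff₀ (by positivity) (by norm_num)]
    linarith
  obtain ⟨C, hC⟩ := pp_density ε hε0
  have hM0 : 0 < M := by linarith
  have hlog2 : 0 < Real.log 2 := Real.log_pos (by norm_num)
  obtain ⟨s0, hs0⟩ := exists_nat_ge (2 * (Real.log M / Real.log 2 + 2 * L * C))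
  refine ⟨s0, fun s hs => ?_⟩
  have hsr : (s0 : ℝ) ≤ s := by exact_mod_cast hs
  have hs1 : (0 : ℝ) ≤ s := Nat.cast_nonneg _
  have htwo : ∀ n : ℕ, ((2 : ℝ) ^ n) = Real.exp (Real.log 2 * n) := fun n => by
    rw [Real.exp_mul, Real.exp_log (by norm_num), Real.rpow_natCast]
  have h1 : M * ((2 ^ (PP s).card : ℕ) : ℝ) ^ (2 * L) =
      Real.exp (Real.log M + Real.log 2 * (2 * L * (PP s).card)) := by
    rw [Real.exp_add, Real.exp_log hM0]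
    push_cast
    rw [htwo, ← Real.exp_nat_mul]
    congr 2
    push_cast
    ring
  rw [h1, htwo]
  apply Real.exp_le_exp.2
  have h2 := hC s
  have h3 : 2 * (L : ℝ) * (PP s).card ≤ 2 * L * C + s / 2 := by
    have h4 := mul_le_mul_of_nonneg_left h2 (show (0 : ℝ) ≤ 2 * L by linarith)
    have h5 : (L : ℝ) * ε * s ≤ 1 / 4 * s := mul_le_mul_of_nonneg_right hLε hs1
    have h6 : 2 * (L : ℝ) * (C + ε * s) = 2 * L * C + 2 * (L * ε * s) := by ring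
    linarith
  have h4 : Real.log M + Real.log 2 * (2 * L * (PP s).card) =
      Real.log 2 * (Real.log M / Real.log 2 + 2 * L * (PP s).card) := by
    field_simp
  rw [h4]
  apply mul_le_mul_of_nonneg_left _ hlog2.le
  linarith

theorem finite_excY (L : ℕ) (C : ℝ) :
    {p : ℕ × ℕ × ℕ | 5 ≤ p.1 ∧ 1 ≤ p.2.1 ∧ 1 ≤ p.2.2 ∧ ry L p < C}.Finite := by
  obtain ⟨M, hMd⟩ : ∃ M, M = max C 1 := ⟨_, rfl⟩
  have hM1 : 1 ≤ M := by rw [hMd]; exact le_max_right _ _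
  have hM0 : 0 < M := by linarith
  obtain ⟨s0, hs0⟩ := zexc_num L M hM1
  refine Set.Finite.subset ((zexc_fin (2 * L) M).union
    (zexc_fin L (M * ((2 : ℝ) ^ s0) ^ L))) ?_
  rintro ⟨d, s, a⟩ ⟨h1, h2, h3, h4⟩
  simp only at h1 h2 h3 h4
  by_contra hcon
  simp only [Set.mem_union, Set.mem_ofPred_eq, not_or, not_and, not_lt] at hcon
  have h5 := hcon.1 h1 h2 h3
  have h6 := hcon.2 h1 h2 h3
  have hO : (0 : ℝ) < (oo (Fin (s * a) → A d) : ℝ) := by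
    exact_mod_cast (oo_pos (Fin (s * a) → A d))
  have hP : (0 : ℝ) < ((2 ^ (PP s).card : ℕ) : ℝ) := by
    push_cast
    positivity
  unfold rr at h5 h6
  simp only at h5 h6
  rw [le_div_iff₀ (by positivity)] at h5 h6
  have h7 : (Nat.multichoose (om (A d)) (s * a) : ℝ) ≤ (VV d s a : ℝ) := by
    unfold VV
    exact_mod_cast wexc_mc_mc (om (A d)) s a
  have h9 : ry L (d, s, a) < M := lt_of_lt_of_le h4 (by rw [hMd]; exact le_max_left _ _)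
  unfold ry at h9
  simp only at h9
  rw [div_lt_iff₀ (by positivity)] at h9
  obtain ⟨O, hOd⟩ : ∃ O : ℝ, O = (oo (Fin (s * a) → A d) : ℝ) := ⟨_, rfl⟩
  obtain ⟨D, hDd⟩ : ∃ D : ℝ, D = ((2 ^ (PP s).card : ℕ) : ℝ) := ⟨_, rfl⟩
  obtain ⟨X, hXd⟩ : ∃ X : ℝ, X = ((max (VV d s a) (2 ^ s) : ℕ) : ℝ) := ⟨_, rfl⟩
  have hX1 : (VV d s a : ℝ) ≤ X := by
    rw [hXd]
    exact_mod_cast le_max_left _ _
  have hX2 : (2 : ℝ) ^ s ≤ X := by
    rw [hXd]
    exact_mod_cast le_max_right (VV d s a) (2 ^ s)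
  have hX0 : 0 < X := lt_of_lt_of_le (by positivity) hX2
  rcases Nat.lt_or_ge s s0 with hss | hss
  · have h10 : D ≤ (2 : ℝ) ^ s0 := by
      rw [hDd]
      push_cast
      exact pow_le_pow_right₀ (by norm_num) ((wexc_PP_card s).trans hss.le)
    rw [← hOd] at h6 h9 hO
    rw [← hDd] at h9 hP
    rw [← hXd] at h9
    have h11 : M * (O * D) ^ L ≤ M * ((2 : ℝ) ^ s0) ^ L * O ^ L := by
      rw [mul_pow, mul_assoc, mul_comm (((2 : ℝ) ^ s0) ^ L)]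
      apply mul_le_mul_of_nonneg_left _ hM0.le
      exact mul_le_mul_of_nonneg_left (pow_le_pow_left₀ hP.le h10 L) (by positivity)
    linarith
  · have h10 := hs0 s hss
    rw [← hOd] at h5 h9 hO
    rw [← hDd] at h9 hP h10
    rw [← hXd] at h9
    have h12 : X * X < (M * (O * D) ^ L) * (M * (O * D) ^ L) :=
      mul_self_lt_mul_self hX0.le h9
    have h13 : (M * O ^ (2 * L)) * (M * D ^ (2 * L)) ≤ X * X :=
      mul_le_mul (h5.trans (h7.trans hX1)) (h10.trans hX2) (by positivity) hX0.le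
    have h14 : (M * (O * D) ^ L) * (M * (O * D) ^ L) =
        (M * O ^ (2 * L)) * (M * D ^ (2 * L)) := by
      rw [mul_pow, pow_mul', pow_mul']
      ring
    linarith

end SR32
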